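import Pool.Agent.W_7d29a1_h46u.StrU

/-!
The scaling relation in all dimensions: definitions and the frozen statements of the leaves.
-/

namespace Pool.Agent.W_7d29a1_D2

open MeasureTheory ProbabilityTheory Filter Topology Pool.Agent.W_MP_7d29a1_pr
  Pool.Agent.W_7d29a1_h46 Pool.Agent.W_7d29a1_h46u

/-- The increment `L (h + r) - L h - ⟨v, r⟩`. -/
noncomputable def gap {d : ℕ} (L : Vec d → ℝ) (h v r : Vec d) : ℝ :=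
  L (h + r) - L h - inner ℝ v r

/-- `L (h + r) - L h - ⟨v, r⟩ ≤ C ‖r‖ ^ p` for small `r`. -/
def UpG {d : ℕ} (L : Vec d → ℝ) (h v : Vec d) (p : ℝ) : Prop :=
  ∃ C : ℝ, ∃ δ : ℝ, 0 < δ ∧ ∀ r : Vec d, ‖r‖ ≤ δ → gap L h v r ≤ C * ‖r‖ ^ p

/-- `c ‖r‖ ^ p ≤ L (h + r) - L h - ⟨v, r⟩` for some arbitrarily small `r`. -/
def LoG {d : ℕ} (L : Vec d → ℝ) (h v : Vec d) (p : ℝ) : Prop :=
  ∃ c : ℝ, 0 < c ∧ ∀ δ : ℝ, 0 < δ → ∃ r : Vec d, 0 < ‖r‖ ∧ ‖r‖ ≤ δ ∧ c * ‖r‖ ^ p ≤ gap L h v r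

/-- At every small scale `s` there is `r` with `‖r‖ = s` and
`c ‖r‖ ^ p ≤ L (h + r) - L h - ⟨v, r⟩`. -/
def LoA {d : ℕ} (L : Vec d → ℝ) (h v : Vec d) (p : ℝ) : Prop :=
  ∃ c : ℝ, 0 < c ∧ ∃ δ : ℝ, 0 < δ ∧ ∀ s : ℝ, 0 < s → s ≤ δ →
    ∃ r : Vec d, ‖r‖ = s ∧ c * s ^ p ≤ gap L h v r

/-- The growth exponent of `L` at `h` with slope `v`: the largest `p` such that
`L (h + r) - L h - ⟨v, r⟩ ≤ C ‖r‖ ^ p` for small `r` (as a supremum). -/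
noncomputable def gam {d : ℕ} (L : Vec d → ℝ) (h v : Vec d) : ℝ :=
  sSup {p : ℝ | 1 ≤ p ∧ UpG L h v p}

/-- The set in the definition of the fluctuation exponent of all moments. -/
def chiSetF {Ω : Type*} [MeasurableSpace Ω] (μ : Measure Ω) {d : ℕ} (β : ℝ)
    (ω : ℕ × Site d → Ω → ℝ) (h : Vec d) : Set ℝ :=
  {x | 0 < x ∧ ∀ q : ℕ, ∃ C : ℝ, ∀ n : ℕ, 1 ≤ n →
    ∫ y, |Real.log (Zn β h (fun p => ω p y) n) -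
      ∫ z, Real.log (Zn β h (fun p => ω p z) n) ∂μ| ^ q ∂μ ≤ C * (n : ℝ) ^ (x * q)}

/-- The upper fluctuation exponent at the tilt `h`: the infimum of the `x > 0` such that, for every
`q`, the `q`-th central moment of `log Z_n(h)` is `O(n ^ (q x))`. -/
noncomputable def chiF {Ω : Type*} [MeasurableSpace Ω] (μ : Measure Ω) {d : ℕ} (β : ℝ)
    (ω : ℕ × Site d → Ω → ℝ) (h : Vec d) : ℝ := sInf (chiSetF μ β ω h)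

/-- The moments at the tilt `h` in the model `law d ρ`. -/
def FlF {d : ℕ} (ρ : Measure ℝ) (β : ℝ) (h : Vec d) (x : ℝ) : Prop :=
  ∀ q : ℕ, ∃ C : ℝ, ∀ n : ℕ, 1 ≤ n →
    ∫ η, |X β h η n - A ρ β h n| ^ q ∂(law d ρ) ≤ C * (n : ℝ) ^ (x * q)

/-- The tube property in the model `law d ρ` (the condition of `nuSetS`). -/
def TbF {d : ℕ} (ρ : Measure ℝ) (β : ℝ) (h v : Vec d) (a : ℝ) : Prop :=
  ∀ q : ℕ, ∃ C : ℝ, ∀ n : ℕ, 1 ≤ n →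
    ∫ η, (1 - PolT β h η (tube d n v ((n : ℝ) ^ a))) ∂(law d ρ) ≤ C * (n : ℝ) ^ (-(q : ℝ))

/-- The core estimate: all central moments of `log Z_n(h)` at the price of a crossing. -/
def CoreP {d : ℕ} (ρ : Measure ℝ) (β : ℝ) (h v : Vec d) (a x : ℝ) : Prop :=
  ∀ (q : ℕ) (ε : ℝ), 0 < ε → ∃ δ : ℝ, 0 < δ ∧ ∃ C : ℝ, 0 ≤ C ∧
    ∀ n m : ℕ, 1 ≤ m → 2 * m ≤ n → ∀ r : Vec d, 0 < ‖r‖ → ‖r‖ < δ →
      4 * ‖r‖ * (n : ℝ) ^ a + C * ((m : ℝ) ^ x * (n : ℝ) ^ ε) ≤ m * gap (lam ρ β) h v r →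
      ∫ η, |X β h η n - A ρ β h n| ^ q ∂(law d ρ) ≤
        (C * (‖r‖ * (n : ℝ) ^ a + (m : ℝ) ^ x * (n : ℝ) ^ ε)) ^ q

end Pool.Agent.W_7d29a1_D2
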