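import Pool.Agent.W_7d29a1_D2.AeV6
import Pool.Agent.W_7d29a1_D2.Defs46

/-!
The growth of a convex function at almost every point and at almost every slope, in the letters of
`Defs46`, and the clause for almost every direction.
-/

namespace Pool.Agent.W_7d29a1_D2

open MeasureTheory ProbabilityTheory Set Filter Topology Pool.Agent.W_MP_7d29a1_pr
  Pool.Agent.W_7d29a1_h46 Pool.Agent.W_7d29a1_h46u

variable {d : ℕ}

lemma rpow_two_real (x : ℝ) : x ^ (2 : ℝ) = x ^ 2 := by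
  rw [show (2 : ℝ) = ((2 : ℕ) : ℝ) by norm_num, Real.rpow_natCast]

lemma norm_ej_one (j : Fin d) : ‖(ej j : Vec d)‖ = 1 := by
  simp [ej]

/-- **Almost every point.** -/
theorem ae_upG {L : Vec d → ℝ} (hL : ConvexOn ℝ univ L) :
    ∀ᵐ h : Vec d, ∃ v : Vec d, UpG L h v 2 := by
  filter_upwards [ae_upp hL] with h hh
  obtain ⟨v, C, -, δ, hδ, H⟩ := hh
  refine ⟨v, C, δ, hδ, fun r hr => ?_⟩
  have h1 := H r hr
  unfold gap
  rw [rpow_two_real]
  linarith

/-- **Almost every slope.** At almost every `v`, at every point `h` of which `v` is a subgradient. -/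
theorem ae_loA (hd : 0 < d) {L : Vec d → ℝ} (hL : ConvexOn ℝ univ L) :
    ∀ᵐ v : Vec d, ∀ h : Vec d, (∀ u : Vec d, L h + inner ℝ v u ≤ L (h + u)) → LoA L h v 2 := by
  filter_upwards [ae_low hL] with v hv h hh
  obtain ⟨c, hc, δ, hδ, H⟩ := hv h hh
  refine ⟨c, hc, δ, hδ, fun s hs hsδ => ⟨s • ej ⟨0, hd⟩, ?_, ?_⟩⟩
  · rw [norm_smul, norm_ej_one, mul_one, Real.norm_eq_abs, abs_of_pos hs]
  · have hn : ‖s • (ej ⟨0, hd⟩ : Vec d)‖ = s := by
      rw [norm_smul, norm_ej_one, mul_one, Real.norm_eq_abs, abs_of_pos hs]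
    have h1 := H (s • ej ⟨0, hd⟩) (by rw [hn]; exact hsδ)
    rw [hn] at h1
    unfold gap
    rw [rpow_two_real]
    linarith

/-- The same in all directions at once. -/
theorem ae_loG_all {L : Vec d → ℝ} (hL : ConvexOn ℝ univ L) :
    ∀ᵐ v : Vec d, ∀ h : Vec d, (∀ u : Vec d, L h + inner ℝ v u ≤ L (h + u)) →
      ∃ c > 0, ∃ δ > 0, ∀ r : Vec d, ‖r‖ ≤ δ → c * ‖r‖ ^ (2 : ℝ) ≤ gap L h v r := by
  filter_upwards [ae_low hL] with v hv h hh
  obtain ⟨c, hc, δ, hδ, H⟩ := hv h hh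
  refine ⟨c, hc, δ, hδ, fun r hr => ?_⟩
  have h1 := H r hr
  unfold gap
  rw [rpow_two_real]
  linarith

/-- Large scale growth everywhere implies growth at some small scales. -/
theorem LoG_of_LoA {L : Vec d → ℝ} {h v : Vec d} {p : ℝ} (H : LoA L h v p) : LoG L h v p := by
  obtain ⟨c, hc, δ, hδ, H⟩ := H
  refine ⟨c, hc, fun δ' hδ' => ?_⟩
  obtain ⟨r, hr, hr2⟩ := H (min δ δ') (lt_min hδ hδ') (min_le_left _ _)
  refine ⟨r, ?_, ?_, ?_⟩
  · rw [hr]
    exact lt_min hδ hδ'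
  · rw [hr]
    exact min_le_right _ _
  · rw [hr]
    exact hr2

variable {Ω : Type*} [MeasurableSpace Ω] {μ : Measure Ω} [IsProbabilityMeasure μ]
  {ρ : Measure ℝ} [IsProbabilityMeasure ρ] {ω : ℕ × Site d → Ω → ℝ} {β : ℝ}

omit [IsProbabilityMeasure μ] in
/-- **The clause for almost every direction**, from the clause (1) with `p = 2`, the subgradient
property and the order of the exponents. -/
theorem ae_dir (hd : 0 < d) (hρ : EM ρ)
    (hA : ∀ h v : Vec d, LoA (lam ρ β) h v 2 →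
      (1 + (2 - 1) * chiS μ β ω h) * chiF μ β ω h ≤ 2 * nuS μ β ω h v * chiS μ β ω h)
    (hS : ∀ h v : Vec d, nuS μ β ω h v < 1 → ∀ k : Vec d,
      lam ρ β h + inner ℝ v k ≤ lam ρ β (h + k))
    (hF : ∀ h : Vec d, chiF μ β ω h ≤ chiS μ β ω h)
    (hc : ∀ h : Vec d, chiS μ β ω h ≤ 1 / 2) :
    ∀ᵐ v : Vec d, ∀ h : Vec d,
      (1 + chiS μ β ω h) * chiF μ β ω h ≤ 2 * nuS μ β ω h v * chiS μ β ω h := by
  filter_upwards [ae_loA hd (lam_convex (ρ := ρ) hd hρ β)] with v hv h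
  have hc0 : 0 ≤ chiS μ β ω h := Real.sInf_nonneg fun x hx => hx.1.le
  rcases lt_or_ge (nuS μ β ω h v) 1 with h1 | h1
  · have h2 := hA h v (hv h (hS h v h1))
    have h3 : (2 - 1 : ℝ) * chiS μ β ω h = chiS μ β ω h := by ring
    rw [h3] at h2
    exact h2
  · have h2 : (1 + chiS μ β ω h) * chiF μ β ω h ≤ (1 + chiS μ β ω h) * chiS μ β ω h :=
      mul_le_mul_of_nonneg_left (hF h) (by linarith)
    have h3 : (1 + chiS μ β ω h) * chiS μ β ω h ≤ 2 * nuS μ β ω h v * chiS μ β ω h :=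
      mul_le_mul_of_nonneg_right (by linarith [hc h]) hc0
    exact h2.trans h3

end Pool.Agent.W_7d29a1_D2
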