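import Pool.Agent.W_7d29a1_h46u.Fub

/-!
Curvature of a convex function from below at almost every slope, in every dimension, and the second
order upper expansion in all directions at almost every point.
-/

namespace Pool.Agent.W_7d29a1_D2

open MeasureTheory Set Filter Topology Pool.Agent.W_MP_7d29a1_pr Pool.Agent.W_7d29a1_h46
  Pool.Agent.W_7d29a1_h46u

variable {d : ℕ}

lemma inner_vec (v u : Vec d) : inner ℝ v u = ∑ j, v j * u j := by
  rw [PiLp.inner_apply]
  refine Finset.sum_congr rfl fun j _ => ?_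
  simp [mul_comm]

lemma norm_sq_vec (u : Vec d) : ‖u‖ ^ 2 = ∑ j, u j ^ 2 := by
  rw [EuclideanSpace.real_norm_sq_eq]

lemma abs_coord_le (u : Vec d) (j : Fin d) : |u j| ≤ ‖u‖ := by
  have h1 : u j ^ 2 ≤ ‖u‖ ^ 2 := by
    rw [norm_sq_vec]
    exact Finset.single_le_sum (f := fun i => u i ^ 2) (fun i _ => sq_nonneg _)
      (Finset.mem_univ j)
  exact abs_le_of_sq_le_sq h1 (norm_nonneg u) |> fun h => h

/-- The coordinatewise second order expansion of a convex function holds in all directions. -/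
theorem expC_all {L : Vec d → ℝ} (hL : ConvexOn ℝ univ L) {h v : Vec d} (hE : ExpC L h v) :
    ∃ C : ℝ, 0 ≤ C ∧ ∃ δ > 0, ∀ u : Vec d, ‖u‖ ≤ δ → L (h + u) ≤ L h + inner ℝ v u + C * ‖u‖ ^ 2 := by
  rcases Nat.eq_zero_or_pos d with rfl | hd
  · refine ⟨0, le_rfl, 1, one_pos, fun u _ => ?_⟩
    have hu : u = 0 := Subsingleton.elim _ _
    subst hu
    simp
  obtain ⟨C, hC⟩ := hE
  have hd0 : (0 : ℝ) < d := by exact_mod_cast hd
  refine ⟨max C 0 * d, mul_nonneg (le_max_right _ _) hd0.le, 1 / d, by positivity, fun u hu => ?_⟩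
  have hsum : ∑ j : Fin d, ((1 : ℝ) / d) • (h + ((d : ℝ) * u j) • ej j) = h + u := by
    ext i
    simp only [ej, PiLp.add_apply, WithLp.ofLp_sum, Finset.sum_apply, PiLp.smul_apply, smul_eq_mul,
      PiLp.single_apply, mul_add, Finset.sum_add_distrib, Finset.sum_const, Finset.card_univ,
      Fintype.card_fin, nsmul_eq_mul]
    rw [Finset.sum_eq_single i]
    · simp only [if_true]
      field_simp
    · intro b _ hb
      rw [if_neg (fun h => hb h.symm)]
      ring
    · intro hi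
      exact absurd (Finset.mem_univ i) hi
  have h1 := hL.map_sum_le (t := Finset.univ) (w := fun _ : Fin d => (1 : ℝ) / d)
    (p := fun j => h + ((d : ℝ) * u j) • ej j) (fun _ _ => by positivity)
    (by simp [hd0.ne']) (fun _ _ => mem_univ _)
  rw [hsum] at h1
  refine h1.trans ?_
  have h2 : ∀ j : Fin d, ((1 : ℝ) / d) • L (h + ((d : ℝ) * u j) • ej j) ≤
      1 / d * L h + v j * u j + max C 0 * d * u j ^ 2 := by
    intro j
    have h3 : |(d : ℝ) * u j| ≤ 1 := by
      rw [abs_mul, abs_of_pos hd0]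
      have h4 := (abs_coord_le u j).trans hu
      rw [le_div_iff₀ hd0] at h4
      linarith
    have h4 := hC j _ h3
    have h5 : C * ((d : ℝ) * u j) ^ 2 ≤ max C 0 * ((d : ℝ) * u j) ^ 2 :=
      mul_le_mul_of_nonneg_right (le_max_left _ _) (sq_nonneg _)
    have h6 : L (h + ((d : ℝ) * u j) • ej j) ≤
        L h + v j * ((d : ℝ) * u j) + max C 0 * ((d : ℝ) * u j) ^ 2 := by linarith
    have h7 := mul_le_mul_of_nonneg_left h6 (show (0 : ℝ) ≤ 1 / d by positivity)
    rw [smul_eq_mul]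
    refine h7.trans (le_of_eq ?_)
    field_simp
  refine (Finset.sum_le_sum fun j _ => h2 j).trans (le_of_eq ?_)
  rw [inner_vec, norm_sq_vec, Finset.sum_add_distrib, Finset.sum_add_distrib, Finset.sum_const,
    Finset.card_univ, Fintype.card_fin, nsmul_eq_mul, ← Finset.mul_sum]
  field_simp

/-- At almost every point a convex function has a second order upper expansion in all directions. -/
theorem ae_upp {L : Vec d → ℝ} (hL : ConvexOn ℝ univ L) :
    ∀ᵐ h : Vec d, ∃ v : Vec d, ∃ C : ℝ, 0 ≤ C ∧ ∃ δ > 0, ∀ u : Vec d, ‖u‖ ≤ δ →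
      L (h + u) ≤ L h + inner ℝ v u + C * ‖u‖ ^ 2 := by
  filter_upwards [ae_ExpC hL] with h hh
  obtain ⟨v, hv⟩ := hh
  exact ⟨v, expC_all hL hv⟩

/-- Legendre transform over a ball. -/
noncomputable def JM (L : Vec d → ℝ) (M : ℝ) (v : Vec d) : ℝ :=
  sSup ((fun h : Vec d => inner ℝ h v - L h) '' Metric.closedBall 0 M)

theorem JM_bdd {L : Vec d → ℝ} (hL : ConvexOn ℝ univ L) (M : ℝ) (v : Vec d) :
    BddAbove ((fun h : Vec d => inner ℝ h v - L h) '' Metric.closedBall 0 M) := by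
  have hc : Continuous L := by
    rw [← continuousOn_univ]
    exact hL.continuousOn isOpen_univ
  exact ((isCompact_closedBall 0 M).image (by fun_prop)).bddAbove

theorem JM_le {L : Vec d → ℝ} (hL : ConvexOn ℝ univ L) {M : ℝ} {h : Vec d} (hh : ‖h‖ ≤ M)
    (v : Vec d) : inner ℝ h v - L h ≤ JM L M v :=
  le_csSup (JM_bdd hL M v) ⟨h, by simpa using hh, rfl⟩

theorem JM_ge {L : Vec d → ℝ} {M c : ℝ} {v : Vec d} (hM : 0 ≤ M)
    (h : ∀ h : Vec d, ‖h‖ ≤ M → inner ℝ h v - L h ≤ c) : JM L M v ≤ c := by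
  refine csSup_le ⟨_, ⟨0, by simpa using hM, rfl⟩⟩ ?_
  rintro _ ⟨x, hx, rfl⟩
  exact h x (by simpa using hx)

theorem JM_conv {L : Vec d → ℝ} (hL : ConvexOn ℝ univ L) {M : ℝ} (hM : 0 ≤ M) :
    ConvexOn ℝ univ (JM L M) := by
  refine ⟨convex_univ, fun x _ y _ a b ha hb hab => ?_⟩
  refine JM_ge hM fun h hh => ?_
  have h1 := mul_le_mul_of_nonneg_left (JM_le hL hh x) ha
  have h2 := mul_le_mul_of_nonneg_left (JM_le hL hh y) hb
  simp only [smul_eq_mul]
  have h3 : inner ℝ h (a • x + b • y) - L h =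
      a * (inner ℝ h x - L h) + b * (inner ℝ h y - L h) := by
    have h4 : L h = (a + b) * L h := by rw [hab, one_mul]
    rw [inner_add_right, real_inner_smul_right, real_inner_smul_right]
    linear_combination -h4
  rw [h3]
  exact add_le_add h1 h2

theorem lin_zero {q : Vec d} {C δ : ℝ} (hC : 0 ≤ C) (hδ : 0 < δ)
    (h : ∀ w : Vec d, ‖w‖ ≤ δ → inner ℝ q w ≤ C * ‖w‖ ^ 2) : q = 0 := by
  by_contra hq
  have hq0 : 0 < ‖q‖ := norm_pos_iff.2 hq
  set K : ℝ := ‖q‖ / δ + C + 1 with hK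
  have hK1 : 0 < ‖q‖ / δ := by positivity
  have hK0 : 0 < K := by linarith
  have hw : ‖(1 / K) • q‖ ≤ δ := by
    rw [norm_smul, Real.norm_eq_abs, abs_of_pos (by positivity : 0 < 1 / K), one_div,
      inv_mul_le_iff₀ hK0]
    have h1 : ‖q‖ = ‖q‖ / δ * δ := by field_simp
    have h2 : ‖q‖ / δ * δ ≤ K * δ := mul_le_mul_of_nonneg_right (by linarith) hδ.le
    linarith
  have h1 := h _ hw
  rw [real_inner_smul_right, real_inner_self_eq_norm_sq, norm_smul, Real.norm_eq_abs,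
    abs_of_pos (by positivity : 0 < 1 / K)] at h1
  have h2 : C * (1 / K * ‖q‖) ^ 2 = C / K * (1 / K * ‖q‖ ^ 2) := by ring
  rw [h2] at h1
  have h3 : C / K < 1 := by
    rw [div_lt_one hK0]
    linarith
  have h4 : 0 < 1 / K * ‖q‖ ^ 2 := by positivity
  nlinarith

/-- **Almost every slope.** For almost every `v`, at every point `h` of which `v` is a subgradient the
convex function is curved from below in all directions. -/
theorem ae_low {L : Vec d → ℝ} (hL : ConvexOn ℝ univ L) :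
    ∀ᵐ v : Vec d, ∀ h : Vec d, (∀ u : Vec d, L h + inner ℝ v u ≤ L (h + u)) →
      ∃ c > 0, ∃ δ > 0, ∀ u : Vec d, ‖u‖ ≤ δ → L h + inner ℝ v u + c * ‖u‖ ^ 2 ≤ L (h + u) := by
  have hall : ∀ M : ℕ, ∀ᵐ v : Vec d, ∃ k, ExpC (JM L M) v k := fun M =>
    ae_ExpC (JM_conv hL (Nat.cast_nonneg M))
  filter_upwards [ae_all_iff.2 hall] with v hv h hh
  obtain ⟨M, hM⟩ := exists_nat_gt (‖h‖ + 1)
  obtain ⟨k, hk⟩ := hv M
  have hM0 : (0 : ℝ) ≤ M := Nat.cast_nonneg M
  obtain ⟨C, hC0, δ, hδ, hC⟩ := expC_all (JM_conv hL hM0) hk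
  have hhM : ‖h‖ ≤ M := by linarith
  have hI : JM L M v = inner ℝ h v - L h := by
    apply le_antisymm
    · refine JM_ge hM0 fun x _ => ?_
      have h1 := hh (x - h)
      rw [add_sub_cancel, inner_sub_right, real_inner_comm x v, real_inner_comm h v] at h1
      linarith
    · exact JM_le hL hhM v
  have hkh : h - k = 0 := by
    refine lin_zero hC0 hδ fun w hw => ?_
    have h1 := hC w hw
    have h2 := JM_le hL hhM (v + w)
    rw [hI] at h1
    rw [inner_add_right] at h2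
    rw [inner_sub_left]
    linarith
  have hk' : k = h := by
    have := sub_eq_zero.1 hkh
    exact this.symm
  subst hk'
  set D := max C 1 with hD
  have hD1 : 1 ≤ D := le_max_right _ _
  have hD2 : C ≤ D := le_max_left _ _
  have hD0 : 0 < D := by linarith
  refine ⟨1 / (4 * D), by positivity, min 1 δ, lt_min one_pos hδ, fun u hu => ?_⟩
  have hu1 : ‖u‖ ≤ 1 := hu.trans (min_le_left _ _)
  have hu2 : ‖u‖ ≤ δ := hu.trans (min_le_right _ _)
  have hnw : ‖(1 / (2 * D)) • u‖ = 1 / (2 * D) * ‖u‖ := by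
    rw [norm_smul, Real.norm_eq_abs, abs_of_pos (by positivity : 0 < 1 / (2 * D))]
  have hw : ‖(1 / (2 * D)) • u‖ ≤ δ := by
    rw [hnw]
    have h1 : 1 / (2 * D) ≤ 1 := by
      rw [div_le_one (by positivity)]
      linarith
    have h2 := mul_le_mul_of_nonneg_right h1 (norm_nonneg u)
    linarith
  have h1 := hC _ hw
  have h2 : ‖k + u‖ ≤ M := by
    have := norm_add_le k u
    linarith
  have h3 := JM_le hL h2 (v + (1 / (2 * D)) • u)
  rw [hI, hnw, real_inner_smul_right] at h1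
  rw [inner_add_left, inner_add_right, inner_add_right, real_inner_smul_right,
    real_inner_smul_right, real_inner_self_eq_norm_sq, real_inner_comm v u] at h3
  have h4 : C * (1 / (2 * D) * ‖u‖) ^ 2 ≤ 1 / (4 * D) * ‖u‖ ^ 2 := by
    have h5 : C * (1 / (2 * D) * ‖u‖) ^ 2 ≤ D * (1 / (2 * D) * ‖u‖) ^ 2 :=
      mul_le_mul_of_nonneg_right hD2 (sq_nonneg _)
    have h6 : D * (1 / (2 * D) * ‖u‖) ^ 2 = 1 / (4 * D) * ‖u‖ ^ 2 := by
      field_simp
      ring
    linarith
  have h7 : 1 / (2 * D) * ‖u‖ ^ 2 = 2 * (1 / (4 * D) * ‖u‖ ^ 2) := by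
    field_simp
    ring
  rw [h7] at h3
  linarith

end Pool.Agent.W_7d29a1_D2
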