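import Pool.Agent.W_7d29a1_h46u.Fub

/-!
For almost every direction `v`, a convex function is quadratically bounded from below at every tilt
`h` with `v` in the subdifferential at `h` (in every dimension).
-/

namespace Pool.Agent.W_7d29a1_D2

open MeasureTheory Filter Topology Set Pool.Agent.W_MP_7d29a1_pr Pool.Agent.W_7d29a1_h46
  Pool.Agent.W_7d29a1_h46u

variable {d : ℕ}

/-- The conjugate of the restriction of `L` to the ball of radius `M`. -/
noncomputable def cj60 (L : Vec d → ℝ) (M : ℕ) (w : Vec d) : ℝ :=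
  sSup ((fun k : Vec d => inner ℝ k w - L k) '' Metric.closedBall (0 : Vec d) M)

lemma aj_bdd60 {L : Vec d → ℝ} (hL : ConvexOn ℝ univ L) (M : ℕ) (w : Vec d) :
    BddAbove ((fun k : Vec d => inner ℝ k w - L k) '' Metric.closedBall (0 : Vec d) M) := by
  have hc : Continuous L := by
    rw [← continuousOn_univ]
    exact hL.continuousOn isOpen_univ
  refine (isCompact_closedBall (0 : Vec d) M).bddAbove_image ?_
  exact ((continuous_id.inner continuous_const).sub hc).continuousOn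

lemma aj_le60 {L : Vec d → ℝ} (hL : ConvexOn ℝ univ L) (M : ℕ) {k : Vec d} (hk : ‖k‖ ≤ M)
    (w : Vec d) : inner ℝ k w - L k ≤ cj60 L M w :=
  le_csSup (aj_bdd60 hL M w) ⟨k, by simpa using hk, rfl⟩

lemma aj_ge60 {L : Vec d → ℝ} (M : ℕ) (w : Vec d) {c : ℝ}
    (hc : ∀ k : Vec d, ‖k‖ ≤ M → inner ℝ k w - L k ≤ c) : cj60 L M w ≤ c := by
  refine csSup_le ⟨_, ⟨0, by simp, rfl⟩⟩ ?_
  rintro _ ⟨k, hk, rfl⟩
  exact hc k (by simpa using hk)

lemma aj_conv60 {L : Vec d → ℝ} (hL : ConvexOn ℝ univ L) (M : ℕ) :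
    ConvexOn ℝ univ (cj60 L M) := by
  refine ⟨convex_univ, fun x _ y _ a b ha hb hab => ?_⟩
  refine aj_ge60 M _ fun k hk => ?_
  have h1 := mul_le_mul_of_nonneg_left (aj_le60 hL M hk x) ha
  have h2 := mul_le_mul_of_nonneg_left (aj_le60 hL M hk y) hb
  rw [inner_add_right, inner_smul_right, inner_smul_right]
  simp only [smul_eq_mul]
  have h3 : a * inner ℝ k x + b * inner ℝ k y - L k =
      a * (inner ℝ k x - L k) + b * (inner ℝ k y - L k) := by
    have : L k = (a + b) * L k := by rw [hab, one_mul]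
    linear_combination -this
  rw [h3]
  exact add_le_add h1 h2

/-- A linear function below a quadratic one vanishes. -/
lemma aj_lin60 {a C : ℝ} (H : ∀ t : ℝ, |t| ≤ 1 → a * t ≤ C * t ^ 2) : a = 0 := by
  by_contra ha
  set K : ℝ := |C| + |a| + 1 with hK
  have hK0 : 0 < K := by positivity
  have hC : C ≤ K := by
    have := le_abs_self C
    have := abs_nonneg a
    linarith
  have haK : |a| ≤ K := by
    have := abs_nonneg C
    linarith
  have ht : |a / (2 * K)| ≤ 1 := by
    rw [abs_div, abs_of_pos (show 0 < 2 * K by positivity), div_le_one (by positivity)]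
    linarith
  have h1 := H _ ht
  have h2 : 0 < a ^ 2 := by positivity
  have h3 : a * (a / (2 * K)) = a ^ 2 / (2 * K) := by ring
  have h4 : C * (a / (2 * K)) ^ 2 ≤ K * (a / (2 * K)) ^ 2 :=
    mul_le_mul_of_nonneg_right hC (sq_nonneg _)
  have h5 : K * (a / (2 * K)) ^ 2 = a ^ 2 / (2 * K) / 2 := by
    field_simp
  have h6 : 0 < a ^ 2 / (2 * K) := by positivity
  rw [h3] at h1
  rw [h5] at h4
  linarith

lemma aj_sum60 (x y : Vec d) : inner ℝ x y = ∑ j, x j * y j := by
  rw [PiLp.inner_apply]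
  refine Finset.sum_congr rfl fun j _ => ?_
  simp [mul_comm]

/-- The second order upper bound in all directions. -/
lemma aj_up60 (hd : 0 < d) {J : Vec d → ℝ} (hJ : ConvexOn ℝ univ J) {v g : Vec d} {C : ℝ}
    (hC : ∀ j : Fin d, ∀ t : ℝ, |t| ≤ 1 → J (v + t • ej j) ≤ J v + g j * t + C * t ^ 2) {u : Vec d}
    (hu : d * ‖u‖ ≤ 1) : J (v + u) ≤ J v + inner ℝ g u + d * |C| * ‖u‖ ^ 2 := by
  have hd0 : (0 : ℝ) < d := by exact_mod_cast hd
  have hcoord : ∀ j, |u j| ≤ ‖u‖ := fun j => by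
    have := PiLp.norm_apply_le u j
    simpa using this
  have h1 := hJ.map_sum_le (t := Finset.univ) (w := fun _ : Fin d => (1 / (d : ℝ)))
    (p := fun j => v + ((d : ℝ) * u j) • ej j) (fun _ _ => by positivity)
    (by simp [hd0.ne']) (fun _ _ => mem_univ _)
  have h2 : ∑ j : Fin d, (1 / (d : ℝ)) • (v + ((d : ℝ) * u j) • ej j) = v + u := by
    simp only [smul_add, Finset.sum_add_distrib, smul_smul]
    congr 1
    · rw [Finset.sum_const, Finset.card_univ, Fintype.card_fin, ← Nat.cast_smul_eq_nsmul ℝ,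
        smul_smul, mul_one_div_cancel hd0.ne', one_smul]
    · have h3 : ∀ j, 1 / (d : ℝ) * ((d : ℝ) * u j) = u j := fun j => by field_simp
      simp only [h3]
      ext i
      have h4 : (∑ j : Fin d, u j • (ej j : Vec d)) i = ∑ j : Fin d, (u j • (ej j : Vec d)) i := by
        simp
      rw [h4]
      simp [ej]
  rw [h2] at h1
  refine h1.trans ?_
  have h5 : ∀ j : Fin d, J (v + ((d : ℝ) * u j) • ej j) ≤
      J v + g j * ((d : ℝ) * u j) + |C| * ((d : ℝ) * u j) ^ 2 := fun j => by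
    have h6 : |(d : ℝ) * u j| ≤ 1 := by
      rw [abs_mul, abs_of_pos hd0]
      exact (mul_le_mul_of_nonneg_left (hcoord j) hd0.le).trans hu
    refine (hC j _ h6).trans ?_
    have := mul_le_mul_of_nonneg_right (le_abs_self C) (sq_nonneg ((d : ℝ) * u j))
    linarith
  have h7 : ∑ j : Fin d, (1 / (d : ℝ)) • J (v + ((d : ℝ) * u j) • ej j) ≤
      ∑ j : Fin d, (1 / (d : ℝ)) * (J v + g j * ((d : ℝ) * u j) + |C| * ((d : ℝ) * u j) ^ 2) := by
    refine Finset.sum_le_sum fun j _ => ?_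
    simp only [smul_eq_mul]
    exact mul_le_mul_of_nonneg_left (h5 j) (by positivity)
  refine h7.trans (le_of_eq ?_)
  have h8 : ‖u‖ ^ 2 = ∑ j, u j * u j := by
    rw [← real_inner_self_eq_norm_sq, aj_sum60]
  rw [h8, aj_sum60, Finset.mul_sum]
  have h9 : ∀ j : Fin d, (1 / (d : ℝ)) * (J v + g j * ((d : ℝ) * u j) + |C| * ((d : ℝ) * u j) ^ 2) =
      (1 / (d : ℝ)) * J v + g j * u j + d * |C| * (u j * u j) := fun j => by
    field_simp
  simp only [h9, Finset.sum_add_distrib]
  congr 1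
  congr 1
  rw [Finset.sum_const, Finset.card_univ, Fintype.card_fin, nsmul_eq_mul, ← mul_assoc,
    mul_one_div_cancel hd0.ne', one_mul]

/-- For almost every `v` and every `h` with `v` in the subdifferential of `L` at `h`, the function
`L` is quadratically bounded from below at `h`. -/
theorem alJ60 {L : Vec d → ℝ} (hL : ConvexOn ℝ univ L) :
    ∀ᵐ v : Vec d, ∀ h : Vec d, (∀ w : Vec d, L h + inner ℝ v (w - h) ≤ L w) →
      ∃ c > 0, ∃ δ > 0, ∀ r : Vec d, ‖r‖ ≤ δ → L h + inner ℝ v r + c * ‖r‖ ^ 2 ≤ L (h + r) := by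
  rcases Nat.eq_zero_or_pos d with hd | hd
  · subst hd
    refine Eventually.of_forall fun v h _ => ⟨1, one_pos, 1, one_pos, fun r _ => ?_⟩
    rw [Subsingleton.elim r 0]
    simp
  have hd0 : (0 : ℝ) < d := by exact_mod_cast hd
  have hae : ∀ᵐ v : Vec d, ∀ M : ℕ, ∃ g, ExpC (cj60 L M) v g :=
    ae_all_iff.2 fun M => ae_ExpC (aj_conv60 hL M)
  filter_upwards [hae] with v hv h hsub
  obtain ⟨M, hM⟩ := exists_nat_ge (‖h‖ + 1)
  obtain ⟨g, C, hC⟩ := hv M
  have hhM : ‖h‖ ≤ M := by linarith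
  have hcv : cj60 L M v = inner ℝ h v - L h := by
    refine le_antisymm (aj_ge60 M v fun k _ => ?_) (aj_le60 hL M hhM v)
    have h1 := hsub k
    rw [inner_sub_right, real_inner_comm k v, real_inner_comm h v] at h1
    linarith
  have hgh : ∀ j, h j = g j := fun j => by
    have h1 : h j - g j = 0 := by
      refine aj_lin60 (C := C) fun t ht => ?_
      have h2 := hC j t ht
      have h3 := aj_le60 hL M hhM (v + t • ej j)
      have h4 : inner ℝ h (v + t • ej j) = inner ℝ h v + t * h j := by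
        rw [inner_add_right, inner_smul_right]
        congr 2
        rw [aj_sum60]
        simp [ej]
      rw [h4] at h3
      rw [hcv] at h2
      linarith
    linarith
  have hgh' : g = h := by
    ext j
    exact (hgh j).symm
  subst hgh'
  set C' : ℝ := d * |C| + 1 with hC'
  have hC'0 : 0 < C' := by positivity
  refine ⟨1 / (4 * C'), by positivity, min 1 (2 * C' / d), by positivity, fun r hr => ?_⟩
  have hr1 : ‖r‖ ≤ 1 := hr.trans (min_le_left _ _)
  have hr2 : ‖r‖ ≤ 2 * C' / d := hr.trans (min_le_right _ _)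
  set u : Vec d := (1 / (2 * C')) • r with hu
  have hun : ‖u‖ = 1 / (2 * C') * ‖r‖ := by
    rw [hu, norm_smul, Real.norm_eq_abs, abs_of_pos (by positivity)]
  have hu1 : d * ‖u‖ ≤ 1 := by
    rw [hun]
    rw [le_div_iff₀ hd0] at hr2
    calc d * (1 / (2 * C') * ‖r‖) = (‖r‖ * d) / (2 * C') := by ring
      _ ≤ 1 := (div_le_one (by positivity)).2 hr2
  have h1 := aj_up60 hd (aj_conv60 hL M) hC hu1
  have h2 : ‖g + r‖ ≤ M := (norm_add_le _ _).trans (by linarith)
  have h3 := aj_le60 hL M h2 (v + u)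
  rw [hcv] at h1
  have h4 : inner ℝ (g + r) (v + u) = inner ℝ g v + inner ℝ g u + inner ℝ v r +
      1 / (2 * C') * ‖r‖ ^ 2 := by
    rw [inner_add_left, inner_add_right, inner_add_right, real_inner_comm v r]
    have h5 : inner ℝ r u = 1 / (2 * C') * ‖r‖ ^ 2 := by
      rw [hu, inner_smul_right, real_inner_self_eq_norm_sq]
    rw [h5]
    ring
  have h6 : d * |C| * ‖u‖ ^ 2 ≤ C' * ‖u‖ ^ 2 :=
    mul_le_mul_of_nonneg_right (by linarith) (sq_nonneg _)
  have h7 : C' * ‖u‖ ^ 2 = 1 / (4 * C') * ‖r‖ ^ 2 := by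
    rw [hun]
    field_simp
    ring
  have h8 : 1 / (2 * C') * ‖r‖ ^ 2 = 1 / (4 * C') * ‖r‖ ^ 2 + 1 / (4 * C') * ‖r‖ ^ 2 := by
    field_simp
    ring
  rw [h4] at h3
  linarith

end Pool.Agent.W_7d29a1_D2
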