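import Pool.Agent.W_7d29a1_h46u.ConcV

/-!
At generic tilts the fluctuation exponent at the tilt is the locally uniform one (Baire category).
-/

namespace Pool.Agent.W_7d29a1_D2

open MeasureTheory ProbabilityTheory Filter Topology Set Pool.Agent.W_MP_7d29a1_pr
  Pool.Agent.W_7d29a1_h46 Pool.Agent.W_7d29a1_h46u

variable {d : ℕ} {ρ : Measure ℝ} [IsProbabilityMeasure ρ]

/-- The fluctuations at the tilt `h` are at most of order `n ^ x`. -/
def FlH {d : ℕ} (ρ : Measure ℝ) (β : ℝ) (h : Vec d) (x : ℝ) : Prop :=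
  ∀ q : ℕ, ∃ C : ℝ, ∀ n : ℕ, 1 ≤ n →
    ∫ η, |X β h η n - A ρ β h n| ^ q ∂(law d ρ) ≤ C * (n : ℝ) ^ (x * q)

omit [IsProbabilityMeasure ρ] in
/-- The uniform property implies the property at the tilt. -/
lemma FlH_of_Fl {β : ℝ} {h : Vec d} {x : ℝ} (H : Fl ρ β h x) : FlH ρ β h x := by
  intro q
  obtain ⟨δ, hδ, C, hC⟩ := H q
  exact ⟨C, fun n hn => hC h (by simpa using hδ) n hn⟩

lemma bai_lip (hd : 0 < d) (β : ℝ) (h h' : Vec d) (η : Env d) (n : ℕ) :
    |X β h' η n - X β h η n| ≤ ‖h' - h‖ * n := by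
  have h1 := X_tilt hd β h (h' - h) η n
  have h2 := X_tilt hd β h' (h - h') η n
  rw [add_sub_cancel] at h1 h2
  rw [norm_sub_rev h h'] at h2
  rw [abs_le]
  constructor <;> linarith

lemma bai_lipA (hd : 0 < d) (hρ : EM ρ) (β : ℝ) (h h' : Vec d) (n : ℕ) :
    |A ρ β h' n - A ρ β h n| ≤ ‖h' - h‖ * n := by
  unfold A
  rw [← integral_sub (concU hd hρ β h' n).1 (concU hd hρ β h n).1]
  have h1 := norm_integral_le_of_norm_le_const (μ := law d ρ)
    (f := fun η => X β h' η n - X β h η n) (C := ‖h' - h‖ * n)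
    (Eventually.of_forall fun η => by
      rw [Real.norm_eq_abs]
      exact bai_lip hd β h h' η n)
  simpa using h1

lemma bai_cont (hd : 0 < d) (hρ : EM ρ) (β : ℝ) {n : ℕ} (hn : 1 ≤ n) (q : ℕ) :
    Continuous fun h : Vec d => ∫ η, |X β h η n - A ρ β h n| ^ q ∂(law d ρ) := by
  obtain ⟨C, -, hC⟩ := momU (d := d) (ρ := ρ) hd hρ β q
  have hn0 : (0 : ℝ) ≤ n := Nat.cast_nonneg n
  rw [continuous_iff_continuousAt]
  intro h
  refine continuousAt_of_dominated
    (bound := fun η => 2 ^ q * (|X β h η n - A ρ β h n| ^ q + (2 * (n : ℝ)) ^ q)) ?_ ?_ ?_ ?_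
  · refine Eventually.of_forall fun h' => ?_
    exact ((((measurable_X β h' n).sub_const _).abs).pow_const q).aestronglyMeasurable
  · filter_upwards [Metric.ball_mem_nhds h one_pos] with h' hh'
    refine Eventually.of_forall fun η => ?_
    have hh : ‖h' - h‖ ≤ 1 := by
      rw [← dist_eq_norm]
      exact (Metric.mem_ball.1 hh').le
    rw [Real.norm_eq_abs, abs_of_nonneg (pow_nonneg (abs_nonneg _) _)]
    have h1 := bai_lip hd β h h' η n
    have h2 := bai_lipA hd hρ β h h' n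
    have h3 : ‖h' - h‖ * n ≤ n := by
      calc ‖h' - h‖ * n ≤ 1 * n := mul_le_mul_of_nonneg_right hh hn0
        _ = n := one_mul _
    have h4 : |X β h' η n - A ρ β h' n| ≤ |X β h η n - A ρ β h n| + 2 * n := by
      have e : X β h' η n - A ρ β h' n = (X β h η n - A ρ β h n) + (X β h' η n - X β h η n) -
        (A ρ β h' n - A ρ β h n) := by ring
      rw [e]
      refine (abs_sub _ _).trans ?_
      have := abs_add_le (X β h η n - A ρ β h n) (X β h' η n - X β h η n)
      linarith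
    refine (pow_le_pow_left₀ (abs_nonneg _) h4 q).trans ?_
    have h5 : |X β h η n - A ρ β h n| + 2 * (n : ℝ) ≤
        2 * max |X β h η n - A ρ β h n| (2 * (n : ℝ)) := by
      have := le_max_left |X β h η n - A ρ β h n| (2 * (n : ℝ))
      have := le_max_right |X β h η n - A ρ β h n| (2 * (n : ℝ))
      linarith
    have h6 : (max |X β h η n - A ρ β h n| (2 * (n : ℝ))) ^ q ≤
        |X β h η n - A ρ β h n| ^ q + (2 * (n : ℝ)) ^ q := by
      have p1 : 0 ≤ |X β h η n - A ρ β h n| ^ q := by positivity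
      have p2 : 0 ≤ (2 * (n : ℝ)) ^ q := by positivity
      rcases max_choice |X β h η n - A ρ β h n| (2 * (n : ℝ)) with hm | hm <;> rw [hm] <;> linarith
    calc (|X β h η n - A ρ β h n| + 2 * (n : ℝ)) ^ q
        ≤ (2 * max |X β h η n - A ρ β h n| (2 * (n : ℝ))) ^ q :=
          pow_le_pow_left₀ (by positivity) h5 q
      _ = 2 ^ q * (max |X β h η n - A ρ β h n| (2 * (n : ℝ))) ^ q := mul_pow _ _ _
      _ ≤ _ := mul_le_mul_of_nonneg_left h6 (by positivity)
  · exact (((hC h n hn).1).add (integrable_const _)).const_mul _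
  · refine Eventually.of_forall fun η => ?_
    have hX : Continuous fun h' : Vec d => X β h' η n := by
      rw [continuous_iff_continuousAt]
      intro h0
      rw [ContinuousAt, tendsto_iff_norm_sub_tendsto_zero]
      refine squeeze_zero (fun _ => norm_nonneg _) (fun h' => ?_)
        (g := fun h' => ‖h' - h0‖ * n) ?_
      · rw [Real.norm_eq_abs]
        exact bai_lip hd β h0 h' η n
      · have : Tendsto (fun h' : Vec d => ‖h' - h0‖ * (n : ℝ)) (𝓝 h0) (𝓝 (‖h0 - h0‖ * n)) :=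
          ((continuous_id.sub continuous_const).norm.mul continuous_const).tendsto h0
        simpa using this
    have hA : Continuous fun h' : Vec d => A ρ β h' n := by
      rw [continuous_iff_continuousAt]
      intro h0
      rw [ContinuousAt, tendsto_iff_norm_sub_tendsto_zero]
      refine squeeze_zero (fun _ => norm_nonneg _) (fun h' => ?_)
        (g := fun h' => ‖h' - h0‖ * n) ?_
      · rw [Real.norm_eq_abs]
        exact bai_lipA hd hρ β h0 h' n
      · have : Tendsto (fun h' : Vec d => ‖h' - h0‖ * (n : ℝ)) (𝓝 h0) (𝓝 (‖h0 - h0‖ * n)) :=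
          ((continuous_id.sub continuous_const).norm.mul continuous_const).tendsto h0
        simpa using this
    exact ((hX.sub hA).abs.pow q).continuousAt

/-- The tilts with a given bound. -/
def baiS {d : ℕ} (ρ : Measure ℝ) (β x : ℝ) (q C : ℕ) : Set (Vec d) :=
  {h | ∀ n : ℕ, 1 ≤ n → ∫ η, |X β h η n - A ρ β h n| ^ q ∂(law d ρ) ≤ C * (n : ℝ) ^ (x * q)}

lemma bai_closed (hd : 0 < d) (hρ : EM ρ) (β x : ℝ) (q C : ℕ) :
    IsClosed (baiS ρ β x q C : Set (Vec d)) := by
  have h1 : (baiS ρ β x q C : Set (Vec d)) = ⋂ (n : ℕ) (_ : 1 ≤ n),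
      {h | ∫ η, |X β h η n - A ρ β h n| ^ q ∂(law d ρ) ≤ C * (n : ℝ) ^ (x * q)} := by
    ext h
    simp [baiS]
  rw [h1]
  exact isClosed_iInter fun n => isClosed_iInter fun hn =>
    isClosed_le (bai_cont hd hρ β hn q) continuous_const

lemma bai_frontier (hd : 0 < d) (hρ : EM ρ) (β : ℝ) :
    ∀ᶠ h in residual (Vec d), ∀ (x : ℚ) (q C : ℕ), h ∉ frontier (baiS ρ β (x : ℝ) q C) := by
  rw [eventually_countable_forall]
  intro x
  rw [eventually_countable_forall]
  intro q
  rw [eventually_countable_forall]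
  intro C
  have h1 : Dense (frontier (baiS ρ β (x : ℝ) q C : Set (Vec d)))ᶜ := by
    rw [← interior_eq_empty_iff_dense_compl]
    exact interior_frontier (bai_closed hd hρ β x q C)
  exact residual_of_dense_open isClosed_frontier.isOpen_compl h1

/-- For a generic tilt `h` the bound at `h` implies the locally uniform bound. -/
theorem bai60 (hd : 0 < d) (hρ : EM ρ) (β : ℝ) :
    ∀ᶠ h in residual (Vec d), ∀ x x' : ℝ, x < x' → FlH ρ β h x → Fl ρ β h x' := by
  filter_upwards [bai_frontier hd hρ β] with h hh x x' hxx' hF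
  obtain ⟨y, hy1, hy2⟩ := exists_rat_btwn hxx'
  intro q
  obtain ⟨C₀, hC₀⟩ := hF q
  obtain ⟨C, hC⟩ := exists_nat_ge C₀
  have hmono : ∀ {a b : ℝ}, a ≤ b → ∀ n : ℕ, 1 ≤ n → (n : ℝ) ^ (a * q) ≤ (n : ℝ) ^ (b * q) := by
    intro a b hab n hn
    refine Real.rpow_le_rpow_of_exponent_le (by exact_mod_cast hn) ?_
    exact mul_le_mul_of_nonneg_right hab (Nat.cast_nonneg q)
  have hmem : h ∈ baiS ρ β (y : ℝ) q C := by
    intro n hn
    refine (hC₀ n hn).trans ?_
    refine mul_le_mul hC (hmono hy1.le n hn) (Real.rpow_nonneg (Nat.cast_nonneg n) _)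
      (Nat.cast_nonneg C)
  have hint : h ∈ interior (baiS ρ β (y : ℝ) q C) := by
    rw [← self_sdiff_frontier]
    exact ⟨hmem, hh y q C⟩
  rw [mem_interior_iff_mem_nhds, Metric.mem_nhds_iff] at hint
  obtain ⟨δ, hδ, hball⟩ := hint
  refine ⟨δ, hδ, C, fun h' hh' n hn => ?_⟩
  have h1 : h' ∈ baiS ρ β (y : ℝ) q C := hball (by rwa [Metric.mem_ball, dist_eq_norm])
  exact (h1 n hn).trans (mul_le_mul_of_nonneg_left (hmono hy2.le n hn) (Nat.cast_nonneg C))

/-- The fluctuation exponent at the tilt `h` and the locally uniform one are equal at generic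
tilts. -/
theorem bai60_inf (hd : 0 < d) (hρ : EM ρ) (β : ℝ) :
    ∀ᶠ h in residual (Vec d),
      sInf {x : ℝ | 0 < x ∧ FlH ρ β h x} = sInf {x : ℝ | 0 < x ∧ Fl ρ β h x} := by
  filter_upwards [bai60 hd hρ β] with h hh
  have hbd : ∀ P : ℝ → Prop, BddBelow {x : ℝ | 0 < x ∧ P x} := fun P =>
    ⟨0, fun x hx => hx.1.le⟩
  have hne : (1 / 2 : ℝ) ∈ {x : ℝ | 0 < x ∧ Fl ρ β h x} := ⟨by norm_num, Fl_half hd hρ β h⟩
  refine le_antisymm ?_ ?_
  · refine csInf_le_csInf (hbd _) ⟨_, hne⟩ ?_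
    rintro x ⟨hx0, hx⟩
    exact ⟨hx0, FlH_of_Fl hx⟩
  · refine le_csInf ⟨1 / 2, by norm_num, FlH_of_Fl hne.2⟩ ?_
    rintro x ⟨hx0, hx⟩
    refine le_of_forall_pos_le_add fun ε hε => ?_
    exact csInf_le (hbd _) ⟨by linarith, hh x (x + ε) (by linarith) hx⟩

end Pool.Agent.W_7d29a1_D2
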