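import Pool.Agent.W_7d29a1_D2.Baire21
import Pool.Agent.W_7d29a1_D2.Defs46

/-!
Baire category: `chiF = chiS` at all tilts of a dense `G_δ` set (helper21).
-/

namespace Pool.Agent.W_7d29a1_D2

open MeasureTheory ProbabilityTheory Filter Topology Pool.Agent.W_MP_7d29a1_pr
  Pool.Agent.W_7d29a1_h46 Pool.Agent.W_7d29a1_h46u

variable {d : ℕ} {Ω : Type*} [MeasurableSpace Ω] {μ : Measure Ω} [IsProbabilityMeasure μ]
  {ρ : Measure ℝ} [IsProbabilityMeasure ρ] {ω : ℕ × Site d → Ω → ℝ}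

theorem mem_chiSetF21 (hd : 0 < d) (hω : IID μ ρ ω) (hρ : EM ρ) (β : ℝ) (h : Vec d) (x : ℝ) :
    x ∈ chiSetF μ β ω h ↔ 0 < x ∧ FlF ρ β h x := by
  unfold chiSetF FlF
  simp only [Set.mem_ofPred_eq, StrA_mom hd hω hρ]

/-- The two exponents agree as soon as the bound at `h` alone gives the uniform one with every
larger exponent. -/
theorem chiF_eq_of21 (hd : 0 < d) (hω : IID μ ρ ω) (hρ : EM ρ) {β : ℝ} {h : Vec d}
    (hh : ∀ x y : ℝ, x < y → FlF ρ β h x → Fl ρ β h y) : chiF μ β ω h = chiS μ β ω h := by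
  have hbF : BddBelow (chiSetF μ β ω h) := ⟨0, fun x hx => hx.1.le⟩
  have hbS : BddBelow (chiSetS μ β ω h) := ⟨0, fun x hx => hx.1.le⟩
  have hS : (1 / 2 : ℝ) ∈ chiSetS μ β ω h :=
    (mem_chiSetS hd hω hρ h _).2 ⟨by norm_num, Fl_half hd hρ β h⟩
  have hsub : chiSetS μ β ω h ⊆ chiSetF μ β ω h := by
    intro x hx
    obtain ⟨h0, h1⟩ := (mem_chiSetS hd hω hρ h x).1 hx
    exact (mem_chiSetF21 hd hω hρ β h x).2 ⟨h0, Fl_FlU21 h1⟩
  unfold chiF chiS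
  refine le_antisymm (csInf_le_csInf hbF ⟨_, hS⟩ hsub) ?_
  refine le_csInf ⟨_, hsub hS⟩ fun x hx => ?_
  obtain ⟨h0, h1⟩ := (mem_chiSetF21 hd hω hρ β h x).1 hx
  refine le_of_forall_gt_imp_ge_of_dense fun y hy => ?_
  exact csInf_le hbS ((mem_chiSetS hd hω hρ h y).2 ⟨h0.trans hy, hh x y hy h1⟩)

/-- For all tilts outside a meagre set the upper exponent at `h` alone is the strong exponent. -/
theorem chiF_residual21 (hd : 0 < d) (hω : IID μ ρ ω) (hρ : EM ρ) (β : ℝ) :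
    ∀ᶠ h : Vec d in residual (Vec d), chiF μ β ω h = chiS μ β ω h := by
  filter_upwards [baire21 (d := d) hd hρ β] with h hh
  exact chiF_eq_of21 hd hω hρ fun x y hxy hx => hh x y hxy hx

/-- CLAUSE (5): a dense `G_δ` set of tilts with `chiF = chiS`. -/
theorem chiF_dense21 (hd : 0 < d) (hω : IID μ ρ ω) (hρ : EM ρ) (β : ℝ) :
    ∃ T : Set (Vec d), IsGδ T ∧ Dense T ∧ ∀ h ∈ T, chiF μ β ω h = chiS μ β ω h := by
  obtain ⟨T, hT, h1, h2⟩ := mem_residual.1 (chiF_residual21 (μ := μ) hd hω hρ β)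
  exact ⟨T, h1, h2, fun h hh => hT hh⟩

end Pool.Agent.W_7d29a1_D2
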