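import Pool.Agent.W_7d29a1_h46u.StrU

/-!
Baire category: outside a meagre set of tilts the fluctuation exponent at the tilt `h` alone is
the strong exponent, which asks for uniformity near `h` (helper21).
-/

namespace Pool.Agent.W_7d29a1_D2

open MeasureTheory ProbabilityTheory Filter Topology Pool.Agent.W_MP_7d29a1_pr
  Pool.Agent.W_7d29a1_h46 Pool.Agent.W_7d29a1_h46u

variable {d : ℕ} {ρ : Measure ℝ} [IsProbabilityMeasure ρ] {β : ℝ}

/-- The `q`-th absolute central moment. -/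
noncomputable def mo21 {d : ℕ} (ρ : Measure ℝ) (β : ℝ) (q n : ℕ) (h : Vec d) : ℝ :=
  ∫ η, |X β h η n - A ρ β h n| ^ q ∂(law d ρ)

/-- The fluctuation bound at the tilt `h` alone. -/
def FlU21 {d : ℕ} (ρ : Measure ℝ) (β : ℝ) (h : Vec d) (x : ℝ) : Prop :=
  ∀ q : ℕ, ∃ C : ℝ, ∀ n : ℕ, 1 ≤ n →
    ∫ η, |X β h η n - A ρ β h n| ^ q ∂(law d ρ) ≤ C * (n : ℝ) ^ (x * q)

theorem X_lip21 (hd : 0 < d) (β : ℝ) (h h' : Vec d) (η : Env d) (n : ℕ) :
    |X β h' η n - X β h η n| ≤ ‖h' - h‖ * n := by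
  have h1 := X_tilt hd β h (h' - h) η n
  have h2 := X_tilt hd β h' (h - h') η n
  rw [add_sub_cancel] at h1 h2
  rw [norm_sub_rev h h'] at h2
  rw [abs_le]
  constructor <;> linarith

theorem A_lip21 (hd : 0 < d) (hρ : EM ρ) (β : ℝ) (h h' : Vec d) (n : ℕ) :
    |A ρ β h' n - A ρ β h n| ≤ ‖h' - h‖ * n := by
  have e : A ρ β h' n - A ρ β h n = ∫ η, (X β h' η n - X β h η n) ∂(law d ρ) := by
    unfold A
    rw [integral_sub (concU hd hρ β h' n).1 (concU hd hρ β h n).1]
  rw [e, ← Real.norm_eq_abs]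
  refine (norm_integral_le_of_norm_le_const (C := ‖h' - h‖ * n)
    (Eventually.of_forall fun η => ?_)).trans_eq ?_
  · rw [Real.norm_eq_abs]
    exact X_lip21 hd β h h' η n
  · simp

theorem cont_mo21 (hd : 0 < d) (hρ : EM ρ) (β : ℝ) (q n : ℕ) (hn : 1 ≤ n) :
    Continuous fun h : Vec d => mo21 ρ β q n h := by
  rw [continuous_iff_continuousAt]
  intro h
  unfold mo21
  obtain ⟨C, -, hC⟩ := momU (d := d) hd hρ β q
  have hn0 : (0 : ℝ) ≤ n := Nat.cast_nonneg n
  refine continuousAt_of_dominated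
    (bound := fun η => 2 ^ (q - 1) * (|X β h η n - A ρ β h n| ^ q + (2 * (n : ℝ)) ^ q))
    (Eventually.of_forall fun h' => (((measurable_X β h' n).sub_const _).abs.pow_const
      q).aestronglyMeasurable) ?_ ?_ ?_
  · filter_upwards [Metric.ball_mem_nhds h one_pos] with h' hh'
    refine Eventually.of_forall fun η => ?_
    rw [Metric.mem_ball, dist_eq_norm] at hh'
    have h1 := X_lip21 hd β h h' η n
    have h2 := A_lip21 hd hρ β h h' n
    have h3 : ‖h' - h‖ * n ≤ n := by nlinarith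
    have h4 : |X β h' η n - A ρ β h' n| ≤ |X β h η n - A ρ β h n| + 2 * n := by
      have e : X β h' η n - A ρ β h' n = (X β h η n - A ρ β h n) +
          ((X β h' η n - X β h η n) - (A ρ β h' n - A ρ β h n)) := by ring
      rw [e]
      refine (abs_add_le _ _).trans (add_le_add le_rfl ?_)
      refine (abs_sub _ _).trans ?_
      linarith
    rw [Real.norm_eq_abs, abs_of_nonneg (by positivity)]
    exact (pow_le_pow_left₀ (abs_nonneg _) h4 q).trans
      (add_pow_le (abs_nonneg _) (by positivity) q)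
  · exact ((hC h n hn).1.add (integrable_const _)).const_mul _
  · refine Eventually.of_forall fun η => ?_
    have c1 : Continuous fun h' : Vec d => X β h' η n := by
      refine (LipschitzWith.of_dist_le_mul (K := ⟨(n : ℝ), hn0⟩) fun a b => ?_).continuous
      rw [Real.dist_eq, dist_eq_norm]
      refine (X_lip21 hd β b a η n).trans_eq ?_
      rw [mul_comm]
      rfl
    have c2 : Continuous fun h' : Vec d => A ρ β h' n := by
      refine (LipschitzWith.of_dist_le_mul (K := ⟨(n : ℝ), hn0⟩) fun a b => ?_).continuous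
      rw [Real.dist_eq, dist_eq_norm]
      refine (A_lip21 hd hρ β b a n).trans_eq ?_
      rw [mul_comm]
      rfl
    exact ((c1.sub c2).abs.pow q).continuousAt

/-- The set of tilts with the bound `C n ^ (y q)` for the `q`-th moment. -/
def St21 {d : ℕ} (ρ : Measure ℝ) (β y : ℝ) (q C : ℕ) : Set (Vec d) :=
  {h | ∀ n : ℕ, 1 ≤ n → mo21 ρ β q n h ≤ C * (n : ℝ) ^ (y * q)}

theorem closed_St21 (hd : 0 < d) (hρ : EM ρ) (β y : ℝ) (q C : ℕ) :
    IsClosed (St21 ρ β y q C : Set (Vec d)) := by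
  have e : (St21 ρ β y q C : Set (Vec d)) =
      ⋂ n : ℕ, ⋂ _ : 1 ≤ n, {h | mo21 ρ β q n h ≤ C * (n : ℝ) ^ (y * q)} := by
    ext h
    simp [St21]
  rw [e]
  exact isClosed_iInter fun n => isClosed_iInter fun hn =>
    isClosed_le (cont_mo21 hd hρ β q n hn) continuous_const

theorem FlU21_mono {h : Vec d} {x y : ℝ} (hxy : x ≤ y) (hx : FlU21 ρ β h x) : FlU21 ρ β h y := by
  intro q
  obtain ⟨C, hC⟩ := hx q
  refine ⟨|C|, fun n hn => (hC n hn).trans ?_⟩
  have hn1 : (1 : ℝ) ≤ n := by exact_mod_cast hn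
  calc C * (n : ℝ) ^ (x * q) ≤ |C| * (n : ℝ) ^ (x * q) :=
        mul_le_mul_of_nonneg_right (le_abs_self C) (by positivity)
    _ ≤ |C| * (n : ℝ) ^ (y * q) := by
        refine mul_le_mul_of_nonneg_left (Real.rpow_le_rpow_of_exponent_le hn1 ?_) (abs_nonneg C)
        exact mul_le_mul_of_nonneg_right hxy (Nat.cast_nonneg q)

theorem Fl21_mono {h : Vec d} {x y : ℝ} (hxy : x ≤ y) (hx : Fl ρ β h x) : Fl ρ β h y := by
  intro q
  obtain ⟨δ, hδ, C, hC⟩ := hx q
  refine ⟨δ, hδ, |C|, fun h' hh' n hn => (hC h' hh' n hn).trans ?_⟩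
  have hn1 : (1 : ℝ) ≤ n := by exact_mod_cast hn
  calc C * (n : ℝ) ^ (x * q) ≤ |C| * (n : ℝ) ^ (x * q) :=
        mul_le_mul_of_nonneg_right (le_abs_self C) (by positivity)
    _ ≤ |C| * (n : ℝ) ^ (y * q) := by
        refine mul_le_mul_of_nonneg_left (Real.rpow_le_rpow_of_exponent_le hn1 ?_) (abs_nonneg C)
        exact mul_le_mul_of_nonneg_right hxy (Nat.cast_nonneg q)

theorem Fl_FlU21 {h : Vec d} {x : ℝ} (hx : Fl ρ β h x) : FlU21 ρ β h x := by
  intro q
  obtain ⟨δ, hδ, C, hC⟩ := hx q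
  exact ⟨C, fun n hn => hC h (by simpa using hδ) n hn⟩

/-- A tilt outside all the boundaries: the bound at `h` is uniform near `h`. -/
theorem Fl_of_FlU21 {h : Vec d} {y : ℝ}
    (hb : ∀ q C : ℕ, h ∉ frontier (St21 ρ β y q C : Set (Vec d))) (hx : FlU21 ρ β h y) :
    Fl ρ β h y := by
  intro q
  obtain ⟨C, hC⟩ := hx q
  obtain ⟨K, hK⟩ := exists_nat_ge C
  have hmem : h ∈ (St21 ρ β y q K : Set (Vec d)) := by
    intro n hn
    exact (hC n hn).trans (mul_le_mul_of_nonneg_right hK (by positivity))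
  have hint : h ∈ interior (St21 ρ β y q K : Set (Vec d)) := by
    by_contra hne
    exact hb q K ⟨subset_closure hmem, hne⟩
  obtain ⟨δ, hδ, hball⟩ := Metric.mem_nhds_iff.1 (mem_interior_iff_mem_nhds.1 hint)
  refine ⟨δ, hδ, K, fun h' hh' n hn => ?_⟩
  exact hball (by rw [Metric.mem_ball, dist_eq_norm]; exact hh') n hn

/-- BAIRE: for all tilts outside a meagre set and all `x`, the fluctuation bound with the exponent
`x` at the tilt `h` alone gives the uniform one with every larger exponent. -/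
theorem baire21 (hd : 0 < d) (hρ : EM ρ) (β : ℝ) :
    ∀ᶠ h : Vec d in residual (Vec d), ∀ x y : ℝ, x < y → FlU21 ρ β h x → Fl ρ β h y := by
  have h1 : ∀ y : ℚ, ∀ q C : ℕ, ∀ᶠ h : Vec d in residual (Vec d),
      h ∉ frontier (St21 ρ β (y : ℝ) q C : Set (Vec d)) := by
    intro y q C
    have hc := closed_St21 (d := d) hd hρ β (y : ℝ) q C
    have h2 : (frontier (St21 ρ β (y : ℝ) q C : Set (Vec d)))ᶜ ∈ residual (Vec d) := by
      refine residual_of_dense_open isClosed_frontier.isOpen_compl ?_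
      rw [← interior_eq_empty_iff_dense_compl]
      exact interior_frontier hc
    exact h2
  have h3 : ∀ᶠ h : Vec d in residual (Vec d), ∀ y : ℚ, ∀ q C : ℕ,
      h ∉ frontier (St21 ρ β (y : ℝ) q C : Set (Vec d)) :=
    eventually_countable_forall.2 fun y => eventually_countable_forall.2 fun q =>
      eventually_countable_forall.2 fun C => h1 y q C
  filter_upwards [h3] with h hh x y hxy hx
  obtain ⟨r, hr1, hr2⟩ := exists_rat_btwn hxy
  exact Fl21_mono hr2.le (Fl_of_FlU21 (hh r) (FlU21_mono hr1.le hx))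

end Pool.Agent.W_7d29a1_D2
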