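import Pool.Agent.W_7d29a1_h46u.TubV

/-!
Steering, one block: from point to line data at the tilts `h`, `h + r b` and `h + r b ± r e_j` to a
good end point with a point to point lower bound at the tilt `h`.
-/

namespace Pool.Agent.W_7d29a1_D2.B35

open MeasureTheory ProbabilityTheory Filter Topology Pool.Agent.W_MP_7d29a1_pr
  Pool.Agent.W_7d29a1_h46 Pool.Agent.W_7d29a1_h46u

variable {d : ℕ}

/-- The weight of the walks of length `m` from the origin to `z`. -/
noncomputable def PP (β : ℝ) (h : Vec d) (η : Env d) (m : ℕ) (z : Site d) : ℝ :=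
  ZT β h η {s : Fin m → Step d | pos s m = z}

lemma PP_nonneg (β : ℝ) (h : Vec d) (η : Env d) (m : ℕ) (z : Site d) : 0 ≤ PP β h η m z :=
  ZT_nonneg β h η _

lemma PP_le_Z (β : ℝ) (h : Vec d) (η : Env d) (m : ℕ) (z : Site d) :
    PP β h η m z ≤ Z β h η m := ZT_mono β h η (Set.subset_univ _)

lemma Z_eq_sum (β : ℝ) (h : Vec d) (η : Env d) (m : ℕ) :
    Z β h η m = ∑ z ∈ boxF d m, PP β h η m z := by
  classical
  rw [Z_eq]
  unfold PP ZT
  rw [Finset.sum_comm]
  refine Finset.sum_congr rfl fun s _ => ?_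
  rw [Finset.sum_eq_single (pos s m)]
  · rw [if_pos (show s ∈ {r : Fin m → Step d | pos r m = pos s m} from rfl)]
  · intro z _ hz
    rw [if_neg]
    intro h
    exact hz h.symm
  · intro h
    exact absurd (pos_mem_box s m) h

lemma PP_tilt (β : ℝ) (h u : Vec d) (η : Env d) (m : ℕ) (z : Site d) :
    PP β (h + u) η m z = Real.exp (inner ℝ u (emb z)) * PP β h η m z := by
  classical
  unfold PP ZT
  rw [Finset.mul_sum]
  refine Finset.sum_congr rfl fun s _ => ?_
  by_cases hs : s ∈ {s : Fin m → Step d | pos s m = z}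
  · rw [if_pos hs, if_pos hs]
    have h1 : pos s m = z := hs
    unfold wgt
    rw [← Real.exp_add, h1, inner_add_left]
    congr 1
    ring
  · rw [if_neg hs, if_neg hs, mul_zero]

/-- Two blocks multiply. -/
lemma PP_chain (β : ℝ) (h : Vec d) (η : Env d) (m n : ℕ) (z w : Site d) :
    PP β h η m z * PP β h (sh m z η) n w ≤ PP β h η (m + n) (z + w) := by
  classical
  unfold PP ZT
  rw [Finset.sum_mul_sum, sum_glue]
  refine Finset.sum_le_sum fun s _ => Finset.sum_le_sum fun q _ => ?_
  by_cases hs : s ∈ {s : Fin m → Step d | pos s m = z}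
  · by_cases hq : q ∈ {q : Fin n → Step d | pos q n = w}
    · have h1 : pos s m = z := hs
      have h2 : pos q n = w := hq
      rw [if_pos hs, if_pos hq, if_pos, wgt_glue, h1]
      change pos (Fin.append s q) (m + n) = z + w
      rw [pos_glue_add, h1, h2]
    · rw [if_neg hq, mul_zero]
      split_ifs
      · exact (wgt_pos _ _ _ _).le
      · exact le_rfl
  · rw [if_neg hs, zero_mul]
    split_ifs
    · exact (wgt_pos _ _ _ _).le
    · exact le_rfl

/-- Continue with a free block. -/
lemma PP_chainZ (β : ℝ) (h : Vec d) (η : Env d) (m n : ℕ) (z : Site d) :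
    PP β h η m z * Z β h (sh m z η) n ≤ Z β h η (m + n) := by
  classical
  rw [Z_add]
  unfold PP ZT
  rw [Finset.sum_mul]
  refine Finset.sum_le_sum fun s _ => ?_
  by_cases hs : s ∈ {s : Fin m → Step d | pos s m = z}
  · have h1 : pos s m = z := hs
    rw [if_pos hs, h1]
  · rw [if_neg hs, zero_mul]
    exact mul_nonneg (wgt_pos _ _ _ _).le (ZT_nonneg _ _ _ _)

/-- The mass of the end points with `inner b G` small, `G = z - m v`. -/
lemma slow_le (hd : 0 < d) (β : ℝ) (h v b : Vec d) (η : Env d) (m : ℕ) {r y : ℝ} (hr : 0 ≤ r) :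
    ∑ z ∈ boxF d m, (if inner ℝ b (emb z - (m : ℝ) • v) < y then PP β (h + r • b) η m z else 0) ≤
      Real.exp (r * y + r * (m * inner ℝ b v) + X β h η m) := by
  have hZ : Z β h η m = Real.exp (X β h η m) := TubV_exp hd β h η m
  rw [Real.exp_add, ← hZ, Z_eq_sum, Finset.mul_sum]
  refine Finset.sum_le_sum fun z _ => ?_
  split_ifs with hz
  · rw [PP_tilt]
    refine mul_le_mul_of_nonneg_right (Real.exp_le_exp.2 ?_) (PP_nonneg _ _ _ _ _)
    rw [inner_sub_right, real_inner_smul_right] at hz
    rw [real_inner_smul_left]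
    nlinarith
  · exact mul_nonneg (Real.exp_pos _).le (PP_nonneg _ _ _ _ _)

/-- The mass of the end points with `e G_j` large, `e = ± 1`. -/
lemma far_le' (hd : 0 < d) (β : ℝ) (k v : Vec d) (η : Env d) (m : ℕ) {r y e : ℝ} (hr : 0 ≤ r)
    (j : Fin d) :
    ∑ z ∈ boxF d m, (if y < e * (emb z - (m : ℝ) • v) j then PP β k η m z else 0) ≤
      Real.exp (-(r * y) - r * e * (m * v j) + X β (k + (e * r) • ej j) η m) := by
  have hZ : Z β (k + (e * r) • ej j) η m = Real.exp (X β (k + (e * r) • ej j) η m) :=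
    TubV_exp hd β _ η m
  rw [Real.exp_add, ← hZ, Z_eq_sum, Finset.mul_sum]
  refine Finset.sum_le_sum fun z _ => ?_
  split_ifs with hz
  · rw [PP_tilt, ← mul_assoc, ← Real.exp_add]
    refine le_mul_of_one_le_left (PP_nonneg _ _ _ _ _) (Real.one_le_exp ?_)
    have h1 : inner ℝ ((e * r) • ej j) (emb z) = e * r * (emb z) j := by
      rw [real_inner_smul_left]
      congr 1
      unfold ej
      rw [EuclideanSpace.inner_single_left]
      simp
    rw [h1]
    have h2 : (emb z - (m : ℝ) • v) j = (emb z) j - m * v j := by simp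
    rw [h2] at hz
    nlinarith
  · exact mul_nonneg (Real.exp_pos _).le (PP_nonneg _ _ _ _ _)

end Pool.Agent.W_7d29a1_D2.B35
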