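import Mathlib

/-!
The centre of a convex body: the barycentre of a simplex of maximal volume (proofs row 698, step 1).
-/

namespace Pool.Agent.W_7d29a1_D2

open Finset Set

/-- The row `(1, y)`. -/
def crow {d : ℕ} (y : EuclideanSpace ℝ (Fin d)) : Fin (d + 1) → ℝ := Fin.cons 1 (fun j => y j)

/-- The matrix with the rows `(1, x i)`. -/
def cmat {d : ℕ} (x : Fin (d + 1) → EuclideanSpace ℝ (Fin d)) : Matrix (Fin (d + 1)) (Fin (d + 1)) ℝ :=
  Matrix.of fun i => crow (x i)

lemma cmat_update {d : ℕ} (x : Fin (d + 1) → EuclideanSpace ℝ (Fin d)) (i : Fin (d + 1))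
    (y : EuclideanSpace ℝ (Fin d)) :
    (cmat x).updateRow i (crow y) = cmat (Function.update x i y) := by
  ext a b
  by_cases h : a = i
  · subst h
    simp [cmat, Matrix.updateRow_self]
  · simp [cmat, Matrix.updateRow_ne h, Function.update_of_ne h]

lemma continuous_cdet {d : ℕ} :
    Continuous fun x : Fin (d + 1) → EuclideanSpace ℝ (Fin d) => (cmat x).det := by
  refine Continuous.matrix_det ?_
  refine continuous_pi fun i => continuous_pi fun j => ?_
  refine Fin.cases ?_ (fun k => ?_) j
  · simp only [cmat, Matrix.of_apply, crow, Fin.cons_zero]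
    exact continuous_const
  · simp only [cmat, Matrix.of_apply, crow, Fin.cons_succ]
    fun_prop

/-- There are `d + 1` points of `K` in general position. -/
lemma exists_cdet_ne {d : ℕ} {K : Set (EuclideanSpace ℝ (Fin d))} (hne : (interior K).Nonempty) :
    ∃ x : Fin (d + 1) → EuclideanSpace ℝ (Fin d), (∀ i, x i ∈ K) ∧ (cmat x).det ≠ 0 := by
  obtain ⟨x0, hx0⟩ := hne
  obtain ⟨ρ, hρ, hb⟩ := Metric.isOpen_iff.1 isOpen_interior x0 hx0
  set x : Fin (d + 1) → EuclideanSpace ℝ (Fin d) :=
    Fin.cons x0 (fun j => x0 + (ρ / 2) • EuclideanSpace.single j (1 : ℝ)) with hx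
  refine ⟨x, ?_, ?_⟩
  · intro i
    refine Fin.cases ?_ (fun k => ?_) i
    · simpa [hx] using interior_subset hx0
    · simp only [hx, Fin.cons_succ]
      refine interior_subset (hb ?_)
      rw [Metric.mem_ball, dist_eq_norm, add_sub_cancel_left, norm_smul, EuclideanSpace.norm_single]
      simp only [Real.norm_eq_abs, abs_one, mul_one]
      rw [abs_of_pos (by positivity)]
      linarith
  · intro hdet
    obtain ⟨w, hw0, hw⟩ := Matrix.exists_mulVec_eq_zero_iff.2 hdet
    apply hw0
    have e0 : ∀ i : Fin (d + 1), w 0 + ∑ j : Fin d, x i j * w j.succ = 0 := by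
      intro i
      have h1 := congrFun hw i
      rw [Matrix.mulVec, dotProduct, Fin.sum_univ_succ] at h1
      simpa [cmat, crow] using h1
    have h0 := e0 0
    have hk : ∀ k : Fin d, w k.succ = 0 := by
      intro k
      have h1 := e0 k.succ
      simp only [hx, Fin.cons_zero, Fin.cons_succ] at h0 h1
      have h2 : ∑ j : Fin d, (x0 + (ρ / 2) • EuclideanSpace.single k (1 : ℝ)) j * w j.succ =
          ∑ j : Fin d, x0 j * w j.succ + (ρ / 2) * w k.succ := by
        have h3 : ∀ j : Fin d, (x0 + (ρ / 2) • EuclideanSpace.single k (1 : ℝ)) j * w j.succ =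
            x0 j * w j.succ + (if j = k then (ρ / 2) * w j.succ else 0) := by
          intro j
          by_cases hj : j = k
          · subst hj
            simp
            ring
          · simp [hj]
        rw [Finset.sum_congr rfl fun j _ => h3 j, Finset.sum_add_distrib, Finset.sum_ite_eq']
        simp
      rw [h2] at h1
      have h4 : (ρ / 2) * w k.succ = 0 := by linarith
      rcases mul_eq_zero.1 h4 with h5 | h5
      · exfalso; linarith
      · exact h5
    funext i
    refine Fin.cases ?_ (fun k => ?_) i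
    · simp only [hk, mul_zero, Finset.sum_const_zero, add_zero] at h0
      exact h0
    · exact hk k

/-- **The centre.** -/
theorem centre {d : ℕ} {K : Set (EuclideanSpace ℝ (Fin d))} (hc : IsCompact K)
    (hconv : Convex ℝ K) (hne : (interior K).Nonempty) :
    ∃ c ∈ K, ∀ (u : EuclideanSpace ℝ (Fin d)) (ζ : ℝ),
      (∀ y ∈ K, inner ℝ u y ≤ inner ℝ u c + ζ) → ∀ y ∈ K, inner ℝ u c - d * ζ ≤ inner ℝ u y := by
  classical
  obtain ⟨x1, hx1, hdet1⟩ := exists_cdet_ne hne
  have hcomp : IsCompact (Set.pi (Set.univ : Set (Fin (d + 1))) fun _ => K) :=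
    isCompact_univ_pi fun _ => hc
  obtain ⟨x, hxK, hmax⟩ := hcomp.exists_isMaxOn ⟨x1, fun i _ => hx1 i⟩
    (continuous_abs.comp (continuous_cdet (d := d))).continuousOn
  have hx : ∀ i, x i ∈ K := fun i => hxK i (Set.mem_univ i)
  have hpos : 0 < |(cmat x).det| := by
    have h1 : |(cmat x1).det| ≤ |(cmat x).det| := hmax (fun i _ => hx1 i)
    exact (abs_pos.2 hdet1).trans_le h1
  have hdet : (cmat x).det ≠ 0 := abs_pos.1 hpos
  have hd1 : (0 : ℝ) < (d : ℝ) + 1 := by positivity
  -- barycentric coordinates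
  have hbar : ∀ y ∈ K, ∃ b : Fin (d + 1) → ℝ, (∀ i, |b i| ≤ 1) ∧ ∑ i, b i = 1 ∧
      ∀ j : Fin d, y j = ∑ i, b i * x i j := by
    intro y hy
    set b : Fin (d + 1) → ℝ := Matrix.vecMul (crow y) (cmat x)⁻¹ with hb
    have hbM : Matrix.vecMul b (cmat x) = crow y := by
      rw [hb, Matrix.vecMul_vecMul, Matrix.nonsing_inv_mul _ (isUnit_iff_ne_zero.2 hdet),
        Matrix.vecMul_one]
    have hsum : crow y = ∑ k, b k • (cmat x) k := by
      rw [← hbM]
      exact Matrix.vecMul_eq_sum _ _
    refine ⟨b, fun i => ?_, ?_, fun j => ?_⟩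
    · have h1 : ((cmat x).updateRow i (crow y)).det = b i • (cmat x).det := by
        rw [hsum]
        exact Matrix.det_updateRow_sum _ _ _
      rw [cmat_update] at h1
      have h2 : |(cmat (Function.update x i y)).det| ≤ |(cmat x).det| := by
        refine hmax fun k _ => ?_
        by_cases hk : k = i
        · subst hk
          simpa using hy
        · rw [Function.update_of_ne hk]
          exact hx k
      rw [h1, smul_eq_mul, abs_mul] at h2
      by_contra hcon
      have h3 : 1 < |b i| := not_le.1 hcon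
      nlinarith
    · have h1 := congrFun hbM 0
      simp only [Matrix.vecMul, dotProduct, cmat, Matrix.of_apply, crow, Fin.cons_zero,
        mul_one] at h1
      exact h1
    · have h1 := congrFun hbM j.succ
      simp only [Matrix.vecMul, dotProduct, cmat, Matrix.of_apply, crow, Fin.cons_succ] at h1
      exact h1.symm
  set c : EuclideanSpace ℝ (Fin d) := ∑ i, (1 / ((d : ℝ) + 1)) • x i with hcdef
  have hcK : c ∈ K := by
    refine hconv.sum_mem (fun i _ => by positivity) ?_ fun i _ => hx i
    rw [Finset.sum_const, Finset.card_univ, Fintype.card_fin, nsmul_eq_mul]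
    push_cast
    field_simp
  refine ⟨c, hcK, fun u ζ hu y hy => ?_⟩
  obtain ⟨b, hb1, hb2, hb3⟩ := hbar y hy
  have hfc : ((d : ℝ) + 1) * inner ℝ u c = ∑ i, inner ℝ u (x i) := by
    rw [hcdef, inner_sum, Finset.mul_sum]
    refine Finset.sum_congr rfl fun i _ => ?_
    rw [inner_smul_right]
    field_simp
  have hy' : y = ∑ i, b i • x i := by
    ext j
    rw [hb3 j]
    simp
  have hfy : inner ℝ u y = ∑ i, b i * inner ℝ u (x i) := by
    rw [hy', inner_sum]
    exact Finset.sum_congr rfl fun i _ => by rw [inner_smul_right]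
  have h1 : inner ℝ u c + ζ - inner ℝ u y = ∑ i, b i * (inner ℝ u c + ζ - inner ℝ u (x i)) := by
    simp only [mul_sub]
    rw [Finset.sum_sub_distrib, ← Finset.sum_mul, hb2, hfy, one_mul]
  have h2 : ∑ i, b i * (inner ℝ u c + ζ - inner ℝ u (x i)) ≤
      ∑ i, (inner ℝ u c + ζ - inner ℝ u (x i)) := by
    refine Finset.sum_le_sum fun i _ => ?_
    have h3 : 0 ≤ inner ℝ u c + ζ - inner ℝ u (x i) := by linarith [hu (x i) (hx i)]
    have h4 : b i ≤ 1 := (le_abs_self _).trans (hb1 i)
    nlinarith
  have h3 : ∑ i, (inner ℝ u c + ζ - inner ℝ u (x i)) = ((d : ℝ) + 1) * ζ := by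
    rw [Finset.sum_sub_distrib, ← hfc, Finset.sum_const, Finset.card_univ, Fintype.card_fin,
      nsmul_eq_mul]
    push_cast
    ring
  linarith

end Pool.Agent.W_7d29a1_D2
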