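import Pool.Agent.W_7d29a1_h46u.TubP
import Pool.Agent.W_7d29a1_h46u.RateU
import Pool.Agent.W_7d29a1_D2.Defs46

/-!
Probabilities of the good events: all polymers started in a box stay in a tube, and all free
energies of short polymers started in a box are close to their limits.
-/

namespace Pool.Agent.W_7d29a1_D2

open MeasureTheory ProbabilityTheory Filter Topology Pool.Agent.W_MP_7d29a1_pr
  Pool.Agent.W_7d29a1_h46 Pool.Agent.W_7d29a1_h46u

variable {d : ℕ} {ρ : Measure ℝ} [IsProbabilityMeasure ρ]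

lemma ev80_count {d n : ℕ} (hn : 1 ≤ n) :
    ((n : ℝ) + 1) * ((2 * n + 1) ^ d * ((n : ℝ) + 1)) ≤ 4 * 3 ^ d * (n : ℝ) ^ (d + 2) := by
  have hn1 : (1 : ℝ) ≤ n := by exact_mod_cast hn
  have h4 : (n : ℝ) + 1 ≤ 2 * n := by linarith
  have h5 : (2 * (n : ℝ) + 1) ^ d ≤ 3 ^ d * (n : ℝ) ^ d := by
    rw [← mul_pow]
    exact pow_le_pow_left₀ (by positivity) (by linarith) d
  calc ((n : ℝ) + 1) * ((2 * n + 1) ^ d * ((n : ℝ) + 1))
      ≤ (2 * n) * ((3 ^ d * (n : ℝ) ^ d) * (2 * n)) :=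
        mul_le_mul h4 (mul_le_mul h5 h4 (by positivity) (by positivity)) (by positivity)
          (by positivity)
    _ = 4 * 3 ^ d * (n : ℝ) ^ (d + 2) := by ring

/-- Union bound over starting times, starting sites and lengths. -/
lemma ev80_union {n : ℕ} (hn : 1 ≤ n) {m : ℕ} (hm : m ≤ n) {S : ℕ → Site d → ℕ → Set (Env d)} {B : ℝ}
    (hB : 0 ≤ B) (hS : ∀ i ≤ n, ∀ y ∈ boxF d n, ∀ l ≤ m, (law d ρ).real (S i y l) ≤ B) :
    (law d ρ).real {η | ¬ ∀ i ≤ n, ∀ y ∈ boxF d n, ∀ l ≤ m, η ∉ S i y l} ≤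
      4 * 3 ^ d * (n : ℝ) ^ (d + 2) * B := by
  classical
  have hsub : {η | ¬ ∀ i ≤ n, ∀ y ∈ boxF d n, ∀ l ≤ m, η ∉ S i y l} ⊆
      ⋃ a ∈ (Finset.range (n + 1)) ×ˢ (boxF d n ×ˢ Finset.range (m + 1)), S a.1 a.2.1 a.2.2 := by
    intro η hη
    by_contra hcon
    apply hη
    intro i hi y hy l hl hc
    apply hcon
    rw [Set.mem_iUnion₂]
    exact ⟨(i, y, l), Finset.mem_product.2 ⟨Finset.mem_range.2 (Nat.lt_succ_iff.2 hi),
      Finset.mem_product.2 ⟨hy, Finset.mem_range.2 (Nat.lt_succ_iff.2 hl)⟩⟩, hc⟩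
  have hmn : ((m : ℝ) + 1) ≤ (n : ℝ) + 1 := by
    have h1 : (m : ℝ) ≤ n := by exact_mod_cast hm
    linarith
  calc (law d ρ).real {η | ¬ ∀ i ≤ n, ∀ y ∈ boxF d n, ∀ l ≤ m, η ∉ S i y l}
      ≤ (law d ρ).real (⋃ a ∈ (Finset.range (n + 1)) ×ˢ (boxF d n ×ˢ Finset.range (m + 1)),
          S a.1 a.2.1 a.2.2) := measureReal_mono hsub (measure_ne_top _ _)
    _ ≤ ∑ a ∈ (Finset.range (n + 1)) ×ˢ (boxF d n ×ˢ Finset.range (m + 1)),
          (law d ρ).real (S a.1 a.2.1 a.2.2) := measureReal_biUnion_finset_le _ _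
    _ ≤ ∑ a ∈ (Finset.range (n + 1)) ×ˢ (boxF d n ×ˢ Finset.range (m + 1)), B := by
        refine Finset.sum_le_sum fun a ha => ?_
        have h1 := Finset.mem_product.1 ha
        have h2 := Finset.mem_product.1 h1.2
        exact hS a.1 (Nat.lt_succ_iff.1 (Finset.mem_range.1 h1.1)) a.2.1 h2.1 a.2.2
          (Nat.lt_succ_iff.1 (Finset.mem_range.1 h2.2))
    _ = ((n : ℝ) + 1) * ((2 * n + 1) ^ d * ((m : ℝ) + 1)) * B := by
        rw [Finset.sum_const, Finset.card_product, Finset.card_product, Finset.card_range,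
          Finset.card_range, card_boxF, nsmul_eq_mul]
        push_cast
        ring
    _ ≤ ((n : ℝ) + 1) * ((2 * n + 1) ^ d * ((n : ℝ) + 1)) * B := by
        refine mul_le_mul_of_nonneg_right ?_ hB
        refine mul_le_mul_of_nonneg_left ?_ (by positivity)
        exact mul_le_mul_of_nonneg_left hmn (by positivity)
    _ ≤ 4 * 3 ^ d * (n : ℝ) ^ (d + 2) * B := mul_le_mul_of_nonneg_right (ev80_count hn) hB

lemma ev80_pow {n : ℕ} (hn : 1 ≤ n) (q : ℕ) (K : ℝ) :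
    4 * 3 ^ d * (n : ℝ) ^ (d + 2) * (K * (n : ℝ) ^ (-((q + d + 2 : ℕ) : ℝ))) =
      4 * 3 ^ d * K * (n : ℝ) ^ (-(q : ℝ)) := by
  have hn0 : (0 : ℝ) < n := by exact_mod_cast hn
  have e1 : (n : ℝ) ^ (d + 2) * (n : ℝ) ^ (-((q + d + 2 : ℕ) : ℝ)) = (n : ℝ) ^ (-(q : ℝ)) := by
    rw [← Real.rpow_natCast, ← Real.rpow_add hn0]
    congr 1
    push_cast
    ring
  rw [← e1]
  ring

lemma PolT_univ80 (hd : 0 < d) {n : ℕ} (β : ℝ) (h : Vec d) (η : Env d) :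
    PolT β h η (Set.univ : Set (Fin n → Step d)) = 1 := by
  unfold PolT
  exact div_self (ZT_univ_pos hd β h η).ne'

lemma real_shift80 {S : Set (Env d)} (hS : MeasurableSet S) (i : ℕ) (y : Site d) :
    (law d ρ).real {η | sh i y η ∈ S} = (law d ρ).real S := by
  rw [measureReal_def, measureReal_def, ← (mp_sh (ρ := ρ) i y).measure_preimage
    hS.nullMeasurableSet]
  rfl

/-- The generic form for a family of path events which increases with the radius. -/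
theorem evG80 (hd : 0 < d) {β : ℝ} {h : Vec d} {T : ∀ l : ℕ, ℝ → Set (Fin l → Step d)}
    (hmono : ∀ l r r', r ≤ r' → T l r ⊆ T l r') {K : ℝ} (hK : 0 < K)
    (huniv : ∀ (l : ℕ) (r : ℝ), (l : ℝ) * K ≤ r → T l r = Set.univ) {a : ℝ} (ha : 0 < a)
    (hT : ∀ q : ℕ, ∃ C : ℝ, ∀ n : ℕ, 1 ≤ n →
      ∫ η, (1 - PolT β h η (T n ((n : ℝ) ^ a))) ∂(law d ρ) ≤ C * (n : ℝ) ^ (-(q : ℝ)))
    {κ : ℝ} (hκ : 0 < κ) (p q : ℕ) :
    ∃ C : ℝ, 0 ≤ C ∧ ∀ n : ℕ, 1 ≤ n →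
      (law d ρ).real {η | ¬ ∀ i ≤ n, ∀ y ∈ boxF d n, ∀ l ≤ n,
        1 - κ * (n : ℝ) ^ (-(p : ℝ)) ≤ PolT β h (sh i y η) (T l ((n : ℝ) ^ a))} ≤
          C * (n : ℝ) ^ (-(q : ℝ)) := by
  obtain ⟨Q, hQ⟩ := exists_nat_ge (((q : ℝ) + d + 2 + p) / a)
  have hQ' : (q : ℝ) + d + 2 + p ≤ a * Q := by
    rw [div_le_iff₀ ha] at hQ
    linarith
  obtain ⟨C₀, hC₀⟩ := hT Q
  refine ⟨4 * 3 ^ d * (|C₀| * K ^ Q / κ), by positivity, fun n hn => ?_⟩
  have hn1 : (1 : ℝ) ≤ n := by exact_mod_cast hn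
  have hn0 : (0 : ℝ) < n := by linarith
  have hna : 0 < (n : ℝ) ^ a := Real.rpow_pos_of_pos hn0 _
  have hnp : 0 < (n : ℝ) ^ (-(p : ℝ)) := Real.rpow_pos_of_pos hn0 _
  obtain ⟨B, hB⟩ : ∃ B : ℝ, B = |C₀| * K ^ Q / κ * (n : ℝ) ^ (-((q + d + 2 : ℕ) : ℝ)) := ⟨_, rfl⟩
  have hB0 : 0 ≤ B := by
    rw [hB]
    positivity
  have hS : ∀ i ≤ n, ∀ y ∈ boxF d n, ∀ l ≤ n, (law d ρ).real
      {η | ¬ 1 - κ * (n : ℝ) ^ (-(p : ℝ)) ≤ PolT β h (sh i y η) (T l ((n : ℝ) ^ a))} ≤ B := by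
    intro i _ y _ l hl
    rcases le_or_gt ((l : ℝ) * K) ((n : ℝ) ^ a) with hc | hc
    · have h1 : {η : Env d | ¬ 1 - κ * (n : ℝ) ^ (-(p : ℝ)) ≤
          PolT β h (sh i y η) (T l ((n : ℝ) ^ a))} = ∅ := by
        rw [Set.eq_empty_iff_forall_notMem]
        intro η hη
        apply hη
        rw [huniv l _ hc, PolT_univ80 hd]
        have h2 : 0 ≤ κ * (n : ℝ) ^ (-(p : ℝ)) := by positivity
        linarith
      rw [h1, measureReal_empty]
      exact hB0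
    · have hl0 : 0 < l := by
        rcases Nat.eq_zero_or_pos l with h0 | h0
        · rw [h0, Nat.cast_zero, zero_mul] at hc
          exact absurd hc (not_lt.2 hna.le)
        · exact h0
      have hl0' : (0 : ℝ) < l := by exact_mod_cast hl0
      have hln : (l : ℝ) ≤ n := by exact_mod_cast hl
      obtain ⟨F, hFdef⟩ : ∃ F : Env d → ℝ, F = fun η => 1 - PolT β h η (T l ((l : ℝ) ^ a)) :=
        ⟨_, rfl⟩
      have hFm : Measurable F := by
        rw [hFdef]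
        exact (measurable_PolT β h _).const_sub 1
      have hF0 : ∀ η, 0 ≤ F η := by
        intro η
        rw [hFdef]
        have := PolT_le_one β h η (T l ((l : ℝ) ^ a))
        simp only
        linarith
      have hF1 : ∀ η, F η ≤ 1 := by
        intro η
        rw [hFdef]
        have := PolT_nonneg β h η (T l ((l : ℝ) ^ a))
        simp only
        linarith
      have hFi : Integrable F (law d ρ) := by
        refine Integrable.of_bound (C := 1) hFm.aestronglyMeasurable (Eventually.of_forall fun η => ?_)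
        rw [Real.norm_eq_abs, abs_of_nonneg (hF0 η)]
        exact hF1 η
      have hset : MeasurableSet {η : Env d | κ * (n : ℝ) ^ (-(p : ℝ)) ≤ F η} :=
        measurableSet_le measurable_const hFm
      have hsub : {η : Env d | ¬ 1 - κ * (n : ℝ) ^ (-(p : ℝ)) ≤
          PolT β h (sh i y η) (T l ((n : ℝ) ^ a))} ⊆
          {η | sh i y η ∈ {η : Env d | κ * (n : ℝ) ^ (-(p : ℝ)) ≤ F η}} := by
        intro η hη
        have h1 : PolT β h (sh i y η) (T l ((n : ℝ) ^ a)) < 1 - κ * (n : ℝ) ^ (-(p : ℝ)) :=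
          not_le.1 hη
        have h2 : PolT β h (sh i y η) (T l ((l : ℝ) ^ a)) ≤
            PolT β h (sh i y η) (T l ((n : ℝ) ^ a)) :=
          PolT_mono β h _ (hmono l _ _ (Real.rpow_le_rpow hl0'.le hln ha.le))
        have h3 : κ * (n : ℝ) ^ (-(p : ℝ)) ≤ F (sh i y η) := by
          rw [hFdef]
          simp only
          linarith
        exact h3
      have hmk := mul_meas_ge_le_integral_of_nonneg (μ := law d ρ) (f := F)
        (Eventually.of_forall hF0) hFi (κ * (n : ℝ) ^ (-(p : ℝ)))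
      have h4 : (law d ρ).real {η : Env d | κ * (n : ℝ) ^ (-(p : ℝ)) ≤ F η} ≤
          (|C₀| * (l : ℝ) ^ (-(Q : ℝ))) / (κ * (n : ℝ) ^ (-(p : ℝ))) := by
        rw [le_div_iff₀ (mul_pos hκ hnp), mul_comm]
        refine hmk.trans ?_
        rw [hFdef]
        exact (hC₀ l hl0).trans (mul_le_mul_of_nonneg_right (le_abs_self _)
          (Real.rpow_nonneg hl0'.le _))
      have h5 : (l : ℝ) ^ (-(Q : ℝ)) ≤ K ^ Q * (n : ℝ) ^ (-(a * Q)) := by
        have h6 : (n : ℝ) ^ a / K ≤ l := by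
          rw [div_le_iff₀ hK]
          exact hc.le
        have h7 : ((n : ℝ) ^ a / K) ^ Q ≤ (l : ℝ) ^ Q :=
          pow_le_pow_left₀ (by positivity) h6 Q
        rw [Real.rpow_neg hl0'.le, Real.rpow_natCast, Real.rpow_neg hn0.le, Real.rpow_mul hn0.le,
          Real.rpow_natCast]
        rw [div_pow] at h7
        have h8 : 0 < ((n : ℝ) ^ a) ^ Q := by positivity
        have h9 : (0 : ℝ) < (l : ℝ) ^ Q := by positivity
        rw [div_le_iff₀ (by positivity)] at h7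
        rw [← div_eq_mul_inv, inv_eq_one_div, div_le_div_iff₀ h9 h8, one_mul]
        linarith
      calc (law d ρ).real {η | ¬ 1 - κ * (n : ℝ) ^ (-(p : ℝ)) ≤
            PolT β h (sh i y η) (T l ((n : ℝ) ^ a))}
          ≤ (law d ρ).real {η | sh i y η ∈ {η : Env d | κ * (n : ℝ) ^ (-(p : ℝ)) ≤ F η}} :=
            measureReal_mono hsub
        _ = (law d ρ).real {η : Env d | κ * (n : ℝ) ^ (-(p : ℝ)) ≤ F η} := real_shift80 hset i y
        _ ≤ (|C₀| * (l : ℝ) ^ (-(Q : ℝ))) / (κ * (n : ℝ) ^ (-(p : ℝ))) := h4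
        _ ≤ (|C₀| * (K ^ Q * (n : ℝ) ^ (-(a * Q)))) / (κ * (n : ℝ) ^ (-(p : ℝ))) :=
            div_le_div_of_nonneg_right (mul_le_mul_of_nonneg_left h5 (abs_nonneg _))
              (mul_pos hκ hnp).le
        _ = |C₀| * K ^ Q / κ * ((n : ℝ) ^ (-(a * Q)) * (n : ℝ) ^ (p : ℝ)) := by
            rw [Real.rpow_neg hn0.le (p : ℝ)]
            have h10 : (n : ℝ) ^ (p : ℝ) ≠ 0 := (Real.rpow_pos_of_pos hn0 _).ne'
            field_simp
        _ ≤ B := by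
            rw [hB, ← Real.rpow_add hn0]
            refine mul_le_mul_of_nonneg_left ?_ (by positivity)
            refine Real.rpow_le_rpow_of_exponent_le hn1 ?_
            push_cast
            linarith
  have h1 := ev80_union (ρ := ρ) hn le_rfl hB0 hS
  rw [hB, ev80_pow hn] at h1
  refine le_trans (le_of_eq ?_) h1
  congr 1
  ext η
  simp only [Set.mem_ofPred_eq, not_not]

/-- All polymers of length at most `n`, started in the box of size `n` at a time at most `n`, stay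
in the tube, with polymer probability almost `1`. -/
theorem evT80 (hd : 0 < d) {β : ℝ} {h v : Vec d} {a : ℝ} (ha : 0 < a) (hT : TbF ρ β h v a)
    {κ : ℝ} (hκ : 0 < κ) (p q : ℕ) :
    ∃ C : ℝ, 0 ≤ C ∧ ∀ n : ℕ, 1 ≤ n →
      (law d ρ).real {η | ¬ ∀ i ≤ n, ∀ y ∈ boxF d n, ∀ l ≤ n,
        1 - κ * (n : ℝ) ^ (-(p : ℝ)) ≤ PolT β h (sh i y η) (tube d l v ((n : ℝ) ^ a))} ≤
          C * (n : ℝ) ^ (-(q : ℝ)) :=
  evG80 hd (T := fun l r => tube d l v r) (fun _ _ _ h => tube_mono v h)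
    (by positivity : 0 < 1 + ‖v‖) (fun _ _ h => tube_univ v h) ha hT hκ p q

/-- The same with polymer probability at least `1 / 2`. -/
theorem evT80_half (hd : 0 < d) {β : ℝ} {h v : Vec d} {a : ℝ} (ha : 0 < a) (hT : TbF ρ β h v a)
    (q : ℕ) :
    ∃ C : ℝ, 0 ≤ C ∧ ∀ n : ℕ, 1 ≤ n →
      (law d ρ).real {η | ¬ ∀ i ≤ n, ∀ y ∈ boxF d n, ∀ l ≤ n,
        1 / 2 ≤ PolT β h (sh i y η) (tube d l v ((n : ℝ) ^ a))} ≤ C * (n : ℝ) ^ (-(q : ℝ)) := by
  obtain ⟨C, hC, H⟩ := evT80 hd ha hT (κ := 1 / 2) (by norm_num) 0 q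
  refine ⟨C, hC, fun n hn => ?_⟩
  have h1 := H n hn
  have h2 : (1 : ℝ) - 1 / 2 * (n : ℝ) ^ (-((0 : ℕ) : ℝ)) = 1 / 2 := by
    rw [Nat.cast_zero, neg_zero, Real.rpow_zero]
    norm_num
  rw [h2] at h1
  exact h1

lemma boxF_sub80 {m n : ℕ} (h : m ≤ n) {y : Site d} (hy : y ∈ boxF d m) : y ∈ boxF d n := by
  rw [mem_boxF] at hy ⊢
  intro j
  exact (hy j).trans (by exact_mod_cast h)

/-- The tube event of the first `m` steps. -/
theorem evT80_m (hd : 0 < d) {β : ℝ} {h v : Vec d} {a : ℝ} (ha : 0 < a) (hT : TbF ρ β h v a)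
    (q : ℕ) :
    ∃ C : ℝ, 0 ≤ C ∧ ∀ n m : ℕ, 1 ≤ m → m ≤ n →
      (law d ρ).real {η | ¬ ∀ i ≤ m, ∀ y ∈ boxF d m,
        1 / 2 ≤ PolT β h (sh i y η) (tube d (m - i) v ((n : ℝ) ^ a))} ≤
          C * (n : ℝ) ^ (-(q : ℝ)) := by
  obtain ⟨C, hC, H⟩ := evT80_half hd ha hT q
  refine ⟨C, hC, fun n m hm hmn => (measureReal_mono ?_).trans (H n (hm.trans hmn))⟩
  intro η hη hcon
  exact hη fun i hi y hy => hcon i (hi.trans hmn) y (boxF_sub80 hmn hy) (m - i)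
    ((Nat.sub_le m i).trans hmn)

/-- One free energy: tails around the mean, at the scale `m` with a factor `n ^ ε`. -/
theorem tail80 (hd : 0 < d) (hρ : EM ρ) {β : ℝ} {h : Vec d} {x : ℝ} (hx : 0 ≤ x) (hF : Fl ρ β h x)
    {ε : ℝ} (hε : 0 < ε) (q : ℕ) :
    ∃ δ > 0, ∃ C : ℝ, 0 ≤ C ∧ ∀ h' : Vec d, ‖h' - h‖ < δ → ∀ (n m l : ℕ), 1 ≤ n → 1 ≤ m → l ≤ m →
      ∀ (t : ℕ) (y : Site d),
        (law d ρ).real {η | (m : ℝ) ^ x * (n : ℝ) ^ ε < |X β h' (sh t y η) l - A ρ β h' l|} ≤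
          C * (n : ℝ) ^ (-(q : ℝ)) := by
  obtain ⟨Q, hQ⟩ := exists_nat_ge ((q : ℝ) / ε)
  have hQ' : (q : ℝ) ≤ ε * Q := by
    rw [div_le_iff₀ hε] at hQ
    linarith
  obtain ⟨δ, hδ, C₀, hC₀⟩ := hF Q
  obtain ⟨C₁, -, hC₁⟩ := momU (d := d) hd hρ β Q
  refine ⟨δ, hδ, |C₀|, abs_nonneg _, fun h' hh' n m l hn hm hl t y => ?_⟩
  have hn1 : (1 : ℝ) ≤ n := by exact_mod_cast hn
  have hn0 : (0 : ℝ) < n := by linarith
  have hm1 : (1 : ℝ) ≤ m := by exact_mod_cast hm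
  have hm0 : (0 : ℝ) < m := by linarith
  obtain ⟨u, hu⟩ : ∃ u : ℝ, u = (m : ℝ) ^ x * (n : ℝ) ^ ε := ⟨_, rfl⟩
  have hu0 : 0 < u := by
    rw [hu]
    exact mul_pos (Real.rpow_pos_of_pos hm0 _) (Real.rpow_pos_of_pos hn0 _)
  rw [← hu]
  have hrhs : 0 ≤ |C₀| * (n : ℝ) ^ (-(q : ℝ)) :=
    mul_nonneg (abs_nonneg _) (Real.rpow_nonneg hn0.le _)
  rcases Nat.eq_zero_or_pos l with hl0 | hl0
  · have h1 : ∀ η : Env d, X β h' η 0 = 0 := by
      intro η
      rw [X, Z_zero, Real.log_one]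
    have h2 : A ρ β h' 0 = 0 := by
      unfold A
      simp only [h1]
      exact integral_zero _ _
    have h3 : {η : Env d | u < |X β h' (sh t y η) l - A ρ β h' l|} = ∅ := by
      rw [Set.eq_empty_iff_forall_notMem]
      intro η hη
      have hη' : u < |X β h' (sh t y η) l - A ρ β h' l| := hη
      rw [hl0, h1, h2, sub_zero, abs_zero] at hη'
      exact absurd hη' (not_lt.2 hu0.le)
    rw [h3, measureReal_empty]
    exact hrhs
  · obtain ⟨hint, -⟩ := hC₁ h' l hl0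
    have hmean := hC₀ h' hh' l hl0
    have hmeasY : Measurable fun η : Env d => |X β h' η l - A ρ β h' l| :=
      ((measurable_X β h' l).sub_const _).abs
    have hset : MeasurableSet {η : Env d | u < |X β h' η l - A ρ β h' l|} :=
      measurableSet_lt measurable_const hmeasY
    have hshift : (law d ρ).real {η | u < |X β h' (sh t y η) l - A ρ β h' l|} =
        (law d ρ).real {η | u < |X β h' η l - A ρ β h' l|} := real_shift80 hset t y
    rw [hshift]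
    have hmk := mul_meas_ge_le_integral_of_nonneg (μ := law d ρ)
      (f := fun η => |X β h' η l - A ρ β h' l| ^ Q)
      (Filter.Eventually.of_forall fun η => pow_nonneg (abs_nonneg _) Q) hint (u ^ Q)
    have hsub : (law d ρ).real {η | u < |X β h' η l - A ρ β h' l|} ≤
        (law d ρ).real {η | u ^ Q ≤ |X β h' η l - A ρ β h' l| ^ Q} := by
      refine measureReal_mono fun η hη => ?_
      have hη' : u < |X β h' η l - A ρ β h' l| := hη
      exact pow_le_pow_left₀ hu0.le hη'.le Q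
    have hl1 : (0 : ℝ) < l := by exact_mod_cast hl0
    have hlm : (l : ℝ) ≤ m := by exact_mod_cast hl
    have h5 : C₀ * (l : ℝ) ^ (x * Q) ≤ |C₀| * (m : ℝ) ^ (x * Q) :=
      mul_le_mul (le_abs_self _) (Real.rpow_le_rpow hl1.le hlm (mul_nonneg hx (Nat.cast_nonneg _)))
        (Real.rpow_nonneg hl1.le _) (abs_nonneg _)
    have h6 : u ^ Q * (law d ρ).real {η | u < |X β h' η l - A ρ β h' l|} ≤
        |C₀| * (m : ℝ) ^ (x * Q) :=
      (mul_le_mul_of_nonneg_left hsub (pow_nonneg hu0.le Q)).trans (hmk.trans (hmean.trans h5))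
    have hpow : u ^ Q = (m : ℝ) ^ (x * Q) * (n : ℝ) ^ (ε * Q) := by
      rw [hu, mul_pow, Real.rpow_mul hm0.le, Real.rpow_natCast, Real.rpow_mul hn0.le,
        Real.rpow_natCast]
    have h7 : |C₀| * (m : ℝ) ^ (x * Q) ≤ u ^ Q * (|C₀| * (n : ℝ) ^ (-(q : ℝ))) := by
      have h8 : 1 ≤ (n : ℝ) ^ (ε * Q) * (n : ℝ) ^ (-(q : ℝ)) := by
        rw [← Real.rpow_add hn0]
        exact Real.one_le_rpow hn1 (by linarith)
      have h9 : 0 ≤ |C₀| * (m : ℝ) ^ (x * Q) :=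
        mul_nonneg (abs_nonneg _) (Real.rpow_nonneg hm0.le _)
      rw [hpow]
      calc |C₀| * (m : ℝ) ^ (x * Q)
          ≤ |C₀| * (m : ℝ) ^ (x * Q) * ((n : ℝ) ^ (ε * Q) * (n : ℝ) ^ (-(q : ℝ))) :=
            le_mul_of_one_le_right h9 h8
        _ = (m : ℝ) ^ (x * Q) * (n : ℝ) ^ (ε * Q) * (|C₀| * (n : ℝ) ^ (-(q : ℝ))) := by ring
    exact le_of_mul_le_mul_left (h6.trans h7) (pow_pos hu0 Q)

/-- All free energies of length at most `m` started in the box of size `n` are close to their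
limits, for every tilt near `h`. -/
theorem evF80 (hd : 0 < d) (hρ : EM ρ) {β : ℝ} {h : Vec d} {x : ℝ} (hx : 0 ≤ x) (hF : Fl ρ β h x)
    {ε : ℝ} (hε : 0 < ε) (hxε : x + ε < 1) (q : ℕ) :
    ∃ δ > 0, ∃ C : ℝ, 0 ≤ C ∧ ∀ h' : Vec d, ‖h' - h‖ < δ → ∀ (n m : ℕ), 1 ≤ m → m ≤ n →
      (law d ρ).real {η | ¬ ∀ i ≤ n, ∀ y ∈ boxF d n, ∀ l ≤ m,
        |X β h' (sh i y η) l - l * lam ρ β h'| ≤ C * ((m : ℝ) ^ x * (n : ℝ) ^ ε)} ≤
          C * (n : ℝ) ^ (-(q : ℝ)) := by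
  obtain ⟨δ₁, hδ₁, C₁, hC₁, H₁⟩ := tail80 hd hρ hx hF hε (q + d + 2)
  obtain ⟨δ₂, hδ₂, C₂, hC₂, H₂⟩ := rateU hd hρ hx hF hε hxε
  refine ⟨min δ₁ δ₂, lt_min hδ₁ hδ₂, 4 * 3 ^ d * C₁ + C₂ + 1, by positivity,
    fun h' hh' n m hm hmn => ?_⟩
  have hn : 1 ≤ n := hm.trans hmn
  have hn1 : (1 : ℝ) ≤ n := by exact_mod_cast hn
  have hn0 : (0 : ℝ) < n := by linarith
  have hm1 : (1 : ℝ) ≤ m := by exact_mod_cast hm
  have hm0 : (0 : ℝ) < m := by linarith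
  have hmn' : (m : ℝ) ≤ n := by exact_mod_cast hmn
  obtain ⟨u, hu⟩ : ∃ u : ℝ, u = (m : ℝ) ^ x * (n : ℝ) ^ ε := ⟨_, rfl⟩
  have hu0 : 0 < u := by
    rw [hu]
    exact mul_pos (Real.rpow_pos_of_pos hm0 _) (Real.rpow_pos_of_pos hn0 _)
  have hB0 : 0 ≤ C₁ * (n : ℝ) ^ (-((q + d + 2 : ℕ) : ℝ)) :=
    mul_nonneg hC₁ (Real.rpow_nonneg hn0.le _)
  have h1 := ev80_union (ρ := ρ) hn hmn hB0
    (S := fun i y l => {η | (m : ℝ) ^ x * (n : ℝ) ^ ε < |X β h' (sh i y η) l - A ρ β h' l|})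
    (fun i _ y _ l hl => H₁ h' (hh'.trans_le (min_le_left _ _)) n m l hn hm hl i y)
  rw [ev80_pow hn] at h1
  have hmean : ∀ l ≤ m, |A ρ β h' l - l * lam ρ β h'| ≤ C₂ * u := by
    intro l hl
    have h2 := A_le_lam hd hρ β h' l
    rw [abs_of_nonpos (by linarith)]
    rcases Nat.eq_zero_or_pos l with hl0 | hl0
    · have h3 : A ρ β h' 0 = 0 := by
        unfold A
        have h4 : ∀ η : Env d, X β h' η 0 = 0 := by
          intro η
          rw [X, Z_zero, Real.log_one]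
        simp only [h4]
        exact integral_zero _ _
      rw [hl0, h3, Nat.cast_zero, zero_mul, sub_zero, neg_zero]
      positivity
    · have h3 := H₂ h' (hh'.trans_le (min_le_right _ _)) l hl0
      have hl1 : (0 : ℝ) < l := by exact_mod_cast hl0
      have hlm : (l : ℝ) ≤ m := by exact_mod_cast hl
      have h4 : (l : ℝ) ^ (x + ε) ≤ u := by
        rw [hu, Real.rpow_add hl1]
        exact mul_le_mul (Real.rpow_le_rpow hl1.le hlm hx)
          (Real.rpow_le_rpow hl1.le (hlm.trans hmn') hε.le) (Real.rpow_nonneg hl1.le _)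
          (Real.rpow_nonneg hm0.le _)
      have h5 := mul_le_mul_of_nonneg_left h4 hC₂
      linarith
  have hsub : {η : Env d | ¬ ∀ i ≤ n, ∀ y ∈ boxF d n, ∀ l ≤ m,
      |X β h' (sh i y η) l - l * lam ρ β h'| ≤
        (4 * 3 ^ d * C₁ + C₂ + 1) * ((m : ℝ) ^ x * (n : ℝ) ^ ε)} ⊆
      {η | ¬ ∀ i ≤ n, ∀ y ∈ boxF d n, ∀ l ≤ m, η ∉
        {η : Env d | (m : ℝ) ^ x * (n : ℝ) ^ ε < |X β h' (sh i y η) l - A ρ β h' l|}} := by
    intro η hη hcon
    apply hη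
    intro i hi y hy l hl
    have h2 : ¬ (m : ℝ) ^ x * (n : ℝ) ^ ε < |X β h' (sh i y η) l - A ρ β h' l| :=
      hcon i hi y hy l hl
    rw [← hu] at h2 ⊢
    have h3 := not_lt.1 h2
    have h4 := hmean l hl
    have h5 : |X β h' (sh i y η) l - l * lam ρ β h'| ≤
        |X β h' (sh i y η) l - A ρ β h' l| + |A ρ β h' l - l * lam ρ β h'| := abs_sub_le _ _ _
    have h6 : 0 ≤ 4 * 3 ^ d * C₁ * u := by positivity
    nlinarith
  refine (measureReal_mono hsub).trans (h1.trans ?_)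
  refine mul_le_mul_of_nonneg_right ?_ (Real.rpow_nonneg hn0.le _)
  linarith

/-- The event on the free energies of the first `m` steps, for every `ε`. -/
theorem evX80 (hd : 0 < d) (hρ : EM ρ) {β : ℝ} {h : Vec d} {x : ℝ} (hx : 0 ≤ x) (hx1 : x < 1)
    (hF : Fl ρ β h x) {ε : ℝ} (hε : 0 < ε) (q : ℕ) :
    ∃ δ > 0, ∃ C : ℝ, 0 ≤ C ∧ ∀ h' : Vec d, ‖h' - h‖ < δ → ∀ (n m : ℕ), 1 ≤ m → m ≤ n →
      (law d ρ).real {η | ¬ ∀ i ≤ m, ∀ y ∈ boxF d m,
        |X β h' (sh i y η) (m - i) - ((m - i : ℕ) : ℝ) * lam ρ β h'| ≤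
          C * ((m : ℝ) ^ x * (n : ℝ) ^ ε)} ≤ C * (n : ℝ) ^ (-(q : ℝ)) := by
  have hε' : 0 < min ε ((1 - x) / 2) := lt_min hε (by linarith)
  have hxε : x + min ε ((1 - x) / 2) < 1 := by
    have := min_le_right ε ((1 - x) / 2)
    linarith
  obtain ⟨δ, hδ, C, hC, H⟩ := evF80 hd hρ hx hF hε' hxε q
  refine ⟨δ, hδ, C, hC, fun h' hh' n m hm hmn => (measureReal_mono ?_).trans (H h' hh' n m hm hmn)⟩
  intro η hη hcon
  apply hη
  intro i hi y hy
  refine (hcon i (hi.trans hmn) y (boxF_sub80 hmn hy) (m - i) (Nat.sub_le m i)).trans ?_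
  have hn1 : (1 : ℝ) ≤ n := by exact_mod_cast hm.trans hmn
  exact mul_le_mul_of_nonneg_left (mul_le_mul_of_nonneg_left
    (Real.rpow_le_rpow_of_exponent_le hn1 (min_le_left _ _))
    (Real.rpow_nonneg (Nat.cast_nonneg _) _)) hC

end Pool.Agent.W_7d29a1_D2
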