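import Mathlib

/-!
The window lemma (abstract): two conditionally independent copies, quantiles, moments.
-/

namespace Pool.Agent.W_7d29a1_D2.Win77

open MeasureTheory ProbabilityTheory Filter Topology

variable {Ω : Type*} [MeasurableSpace Ω] {μ : Measure Ω} [IsProbabilityMeasure μ]

/-- Upper quantile. -/
theorem exists_quantile {Y : Ω → ℝ} (hY : Measurable Y) {p : ℝ} (hp : 0 < p) (hp1 : p < 1) :
    ∃ a : ℝ, p ≤ μ.real {ω | a ≤ Y ω} ∧ μ.real {ω | a < Y ω} ≤ p := by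
  set g : ℝ → ℝ := fun x => μ.real {ω | x ≤ Y ω} with hg
  have hanti : Antitone g := by
    intro x y hxy
    exact measureReal_mono (fun ω hω => le_trans hxy hω)
  have hms : ∀ x, MeasurableSet {ω | x ≤ Y ω} := fun x => measurableSet_le measurable_const hY
  have htop : Tendsto (fun n : ℕ => g n) atTop (𝓝 0) := by
    have h1 : Tendsto (fun n : ℕ => μ {ω | (n : ℝ) ≤ Y ω}) atTop (𝓝 (μ (⋂ n : ℕ, {ω | (n : ℝ) ≤ Y ω}))) := by
      apply tendsto_measure_iInter_atTop (fun n : ℕ => (hms (n : ℝ)).nullMeasurableSet)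
      · intro m n hmn ω hω
        have h5 : (m : ℝ) ≤ n := by exact_mod_cast hmn
        exact le_trans h5 hω
      · exact ⟨0, measure_ne_top _ _⟩
    have h2 : (⋂ n : ℕ, {ω | (n : ℝ) ≤ Y ω}) = ∅ := by
      ext ω
      simp only [Set.mem_iInter, Set.mem_ofPred_eq, Set.mem_empty_iff_false, iff_false, not_forall, not_le]
      exact exists_nat_gt (Y ω)
    rw [h2, measure_empty] at h1
    have h3 := (ENNReal.tendsto_toReal (by simp : (0 : ENNReal) ≠ ⊤)).comp h1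
    simpa [g, Measure.real, Function.comp_def] using h3
  have hbot : Tendsto (fun n : ℕ => g (-(n : ℝ))) atTop (𝓝 1) := by
    have h1 : Tendsto (fun n : ℕ => μ {ω | -(n : ℝ) ≤ Y ω}) atTop (𝓝 (μ (⋃ n : ℕ, {ω | -(n : ℝ) ≤ Y ω}))) := by
      apply tendsto_measure_iUnion_atTop
      intro m n hmn ω hω
      have h5 : -(n : ℝ) ≤ -(m : ℝ) := by
        have : (m : ℝ) ≤ n := by exact_mod_cast hmn
        linarith
      exact le_trans h5 hω
    have h2 : (⋃ n : ℕ, {ω | -(n : ℝ) ≤ Y ω}) = Set.univ := by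
      ext ω
      simp only [Set.mem_iUnion, Set.mem_ofPred_eq, Set.mem_univ, iff_true]
      obtain ⟨n, hn⟩ := exists_nat_gt (-(Y ω))
      exact ⟨n, by linarith⟩
    rw [h2, measure_univ] at h1
    have h3 := (ENNReal.tendsto_toReal (by simp : (1 : ENNReal) ≠ ⊤)).comp h1
    simpa [g, Measure.real, Function.comp_def] using h3
  set S : Set ℝ := {x | p ≤ g x} with hS
  have hne : S.Nonempty := by
    obtain ⟨n, hn⟩ := ((hbot.eventually (lt_mem_nhds hp1)).exists)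
    exact ⟨_, hn.le⟩
  have hbdd : BddAbove S := by
    obtain ⟨n, hn⟩ := ((htop.eventually (gt_mem_nhds hp)).exists)
    refine ⟨n, fun x hx => ?_⟩
    by_contra hlt
    push Not at hlt
    exact absurd (lt_of_le_of_lt (le_trans hx (hanti hlt.le)) hn) (lt_irrefl _)
  refine ⟨sSup S, ?_, ?_⟩
  · -- left continuity
    have h1 : Tendsto (fun n : ℕ => μ {ω | sSup S - 1 / ((n : ℝ) + 1) ≤ Y ω}) atTop
        (𝓝 (μ (⋂ n : ℕ, {ω | sSup S - 1 / ((n : ℝ) + 1) ≤ Y ω}))) := by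
      apply tendsto_measure_iInter_atTop (fun n => (hms _).nullMeasurableSet)
      · intro m n hmn ω hω
        have h5 : 1 / ((n : ℝ) + 1) ≤ 1 / ((m : ℝ) + 1) := by
          apply one_div_le_one_div_of_le (by positivity)
          have : (m : ℝ) ≤ n := by exact_mod_cast hmn
          linarith
        have h6 : sSup S - 1 / ((m : ℝ) + 1) ≤ sSup S - 1 / ((n : ℝ) + 1) := by linarith
        exact le_trans h6 hω
      · exact ⟨0, measure_ne_top _ _⟩
    have h2 : (⋂ n : ℕ, {ω | sSup S - 1 / ((n : ℝ) + 1) ≤ Y ω}) = {ω | sSup S ≤ Y ω} := by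
      ext ω
      simp only [Set.mem_iInter, Set.mem_ofPred_eq]
      constructor
      · intro h
        have h3 : Tendsto (fun n : ℕ => sSup S - 1 / ((n : ℝ) + 1)) atTop (𝓝 (sSup S - 0)) :=
          tendsto_const_nhds.sub tendsto_one_div_add_atTop_nhds_zero_nat
        rw [sub_zero] at h3
        exact le_of_tendsto' h3 h
      · intro h n
        have : (0 : ℝ) ≤ 1 / ((n : ℝ) + 1) := by positivity
        linarith
    rw [h2] at h1
    have h3 := (ENNReal.tendsto_toReal (measure_ne_top μ {ω | sSup S ≤ Y ω})).comp h1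
    refine ge_of_tendsto' h3 (fun n => ?_)
    have h4 : sSup S - 1 / ((n : ℝ) + 1) < sSup S := by
      have : (0 : ℝ) < 1 / ((n : ℝ) + 1) := by positivity
      linarith
    obtain ⟨x, hx, hx2⟩ := exists_lt_of_lt_csSup hne h4
    exact le_trans hx (hanti hx2.le)
  · have h1 : Tendsto (fun n : ℕ => μ {ω | sSup S + 1 / ((n : ℝ) + 1) ≤ Y ω}) atTop
        (𝓝 (μ (⋃ n : ℕ, {ω | sSup S + 1 / ((n : ℝ) + 1) ≤ Y ω}))) := by
      apply tendsto_measure_iUnion_atTop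
      intro m n hmn ω hω
      have h5 : 1 / ((n : ℝ) + 1) ≤ 1 / ((m : ℝ) + 1) := by
        apply one_div_le_one_div_of_le (by positivity)
        have : (m : ℝ) ≤ n := by exact_mod_cast hmn
        linarith
      have h6 : sSup S + 1 / ((n : ℝ) + 1) ≤ sSup S + 1 / ((m : ℝ) + 1) := by linarith
      exact le_trans h6 hω
    have h2 : (⋃ n : ℕ, {ω | sSup S + 1 / ((n : ℝ) + 1) ≤ Y ω}) = {ω | sSup S < Y ω} := by
      ext ω
      simp only [Set.mem_iUnion, Set.mem_ofPred_eq]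
      constructor
      · rintro ⟨n, hn⟩
        have : (0 : ℝ) < 1 / ((n : ℝ) + 1) := by positivity
        linarith
      · intro h
        obtain ⟨n, hn⟩ := exists_nat_one_div_lt (sub_pos.2 h)
        exact ⟨n, by linarith⟩
    rw [h2] at h1
    have h3 := (ENNReal.tendsto_toReal (measure_ne_top μ {ω | sSup S < Y ω})).comp h1
    refine le_of_tendsto' h3 (fun n => ?_)
    have h4 : sSup S < sSup S + 1 / ((n : ℝ) + 1) := by
      have : (0 : ℝ) < 1 / ((n : ℝ) + 1) := by positivity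
      linarith
    have h5 : sSup S + 1 / ((n : ℝ) + 1) ∉ S := fun h => absurd (le_csSup hbdd h) (not_le.2 h4)
    have h6 : ¬ p ≤ g (sSup S + 1 / ((n : ℝ) + 1)) := h5
    exact (not_le.1 h6).le

/-- The lower half of the window: `X` restricted (`X'`) is at least the copy at the random site
`zs`, whose restriction at each fixed site is independent of `(X', zs)`. -/
theorem lower {ι : Type*} (R : Finset ι) {X' : Ω → ℝ} {zs : Ω → ι} {V' : ι → Ω → ℝ}
    {Bad : Set Ω} {p a l : ℝ} (hp : 0 < p)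
    (hind : ∀ z ∈ R, ∀ c : ℝ, μ.real {ω | X' ω < c ∧ zs ω = z ∧ a ≤ V' z ω} =
      μ.real {ω | X' ω < c ∧ zs ω = z} * μ.real {ω | a ≤ V' z ω})
    (hms : ∀ z ∈ R, ∀ c : ℝ, MeasurableSet {ω | X' ω < c ∧ zs ω = z ∧ a ≤ V' z ω})
    (hpV : ∀ z ∈ R, p ≤ μ.real {ω | a ≤ V' z ω})
    (hgood : ∀ ω ∉ Bad, ∃ z ∈ R, zs ω = z ∧ l + V' z ω ≤ X' ω) :
    μ.real {ω | X' ω < l + a} ≤ (1 + 1 / p) * μ.real Bad := by
  classical
  have h1 : {ω | X' ω < l + a} ⊆ Bad ∪ ⋃ z ∈ R, {ω | X' ω < l + a ∧ zs ω = z} := by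
    intro ω hω
    by_cases hb : ω ∈ Bad
    · exact Or.inl hb
    · obtain ⟨z, hz, h2, -⟩ := hgood ω hb
      refine Or.inr ?_
      simp only [Set.mem_iUnion]
      exact ⟨z, hz, hω, h2⟩
  have h2 : μ.real (⋃ z ∈ R, {ω | X' ω < l + a ∧ zs ω = z}) ≤
      ∑ z ∈ R, μ.real {ω | X' ω < l + a ∧ zs ω = z} := measureReal_biUnion_finset_le R _
  have h3 : ∀ z ∈ R, p * μ.real {ω | X' ω < l + a ∧ zs ω = z} ≤
      μ.real {ω | X' ω < l + a ∧ zs ω = z ∧ a ≤ V' z ω} := by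
    intro z hz
    rw [hind z hz, mul_comm]
    exact mul_le_mul_of_nonneg_left (hpV z hz) measureReal_nonneg
  have h4 : ∑ z ∈ R, μ.real {ω | X' ω < l + a ∧ zs ω = z ∧ a ≤ V' z ω} =
      μ.real (⋃ z ∈ R, {ω | X' ω < l + a ∧ zs ω = z ∧ a ≤ V' z ω}) := by
    rw [measureReal_biUnion_finset]
    · intro z hz w hw hzw
      refine Set.disjoint_left.2 ?_
      rintro ω ⟨-, h5, -⟩ ⟨-, h6, -⟩
      exact hzw (h5.symm.trans h6)
    · intro z hz
      exact hms z hz _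
  have h5 : (⋃ z ∈ R, {ω | X' ω < l + a ∧ zs ω = z ∧ a ≤ V' z ω}) ⊆ Bad := by
    intro ω hω
    simp only [Set.mem_iUnion] at hω
    obtain ⟨z, hz, h6, h7, h8⟩ := hω
    by_contra hb
    obtain ⟨z', hz', h9, h10⟩ := hgood ω hb
    rw [h7] at h9
    subst h9
    linarith
  have h6 : p * ∑ z ∈ R, μ.real {ω | X' ω < l + a ∧ zs ω = z} ≤ μ.real Bad := by
    calc p * ∑ z ∈ R, μ.real {ω | X' ω < l + a ∧ zs ω = z}
        = ∑ z ∈ R, p * μ.real {ω | X' ω < l + a ∧ zs ω = z} := Finset.mul_sum _ _ _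
      _ ≤ ∑ z ∈ R, μ.real {ω | X' ω < l + a ∧ zs ω = z ∧ a ≤ V' z ω} :=
        Finset.sum_le_sum h3
      _ = μ.real (⋃ z ∈ R, {ω | X' ω < l + a ∧ zs ω = z ∧ a ≤ V' z ω}) := h4
      _ ≤ μ.real Bad := measureReal_mono h5
  have h7 : ∑ z ∈ R, μ.real {ω | X' ω < l + a ∧ zs ω = z} ≤ 1 / p * μ.real Bad := by
    rw [one_div, inv_mul_eq_div, le_div_iff₀ hp]
    linarith
  calc μ.real {ω | X' ω < l + a}
      ≤ μ.real (Bad ∪ ⋃ z ∈ R, {ω | X' ω < l + a ∧ zs ω = z}) := measureReal_mono h1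
    _ ≤ μ.real Bad + μ.real (⋃ z ∈ R, {ω | X' ω < l + a ∧ zs ω = z}) := measureReal_union_le _ _
    _ ≤ μ.real Bad + 1 / p * μ.real Bad := by linarith
    _ = (1 + 1 / p) * μ.real Bad := by ring

/-- The upper half of the window. -/
theorem upper {ι : Type*} (S : Finset ι) {X : Ω → ℝ} {V : ι → Ω → ℝ}
    {Bad : Set Ω} {p a u : ℝ}
    (hpV : ∀ z ∈ S, μ.real {ω | a < V z ω} ≤ p)
    (hgood : ∀ ω ∉ Bad, ∃ z ∈ S, X ω ≤ u + V z ω) :
    μ.real {ω | u + a < X ω} ≤ μ.real Bad + S.card * p := by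
  classical
  have h1 : {ω | u + a < X ω} ⊆ Bad ∪ ⋃ z ∈ S, {ω | a < V z ω} := by
    intro ω hω
    by_cases hb : ω ∈ Bad
    · exact Or.inl hb
    · obtain ⟨z, hz, h2⟩ := hgood ω hb
      refine Or.inr ?_
      simp only [Set.mem_iUnion]
      have h3 : u + a < X ω := hω
      refine ⟨z, hz, ?_⟩
      show a < V z ω
      linarith
  calc μ.real {ω | u + a < X ω}
      ≤ μ.real (Bad ∪ ⋃ z ∈ S, {ω | a < V z ω}) := measureReal_mono h1
    _ ≤ μ.real Bad + μ.real (⋃ z ∈ S, {ω | a < V z ω}) := measureReal_union_le _ _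
    _ ≤ μ.real Bad + ∑ z ∈ S, μ.real {ω | a < V z ω} := by
      gcongr
      exact measureReal_biUnion_finset_le S _
    _ ≤ μ.real Bad + ∑ _z ∈ S, p := by
      gcongr with z hz
      exact hpV z hz
    _ = μ.real Bad + S.card * p := by simp

/-- Both halves together. -/
theorem window {X : Ω → ℝ} {c₁ c₂ K e₁ e₂ : ℝ} (h1 : μ.real {ω | X ω < c₁} ≤ e₁)
    (h2 : μ.real {ω | c₂ < X ω} ≤ e₂) (hK : c₂ - c₁ ≤ K) :
    μ.real {ω | K < |X ω - c₁|} ≤ e₁ + e₂ := by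
  have h3 : {ω | K < |X ω - c₁|} ⊆ {ω | X ω < c₁} ∪ {ω | c₂ < X ω} := by
    intro ω hω
    have h4 : K < |X ω - c₁| := hω
    by_contra hc
    simp only [Set.mem_union, Set.mem_ofPred_eq, not_or, not_lt] at hc
    obtain ⟨h5, h6⟩ := hc
    rw [abs_of_nonneg (by linarith)] at h4
    linarith
  calc μ.real {ω | K < |X ω - c₁|} ≤ μ.real ({ω | X ω < c₁} ∪ {ω | c₂ < X ω}) := measureReal_mono h3
    _ ≤ μ.real {ω | X ω < c₁} + μ.real {ω | c₂ < X ω} := measureReal_union_le _ _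
    _ ≤ e₁ + e₂ := by linarith

/-- Jensen for powers. -/
theorem jensen {f : Ω → ℝ} (hf : ∀ ω, 0 ≤ f ω) (q : ℕ) (hi : Integrable f μ)
    (hi2 : Integrable (fun ω => f ω ^ q) μ) : (∫ ω, f ω ∂μ) ^ q ≤ ∫ ω, f ω ^ q ∂μ := by
  have h := (convexOn_pow (𝕜 := ℝ) q).map_integral_le (μ := μ) (f := f)
    (continuous_pow q).continuousOn isClosed_Ici (Filter.Eventually.of_forall fun ω => hf ω) hi hi2
  exact h

theorem dev_center {X : Ω → ℝ} {M c K : ℝ} (hX : Integrable (fun ω => |X ω - M|) μ)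
    (hw : μ.real {ω | K < |X ω - c|} ≤ 1 / 2) (hm : Measurable X) :
    |M - c| ≤ 2 * ∫ ω, |X ω - M| ∂μ + K := by
  by_cases h0 : |M - c| ≤ K
  · have : 0 ≤ ∫ ω, |X ω - M| ∂μ := integral_nonneg fun ω => abs_nonneg _
    linarith
  · have h0' : K < |M - c| := not_le.1 h0
    have h1 := mul_meas_ge_le_integral_of_nonneg (μ := μ)
      (Filter.Eventually.of_forall fun ω => abs_nonneg (X ω - M)) hX (|M - c| - K)
    have h2 : {ω | K < |X ω - c|}ᶜ ⊆ {ω | |M - c| - K ≤ |X ω - M|} := by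
      intro ω hω
      have h3 : ¬ (K < |X ω - c|) := hω
      have h4 : |M - c| ≤ |X ω - M| + |X ω - c| := by
        have h5 : M - c = -(X ω - M) + (X ω - c) := by ring
        rw [h5]
        calc |-(X ω - M) + (X ω - c)| ≤ |-(X ω - M)| + |X ω - c| := abs_add_le _ _
          _ = |X ω - M| + |X ω - c| := by rw [abs_neg]
      show |M - c| - K ≤ |X ω - M|
      linarith [not_lt.1 h3]
    have hms : MeasurableSet {ω | K < |X ω - c|} := by
      have : Measurable fun ω => |X ω - c| := by fun_prop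
      exact measurableSet_lt measurable_const this
    have h5 : 1 / 2 ≤ μ.real {ω | |M - c| - K ≤ |X ω - M|} := by
      calc (1 : ℝ) / 2 ≤ 1 - μ.real {ω | K < |X ω - c|} := by linarith
        _ = μ.real {ω | K < |X ω - c|}ᶜ := by rw [probReal_compl_eq_one_sub hms]
        _ ≤ _ := measureReal_mono h2
    have h6 : (|M - c| - K) * (1 / 2) ≤ (|M - c| - K) * μ.real {ω | |M - c| - K ≤ |X ω - M|} :=
      mul_le_mul_of_nonneg_left h5 (by linarith)
    linarith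

theorem tail_split {Y : Ω → ℝ} (q : ℕ) {K e : ℝ} (hm : Measurable Y) (hK : 0 ≤ K) (he : 0 < e)
    (hi : Integrable (fun ω => |Y ω| ^ q) μ) (hi2 : Integrable (fun ω => |Y ω| ^ (2 * q)) μ)
    (hw : μ.real {ω | K < |Y ω|} ≤ e ^ 2) :
    ∫ ω, |Y ω| ^ q ∂μ ≤ K ^ q + e * (∫ ω, |Y ω| ^ (2 * q) ∂μ + 1) / 2 := by
  have hms : MeasurableSet {ω | K < |Y ω|} := by
    have : Measurable fun ω => |Y ω| := by fun_prop
    exact measurableSet_lt measurable_const this
  have hpt : ∀ ω, |Y ω| ^ q ≤ K ^ q + (e * |Y ω| ^ (2 * q) +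
      (1 / e) * Set.indicator {ω | K < |Y ω|} (fun _ => (1 : ℝ)) ω) / 2 := by
    intro ω
    by_cases hb : K < |Y ω|
    · have h1 : Set.indicator {ω | K < |Y ω|} (fun _ => (1 : ℝ)) ω = 1 := by
        rw [Set.indicator_of_mem]
        exact hb
      rw [h1]
      set a := |Y ω| ^ q with ha
      have h2 : |Y ω| ^ (2 * q) = a ^ 2 := by rw [ha, ← pow_mul, mul_comm]
      rw [h2]
      have h3 : a ≤ (e * a ^ 2 + 1 / e * 1) / 2 := by
        have h4 : 0 ≤ (e * a - 1) ^ 2 / (2 * e) := by positivity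
        have h5 : (e * a - 1) ^ 2 / (2 * e) = (e * a ^ 2 + 1 / e * 1) / 2 - a := by
          field_simp
          ring
        linarith
      have h6 : 0 ≤ K ^ q := by positivity
      linarith
    · have h1 : Set.indicator {ω | K < |Y ω|} (fun _ => (1 : ℝ)) ω = 0 := by
        rw [Set.indicator_of_notMem]
        exact hb
      rw [h1]
      have h2 : |Y ω| ^ q ≤ K ^ q := pow_le_pow_left₀ (abs_nonneg _) (not_lt.1 hb) q
      have h3 : 0 ≤ e * |Y ω| ^ (2 * q) := by positivity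
      linarith
  have hind : Integrable (Set.indicator {ω | K < |Y ω|} (fun _ => (1 : ℝ))) μ :=
    (integrable_const 1).indicator hms
  have hint : Integrable (fun ω => K ^ q + (e * |Y ω| ^ (2 * q) +
      (1 / e) * Set.indicator {ω | K < |Y ω|} (fun _ => (1 : ℝ)) ω) / 2) μ :=
    (integrable_const _).add (((hi2.const_mul e).add (hind.const_mul (1 / e))).div_const 2)
  have h1 := integral_mono hi hint hpt
  have h2 : ∫ ω, (K ^ q + (e * |Y ω| ^ (2 * q) +
      (1 / e) * Set.indicator {ω | K < |Y ω|} (fun _ => (1 : ℝ)) ω) / 2) ∂μ =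
      K ^ q + (e * ∫ ω, |Y ω| ^ (2 * q) ∂μ + (1 / e) * μ.real {ω | K < |Y ω|}) / 2 := by
    have hs : Integrable (fun ω => e * |Y ω| ^ (2 * q) +
        (1 / e) * Set.indicator {ω | K < |Y ω|} (fun _ => (1 : ℝ)) ω) μ :=
      (hi2.const_mul e).add (hind.const_mul (1 / e))
    have hs2 : Integrable (fun ω => (e * |Y ω| ^ (2 * q) +
        (1 / e) * Set.indicator {ω | K < |Y ω|} (fun _ => (1 : ℝ)) ω) / 2) μ := hs.div_const 2
    rw [integral_add (integrable_const _) hs2,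
      integral_div, integral_add (hi2.const_mul e) (hind.const_mul (1 / e)), integral_const_mul,
      integral_const_mul, integral_indicator_const (1 : ℝ) hms]
    simp
  rw [h2] at h1
  have h3 : (1 / e) * μ.real {ω | K < |Y ω|} ≤ e := by
    calc (1 / e) * μ.real {ω | K < |Y ω|} ≤ (1 / e) * e ^ 2 :=
          mul_le_mul_of_nonneg_left hw (by positivity)
      _ = e := by field_simp
  linarith

theorem center_le {X : Ω → ℝ} {c : ℝ} {q : ℕ} (hq : 1 ≤ q) (hX : Integrable X μ)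
    (hi : Integrable (fun ω => |X ω - c| ^ q) μ)
    (hi2 : Integrable (fun ω => |X ω - ∫ y, X y ∂μ| ^ q) μ) :
    ∫ ω, |X ω - ∫ y, X y ∂μ| ^ q ∂μ ≤ 2 ^ q * ∫ ω, |X ω - c| ^ q ∂μ := by
  set M := ∫ y, X y ∂μ with hM
  have hXc : Integrable (fun ω => |X ω - c|) μ := (hX.sub (integrable_const c)).abs
  have h1 : |c - M| ≤ ∫ ω, |X ω - c| ∂μ := by
    have h2 : ∫ ω, (X ω - c) ∂μ = M - c := by
      rw [integral_sub hX (integrable_const c)]
      simp [hM]
    rw [abs_sub_comm, ← h2]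
    exact abs_integral_le_integral_abs
  have h3 : |c - M| ^ q ≤ ∫ ω, |X ω - c| ^ q ∂μ :=
    le_trans (pow_le_pow_left₀ (abs_nonneg _) h1 q) (jensen (fun ω => abs_nonneg _) q hXc hi)
  have h4 : ∀ ω, |X ω - M| ^ q ≤ 2 ^ (q - 1) * (|X ω - c| ^ q + |c - M| ^ q) := by
    intro ω
    have h5 : |X ω - M| ≤ |X ω - c| + |c - M| := by
      have h6 : X ω - M = (X ω - c) + (c - M) := by ring
      rw [h6]
      exact abs_add_le _ _
    exact le_trans (pow_le_pow_left₀ (abs_nonneg _) h5 q) (add_pow_le (abs_nonneg _) (abs_nonneg _) q)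
  have h5 : ∫ ω, |X ω - M| ^ q ∂μ ≤ ∫ ω, 2 ^ (q - 1) * (|X ω - c| ^ q + |c - M| ^ q) ∂μ :=
    integral_mono hi2 ((hi.add (integrable_const _)).const_mul _) h4
  rw [integral_const_mul, integral_add hi (integrable_const _)] at h5
  have h6 : ∫ _ω : Ω, |c - M| ^ q ∂μ = |c - M| ^ q := by simp
  rw [h6] at h5
  calc ∫ ω, |X ω - M| ^ q ∂μ ≤ 2 ^ (q - 1) * (∫ ω, |X ω - c| ^ q ∂μ + |c - M| ^ q) := h5
    _ ≤ 2 ^ (q - 1) * (∫ ω, |X ω - c| ^ q ∂μ + ∫ ω, |X ω - c| ^ q ∂μ) := by gcongr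
    _ = 2 ^ (q - 1) * 2 * ∫ ω, |X ω - c| ^ q ∂μ := by ring
    _ = 2 ^ q * ∫ ω, |X ω - c| ^ q ∂μ := by
        rw [← pow_succ, Nat.sub_add_cancel hq]

/-- **Window ⇒ moments.** If off an event of probability at most `C n ^ (-4 q)` the variable `X` is in
the window `[c - K, c + K]`, then its central moment of order `q` is at most `C' K ^ q`; `C'` depends on
`q`, `C` and on the constant `B` of the crude bound of the moment of order `2 q` only. -/
theorem win_moments {q : ℕ} (hq : 1 ≤ q) {C B : ℝ} (hC : 0 ≤ C) (hB : 0 ≤ B) :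
    ∃ C' : ℝ, 1 ≤ C' ∧ ∀ (X : Ω → ℝ), Measurable X → Integrable X μ →
      ∀ (n : ℕ) (K c : ℝ), 1 ≤ n → 1 ≤ K →
      (∀ k ≤ 2 * q, Integrable (fun ω => |X ω - ∫ y, X y ∂μ| ^ k) μ) →
      ∫ ω, |X ω - ∫ y, X y ∂μ| ^ (2 * q) ∂μ ≤ B * (n : ℝ) ^ (2 * q) →
      μ.real {ω | K < |X ω - c|} * (n : ℝ) ^ (4 * q) ≤ C →
      ∫ ω, |X ω - ∫ y, X y ∂μ| ^ q ∂μ ≤ (C' * K) ^ q := by
  set D : ℝ := 2 ^ q * (1 + (C + 1) * ((4 * B + 6) ^ (2 * q) + 1)) + (B + 1) ^ q * (2 * C + 1) with hD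
  have hD1 : 1 ≤ D := by
    have h1 : (1 : ℝ) ≤ 2 ^ q := one_le_pow₀ (by norm_num)
    have h2 : (0 : ℝ) ≤ (C + 1) * ((4 * B + 6) ^ (2 * q) + 1) := by positivity
    have h3 : (0 : ℝ) ≤ (B + 1) ^ q * (2 * C + 1) := by positivity
    nlinarith
  refine ⟨D, hD1, ?_⟩
  intro X hX hXi n K c hn hK hint hmom hwin
  set M := ∫ y, X y ∂μ with hM
  have hn0 : (1 : ℝ) ≤ n := by exact_mod_cast hn
  have hnp : (0 : ℝ) < n := by linarith
  have hDq : D * K ^ q ≤ (D * K) ^ q := by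
    rw [mul_pow]
    have : D ≤ D ^ q := le_self_pow₀ hD1 (by omega)
    exact mul_le_mul_of_nonneg_right this (by positivity)
  refine le_trans ?_ hDq
  set b : ℝ := (B + 1) * n with hb
  have hb0 : 0 ≤ b := by positivity
  have hmom2 : ∫ ω, |X ω - M| ^ (2 * q) ∂μ ≤ b ^ (2 * q) := by
    refine le_trans hmom ?_
    rw [hb, mul_pow]
    have : B ≤ (B + 1) ^ (2 * q) := by
      have h1 : B + 1 ≤ (B + 1) ^ (2 * q) := le_self_pow₀ (by linarith) (by omega)
      linarith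
    exact mul_le_mul_of_nonneg_right this (by positivity)
  have hi1 : Integrable (fun ω => |X ω - M|) μ := by
    have := hint 1 (by omega)
    simpa using this
  -- crude bounds
  have hcr : ∫ ω, |X ω - M| ^ q ∂μ ≤ b ^ q := by
    have h1 : (∫ ω, |X ω - M| ^ q ∂μ) ^ 2 ≤ ∫ ω, (|X ω - M| ^ q) ^ 2 ∂μ := by
      apply jensen (fun ω => by positivity) 2 (hint q (by omega))
      have h2 := hint (2 * q) le_rfl
      refine h2.congr (Filter.Eventually.of_forall fun ω => ?_)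
      show |X ω - M| ^ (2 * q) = (|X ω - M| ^ q) ^ 2
      rw [← pow_mul, mul_comm]
    have h2 : ∫ ω, (|X ω - M| ^ q) ^ 2 ∂μ = ∫ ω, |X ω - M| ^ (2 * q) ∂μ := by
      congr 1
      ext ω
      rw [← pow_mul, mul_comm]
    rw [h2] at h1
    have h3 : (∫ ω, |X ω - M| ^ q ∂μ) ^ 2 ≤ (b ^ q) ^ 2 := by
      rw [← pow_mul, mul_comm q 2]
      exact le_trans h1 hmom2
    exact le_of_sq_le_sq h3 (by positivity)
  have hcr1 : ∫ ω, |X ω - M| ∂μ ≤ b := by
    have h1 : (∫ ω, |X ω - M| ∂μ) ^ (2 * q) ≤ ∫ ω, |X ω - M| ^ (2 * q) ∂μ :=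
      jensen (fun ω => abs_nonneg _) (2 * q) hi1 (hint _ le_rfl)
    exact (pow_le_pow_iff_left₀ (integral_nonneg fun ω => abs_nonneg _) hb0 (by omega : 2 * q ≠ 0)).1
      (le_trans h1 hmom2)
  by_cases hKn : (n : ℝ) < K
  · -- trivial case
    calc ∫ ω, |X ω - M| ^ q ∂μ ≤ b ^ q := hcr
      _ = (B + 1) ^ q * (n : ℝ) ^ q := by rw [hb, mul_pow]
      _ ≤ (B + 1) ^ q * K ^ q := by gcongr
      _ ≤ D * K ^ q := by
        apply mul_le_mul_of_nonneg_right _ (by positivity)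
        have h2 : (0 : ℝ) ≤ 2 ^ q * (1 + (C + 1) * ((4 * B + 6) ^ (2 * q) + 1)) := by positivity
        have h3 : (B + 1) ^ q ≤ (B + 1) ^ q * (2 * C + 1) := by
          have : (0 : ℝ) ≤ (B + 1) ^ q := by positivity
          nlinarith
        linarith
  have hKn' : K ≤ n := not_lt.1 hKn
  by_cases hsm : (n : ℝ) ^ (4 * q) < 2 * C
  · calc ∫ ω, |X ω - M| ^ q ∂μ ≤ b ^ q := hcr
      _ = (B + 1) ^ q * (n : ℝ) ^ q := by rw [hb, mul_pow]
      _ ≤ (B + 1) ^ q * (n : ℝ) ^ (4 * q) := by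
        apply mul_le_mul_of_nonneg_left _ (by positivity)
        exact pow_le_pow_right₀ hn0 (by omega)
      _ ≤ (B + 1) ^ q * (2 * C + 1) * 1 := by
        rw [mul_one]
        gcongr
        linarith
      _ ≤ D * K ^ q := by
        have h4 : (1 : ℝ) ≤ K ^ q := one_le_pow₀ hK
        have h2 : (0 : ℝ) ≤ 2 ^ q * (1 + (C + 1) * ((4 * B + 6) ^ (2 * q) + 1)) := by positivity
        apply mul_le_mul _ h4 (by norm_num) (by linarith)
        linarith
  have hsm' : 2 * C ≤ (n : ℝ) ^ (4 * q) := not_lt.1 hsm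
  have hn4 : (0 : ℝ) < (n : ℝ) ^ (4 * q) := by positivity
  -- the main case
  have hw0 : 0 ≤ μ.real {ω | K < |X ω - c|} := measureReal_nonneg
  have hw1 : μ.real {ω | K < |X ω - c|} ≤ C / (n : ℝ) ^ (4 * q) := by
    rw [le_div_iff₀ hn4]
    exact hwin
  have hw2 : μ.real {ω | K < |X ω - c|} ≤ 1 / 2 := by
    refine le_trans hw1 ?_
    rw [div_le_iff₀ hn4]
    linarith
  set e : ℝ := (C + 1) / (n : ℝ) ^ (2 * q) with he
  have he0 : 0 < e := by positivity
  have hw3 : μ.real {ω | K < |X ω - c|} ≤ e ^ 2 := by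
    refine le_trans hw1 ?_
    rw [he, div_pow, ← pow_mul, show 2 * q * 2 = 4 * q by ring]
    gcongr
    nlinarith
  have hdev : |M - c| ≤ 2 * b + K := by
    have := dev_center hi1 hw2 hX
    linarith
  have hYm : Measurable fun ω => X ω - c := by fun_prop
  have hpt : ∀ k : ℕ, ∀ ω, |X ω - c| ^ k ≤ 2 ^ (k - 1) * (|X ω - M| ^ k + |M - c| ^ k) := by
    intro k ω
    have h5 : |X ω - c| ≤ |X ω - M| + |M - c| := by
      have h6 : X ω - c = (X ω - M) + (M - c) := by ring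
      rw [h6]
      exact abs_add_le _ _
    exact le_trans (pow_le_pow_left₀ (abs_nonneg _) h5 k) (add_pow_le (abs_nonneg _) (abs_nonneg _) k)
  have hYi : ∀ k ≤ 2 * q, Integrable (fun ω => |X ω - c| ^ k) μ := by
    intro k hk
    refine Integrable.mono' (((hint k hk).add (integrable_const (|M - c| ^ k))).const_mul (2 ^ (k - 1)))
      (by fun_prop) (Filter.Eventually.of_forall fun ω => ?_)
    rw [Real.norm_eq_abs, abs_of_nonneg (by positivity)]
    exact hpt k ω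
  have hY2 : ∫ ω, |X ω - c| ^ (2 * q) ∂μ ≤ (4 * B + 6) ^ (2 * q) * (n : ℝ) ^ (2 * q) := by
    have h1 : ∫ ω, |X ω - c| ^ (2 * q) ∂μ ≤
        ∫ ω, 2 ^ (2 * q - 1) * (|X ω - M| ^ (2 * q) + |M - c| ^ (2 * q)) ∂μ :=
      integral_mono (hYi _ le_rfl) (((hint _ le_rfl).add (integrable_const _)).const_mul _) (hpt (2 * q))
    rw [integral_const_mul, integral_add (hint _ le_rfl) (integrable_const _)] at h1
    have h6 : ∫ _ω : Ω, |M - c| ^ (2 * q) ∂μ = |M - c| ^ (2 * q) := by simp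
    rw [h6] at h1
    have h7 : |M - c| ^ (2 * q) ≤ (2 * b + K) ^ (2 * q) := pow_le_pow_left₀ (abs_nonneg _) hdev _
    have h8 : b ^ (2 * q) ≤ (2 * b + K) ^ (2 * q) := pow_le_pow_left₀ hb0 (by linarith) _
    calc ∫ ω, |X ω - c| ^ (2 * q) ∂μ
        ≤ 2 ^ (2 * q - 1) * (∫ ω, |X ω - M| ^ (2 * q) ∂μ + |M - c| ^ (2 * q)) := h1
      _ ≤ 2 ^ (2 * q - 1) * ((2 * b + K) ^ (2 * q) + (2 * b + K) ^ (2 * q)) := by
          gcongr
          exact le_trans hmom2 h8
      _ = (2 ^ (2 * q - 1) * 2) * (2 * b + K) ^ (2 * q) := by ring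
      _ = 2 ^ (2 * q) * (2 * b + K) ^ (2 * q) := by
          rw [← pow_succ, Nat.sub_add_cancel (by omega)]
      _ = (2 * (2 * b + K)) ^ (2 * q) := by rw [← mul_pow]
      _ ≤ ((4 * B + 6) * n) ^ (2 * q) := by
          apply pow_le_pow_left₀ (by positivity)
          rw [hb]
          nlinarith
      _ = (4 * B + 6) ^ (2 * q) * (n : ℝ) ^ (2 * q) := mul_pow _ _ _
  have hts := tail_split (Y := fun ω => X ω - c) q hYm (by linarith : (0 : ℝ) ≤ K) he0
    (hYi q (by omega)) (hYi _ le_rfl) hw3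
  have hfin : ∫ ω, |X ω - c| ^ q ∂μ ≤ K ^ q + (C + 1) * ((4 * B + 6) ^ (2 * q) + 1) := by
    refine le_trans hts ?_
    have hn2 : (1 : ℝ) ≤ (n : ℝ) ^ (2 * q) := one_le_pow₀ hn0
    have hn2' : (0 : ℝ) < (n : ℝ) ^ (2 * q) := by positivity
    have h1 : e * (∫ ω, |X ω - c| ^ (2 * q) ∂μ + 1) / 2 ≤ (C + 1) * ((4 * B + 6) ^ (2 * q) + 1) := by
      have h2 : e * (∫ ω, |X ω - c| ^ (2 * q) ∂μ + 1) ≤
          e * ((4 * B + 6) ^ (2 * q) * (n : ℝ) ^ (2 * q) + 1 * (n : ℝ) ^ (2 * q)) := by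
        gcongr
        linarith
      have h3 : e * ((4 * B + 6) ^ (2 * q) * (n : ℝ) ^ (2 * q) + 1 * (n : ℝ) ^ (2 * q)) =
          (C + 1) * ((4 * B + 6) ^ (2 * q) + 1) := by
        rw [he]
        field_simp
      have h4 : 0 ≤ (C + 1) * ((4 * B + 6) ^ (2 * q) + 1) := by positivity
      linarith
    linarith
  have hcl := center_le (μ := μ) (X := X) (c := c) hq hXi (hYi q (by omega)) (hint q (by omega))
  calc ∫ ω, |X ω - M| ^ q ∂μ ≤ 2 ^ q * ∫ ω, |X ω - c| ^ q ∂μ := hcl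
    _ ≤ 2 ^ q * (K ^ q + (C + 1) * ((4 * B + 6) ^ (2 * q) + 1)) := by gcongr
    _ ≤ 2 ^ q * (K ^ q + (C + 1) * ((4 * B + 6) ^ (2 * q) + 1) * K ^ q) := by
        have h4 : (1 : ℝ) ≤ K ^ q := one_le_pow₀ hK
        have h5 : (0 : ℝ) ≤ (C + 1) * ((4 * B + 6) ^ (2 * q) + 1) := by positivity
        have h6 := le_mul_of_one_le_right h5 h4
        exact mul_le_mul_of_nonneg_left (by linarith) (by positivity)
    _ = 2 ^ q * (1 + (C + 1) * ((4 * B + 6) ^ (2 * q) + 1)) * K ^ q := by ring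
    _ ≤ D * K ^ q := by
        apply mul_le_mul_of_nonneg_right _ (by positivity)
        have h3 : (0 : ℝ) ≤ (B + 1) ^ q * (2 * C + 1) := by positivity
        linarith

end Pool.Agent.W_7d29a1_D2.Win77
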