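import Pool.Agent.W_7d29a1_D2.JoinM97
import Pool.Agent.W_7d29a1_D2.Win77

/-!
The window of `log Z_n` at one pair of lengths `n`, `m`.
-/

namespace Pool.Agent.W_7d29a1_D2

open MeasureTheory ProbabilityTheory Filter Topology Pool.Agent.W_MP_7d29a1_pr
  Pool.Agent.W_7d29a1_h46 Pool.Agent.W_7d29a1_h46u

variable {d : ℕ} {ρ : Measure ℝ} [IsProbabilityMeasure ρ]

/-- Splitting at the row `m`, upper side. -/
lemma X_le97 (hd : 0 < d) {β : ℝ} {h : Vec d} {η : Env d} {m n : ℕ} (hm : m ≤ n) {l U : ℝ}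
    (h1 : X β h η m ≤ l) (h2 : ∀ z ∈ boxF d m, X β h (sh m z η) (n - m) ≤ U) :
    X β h η n ≤ l + U := by
  obtain ⟨k, rfl⟩ := Nat.exists_eq_add_of_le hm
  have hk : m + k - m = k := by omega
  rw [hk] at h2
  have h3 : Z β h η (m + k) ≤ Z β h η m * Real.exp U := by
    rw [Z_add, Z_eq β h η m, Finset.sum_mul]
    refine Finset.sum_le_sum fun s _ => ?_
    refine mul_le_mul_of_nonneg_left ?_ (wgt_pos _ _ _ _).le
    have h4 := h2 (pos s m) (pos_mem_box s m)
    unfold X at h4
    rwa [Real.log_le_iff_le_exp (Z_pos hd _ _ _ _)] at h4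
  have h4 : Z β h η m ≤ Real.exp l := by
    unfold X at h1
    rwa [Real.log_le_iff_le_exp (Z_pos hd _ _ _ _)] at h1
  unfold X
  rw [Real.log_le_iff_le_exp (Z_pos hd _ _ _ _), Real.exp_add]
  exact h3.trans (mul_le_mul_of_nonneg_right h4 (Real.exp_pos _).le)

/-- Upper side: a union over the end points. -/
theorem upper97 (hd : 0 < d) {β : ℝ} {h : Vec d} {m n : ℕ} (hm : m ≤ n) {l U p b : ℝ}
    (hl : (law d ρ).real {η | l < X β h η m} ≤ b)
    (hU : (law d ρ).real {η | U < X β h η (n - m)} ≤ p) :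
    (law d ρ).real {η | l + U < X β h η n} ≤ b + (2 * m + 1 : ℝ) ^ d * p := by
  classical
  have hsub : {η : Env d | l + U < X β h η n} ⊆ {η | l < X β h η m} ∪
      ⋃ z ∈ boxF d m, {η | U < X β h (sh m z η) (n - m)} := by
    intro η hη
    by_contra hcon
    rw [Set.mem_union, not_or, Set.mem_iUnion₂] at hcon
    push Not at hcon
    obtain ⟨h1, h2⟩ := hcon
    have h3 := X_le97 hd hm (not_lt.1 h1) (fun z hz => not_lt.1 (h2 z hz))
    exact absurd hη (not_lt.2 h3)
  refine (measureReal_mono hsub (measure_ne_top _ _)).trans ?_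
  refine (measureReal_union_le _ _).trans (add_le_add hl ?_)
  refine (measureReal_biUnion_finset_le _ _).trans ?_
  have h1 : ∀ z ∈ boxF d m, (law d ρ).real {η | U < X β h (sh m z η) (n - m)} ≤ p := by
    intro z _
    have hms : MeasurableSet {η : Env d | U < X β h η (n - m)} :=
      measurableSet_lt measurable_const (measurable_X β h (n - m))
    have h2 : (law d ρ).real {η | U < X β h (sh m z η) (n - m)} =
        (law d ρ).real {η | U < X β h η (n - m)} := by
      rw [measureReal_def, measureReal_def, ← (mp_sh (ρ := ρ) m z).measure_preimage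
        hms.nullMeasurableSet]
      rfl
    rw [h2]
    exact hU
  refine (Finset.sum_le_sum h1).trans ?_
  rw [Finset.sum_const, card_boxF, nsmul_eq_mul]
  push_cast
  exact le_rfl

/-- **The window.** `l` and `l'` are bounds for the weight of one site of `R` (off the slab of the
origin) and for `log Z_m`; then `log Z_n` is in a window of width `l' - l + 3`, outside of an event
whose probability is controlled. -/
theorem window97 (hd : 0 < d) {β : ℝ} {h e v : Vec d} {m n : ℕ} (hm : m ≤ n)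
    {R : Finset (Site d)} {r l l' p b : ℝ} (hR : ∀ z ∈ R, 2 * r < off97 e v m z)
    (hT1 : (law d ρ).real {η | PolT β h η (slab97 d n e v r) < 1 / 2} ≤ b)
    (hT2 : (law d ρ).real {η | PolT β h η (slab97 d (n - m) e v r) < 1 / 2} ≤ b)
    (hW : (law d ρ).real {η | ¬ ∃ z ∈ R, Real.exp l ≤ wz97 β h η m z} ≤ b)
    (hl : (law d ρ).real {η | l' < X β h η m} ≤ b)
    (hp0 : 0 < p) (hp1 : p < 1) (hpb : 2 * b ≤ p) :
    ∃ c : ℝ, (law d ρ).real {η | l' - l + 3 < |X β h η n - c|} ≤
      2 * b + 2 * b / p + (2 * m + 1 : ℝ) ^ d * p := by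
  obtain ⟨U, hU1, hU2⟩ := Win77.exists_quantile (μ := law d ρ) (measurable_X β h (n - m)) hp0 hp1
  have hlog : Real.log 2 ≤ 1 := by
    have := Real.log_two_lt_d9
    linarith
  have hlog2 : Real.log 2 < 1 := by
    have := Real.log_two_lt_d9
    linarith
  have h1 := join97_tail (L := l + U - 2) hd hm hR hU1 hT1 hT2 hW hp0 hpb (by linarith)
  have h2 := upper97 hd hm hl hU2
  refine ⟨l + U - 2, ?_⟩
  have hsub : {η : Env d | l' - l + 3 < |X β h η n - (l + U - 2)|} ⊆
      {η | X β h η n ≤ l + U - 2} ∪ {η | l' + U < X β h η n} := by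
    intro η hη
    by_contra hcon
    rw [Set.mem_union, not_or] at hcon
    obtain ⟨h3, h4⟩ := hcon
    have h5 : l + U - 2 < X β h η n := not_le.1 h3
    have h6 : X β h η n ≤ l' + U := not_lt.1 h4
    have h7 : l' - l + 3 < |X β h η n - (l + U - 2)| := hη
    rw [abs_of_pos (by linarith)] at h7
    linarith
  refine (measureReal_mono hsub (measure_ne_top _ _)).trans ?_
  refine (measureReal_union_le _ _).trans ?_
  linarith

end Pool.Agent.W_7d29a1_D2
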