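import Pool.Agent.W_7d29a1_D2.DefsK4
import Pool.Agent.W_7d29a1_D2.Ev80

/-!
Fluctuations uniform on a decreasing family of sets of tilts: tails, rate of convergence, good events.
-/

namespace Pool.Agent.W_7d29a1_D2

open MeasureTheory ProbabilityTheory Filter Topology Pool.Agent.W_MP_7d29a1_pr
  Pool.Agent.W_7d29a1_h46 Pool.Agent.W_7d29a1_h46u

variable {d : ℕ} {ρ : Measure ℝ} [IsProbabilityMeasure ρ]

/-- One free energy: tails around the mean, at the scale `m` with a factor `n ^ ε`. -/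
theorem tailK4 (hd : 0 < d) (hρ : EM ρ) {β : ℝ} {K : ℕ → Set (Vec d)} {x : ℝ} (hx : 0 ≤ x) (hF : FlK ρ β K x)
    {ε : ℝ} (hε : 0 < ε) (q : ℕ) :
    ∃ Q : ℕ, ∃ C : ℝ, 0 ≤ C ∧ ∀ h' ∈ K Q, ∀ (n m l : ℕ), 1 ≤ n → 1 ≤ m → l ≤ m →
      ∀ (t : ℕ) (y : Site d),
        (law d ρ).real {η | (m : ℝ) ^ x * (n : ℝ) ^ ε < |X β h' (sh t y η) l - A ρ β h' l|} ≤
          C * (n : ℝ) ^ (-(q : ℝ)) := by
  obtain ⟨Q, hQ⟩ := exists_nat_ge ((q : ℝ) / ε)
  have hQ' : (q : ℝ) ≤ ε * Q := by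
    rw [div_le_iff₀ hε] at hQ
    linarith
  obtain ⟨C₀, hC₀⟩ := hF.mom Q
  obtain ⟨C₁, -, hC₁⟩ := momU (d := d) hd hρ β Q
  refine ⟨Q, |C₀|, abs_nonneg _, fun h' hh' n m l hn hm hl t y => ?_⟩
  have hn1 : (1 : ℝ) ≤ n := by exact_mod_cast hn
  have hn0 : (0 : ℝ) < n := by linarith
  have hm1 : (1 : ℝ) ≤ m := by exact_mod_cast hm
  have hm0 : (0 : ℝ) < m := by linarith
  obtain ⟨u, hu⟩ : ∃ u : ℝ, u = (m : ℝ) ^ x * (n : ℝ) ^ ε := ⟨_, rfl⟩
  have hu0 : 0 < u := by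
    rw [hu]
    exact mul_pos (Real.rpow_pos_of_pos hm0 _) (Real.rpow_pos_of_pos hn0 _)
  rw [← hu]
  have hrhs : 0 ≤ |C₀| * (n : ℝ) ^ (-(q : ℝ)) :=
    mul_nonneg (abs_nonneg _) (Real.rpow_nonneg hn0.le _)
  rcases Nat.eq_zero_or_pos l with hl0 | hl0
  · have h1 : ∀ η : Env d, X β h' η 0 = 0 := by
      intro η
      rw [X, Z_zero, Real.log_one]
    have h2 : A ρ β h' 0 = 0 := by
      unfold A
      simp only [h1]
      exact integral_zero _ _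
    have h3 : {η : Env d | u < |X β h' (sh t y η) l - A ρ β h' l|} = ∅ := by
      rw [Set.eq_empty_iff_forall_notMem]
      intro η hη
      have hη' : u < |X β h' (sh t y η) l - A ρ β h' l| := hη
      rw [hl0, h1, h2, sub_zero, abs_zero] at hη'
      exact absurd hη' (not_lt.2 hu0.le)
    rw [h3, measureReal_empty]
    exact hrhs
  · obtain ⟨hint, -⟩ := hC₁ h' l hl0
    have hmean := hC₀ h' hh' l hl0
    have hmeasY : Measurable fun η : Env d => |X β h' η l - A ρ β h' l| :=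
      ((measurable_X β h' l).sub_const _).abs
    have hset : MeasurableSet {η : Env d | u < |X β h' η l - A ρ β h' l|} :=
      measurableSet_lt measurable_const hmeasY
    have hshift : (law d ρ).real {η | u < |X β h' (sh t y η) l - A ρ β h' l|} =
        (law d ρ).real {η | u < |X β h' η l - A ρ β h' l|} := real_shift80 hset t y
    rw [hshift]
    have hmk := mul_meas_ge_le_integral_of_nonneg (μ := law d ρ)
      (f := fun η => |X β h' η l - A ρ β h' l| ^ Q)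
      (Filter.Eventually.of_forall fun η => pow_nonneg (abs_nonneg _) Q) hint (u ^ Q)
    have hsub : (law d ρ).real {η | u < |X β h' η l - A ρ β h' l|} ≤
        (law d ρ).real {η | u ^ Q ≤ |X β h' η l - A ρ β h' l| ^ Q} := by
      refine measureReal_mono fun η hη => ?_
      have hη' : u < |X β h' η l - A ρ β h' l| := hη
      exact pow_le_pow_left₀ hu0.le hη'.le Q
    have hl1 : (0 : ℝ) < l := by exact_mod_cast hl0
    have hlm : (l : ℝ) ≤ m := by exact_mod_cast hl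
    have h5 : C₀ * (l : ℝ) ^ (x * Q) ≤ |C₀| * (m : ℝ) ^ (x * Q) :=
      mul_le_mul (le_abs_self _) (Real.rpow_le_rpow hl1.le hlm (mul_nonneg hx (Nat.cast_nonneg _)))
        (Real.rpow_nonneg hl1.le _) (abs_nonneg _)
    have h6 : u ^ Q * (law d ρ).real {η | u < |X β h' η l - A ρ β h' l|} ≤
        |C₀| * (m : ℝ) ^ (x * Q) :=
      (mul_le_mul_of_nonneg_left hsub (pow_nonneg hu0.le Q)).trans (hmk.trans (hmean.trans h5))
    have hpow : u ^ Q = (m : ℝ) ^ (x * Q) * (n : ℝ) ^ (ε * Q) := by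
      rw [hu, mul_pow, Real.rpow_mul hm0.le, Real.rpow_natCast, Real.rpow_mul hn0.le,
        Real.rpow_natCast]
    have h7 : |C₀| * (m : ℝ) ^ (x * Q) ≤ u ^ Q * (|C₀| * (n : ℝ) ^ (-(q : ℝ))) := by
      have h8 : 1 ≤ (n : ℝ) ^ (ε * Q) * (n : ℝ) ^ (-(q : ℝ)) := by
        rw [← Real.rpow_add hn0]
        exact Real.one_le_rpow hn1 (by linarith)
      have h9 : 0 ≤ |C₀| * (m : ℝ) ^ (x * Q) :=
        mul_nonneg (abs_nonneg _) (Real.rpow_nonneg hm0.le _)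
      rw [hpow]
      calc |C₀| * (m : ℝ) ^ (x * Q)
          ≤ |C₀| * (m : ℝ) ^ (x * Q) * ((n : ℝ) ^ (ε * Q) * (n : ℝ) ^ (-(q : ℝ))) :=
            le_mul_of_one_le_right h9 h8
        _ = (m : ℝ) ^ (x * Q) * (n : ℝ) ^ (ε * Q) * (|C₀| * (n : ℝ) ^ (-(q : ℝ))) := by ring
    exact le_of_mul_le_mul_left (h6.trans h7) (pow_pos hu0 Q)

/-- The maximal deviation over the box. -/
theorem maxK4 (hd : 0 < d) (hρ : EM ρ) {β : ℝ} {K : ℕ → Set (Vec d)} {x : ℝ}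
    (hF : FlK ρ β K x) {ε : ℝ} (hε : 0 < ε) :
    ∃ Q : ℕ, ∃ C : ℝ, 0 ≤ C ∧ ∀ h' ∈ K Q, ∀ n : ℕ, 1 ≤ n →
      Integrable (fun η => (boxF d n).sup' ⟨0, zero_mem_boxF n⟩
        fun y => |X β h' (sh n y η) n - A ρ β h' n|) (law d ρ) ∧
      ∫ η, (boxF d n).sup' ⟨0, zero_mem_boxF n⟩
        (fun y => |X β h' (sh n y η) n - A ρ β h' n|) ∂(law d ρ) ≤ C * (n : ℝ) ^ (x + ε) := by
  obtain ⟨Q, hQ⟩ := exists_nat_ge ((d : ℝ) / ε)
  obtain ⟨C, hC⟩ := hF.mom (Q + 1)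
  obtain ⟨Cm, _, hCm⟩ := momU (ρ := ρ) hd hρ β (Q + 1)
  refine ⟨Q + 1, 1 + 3 ^ d * |C|, by positivity, fun h' hh' n hn => ?_⟩
  have hn0 : (0 : ℝ) < n := by exact_mod_cast hn
  have hn1 : (1 : ℝ) ≤ n := by exact_mod_cast hn
  set u : ℝ := (n : ℝ) ^ (x + ε) with hu
  have hu0 : 0 < u := Real.rpow_pos_of_pos hn0 _
  set D : Site d → Env d → ℝ := fun y η => |X β h' (sh n y η) n - A ρ β h' n| with hD
  have hDm : ∀ y, Measurable (D y) := by
    intro y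
    have h1 : Measurable fun η : Env d => X β h' (sh n y η) n :=
      (measurable_X β h' n).comp (measurable_sh n y)
    exact (h1.sub measurable_const).norm
  have hPi : ∀ y, Integrable (fun η => D y η ^ (Q + 1)) (law d ρ) := by
    intro y
    exact (mp_sh n y).integrable_comp_of_integrable (hCm h' n hn).1
  have hPv : ∀ y, ∫ η, D y η ^ (Q + 1) ∂(law d ρ) ≤ |C| * (n : ℝ) ^ (x * ((Q + 1 : ℕ) : ℝ)) := by
    intro y
    have h1 : ∫ η, D y η ^ (Q + 1) ∂(law d ρ) =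
        ∫ η, |X β h' η n - A ρ β h' n| ^ (Q + 1) ∂(law d ρ) := by
      refine integral_sh n y (F := fun η => |X β h' η n - A ρ β h' n| ^ (Q + 1)) ?_
      exact (((measurable_X β h' n).sub measurable_const).norm).pow_const _
    rw [h1]
    refine (hC h' hh' n hn).trans ?_
    exact mul_le_mul_of_nonneg_right (le_abs_self C) (Real.rpow_nonneg hn0.le _)
  -- the bound
  have hle : ∀ η : Env d, (boxF d n).sup' ⟨0, zero_mem_boxF n⟩ (fun y => D y η) ≤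
      u + ∑ y ∈ boxF d n, D y η ^ (Q + 1) / u ^ Q := by
    intro η
    refine Finset.sup'_le _ _ fun y hy => ?_
    refine (MaxU_point hu0 (abs_nonneg _) Q).trans ?_
    have h1 : D y η ^ (Q + 1) / u ^ Q ≤ ∑ y ∈ boxF d n, D y η ^ (Q + 1) / u ^ Q :=
      Finset.single_le_sum (f := fun y => D y η ^ (Q + 1) / u ^ Q)
        (fun y _ => div_nonneg (pow_nonneg (abs_nonneg _) _) (pow_nonneg hu0.le _)) hy
    show u + D y η ^ (Q + 1) / u ^ Q ≤ _
    linarith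
  have h0 : ∀ η : Env d, 0 ≤ (boxF d n).sup' ⟨0, zero_mem_boxF n⟩ (fun y => D y η) := by
    intro η
    exact (abs_nonneg _).trans (Finset.le_sup' (fun y => D y η) (zero_mem_boxF n))
  have hSm : Measurable fun η : Env d =>
      (boxF d n).sup' ⟨0, zero_mem_boxF n⟩ (fun y => D y η) := by
    have h1 : Measurable ((boxF d n).sup' ⟨0, zero_mem_boxF n⟩ D) :=
      Finset.measurable_sup' _ fun y _ => hDm y
    have h3 : (fun η : Env d => (boxF d n).sup' ⟨0, zero_mem_boxF n⟩ (fun y => D y η)) =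
        (boxF d n).sup' ⟨0, zero_mem_boxF n⟩ D := by
      funext η
      exact (Finset.sup'_apply _ _ _).symm
    rw [h3]
    exact h1
  have hBi : Integrable (fun η => u + ∑ y ∈ boxF d n, D y η ^ (Q + 1) / u ^ Q) (law d ρ) :=
    (integrable_const u).add (integrable_finsetSum _ fun y _ => (hPi y).div_const _)
  have hSi : Integrable (fun η : Env d =>
      (boxF d n).sup' ⟨0, zero_mem_boxF n⟩ (fun y => D y η)) (law d ρ) := by
    refine hBi.mono' hSm.aestronglyMeasurable (Eventually.of_forall fun η => ?_)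
    rw [Real.norm_eq_abs, abs_of_nonneg (h0 η)]
    exact hle η
  refine ⟨hSi, ?_⟩
  have h2 : ∫ η, (boxF d n).sup' ⟨0, zero_mem_boxF n⟩ (fun y => D y η) ∂(law d ρ) ≤
      ∫ η, (u + ∑ y ∈ boxF d n, D y η ^ (Q + 1) / u ^ Q) ∂(law d ρ) :=
    integral_mono hSi hBi hle
  refine h2.trans ?_
  rw [integral_add (integrable_const u)
    (integrable_finsetSum _ fun y _ => (hPi y).div_const _), integral_const,
    integral_finsetSum _ fun y _ => (hPi y).div_const _]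
  simp only [integral_div, probReal_univ, one_smul]
  have h3 : ∑ y ∈ boxF d n, (∫ η, D y η ^ (Q + 1) ∂(law d ρ)) / u ^ Q ≤
      (3 * (n : ℝ)) ^ d * ((|C| * (n : ℝ) ^ (x * ((Q + 1 : ℕ) : ℝ))) / u ^ Q) := by
    refine (Finset.sum_le_card_nsmul _ _ ((|C| * (n : ℝ) ^ (x * ((Q + 1 : ℕ) : ℝ))) / u ^ Q)
      fun y _ => ?_).trans ?_
    · exact div_le_div_of_nonneg_right (hPv y) (pow_nonneg hu0.le _)
    · rw [card_boxF, nsmul_eq_mul]
      refine mul_le_mul_of_nonneg_right ?_ (by positivity)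
      push_cast
      exact pow_le_pow_left₀ (by positivity) (by linarith) d
  have h4 := MaxU_pow (d := d) (x := x) hn hε hQ
  have h5 : (3 * (n : ℝ)) ^ d * ((|C| * (n : ℝ) ^ (x * ((Q + 1 : ℕ) : ℝ))) / u ^ Q) =
      |C| * ((3 * (n : ℝ)) ^ d * ((n : ℝ) ^ (x * ((Q + 1 : ℕ) : ℝ)) / u ^ Q)) := by
    ring
  have h6 : |C| * ((3 * (n : ℝ)) ^ d * ((n : ℝ) ^ (x * ((Q + 1 : ℕ) : ℝ)) / u ^ Q)) ≤
      |C| * (3 ^ d * u) := mul_le_mul_of_nonneg_left h4 (abs_nonneg C)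
  rw [h5] at h3
  have h7 : (1 + 3 ^ d * |C|) * u = u + |C| * (3 ^ d * u) := by ring
  rw [h7]
  linarith

/-- Doubling. -/
theorem doubleK4 (hd : 0 < d) (hρ : EM ρ) {β : ℝ} {K : ℕ → Set (Vec d)} {x : ℝ} (hx : 0 ≤ x)
    (hF : FlK ρ β K x) {ε : ℝ} (hε : 0 < ε) :
    ∃ Q : ℕ, ∃ C : ℝ, 0 ≤ C ∧ ∀ h' ∈ K Q, ∀ n : ℕ, 1 ≤ n →
      A ρ β h' (n + n) ≤ 2 * A ρ β h' n + C * (n : ℝ) ^ (x + ε) := by
  obtain ⟨Q, C, hC0, hC⟩ := maxK4 hd hρ hF hε
  refine ⟨Q, C, hC0, fun h' hh' n hn => ?_⟩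
  obtain ⟨hi, hv⟩ := hC h' hh' n hn
  have i1 := (concU (ρ := ρ) hd hρ β h' (n + n)).1
  have i2 := (concU (ρ := ρ) hd hρ β h' n).1
  have i3 : Integrable (fun η : Env d => A ρ β h' n + (boxF d n).sup' ⟨0, zero_mem_boxF n⟩
      fun y => |X β h' (sh n y η) n - A ρ β h' n|) (law d ρ) := (integrable_const _).add hi
  have h1 : A ρ β h' (n + n) ≤ ∫ η, (X β h' η n + (A ρ β h' n +
      (boxF d n).sup' ⟨0, zero_mem_boxF n⟩
        fun y => |X β h' (sh n y η) n - A ρ β h' n|)) ∂(law d ρ) := by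
    refine integral_mono i1 (i2.add i3) fun η => ?_
    exact DblU_point hd β h' η n (A ρ β h' n)
  rw [integral_add i2 i3, integral_add (integrable_const _) hi, integral_const] at h1
  simp only [probReal_univ, one_smul] at h1
  have h2 : ∫ η, X β h' η n ∂(law d ρ) = A ρ β h' n := rfl
  rw [h2] at h1
  linarith

/-- The rate of convergence. -/
theorem rateK4 (hd : 0 < d) (hρ : EM ρ) {β : ℝ} {K : ℕ → Set (Vec d)} {x : ℝ} (hx : 0 ≤ x)
    (hF : FlK ρ β K x) {ε : ℝ} (hε : 0 < ε) (hxε : x + ε < 1) :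
    ∃ Q : ℕ, ∃ C : ℝ, 0 ≤ C ∧ ∀ h' ∈ K Q, ∀ n : ℕ, 1 ≤ n →
      n * lam ρ β h' - A ρ β h' n ≤ C * (n : ℝ) ^ (x + ε) := by
  obtain ⟨Q, C, hC, H⟩ := doubleK4 hd hρ hx hF hε
  have hr0 : 0 < (2 : ℝ) ^ (x + ε - 1) := Real.rpow_pos_of_pos two_pos _
  have hr1 : (2 : ℝ) ^ (x + ε - 1) < 1 :=
    Real.rpow_lt_one_of_one_lt_of_neg one_lt_two (by linarith)
  refine ⟨Q, C / 2 * (1 - (2 : ℝ) ^ (x + ε - 1))⁻¹,
    mul_nonneg (by linarith) (inv_nonneg.2 (by linarith)), fun h' hh n hn => ?_⟩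
  have hn0 : (0 : ℝ) < n := by exact_mod_cast hn
  have key : ∀ j : ℕ, A ρ β h' (2 ^ j * n) / 2 ^ j ≤
      A ρ β h' n + C / 2 * (n : ℝ) ^ (x + ε) * (1 - (2 : ℝ) ^ (x + ε - 1))⁻¹ := by
    intro j
    refine (RateU_iter n hn (H h' hh) j).trans ?_
    have h1 : ∑ k ∈ Finset.range j, ((2 : ℝ) ^ (x + ε - 1)) ^ k ≤
        (1 - (2 : ℝ) ^ (x + ε - 1))⁻¹ := by
      rw [← tsum_geometric_of_lt_one hr0.le hr1]
      exact (summable_geometric_of_lt_one hr0.le hr1).sum_le_tsum _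
        (fun k _ => pow_nonneg hr0.le k)
    have h2 : 0 ≤ C / 2 * (n : ℝ) ^ (x + ε) :=
      mul_nonneg (by linarith) (Real.rpow_nonneg hn0.le _)
    have h3 := mul_le_mul_of_nonneg_left h1 h2
    linarith
  have hlim : Tendsto (fun j : ℕ => A ρ β h' (2 ^ j * n) / 2 ^ j) atTop
      (𝓝 (n * lam ρ β h')) := by
    have h1 : Tendsto (fun j : ℕ => 2 ^ j * n) atTop atTop :=
      Filter.Tendsto.atTop_mul_const' hn (tendsto_pow_atTop_atTop_of_one_lt one_lt_two)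
    have h2 := ((tendsto_A hd hρ β h').comp h1).const_mul (n : ℝ)
    refine h2.congr fun j => ?_
    simp only [Function.comp]
    push_cast
    have h3 : (2 : ℝ) ^ j ≠ 0 := by positivity
    field_simp
  have h4 := le_of_tendsto' hlim key
  have h5 : C / 2 * (1 - (2 : ℝ) ^ (x + ε - 1))⁻¹ * (n : ℝ) ^ (x + ε) =
      C / 2 * (n : ℝ) ^ (x + ε) * (1 - (2 : ℝ) ^ (x + ε - 1))⁻¹ := by ring
  rw [h5]
  linarith

/-- All free energies of length at most `m` started in the box of size `n` are close to their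
limits, for every tilt in `K Q`. -/
theorem evFK4 (hd : 0 < d) (hρ : EM ρ) {β : ℝ} {K : ℕ → Set (Vec d)} {x : ℝ} (hx : 0 ≤ x) (hF : FlK ρ β K x)
    {ε : ℝ} (hε : 0 < ε) (hxε : x + ε < 1) (q : ℕ) :
    ∃ Q : ℕ, ∃ C : ℝ, 0 ≤ C ∧ ∀ h' ∈ K Q, ∀ (n m : ℕ), 1 ≤ m → m ≤ n →
      (law d ρ).real {η | ¬ ∀ i ≤ n, ∀ y ∈ boxF d n, ∀ l ≤ m,
        |X β h' (sh i y η) l - l * lam ρ β h'| ≤ C * ((m : ℝ) ^ x * (n : ℝ) ^ ε)} ≤
          C * (n : ℝ) ^ (-(q : ℝ)) := by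
  obtain ⟨Q₁, C₁, hC₁, H₁⟩ := tailK4 hd hρ hx hF hε (q + d + 2)
  obtain ⟨Q₂, C₂, hC₂, H₂⟩ := rateK4 hd hρ hx hF hε hxε
  refine ⟨max Q₁ Q₂, 4 * 3 ^ d * C₁ + C₂ + 1, by positivity,
    fun h' hh' n m hm hmn => ?_⟩
  have hn : 1 ≤ n := hm.trans hmn
  have hn1 : (1 : ℝ) ≤ n := by exact_mod_cast hn
  have hn0 : (0 : ℝ) < n := by linarith
  have hm1 : (1 : ℝ) ≤ m := by exact_mod_cast hm
  have hm0 : (0 : ℝ) < m := by linarith
  have hmn' : (m : ℝ) ≤ n := by exact_mod_cast hmn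
  obtain ⟨u, hu⟩ : ∃ u : ℝ, u = (m : ℝ) ^ x * (n : ℝ) ^ ε := ⟨_, rfl⟩
  have hu0 : 0 < u := by
    rw [hu]
    exact mul_pos (Real.rpow_pos_of_pos hm0 _) (Real.rpow_pos_of_pos hn0 _)
  have hB0 : 0 ≤ C₁ * (n : ℝ) ^ (-((q + d + 2 : ℕ) : ℝ)) :=
    mul_nonneg hC₁ (Real.rpow_nonneg hn0.le _)
  have h1 := ev80_union (ρ := ρ) hn hmn hB0
    (S := fun i y l => {η | (m : ℝ) ^ x * (n : ℝ) ^ ε < |X β h' (sh i y η) l - A ρ β h' l|})
    (fun i _ y _ l hl => H₁ h' (hF.anti _ _ (le_max_left _ _) hh') n m l hn hm hl i y)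
  rw [ev80_pow hn] at h1
  have hmean : ∀ l ≤ m, |A ρ β h' l - l * lam ρ β h'| ≤ C₂ * u := by
    intro l hl
    have h2 := A_le_lam hd hρ β h' l
    rw [abs_of_nonpos (by linarith)]
    rcases Nat.eq_zero_or_pos l with hl0 | hl0
    · have h3 : A ρ β h' 0 = 0 := by
        unfold A
        have h4 : ∀ η : Env d, X β h' η 0 = 0 := by
          intro η
          rw [X, Z_zero, Real.log_one]
        simp only [h4]
        exact integral_zero _ _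
      rw [hl0, h3, Nat.cast_zero, zero_mul, sub_zero, neg_zero]
      positivity
    · have h3 := H₂ h' (hF.anti _ _ (le_max_right _ _) hh') l hl0
      have hl1 : (0 : ℝ) < l := by exact_mod_cast hl0
      have hlm : (l : ℝ) ≤ m := by exact_mod_cast hl
      have h4 : (l : ℝ) ^ (x + ε) ≤ u := by
        rw [hu, Real.rpow_add hl1]
        exact mul_le_mul (Real.rpow_le_rpow hl1.le hlm hx)
          (Real.rpow_le_rpow hl1.le (hlm.trans hmn') hε.le) (Real.rpow_nonneg hl1.le _)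
          (Real.rpow_nonneg hm0.le _)
      have h5 := mul_le_mul_of_nonneg_left h4 hC₂
      linarith
  have hsub : {η : Env d | ¬ ∀ i ≤ n, ∀ y ∈ boxF d n, ∀ l ≤ m,
      |X β h' (sh i y η) l - l * lam ρ β h'| ≤
        (4 * 3 ^ d * C₁ + C₂ + 1) * ((m : ℝ) ^ x * (n : ℝ) ^ ε)} ⊆
      {η | ¬ ∀ i ≤ n, ∀ y ∈ boxF d n, ∀ l ≤ m, η ∉
        {η : Env d | (m : ℝ) ^ x * (n : ℝ) ^ ε < |X β h' (sh i y η) l - A ρ β h' l|}} := by
    intro η hη hcon
    apply hη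
    intro i hi y hy l hl
    have h2 : ¬ (m : ℝ) ^ x * (n : ℝ) ^ ε < |X β h' (sh i y η) l - A ρ β h' l| :=
      hcon i hi y hy l hl
    rw [← hu] at h2 ⊢
    have h3 := not_lt.1 h2
    have h4 := hmean l hl
    have h5 : |X β h' (sh i y η) l - l * lam ρ β h'| ≤
        |X β h' (sh i y η) l - A ρ β h' l| + |A ρ β h' l - l * lam ρ β h'| := abs_sub_le _ _ _
    have h6 : 0 ≤ 4 * 3 ^ d * C₁ * u := by positivity
    nlinarith
  refine (measureReal_mono hsub).trans (h1.trans ?_)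
  refine mul_le_mul_of_nonneg_right ?_ (Real.rpow_nonneg hn0.le _)
  linarith

/-- The event on the free energies of the first `m` steps, for every `ε`. -/
theorem evXK4 (hd : 0 < d) (hρ : EM ρ) {β : ℝ} {K : ℕ → Set (Vec d)} {x : ℝ} (hx : 0 ≤ x) (hx1 : x < 1)
    (hF : FlK ρ β K x) {ε : ℝ} (hε : 0 < ε) (q : ℕ) :
    ∃ Q : ℕ, ∃ C : ℝ, 0 ≤ C ∧ ∀ h' ∈ K Q, ∀ (n m : ℕ), 1 ≤ m → m ≤ n →
      (law d ρ).real {η | ¬ ∀ i ≤ m, ∀ y ∈ boxF d m,
        |X β h' (sh i y η) (m - i) - ((m - i : ℕ) : ℝ) * lam ρ β h'| ≤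
          C * ((m : ℝ) ^ x * (n : ℝ) ^ ε)} ≤ C * (n : ℝ) ^ (-(q : ℝ)) := by
  have hε' : 0 < min ε ((1 - x) / 2) := lt_min hε (by linarith)
  have hxε : x + min ε ((1 - x) / 2) < 1 := by
    have := min_le_right ε ((1 - x) / 2)
    linarith
  obtain ⟨Q, C, hC, H⟩ := evFK4 hd hρ hx hF hε' hxε q
  refine ⟨Q, C, hC, fun h' hh' n m hm hmn => (measureReal_mono ?_).trans (H h' hh' n m hm hmn)⟩
  intro η hη hcon
  apply hη
  intro i hi y hy
  refine (hcon i (hi.trans hmn) y (boxF_sub80 hmn hy) (m - i) (Nat.sub_le m i)).trans ?_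
  have hn1 : (1 : ℝ) ≤ n := by exact_mod_cast hm.trans hmn
  exact mul_le_mul_of_nonneg_left (mul_le_mul_of_nonneg_left
    (Real.rpow_le_rpow_of_exponent_le hn1 (min_le_left _ _))
    (Real.rpow_nonneg (Nat.cast_nonneg _) _)) hC

end Pool.Agent.W_7d29a1_D2
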