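import Pool.Agent.W_7d29a1_D2.CoreA16
import Pool.Agent.W_7d29a1_D2.FlK4

/-!
The core estimate for the tilts of the sets `K`.
-/

namespace Pool.Agent.W_7d29a1_D2

open MeasureTheory ProbabilityTheory Filter Topology Pool.Agent.W_MP_7d29a1_pr
  Pool.Agent.W_7d29a1_h46 Pool.Agent.W_7d29a1_h46u

variable {d : ℕ} {ρ : Measure ℝ} [IsProbabilityMeasure ρ]

/-- **The core estimate for the tilts of the sets `K`** (the range of the radius is arbitrary). -/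
theorem coreK16 (hd : 0 < d) (hρ : EM ρ) {β : ℝ} {K : ℕ → Set (Vec d)} {h v : Vec d} {a x : ℝ}
    (ha : 0 < a) (hx : 0 < x) (hx1 : x < 1) (hF : FlK ρ β K x) (hh : ∀ Q : ℕ, h ∈ K Q)
    (hT : TbF ρ β h v a) : CoreK ρ β K h v a x := by
  intro q ε hε
  rcases Nat.eq_zero_or_pos q with rfl | hq
  · refine ⟨0, 1, one_pos, 0, le_rfl, fun n m _ _ r _ _ _ _ => ?_⟩
    simp
  obtain ⟨Q, C₁, hC₁, HX⟩ := evXK4 hd hρ (β := β) hx.le hx1 hF hε (8 * q + d)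
  obtain ⟨C₂, hC₂, HT⟩ := evT80_half hd (β := β) ha hT (8 * q + d)
  obtain ⟨C, hC, H⟩ := A16.coreAt16 hd hρ (β := β) (h := h) (v := v) ha hx hq hε hC₁ hC₂
  refine ⟨Q, 1, one_pos, C, hC, fun n m hm hmn r hr0 _ hrK hcond => ?_⟩
  have hn0 : (0 : ℝ) ≤ n := Nat.cast_nonneg n
  have hrp : (n : ℝ) ^ (-((8 * q + d : ℕ) : ℝ)) = ((n : ℝ) ^ (8 * q + d))⁻¹ := by
    rw [Real.rpow_neg hn0, Real.rpow_natCast]
  refine H n m hm hmn r hr0 ?_ ?_ ?_ (by linarith)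
  · have := HT n (by omega)
    rwa [hrp] at this
  · have := HX h (hh Q) n m hm (by omega)
    rwa [hrp] at this
  · have := HX (h + r) hrK n m hm (by omega)
    rwa [hrp] at this

end Pool.Agent.W_7d29a1_D2
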