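import Pool.Agent.W_7d29a1_D2.Defs46

/-!
Density points of the sets of tilts with bounded fluctuations: definitions.
-/

namespace Pool.Agent.W_7d29a1_D2

open MeasureTheory ProbabilityTheory Filter Topology Pool.Agent.W_MP_7d29a1_pr
  Pool.Agent.W_7d29a1_h46 Pool.Agent.W_7d29a1_h46u

/-- The fluctuations are at most of order `n ^ x`, the `q`-th moment uniformly on the set `K q` of
tilts; the sets are decreasing. -/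
structure FlK {d : ℕ} (ρ : Measure ℝ) (β : ℝ) (K : ℕ → Set (Vec d)) (x : ℝ) : Prop where
  anti : ∀ p q : ℕ, p ≤ q → K q ⊆ K p
  mom : ∀ q : ℕ, ∃ C : ℝ, ∀ k ∈ K q, ∀ n : ℕ, 1 ≤ n →
    ∫ η, |X β k η n - A ρ β k n| ^ q ∂(law d ρ) ≤ C * (n : ℝ) ^ (x * q)

/-- `h` belongs to all the sets `K Q`, and for small `r` there are points of `K Q` at distance at most
`ε ‖r‖` from `h + r`. -/
def DnK {d : ℕ} (K : ℕ → Set (Vec d)) (h : Vec d) : Prop :=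
  ∀ Q : ℕ, h ∈ K Q ∧ ∀ ε : ℝ, 0 < ε → ∃ δ : ℝ, 0 < δ ∧ ∀ r : Vec d, 0 < ‖r‖ → ‖r‖ < δ →
    ∃ k ∈ K Q, ‖k - (h + r)‖ ≤ ε * ‖r‖

/-- The property of almost every tilt `h`: if the moments at the tilt `h` alone are of order `n ^ x`,
then for `y > x` they are of order `n ^ y` uniformly on sets with `DnK`. -/
def DnP {d : ℕ} (ρ : Measure ℝ) (β : ℝ) (h : Vec d) : Prop :=
  ∀ x y : ℝ, x < y → FlF ρ β h x → ∃ K : ℕ → Set (Vec d), FlK ρ β K y ∧ DnK K h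

/-- The core estimate for the tilts `h` and `h + r` in the sets `K`. -/
def CoreK {d : ℕ} (ρ : Measure ℝ) (β : ℝ) (K : ℕ → Set (Vec d)) (h v : Vec d) (a x : ℝ) : Prop :=
  ∀ (q : ℕ) (ε : ℝ), 0 < ε → ∃ Q : ℕ, ∃ δ : ℝ, 0 < δ ∧ ∃ C : ℝ, 0 ≤ C ∧
    ∀ n m : ℕ, 1 ≤ m → 2 * m ≤ n → ∀ r : Vec d, 0 < ‖r‖ → ‖r‖ < δ → h + r ∈ K Q →
      4 * ‖r‖ * (n : ℝ) ^ a + C * ((m : ℝ) ^ x * (n : ℝ) ^ ε) ≤ m * gap (lam ρ β) h v r →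
      ∫ η, |X β h η n - A ρ β h n| ^ q ∂(law d ρ) ≤
        (C * (‖r‖ * (n : ℝ) ^ a + (m : ℝ) ^ x * (n : ℝ) ^ ε)) ^ q

/-- At every small scale `s` there is `r` with `s ≤ ‖r‖ ≤ 3 s`, `h + r ∈ K Q` and
`c s ^ p ≤ gap L h v r`. -/
def LoAK {d : ℕ} (L : Vec d → ℝ) (K : ℕ → Set (Vec d)) (h v : Vec d) (p : ℝ) : Prop :=
  ∃ c : ℝ, 0 < c ∧ ∀ Q : ℕ, ∃ δ : ℝ, 0 < δ ∧ ∀ s : ℝ, 0 < s → s ≤ δ →
    ∃ r : Vec d, s ≤ ‖r‖ ∧ ‖r‖ ≤ 3 * s ∧ h + r ∈ K Q ∧ c * s ^ p ≤ gap L h v r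

/-- `c ‖r‖ ^ p ≤ gap L h v r` for some arbitrarily small `r` with `h + r ∈ K Q`. -/
def LoGK {d : ℕ} (L : Vec d → ℝ) (K : ℕ → Set (Vec d)) (h v : Vec d) (p : ℝ) : Prop :=
  ∃ c : ℝ, 0 < c ∧ ∀ Q : ℕ, ∀ δ : ℝ, 0 < δ →
    ∃ r : Vec d, 0 < ‖r‖ ∧ ‖r‖ ≤ δ ∧ h + r ∈ K Q ∧ c * ‖r‖ ^ p ≤ gap L h v r

end Pool.Agent.W_7d29a1_D2
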