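import Pool.Agent.W_7d29a1_D2.CrsV74
import Pool.Agent.W_7d29a1_D2.JoinN97
import Pool.Agent.W_7d29a1_D2.Ev80

/-!
The core estimate: assembly of the crossing price, the window and the moments.
-/

namespace Pool.Agent.W_7d29a1_D2.S16

open MeasureTheory ProbabilityTheory Filter Topology Pool.Agent.W_MP_7d29a1_pr
  Pool.Agent.W_7d29a1_h46 Pool.Agent.W_7d29a1_h46u Pool.Agent.W_7d29a1_D2

variable {d : ℕ} {ρ : Measure ℝ} [IsProbabilityMeasure ρ]

/-- The number of end points is a power. -/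
lemma log16 {m n : ℕ} {ε : ℝ} (hε : 0 < ε) (hm : 2 * m ≤ n) (hn : 1 ≤ n) :
    Real.log (4 * (2 * (m : ℝ) + 1) ^ d) ≤ (2 + d + d / ε) * (n : ℝ) ^ ε := by
  have hn1 : (1 : ℝ) ≤ n := by exact_mod_cast hn
  have hn0 : (0 : ℝ) < n := by linarith
  have hm' : 2 * (m : ℝ) ≤ n := by exact_mod_cast hm
  have h1 : 2 * (m : ℝ) + 1 ≤ 2 * n := by linarith
  have h0 : (0 : ℝ) < 2 * (m : ℝ) + 1 := by positivity
  have hl1 : Real.log (2 * (m : ℝ) + 1) ≤ Real.log 2 + Real.log n := by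
    rw [← Real.log_mul two_ne_zero hn0.ne']
    exact Real.log_le_log h0 h1
  have hl2 : Real.log 2 ≤ 1 := by
    have := Real.log_two_lt_d9
    linarith
  have hl3 : Real.log n ≤ (n : ℝ) ^ ε / ε := Real.log_le_rpow_div hn0.le hε
  have hl4 : Real.log (4 : ℝ) ≤ 2 := by
    have : (4 : ℝ) = 2 ^ 2 := by norm_num
    rw [this, Real.log_pow]
    push_cast
    linarith
  have hp : 1 ≤ (n : ℝ) ^ ε := Real.one_le_rpow hn1 hε.le
  rw [Real.log_mul (by norm_num) (pow_pos h0 _).ne', Real.log_pow]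
  have hd0 : (0 : ℝ) ≤ d := Nat.cast_nonneg d
  have h2 : (d : ℝ) * Real.log (2 * (m : ℝ) + 1) ≤ d * (1 + (n : ℝ) ^ ε / ε) :=
    mul_le_mul_of_nonneg_left (by linarith) hd0
  have h3 : (d : ℝ) * (1 + (n : ℝ) ^ ε / ε) = d + d / ε * (n : ℝ) ^ ε := by
    field_simp
  have h4 : (2 + (d : ℝ)) * 1 ≤ (2 + d) * (n : ℝ) ^ ε :=
    mul_le_mul_of_nonneg_left hp (by positivity)
  rw [h3] at h2
  linarith

/-- **The core estimate.** -/
theorem core16 (hd : 0 < d) (hρ : EM ρ) {β : ℝ} {h v : Vec d} {a x : ℝ} (ha : 0 < a) (hx : 0 < x)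
    (hx1 : x < 1) (hF : Fl ρ β h x) (hT : TbF ρ β h v a) : CoreP ρ β h v a x := by
  classical
  intro q ε hε
  rcases Nat.eq_zero_or_pos q with rfl | hq
  · refine ⟨1, one_pos, 0, le_rfl, fun n m _ _ r _ _ _ => ?_⟩
    simp
  set Q : ℕ := 4 * q + d with hQ
  set q2 : ℕ := Q + 4 * q with hq2
  obtain ⟨δ, hδ, C₁, hC₁, HX⟩ := evX80 hd hρ (β := β) hx.le hx1 hF hε q2
  obtain ⟨C₂, hC₂, HT⟩ := evT80_half hd (β := β) ha hT q2
  obtain ⟨B, hB, HM2⟩ := momU (d := d) hd hρ β (2 * q)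
  obtain ⟨B₁, hB₁, HM1⟩ := momU (d := d) hd hρ β q
  set Cb : ℝ := C₂ + 2 * C₁ with hCb
  have hCb0 : 0 ≤ Cb := by positivity
  set Cw : ℝ := 4 * Cb + 2 ^ d with hCw
  have hCw0 : 0 ≤ Cw := by positivity
  obtain ⟨C', hC', HW⟩ := Win77.win_moments (μ := law d ρ) hq hCw0 hB
  -- large `n`
  obtain ⟨N, hN⟩ := exists_nat_ge (2 * Cb)
  set bs : ℝ := 1 + ‖v‖ with hbs
  have hbs0 : 0 ≤ bs := by positivity
  set CK : ℝ := (4 + bs) + 4 * C₁ + (2 + d + d / ε) + 3 with hCK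
  have hCK0 : 0 ≤ CK := by positivity
  set C : ℝ := C' * CK + (2 * C₁ + 1) + (B₁ * ((N : ℝ) + 1) ^ q + 1) with hCdef
  have hC'0 : 0 ≤ C' := by linarith
  have hC'CK : 0 ≤ C' * CK := mul_nonneg hC'0 hCK0
  have hBN : 0 ≤ B₁ * ((N : ℝ) + 1) ^ q := by positivity
  have hC0 : 0 ≤ C := by positivity
  refine ⟨δ, hδ, C, hC0, fun n m hm hmn r hr0 hrδ hcond => ?_⟩
  have hn2 : 2 ≤ n := by omega
  have hn : 1 ≤ n := by omega
  have hmn' : m ≤ n := by omega
  have hn1 : (1 : ℝ) ≤ n := by exact_mod_cast hn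
  have hn0 : (0 : ℝ) < n := by linarith
  have hm1 : (1 : ℝ) ≤ m := by exact_mod_cast hm
  have hna : 1 ≤ (n : ℝ) ^ a := Real.one_le_rpow hn1 ha.le
  have hmx : 1 ≤ (m : ℝ) ^ x := Real.one_le_rpow hm1 hx.le
  have hnε : 1 ≤ (n : ℝ) ^ ε := Real.one_le_rpow hn1 hε.le
  set w : ℝ := (m : ℝ) ^ x * (n : ℝ) ^ ε with hw
  have hw1 : 1 ≤ w := by nlinarith
  have hwε : (n : ℝ) ^ ε ≤ w := by nlinarith
  set ra : ℝ := ‖r‖ * (n : ℝ) ^ a with hra
  have hra0 : 0 ≤ ra := by positivity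
  rcases lt_or_ge n (N + 1) with hnN | hnN
  · -- small `n`
    have h1 := (HM1 h n hn).2
    have h2 : (n : ℝ) ^ ((1 / 2 : ℝ) * q) ≤ ((N : ℝ) + 1) ^ q := by
      calc (n : ℝ) ^ ((1 / 2 : ℝ) * q) ≤ (n : ℝ) ^ (q : ℝ) := by
            refine Real.rpow_le_rpow_of_exponent_le hn1 ?_
            have : (0 : ℝ) ≤ q := Nat.cast_nonneg q
            linarith
        _ = (n : ℝ) ^ q := Real.rpow_natCast _ _
        _ ≤ ((N : ℝ) + 1) ^ q := by
            refine pow_le_pow_left₀ hn0.le ?_ q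
            exact_mod_cast hnN.le
    have h3 : B₁ * (n : ℝ) ^ ((1 / 2 : ℝ) * q) ≤ B₁ * ((N : ℝ) + 1) ^ q :=
      mul_le_mul_of_nonneg_left h2 hB₁
    have h4 : C ≤ C * (ra + w) := by
      have : C * 1 ≤ C * (ra + w) := mul_le_mul_of_nonneg_left (by linarith) hC0
      linarith
    have h5 : 1 ≤ C := by linarith
    have h6 : C ≤ C ^ q := le_self_pow₀ h5 (by omega)
    have h7 : C ^ q ≤ (C * (ra + w)) ^ q := pow_le_pow_left₀ hC0 h4 q
    linarith
  -- large `n`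
  have hNn : 2 * Cb ≤ (n : ℝ) ^ (4 * q) := by
    have h1 : (N : ℝ) ≤ n := by exact_mod_cast (by omega : N ≤ n)
    have h2 : (n : ℝ) ≤ (n : ℝ) ^ (4 * q) := le_self_pow₀ hn1 (by omega)
    linarith
  set e : Vec d := ‖r‖⁻¹ • r with he
  have hen : ‖e‖ = 1 := by
    rw [he, norm_smul, norm_inv, norm_norm, inv_mul_cancel₀ hr0.ne']
  set R : ℝ := (n : ℝ) ^ a with hR
  have hR0 : 0 < R := by linarith
  set u : ℝ := C₁ * w with hu
  have hu0 : 0 ≤ u := mul_nonneg hC₁ (by linarith)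
  set S : Finset (Site d) := (boxF d m).filter fun z => 2 * R < off97 e v m z with hS
  set l : ℝ := m * lam ρ β h - 3 * u - ‖r‖ * (4 * R + bs) - Real.log (4 * (2 * (m : ℝ) + 1) ^ d)
    with hl
  set l' : ℝ := m * lam ρ β h + u with hl'
  set p : ℝ := ((n : ℝ) ^ Q)⁻¹ with hp
  set b : ℝ := Cb * ((n : ℝ) ^ q2)⁻¹ with hb
  have hQ1 : 1 ≤ Q := by omega
  have hnQ : 1 < (n : ℝ) ^ Q := one_lt_pow₀ (by exact_mod_cast (by omega : 1 < n)) (by omega)
  have hnQ0 : 0 < (n : ℝ) ^ Q := by linarith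
  have hp0 : 0 < p := inv_pos.2 hnQ0
  have hp1 : p < 1 := inv_lt_one_of_one_lt₀ hnQ
  have hn4 : 0 < (n : ℝ) ^ (4 * q) := by positivity
  have hsplit : ((n : ℝ) ^ q2)⁻¹ = ((n : ℝ) ^ Q)⁻¹ * ((n : ℝ) ^ (4 * q))⁻¹ := by
    rw [hq2, pow_add, mul_inv]
  have hb0 : 0 ≤ b := by positivity
  have hpb : 2 * b ≤ p := by
    rw [hb, hp, hsplit]
    have h1 : 2 * Cb * ((n : ℝ) ^ (4 * q))⁻¹ ≤ 1 := by
      rw [← div_eq_mul_inv, div_le_one hn4]
      exact hNn
    calc 2 * (Cb * (((n : ℝ) ^ Q)⁻¹ * ((n : ℝ) ^ (4 * q))⁻¹))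
        = ((n : ℝ) ^ Q)⁻¹ * (2 * Cb * ((n : ℝ) ^ (4 * q))⁻¹) := by ring
      _ ≤ ((n : ℝ) ^ Q)⁻¹ * 1 := mul_le_mul_of_nonneg_left h1 hp0.le
      _ = ((n : ℝ) ^ Q)⁻¹ := mul_one _
  have hrp : (n : ℝ) ^ (-(q2 : ℝ)) = ((n : ℝ) ^ q2)⁻¹ := by
    rw [Real.rpow_neg hn0.le, Real.rpow_natCast]
  -- the events
  set ET : Set (Env d) := {η | ¬ ∀ i ≤ n, ∀ y ∈ boxF d n, ∀ l ≤ n,
      1 / 2 ≤ PolT β h (sh i y η) (tube d l v ((n : ℝ) ^ a))} with hET
  set EX : Vec d → Set (Env d) := fun h' => {η | ¬ ∀ i ≤ m, ∀ y ∈ boxF d m,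
        |X β h' (sh i y η) (m - i) - ((m - i : ℕ) : ℝ) * lam ρ β h'| ≤
          C₁ * ((m : ℝ) ^ x * (n : ℝ) ^ ε)} with hEX
  have pT : (law d ρ).real ET ≤ C₂ * ((n : ℝ) ^ q2)⁻¹ := by
    have := HT n hn
    rwa [hrp] at this
  have pX0 : (law d ρ).real (EX h) ≤ C₁ * ((n : ℝ) ^ q2)⁻¹ := by
    have := HX h (by simpa using hδ) n m hm hmn'
    rwa [hrp] at this
  have pX1 : (law d ρ).real (EX (h + r)) ≤ C₁ * ((n : ℝ) ^ q2)⁻¹ := by
    have := HX (h + r) (by simpa using hrδ) n m hm hmn'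
    rwa [hrp] at this
  have hinv0 : 0 ≤ ((n : ℝ) ^ q2)⁻¹ := by positivity
  have z0n : (0 : Site d) ∈ boxF d n := TubV_zero n
  have z0m : (0 : Site d) ∈ boxF d m := TubV_zero m
  have hTub : ∀ η : Env d, η ∉ ET → ∀ i ≤ n, ∀ y ∈ boxF d n, ∀ l ≤ n,
      1 / 2 ≤ PolT β h (sh i y η) (slab97 d l e v R) := by
    intro η hη i hi y hy l hl
    have h1 : ∀ i ≤ n, ∀ y ∈ boxF d n, ∀ l ≤ n,
      1 / 2 ≤ PolT β h (sh i y η) (tube d l v ((n : ℝ) ^ a)) := by
      by_contra hcon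
      exact hη hcon
    exact (h1 i hi y hy l hl).trans (PolT_mono β h _ (tube_subset_slab97 hen.le v R))
  have hXX : ∀ (h' : Vec d) (η : Env d), η ∉ EX h' → ∀ i ≤ m, ∀ y ∈ boxF d m,
        |X β h' (sh i y η) (m - i) - ((m - i : ℕ) : ℝ) * lam ρ β h'| ≤ u := by
    intro h' η hη
    by_contra hcon
    exact hη hcon
  have hT1 : (law d ρ).real {η | PolT β h η (slab97 d n e v R) < 1 / 2} ≤ b := by
    have hsub : {η : Env d | PolT β h η (slab97 d n e v R) < 1 / 2} ⊆ ET := by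
      intro η hη
      by_contra hcon
      have h1 := hTub η hcon 0 (Nat.zero_le _) 0 z0n n le_rfl
      rw [TubV_sh] at h1
      exact absurd hη (not_lt.2 h1)
    refine ((measureReal_mono hsub (measure_ne_top _ _)).trans pT).trans ?_
    exact mul_le_mul_of_nonneg_right (by linarith) hinv0
  have hT2 : (law d ρ).real {η | PolT β h η (slab97 d (n - m) e v R) < 1 / 2} ≤ b := by
    have hsub : {η : Env d | PolT β h η (slab97 d (n - m) e v R) < 1 / 2} ⊆ ET := by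
      intro η hη
      by_contra hcon
      have h1 := hTub η hcon 0 (Nat.zero_le _) 0 z0n (n - m) (Nat.sub_le _ _)
      rw [TubV_sh] at h1
      exact absurd hη (not_lt.2 h1)
    refine ((measureReal_mono hsub (measure_ne_top _ _)).trans pT).trans ?_
    exact mul_le_mul_of_nonneg_right (by linarith) hinv0
  have hlX : (law d ρ).real {η | l' < X β h η m} ≤ b := by
    have hsub : {η : Env d | l' < X β h η m} ⊆ EX h := by
      intro η hη
      by_contra hcon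
      have h1 := hXX h η hcon 0 (Nat.zero_le _) 0 z0m
      rw [TubV_sh, Nat.sub_zero] at h1
      have h2 := (abs_le.1 h1).2
      have h3 : l' < X β h η m := hη
      rw [hl'] at h3
      linarith
    refine ((measureReal_mono hsub (measure_ne_top _ _)).trans pX0).trans ?_
    exact mul_le_mul_of_nonneg_right (by linarith) hinv0
  have hgap0 : 0 ≤ gap (lam ρ β) h v r := by
    by_contra hcon
    have h1 : (m : ℝ) * gap (lam ρ β) h v r < 0 :=
      mul_neg_of_pos_of_neg (by linarith) (not_le.1 hcon)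
    have h2 : 0 ≤ 4 * ‖r‖ * (n : ℝ) ^ a := by positivity
    have h3 : 0 ≤ C * w := mul_nonneg hC0 (by linarith)
    linarith
  have hgL : ‖r‖ * (4 * R) + 2 * u + 1 ≤ m * gap (lam ρ β) h v r := by
    have h1 : 2 * u + 1 ≤ C * w := by
      have h2 : (2 * C₁ + 1) * w ≤ C * w :=
        mul_le_mul_of_nonneg_right (by linarith) (by linarith)
      have h3 : 2 * u + 1 ≤ (2 * C₁ + 1) * w := by
        rw [hu]
        linarith
      linarith
    have h4 : ‖r‖ * (4 * R) = 4 * ‖r‖ * (n : ℝ) ^ a := by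
      rw [hR]
      ring
    rw [h4]
    linarith
  have h4pos : (0 : ℝ) < 4 * (2 * (m : ℝ) + 1) ^ d := by positivity
  have hWW : (law d ρ).real {η | ¬ ∃ z ∈ S, Real.exp l ≤ wz97 β h η m z} ≤ b := by
    have hsub : {η : Env d | ¬ ∃ z ∈ S, Real.exp l ≤ wz97 β h η m z} ⊆
        ET ∪ (EX h ∪ EX (h + r)) := by
      intro η hη
      by_contra hcon
      rw [Set.mem_union, Set.mem_union, not_or, not_or] at hcon
      obtain ⟨g1, g2, g3⟩ := hcon
      apply hη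
      have hV : CrsV ρ β h v r (4 * R) R u m η := by
        refine ⟨?_, ?_, ?_, ?_, ?_⟩
        · have h1 := hXX h η g2 0 (Nat.zero_le _) 0 z0m
          rw [TubV_sh, Nat.sub_zero] at h1
          have h2 := (abs_le.1 h1).2
          linarith
        · have h1 := hXX (h + r) η g3 0 (Nat.zero_le _) 0 z0m
          rw [TubV_sh, Nat.sub_zero] at h1
          have h2 := (abs_le.1 h1).1
          linarith
        · intro i hi y hy
          have h2 := (abs_le.1 (hXX (h + r) η g3 i hi y hy)).2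
          linarith
        · intro i hi y hy
          have h2 := (abs_le.1 (hXX h η g2 i hi y hy)).1
          linarith
        · intro i hi y hy
          exact hTub η g1 i (hi.trans hmn') y (boxF_sub80 hmn' hy) (m - i)
            ((Nat.sub_le m i).trans hmn')
      obtain ⟨z, hz, h1, -, h3⟩ := crsB74 hd hr0 (le_refl bs) hgap0 (by positivity) hgL hV
      refine ⟨z, Finset.mem_filter.2 ⟨hz, ?_⟩, ?_⟩
      · have h4 : 4 * R - R ≤ off97 e v m z := h1
        linarith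
      · refine le_trans (le_of_eq ?_) h3
        rw [hl, Real.exp_sub, Real.exp_log h4pos]
    refine (measureReal_mono hsub (measure_ne_top _ _)).trans ?_
    refine (measureReal_union_le _ _).trans ?_
    refine (add_le_add pT ((measureReal_union_le _ _).trans (add_le_add pX0 pX1))).trans
      (le_of_eq ?_)
    rw [hb, hCb]
    ring
  obtain ⟨c, hc⟩ := window97 hd (ρ := ρ) (β := β) (h := h) (e := e) (v := v) hmn' (R := S) (r := R)
    (l := l) (l' := l') (p := p) (b := b) (fun z hz => (Finset.mem_filter.1 hz).2) hT1 hT2 hWW hlX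
    hp0 hp1 hpb
  set K : ℝ := l' - l + 3 with hK
  have hKeq : K = 4 * u + ‖r‖ * (4 * R + bs) + Real.log (4 * (2 * (m : ℝ) + 1) ^ d) + 3 := by
    rw [hK, hl, hl']
    ring
  have hlog0 : 0 ≤ Real.log (4 * (2 * (m : ℝ) + 1) ^ d) := by
    refine Real.log_nonneg ?_
    have : (1 : ℝ) ≤ (2 * (m : ℝ) + 1) ^ d := one_le_pow₀ (by linarith)
    linarith
  have hK1 : 1 ≤ K := by
    rw [hKeq]
    have : 0 ≤ ‖r‖ * (4 * R + bs) := by positivity
    linarith
  have hKle : K ≤ CK * (ra + w) := by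
    have h1 := log16 (d := d) hε hmn hn
    have h2 : (2 + (d : ℝ) + d / ε) * (n : ℝ) ^ ε ≤ (2 + d + d / ε) * w :=
      mul_le_mul_of_nonneg_left hwε (by positivity)
    have h3 : ‖r‖ * (4 * R + bs) ≤ (4 + bs) * ra := by
      have h4 : ‖r‖ * bs ≤ bs * ra := by
        rw [hra]
        have : ‖r‖ * bs * 1 ≤ ‖r‖ * bs * (n : ℝ) ^ a :=
          mul_le_mul_of_nonneg_left hna (by positivity)
        linarith
      have h5 : ‖r‖ * (4 * R) = 4 * ra := by
        rw [hra, hR]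
        ring
      rw [mul_add, h5]
      linarith
    have h6 : (4 + bs) * ra ≤ CK * ra := by
      refine mul_le_mul_of_nonneg_right ?_ hra0
      have : 0 ≤ 4 * C₁ + (2 + (d : ℝ) + d / ε) + 3 := by positivity
      rw [hCK]
      linarith
    have h7 : 4 * u + (2 + (d : ℝ) + d / ε) * w + 3 ≤ CK * w := by
      have h8 : (4 * C₁ + (2 + (d : ℝ) + d / ε) + 3) * w ≤ CK * w := by
        refine mul_le_mul_of_nonneg_right ?_ (by linarith)
        rw [hCK]
        linarith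
      rw [hu]
      nlinarith
    rw [hKeq, mul_add]
    linarith
  -- the moments
  have hAdef : A ρ β h n = ∫ η, X β h η n ∂(law d ρ) := rfl
  have hint : ∀ k ≤ 2 * q, Integrable (fun η : Env d => |X β h η n - ∫ y, X β h y n ∂(law d ρ)| ^ k)
      (law d ρ) := by
    intro k _
    obtain ⟨_, _, H⟩ := momU (d := d) hd hρ β k
    exact (H h n hn).1
  have hmom : ∫ η, |X β h η n - ∫ y, X β h y n ∂(law d ρ)| ^ (2 * q) ∂(law d ρ) ≤
      B * (n : ℝ) ^ (2 * q) := by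
    refine (HM2 h n hn).2.trans (mul_le_mul_of_nonneg_left ?_ hB)
    rw [← Real.rpow_natCast]
    refine Real.rpow_le_rpow_of_exponent_le hn1 ?_
    have : (0 : ℝ) ≤ ((2 * q : ℕ) : ℝ) := Nat.cast_nonneg _
    linarith
  have hwin : (law d ρ).real {η : Env d | K < |X β h η n - c|} * (n : ℝ) ^ (4 * q) ≤ Cw := by
    have h1 : 2 * b + 2 * b / p + (2 * (m : ℝ) + 1) ^ d * p ≤ Cw * ((n : ℝ) ^ (4 * q))⁻¹ := by
      have e1 : 2 * b / p = 2 * Cb * ((n : ℝ) ^ (4 * q))⁻¹ := by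
        rw [hb, hp, hsplit]
        field_simp
      have e2 : 2 * b ≤ 2 * Cb * ((n : ℝ) ^ (4 * q))⁻¹ := by
        rw [hb, hsplit]
        have h2 : ((n : ℝ) ^ Q)⁻¹ * ((n : ℝ) ^ (4 * q))⁻¹ ≤ 1 * ((n : ℝ) ^ (4 * q))⁻¹ :=
          mul_le_mul_of_nonneg_right hp1.le (by positivity)
        have h3 := mul_le_mul_of_nonneg_left h2 hCb0
        linarith
      have e3 : (2 * (m : ℝ) + 1) ^ d * p ≤ 2 ^ d * ((n : ℝ) ^ (4 * q))⁻¹ := by
        have h2 : (2 * (m : ℝ) + 1) ^ d ≤ (2 * (n : ℝ)) ^ d := by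
          refine pow_le_pow_left₀ (by positivity) ?_ d
          have : 2 * (m : ℝ) ≤ n := by exact_mod_cast hmn
          linarith
        have h3 : p = ((n : ℝ) ^ d)⁻¹ * ((n : ℝ) ^ (4 * q))⁻¹ := by
          rw [hp, hQ, pow_add, mul_inv, mul_comm]
        rw [h3]
        calc (2 * (m : ℝ) + 1) ^ d * (((n : ℝ) ^ d)⁻¹ * ((n : ℝ) ^ (4 * q))⁻¹)
            ≤ (2 * (n : ℝ)) ^ d * (((n : ℝ) ^ d)⁻¹ * ((n : ℝ) ^ (4 * q))⁻¹) :=
              mul_le_mul_of_nonneg_right h2 (by positivity)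
          _ = 2 ^ d * ((n : ℝ) ^ (4 * q))⁻¹ := by
              rw [mul_pow]
              have : (n : ℝ) ^ d ≠ 0 := by positivity
              field_simp
      rw [e1, hCw]
      linarith
    calc (law d ρ).real {η : Env d | K < |X β h η n - c|} * (n : ℝ) ^ (4 * q)
        ≤ (Cw * ((n : ℝ) ^ (4 * q))⁻¹) * (n : ℝ) ^ (4 * q) :=
          mul_le_mul_of_nonneg_right (hc.trans h1) hn4.le
      _ = Cw := by field_simp
  have hfin := HW (fun η => X β h η n) (measurable_X β h n) (concU hd hρ β h n).1 n K c hn hK1 hint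
    hmom hwin
  refine hfin.trans ?_
  refine pow_le_pow_left₀ (mul_nonneg hC'0 (by linarith)) ?_ q
  calc C' * K ≤ C' * (CK * (ra + w)) := mul_le_mul_of_nonneg_left hKle hC'0
    _ = C' * CK * (ra + w) := by ring
    _ ≤ C * (ra + w) := by
        refine mul_le_mul_of_nonneg_right ?_ (by linarith)
        rw [hCdef]
        linarith

end Pool.Agent.W_7d29a1_D2.S16
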