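import Pool.Agent.W_7d29a1_h46u.Walk

/-!
The join by the first crossing time (deterministic part), in every dimension.
-/

namespace Pool.Agent.W_7d29a1_D2.Crs74

open MeasureTheory ProbabilityTheory Filter Topology Pool.Agent.W_MP_7d29a1_pr
  Pool.Agent.W_7d29a1_h46 Pool.Agent.W_7d29a1_h46u

variable {d : ℕ}

/-- The offset of the point `(i, x)` in the direction `e` with slope `w`. -/
noncomputable def off74 {d : ℕ} (e : Vec d) (w : ℝ) (i : ℕ) (x : Site d) : ℝ :=
  inner ℝ e (emb x) - i * w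

/-- The slab of the paths with offsets at most `R`. -/
def slb (d n : ℕ) (e : Vec d) (w R : ℝ) : Set (Fin n → Step d) :=
  {s | ∀ i ≤ n, |off74 e w i (pos s i)| ≤ R}

/-- The window of the end points. -/
def win (d n : ℕ) (e : Vec d) (w a b : ℝ) : Set (Fin n → Step d) :=
  {s | a ≤ off74 e w n (pos s n) ∧ off74 e w n (pos s n) ≤ b}

/-- The paths with first crossing of the level `L` at the time `i`. -/
def fc (d n : ℕ) (e : Vec d) (w L : ℝ) (i : ℕ) : Set (Fin n → Step d) :=
  {s | L ≤ off74 e w i (pos s i) ∧ ∀ j < i, off74 e w j (pos s j) < L}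

/-- The paths with first crossing at the time `i` which stay in their slab afterwards. -/
def fcs (d n : ℕ) (e : Vec d) (w L R : ℝ) (i : ℕ) : Set (Fin n → Step d) :=
  {s | s ∈ fc d n e w L i ∧ ∀ j, i + j ≤ n → |off74 e w j (pos s (i + j) - pos s i)| ≤ R}

lemma Crs_emb_sub (x y : Site d) : emb (x - y) = emb x - emb y := by
  ext j
  simp [emb]

lemma off_add (e : Vec d) (w : ℝ) (i j : ℕ) (x y : Site d) :
    off74 e w (i + j) (x + y) = off74 e w i x + off74 e w j y := by
  unfold off74
  rw [Walk_emb_add, inner_add_right]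
  push_cast
  ring

lemma Crs_pos_zero {n : ℕ} (s : Fin n → Step d) : pos s 0 = 0 := by
  unfold pos
  exact Finset.sum_eq_zero fun j _ => if_neg (Nat.not_lt_zero _)

lemma Crs_pos_succ {n : ℕ} (s : Fin n → Step d) {j : ℕ} (hj : j < n) :
    pos s (j + 1) = pos s j + vec (s ⟨j, hj⟩) := by
  unfold pos
  have h1 : ∀ l : Fin n, (if (l : ℕ) < j + 1 then vec (s l) else 0) =
      (if (l : ℕ) < j then vec (s l) else 0) + (if l = ⟨j, hj⟩ then vec (s l) else 0) := by
    intro l
    by_cases h : (l : ℕ) < j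
    · rw [if_pos (by omega), if_pos h, if_neg, add_zero]
      intro h2
      rw [h2] at h
      exact absurd h (lt_irrefl _)
    · by_cases h2 : l = ⟨j, hj⟩
      · rw [if_neg h, if_pos h2, if_pos, zero_add]
        rw [h2]
        exact Nat.lt_succ_self j
      · rw [if_neg h, if_neg h2, if_neg, add_zero]
        intro h3
        apply h2
        apply Fin.ext
        show (l : ℕ) = j
        omega
  rw [Finset.sum_congr rfl fun l _ => h1 l, Finset.sum_add_distrib, Finset.sum_ite_eq',
    if_pos (Finset.mem_univ _)]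

lemma Crs_norm_vec (a : Step d) : ‖emb (vec a)‖ = 1 := by
  have h1 : emb (vec a) = EuclideanSpace.single a.1 (if a.2 then (1 : ℝ) else -1) := by
    ext j
    simp only [emb, vec, PiLp.single_apply]
    by_cases h : j = a.1
    · rw [h, Pi.single_eq_same, if_pos rfl]
      split_ifs <;> simp
    · rw [Pi.single_eq_of_ne h, if_neg h]
      simp
  rw [h1, PiLp.norm_single]
  split_ifs <;> simp

/-- One step changes the offset by at most `1 + |w|`. -/
lemma off_step_b {n : ℕ} {e : Vec d} {w : ℝ} (he : ‖e‖ ≤ 1) (s : Fin n → Step d)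
    {j : ℕ} (hj : j < n) :
    |off74 e w (j + 1) (pos s (j + 1)) - off74 e w j (pos s j)| ≤ 1 + |w| := by
  have h1 : off74 e w (j + 1) (pos s (j + 1)) - off74 e w j (pos s j) =
      inner ℝ e (emb (vec (s ⟨j, hj⟩))) - w := by
    rw [Crs_pos_succ s hj]
    unfold off74
    rw [Walk_emb_add, inner_add_right]
    push_cast
    ring
  rw [h1]
  have h2 : |inner ℝ e (emb (vec (s ⟨j, hj⟩)))| ≤ 1 := by
    refine (abs_real_inner_le_norm _ _).trans ?_
    rw [Crs_norm_vec, mul_one]
    exact he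
  have h3 := abs_le.1 h2
  have h4 := neg_abs_le w
  have h5 := le_abs_self w
  rw [abs_le]
  constructor <;> linarith

/-- One step changes the offset by at most `2`. -/
lemma off_step {n : ℕ} {e : Vec d} {w : ℝ} (he : ‖e‖ ≤ 1) (hw : |w| ≤ 1) (s : Fin n → Step d)
    {j : ℕ} (hj : j < n) : |off74 e w (j + 1) (pos s (j + 1)) - off74 e w j (pos s j)| ≤ 2 := by
  have h1 := off_step_b (w := w) he s hj
  linarith

/-- At the first crossing the offset is at most `L + b`. -/
lemma fc_le_b {n i : ℕ} {e : Vec d} {w L b : ℝ} (he : ‖e‖ ≤ 1) (hw : 1 + |w| ≤ b) (hL : 0 ≤ L)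
    (hi : i ≤ n) {s : Fin n → Step d} (hs : s ∈ fc d n e w L i) :
    off74 e w i (pos s i) ≤ L + b := by
  have hb : 0 ≤ b := by
    have := abs_nonneg w
    linarith
  rcases i with _ | j
  · rw [Crs_pos_zero]
    have h0 : emb (0 : Site d) = 0 := by
      ext k
      simp [emb]
    unfold off74
    rw [h0, inner_zero_right]
    push_cast
    linarith
  · have h1 := hs.2 j (Nat.lt_succ_self j)
    have h2 := (abs_le.1 (off_step_b (w := w) he s (show j < n by omega))).2
    linarith

lemma fc_unique {n : ℕ} {e : Vec d} {w L : ℝ} {i j : ℕ} {s : Fin n → Step d}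
    (hi : s ∈ fc d n e w L i) (hj : s ∈ fc d n e w L j) : i = j := by
  rcases lt_trichotomy i j with h | h | h
  · exact absurd (hj.2 i h) (not_lt.2 hi.1)
  · exact h
  · exact absurd (hi.2 j h) (not_lt.2 hj.1)

lemma fc_glue {i k : ℕ} (e : Vec d) (w L : ℝ) (s : Fin i → Step d) (q : Fin k → Step d) :
    Fin.append s q ∈ fc d (i + k) e w L i ↔ s ∈ fc d i e w L i := by
  unfold fc
  simp only [Set.mem_ofPred_eq]
  rw [pos_glue_le s q le_rfl]
  refine and_congr Iff.rfl (forall_congr' fun j => imp_congr_right fun hj => ?_)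
  rw [pos_glue_le s q hj.le]

lemma fcs_glue {i k : ℕ} (e : Vec d) (w L R : ℝ) (s : Fin i → Step d) (q : Fin k → Step d) :
    Fin.append s q ∈ fcs d (i + k) e w L R i ↔ s ∈ fc d i e w L i ∧ q ∈ slb d k e w R := by
  unfold fcs slb
  simp only [Set.mem_ofPred_eq]
  rw [fc_glue]
  refine and_congr Iff.rfl (forall_congr' fun j => ?_)
  rw [pos_glue_le s q le_rfl, pos_glue_add s q j, add_sub_cancel_left]
  constructor
  · intro h hj
    exact h (by omega)
  · intro h hj
    exact h (by omega)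

/-- Disjoint subsets. -/
lemma ZT_sum_le {n : ℕ} {ι : Type*} (S : Finset ι) (β : ℝ) (h : Vec d) (η : Env d)
    (D : ι → Set (Fin n → Step d)) (W : Set (Fin n → Step d))
    (hdis : ∀ i ∈ S, ∀ j ∈ S, ∀ s, s ∈ D i → s ∈ D j → i = j) (hsub : ∀ i ∈ S, D i ⊆ W) :
    ∑ i ∈ S, ZT β h η (D i) ≤ ZT β h η W := by
  classical
  unfold ZT
  rw [Finset.sum_comm]
  refine Finset.sum_le_sum fun s _ => ?_
  by_cases hs : ∃ i ∈ S, s ∈ D i
  · obtain ⟨i, hi, hsi⟩ := hs
    rw [Finset.sum_eq_single i, if_pos hsi, if_pos (hsub i hi hsi)]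
    · intro j hj hji
      rw [if_neg]
      intro hsj
      exact hji (hdis j hj i hi s hsj hsi)
    · intro h1
      exact absurd hi h1
  · rw [Finset.sum_eq_zero]
    · split_ifs
      · exact (wgt_pos _ _ _ _).le
      · exact le_rfl
    · intro i hi
      rw [if_neg]
      intro h1
      exact hs ⟨i, hi, h1⟩

/-- A cover. -/
lemma ZT_cover {n : ℕ} {ι : Type*} (S : Finset ι) (β : ℝ) (h : Vec d) (η : Env d)
    (D : ι → Set (Fin n → Step d)) (W N : Set (Fin n → Step d))
    (hcov : ∀ s ∈ W, s ∈ N ∨ ∃ i ∈ S, s ∈ D i) :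
    ZT β h η W ≤ ZT β h η N + ∑ i ∈ S, ZT β h η (D i) := by
  classical
  unfold ZT
  rw [Finset.sum_comm, ← Finset.sum_add_distrib]
  refine Finset.sum_le_sum fun s _ => ?_
  have hw : 0 ≤ wgt β h η s := (wgt_pos _ _ _ _).le
  have h0 : 0 ≤ ∑ i ∈ S, (if s ∈ D i then wgt β h η s else 0) := by
    refine Finset.sum_nonneg fun i _ => ?_
    split_ifs
    · exact hw
    · exact le_rfl
  have h0' : 0 ≤ (if s ∈ N then wgt β h η s else 0) := by
    split_ifs
    · exact hw
    · exact le_rfl
  by_cases hs : s ∈ W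
  · rw [if_pos hs]
    rcases hcov s hs with h1 | ⟨i, hi, h1⟩
    · rw [if_pos h1]
      linarith
    · have h2 := Finset.single_le_sum (f := fun i => (if s ∈ D i then wgt β h η s else 0))
        (fun i _ => by
          show 0 ≤ (if s ∈ D i then wgt β h η s else 0)
          split_ifs
          · exact hw
          · exact le_rfl) hi
      rw [if_pos h1] at h2
      linarith
  · rw [if_neg hs]
    linarith

lemma Crs_wgt (β : ℝ) (h e : Vec d) (r : ℝ) (η : Env d) {n : ℕ} (s : Fin n → Step d) :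
    wgt β (h + r • e) η s = Real.exp (r * inner ℝ e (emb (pos s n))) * wgt β h η s := by
  unfold wgt
  rw [← Real.exp_add, inner_add_left, real_inner_smul_left]
  congr 1
  ring

/-- The hypotheses of the join on the time interval `[0, m]`. -/
structure CrsB (β : ℝ) (h e : Vec d) (r w g lam L R u b : ℝ) (m : ℕ) (η : Env d) : Prop where
  r0 : 0 ≤ r
  g0 : 0 ≤ g
  L0 : 0 ≤ L
  e1 : ‖e‖ ≤ 1
  w1 : 1 + |w| ≤ b
  up0 : X β h η m ≤ m * lam + u
  lo1 : m * (lam + r * w + g) - u ≤ X β (h + r • e) η m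
  up1 : ∀ i ≤ m, ∀ y ∈ boxF d m, X β (h + r • e) (sh i y η) (m - i) ≤
    ((m - i : ℕ) : ℝ) * (lam + r * w + g) + u
  lo0 : ∀ i ≤ m, ∀ y ∈ boxF d m, ((m - i : ℕ) : ℝ) * lam - u ≤ X β h (sh i y η) (m - i)
  tub : ∀ i ≤ m, ∀ y ∈ boxF d m, 1 / 2 ≤ PolT β h (sh i y η) (slb d (m - i) e w R)
  gL : r * L + 2 * u + 1 ≤ m * g

/-- The part without crossing. -/
lemma Crs_no (hd : 0 < d) {β : ℝ} {h e : Vec d} {r w g lam L R u b : ℝ} {m : ℕ} {η : Env d}
    (H : CrsB β h e r w g lam L R u b m η) :
    ZT β (h + r • e) η {s : Fin m → Step d | off74 e w m (pos s m) < L} ≤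
      Z β (h + r • e) η m / 2 := by
  classical
  have h1 : ZT β (h + r • e) η {s : Fin m → Step d | off74 e w m (pos s m) < L} ≤
      Real.exp (r * (m * w + L)) * Z β h η m := by
    rw [Z_eq, Finset.mul_sum]
    unfold ZT
    refine Finset.sum_le_sum fun s _ => ?_
    have hw : 0 ≤ wgt β h η s := (wgt_pos _ _ _ _).le
    by_cases hs : s ∈ {s : Fin m → Step d | off74 e w m (pos s m) < L}
    · rw [if_pos hs, Crs_wgt]
      refine mul_le_mul_of_nonneg_right (Real.exp_le_exp.2 ?_) hw
      refine mul_le_mul_of_nonneg_left ?_ H.r0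
      have h2 : off74 e w m (pos s m) < L := hs
      unfold off74 at h2
      linarith
    · rw [if_neg hs]
      exact mul_nonneg (Real.exp_pos _).le hw
  have h2 : Z β h η m = Real.exp (X β h η m) := by
    unfold X
    rw [Real.exp_log (Z_pos hd β h η m)]
  have h3 : Z β (h + r • e) η m = Real.exp (X β (h + r • e) η m) := by
    unfold X
    rw [Real.exp_log (Z_pos hd _ _ _ _)]
  have hlog : Real.log 2 ≤ 1 := by
    have := Real.log_two_lt_d9
    linarith
  have h4 : (2 : ℝ) = Real.exp (Real.log 2) := (Real.exp_log two_pos).symm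
  rw [h2, ← Real.exp_add] at h1
  refine h1.trans ?_
  rw [le_div_iff₀ two_pos, h3]
  conv_lhs => rw [h4]
  rw [← Real.exp_add]
  refine Real.exp_le_exp.2 ?_
  have h5 := H.up0
  have h6 := H.lo1
  have h7 := H.gL
  have e1 : (m : ℝ) * (lam + r * w + g) = m * lam + m * (r * w) + m * g := by ring
  have e2 : r * (m * w + L) = m * (r * w) + r * L := by ring
  rw [e1] at h6
  rw [e2]
  linarith

lemma Crs_up {β : ℝ} {h e : Vec d} {r w g lam L R u b : ℝ} {m : ℕ} {η : Env d} (hd : 0 < d)
    (H : CrsB β h e r w g lam L R u b m η) {i : ℕ} (hi : i ≤ m) :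
    ZT β (h + r • e) η (fc d m e w L i) ≤
      Real.exp (m * (r * w + g) + r * (L + b) + u + ((m - i : ℕ) : ℝ) * lam) *
        ZT β h η (fc d i e w L i) := by
  classical
  obtain ⟨k, rfl⟩ := Nat.exists_eq_add_of_le hi
  have hk : i + k - i = k := by omega
  have hup := H.up1 i hi
  rw [hk] at hup
  rw [hk]
  unfold ZT
  rw [sum_glue, Finset.mul_sum]
  refine Finset.sum_le_sum fun s _ => ?_
  have hw : 0 < wgt β h η s := wgt_pos _ _ _ _
  by_cases hs : s ∈ fc d i e w L i
  · have e1 : ∑ q : Fin k → Step d, (if Fin.append s q ∈ fc d (i + k) e w L i then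
        wgt β (h + r • e) η (Fin.append s q) else 0) =
        wgt β (h + r • e) η s * Z β (h + r • e) (sh i (pos s i) η) k := by
      rw [Z_eq, Finset.mul_sum]
      refine Finset.sum_congr rfl fun q _ => ?_
      rw [if_pos ((fc_glue e w L s q).2 hs), wgt_glue]
    rw [e1, if_pos hs, Crs_wgt]
    have hbox : pos s i ∈ boxF d (i + k) := by
      have h1 := mem_boxF.1 (pos_mem_box s i)
      exact mem_boxF.2 fun j => (h1 j).trans (by exact_mod_cast Nat.le_add_right i k)
    have h2 : Z β (h + r • e) (sh i (pos s i) η) k ≤ Real.exp (k * (lam + r * w + g) + u) := by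
      have h3 := hup (pos s i) hbox
      have h4 : Z β (h + r • e) (sh i (pos s i) η) k =
          Real.exp (X β (h + r • e) (sh i (pos s i) η) k) := by
        unfold X
        rw [Real.exp_log (Z_pos hd _ _ _ _)]
      rw [h4]
      exact Real.exp_le_exp.2 h3
    have h5 : r * inner ℝ e (emb (pos s i)) ≤ r * (i * w + (L + b)) := by
      refine mul_le_mul_of_nonneg_left ?_ H.r0
      have h6 := fc_le_b H.e1 H.w1 H.L0 le_rfl hs
      unfold off74 at h6
      linarith
    have h7 : (0 : ℝ) ≤ i := Nat.cast_nonneg i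
    have h8 : 0 ≤ (i : ℝ) * g := mul_nonneg h7 H.g0
    calc Real.exp (r * inner ℝ e (emb (pos s i))) * wgt β h η s *
          Z β (h + r • e) (sh i (pos s i) η) k
        ≤ Real.exp (r * (i * w + (L + b))) * wgt β h η s *
          Real.exp (k * (lam + r * w + g) + u) := by
          refine mul_le_mul ?_ h2 (Z_pos hd _ _ _ _).le
            (mul_nonneg (Real.exp_pos _).le hw.le)
          exact mul_le_mul_of_nonneg_right (Real.exp_le_exp.2 h5) hw.le
      _ = Real.exp (r * (i * w + (L + b)) + (k * (lam + r * w + g) + u)) * wgt β h η s := by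
          rw [Real.exp_add (r * (i * w + (L + b)))]
          ring
      _ ≤ _ := by
          refine mul_le_mul_of_nonneg_right (Real.exp_le_exp.2 ?_) hw.le
          push_cast
          linarith
  · have e1 : ∑ q : Fin k → Step d, (if Fin.append s q ∈ fc d (i + k) e w L i then
        wgt β (h + r • e) η (Fin.append s q) else 0) = 0 := by
      refine Finset.sum_eq_zero fun q _ => ?_
      rw [if_neg]
      intro h1
      exact hs ((fc_glue e w L s q).1 h1)
    rw [e1, if_neg hs, mul_zero]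

lemma Crs_lo {β : ℝ} {h e : Vec d} {r w g lam L R u b : ℝ} {m : ℕ} {η : Env d} (hd : 0 < d)
    (H : CrsB β h e r w g lam L R u b m η) {i : ℕ} (hi : i ≤ m) :
    Real.exp (((m - i : ℕ) : ℝ) * lam - u) / 2 * ZT β h η (fc d i e w L i) ≤
      ZT β h η (fcs d m e w L R i) := by
  classical
  obtain ⟨k, rfl⟩ := Nat.exists_eq_add_of_le hi
  have hk : i + k - i = k := by omega
  have hlo := H.lo0 i hi
  have htub := H.tub i hi
  rw [hk] at hlo htub
  rw [hk]
  unfold ZT
  rw [sum_glue, Finset.mul_sum]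
  refine Finset.sum_le_sum fun s _ => ?_
  have hw : 0 < wgt β h η s := wgt_pos _ _ _ _
  by_cases hs : s ∈ fc d i e w L i
  · have e1 : ∑ q : Fin k → Step d, (if Fin.append s q ∈ fcs d (i + k) e w L R i then
        wgt β h η (Fin.append s q) else 0) =
        wgt β h η s * ZT β h (sh i (pos s i) η) (slb d k e w R) := by
      unfold ZT
      rw [Finset.mul_sum]
      refine Finset.sum_congr rfl fun q _ => ?_
      by_cases hq : q ∈ slb d k e w R
      · rw [if_pos ((fcs_glue e w L R s q).2 ⟨hs, hq⟩), if_pos hq, wgt_glue]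
      · rw [if_neg, if_neg hq, mul_zero]
        intro h1
        exact hq ((fcs_glue e w L R s q).1 h1).2
    rw [e1, if_pos hs]
    have hbox : pos s i ∈ boxF d (i + k) := by
      have h1 := mem_boxF.1 (pos_mem_box s i)
      exact mem_boxF.2 fun j => (h1 j).trans (by exact_mod_cast Nat.le_add_right i k)
    have h2 := le_ZT_of_PolT hd (htub (pos s i) hbox)
    have h3 := hlo (pos s i) hbox
    have h4 : Real.exp (k * lam - u) ≤
        ZT β h (sh i (pos s i) η) (Set.univ : Set (Fin k → Step d)) := by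
      have h5 : ZT β h (sh i (pos s i) η) (Set.univ : Set (Fin k → Step d)) =
          Real.exp (X β h (sh i (pos s i) η) k) := by
        unfold X Z
        rw [Real.exp_log (ZT_univ_pos hd _ _ _)]
      rw [h5]
      exact Real.exp_le_exp.2 h3
    have h6 : Real.exp (k * lam - u) / 2 ≤ ZT β h (sh i (pos s i) η) (slb d k e w R) := by
      linarith
    calc Real.exp (k * lam - u) / 2 * wgt β h η s = wgt β h η s * (Real.exp (k * lam - u) / 2) := by
          ring
      _ ≤ _ := mul_le_mul_of_nonneg_left h6 hw.le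
  · rw [if_neg hs, mul_zero]
    refine Finset.sum_nonneg fun q _ => ?_
    split_ifs
    · exact (wgt_pos _ _ _ _).le
    · exact le_rfl

/-- The total weight of the window. -/
theorem crsB_win (hd : 0 < d) {β : ℝ} {h e : Vec d} {r w g lam L R u b : ℝ} {m : ℕ} {η : Env d}
    (H : CrsB β h e r w g lam L R u b m η) :
    Real.exp (m * lam - 3 * u - r * (L + b)) / 4 ≤
      ZT β h η (win d m e w (L - R) (L + b + R)) := by
  classical
  have hcov := ZT_cover (Finset.range (m + 1)) β (h + r • e) η (fc d m e w L) Set.univ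
    {s : Fin m → Step d | off74 e w m (pos s m) < L} (by
      intro s _
      by_cases hs : off74 e w m (pos s m) < L
      · exact Or.inl hs
      · refine Or.inr ?_
        have hex : ∃ i, L ≤ off74 e w i (pos s i) := ⟨m, not_lt.1 hs⟩
        refine ⟨Nat.find hex, ?_, Nat.find_spec hex, fun j hj => not_le.1 (Nat.find_min hex hj)⟩
        exact Finset.mem_range.2 (Nat.lt_succ_of_le (Nat.find_le (not_lt.1 hs))))
  have hsub := ZT_sum_le (Finset.range (m + 1)) β h η (fcs d m e w L R)
    (win d m e w (L - R) (L + b + R)) (fun i _ j _ s hi hj => fc_unique hi.1 hj.1) (by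
      intro i hi s hs
      have hi' : i ≤ m := Nat.lt_succ_iff.1 (Finset.mem_range.1 hi)
      have h1 := abs_le.1 (hs.2 (m - i) (by omega))
      have h2 : i + (m - i) = m := by omega
      rw [h2] at h1
      have h3 : off74 e w m (pos s m) = off74 e w i (pos s i) +
          off74 e w (m - i) (pos s m - pos s i) := by
        rw [← off_add, h2, add_sub_cancel]
      have h4 := fc_le_b H.e1 H.w1 H.L0 hi' hs.1
      have h5 := hs.1.1
      show L - R ≤ off74 e w m (pos s m) ∧ off74 e w m (pos s m) ≤ L + b + R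
      rw [h3]
      constructor <;> linarith [h1.1, h1.2])
  have hno := Crs_no hd H
  set G : ℕ → ℝ := fun i => ZT β h η (fc d i e w L i) with hG
  set S : ℝ := ∑ i ∈ Finset.range (m + 1), Real.exp (((m - i : ℕ) : ℝ) * lam) * G i with hS
  set E1 : ℝ := Real.exp (m * (r * w + g) + r * (L + b) + u) with hE1
  have hE1p : 0 < E1 := Real.exp_pos _
  have h1 : ∑ i ∈ Finset.range (m + 1), ZT β (h + r • e) η (fc d m e w L i) ≤ E1 * S := by
    rw [hS, Finset.mul_sum]
    refine Finset.sum_le_sum fun i hi => ?_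
    have hi' : i ≤ m := Nat.lt_succ_iff.1 (Finset.mem_range.1 hi)
    refine (Crs_up hd H hi').trans (le_of_eq ?_)
    rw [hE1, ← mul_assoc, ← Real.exp_add]
  have h2 : Real.exp (-u) / 2 * S ≤ ZT β h η (win d m e w (L - R) (L + b + R)) := by
    refine le_trans ?_ hsub
    rw [hS, Finset.mul_sum]
    refine Finset.sum_le_sum fun i hi => ?_
    have hi' : i ≤ m := Nat.lt_succ_iff.1 (Finset.mem_range.1 hi)
    refine le_trans (le_of_eq ?_) (Crs_lo hd H hi')
    rw [sub_eq_add_neg, Real.exp_add]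
    ring
  have h3 : Z β (h + r • e) η m / 2 ≤ E1 * S := by
    have h4 : ZT β (h + r • e) η (Set.univ : Set (Fin m → Step d)) = Z β (h + r • e) η m := rfl
    rw [h4] at hcov
    linarith
  have h4 : Real.exp (m * (lam + r * w + g) - u) ≤ Z β (h + r • e) η m := by
    have h5 : Z β (h + r • e) η m = Real.exp (X β (h + r • e) η m) := by
      unfold X
      rw [Real.exp_log (Z_pos hd _ _ _ _)]
    rw [h5]
    exact Real.exp_le_exp.2 H.lo1
  have h5 : Real.exp (m * lam - 2 * u - r * (L + b)) / 2 ≤ S := by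
    have h6 : Real.exp (m * (lam + r * w + g) - u) / 2 ≤ E1 * S := by linarith
    have h7 : Real.exp (m * (lam + r * w + g) - u) =
        E1 * Real.exp (m * lam - 2 * u - r * (L + b)) := by
      rw [hE1, ← Real.exp_add]
      congr 1
      ring
    rw [h7, mul_div_assoc] at h6
    exact le_of_mul_le_mul_left h6 hE1p
  refine le_trans ?_ h2
  have h6 : Real.exp (m * lam - 3 * u - r * (L + b)) / 4 =
      Real.exp (-u) / 2 * (Real.exp (m * lam - 2 * u - r * (L + b)) / 2) := by
    have h7 : m * lam - 3 * u - r * (L + b) = -u + (m * lam - 2 * u - r * (L + b)) := by ring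
    rw [h7, Real.exp_add]
    ring
  rw [h6]
  exact mul_le_mul_of_nonneg_left h5 (by positivity)

/-- The heaviest end point of the window. -/
theorem crsB_pt (hd : 0 < d) {β : ℝ} {h e : Vec d} {r w g lam L R u b : ℝ} {m : ℕ} {η : Env d}
    (H : CrsB β h e r w g lam L R u b m η) :
    ∃ z ∈ boxF d m, L - R ≤ off74 e w m z ∧ off74 e w m z ≤ L + b + R ∧
      Real.exp (m * lam - 3 * u - r * (L + b)) / (4 * (2 * m + 1) ^ d) ≤
        ZT β h η {s : Fin m → Step d | pos s m = z} := by
  classical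
  have h1 := crsB_win hd H
  set T : Finset (Site d) := (boxF d m).filter fun z =>
    L - R ≤ off74 e w m z ∧ off74 e w m z ≤ L + b + R with hT
  have h2 := ZT_cover T β h η (fun z => {s : Fin m → Step d | pos s m = z})
    (win d m e w (L - R) (L + b + R)) ∅ (by
      intro s hs
      refine Or.inr ⟨pos s m, ?_, rfl⟩
      exact Finset.mem_filter.2 ⟨pos_mem_box s m, hs⟩)
  have h3 : ZT β h η (∅ : Set (Fin m → Step d)) = 0 := by
    unfold ZT
    exact Finset.sum_eq_zero fun s _ => if_neg (Set.notMem_empty s)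
  rw [h3, zero_add] at h2
  set B : ℝ := Real.exp (m * lam - 3 * u - r * (L + b)) / (4 * (2 * m + 1) ^ d) with hB
  have hc : (0 : ℝ) < (2 * m + 1) ^ d := by positivity
  by_contra hcon
  push Not at hcon
  have h4 : ∀ z ∈ T, ZT β h η {s : Fin m → Step d | pos s m = z} < B := by
    intro z hz
    obtain ⟨hz1, hz2, hz3⟩ := Finset.mem_filter.1 hz
    exact hcon z hz1 hz2 hz3
  have hTc : (T.card : ℝ) ≤ (2 * m + 1) ^ d := by
    have h5 : T.card ≤ (boxF d m).card := Finset.card_filter_le _ _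
    rw [card_boxF] at h5
    exact_mod_cast h5
  have h6 : B * (2 * m + 1) ^ d = Real.exp (m * lam - 3 * u - r * (L + b)) / 4 := by
    rw [hB]
    field_simp
  have hBp : 0 < B := by
    rw [hB]
    positivity
  rcases T.eq_empty_or_nonempty with h7 | h7
  · rw [h7, Finset.sum_empty] at h2
    have h8 := h1.trans h2
    have h9 : 0 < Real.exp (m * lam - 3 * u - r * (L + b)) / 4 := by positivity
    linarith
  · have h8 : ∑ z ∈ T, ZT β h η {s : Fin m → Step d | pos s m = z} < ∑ _z ∈ T, B :=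
      Finset.sum_lt_sum_of_nonempty h7 h4
    rw [Finset.sum_const, nsmul_eq_mul] at h8
    have h9 : (T.card : ℝ) * B ≤ (2 * m + 1) ^ d * B := mul_le_mul_of_nonneg_right hTc hBp.le
    linarith [h1.trans h2]

/-- The hypotheses of the join on the time interval `[0, m]`, for `|w| ≤ 1` (`b = 2`). -/
structure Crs (β : ℝ) (h e : Vec d) (r w g lam L R u : ℝ) (m : ℕ) (η : Env d) : Prop where
  r0 : 0 ≤ r
  g0 : 0 ≤ g
  L0 : 0 ≤ L
  e1 : ‖e‖ ≤ 1
  w1 : |w| ≤ 1
  up0 : X β h η m ≤ m * lam + u
  lo1 : m * (lam + r * w + g) - u ≤ X β (h + r • e) η m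
  up1 : ∀ i ≤ m, ∀ y ∈ boxF d m, X β (h + r • e) (sh i y η) (m - i) ≤
    ((m - i : ℕ) : ℝ) * (lam + r * w + g) + u
  lo0 : ∀ i ≤ m, ∀ y ∈ boxF d m, ((m - i : ℕ) : ℝ) * lam - u ≤ X β h (sh i y η) (m - i)
  tub : ∀ i ≤ m, ∀ y ∈ boxF d m, 1 / 2 ≤ PolT β h (sh i y η) (slb d (m - i) e w R)
  gL : r * L + 2 * u + 1 ≤ m * g

lemma Crs.toB {β : ℝ} {h e : Vec d} {r w g lam L R u : ℝ} {m : ℕ} {η : Env d}
    (H : Crs β h e r w g lam L R u m η) : CrsB β h e r w g lam L R u 2 m η :=
  ⟨H.r0, H.g0, H.L0, H.e1, by linarith [H.w1], H.up0, H.lo1, H.up1, H.lo0, H.tub, H.gL⟩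

/-- The total weight of the window. -/
theorem crs_win (hd : 0 < d) {β : ℝ} {h e : Vec d} {r w g lam L R u : ℝ} {m : ℕ} {η : Env d}
    (H : Crs β h e r w g lam L R u m η) :
    Real.exp (m * lam - 3 * u - r * (L + 2)) / 4 ≤
      ZT β h η (win d m e w (L - R) (L + 2 + R)) := crsB_win hd H.toB

/-- The heaviest end point of the window. -/
theorem crs_pt (hd : 0 < d) {β : ℝ} {h e : Vec d} {r w g lam L R u : ℝ} {m : ℕ} {η : Env d}
    (H : Crs β h e r w g lam L R u m η) :
    ∃ z ∈ boxF d m, L - R ≤ off74 e w m z ∧ off74 e w m z ≤ L + 2 + R ∧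
      Real.exp (m * lam - 3 * u - r * (L + 2)) / (4 * (2 * m + 1) ^ d) ≤
        ZT β h η {s : Fin m → Step d | pos s m = z} := crsB_pt hd H.toB

end Pool.Agent.W_7d29a1_D2.Crs74
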