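import Pool.Agent.W_7d29a1_h46u.LawU
import Pool.Agent.W_7d29a1_h46u.Walk

/-!
The join of two copies in every dimension: a walk which reaches a site `z` of the row `s` off the
slab of the origin continues in its own slab. The value of the lower quantile of `log Z_n` is
compared with the upper quantile of `log Z_(n-s)`. No conditional law is used: the site `z` runs
through a finite set, and only events of disjoint sets of sites are multiplied.
-/

namespace Pool.Agent.W_7d29a1_D2

open MeasureTheory ProbabilityTheory Filter Topology Pool.Agent.W_MP_7d29a1_pr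
  Pool.Agent.W_7d29a1_h46 Pool.Agent.W_7d29a1_h46u

variable {d : ℕ} {ρ : Measure ℝ} [IsProbabilityMeasure ρ]

/-- The offset of the site `x` of the row `i` in the direction `e`. -/
noncomputable def off97 {d : ℕ} (e v : Vec d) (i : ℕ) (x : Site d) : ℝ :=
  inner ℝ e (emb x - (i : ℝ) • v)

/-- The walks which stay in the slab `|⟨e, S_i - i v⟩| ≤ r`. -/
def slab97 (d n : ℕ) (e v : Vec d) (r : ℝ) : Set (Fin n → Step d) :=
  {s | ∀ i ≤ n, |off97 e v i (pos s i)| ≤ r}

open Classical in
/-- The total weight of the walks of length `s` which end in `z`. -/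
noncomputable def wz97 {d : ℕ} (β : ℝ) (h : Vec d) (η : Env d) (s : ℕ) (z : Site d) : ℝ :=
  ZT β h η {q : Fin s → Step d | pos q s = z}

lemma off97_add (e v : Vec d) (i s : ℕ) (x z : Site d) :
    off97 e v (i + s) (x + z) = off97 e v i x + off97 e v s z := by
  unfold off97
  rw [Walk_emb_add, Nat.cast_add, add_smul, ← inner_add_right]
  congr 1
  abel

/-- Splitting at the row `s`, at one site. -/
lemma wz97_mul_le (hd : 0 < d) (β : ℝ) (h : Vec d) (η : Env d) {s n : ℕ} (hs : s ≤ n)
    (z : Site d) : wz97 β h η s z * Z β h (sh s z η) (n - s) ≤ Z β h η n := by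
  classical
  obtain ⟨k, rfl⟩ := Nat.exists_eq_add_of_le hs
  have hk : s + k - s = k := by omega
  rw [hk, Z_add]
  unfold wz97 ZT
  rw [Finset.sum_mul]
  refine Finset.sum_le_sum fun q _ => ?_
  by_cases hq : pos q s = z
  · rw [if_pos (show q ∈ {q : Fin s → Step d | pos q s = z} from hq), hq]
  · rw [if_neg (show q ∉ {q : Fin s → Step d | pos q s = z} from hq), zero_mul]
    exact mul_nonneg (wgt_pos _ _ _ _).le (Z_pos hd _ _ _ _).le

lemma wz97_nonneg (β : ℝ) (h : Vec d) (η : Env d) (s : ℕ) (z : Site d) : 0 ≤ wz97 β h η s z :=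
  ZT_nonneg _ _ _ _

lemma measurable_wz97 (β : ℝ) (h : Vec d) (s : ℕ) (z : Site d) :
    Measurable fun η : Env d => wz97 β h η s z := measurable_ZT β h _

/-- Weights depend on the sites of the walks of the set only. -/
lemma dependsOn_ZT97 (β : ℝ) (h : Vec d) {n : ℕ} (E : Set (Fin n → Step d))
    (T : Set (ℕ × Site d)) (hT : ∀ q ∈ E, ∀ i : ℕ, i < n → (i + 1, pos q (i + 1)) ∈ T) :
    DependsOn (fun η : Env d => ZT β h η E) T := by
  classical
  intro η η' hη
  simp only
  unfold ZT
  refine Finset.sum_congr rfl fun q _ => ?_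
  by_cases hq : q ∈ E
  · rw [if_pos hq, if_pos hq]
    have h1 : energy η q = energy η' q := by
      unfold energy
      exact Finset.sum_congr rfl fun i _ => hη _ (hT q hq i i.2)
    unfold wgt
    rw [h1]
  · rw [if_neg hq, if_neg hq]

lemma dependsOn_wz97 (β : ℝ) (h : Vec d) (s : ℕ) (z : Site d) :
    DependsOn (fun η : Env d => wz97 β h η s z) {p | p.1 ≤ s} :=
  dependsOn_ZT97 β h _ _ fun _ _ i hi => (show i + 1 ≤ s by omega)

lemma dependsOn_slab97 (β : ℝ) (h : Vec d) (n : ℕ) (e v : Vec d) (r : ℝ) :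
    DependsOn (fun η : Env d => ZT β h η (slab97 d n e v r)) {p | |off97 e v p.1 p.2| ≤ r} :=
  dependsOn_ZT97 β h _ _ fun q hq i hi => (hq (i + 1) (by omega))

/-- The slab of the site `z` of the row `s` is off the slab of the origin. -/
lemma dependsOn_shslab97 (β : ℝ) (h : Vec d) (n s : ℕ) (e v : Vec d) {r : ℝ} {z : Site d}
    (hz : 2 * r < off97 e v s z) :
    DependsOn (fun η : Env d => ZT β h (sh s z η) (slab97 d n e v r))
      ({p | p.1 ≤ s} ∪ {p | |off97 e v p.1 p.2| ≤ r})ᶜ := by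
  have h1 := dependsOn_ZT97 β h (slab97 d n e v r)
    {p | 1 ≤ p.1 ∧ |off97 e v p.1 p.2| ≤ r} fun q hq i hi => ⟨by simp, hq (i + 1) (by omega)⟩
  intro η η' hη
  refine h1 fun p hp => ?_
  refine hη _ ?_
  rw [Set.mem_compl_iff, Set.mem_union, not_or]
  obtain ⟨hp1, hp2⟩ := hp
  constructor
  · show ¬ (p.1 + s ≤ s)
    omega
  · show ¬ (|off97 e v (p.1 + s) (p.2 + z)| ≤ r)
    rw [off97_add]
    intro hcon
    have h3 := (abs_le.1 hp2).1
    have h4 := (abs_le.1 hcon).2
    linarith

/-- The events of a set of sites. -/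
def Ev97 {d : ℕ} (S : Set (ℕ × Site d)) (B : Set (Env d)) : Prop :=
  MeasurableSet B ∧ ∀ η η' : Env d, (∀ p ∈ S, η p = η' p) → (η ∈ B ↔ η' ∈ B)

lemma Ev97.inter {S : Set (ℕ × Site d)} {B C : Set (Env d)} (hB : Ev97 S B) (hC : Ev97 S C) :
    Ev97 S (B ∩ C) :=
  ⟨hB.1.inter hC.1, fun η η' hη => and_congr (hB.2 η η' hη) (hC.2 η η' hη)⟩

lemma Ev97.compl {S : Set (ℕ × Site d)} {B : Set (Env d)} (hB : Ev97 S B) : Ev97 S Bᶜ :=
  ⟨hB.1.compl, fun η η' hη => not_congr (hB.2 η η' hη)⟩

lemma Ev97.mono {S T : Set (ℕ × Site d)} (hST : S ⊆ T) {B : Set (Env d)} (hB : Ev97 S B) :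
    Ev97 T B :=
  ⟨hB.1, fun η η' hη => hB.2 η η' fun p hp => hη p (hST hp)⟩

lemma ev97_le {S : Set (ℕ × Site d)} {F : Env d → ℝ} (hF : Measurable F) (hS : DependsOn F S)
    (c : ℝ) : Ev97 S {η | F η ≤ c} := by
  refine ⟨measurableSet_le hF measurable_const, fun η η' hη => ?_⟩
  have h1 : F η = F η' := hS hη
  show F η ≤ c ↔ F η' ≤ c
  rw [h1]

lemma ev97_ge {S : Set (ℕ × Site d)} {F : Env d → ℝ} (hF : Measurable F) (hS : DependsOn F S)
    (c : ℝ) : Ev97 S {η | c ≤ F η} := by
  refine ⟨measurableSet_le measurable_const hF, fun η η' hη => ?_⟩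
  have h1 : F η = F η' := hS hη
  show c ≤ F η ↔ c ≤ F η'
  rw [h1]

/-- Events of disjoint sets of sites are independent. -/
lemma ev97_mul {S : Set (ℕ × Site d)} {B C : Set (Env d)} (hB : Ev97 S B) (hC : Ev97 Sᶜ C) :
    (law d ρ).real (B ∩ C) = (law d ρ).real B * (law d ρ).real C := by
  classical
  have hind : ∀ {T : Set (ℕ × Site d)} {D : Set (Env d)}, Ev97 T D →
      Measurable (D.indicator fun _ => (1 : ℝ)) ∧ DependsOn (D.indicator fun _ => (1 : ℝ)) T := by
    intro T D hD
    refine ⟨measurable_const.indicator hD.1, fun η η' hη => ?_⟩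
    have h1 := hD.2 η η' hη
    by_cases hm : η ∈ D
    · rw [Set.indicator_of_mem hm, Set.indicator_of_mem (h1.1 hm)]
    · rw [Set.indicator_of_notMem hm, Set.indicator_of_notMem fun h => hm (h1.2 h)]
  have h2 := integral_indep (ρ := ρ) S (hind hB).1 (hind hC).1 (hind hB).2 (hind hC).2
  have h3 : ∀ D : Set (Env d), MeasurableSet D →
      ∫ η, D.indicator (fun _ => (1 : ℝ)) η ∂(law d ρ) = (law d ρ).real D := fun D hD =>
    integral_indicator_one hD
  rw [h3 B hB.1, h3 C hC.1] at h2
  rw [← h2, ← h3 (B ∩ C) (hB.1.inter hC.1)]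
  refine integral_congr_ae (Eventually.of_forall fun η => ?_)
  simp only [Set.indicator_apply, Set.mem_inter_iff]
  split_ifs <;> simp_all

/-- One site of a finite set: the first one which is good. -/
lemma first97 {S : Set (ℕ × Site d)} {ι : Type*} (R : Finset ι) {A B : ι → Set (Env d)} {p : ℝ}
    (hA : ∀ z ∈ R, Ev97 S (A z)) (hB : ∀ z ∈ R, Ev97 Sᶜ (B z) ∧ p ≤ (law d ρ).real (B z)) :
    ∀ C : Set (Env d), Ev97 S C →
      p * (law d ρ).real (C ∩ ⋃ z ∈ R, A z) ≤ (law d ρ).real (C ∩ ⋃ z ∈ R, (A z ∩ B z)) := by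
  classical
  induction R using Finset.induction_on with
  | empty =>
    intro C _
    simp
  | insert z R hz ih =>
    intro C hC
    have hAz := hA z (Finset.mem_insert_self z R)
    have hBz := hB z (Finset.mem_insert_self z R)
    have ih' := ih (fun y hy => hA y (Finset.mem_insert_of_mem hy))
      (fun y hy => hB y (Finset.mem_insert_of_mem hy)) (C ∩ (A z)ᶜ) (hC.inter hAz.compl)
    have hmU : MeasurableSet (⋃ y ∈ R, A y) :=
      Finset.measurableSet_biUnion R fun y hy => (hA y (Finset.mem_insert_of_mem hy)).1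
    have hmV : MeasurableSet (⋃ y ∈ R, (A y ∩ B y)) :=
      Finset.measurableSet_biUnion R fun y hy =>
        (hA y (Finset.mem_insert_of_mem hy)).1.inter (hB y (Finset.mem_insert_of_mem hy)).1.1
    have e1 : (law d ρ).real (C ∩ ⋃ y ∈ insert z R, A y) =
        (law d ρ).real (C ∩ A z) + (law d ρ).real (C ∩ (A z)ᶜ ∩ ⋃ y ∈ R, A y) := by
      rw [← measureReal_union]
      · congr 1
        ext η
        simp only [Set.mem_inter_iff, Set.mem_iUnion, Finset.mem_insert, exists_prop,
          Set.mem_union, Set.mem_compl_iff]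
        constructor
        · rintro ⟨h1, y, hy | hy, h2⟩
          · left
            exact ⟨h1, hy ▸ h2⟩
          · by_cases h3 : η ∈ A z
            · left
              exact ⟨h1, h3⟩
            · right
              exact ⟨⟨h1, h3⟩, y, hy, h2⟩
        · rintro (⟨h1, h2⟩ | ⟨⟨h1, h2⟩, y, hy, h3⟩)
          · exact ⟨h1, z, Or.inl rfl, h2⟩
          · exact ⟨h1, y, Or.inr hy, h3⟩
      · rw [Set.disjoint_left]
        rintro η ⟨_, h1⟩ ⟨⟨_, h2⟩, _⟩
        exact h2 h1
      · exact (hC.1.inter hAz.1.compl).inter hmU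
    have e2 : (law d ρ).real (C ∩ A z ∩ B z) + (law d ρ).real (C ∩ (A z)ᶜ ∩ ⋃ y ∈ R, (A y ∩ B y))
        ≤ (law d ρ).real (C ∩ ⋃ y ∈ insert z R, (A y ∩ B y)) := by
      rw [← measureReal_union]
      · refine measureReal_mono ?_
        rintro η (⟨⟨h1, h2⟩, h3⟩ | ⟨⟨h1, h2⟩, h3⟩)
        · refine ⟨h1, ?_⟩
          simp only [Set.mem_iUnion, Finset.mem_insert, exists_prop]
          exact ⟨z, Or.inl rfl, h2, h3⟩
        · refine ⟨h1, ?_⟩
          simp only [Set.mem_iUnion, Finset.mem_insert, exists_prop] at h3 ⊢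
          obtain ⟨y, hy, h4⟩ := h3
          exact ⟨y, Or.inr hy, h4⟩
      · rw [Set.disjoint_left]
        rintro η ⟨⟨_, h1⟩, _⟩ ⟨⟨_, h2⟩, _⟩
        exact h2 h1
      · exact (hC.1.inter hAz.1.compl).inter hmV
    have e3 : p * (law d ρ).real (C ∩ A z) ≤ (law d ρ).real (C ∩ A z ∩ B z) := by
      rw [ev97_mul (hC.inter hAz) hBz.1, mul_comm]
      exact mul_le_mul_of_nonneg_left hBz.2 measureReal_nonneg
    rw [e1, mul_add]
    linarith

/-- **The join of two copies.** If `U` is below `log Z_(n-s)` with probability `pU`, and from the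
origin one reaches a site `z` of the finite set `R` of the row `s`, off the slab of the origin, with
a weight `e^l`, then `log Z_n` is not below `l + U - 2 log 2`: its lower tail there is at most
`b' + b / (pU - b)`, where `b` bounds the probability that a slab has less than half of the mass, and
`b'` the probability that no site of `R` has the weight `e^l`. -/
theorem join97 (hd : 0 < d) {β : ℝ} {h e v : Vec d} {s n : ℕ} (hs : s ≤ n) {R : Finset (Site d)}
    {r l L U pU b b' : ℝ} (hR : ∀ z ∈ R, 2 * r < off97 e v s z)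
    (hU : pU ≤ (law d ρ).real {η | U ≤ X β h η (n - s)})
    (hT1 : (law d ρ).real {η | PolT β h η (slab97 d n e v r) < 1 / 2} ≤ b)
    (hT2 : (law d ρ).real {η | PolT β h η (slab97 d (n - s) e v r) < 1 / 2} ≤ b)
    (hW : (law d ρ).real {η | ¬ ∃ z ∈ R, Real.exp l ≤ wz97 β h η s z} ≤ b')
    (hpb : b ≤ pU) (hLU : L < l + U - 2 * Real.log 2) :
    (pU - b) * ((law d ρ).real {η | X β h η n ≤ L} - b') ≤ b := by
  classical
  have hz1 := fun η : Env d => Z_pos hd β h η n
  -- the events
  set S : Set (ℕ × Site d) := {p | p.1 ≤ s} ∪ {p | |off97 e v p.1 p.2| ≤ r} with hS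
  set C : Set (Env d) := {η | ZT β h η (slab97 d n e v r) ≤ Real.exp L} with hC
  set A : Site d → Set (Env d) := fun z => {η | Real.exp l ≤ wz97 β h η s z} with hA
  set B : Site d → Set (Env d) := fun z =>
    {η | Real.exp U / 2 ≤ ZT β h (sh s z η) (slab97 d (n - s) e v r)} with hB
  have hCe : Ev97 S C :=
    (ev97_le (measurable_ZT β h _) (dependsOn_slab97 β h n e v r) _).mono Set.subset_union_right
  have hAe : ∀ z ∈ R, Ev97 S (A z) := fun z _ =>
    (ev97_ge (measurable_wz97 β h s z) (dependsOn_wz97 β h s z) _).mono Set.subset_union_left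
  have hBe : ∀ z ∈ R, Ev97 Sᶜ (B z) ∧ pU - b ≤ (law d ρ).real (B z) := by
    intro z hz
    refine ⟨ev97_ge ((measurable_ZT β h _).comp (measurable_sh s z))
      (dependsOn_shslab97 β h (n - s) s e v (hR z hz)) _, ?_⟩
    have h1 : (law d ρ).real (B z) =
        (law d ρ).real {η | Real.exp U / 2 ≤ ZT β h η (slab97 d (n - s) e v r)} := by
      have hm : MeasurableSet {η : Env d | Real.exp U / 2 ≤
          ZT β h η (slab97 d (n - s) e v r)} :=
        measurableSet_le measurable_const (measurable_ZT β h _)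
      rw [measureReal_def, measureReal_def, ← (mp_sh (ρ := ρ) s z).measure_preimage
        hm.nullMeasurableSet]
      rfl
    rw [h1]
    have hsub : {η : Env d | U ≤ X β h η (n - s)} ⊆
        {η | Real.exp U / 2 ≤ ZT β h η (slab97 d (n - s) e v r)} ∪
          {η | PolT β h η (slab97 d (n - s) e v r) < 1 / 2} := by
      intro η hη
      by_contra hcon
      rw [Set.mem_union, not_or] at hcon
      obtain ⟨h2, h3⟩ := hcon
      apply h2
      have h4 : (1 / 2 : ℝ) ≤ PolT β h η (slab97 d (n - s) e v r) := not_lt.1 h3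
      have h5 := le_ZT_of_PolT hd h4
      have h6 : Real.exp U ≤ Z β h η (n - s) := by
        have h7 : U ≤ Real.log (Z β h η (n - s)) := hη
        rwa [Real.le_log_iff_exp_le (Z_pos hd _ _ _ _)] at h7
      show Real.exp U / 2 ≤ _
      have h8 : Z β h η (n - s) = ZT β h η (Set.univ : Set (Fin (n - s) → Step d)) := rfl
      rw [← h8] at h5
      linarith
    have h9 := (measureReal_mono hsub (measure_ne_top (law d ρ) _)).trans
      (measureReal_union_le _ _)
    linarith
  have h1 := first97 (ρ := ρ) R hAe hBe C hCe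
  have hPC : (law d ρ).real {η | X β h η n ≤ L} ≤ (law d ρ).real C := by
    refine measureReal_mono ?_
    intro η hη
    have h2 : Real.log (Z β h η n) ≤ L := hη
    rw [Real.log_le_iff_le_exp (hz1 η)] at h2
    exact (ZT_mono β h η (Set.subset_univ _)).trans h2
  have hPU : (law d ρ).real {η | X β h η n ≤ L} - b' ≤ (law d ρ).real (C ∩ ⋃ z ∈ R, A z) := by
    have hsub : C ⊆ (C ∩ ⋃ z ∈ R, A z) ∪ {η | ¬ ∃ z ∈ R, Real.exp l ≤ wz97 β h η s z} := by
      intro η hη
      by_cases h2 : ∃ z ∈ R, Real.exp l ≤ wz97 β h η s z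
      · left
        refine ⟨hη, ?_⟩
        simp only [Set.mem_iUnion, exists_prop]
        exact h2
      · right
        exact h2
    have h3 := (measureReal_mono hsub (measure_ne_top (law d ρ) _)).trans
      (measureReal_union_le _ _)
    linarith
  have h2 : C ∩ ⋃ z ∈ R, (A z ∩ B z) ⊆ {η | PolT β h η (slab97 d n e v r) < 1 / 2} := by
    rintro η ⟨hη, hηU⟩
    by_contra hηT
    simp only [Set.mem_iUnion, exists_prop] at hηU
    obtain ⟨z, hz, hzA, hzB⟩ := hηU
    have g1 := le_ZT_of_PolT hd (not_lt.1 hηT)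
    have g2 : ZT β h η (slab97 d n e v r) ≤ Real.exp L := hη
    have g3 : Real.exp U / 2 ≤ ZT β h (sh s z η) (slab97 d (n - s) e v r) := hzB
    have g4 : Real.exp l ≤ wz97 β h η s z := hzA
    have g5 := wz97_mul_le hd β h η hs z
    have g6 : ZT β h (sh s z η) (slab97 d (n - s) e v r) ≤ Z β h (sh s z η) (n - s) :=
      ZT_mono β h _ (Set.subset_univ _)
    have g7 : Real.exp l * (Real.exp U / 2) ≤ 2 * Real.exp L := by
      have g8 : Real.exp l * (Real.exp U / 2) ≤ wz97 β h η s z * Z β h (sh s z η) (n - s) :=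
        mul_le_mul g4 (g3.trans g6) (by positivity) (wz97_nonneg _ _ _ _ _)
      have g9 : Z β h η n = ZT β h η (Set.univ : Set (Fin n → Step d)) := rfl
      rw [← g9] at g1
      linarith
    have g8 : Real.exp (l + U) ≤ Real.exp (L + 2 * Real.log 2) := by
      rw [Real.exp_add, Real.exp_add, two_mul, Real.exp_add, Real.exp_log two_pos]
      linarith
    have g9 := Real.exp_le_exp.1 g8
    linarith
  have h3 := (measureReal_mono h2 (measure_ne_top (law d ρ) _)).trans hT1
  calc (pU - b) * ((law d ρ).real {η | X β h η n ≤ L} - b')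
      ≤ (pU - b) * (law d ρ).real (C ∩ ⋃ z ∈ R, A z) :=
        mul_le_mul_of_nonneg_left hPU (by linarith)
    _ ≤ b := h1.trans h3

/-- The form with a quantile: `P (U ≤ log Z_(n-s)) ≥ 2 b`. -/
theorem join97_tail (hd : 0 < d) {β : ℝ} {h e v : Vec d} {s n : ℕ} (hs : s ≤ n)
    {R : Finset (Site d)} {r l L U pU b b' : ℝ} (hR : ∀ z ∈ R, 2 * r < off97 e v s z)
    (hU : pU ≤ (law d ρ).real {η | U ≤ X β h η (n - s)})
    (hT1 : (law d ρ).real {η | PolT β h η (slab97 d n e v r) < 1 / 2} ≤ b)
    (hT2 : (law d ρ).real {η | PolT β h η (slab97 d (n - s) e v r) < 1 / 2} ≤ b)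
    (hW : (law d ρ).real {η | ¬ ∃ z ∈ R, Real.exp l ≤ wz97 β h η s z} ≤ b')
    (hp0 : 0 < pU) (hpb : 2 * b ≤ pU) (hLU : L < l + U - 2 * Real.log 2) :
    (law d ρ).real {η | X β h η n ≤ L} ≤ b' + 2 * b / pU := by
  have hb0 : 0 ≤ b := measureReal_nonneg.trans hT1
  have h1 := join97 hd hs hR hU hT1 hT2 hW (by linarith) hLU
  have h2 : pU / 2 ≤ pU - b := by linarith
  rcases le_or_gt ((law d ρ).real {η | X β h η n ≤ L}) b' with h3 | h3
  · have h4 : 0 ≤ 2 * b / pU := by positivity
    linarith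
  · have h4 : pU / 2 * ((law d ρ).real {η | X β h η n ≤ L} - b') ≤ b :=
      (mul_le_mul_of_nonneg_right h2 (by linarith)).trans h1
    have h5 : (law d ρ).real {η | X β h η n ≤ L} - b' ≤ 2 * b / pU := by
      rw [le_div_iff₀ hp0]
      linarith
    linarith

/-- The heaviest site: the total weight of a finite set of sites. -/
lemma exists_wz97 {β : ℝ} {h : Vec d} {η : Env d} {s : ℕ} {R : Finset (Site d)} {l : ℝ}
    (hR : R.Nonempty) (hW : Real.exp l ≤ ∑ z ∈ R, wz97 β h η s z) :
    ∃ z ∈ R, Real.exp (l - Real.log R.card) ≤ wz97 β h η s z := by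
  by_contra hcon
  push Not at hcon
  have hc : (0 : ℝ) < R.card := by exact_mod_cast hR.card_pos
  have h1 : ∑ z ∈ R, wz97 β h η s z < ∑ _z ∈ R, Real.exp (l - Real.log R.card) :=
    Finset.sum_lt_sum_of_nonempty hR hcon
  rw [Finset.sum_const, nsmul_eq_mul, Real.exp_sub, Real.exp_log hc, mul_div_cancel₀ _ hc.ne'] at h1
  linarith

/-- The total weight of the sites of a set as a weight of walks. -/
lemma sum_wz97 (β : ℝ) (h : Vec d) (η : Env d) (s : ℕ) (R : Finset (Site d)) :
    ∑ z ∈ R, wz97 β h η s z = ZT β h η {q : Fin s → Step d | pos q s ∈ R} := by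
  classical
  unfold wz97 ZT
  rw [Finset.sum_comm]
  refine Finset.sum_congr rfl fun q _ => ?_
  by_cases hq : pos q s ∈ R
  · rw [if_pos (show q ∈ {q : Fin s → Step d | pos q s ∈ R} from hq),
      Finset.sum_eq_single (pos q s), if_pos (show q ∈ {q' : Fin s → Step d | pos q' s = pos q s}
        from rfl)]
    · intro z _ hz
      exact if_neg fun hc => hz (show pos q s = z from hc).symm
    · exact fun hc => absurd hq hc
  · rw [if_neg (show q ∉ {q : Fin s → Step d | pos q s ∈ R} from hq)]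
    refine Finset.sum_eq_zero fun z hz => if_neg fun hc => hq ?_
    rw [show pos q s = z from hc]
    exact hz

/-- The tube of the problem is in every slab. -/
lemma tube_subset_slab97 {n : ℕ} {e : Vec d} (he : ‖e‖ ≤ 1) (v : Vec d) (r : ℝ) :
    tube d n v r ⊆ slab97 d n e v r := by
  intro s hs i hi
  refine (abs_real_inner_le_norm _ _).trans ?_
  exact (mul_le_of_le_one_left (norm_nonneg _) he).trans (hs i hi)

end Pool.Agent.W_7d29a1_D2
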