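import Pool.Agent.W_7d29a1_D2.Crs74
import Pool.Agent.W_7d29a1_D2.Defs46
import Pool.Agent.W_7d29a1_D2.JoinM97

/-!
The crossing price in the letters of `Defs46.lean` and `JoinM97.lean`.
-/

namespace Pool.Agent.W_7d29a1_D2

open MeasureTheory ProbabilityTheory Filter Topology Pool.Agent.W_MP_7d29a1_pr
  Pool.Agent.W_7d29a1_h46 Pool.Agent.W_7d29a1_h46u Pool.Agent.W_7d29a1_D2.Crs74

variable {d : ℕ}

lemma off74_eq (e v : Vec d) (i : ℕ) (z : Site d) : off74 e (inner ℝ e v) i z = off97 e v i z := by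
  unfold off74 off97
  rw [inner_sub_right, real_inner_smul_right]

lemma slb_eq (n : ℕ) (e v : Vec d) (R : ℝ) : slb d n e (inner ℝ e v) R = slab97 d n e v R := by
  unfold slb slab97
  simp only [off74_eq]

/-- The hypotheses of the crossing price at the tilts `h` and `h + r`, `L = 4 R`. -/
structure CrsV {d : ℕ} (ρ : Measure ℝ) (β : ℝ) (h v r : Vec d) (L R u : ℝ) (m : ℕ) (η : Env d) :
    Prop where
  up0 : X β h η m ≤ m * lam ρ β h + u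
  lo1 : m * lam ρ β (h + r) - u ≤ X β (h + r) η m
  up1 : ∀ i ≤ m, ∀ y ∈ boxF d m, X β (h + r) (sh i y η) (m - i) ≤
    ((m - i : ℕ) : ℝ) * lam ρ β (h + r) + u
  lo0 : ∀ i ≤ m, ∀ y ∈ boxF d m, ((m - i : ℕ) : ℝ) * lam ρ β h - u ≤ X β h (sh i y η) (m - i)
  tub : ∀ i ≤ m, ∀ y ∈ boxF d m,
    1 / 2 ≤ PolT β h (sh i y η) (slab97 d (m - i) (‖r‖⁻¹ • r) v R)

/-- The crossing price. -/
theorem crsB74 (hd : 0 < d) {ρ : Measure ℝ} {β : ℝ} {h v r : Vec d} {L R u b : ℝ} {m : ℕ}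
    {η : Env d} (hr : 0 < ‖r‖) (hb : 1 + ‖v‖ ≤ b) (hg : 0 ≤ gap (lam ρ β) h v r) (hL : 0 ≤ L)
    (hgL : ‖r‖ * L + 2 * u + 1 ≤ m * gap (lam ρ β) h v r) (H : CrsV ρ β h v r L R u m η) :
    ∃ z ∈ boxF d m, L - R ≤ off97 (‖r‖⁻¹ • r) v m z ∧ off97 (‖r‖⁻¹ • r) v m z ≤ L + b + R ∧
      Real.exp (m * lam ρ β h - 3 * u - ‖r‖ * (L + b)) / (4 * (2 * m + 1) ^ d) ≤
        wz97 β h η m z := by
  have he : ‖(‖r‖⁻¹ • r : Vec d)‖ = 1 := by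
    rw [norm_smul, norm_inv, norm_norm, inv_mul_cancel₀ hr.ne']
  have hre : h + ‖r‖ • (‖r‖⁻¹ • r) = h + r := by
    rw [smul_smul, mul_inv_cancel₀ hr.ne', one_smul]
  have hw : ‖r‖ * inner ℝ (‖r‖⁻¹ • r) v = inner ℝ v r := by
    rw [real_inner_smul_left, ← mul_assoc, mul_inv_cancel₀ hr.ne', one_mul, real_inner_comm]
  have hlam : lam ρ β h + ‖r‖ * inner ℝ (‖r‖⁻¹ • r) v + gap (lam ρ β) h v r = lam ρ β (h + r) := by
    rw [hw]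
    unfold gap
    ring
  have hC : CrsB β h (‖r‖⁻¹ • r) ‖r‖ (inner ℝ (‖r‖⁻¹ • r) v) (gap (lam ρ β) h v r) (lam ρ β h)
      L R u b m η := by
    refine ⟨hr.le, hg, hL, he.le, ?_, H.up0, ?_, ?_, H.lo0, ?_, hgL⟩
    · have h1 := abs_real_inner_le_norm (‖r‖⁻¹ • r) v
      rw [he, one_mul] at h1
      linarith
    · rw [hlam, hre]
      exact H.lo1
    · rw [hlam, hre]
      exact H.up1
    · intro i hi y hy
      rw [slb_eq]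
      exact H.tub i hi y hy
  obtain ⟨z, hz, h1, h2, h3⟩ := crsB_pt hd hC
  rw [off74_eq] at h1 h2
  exact ⟨z, hz, h1, h2, h3⟩

/-- The crossing price for `‖v‖ ≤ 1`. -/
theorem crsV74 (hd : 0 < d) {ρ : Measure ℝ} {β : ℝ} {h v r : Vec d} {L R u : ℝ} {m : ℕ}
    {η : Env d} (hr : 0 < ‖r‖) (hv : ‖v‖ ≤ 1) (hg : 0 ≤ gap (lam ρ β) h v r) (hL : 0 ≤ L)
    (hgL : ‖r‖ * L + 2 * u + 1 ≤ m * gap (lam ρ β) h v r) (H : CrsV ρ β h v r L R u m η) :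
    ∃ z ∈ boxF d m, L - R ≤ off97 (‖r‖⁻¹ • r) v m z ∧ off97 (‖r‖⁻¹ • r) v m z ≤ L + 2 + R ∧
      Real.exp (m * lam ρ β h - 3 * u - ‖r‖ * (L + 2)) / (4 * (2 * m + 1) ^ d) ≤
        wz97 β h η m z :=
  crsB74 hd hr (by linarith) hg hL hgL H

end Pool.Agent.W_7d29a1_D2
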