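import Pool.Agent.W_7d29a1_D2.Defs46

/-!
# The second inequality at a tilt with infinitely many good scales

`den67`, `expL67`: if at infinitely many scales the free energy is at least of order `‖r‖ ^ p`
above its tangent plane in some direction, then `(1 + (p - 1) χ*) χ ≤ p ν* χ*`.
-/

namespace Pool.Agent.W_7d29a1_D2.K67

open MeasureTheory ProbabilityTheory Filter Topology Pool.Agent.W_MP_7d29a1_pr
  Pool.Agent.W_7d29a1_h46 Pool.Agent.W_7d29a1_h46u Pool.Agent.W_7d29a1_D2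

/-- The choice of the length `n` and of the joining time `m` for the scale `s`. -/
theorem scale67 {a x b c C ε σ : ℝ} (ha : 0 < a) (hx : 0 < x) (hx1 : x < 1) (hb : 1 < b)
    (hc : 0 < c) (hC : 0 ≤ C) (hε : 0 < ε) (hσ : σ = 2 * ε)
    (hσ1 : σ < a * (1 - x) / (1 + (b - 1) * x)) (hθ : b * a / (1 + (b - 1) * x) < 1) (N0 : ℕ) :
    ∃ s0 : ℝ, 0 < s0 ∧ ∀ s : ℝ, 0 < s → s < s0 → ∃ n m : ℕ, N0 ≤ n ∧ 1 ≤ m ∧ 2 * m ≤ n ∧
      4 * s * (n : ℝ) ^ a + C * (m : ℝ) ^ x * (n : ℝ) ^ ε ≤ m * (c * s ^ b) ∧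
      s * (n : ℝ) ^ a + (m : ℝ) ^ x * (n : ℝ) ^ ε ≤
        4 * (n : ℝ) ^ (b * a / (1 + (b - 1) * x) * x + σ) := by
  set D : ℝ := 1 + (b - 1) * x with hD
  have hD0 : 0 < D := by
    have : 0 < (b - 1) * x := mul_pos (by linarith) hx
    linarith
  set θ : ℝ := b * a / D with hθd
  set τ0 : ℝ := a * (1 - x) / D with hτ0
  set τ : ℝ := τ0 - σ with hτ
  have hθ0 : 0 < θ := by positivity
  have hτpos : 0 < τ := by linarith
  have hσ0 : 0 < σ := by linarith
  -- identities between the exponents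
  have e1 : a - τ0 = θ * x := by
    rw [hτ0, hθd]
    field_simp
    rw [hD]
    ring
  have e2 : θ - b * τ0 = θ * x := by
    rw [hτ0, hθd]
    field_simp
    ring
  -- large `n`
  have l1 : Tendsto (fun n : ℕ => (n : ℝ) ^ ((b - 1) * σ)) atTop atTop :=
    (tendsto_rpow_atTop (mul_pos (by linarith) hσ0)).comp tendsto_natCast_atTop_atTop
  have l2 : Tendsto (fun n : ℕ => (n : ℝ) ^ (b * σ - ε)) atTop atTop := by
    refine (tendsto_rpow_atTop ?_).comp tendsto_natCast_atTop_atTop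
    nlinarith
  have l3 : Tendsto (fun n : ℕ => (n : ℝ) ^ (1 - θ)) atTop atTop :=
    (tendsto_rpow_atTop (by linarith)).comp tendsto_natCast_atTop_atTop
  obtain ⟨N1, hN1⟩ := eventually_atTop.1 (((l1.eventually_ge_atTop (8 * 2 ^ τ / c)).and
    (l2.eventually_ge_atTop (4 * C / c))).and ((l3.eventually_ge_atTop 4).and
    (eventually_ge_atTop (max N0 1))))
  -- the threshold for `s`
  refine ⟨min 1 (((N1 : ℝ) + 1) ^ (-τ)), lt_min one_pos (Real.rpow_pos_of_pos (by positivity) _),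
    fun s hs hs0 => ?_⟩
  have hs1 : s < 1 := hs0.trans_le (min_le_left _ _)
  have hs2 : s < ((N1 : ℝ) + 1) ^ (-τ) := hs0.trans_le (min_le_right _ _)
  set y : ℝ := s ^ (-(1 / τ)) with hy
  have hy1 : 1 ≤ y := by
    rw [hy, Real.rpow_neg hs.le]
    refine (one_le_inv₀ (Real.rpow_pos_of_pos hs _)).2 ?_
    exact Real.rpow_le_one hs.le hs1.le (by positivity)
  have hy0 : 0 < y := by linarith
  have hyN : (N1 : ℝ) + 1 ≤ y := by
    have h1 : (((N1 : ℝ) + 1) ^ (-τ)) ^ (-(1 / τ)) ≤ s ^ (-(1 / τ)) :=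
      Real.rpow_le_rpow_of_nonpos hs hs2.le (by
        rw [neg_nonpos]
        positivity)
    have h2 : (((N1 : ℝ) + 1) ^ (-τ)) ^ (-(1 / τ)) = (N1 : ℝ) + 1 := by
      rw [← Real.rpow_mul (by positivity)]
      have : -τ * -(1 / τ) = 1 := by
        field_simp
      rw [this, Real.rpow_one]
    rw [h2] at h1
    exact h1
  have hyτ : y ^ (-τ) = s := by
    rw [hy, ← Real.rpow_mul hs.le]
    have : -(1 / τ) * -τ = 1 := by
      field_simp
    rw [this, Real.rpow_one]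
  set n : ℕ := ⌈y⌉₊ with hn
  have hn1 : y ≤ n := Nat.le_ceil y
  have hn2 : (n : ℝ) ≤ 2 * y := by
    have := Nat.ceil_lt_add_one hy0.le
    rw [← hn] at this
    linarith
  have hnN : N1 ≤ n := by
    have h1 : (N1 : ℝ) ≤ n := by linarith
    exact_mod_cast h1
  have hnr1 : (1 : ℝ) ≤ n := by linarith
  have hnr0 : (0 : ℝ) < n := by linarith
  obtain ⟨⟨g1, g2⟩, g3, g4⟩ := hN1 n hnN
  -- the size of `s`
  have hsl : (n : ℝ) ^ (-τ) ≤ s := by
    rw [← hyτ]
    exact Real.rpow_le_rpow_of_nonpos hy0 hn1 (by linarith)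
  have hsu : s ≤ 2 ^ τ * (n : ℝ) ^ (-τ) := by
    have h1 : (n : ℝ) / 2 ≤ y := by linarith
    have h2 : y ^ (-τ) ≤ ((n : ℝ) / 2) ^ (-τ) :=
      Real.rpow_le_rpow_of_nonpos (by positivity) h1 (by linarith)
    rw [hyτ, Real.div_rpow hnr0.le (by norm_num)] at h2
    refine h2.trans (le_of_eq ?_)
    rw [Real.rpow_neg (by norm_num : (0 : ℝ) ≤ 2)]
    field_simp
  -- the joining time
  have hnθ1 : 1 ≤ (n : ℝ) ^ θ := Real.one_le_rpow hnr1 hθ0.le
  set m : ℕ := ⌈(n : ℝ) ^ θ⌉₊ with hm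
  have hm1 : (n : ℝ) ^ θ ≤ m := Nat.le_ceil _
  have hm2 : (m : ℝ) ≤ 2 * (n : ℝ) ^ θ := by
    have := Nat.ceil_lt_add_one (show 0 ≤ (n : ℝ) ^ θ by linarith)
    rw [← hm] at this
    linarith
  have hm0 : (1 : ℝ) ≤ m := hnθ1.trans hm1
  have hmn : 2 * (m : ℝ) ≤ n := by
    have h1 : (n : ℝ) = (n : ℝ) ^ θ * (n : ℝ) ^ (1 - θ) := by
      rw [← Real.rpow_add hnr0]
      have : θ + (1 - θ) = 1 := by ring
      rw [this, Real.rpow_one]
    have h2 : (n : ℝ) ^ θ * 4 ≤ (n : ℝ) ^ θ * (n : ℝ) ^ (1 - θ) :=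
      mul_le_mul_of_nonneg_left g3 (by linarith)
    linarith
  have hmx : (m : ℝ) ^ x ≤ 2 * (n : ℝ) ^ (θ * x) := by
    have h1 : (m : ℝ) ^ x ≤ (2 * (n : ℝ) ^ θ) ^ x := Real.rpow_le_rpow (by linarith) hm2 hx.le
    have h2 : (2 * (n : ℝ) ^ θ) ^ x = 2 ^ x * (n : ℝ) ^ (θ * x) := by
      rw [Real.mul_rpow (by norm_num) (by linarith), ← Real.rpow_mul hnr0.le]
    have h3 : (2 : ℝ) ^ x ≤ 2 := by
      have := Real.rpow_le_rpow_of_exponent_le (show (1 : ℝ) ≤ 2 by norm_num) hx1.le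
      rwa [Real.rpow_one] at this
    rw [h2] at h1
    exact h1.trans (mul_le_mul_of_nonneg_right h3 (Real.rpow_nonneg hnr0.le _))
  have hmxε : (m : ℝ) ^ x * (n : ℝ) ^ ε ≤ 2 * (n : ℝ) ^ (θ * x + ε) := by
    rw [Real.rpow_add hnr0]
    have := mul_le_mul_of_nonneg_right hmx (Real.rpow_nonneg hnr0.le ε)
    linarith
  have hsna : s * (n : ℝ) ^ a ≤ 2 ^ τ * (n : ℝ) ^ (θ * x + σ) := by
    have h1 := mul_le_mul_of_nonneg_right hsu (Real.rpow_nonneg hnr0.le a)
    have h2 : 2 ^ τ * (n : ℝ) ^ (-τ) * (n : ℝ) ^ a = 2 ^ τ * (n : ℝ) ^ (θ * x + σ) := by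
      rw [mul_assoc, ← Real.rpow_add hnr0]
      congr 2
      rw [hτ]
      linarith
    linarith
  refine ⟨n, m, ?_, ?_, ?_, ?_, ?_⟩
  · exact (le_max_left _ _).trans g4
  · exact_mod_cast hm0
  · exact_mod_cast hmn
  · -- the main inequality
    have h1 : c * (n : ℝ) ^ (θ - b * τ) ≤ m * (c * s ^ b) := by
      have h2 : ((n : ℝ) ^ (-τ)) ^ b ≤ s ^ b :=
        Real.rpow_le_rpow (Real.rpow_nonneg hnr0.le _) hsl (by linarith)
      rw [← Real.rpow_mul hnr0.le] at h2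
      have h3 : (n : ℝ) ^ θ * (n : ℝ) ^ (-τ * b) ≤ m * s ^ b :=
        mul_le_mul hm1 h2 (Real.rpow_nonneg hnr0.le _) (by linarith)
      rw [← Real.rpow_add hnr0] at h3
      have h4 : θ + -τ * b = θ - b * τ := by ring
      rw [h4] at h3
      calc c * (n : ℝ) ^ (θ - b * τ) ≤ c * (m * s ^ b) := mul_le_mul_of_nonneg_left h3 hc.le
        _ = m * (c * s ^ b) := by ring
    have h5 : 4 * s * (n : ℝ) ^ a ≤ c / 2 * (n : ℝ) ^ (θ - b * τ) := by
      have h6 : (n : ℝ) ^ (θ - b * τ) = (n : ℝ) ^ (θ * x + σ) * (n : ℝ) ^ ((b - 1) * σ) := by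
        rw [← Real.rpow_add hnr0]
        congr 1
        rw [hτ]
        linear_combination e2
      have h7 : 8 * 2 ^ τ ≤ c * (n : ℝ) ^ ((b - 1) * σ) := by
        rw [div_le_iff₀ hc] at g1
        linarith
      have h8 := mul_le_mul_of_nonneg_left h7 (Real.rpow_nonneg hnr0.le (θ * x + σ))
      rw [h6]
      linarith
    have h9 : C * (m : ℝ) ^ x * (n : ℝ) ^ ε ≤ c / 2 * (n : ℝ) ^ (θ - b * τ) := by
      have h6 : (n : ℝ) ^ (θ - b * τ) = (n : ℝ) ^ (θ * x + ε) * (n : ℝ) ^ (b * σ - ε) := by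
        rw [← Real.rpow_add hnr0]
        congr 1
        rw [hτ]
        linear_combination e2
      have h7 : 4 * C ≤ c * (n : ℝ) ^ (b * σ - ε) := by
        rw [div_le_iff₀ hc] at g2
        linarith
      have h8 := mul_le_mul_of_nonneg_left h7 (Real.rpow_nonneg hnr0.le (θ * x + ε))
      have h10 := mul_le_mul_of_nonneg_left hmxε hC
      rw [h6]
      linarith
    linarith
  · have h1 : (n : ℝ) ^ (θ * x + ε) ≤ (n : ℝ) ^ (θ * x + σ) :=
      Real.rpow_le_rpow_of_exponent_le hnr1 (by linarith)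
    have h2 : (2 : ℝ) ^ τ ≤ 2 := by
      have h3 : τ ≤ 1 := by
        have h4 : b * τ0 = θ - θ * x := by linarith
        have h5 : θ - θ * x ≤ 1 := by
          have : 0 < θ * x := by positivity
          linarith
        have h6 : τ0 ≤ b * τ0 := by
          have : 0 < τ0 := by linarith
          nlinarith
        linarith
      have := Real.rpow_le_rpow_of_exponent_le (show (1 : ℝ) ≤ 2 by norm_num) h3
      rwa [Real.rpow_one] at this
    have h3 := mul_le_mul_of_nonneg_right h2 (Real.rpow_nonneg hnr0.le (θ * x + σ))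
    linarith

variable {d : ℕ} {Ω : Type*} [MeasurableSpace Ω] {μ : Measure Ω} [IsProbabilityMeasure μ]
  {ρ : Measure ℝ} [IsProbabilityMeasure ρ] {ω : ℕ × Site d → Ω → ℝ} {β : ℝ}

/-- The variance as a second moment under `law`. -/
theorem var67 (hd : 0 < d) (hω : IID μ ρ ω) (hρ : EM ρ) (h : Vec d) (n : ℕ) :
    Var[fun y => Real.log (Zn β h (fun p => ω p y) n); μ] =
      ∫ η, |X β h η n - A ρ β h n| ^ 2 ∂(law d ρ) := by
  rw [variance_eq_integral (VarU_measurable β h n hω).aemeasurable,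
    ← StrA_mom (β := β) hd hω hρ h n 2]
  simp only [sq_abs]

/-- An upper bound of the variance for infinitely many lengths bounds `chiT`. -/
theorem chiT67 {h : Vec d} {κ K : ℝ} (hκ : 0 ≤ κ)
    (H : ∀ N0 : ℕ, ∃ n : ℕ, N0 ≤ n ∧
      Var[fun y => Real.log (Zn β h (fun p => ω p y) n); μ] ≤ (K * (n : ℝ) ^ κ) ^ 2) :
    chiT μ β ω h ≤ κ := by
  unfold chiT
  rcases Set.eq_empty_or_nonempty {x : ℝ | 0 < x ∧ ∀ᶠ n : ℕ in Filter.atTop,
    (n : ℝ) ^ (2 * x) ≤ Var[fun y => Real.log (Zn β h (fun p => ω p y) n); μ]} with hT | hT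
  · rw [hT, Real.sSup_empty]
    exact hκ
  · refine csSup_le hT ?_
    rintro y ⟨hy0, hy⟩
    by_contra hcon
    have hxy : κ < y := not_le.1 hcon
    have l1 : Tendsto (fun n : ℕ => (n : ℝ) ^ (2 * (y - κ))) atTop atTop :=
      (tendsto_rpow_atTop (by linarith)).comp tendsto_natCast_atTop_atTop
    obtain ⟨N0, hN0⟩ := eventually_atTop.1 (hy.and ((l1.eventually_gt_atTop (K ^ 2)).and
      (eventually_ge_atTop 1)))
    obtain ⟨n, hn, hV⟩ := H N0
    obtain ⟨h1, h2, h3⟩ := hN0 n hn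
    have hn0 : (0 : ℝ) < n := by exact_mod_cast h3
    have h4 : (n : ℝ) ^ (2 * y) = (n : ℝ) ^ (2 * (y - κ)) * ((n : ℝ) ^ κ) ^ 2 := by
      rw [← Real.rpow_natCast ((n : ℝ) ^ κ) 2, ← Real.rpow_mul hn0.le, ← Real.rpow_add hn0]
      congr 1
      push_cast
      ring
    have h5 : (K * (n : ℝ) ^ κ) ^ 2 = K ^ 2 * ((n : ℝ) ^ κ) ^ 2 := by ring
    have h6 : 0 < ((n : ℝ) ^ κ) ^ 2 := pow_pos (Real.rpow_pos_of_pos hn0 _) 2
    have h7 := h1.trans hV
    rw [h4, h5] at h7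
    have h8 := le_of_mul_le_mul_right h7 h6
    linarith

/-- The strong fluctuation exponent is at most `1 / 2`. -/
theorem chiS_le_half67 (hd : 0 < d) (hω : IID μ ρ ω) (hρ : EM ρ) (h : Vec d) :
    chiS μ β ω h ≤ 1 / 2 := chiS_le_half hd hω hρ h

/-- The exponent `nuS` is nonnegative. -/
theorem nuS_nonneg67 (h v : Vec d) : 0 ≤ nuS μ β ω h v :=
  Real.sInf_nonneg fun _ ha => ha.1.le

/-- The second inequality at a tilt with infinitely many good scales. -/
theorem den67 (hd : 0 < d) (hω : IID μ ρ ω) (hρ : EM ρ) {h v : Vec d}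
    (H : ∀ a x : ℝ, 0 < a → 0 < x → x < 1 → Fl ρ β h x → TbF ρ β h v a → CoreP ρ β h v a x)
    {b : ℝ} (hb : 1 < b) (hs : LoG (lam ρ β) h v b) :
    (1 + (b - 1) * chiS μ β ω h) * chiT μ β ω h ≤ b * nuS μ β ω h v * chiS μ β ω h := by
  obtain ⟨c, hc, hs⟩ := hs
  have hχ1 := chiT_le_chiS (β := β) hd hω hρ h
  have hne : (chiSetS μ β ω h).Nonempty :=
    ⟨1 / 2, (mem_chiSetS hd hω hρ h _).2 ⟨by norm_num, Fl_half hd hρ β h⟩⟩
  have hχ0 : 0 ≤ chiS μ β ω h := Real.sInf_nonneg fun _ hx => hx.1.le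
  have hχT0 : 0 ≤ chiT μ β ω h := Real.sSup_nonneg fun _ hx => hx.1.le
  have hν0 := nuS_nonneg67 (μ := μ) (β := β) (ω := ω) h v
  -- the inequality for members of the sets
  have key : ∀ a ∈ nuSetS μ β ω h v, ∀ x ∈ chiSetS μ β ω h, x < 1 →
      (1 + (b - 1) * x) * chiT μ β ω h ≤ b * a * x := by
    intro a ha x hx hx1
    have ha0 : 0 < a := ha.1
    have hx0 : 0 < x := hx.1
    have hD0 : 0 < 1 + (b - 1) * x := by
      have : 0 < (b - 1) * x := mul_pos (by linarith) hx0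
      linarith
    have hTx : chiT μ β ω h ≤ x := hχ1.trans (csInf_le ⟨0, fun y hy => hy.1.le⟩ hx)
    rcases lt_or_ge (b * a / (1 + (b - 1) * x)) 1 with hθ | hθ
    · -- the main case
      set θ : ℝ := b * a / (1 + (b - 1) * x) with hθd
      have hτ : 0 < a * (1 - x) / (1 + (b - 1) * x) :=
        div_pos (mul_pos ha0 (by linarith)) hD0
      have hlim : ∀ ε : ℝ, 0 < ε → 2 * ε < a * (1 - x) / (1 + (b - 1) * x) →
          chiT μ β ω h ≤ θ * x + 2 * ε := by
        intro ε hε hε1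
        obtain ⟨_, hF⟩ := (mem_chiSetS hd hω hρ h x).1 hx
        obtain ⟨_, hT⟩ := (mem_nuSetS hω h v a).1 ha
        obtain ⟨δ, hδ, C, hC, hcore⟩ := H a x ha0 hx0 hx1 hF hT 2 ε hε
        refine chiT67 (K := 4 * C) (by positivity) fun N0 => ?_
        obtain ⟨s0, hs0, hscale⟩ := scale67 ha0 hx0 hx1 hb hc hC hε rfl hε1 hθ N0
        have hmin : 0 < min s0 δ / 2 := half_pos (lt_min hs0 hδ)
        obtain ⟨u, hu0, hu1, hu2⟩ := hs (min s0 δ / 2) hmin
        have hu3 : ‖u‖ < min s0 δ := by linarith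
        obtain ⟨n, m, hn, hm, hmn, h1, h2⟩ :=
          hscale ‖u‖ hu0 (hu3.trans_le (min_le_left _ _))
        refine ⟨n, hn, ?_⟩
        rw [var67 hd hω hρ]
        have h3 := hcore n m hm hmn u hu0 (hu3.trans_le (min_le_right _ _)) (by
          have := mul_le_mul_of_nonneg_left hu2 (Nat.cast_nonneg (α := ℝ) m)
          linarith)
        refine h3.trans ?_
        have h4 : 0 ≤ ‖u‖ * (n : ℝ) ^ a + (m : ℝ) ^ x * (n : ℝ) ^ ε := by positivity
        refine pow_le_pow_left₀ (mul_nonneg hC h4) ?_ 2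
        have := mul_le_mul_of_nonneg_left h2 hC
        linarith
      have hle : chiT μ β ω h ≤ θ * x := by
        refine le_of_forall_pos_le_add fun η hη => ?_
        set ε : ℝ := min (η / 2) (a * (1 - x) / (1 + (b - 1) * x) / 4) with hε
        have hε0 : 0 < ε := lt_min (by positivity) (by positivity)
        have hε1 : ε ≤ η / 2 := min_le_left _ _
        have hε2 : ε ≤ a * (1 - x) / (1 + (b - 1) * x) / 4 := min_le_right _ _
        have := hlim ε hε0 (by linarith)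
        linarith
      have h5 := mul_le_mul_of_nonneg_left hle hD0.le
      refine h5.trans (le_of_eq ?_)
      rw [hθd]
      field_simp
    · have h1 : 1 + (b - 1) * x ≤ b * a := by
        rwa [le_div_iff₀ hD0, one_mul] at hθ
      have h2 := mul_le_mul h1 hTx hχT0 (by positivity)
      exact h2
  -- the infimum over `a`
  have key2 : ∀ x ∈ chiSetS μ β ω h, x < 1 →
      (1 + (b - 1) * x) * chiT μ β ω h ≤ b * nuS μ β ω h v * x := by
    intro x hx hx1
    have hx0 : 0 < x := hx.1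
    have hbx : 0 < b * x := mul_pos (by linarith) hx0
    have h1 : (1 + (b - 1) * x) * chiT μ β ω h / (b * x) ≤ nuS μ β ω h v := by
      refine le_csInf ⟨2, StrB_two_mem hd ω β h v⟩ fun a ha => ?_
      rw [div_le_iff₀ hbx]
      have := key a ha x hx hx1
      linarith
    rw [div_le_iff₀ hbx] at h1
    linarith
  -- the infimum over `x`
  set T : ℝ := chiT μ β ω h with hT
  set ν : ℝ := nuS μ β ω h v with hν
  rcases hχT0.eq_or_lt with h0 | h0
  · rw [← h0, mul_zero]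
    positivity
  · have h1 : ∀ x ∈ chiSetS μ β ω h, x < 1 → T ≤ x * (b * ν - (b - 1) * T) := by
      intro x hx hx1
      have := key2 x hx hx1
      nlinarith
    have hhalf := chiS_le_half67 hd hω hρ (μ := μ) (β := β) (ω := ω) h
    obtain ⟨x1, hx1, hx1l⟩ := exists_lt_of_csInf_lt hne (show chiS μ β ω h < 1 by linarith)
    have hK : 0 < b * ν - (b - 1) * T := by
      have h2 := h1 x1 hx1 hx1l
      by_contra hcon
      have h3 := mul_nonpos_of_nonneg_of_nonpos hx1.1.le (not_lt.1 hcon)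
      linarith
    have h4 : T / (b * ν - (b - 1) * T) ≤ chiS μ β ω h := by
      refine le_csInf hne fun x hx => ?_
      rw [div_le_iff₀ hK]
      rcases lt_or_ge x 1 with hxl | hxl
      · exact h1 x hx hxl
      · have h5 := h1 x1 hx1 hx1l
        have h6 : x1 * (b * ν - (b - 1) * T) ≤ x * (b * ν - (b - 1) * T) :=
          mul_le_mul_of_nonneg_right (by linarith) hK.le
        linarith
    rw [div_le_iff₀ hK] at h4
    nlinarith

/-- Leaf E1 of the table (`expL16`). -/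
theorem expL67 (hd : 0 < d) (hω : IID μ ρ ω) (hρ : EM ρ) {h v : Vec d}
    (H : ∀ a x : ℝ, 0 < a → 0 < x → x < 1 → Fl ρ β h x → TbF ρ β h v a → CoreP ρ β h v a x)
    {p : ℝ} (hp : 1 ≤ p) (hs : LoG (lam ρ β) h v p) :
    (1 + (p - 1) * chiS μ β ω h) * chiT μ β ω h ≤ p * nuS μ β ω h v * chiS μ β ω h := by
  rcases hp.eq_or_lt with rfl | hp1
  · -- `p = 1`
    have h1 : ∀ b : ℝ, 1 < b →
        (1 + (b - 1) * chiS μ β ω h) * chiT μ β ω h ≤ b * nuS μ β ω h v * chiS μ β ω h := by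
      intro b hb
      refine den67 hd hω hρ H hb ?_
      obtain ⟨c, hc, hs⟩ := hs
      refine ⟨c, hc, fun δ hδ => ?_⟩
      obtain ⟨r, hr0, hr1, hr2⟩ := hs (min δ 1) (lt_min hδ one_pos)
      refine ⟨r, hr0, hr1.trans (min_le_left _ _), le_trans ?_ hr2⟩
      refine mul_le_mul_of_nonneg_left ?_ hc.le
      exact Real.rpow_le_rpow_of_exponent_ge hr0 (hr1.trans (min_le_right _ _)) hb.le
    have l1 : Tendsto (fun b : ℝ => (1 + (b - 1) * chiS μ β ω h) * chiT μ β ω h) (𝓝[>] 1)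
        (𝓝 ((1 + (1 - 1) * chiS μ β ω h) * chiT μ β ω h)) := by
      refine (Continuous.tendsto ?_ 1).mono_left nhdsWithin_le_nhds
      fun_prop
    have l2 : Tendsto (fun b : ℝ => b * nuS μ β ω h v * chiS μ β ω h) (𝓝[>] 1)
        (𝓝 (1 * nuS μ β ω h v * chiS μ β ω h)) := by
      refine (Continuous.tendsto ?_ 1).mono_left nhdsWithin_le_nhds
      fun_prop
    refine le_of_tendsto_of_tendsto l1 l2 ?_
    filter_upwards [self_mem_nhdsWithin] with b hb
    exact h1 b hb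
  · exact den67 hd hω hρ H hp1 hs

end Pool.Agent.W_7d29a1_D2.K67
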