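import Pool.Agent.W_7d29a1_D2.Baire21
import Pool.Agent.W_7d29a1_D2.Defs46

/-!
Density points: at almost every tilt the fluctuation bound at the tilt alone holds, with the same
constants, at tilts which come close to `h + r` up to a small multiple of `‖r‖` (helper21).
-/

namespace Pool.Agent.W_7d29a1_D2

open MeasureTheory ProbabilityTheory Filter Topology Metric Pool.Agent.W_MP_7d29a1_pr
  Pool.Agent.W_7d29a1_h46 Pool.Agent.W_7d29a1_h46u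

variable {d : ℕ} {ρ : Measure ℝ} [IsProbabilityMeasure ρ] {β : ℝ}

/-- Almost every point of a set is approached by the set in every direction. -/
theorem dens_pts21 (S : Set (Vec d)) : ∀ᵐ x ∂((volume : Measure (Vec d)).restrict S),
    ∀ ε > 0, ∃ δ > 0, ∀ r : Vec d, 0 < ‖r‖ → ‖r‖ < δ →
      ∃ k ∈ S, ‖k - (x + r)‖ ≤ ε * ‖r‖ := by
  have h1 : ∀ K : ℕ, ∀ᵐ x ∂((volume : Measure (Vec d)).restrict S),
      ∀ (w : Vec d → Vec d) (δ : Vec d → ℝ), Tendsto δ (𝓝[≠] 0) (𝓝[>] 0) →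
        (∀ᶠ j in 𝓝[≠] (0 : Vec d), x ∈ closedBall (w j) ((K : ℝ) * δ j)) →
        Tendsto (fun j => volume (S ∩ closedBall (w j) (δ j)) / volume (closedBall (w j) (δ j)))
          (𝓝[≠] (0 : Vec d)) (𝓝 1) := by
    intro K
    filter_upwards [IsUnifLocDoublingMeasure.ae_tendsto_measure_inter_div
      (volume : Measure (Vec d)) S (K : ℝ)] with x hx w δ h2 h3 using hx w δ h2 h3
  filter_upwards [ae_all_iff.2 h1] with x hx ε hε
  obtain ⟨K, hK⟩ := exists_nat_gt (1 / ε)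
  have hK0 : (0 : ℝ) < K := lt_trans (by positivity) hK
  have hKε : 1 / (K : ℝ) ≤ ε := by
    rw [div_le_iff₀ hK0]
    rw [div_lt_iff₀ hε] at hK
    linarith
  have h2 : Tendsto (fun r : Vec d => ‖r‖ / K) (𝓝[≠] 0) (𝓝[>] 0) := by
    rw [tendsto_nhdsWithin_iff]
    constructor
    · have h3 : Tendsto (fun r : Vec d => ‖r‖ / K) (𝓝 0) (𝓝 (‖(0 : Vec d)‖ / K)) :=
        (continuous_norm.div_const _).tendsto 0
      rw [norm_zero, zero_div] at h3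
      exact h3.mono_left nhdsWithin_le_nhds
    · filter_upwards [self_mem_nhdsWithin] with r hr
      exact div_pos (norm_pos_iff.2 hr) hK0
  have h3 := hx K (fun r => x + r) (fun r => ‖r‖ / K) h2 (Eventually.of_forall fun r => by
    rw [mem_closedBall, dist_eq_norm]
    have : x - (x + r) = -r := by abel
    rw [this, norm_neg, mul_div_cancel₀ _ hK0.ne'])
  have h4 : ∀ᶠ r in 𝓝[≠] (0 : Vec d),
      volume (S ∩ closedBall (x + r) (‖r‖ / K)) / volume (closedBall (x + r) (‖r‖ / K)) ≠ 0 := by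
    have h5 : ∀ᶠ a in 𝓝 (1 : ENNReal), a ≠ 0 := isOpen_ne.mem_nhds one_ne_zero
    exact h3.eventually h5
  rw [eventually_nhdsWithin_iff, Metric.eventually_nhds_iff] at h4
  obtain ⟨δ, hδ, h6⟩ := h4
  refine ⟨δ, hδ, fun r hr hrδ => ?_⟩
  have h7 := h6 (by rw [dist_zero_right]; exact hrδ) (norm_pos_iff.1 hr)
  have h8 : volume (S ∩ closedBall (x + r) (‖r‖ / K)) ≠ 0 := by
    intro h0
    rw [h0] at h7
    simp at h7
  obtain ⟨k, hk⟩ := nonempty_of_measure_ne_zero h8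
  refine ⟨k, hk.1, ?_⟩
  have h9 := hk.2
  rw [mem_closedBall, dist_eq_norm] at h9
  calc ‖k - (x + r)‖ ≤ ‖r‖ / K := h9
    _ = 1 / (K : ℝ) * ‖r‖ := by ring
    _ ≤ ε * ‖r‖ := mul_le_mul_of_nonneg_right hKε (norm_nonneg r)

/-- The tilts with moments up to order `Q` bounded by `C n ^ (x q)`. -/
def KQ21 {d : ℕ} (ρ : Measure ℝ) (β x : ℝ) (Q C : ℕ) : Set (Vec d) :=
  {k | ∀ q ≤ Q, ∀ n : ℕ, 1 ≤ n →
    ∫ η, |X β k η n - A ρ β k n| ^ q ∂(law d ρ) ≤ C * (n : ℝ) ^ (x * q)}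

theorem KQ21_eq (ρ : Measure ℝ) (β x : ℝ) (Q C : ℕ) :
    (KQ21 ρ β x Q C : Set (Vec d)) = ⋂ q : ℕ, ⋂ _ : q ≤ Q, St21 ρ β x q C := by
  ext k
  simp [KQ21, St21, mo21]

theorem closed_KQ21 (hd : 0 < d) (hρ : EM ρ) (β x : ℝ) (Q C : ℕ) :
    IsClosed (KQ21 ρ β x Q C : Set (Vec d)) := by
  rw [KQ21_eq]
  exact isClosed_iInter fun q => isClosed_iInter fun _ => closed_St21 hd hρ β x q C

theorem KQ21_mono {x y : ℝ} (hxy : x ≤ y) (ρ : Measure ℝ) (β : ℝ) (Q C : ℕ) :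
    (KQ21 ρ β x Q C : Set (Vec d)) ⊆ KQ21 ρ β y Q C := by
  intro k hk q hq n hn
  refine (hk q hq n hn).trans ?_
  have hn1 : (1 : ℝ) ≤ n := by exact_mod_cast hn
  refine mul_le_mul_of_nonneg_left (Real.rpow_le_rpow_of_exponent_le hn1 ?_) (Nat.cast_nonneg C)
  exact mul_le_mul_of_nonneg_right hxy (Nat.cast_nonneg q)

/-- A tilt with the fluctuation bound lies in one of the sets. -/
theorem exists_KQ21 {h : Vec d} {x : ℝ} (hx : FlF ρ β h x) (Q : ℕ) :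
    ∃ C : ℕ, h ∈ (KQ21 ρ β x Q C : Set (Vec d)) := by
  choose C hC using hx
  obtain ⟨K, hK⟩ := exists_nat_ge (∑ q ∈ Finset.range (Q + 1), |C q|)
  refine ⟨K, fun q hq n hn => (hC q n hn).trans ?_⟩
  refine mul_le_mul_of_nonneg_right ?_ (by positivity)
  refine (le_abs_self _).trans (le_trans ?_ hK)
  exact Finset.single_le_sum (f := fun q => |C q|) (fun i _ => abs_nonneg (C i))
    (Finset.mem_range.2 (by omega))

/-- D4-2. At almost every tilt: density points. -/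
theorem dens21 (hd : 0 < d) (hρ : EM ρ) (β : ℝ) : ∀ᵐ h : Vec d, ∀ x y : ℝ, x < y →
    FlF ρ β h x → ∀ Q : ℕ, ∃ C : ℕ, h ∈ (KQ21 ρ β y Q C : Set (Vec d)) ∧
      ∀ ε > 0, ∃ δ > 0, ∀ r : Vec d, 0 < ‖r‖ → ‖r‖ < δ →
        ∃ k ∈ (KQ21 ρ β y Q C : Set (Vec d)), ‖k - (h + r)‖ ≤ ε * ‖r‖ := by
  have h1 : ∀ z : ℚ, ∀ Q C : ℕ, ∀ᵐ h : Vec d, h ∈ (KQ21 ρ β (z : ℝ) Q C : Set (Vec d)) →
      ∀ ε > 0, ∃ δ > 0, ∀ r : Vec d, 0 < ‖r‖ → ‖r‖ < δ →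
        ∃ k ∈ (KQ21 ρ β (z : ℝ) Q C : Set (Vec d)), ‖k - (h + r)‖ ≤ ε * ‖r‖ := by
    intro z Q C
    exact (ae_restrict_iff' (closed_KQ21 hd hρ β (z : ℝ) Q C).measurableSet).1
      (dens_pts21 (KQ21 ρ β (z : ℝ) Q C))
  have h2 : ∀ᵐ h : Vec d, ∀ z : ℚ, ∀ Q C : ℕ, h ∈ (KQ21 ρ β (z : ℝ) Q C : Set (Vec d)) →
      ∀ ε > 0, ∃ δ > 0, ∀ r : Vec d, 0 < ‖r‖ → ‖r‖ < δ →
        ∃ k ∈ (KQ21 ρ β (z : ℝ) Q C : Set (Vec d)), ‖k - (h + r)‖ ≤ ε * ‖r‖ :=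
    ae_all_iff.2 fun z => ae_all_iff.2 fun Q => ae_all_iff.2 fun C => h1 z Q C
  filter_upwards [h2] with h hh x y hxy hx Q
  obtain ⟨z, hz1, hz2⟩ := exists_rat_btwn hxy
  have hz : FlF ρ β h (z : ℝ) := FlU21_mono hz1.le hx
  obtain ⟨C, hC⟩ := exists_KQ21 hz Q
  refine ⟨C, KQ21_mono hz2.le ρ β Q C hC, fun ε hε => ?_⟩
  obtain ⟨δ, hδ, h3⟩ := hh z Q C hC ε hε
  refine ⟨δ, hδ, fun r hr hrδ => ?_⟩
  obtain ⟨k, hk, hk2⟩ := h3 r hr hrδ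
  exact ⟨k, KQ21_mono hz2.le ρ β Q C hk, hk2⟩

end Pool.Agent.W_7d29a1_D2
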