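import Pool.Agent.W_7d29a1_D2.Defs46

/-!
A convex function which is maximal on a ball at `r` is at least as large on the half space beyond
`r`; so the lower bounds `LoG`, `LoA` hold on whole balls.
-/

namespace Pool.Agent.W_7d29a1_D2

open MeasureTheory ProbabilityTheory Filter Topology Pool.Agent.W_MP_7d29a1_pr
  Pool.Agent.W_7d29a1_h46 Pool.Agent.W_7d29a1_h46u

variable {d : ℕ}

/-- The radial lemma. -/
theorem rad60 {G : Vec d → ℝ} (hG : ConvexOn ℝ Set.univ G) {r r' : Vec d}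
    (hr : ∀ x : Vec d, ‖x‖ ≤ ‖r‖ → G x ≤ G r) (h1 : ‖r‖ ^ 2 < inner ℝ r' r) : G r ≤ G r' := by
  by_contra hcon
  push Not at hcon
  set w : Vec d := r' - r with hw
  have hwr : 0 < inner ℝ w r := by
    rw [hw, inner_sub_left, real_inner_self_eq_norm_sq]
    linarith
  have hr0 : 0 < ‖r‖ := by
    rcases (norm_nonneg r).lt_or_eq with h | h
    · exact h
    · rw [norm_eq_zero.1 h.symm, inner_zero_right] at hwr
      exact absurd hwr (lt_irrefl _)
  have hw0 : 0 < ‖w‖ ^ 2 + 1 := by positivity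
  -- a small step backwards stays in the ball
  set t : ℝ := inner ℝ w r / (‖w‖ ^ 2 + 1) with ht
  have ht0 : 0 < t := div_pos hwr hw0
  have hx : ‖r - t • w‖ ≤ ‖r‖ := by
    have h2 : ‖r - t • w‖ ^ 2 = ‖r‖ ^ 2 - 2 * (t * inner ℝ w r) + t ^ 2 * ‖w‖ ^ 2 := by
      rw [norm_sub_sq_real, inner_smul_right, norm_smul, mul_pow, Real.norm_eq_abs, sq_abs,
        real_inner_comm]
    have h3 : t ^ 2 * ‖w‖ ^ 2 ≤ t * inner ℝ w r := by
      have h4 : t * (‖w‖ ^ 2 + 1) = inner ℝ w r := div_mul_cancel₀ _ hw0.ne'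
      have h5 : t * ‖w‖ ^ 2 ≤ inner ℝ w r := by
        rw [← h4]
        nlinarith
      calc t ^ 2 * ‖w‖ ^ 2 = t * (t * ‖w‖ ^ 2) := by ring
        _ ≤ t * inner ℝ w r := mul_le_mul_of_nonneg_left h5 ht0.le
    have h6 : 0 < t * inner ℝ w r := mul_pos ht0 hwr
    have h7 : ‖r - t • w‖ ^ 2 ≤ ‖r‖ ^ 2 := by
      rw [h2]
      linarith
    exact le_of_sq_le_sq h7 hr0.le
  have h8 := hr _ hx
  have h9 : 0 < 1 + t := by linarith
  have h10 := hG.2 (Set.mem_univ (r - t • w)) (Set.mem_univ r')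
    (show 0 ≤ 1 / (1 + t) by positivity) (show 0 ≤ t / (1 + t) by positivity)
    (by field_simp)
  have h11 : (1 / (1 + t)) • (r - t • w) + (t / (1 + t)) • r' = r := by
    have h12 : r' = r + w := by rw [hw]; abel
    rw [h12]
    have h13 : (1 / (1 + t)) • (r - t • w) + (t / (1 + t)) • (r + w) =
        (1 / (1 + t) + t / (1 + t)) • r + (t / (1 + t) - 1 / (1 + t) * t) • w := by
      module
    rw [h13]
    have h14 : 1 / (1 + t) + t / (1 + t) = 1 := by field_simp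
    have h15 : t / (1 + t) - 1 / (1 + t) * t = 0 := by ring
    rw [h14, h15, one_smul, zero_smul, add_zero]
  rw [h11] at h10
  simp only [smul_eq_mul] at h10
  have h16 : 1 / (1 + t) * G (r - t • w) ≤ 1 / (1 + t) * G r :=
    mul_le_mul_of_nonneg_left h8 (by positivity)
  have h17 : t / (1 + t) * G r' < t / (1 + t) * G r :=
    mul_lt_mul_of_pos_left hcon (by positivity)
  have h18 : 1 / (1 + t) * G r + t / (1 + t) * G r = G r := by
    field_simp
  linarith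

/-- The half space contains the ball of radius `‖r‖ / 2` around `2 r`. -/
lemma rad60_ball {r r' : Vec d} (hr : 0 < ‖r‖) (h : ‖r' - (2 : ℝ) • r‖ ≤ ‖r‖ / 2) :
    ‖r‖ ^ 2 < inner ℝ r' r := by
  have h1 : r' = (2 : ℝ) • r + (r' - (2 : ℝ) • r) := by abel
  rw [h1, inner_add_left, inner_smul_left, real_inner_self_eq_norm_sq]
  have h2 := abs_le.1 (abs_real_inner_le_norm (r' - (2 : ℝ) • r) r)
  have h3 : ‖r' - (2 : ℝ) • r‖ * ‖r‖ ≤ ‖r‖ / 2 * ‖r‖ := mul_le_mul_of_nonneg_right h hr.le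
  have h4 : 0 < ‖r‖ ^ 2 := by positivity
  simp only [map_ofNat]
  nlinarith [h2.1]

lemma rad60_norm {r r' : Vec d} (h : ‖r' - (2 : ℝ) • r‖ ≤ ‖r‖ / 2) :
    3 / 2 * ‖r‖ ≤ ‖r'‖ ∧ ‖r'‖ ≤ 5 / 2 * ‖r‖ := by
  have h1 : ‖(2 : ℝ) • r‖ = 2 * ‖r‖ := by
    rw [norm_smul]
    norm_num
  have h2 := norm_sub_norm_le ((2 : ℝ) • r) r'
  have h3 := norm_sub_norm_le r' ((2 : ℝ) • r)
  rw [norm_sub_rev] at h2
  rw [h1] at h2 h3
  constructor <;> linarith

lemma rad60_cont {L : Vec d → ℝ} (hL : ConvexOn ℝ Set.univ L) (h v : Vec d) :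
    Continuous (gap L h v) := by
  have hc : Continuous L := by
    rw [← continuousOn_univ]
    exact hL.continuousOn isOpen_univ
  unfold gap
  exact ((hc.comp (continuous_const.add continuous_id)).sub continuous_const).sub
    (continuous_const.inner continuous_id)

lemma rad60_convex {L : Vec d → ℝ} (hL : ConvexOn ℝ Set.univ L) (h v : Vec d) :
    ConvexOn ℝ Set.univ (gap L h v) := by
  refine ⟨convex_univ, fun x _ y _ a b ha hb hab => ?_⟩
  unfold gap
  have h1 := hL.2 (Set.mem_univ (h + x)) (Set.mem_univ (h + y)) ha hb hab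
  have h2 : a • (h + x) + b • (h + y) = h + (a • x + b • y) := by
    have : a • (h + x) + b • (h + y) = (a + b) • h + (a • x + b • y) := by module
    rw [this, hab, one_smul]
  rw [h2] at h1
  rw [inner_add_right, inner_smul_right, inner_smul_right]
  simp only [smul_eq_mul] at h1 ⊢
  have h3 : L h = (a + b) * L h := by rw [hab, one_mul]
  linarith

/-- At the scale of a point `r₀` there is a point `r` such that the gap is at least the gap at `r₀`
on the ball of radius `‖r‖ / 2` around `2 r`. -/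
theorem gap_ball60 {L : Vec d → ℝ} (hL : ConvexOn ℝ Set.univ L) (h v r₀ : Vec d)
    (h0 : 0 < ‖r₀‖) : ∃ r : Vec d, ‖r‖ = ‖r₀‖ ∧ gap L h v r₀ ≤ gap L h v r ∧
      ∀ r' : Vec d, ‖r' - (2 : ℝ) • r‖ ≤ ‖r‖ / 2 → gap L h v r ≤ gap L h v r' := by
  obtain ⟨r, hr, hmax⟩ := (isCompact_sphere (0 : Vec d) ‖r₀‖).exists_isMaxOn
    ⟨r₀, by simp⟩ (rad60_cont hL h v).continuousOn
  have hrn : ‖r‖ = ‖r₀‖ := by simpa using hr
  have hle : gap L h v r₀ ≤ gap L h v r := hmax (by simp)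
  -- the maximum on the sphere is the maximum on the ball
  have hball : ∀ x : Vec d, ‖x‖ ≤ ‖r‖ → gap L h v x ≤ gap L h v r := by
    intro x hx
    -- `x` lies between two points of the sphere
    rcases eq_or_ne x 0 with hx0 | hx0
    · subst hx0
      have h1 := (rad60_convex hL h v).2 (Set.mem_univ r) (Set.mem_univ (-r))
        (show (0 : ℝ) ≤ 1 / 2 by norm_num) (show (0 : ℝ) ≤ 1 / 2 by norm_num) (by norm_num)
      have h2 : (1 / 2 : ℝ) • r + (1 / 2 : ℝ) • (-r) = 0 := by module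
      rw [h2] at h1
      have h3 : gap L h v (-r) ≤ gap L h v r := hmax (by simpa using hrn)
      simp only [smul_eq_mul] at h1
      linarith
    · have hxn : 0 < ‖x‖ := norm_pos_iff.2 hx0
      set y : Vec d := (‖r‖ / ‖x‖) • x with hy
      have hyn : ‖y‖ = ‖r‖ := by
        rw [hy, norm_smul, Real.norm_eq_abs, abs_of_nonneg (by positivity), div_mul_cancel₀ _ hxn.ne']
      have hr0 : 0 < ‖r‖ := by rw [hrn]; exact h0
      set θ : ℝ := ‖x‖ / ‖r‖ with hθ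
      have hθ0 : 0 ≤ θ := by positivity
      have hθ1 : θ ≤ 1 := (div_le_one hr0).2 hx
      have h1 := (rad60_convex hL h v).2 (Set.mem_univ y) (Set.mem_univ (-y))
        (show 0 ≤ (1 + θ) / 2 by positivity) (show 0 ≤ (1 - θ) / 2 by linarith) (by ring)
      have h2 : ((1 + θ) / 2) • y + ((1 - θ) / 2) • (-y) = x := by
        have h3 : ((1 + θ) / 2) • y + ((1 - θ) / 2) • (-y) = θ • y := by module
        rw [h3, hy, smul_smul, hθ]
        have h4 : ‖x‖ / ‖r‖ * (‖r‖ / ‖x‖) = 1 := by field_simp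
        rw [h4, one_smul]
      rw [h2] at h1
      have h5 : gap L h v y ≤ gap L h v r := hmax (by
        rw [mem_sphere_zero_iff_norm, hyn, hrn])
      have h6 : gap L h v (-y) ≤ gap L h v r := hmax (by
        rw [mem_sphere_zero_iff_norm, norm_neg, hyn, hrn])
      simp only [smul_eq_mul] at h1
      have h7 := mul_le_mul_of_nonneg_left h5 (show 0 ≤ (1 + θ) / 2 by positivity)
      have h8 := mul_le_mul_of_nonneg_left h6 (show 0 ≤ (1 - θ) / 2 by linarith)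
      have h9 : (1 + θ) / 2 * gap L h v r + (1 - θ) / 2 * gap L h v r = gap L h v r := by ring
      linarith
  refine ⟨r, hrn, hle, fun r' hr' => ?_⟩
  exact rad60 (rad60_convex hL h v) hball (rad60_ball (by rw [hrn]; exact h0) hr')

/-- `LoG` on balls. -/
theorem loG_ball60 {L : Vec d → ℝ} (hL : ConvexOn ℝ Set.univ L) {h v : Vec d} {p : ℝ}
    (H : LoG L h v p) : ∃ c : ℝ, 0 < c ∧ ∀ δ : ℝ, 0 < δ → ∃ r : Vec d, 0 < ‖r‖ ∧ ‖r‖ ≤ δ ∧
      ∀ r' : Vec d, ‖r' - (2 : ℝ) • r‖ ≤ ‖r‖ / 2 → c * ‖r‖ ^ p ≤ gap L h v r' := by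
  obtain ⟨c, hc, H⟩ := H
  refine ⟨c, hc, fun δ hδ => ?_⟩
  obtain ⟨r₀, h0, h1, h2⟩ := H δ hδ
  obtain ⟨r, hr, hle, hb⟩ := gap_ball60 hL h v r₀ h0
  refine ⟨r, by rw [hr]; exact h0, by rw [hr]; exact h1, fun r' hr' => ?_⟩
  rw [hr]
  exact h2.trans (hle.trans (hb r' hr'))

/-- `LoA` on balls. -/
theorem loA_ball60 {L : Vec d → ℝ} (hL : ConvexOn ℝ Set.univ L) {h v : Vec d} {p : ℝ}
    (H : LoA L h v p) : ∃ c : ℝ, 0 < c ∧ ∃ δ : ℝ, 0 < δ ∧ ∀ s : ℝ, 0 < s → s ≤ δ →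
      ∃ r : Vec d, ‖r‖ = s ∧
        ∀ r' : Vec d, ‖r' - (2 : ℝ) • r‖ ≤ s / 2 → c * s ^ p ≤ gap L h v r' := by
  obtain ⟨c, hc, δ, hδ, H⟩ := H
  refine ⟨c, hc, δ, hδ, fun s hs hsδ => ?_⟩
  obtain ⟨r₀, h0, h1⟩ := H s hs hsδ
  obtain ⟨r, hr, hle, hb⟩ := gap_ball60 hL h v r₀ (by rw [h0]; exact hs)
  refine ⟨r, by rw [hr, h0], fun r' hr' => ?_⟩
  refine h1.trans (hle.trans (hb r' ?_))
  rw [hr, h0]
  exact hr'

end Pool.Agent.W_7d29a1_D2
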