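import Pool.Agent.W_7d29a1_D2.DefsK4
import Pool.Agent.W_7d29a1_D2.Rad60

/-!
The lower bounds `LoA`, `LoG` of the gap are attained at tilts in the sets `K Q` near a density point.
-/

namespace Pool.Agent.W_7d29a1_D2

open MeasureTheory ProbabilityTheory Filter Topology Pool.Agent.W_MP_7d29a1_pr
  Pool.Agent.W_7d29a1_h46 Pool.Agent.W_7d29a1_h46u

variable {d : ℕ}

/-- A point of `K Q` in the ball of radius `‖r‖ / 2` around `h + 2 r`. -/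
lemma dens_pt36 {K : ℕ → Set (Vec d)} {h : Vec d} (hK : DnK K h) (Q : ℕ) :
    ∃ δ : ℝ, 0 < δ ∧ ∀ r : Vec d, 0 < ‖r‖ → ‖r‖ ≤ δ → ∃ r' : Vec d, h + r' ∈ K Q ∧
      ‖r' - (2 : ℝ) • r‖ ≤ ‖r‖ / 2 := by
  obtain ⟨δ, hδ, H⟩ := (hK Q).2 (1 / 4) (by norm_num)
  refine ⟨δ / 3, by positivity, fun r hr hrδ => ?_⟩
  have h2 : ‖(2 : ℝ) • r‖ = 2 * ‖r‖ := by
    rw [norm_smul]
    norm_num
  obtain ⟨k, hk, hkr⟩ := H ((2 : ℝ) • r) (by rw [h2]; positivity) (by rw [h2]; linarith)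
  refine ⟨k - h, ?_, ?_⟩
  · have h3 : h + (k - h) = k := by abel
    rw [h3]
    exact hk
  · have h4 : k - h - (2 : ℝ) • r = k - (h + (2 : ℝ) • r) := by abel
    rw [h4]
    rw [h2] at hkr
    linarith

/-- `LoA` at a density point: tilts in the sets `K Q`. -/
theorem loAK36 {L : Vec d → ℝ} (hL : ConvexOn ℝ Set.univ L) {K : ℕ → Set (Vec d)} {h v : Vec d}
    {p : ℝ} (hK : DnK K h) (H : LoA L h v p) : LoAK L K h v p := by
  obtain ⟨c, hc, δ1, hδ1, H1⟩ := loA_ball60 hL H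
  refine ⟨c, hc, fun Q => ?_⟩
  obtain ⟨δ2, hδ2, H2⟩ := dens_pt36 hK Q
  refine ⟨min δ1 δ2, lt_min hδ1 hδ2, fun s hs hsδ => ?_⟩
  obtain ⟨r, hr, hb⟩ := H1 s hs (hsδ.trans (min_le_left _ _))
  obtain ⟨r', hrK, hr'⟩ := H2 r (by rw [hr]; exact hs) (by rw [hr]; exact hsδ.trans (min_le_right _ _))
  have hn := rad60_norm hr'
  rw [hr] at hn hr'
  exact ⟨r', by linarith [hn.1], by linarith [hn.2], hrK, hb r' hr'⟩

/-- `LoG` at a density point: tilts in the sets `K Q`. -/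
theorem loGK36 {L : Vec d → ℝ} (hL : ConvexOn ℝ Set.univ L) {K : ℕ → Set (Vec d)} {h v : Vec d}
    {p : ℝ} (hp : 0 < p) (hK : DnK K h) (H : LoG L h v p) : LoGK L K h v p := by
  obtain ⟨c, hc, H1⟩ := loG_ball60 hL H
  refine ⟨c * (2 / 5) ^ p, by positivity, fun Q δ hδ => ?_⟩
  obtain ⟨δ2, hδ2, H2⟩ := dens_pt36 hK Q
  obtain ⟨r, hr0, hr, hb⟩ := H1 (min (δ / 3) δ2) (lt_min (by positivity) hδ2)
  obtain ⟨r', hrK, hr'⟩ := H2 r hr0 (hr.trans (min_le_right _ _))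
  have hn := rad60_norm hr'
  have hrδ := hr.trans (min_le_left _ _)
  refine ⟨r', by linarith [hn.1], by linarith [hn.2], hrK, ?_⟩
  refine le_trans ?_ (hb r' hr')
  rw [mul_assoc, ← Real.mul_rpow (by norm_num) (norm_nonneg _)]
  refine mul_le_mul_of_nonneg_left ?_ hc.le
  refine Real.rpow_le_rpow (by positivity) ?_ hp.le
  linarith [hn.2]

end Pool.Agent.W_7d29a1_D2
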