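import Pool.Agent.W_7d29a1_D2.Dens21
import Pool.Agent.W_7d29a1_D2.DefsK4

/-!
D4-2: almost every tilt is a density point, with an antitone family of sets (helper21).
-/

namespace Pool.Agent.W_7d29a1_D2

open MeasureTheory ProbabilityTheory Filter Topology Metric Pool.Agent.W_MP_7d29a1_pr
  Pool.Agent.W_7d29a1_h46 Pool.Agent.W_7d29a1_h46u

variable {d : ℕ} {ρ : Measure ℝ} [IsProbabilityMeasure ρ] {β : ℝ}

/-- The tilts whose `q`-th moments are bounded by `(L q) n ^ (y q)` for `q < L.length`. -/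
def SL21 {d : ℕ} (ρ : Measure ℝ) (β y : ℝ) (L : List ℕ) : Set (Vec d) :=
  ⋂ q : ℕ, ⋂ _ : q < L.length, St21 ρ β y q (L.getD q 0)

theorem closed_SL21 (hd : 0 < d) (hρ : EM ρ) (β y : ℝ) (L : List ℕ) :
    IsClosed (SL21 ρ β y L : Set (Vec d)) :=
  isClosed_iInter fun q => isClosed_iInter fun _ => closed_St21 hd hρ β y q _

/-- The list of the constants up to the order `Q`. -/
theorem SL21_map (ρ : Measure ℝ) (β y : ℝ) (C : ℕ → ℕ) (Q : ℕ) :
    (SL21 ρ β y ((List.range (Q + 1)).map C) : Set (Vec d)) =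
      ⋂ q : ℕ, ⋂ _ : q ≤ Q, St21 ρ β y q (C q) := by
  unfold SL21
  ext k
  simp only [Set.mem_iInter, List.length_map, List.length_range]
  constructor
  · intro h q hq
    have h1 := h q (by omega)
    rw [List.getD_eq_getElem?_getD, List.getElem?_map, List.getElem?_range (by omega)] at h1
    simpa using h1
  · intro h q hq
    have h1 := h q (by omega)
    rw [List.getD_eq_getElem?_getD, List.getElem?_map, List.getElem?_range (by omega)]
    simpa using h1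

/-- D4-2. At almost every tilt `h`: if the moments at the tilt `h` alone are of order `n ^ x`, then
for `y > x` they are of order `n ^ y` uniformly on sets of which `h` is a density point. -/
theorem ae_DnP (hd : 0 < d) (hρ : EM ρ) (β : ℝ) : ∀ᵐ h : Vec d, DnP ρ β h := by
  have h1 : ∀ z : ℚ, ∀ L : List ℕ, ∀ᵐ h : Vec d, h ∈ (SL21 ρ β (z : ℝ) L : Set (Vec d)) →
      ∀ ε > 0, ∃ δ > 0, ∀ r : Vec d, 0 < ‖r‖ → ‖r‖ < δ →
        ∃ k ∈ (SL21 ρ β (z : ℝ) L : Set (Vec d)), ‖k - (h + r)‖ ≤ ε * ‖r‖ := fun z L =>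
    (ae_restrict_iff' (closed_SL21 hd hρ β (z : ℝ) L).measurableSet).1
      (dens_pts21 (SL21 ρ β (z : ℝ) L))
  have h2 : ∀ᵐ h : Vec d, ∀ z : ℚ, ∀ L : List ℕ, h ∈ (SL21 ρ β (z : ℝ) L : Set (Vec d)) →
      ∀ ε > 0, ∃ δ > 0, ∀ r : Vec d, 0 < ‖r‖ → ‖r‖ < δ →
        ∃ k ∈ (SL21 ρ β (z : ℝ) L : Set (Vec d)), ‖k - (h + r)‖ ≤ ε * ‖r‖ :=
    ae_all_iff.2 fun z => ae_all_iff.2 fun L => h1 z L
  filter_upwards [h2] with h hh x y hxy hx
  obtain ⟨z, hz1, hz2⟩ := exists_rat_btwn hxy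
  have hz : FlF ρ β h (z : ℝ) := FlU21_mono hz1.le hx
  have hC : ∀ q : ℕ, ∃ C : ℕ, h ∈ (St21 ρ β (z : ℝ) q C : Set (Vec d)) := by
    intro q
    obtain ⟨C, hC⟩ := hz q
    obtain ⟨K, hK⟩ := exists_nat_ge C
    exact ⟨K, fun n hn => (hC n hn).trans (mul_le_mul_of_nonneg_right hK (by positivity))⟩
  choose C hC using hC
  refine ⟨fun Q => SL21 ρ β (z : ℝ) ((List.range (Q + 1)).map C), ⟨?_, ?_⟩, ?_⟩
  · intro p q hpq
    simp only [SL21_map]
    intro k hk
    simp only [Set.mem_iInter] at hk ⊢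
    exact fun i hi => hk i (hi.trans hpq)
  · intro q
    refine ⟨C q, fun k hk n hn => ?_⟩
    rw [SL21_map] at hk
    simp only [Set.mem_iInter] at hk
    have h3 := hk q le_rfl n hn
    have hn1 : (1 : ℝ) ≤ n := by exact_mod_cast hn
    refine le_trans h3 (mul_le_mul_of_nonneg_left (Real.rpow_le_rpow_of_exponent_le hn1 ?_)
      (Nat.cast_nonneg _))
    exact mul_le_mul_of_nonneg_right hz2.le (Nat.cast_nonneg q)
  · intro Q
    have hmem : h ∈ (SL21 ρ β (z : ℝ) ((List.range (Q + 1)).map C) : Set (Vec d)) := by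
      rw [SL21_map]
      simp only [Set.mem_iInter]
      exact fun q _ => hC q
    exact ⟨hmem, fun ε hε => hh z _ hmem ε hε⟩

end Pool.Agent.W_7d29a1_D2
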