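import Pool.Agent.W_7d29a1_D2.Defs46
import Pool.Agent.W_7d29a1_D2.AeV6

/-!
At almost every point a convex function on `ℝ^d` either has a second order lower bound at every
small scale or is flat to second order.
-/

namespace Pool.Agent.W_7d29a1_D2

open MeasureTheory Set Filter Topology Pool.Agent.W_MP_7d29a1_pr Pool.Agent.W_7d29a1_h46
  Pool.Agent.W_7d29a1_h46u

namespace Dich31

/-! ### The line -/

/-- Upper bound of the second difference by the right derivative. -/
lemma dd_le {f : ℝ → ℝ} (hf : ConvexOn ℝ univ f) (x t : ℝ) :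
    f (x + t) + f (x - t) - 2 * f x ≤ t * (PeanoG f (x + t) - PeanoG f (x - t)) := by
  have h1 := Peano_sub hf (x + t) x
  have h2 := Peano_sub hf (x - t) x
  have e1 : x - (x + t) = -t := by ring
  have e2 : x - (x - t) = t := by ring
  rw [e1] at h1
  rw [e2] at h2
  linarith

/-- Lower bound of the second difference by the right derivative. -/
lemma le_dd {f : ℝ → ℝ} (hf : ConvexOn ℝ univ f) (x s : ℝ) :
    s * (PeanoG f (x + s) - PeanoG f (x - s)) ≤ f (x + 2 * s) + f (x - 2 * s) - 2 * f x := by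
  have h1 := Peano_sub hf (x + s) (x + 2 * s)
  have h2 := Peano_sub hf x (x + s)
  have h3 := Peano_sub hf (x - s) (x - 2 * s)
  have h4 := Peano_sub hf x (x - s)
  have e1 : x + 2 * s - (x + s) = s := by ring
  have e2 : x + s - x = s := by ring
  have e3 : x - 2 * s - (x - s) = -s := by ring
  have e4 : x - s - x = -s := by ring
  rw [e1] at h1
  rw [e2] at h2
  rw [e3] at h3
  rw [e4] at h4
  linarith

/-- Flat to second order or curved, at almost every point of the line. -/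
theorem ae_line {f : ℝ → ℝ} (hf : ConvexOn ℝ univ f) :
    ∀ᵐ x : ℝ, (∀ ε : ℝ, 0 < ε → ∃ δ : ℝ, 0 < δ ∧ ∀ t : ℝ, |t| ≤ δ →
        f (x + t) + f (x - t) - 2 * f x ≤ ε * t ^ 2) ∨
      (∃ c : ℝ, 0 < c ∧ ∃ δ : ℝ, 0 < δ ∧ ∀ t : ℝ, |t| ≤ δ →
        c * t ^ 2 ≤ f (x + t) + f (x - t) - 2 * f x) := by
  have hm := Peano_mono hf
  filter_upwards [hm.ae_differentiableAt] with x hd
  have hD := hd.hasDerivAt
  set α := deriv (PeanoG f) x with hα
  have hα0 : 0 ≤ α := hm.deriv_nonneg
  -- the expansion of the right derivative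
  have hexp : ∀ η : ℝ, 0 < η → ∃ δ : ℝ, 0 < δ ∧ ∀ s : ℝ, |s| ≤ δ →
      |PeanoG f (x + s) - PeanoG f x - α * s| ≤ η * |s| := by
    intro η hη
    have h1 := hD.isLittleO
    rw [Asymptotics.isLittleO_iff] at h1
    have h2 := h1 hη
    rw [Metric.eventually_nhds_iff] at h2
    obtain ⟨δ, hδ, h2⟩ := h2
    refine ⟨δ / 2, by positivity, fun s hs => ?_⟩
    have h3 := h2 (y := x + s) (by
      rw [Real.dist_eq, add_sub_cancel_left]
      linarith)
    rw [Real.norm_eq_abs, Real.norm_eq_abs, add_sub_cancel_left, smul_eq_mul] at h3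
    rw [mul_comm α s]
    exact h3
  rcases hα0.eq_or_lt with h0 | h0
  · left
    intro ε hε
    obtain ⟨δ, hδ, H⟩ := hexp (ε / 2) (by positivity)
    refine ⟨δ, hδ, fun t ht => (dd_le hf x t).trans ?_⟩
    have h1 := H t ht
    have h2 := H (-t) (by rwa [abs_neg])
    rw [← h0] at h1 h2
    rw [abs_neg, ← sub_eq_add_neg] at h2
    simp only [zero_mul, sub_zero] at h1 h2
    have h3 : |PeanoG f (x + t) - PeanoG f (x - t)| ≤ ε * |t| := by
      rw [abs_le] at h1 h2 ⊢
      constructor <;> linarith [h1.1, h1.2, h2.1, h2.2]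
    calc t * (PeanoG f (x + t) - PeanoG f (x - t)) ≤
        |t * (PeanoG f (x + t) - PeanoG f (x - t))| := le_abs_self _
      _ = |t| * |PeanoG f (x + t) - PeanoG f (x - t)| := abs_mul _ _
      _ ≤ |t| * (ε * |t|) := mul_le_mul_of_nonneg_left h3 (abs_nonneg _)
      _ = ε * (|t| * |t|) := by ring
      _ = ε * t ^ 2 := by rw [← abs_mul, abs_mul_self]; ring
  · right
    obtain ⟨δ, hδ, H⟩ := hexp (α / 2) (by positivity)
    have key : ∀ s : ℝ, 0 ≤ s → s ≤ δ →
        α * s ^ 2 ≤ f (x + 2 * s) + f (x - 2 * s) - 2 * f x := by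
      intro s hs0 hs
      refine le_trans ?_ (le_dd hf x s)
      have h1 := H s (by rwa [abs_of_nonneg hs0])
      have h2 := H (-s) (by rwa [abs_neg, abs_of_nonneg hs0])
      rw [abs_of_nonneg hs0] at h1
      rw [abs_neg, abs_of_nonneg hs0, ← sub_eq_add_neg] at h2
      rw [abs_le] at h1 h2
      have h3 : α * s ≤ PeanoG f (x + s) - PeanoG f (x - s) := by
        linarith [h1.1, h1.2, h2.1, h2.2]
      have h4 := mul_le_mul_of_nonneg_left h3 hs0
      linarith [h4]
    refine ⟨α / 4, by positivity, δ, hδ, fun t ht => ?_⟩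
    have h1 := key (|t| / 2) (by positivity) (by linarith [abs_nonneg t])
    have e1 : 2 * (|t| / 2) = |t| := by ring
    rw [e1] at h1
    have e2 : α * (|t| / 2) ^ 2 = α / 4 * t ^ 2 := by
      rw [div_pow, sq_abs]
      ring
    rw [e2] at h1
    rcases abs_cases t with ⟨h2, _⟩ | ⟨h2, _⟩
    · rw [h2] at h1
      exact h1
    · rw [h2, sub_neg_eq_add, ← sub_eq_add_neg] at h1
      linarith

/-! ### Coordinate lines -/

variable {d : ℕ}

/-- The second difference along `e_j`. -/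
noncomputable def DD (L : Vec d → ℝ) (j : Fin d) (h : Vec d) (t : ℝ) : ℝ :=
  L (h + t • ej j) + L (h - t • ej j) - 2 * L h

/-- Flat or curved along `e_j`. -/
def GG (L : Vec d → ℝ) (j : Fin d) : Set (Vec d) :=
  {h | (∀ k : ℕ, ∃ m : ℕ, ∀ t : ℝ, |t| ≤ 1 / ((m : ℝ) + 1) → DD L j h t ≤ 1 / ((k : ℝ) + 1) * t ^ 2) ∨
    ∃ k m : ℕ, ∀ t : ℝ, |t| ≤ 1 / ((m : ℝ) + 1) → 1 / ((k : ℝ) + 1) * t ^ 2 ≤ DD L j h t}

lemma measurableSet_GG {L : Vec d → ℝ} (hL : ConvexOn ℝ univ L) (j : Fin d) :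
    MeasurableSet (GG L j) := by
  have hc : Continuous L := hL.locallyLipschitz.continuous
  have hD : ∀ t : ℝ, Continuous fun h : Vec d => DD L j h t := fun t => by
    unfold DD
    fun_prop
  have h1 : ∀ k m : ℕ, MeasurableSet {h : Vec d | ∀ t : ℝ, |t| ≤ 1 / ((m : ℝ) + 1) →
      DD L j h t ≤ 1 / ((k : ℝ) + 1) * t ^ 2} := fun k m => by
    refine IsClosed.measurableSet ?_
    simp only [ofPred_forall]
    exact isClosed_iInter fun t => isClosed_iInter fun _ => isClosed_le (hD t) continuous_const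
  have h2 : ∀ k m : ℕ, MeasurableSet {h : Vec d | ∀ t : ℝ, |t| ≤ 1 / ((m : ℝ) + 1) →
      1 / ((k : ℝ) + 1) * t ^ 2 ≤ DD L j h t} := fun k m => by
    refine IsClosed.measurableSet ?_
    simp only [ofPred_forall]
    exact isClosed_iInter fun t => isClosed_iInter fun _ => isClosed_le continuous_const (hD t)
  have e : GG L j = (⋂ k : ℕ, ⋃ m : ℕ, {h : Vec d | ∀ t : ℝ, |t| ≤ 1 / ((m : ℝ) + 1) →
      DD L j h t ≤ 1 / ((k : ℝ) + 1) * t ^ 2}) ∪
      ⋃ k : ℕ, ⋃ m : ℕ, {h : Vec d | ∀ t : ℝ, |t| ≤ 1 / ((m : ℝ) + 1) →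
      1 / ((k : ℝ) + 1) * t ^ 2 ≤ DD L j h t} := by
    ext h
    simp only [GG, mem_ofPred_eq, mem_union, mem_iInter, mem_iUnion]
  rw [e]
  exact (MeasurableSet.iInter fun k => MeasurableSet.iUnion fun m => h1 k m).union
    (MeasurableSet.iUnion fun k => MeasurableSet.iUnion fun m => h2 k m)

lemma ae_GG {L : Vec d → ℝ} (hL : ConvexOn ℝ univ L) (j : Fin d) : ∀ᵐ h : Vec d, h ∈ GG L j := by
  let T : ℝ →L[ℝ] Vec d := ContinuousLinearMap.smulRight (1 : ℝ →L[ℝ] ℝ) (ej j)
  refine ae_mem_of_ae_add_linearMap_mem T.toLinearMap volume volume (measurableSet_GG hL j) ?_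
  intro y
  have hT : ∀ x : ℝ, T.toLinearMap x = x • ej j := by
    intro x
    simp [T]
  have hc : ConvexOn ℝ univ fun x : ℝ => L (y + x • ej j) := by
    refine ⟨convex_univ, fun a _ b _ p q hp hq hpq => ?_⟩
    have h1 := hL.2 (mem_univ (y + a • ej j)) (mem_univ (y + b • ej j)) hp hq hpq
    have h2 : p • (y + a • ej j) + q • (y + b • ej j) = y + (p • a + q • b) • ej j := by
      have h3 : p • y + q • y = y := by rw [← add_smul, hpq, one_smul]
      simp only [smul_add, add_smul, smul_smul, smul_eq_mul]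
      calc p • y + (p * a) • ej j + (q • y + (q * b) • ej j)
          = (p • y + q • y) + ((p * a) • ej j + (q * b) • ej j) := by abel
        _ = y + ((p * a) • ej j + (q * b) • ej j) := by rw [h3]
    rw [h2] at h1
    exact h1
  filter_upwards [ae_line hc] with x hx
  rw [hT]
  have e : ∀ t : ℝ, DD L j (y + x • ej j) t =
      L (y + (x + t) • ej j) + L (y + (x - t) • ej j) - 2 * L (y + x • ej j) := by
    intro t
    unfold DD
    rw [add_smul, sub_smul, add_assoc, ← add_sub_assoc]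
  have hnat : ∀ δ : ℝ, 0 < δ → ∃ m : ℕ, 1 / ((m : ℝ) + 1) ≤ δ := fun δ hδ => by
    obtain ⟨m, hm⟩ := exists_nat_one_div_lt hδ
    exact ⟨m, hm.le⟩
  rcases hx with hx | hx
  · left
    intro k
    obtain ⟨δ, hδ, H⟩ := hx (1 / ((k : ℝ) + 1)) (by positivity)
    obtain ⟨m, hm⟩ := hnat δ hδ
    refine ⟨m, fun t ht => ?_⟩
    rw [e]
    exact H t (ht.trans hm)
  · right
    obtain ⟨c, hc0, δ, hδ, H⟩ := hx
    obtain ⟨k, hk⟩ := hnat c hc0
    obtain ⟨m, hm⟩ := hnat δ hδ
    refine ⟨k, m, fun t ht => ?_⟩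
    rw [e]
    exact (mul_le_mul_of_nonneg_right hk (sq_nonneg t)).trans (H t (ht.trans hm))

/-! ### All directions -/

/-- Averaging the coordinate directions. -/
theorem all_dir {L : Vec d → ℝ} (hL : ConvexOn ℝ univ L) (hd : 0 < d) {h v : Vec d} {C δ : ℝ}
    (hC : ∀ j : Fin d, ∀ t : ℝ, |t| ≤ δ → L (h + t • ej j) ≤ L h + v j * t + C * t ^ 2) {u : Vec d}
    (hu : ‖u‖ ≤ δ / d) : L (h + u) ≤ L h + inner ℝ v u + C * d * ‖u‖ ^ 2 := by
  have hd0 : (0 : ℝ) < d := by exact_mod_cast hd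
  have hsum : ∑ j : Fin d, ((1 : ℝ) / d) • (h + ((d : ℝ) * u j) • ej j) = h + u := by
    ext i
    simp only [ej, PiLp.add_apply, WithLp.ofLp_sum, Finset.sum_apply, PiLp.smul_apply, smul_eq_mul,
      PiLp.single_apply, mul_add, Finset.sum_add_distrib, Finset.sum_const, Finset.card_univ,
      Fintype.card_fin, nsmul_eq_mul]
    rw [Finset.sum_eq_single i]
    · simp only [if_true]
      field_simp
    · intro b _ hb
      rw [if_neg (fun h => hb h.symm)]
      ring
    · intro hi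
      exact absurd (Finset.mem_univ i) hi
  have h1 := hL.map_sum_le (t := Finset.univ) (w := fun _ : Fin d => (1 : ℝ) / d)
    (p := fun j => h + ((d : ℝ) * u j) • ej j) (fun _ _ => by positivity)
    (by simp [hd0.ne']) (fun _ _ => mem_univ _)
  rw [hsum] at h1
  refine h1.trans ?_
  have h2 : ∀ j : Fin d, ((1 : ℝ) / d) • L (h + ((d : ℝ) * u j) • ej j) ≤
      1 / d * L h + v j * u j + C * d * u j ^ 2 := by
    intro j
    have h3 : |(d : ℝ) * u j| ≤ δ := by
      rw [abs_mul, abs_of_pos hd0]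
      have h4 := (abs_coord_le u j).trans hu
      rw [le_div_iff₀ hd0] at h4
      linarith
    have h6 := hC j _ h3
    have h7 := mul_le_mul_of_nonneg_left h6 (show (0 : ℝ) ≤ 1 / d by positivity)
    rw [smul_eq_mul]
    refine h7.trans (le_of_eq ?_)
    field_simp
  refine (Finset.sum_le_sum fun j _ => h2 j).trans (le_of_eq ?_)
  rw [inner_vec, norm_sq_vec, Finset.sum_add_distrib, Finset.sum_add_distrib, Finset.sum_const,
    Finset.card_univ, Fintype.card_fin, nsmul_eq_mul, ← Finset.mul_sum]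
  field_simp

/-- A second order upper expansion of a convex function contains its subgradient. -/
theorem sub_of_upp {L : Vec d → ℝ} (hL : ConvexOn ℝ univ L) {h v : Vec d} {C δ : ℝ} (hC0 : 0 ≤ C)
    (hδ : 0 < δ) (hC : ∀ u : Vec d, ‖u‖ ≤ δ → L (h + u) ≤ L h + inner ℝ v u + C * ‖u‖ ^ 2)
    (k : Vec d) : L h + inner ℝ v k ≤ L (h + k) := by
  by_contra hcon
  push Not at hcon
  set g : ℝ := L h + inner ℝ v k - L (h + k) with hg
  have hg0 : 0 < g := by linarith
  have hK : 0 < ‖k‖ ^ 2 * C + 1 := by positivity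
  set t : ℝ := min (min 1 (δ / (‖k‖ + 1))) (g / (2 * (‖k‖ ^ 2 * C + 1))) with ht
  have ht0 : 0 < t := by
    refine lt_min (lt_min one_pos (by positivity)) (by positivity)
  have ht1 : t ≤ δ / (‖k‖ + 1) := (min_le_left _ _).trans (min_le_right _ _)
  have ht2 : t ≤ g / (2 * (‖k‖ ^ 2 * C + 1)) := min_le_right _ _
  have h1t : 0 < 1 + t := by linarith
  have hn : ‖(-t) • k‖ ≤ δ := by
    rw [norm_smul, Real.norm_eq_abs, abs_neg, abs_of_pos ht0]
    rw [le_div_iff₀ (by positivity)] at ht1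
    nlinarith [norm_nonneg k]
  have h1 := hC _ hn
  rw [inner_smul_right, norm_smul, Real.norm_eq_abs, abs_neg, abs_of_pos ht0] at h1
  have ha : 0 ≤ 1 / (1 + t) := by positivity
  have hb : 0 ≤ t / (1 + t) := by positivity
  have hab : 1 / (1 + t) + t / (1 + t) = 1 := by field_simp
  have h2 := hL.2 (mem_univ (h + (-t) • k)) (mem_univ (h + k)) ha hb hab
  have e : (1 / (1 + t)) • (h + (-t) • k) + (t / (1 + t)) • (h + k) = h := by
    rw [smul_add, smul_add, smul_smul]
    have e1 : (1 / (1 + t)) * -t = -(t / (1 + t)) := by ring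
    have e2 : (1 / (1 + t)) + t / (1 + t) = 1 := by field_simp
    rw [e1, neg_smul]
    calc (1 / (1 + t)) • h + -((t / (1 + t)) • k) + ((t / (1 + t)) • h + (t / (1 + t)) • k)
        = (1 / (1 + t)) • h + (t / (1 + t)) • h := by abel
      _ = h := by rw [← add_smul, e2, one_smul]
  rw [e, smul_eq_mul, smul_eq_mul] at h2
  have h3 : (1 + t) * L h ≤ L (h + (-t) • k) + t * L (h + k) := by
    have := mul_le_mul_of_nonneg_left h2 h1t.le
    have e3 : (1 + t) * (1 / (1 + t) * L (h + (-t) • k) + t / (1 + t) * L (h + k)) =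
        L (h + (-t) • k) + t * L (h + k) := by
      field_simp
    rw [e3] at this
    exact this
  have h4 : t * g ≤ C * (t * ‖k‖) ^ 2 := by
    rw [hg]
    nlinarith
  have h5 : g ≤ t * (‖k‖ ^ 2 * C) := by
    have e4 : C * (t * ‖k‖) ^ 2 = t * (t * (‖k‖ ^ 2 * C)) := by ring
    rw [e4] at h4
    exact le_of_mul_le_mul_left h4 ht0
  have h6 : t * (‖k‖ ^ 2 * C) ≤ g / 2 := by
    have hb : 0 ≤ ‖k‖ ^ 2 * C := by positivity
    calc t * (‖k‖ ^ 2 * C) ≤ t * (‖k‖ ^ 2 * C + 1) :=
          mul_le_mul_of_nonneg_left (by linarith) ht0.le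
      _ ≤ g / (2 * (‖k‖ ^ 2 * C + 1)) * (‖k‖ ^ 2 * C + 1) :=
          mul_le_mul_of_nonneg_right ht2 hK.le
      _ = g / 2 := by field_simp
  linarith

lemma norm_ej (j : Fin d) : ‖(ej j : Vec d)‖ = 1 := by
  unfold ej
  simp

/-- **The dichotomy.** At almost every point `h` a convex function on `ℝ^d` is differentiable with a
second order upper bound, and either it has a second order lower bound at every small scale or it is
flat to second order. -/
theorem ae_dich31 {L : Vec d → ℝ} (hL : ConvexOn ℝ univ L) : ∀ᵐ h : Vec d, ∃ v : Vec d,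
    (∀ k, L h + inner ℝ v k ≤ L (h + k)) ∧ UpG L h v 2 ∧
    (LoA L h v 2 ∨ ∀ ε > 0, ∃ δ > 0, ∀ r : Vec d, ‖r‖ ≤ δ → gap L h v r ≤ ε * ‖r‖ ^ 2) := by
  have hG : ∀ᵐ h : Vec d, ∀ j : Fin d, h ∈ GG L j := ae_all_iff.2 fun j => ae_GG hL j
  filter_upwards [hG, ae_upp hL] with h hg hu
  obtain ⟨v, C, hC0, δ, hδ, hC⟩ := hu
  have hsub := sub_of_upp hL hC0 hδ hC
  refine ⟨v, hsub, ⟨C, δ, hδ, fun r hr => ?_⟩, ?_⟩
  · unfold gap
    rw [Real.rpow_two]
    linarith [hC r hr]
  have hgap0 : ∀ r, 0 ≤ gap L h v r := fun r => by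
    unfold gap
    linarith [hsub r]
  have hDD : ∀ (j : Fin d) (t : ℝ), DD L j h t = gap L h v (t • ej j) + gap L h v ((-t) • ej j) := by
    intro j t
    unfold DD gap
    rw [inner_smul_right, inner_smul_right, neg_smul, ← sub_eq_add_neg]
    ring
  by_cases hcur : ∃ j : Fin d, ∃ k m : ℕ, ∀ t : ℝ, |t| ≤ 1 / ((m : ℝ) + 1) →
      1 / ((k : ℝ) + 1) * t ^ 2 ≤ DD L j h t
  · left
    obtain ⟨j, k, m, H⟩ := hcur
    refine ⟨1 / ((k : ℝ) + 1) / 2, by positivity, 1 / ((m : ℝ) + 1), by positivity, fun s hs hs1 => ?_⟩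
    have h1 := H s (by rwa [abs_of_pos hs])
    rw [hDD] at h1
    rw [Real.rpow_two]
    rcases le_total (gap L h v (s • ej j)) (gap L h v ((-s) • ej j)) with h2 | h2
    · refine ⟨(-s) • ej j, ?_, by linarith⟩
      rw [norm_smul, norm_ej, Real.norm_eq_abs, abs_neg, abs_of_pos hs, mul_one]
    · refine ⟨s • ej j, ?_, by linarith⟩
      rw [norm_smul, norm_ej, Real.norm_eq_abs, abs_of_pos hs, mul_one]
  · right
    have hflat : ∀ j : Fin d, ∀ k : ℕ, ∃ m : ℕ, ∀ t : ℝ, |t| ≤ 1 / ((m : ℝ) + 1) →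
        DD L j h t ≤ 1 / ((k : ℝ) + 1) * t ^ 2 := by
      intro j
      rcases hg j with h1 | ⟨k, m, h1⟩
      · exact h1
      · exact absurd ⟨j, k, m, h1⟩ hcur
    intro ε hε
    rcases Nat.eq_zero_or_pos d with hd | hd
    · subst hd
      refine ⟨1, one_pos, fun r _ => ?_⟩
      have hr : r = 0 := Subsingleton.elim _ _
      subst hr
      unfold gap
      simp
    have hd0 : (0 : ℝ) < d := by exact_mod_cast hd
    obtain ⟨k, hk⟩ := exists_nat_one_div_lt (show 0 < ε / d by positivity)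
    choose m hm using fun j => hflat j k
    obtain ⟨M, hM⟩ := (Set.finite_range m).bddAbove
    have hMj : ∀ j, m j ≤ M := fun j => hM ⟨j, rfl⟩
    refine ⟨1 / ((M : ℝ) + 1) / d, by positivity, fun r hr => ?_⟩
    have h1 := all_dir hL hd (h := h) (v := v) (C := ε / d) (δ := 1 / ((M : ℝ) + 1)) (fun j t ht => ?_)
      hr
    · have e : ε / d * d = ε := by field_simp
      rw [e] at h1
      unfold gap
      linarith
    · have h2 : |t| ≤ 1 / ((m j : ℝ) + 1) := by
        refine ht.trans ?_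
        refine one_div_le_one_div_of_le (by positivity) ?_
        have : (m j : ℝ) ≤ M := by exact_mod_cast hMj j
        linarith
      have h3 := hm j t h2
      rw [hDD] at h3
      have h4 := hgap0 ((-t) • ej j)
      have h5 : 1 / ((k : ℝ) + 1) * t ^ 2 ≤ ε / d * t ^ 2 :=
        mul_le_mul_of_nonneg_right hk.le (sq_nonneg t)
      have h6 : gap L h v (t • ej j) = L (h + t • ej j) - L h - v j * t := by
        unfold gap
        rw [inner_smul_right]
        have h7 : inner ℝ v (ej j) = v j := by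
          rw [inner_vec]
          rw [Finset.sum_eq_single j]
          · simp [ej]
          · intro b _ hb
            simp [ej, hb]
          · intro hj
            exact absurd (Finset.mem_univ j) hj
        rw [h7]
        ring
      linarith

end Dich31

end Pool.Agent.W_7d29a1_D2
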