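import Mathlib

/-!
TEAM D2, leaf Exp34 (helper34): the choice of the join time and of the tilt, real analysis only.
-/

namespace Pool.Agent.W_7d29a1_D2

open Filter Topology

/-- The two parts of the tilt. -/
lemma exp34_r1 {n m c a θ b : ℝ} (hn : 1 ≤ n) (hm : n ^ θ ≤ m) (hc : 0 < c) (hb : 1 < b) :
    (8 * n ^ a / (c * m)) ^ (1 / (b - 1)) ≤ (8 / c) ^ (1 / (b - 1)) * n ^ ((a - θ) / (b - 1)) := by
  have hn0 : 0 < n := by linarith
  have hθ : 0 < n ^ θ := Real.rpow_pos_of_pos hn0 θ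
  have hna : 0 < n ^ a := Real.rpow_pos_of_pos hn0 a
  have hm0 : 0 < m := hθ.trans_le hm
  have h1 : 8 * n ^ a / (c * m) ≤ 8 / c * n ^ (a - θ) := by
    rw [Real.rpow_sub hn0, div_le_iff₀ (by positivity)]
    have h2 : 8 / c * (n ^ a / n ^ θ) * (c * m) = 8 * n ^ a * (m / n ^ θ) := by
      field_simp
    rw [h2]
    have h3 : 1 ≤ m / n ^ θ := (one_le_div hθ).2 hm
    have h4 : 0 ≤ 8 * n ^ a := by positivity
    nlinarith
  have h5 : 0 ≤ 1 / (b - 1) := by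
    have : 0 < b - 1 := by linarith
    positivity
  calc (8 * n ^ a / (c * m)) ^ (1 / (b - 1)) ≤ (8 / c * n ^ (a - θ)) ^ (1 / (b - 1)) :=
        Real.rpow_le_rpow (by positivity) h1 h5
    _ = (8 / c) ^ (1 / (b - 1)) * n ^ ((a - θ) / (b - 1)) := by
        rw [Real.mul_rpow (by positivity) (Real.rpow_nonneg hn0.le _), ← Real.rpow_mul hn0.le]
        congr 2
        ring

lemma exp34_r2 {n m c x θ b C e : ℝ} (hn : 1 ≤ n) (hm : n ^ θ ≤ m) (hc : 0 < c) (hb : 1 < b)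
    (hC : 0 < C) (hx : x < 1) :
    (2 * C * (m ^ (x - 1) * n ^ e) / c) ^ (1 / b) ≤
      (2 * C / c) ^ (1 / b) * n ^ ((θ * (x - 1) + e) / b) := by
  have hn0 : 0 < n := by linarith
  have hθ : 0 < n ^ θ := Real.rpow_pos_of_pos hn0 θ
  have hm0 : 0 < m := hθ.trans_le hm
  have h1 : m ^ (x - 1) ≤ n ^ (θ * (x - 1)) := by
    rw [Real.rpow_mul hn0.le]
    exact Real.rpow_le_rpow_of_nonpos hθ hm (by linarith)
  have h2 : 2 * C * (m ^ (x - 1) * n ^ e) / c ≤ 2 * C / c * n ^ (θ * (x - 1) + e) := by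
    rw [Real.rpow_add hn0]
    have h3 : m ^ (x - 1) * n ^ e ≤ n ^ (θ * (x - 1)) * n ^ e :=
      mul_le_mul_of_nonneg_right h1 (Real.rpow_nonneg hn0.le _)
    calc 2 * C * (m ^ (x - 1) * n ^ e) / c = 2 * C / c * (m ^ (x - 1) * n ^ e) := by ring
      _ ≤ 2 * C / c * (n ^ (θ * (x - 1)) * n ^ e) :=
        mul_le_mul_of_nonneg_left h3 (by positivity)
  have h5 : 0 ≤ 1 / b := by positivity
  have hm1 : 0 < m ^ (x - 1) := Real.rpow_pos_of_pos hm0 _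
  have hn1 : 0 < n ^ e := Real.rpow_pos_of_pos hn0 _
  calc (2 * C * (m ^ (x - 1) * n ^ e) / c) ^ (1 / b)
      ≤ (2 * C / c * n ^ (θ * (x - 1) + e)) ^ (1 / b) :=
        Real.rpow_le_rpow (by positivity) h2 h5
    _ = (2 * C / c) ^ (1 / b) * n ^ ((θ * (x - 1) + e) / b) := by
        rw [Real.mul_rpow (by positivity) (Real.rpow_nonneg hn0.le _), ← Real.rpow_mul hn0.le]
        congr 2
        ring

/-- The tilt `r ≥ r1, r2` is admissible. -/
lemma exp34_adm {n m c a x e b C r r1 r2 G : ℝ} (hn : 1 ≤ n) (hm : 0 < m) (hc : 0 < c)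
    (hb : 1 < b) (hC : 0 < C) (hr1 : r1 = (8 * n ^ a / (c * m)) ^ (1 / (b - 1)))
    (hr2 : r2 = (2 * C * (m ^ (x - 1) * n ^ e) / c) ^ (1 / b)) (h1 : r1 ≤ r) (h2 : r2 ≤ r)
    (hG : c * r ^ b ≤ G) : 4 * r * n ^ a + C * (m ^ x * n ^ e) ≤ m * G := by
  have hn0 : 0 < n := by linarith
  have hna : 0 < n ^ a := Real.rpow_pos_of_pos hn0 a
  have hne : 0 < n ^ e := Real.rpow_pos_of_pos hn0 e
  have hmx : 0 < m ^ (x - 1) := Real.rpow_pos_of_pos hm _
  have hb1 : 0 < b - 1 := by linarith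
  have hb0 : 0 < b := by linarith
  have hA : 0 < 8 * n ^ a / (c * m) := by positivity
  have hB : 0 < 2 * C * (m ^ (x - 1) * n ^ e) / c := by positivity
  have hr10 : 0 < r1 := by
    rw [hr1]
    exact Real.rpow_pos_of_pos hA _
  have hr0 : 0 < r := hr10.trans_le h1
  have hr20 : 0 < r2 := by
    rw [hr2]
    exact Real.rpow_pos_of_pos hB _
  -- the first part
  have e1 : 8 * n ^ a / (c * m) ≤ r ^ (b - 1) := by
    have : r1 ^ (b - 1) = 8 * n ^ a / (c * m) := by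
      rw [hr1, ← Real.rpow_mul hA.le, one_div, inv_mul_cancel₀ hb1.ne', Real.rpow_one]
    rw [← this]
    exact Real.rpow_le_rpow hr10.le h1 hb1.le
  have e2 : 2 * C * (m ^ (x - 1) * n ^ e) / c ≤ r ^ b := by
    have : r2 ^ b = 2 * C * (m ^ (x - 1) * n ^ e) / c := by
      rw [hr2, ← Real.rpow_mul hB.le, one_div, inv_mul_cancel₀ hb0.ne', Real.rpow_one]
    rw [← this]
    exact Real.rpow_le_rpow hr20.le h2 hb0.le
  have e3 : r ^ b = r * r ^ (b - 1) := by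
    have := Real.rpow_add hr0 1 (b - 1)
    rw [Real.rpow_one] at this
    rw [← this]
    congr 1
    ring
  have e4 : m ^ x = m * m ^ (x - 1) := by
    have := Real.rpow_add hm 1 (x - 1)
    rw [Real.rpow_one] at this
    rw [← this]
    congr 1
    ring
  have f1 : 4 * r * n ^ a ≤ m * (c * r ^ b) / 2 := by
    rw [e3]
    have h3 : r * m * c * (8 * n ^ a / (c * m)) ≤ r * m * c * r ^ (b - 1) :=
      mul_le_mul_of_nonneg_left e1 (by positivity)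
    have h4 : r * m * c * (8 * n ^ a / (c * m)) = 8 * (r * n ^ a) := by
      field_simp
    nlinarith
  have f2 : C * (m ^ x * n ^ e) ≤ m * (c * r ^ b) / 2 := by
    rw [e4]
    have h3 : m * c * (2 * C * (m ^ (x - 1) * n ^ e) / c) ≤ m * c * r ^ b :=
      mul_le_mul_of_nonneg_left e2 (by positivity)
    have h4 : m * c * (2 * C * (m ^ (x - 1) * n ^ e) / c) = 2 * (C * (m * m ^ (x - 1) * n ^ e)) := by
      field_simp
    nlinarith
  have f3 : m * (c * r ^ b) ≤ m * G := mul_le_mul_of_nonneg_left hG hm.le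
  linarith

/-- TASK Exp34. -/
theorem exp34 {F : ℕ → ℕ → ℝ} {g : ℝ → ℝ} {a x b c r0 : ℝ}
    (hCore : ∀ q : ℕ, ∀ ε : ℝ, 0 < ε → ∃ δ > 0, ∃ C : ℝ, ∀ n m : ℕ, 1 ≤ m → 2 * m ≤ n →
      ∀ r : ℝ, 0 < r → r < δ → 4 * r * (n : ℝ) ^ a + C * ((m : ℝ) ^ x * (n : ℝ) ^ ε) ≤ m * g r →
        F q n ≤ (C * (r * (n : ℝ) ^ a + (m : ℝ) ^ x * (n : ℝ) ^ ε)) ^ q)
    (ha : 0 < a) (hx0 : 0 < x) (hx1 : x < 1) (hb : 1 < b) (hc : 0 < c) (hr0 : 0 < r0)
    (hg : ∀ r : ℝ, 0 < r → r ≤ r0 → c * r ^ b ≤ g r) (hth : b * a < 1 + (b - 1) * x) :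
    ∀ q : ℕ, ∀ ε : ℝ, 0 < ε → ∃ C : ℝ, ∀ n : ℕ, 1 ≤ n →
      F q n ≤ C * (n : ℝ) ^ ((b * a * x / (1 + (b - 1) * x) + ε) * q) := by
  intro q ε hε
  have hb1 : 0 < b - 1 := by linarith
  have hb0 : 0 < b := by linarith
  set D : ℝ := 1 + (b - 1) * x with hD
  have hD0 : 0 < D := by
    have := mul_pos hb1 hx0
    linarith
  have hD1 : D < b := by
    have := mul_lt_mul_of_pos_left hx1 hb1
    rw [hD]
    linarith
  set θ : ℝ := b * a / D with hθ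
  have hθ0 : 0 < θ := by positivity
  have hθ1 : θ < 1 := (div_lt_one hD0).2 hth
  have hθD : θ * D = b * a := div_mul_cancel₀ _ hD0.ne'
  have hκ : b * a * x / D = θ * x := by
    rw [hθ]
    ring
  have haθ : a < θ := by
    rw [hθ, lt_div_iff₀ hD0]
    nlinarith
  have hx1' : 0 < 1 - x := by linarith
  set e : ℝ := min ε (θ * (1 - x) / 2) with he
  have he0 : 0 < e := lt_min hε (by positivity)
  have heε : e ≤ ε := min_le_left _ _
  have heθ : e ≤ θ * (1 - x) / 2 := min_le_right _ _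
  obtain ⟨δ, hδ, C0, hC0⟩ := hCore q e he0
  set C : ℝ := |C0| + 1 with hC
  have hCpos : 0 < C := by positivity
  have hC0C : C0 ≤ C := (le_abs_self C0).trans (by linarith)
  -- the exponents
  set σ1 : ℝ := (a - θ) / (b - 1) with hσ1
  set σ2 : ℝ := (θ * (x - 1) + e) / b with hσ2
  have hσ1n : σ1 < 0 := div_neg_of_neg_of_pos (by linarith) hb1
  have hσ2n : σ2 < 0 := div_neg_of_neg_of_pos (by nlinarith) hb0
  have hs1 : σ1 + a = θ * x := by
    rw [hσ1]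
    field_simp
    have : θ * (1 + (b - 1) * x) = b * a := hθD
    nlinarith
  have hs2 : σ2 + a = θ * x + e / b := by
    rw [hσ2]
    field_simp
    have : θ * (1 + (b - 1) * x) = b * a := hθD
    nlinarith
  set K1 : ℝ := (8 / c) ^ (1 / (b - 1)) with hK1
  set K2 : ℝ := (2 * C / c) ^ (1 / b) with hK2
  have hK10 : 0 < K1 := Real.rpow_pos_of_pos (by positivity) _
  have hK20 : 0 < K2 := Real.rpow_pos_of_pos (by positivity) _
  have htend : Tendsto (fun n : ℕ => K1 * (n : ℝ) ^ σ1 + K2 * (n : ℝ) ^ σ2) atTop (𝓝 0) := by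
    have t1 : Tendsto (fun n : ℕ => (n : ℝ) ^ σ1) atTop (𝓝 0) := by
      have := (tendsto_rpow_neg_atTop (show 0 < -σ1 by linarith)).comp
        (tendsto_natCast_atTop_atTop (R := ℝ))
      simpa [Function.comp_def] using this
    have t2 : Tendsto (fun n : ℕ => (n : ℝ) ^ σ2) atTop (𝓝 0) := by
      have := (tendsto_rpow_neg_atTop (show 0 < -σ2 by linarith)).comp
        (tendsto_natCast_atTop_atTop (R := ℝ))
      simpa [Function.comp_def] using this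
    simpa using (t1.const_mul K1).add (t2.const_mul K2)
  have hev : ∀ᶠ n : ℕ in atTop, K1 * (n : ℝ) ^ σ1 + K2 * (n : ℝ) ^ σ2 < min δ r0 :=
    htend.eventually (gt_mem_nhds (lt_min hδ hr0))
  have hev2 : ∀ᶠ n : ℕ in atTop, (4 : ℝ) ≤ (n : ℝ) ^ (1 - θ) :=
    ((tendsto_rpow_atTop (show 0 < 1 - θ by linarith)).comp
      (tendsto_natCast_atTop_atTop (R := ℝ))).eventually_ge_atTop 4
  obtain ⟨n0, hn0'⟩ := eventually_atTop.1 (hev.and hev2)
  have hn0 : ∀ n : ℕ, n0 ≤ n → K1 * (n : ℝ) ^ σ1 + K2 * (n : ℝ) ^ σ2 < min δ r0 := fun n hn =>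
    (hn0' n hn).1
  have hn4 : ∀ n : ℕ, n0 ≤ n → (4 : ℝ) ≤ (n : ℝ) ^ (1 - θ) := fun n hn => (hn0' n hn).2
  set E : ℝ := (b * a * x / D + ε) * q with hE
  have hE0 : 0 ≤ E := by
    have : 0 ≤ b * a * x / D := by positivity
    positivity
  set A1 : ℝ := (C * (K1 + K2 + 2)) ^ q with hA1
  have hA10 : 0 ≤ A1 := by positivity
  have key : ∀ n : ℕ, n0 ≤ n → 1 ≤ n → F q n ≤ A1 * (n : ℝ) ^ E := by
    intro n hn hn1
    have hn1' : (1 : ℝ) ≤ n := by exact_mod_cast hn1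
    have hn0' : (0 : ℝ) < n := by linarith
    have hnθ : 1 ≤ (n : ℝ) ^ θ := Real.one_le_rpow hn1' hθ0.le
    set m : ℕ := ⌈(n : ℝ) ^ θ⌉₊ with hm
    have hm1 : (n : ℝ) ^ θ ≤ m := Nat.le_ceil _
    have hm2 : (m : ℝ) ≤ 2 * (n : ℝ) ^ θ := by
      have := (Nat.ceil_lt_add_one (show (0 : ℝ) ≤ (n : ℝ) ^ θ by linarith)).le
      rw [← hm] at this
      linarith
    have hm3 : 1 ≤ m := by
      have : (1 : ℝ) ≤ m := hnθ.trans hm1
      exact_mod_cast this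
    have hm4 : 2 * m ≤ n := by
      have h1 : (2 : ℝ) * m ≤ n := by
        calc (2 : ℝ) * m ≤ 4 * (n : ℝ) ^ θ := by linarith
          _ ≤ (n : ℝ) ^ (1 - θ) * (n : ℝ) ^ θ :=
            mul_le_mul_of_nonneg_right (hn4 n hn) (by linarith)
          _ = n := by
            rw [← Real.rpow_add hn0', sub_add_cancel, Real.rpow_one]
      exact_mod_cast h1
    have hm0 : (0 : ℝ) < m := by exact_mod_cast hm3
    obtain ⟨r1, hr1⟩ : ∃ r1 : ℝ, r1 = (8 * (n : ℝ) ^ a / (c * m)) ^ (1 / (b - 1)) := ⟨_, rfl⟩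
    obtain ⟨r2, hr2⟩ : ∃ r2 : ℝ, r2 = (2 * C * ((m : ℝ) ^ (x - 1) * (n : ℝ) ^ e) / c) ^ (1 / b) :=
      ⟨_, rfl⟩
    have hr1le : r1 ≤ K1 * (n : ℝ) ^ σ1 := by
      rw [hr1]
      exact exp34_r1 hn1' hm1 hc hb
    have hr2le : r2 ≤ K2 * (n : ℝ) ^ σ2 := by
      rw [hr2]
      exact exp34_r2 hn1' hm1 hc hb hCpos hx1
    have hr1p : 0 < r1 := by
      rw [hr1]
      exact Real.rpow_pos_of_pos (div_pos (mul_pos (by norm_num) (Real.rpow_pos_of_pos hn0' _))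
        (mul_pos hc hm0)) _
    have hr2p : 0 < r2 := by
      rw [hr2]
      have h1 := Real.rpow_pos_of_pos hm0 (x - 1)
      have h2 := Real.rpow_pos_of_pos hn0' e
      exact Real.rpow_pos_of_pos (by positivity) _
    have hrlt : r1 + r2 < min δ r0 := lt_of_le_of_lt (add_le_add hr1le hr2le) (hn0 n hn)
    have hrδ : r1 + r2 < δ := hrlt.trans_le (min_le_left _ _)
    have hrr0 : r1 + r2 ≤ r0 := (hrlt.trans_le (min_le_right _ _)).le
    have hP : 0 ≤ (m : ℝ) ^ x * (n : ℝ) ^ e :=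
      mul_nonneg (Real.rpow_nonneg hm0.le _) (Real.rpow_nonneg hn0'.le _)
    have hadm := exp34_adm hn1' hm0 hc hb hCpos hr1 hr2 (show r1 ≤ r1 + r2 by linarith)
      (show r2 ≤ r1 + r2 by linarith) (hg (r1 + r2) (by linarith) hrr0)
    have hadm' : 4 * (r1 + r2) * (n : ℝ) ^ a + C0 * ((m : ℝ) ^ x * (n : ℝ) ^ e) ≤
        m * g (r1 + r2) := by
      have := mul_le_mul_of_nonneg_right hC0C hP
      linarith
    have hF := hC0 n m hm3 hm4 (r1 + r2) (by linarith) hrδ hadm'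
    -- the size of the bound
    have hna : 0 < (n : ℝ) ^ a := Real.rpow_pos_of_pos hn0' a
    have hbe : e / b ≤ e := div_le_self he0.le hb.le
    have g1 : r1 * (n : ℝ) ^ a ≤ K1 * (n : ℝ) ^ (θ * x + e) := by
      calc r1 * (n : ℝ) ^ a ≤ K1 * (n : ℝ) ^ σ1 * (n : ℝ) ^ a :=
            mul_le_mul_of_nonneg_right hr1le hna.le
        _ = K1 * (n : ℝ) ^ (θ * x) := by rw [mul_assoc, ← Real.rpow_add hn0', hs1]
        _ ≤ K1 * (n : ℝ) ^ (θ * x + e) := mul_le_mul_of_nonneg_left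
            (Real.rpow_le_rpow_of_exponent_le hn1' (by linarith)) hK10.le
    have g2 : r2 * (n : ℝ) ^ a ≤ K2 * (n : ℝ) ^ (θ * x + e) := by
      calc r2 * (n : ℝ) ^ a ≤ K2 * (n : ℝ) ^ σ2 * (n : ℝ) ^ a :=
            mul_le_mul_of_nonneg_right hr2le hna.le
        _ = K2 * (n : ℝ) ^ (θ * x + e / b) := by rw [mul_assoc, ← Real.rpow_add hn0', hs2]
        _ ≤ K2 * (n : ℝ) ^ (θ * x + e) := mul_le_mul_of_nonneg_left
            (Real.rpow_le_rpow_of_exponent_le hn1' (by linarith)) hK20.le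
    have g3 : (m : ℝ) ^ x * (n : ℝ) ^ e ≤ 2 * (n : ℝ) ^ (θ * x + e) := by
      have h1 : (m : ℝ) ^ x ≤ (2 * (n : ℝ) ^ θ) ^ x := Real.rpow_le_rpow hm0.le hm2 hx0.le
      have h2 : (2 * (n : ℝ) ^ θ) ^ x = 2 ^ x * (n : ℝ) ^ (θ * x) := by
        rw [Real.mul_rpow (by norm_num) (by positivity), ← Real.rpow_mul hn0'.le]
      have h3 : (2 : ℝ) ^ x ≤ 2 := by
        calc (2 : ℝ) ^ x ≤ 2 ^ (1 : ℝ) := Real.rpow_le_rpow_of_exponent_le (by norm_num) hx1.le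
          _ = 2 := Real.rpow_one _
      have h4 : 0 < (n : ℝ) ^ (θ * x) := Real.rpow_pos_of_pos hn0' _
      have h5 : 0 < (n : ℝ) ^ e := Real.rpow_pos_of_pos hn0' _
      rw [Real.rpow_add hn0']
      calc (m : ℝ) ^ x * (n : ℝ) ^ e ≤ (2 ^ x * (n : ℝ) ^ (θ * x)) * (n : ℝ) ^ e :=
            mul_le_mul_of_nonneg_right (h1.trans h2.le) h5.le
        _ ≤ (2 * (n : ℝ) ^ (θ * x)) * (n : ℝ) ^ e :=
            mul_le_mul_of_nonneg_right (mul_le_mul_of_nonneg_right h3 h4.le) h5.le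
        _ = 2 * ((n : ℝ) ^ (θ * x) * (n : ℝ) ^ e) := by ring
    have g4 : (r1 + r2) * (n : ℝ) ^ a + (m : ℝ) ^ x * (n : ℝ) ^ e ≤
        (K1 + K2 + 2) * (n : ℝ) ^ (θ * x + e) := by
      calc (r1 + r2) * (n : ℝ) ^ a + (m : ℝ) ^ x * (n : ℝ) ^ e
          = r1 * (n : ℝ) ^ a + r2 * (n : ℝ) ^ a + (m : ℝ) ^ x * (n : ℝ) ^ e := by ring
        _ ≤ K1 * (n : ℝ) ^ (θ * x + e) + K2 * (n : ℝ) ^ (θ * x + e) +
            2 * (n : ℝ) ^ (θ * x + e) := add_le_add (add_le_add g1 g2) g3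
        _ = (K1 + K2 + 2) * (n : ℝ) ^ (θ * x + e) := by ring
    have g5 : 0 ≤ (r1 + r2) * (n : ℝ) ^ a + (m : ℝ) ^ x * (n : ℝ) ^ e := by
      have := mul_nonneg (show 0 ≤ r1 + r2 by linarith) hna.le
      linarith
    have g6 : |C0 * ((r1 + r2) * (n : ℝ) ^ a + (m : ℝ) ^ x * (n : ℝ) ^ e)| ≤
        C * ((K1 + K2 + 2) * (n : ℝ) ^ (θ * x + e)) := by
      rw [abs_mul, abs_of_nonneg g5]
      exact mul_le_mul (by linarith) g4 g5 hCpos.le
    calc F q n ≤ (C0 * ((r1 + r2) * (n : ℝ) ^ a + (m : ℝ) ^ x * (n : ℝ) ^ e)) ^ q := hF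
      _ ≤ |C0 * ((r1 + r2) * (n : ℝ) ^ a + (m : ℝ) ^ x * (n : ℝ) ^ e)| ^ q := by
          rw [← abs_pow]
          exact le_abs_self _
      _ ≤ (C * ((K1 + K2 + 2) * (n : ℝ) ^ (θ * x + e))) ^ q :=
          pow_le_pow_left₀ (abs_nonneg _) g6 q
      _ = A1 * ((n : ℝ) ^ (θ * x + e)) ^ q := by
          rw [← mul_assoc, mul_pow]
      _ = A1 * (n : ℝ) ^ ((θ * x + e) * q) := by
          rw [Real.rpow_mul hn0'.le, Real.rpow_natCast]
      _ ≤ A1 * (n : ℝ) ^ E := by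
          refine mul_le_mul_of_nonneg_left (Real.rpow_le_rpow_of_exponent_le hn1' ?_) hA10
          rw [hE, hκ]
          exact mul_le_mul_of_nonneg_right (by linarith) (Nat.cast_nonneg q)
  -- small `n`
  set S : ℝ := ∑ k ∈ Finset.range n0, |F q k| with hS
  have hS0 : 0 ≤ S := Finset.sum_nonneg fun _ _ => abs_nonneg _
  refine ⟨A1 + S, fun n hn1 => ?_⟩
  have hn1' : (1 : ℝ) ≤ n := by exact_mod_cast hn1
  have hpow1 : 1 ≤ (n : ℝ) ^ E := Real.one_le_rpow hn1' hE0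
  rcases le_or_gt n0 n with hn | hn
  · exact (key n hn hn1).trans (mul_le_mul_of_nonneg_right (by linarith) (by linarith))
  · have h1 : |F q n| ≤ S := Finset.single_le_sum (f := fun k : ℕ => |F q k|)
        (fun _ _ => abs_nonneg _) (Finset.mem_range.2 hn)
    calc F q n ≤ S := (le_abs_self _).trans h1
      _ ≤ (A1 + S) * 1 := by linarith
      _ ≤ (A1 + S) * (n : ℝ) ^ E := mul_le_mul_of_nonneg_left hpow1 (by linarith)

end Pool.Agent.W_7d29a1_D2
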