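import Pool.Agent.W_7d29a1_D2.Defs46
import Pool.Agent.W_7d29a1_D2.Exp34

/-!
TEAM D2, leaf E2 (helper34): the inequality `(1 + (p - 1) χ*) χ# ≤ p ν* χ*` from the core estimate, when
`L (h + r) - L h - ⟨v, r⟩` is at least of order `‖r‖ ^ p` at every small scale.
-/

namespace Pool.Agent.W_7d29a1_D2

open MeasureTheory ProbabilityTheory Filter Topology Pool.Agent.W_MP_7d29a1_pr
  Pool.Agent.W_7d29a1_h46 Pool.Agent.W_7d29a1_h46u

variable {d : ℕ} {Ω : Type*} [MeasurableSpace Ω] {μ : Measure Ω} [IsProbabilityMeasure μ]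
  {ρ : Measure ℝ} [IsProbabilityMeasure ρ] {ω : ℕ × Site d → Ω → ℝ} {β : ℝ}

/-- Transfer of the moment condition at one tilt. -/
lemma expA34_mem (hd : 0 < d) (hω : IID μ ρ ω) (hρ : EM ρ) (h : Vec d) (x : ℝ) :
    x ∈ chiSetF μ β ω h ↔ 0 < x ∧ FlF ρ β h x := by
  unfold chiSetF FlF
  simp only [Set.mem_ofPred_eq, StrA_mom hd hω hρ]

lemma expA34_F_le_S (hd : 0 < d) (hω : IID μ ρ ω) (hρ : EM ρ) (h : Vec d) :
    chiF μ β ω h ≤ chiS μ β ω h := by
  have hne : (chiSetS μ β ω h).Nonempty :=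
    ⟨1 / 2, (mem_chiSetS hd hω hρ h (1 / 2)).2 ⟨by norm_num, Fl_half hd hρ β h⟩⟩
  refine csInf_le_csInf ⟨0, fun x hx => hx.1.le⟩ hne ?_
  rintro x ⟨hx0, hx⟩
  refine ⟨hx0, fun q => ?_⟩
  obtain ⟨δ, hδ, C, hC⟩ := hx q
  exact ⟨C, fun n hn => hC h (by simpa using hδ) n hn⟩

lemma expA34_LoA {L : Vec d → ℝ} {h v : Vec d} {p p' : ℝ} (hL : LoA L h v p) (hpp : p ≤ p') :
    LoA L h v p' := by
  obtain ⟨c, hc, δ, hδ, H⟩ := hL
  refine ⟨c, hc, min δ 1, lt_min hδ one_pos, fun s hs0 hs1 => ?_⟩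
  obtain ⟨r, hr, hr2⟩ := H s hs0 (hs1.trans (min_le_left _ _))
  refine ⟨r, hr, le_trans ?_ hr2⟩
  exact mul_le_mul_of_nonneg_left
    (Real.rpow_le_rpow_of_exponent_ge hs0 (hs1.trans (min_le_right _ _)) hpp) hc.le

/-- For exponents in the sets of the definitions. -/
lemma expA34_pair (hd : 0 < d) (hω : IID μ ρ ω) (hρ : EM ρ) {h v : Vec d} {p a x : ℝ}
    (hcore : CoreP ρ β h v a x) (ha : 0 < a) (hx0 : 0 < x) (hx1 : x < 1) (hp : 1 < p)
    (hL : LoA (lam ρ β) h v p) (hth : p * a < 1 + (p - 1) * x) :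
    (1 + (p - 1) * x) * chiF μ β ω h ≤ p * a * x := by
  obtain ⟨c, hc, r0, hr0, H⟩ := hL
  have hD0 : 0 < 1 + (p - 1) * x := by
    have := mul_pos (show 0 < p - 1 by linarith) hx0
    linarith
  have h1 := exp34 (F := fun q n => ∫ η, |X β h η n - A ρ β h n| ^ q ∂(law d ρ))
    (g := fun s => c * s ^ p) (a := a) (x := x) (b := p) (c := c) (r0 := r0) (by
      intro q ε hε
      obtain ⟨δ, hδ, C, hC0, hC⟩ := hcore q ε hε
      refine ⟨min δ r0, lt_min hδ hr0, C, fun n m hm1 hmn s hs0 hs1 hs2 => ?_⟩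
      obtain ⟨r, hr1, hr2⟩ := H s hs0 (hs1.le.trans (min_le_right _ _))
      have h3 := hC n m hm1 hmn r (by rw [hr1]; exact hs0)
        (by rw [hr1]; exact hs1.trans_le (min_le_left _ _)) (by
          rw [hr1]
          refine hs2.trans (mul_le_mul_of_nonneg_left hr2 (Nat.cast_nonneg m)))
      rw [hr1] at h3
      exact h3) ha hx0 hx1 hp hc hr0 (fun r _ _ => le_rfl) hth
  have hκ : 0 ≤ p * a * x / (1 + (p - 1) * x) := by positivity
  have h2 : chiF μ β ω h ≤ p * a * x / (1 + (p - 1) * x) := by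
    refine le_of_forall_pos_le_add fun ε hε => ?_
    refine csInf_le ⟨0, fun y hy => hy.1.le⟩ ((expA34_mem hd hω hρ h _).2 ⟨by linarith, fun q => ?_⟩)
    obtain ⟨C, hC⟩ := h1 q ε hε
    exact ⟨C, fun n hn => hC n hn⟩
  rw [le_div_iff₀ hD0] at h2
  linarith

lemma expA34_main (hd : 0 < d) (hω : IID μ ρ ω) (hρ : EM ρ) {h v : Vec d} {p : ℝ}
    (hcore : ∀ a x : ℝ, 0 < a → a < 1 → 0 < x → x < 1 → Fl ρ β h x → TbF ρ β h v a →
      CoreP ρ β h v a x) (hp : 1 < p) (hL : LoA (lam ρ β) h v p) :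
    (1 + (p - 1) * chiS μ β ω h) * chiF μ β ω h ≤ p * nuS μ β ω h v * chiS μ β ω h := by
  have hc0 : 0 ≤ chiS μ β ω h := Real.sInf_nonneg fun _ hx => hx.1.le
  have hN0 : 0 ≤ nuS μ β ω h v := Real.sInf_nonneg fun _ hx => hx.1.le
  have hX0 : 0 ≤ chiF μ β ω h := Real.sInf_nonneg fun _ hx => hx.1.le
  have hXc := expA34_F_le_S (β := β) hd hω hρ h
  have hc2 := chiS_le_half (β := β) hd hω hρ h
  have hneX : (chiSetS μ β ω h).Nonempty :=
    ⟨1 / 2, (mem_chiSetS hd hω hρ _ _).2 ⟨by norm_num, Fl_half hd hρ β _⟩⟩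
  have hneE : (nuSetS μ β ω h v).Nonempty := ⟨2, StrB_two_mem hd ω β h v⟩
  have hp1 : 0 < p - 1 := by linarith
  have hp0 : 0 < p := by linarith
  set c : ℝ := chiS μ β ω h with hc
  set N : ℝ := nuS μ β ω h v with hN
  set Y : ℝ := chiF μ β ω h with hY
  have hD0 : 0 ≤ 1 + (p - 1) * c := by positivity
  rcases le_or_gt (1 + (p - 1) * c) (p * N) with h1 | h1
  · calc (1 + (p - 1) * c) * Y ≤ (1 + (p - 1) * c) * c := mul_le_mul_of_nonneg_left hXc hD0
      _ ≤ p * N * c := mul_le_mul_of_nonneg_right h1 hc0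
  · refine le_of_forall_pos_le_add fun ε hε => ?_
    have hS : 0 < p * (N + c + 1) := by positivity
    obtain ⟨η, hη0, hη1, hη2, hη3, hη4⟩ : ∃ η : ℝ, 0 < η ∧ η ≤ 1 ∧ η * (p * (N + c + 1)) ≤ ε ∧
        p * η < 1 + (p - 1) * c - p * N ∧ η ≤ 1 / 4 := by
      have hg : 0 < 1 + (p - 1) * c - p * N := by linarith
      refine ⟨min (min 1 (ε / (p * (N + c + 1)))) (min ((1 + (p - 1) * c - p * N) / (2 * p)) (1 / 4)),
        lt_min (lt_min one_pos (by positivity)) (lt_min (by positivity) (by norm_num)),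
        (min_le_left _ _).trans (min_le_left _ _), ?_, ?_,
        (min_le_right _ _).trans (min_le_right _ _)⟩
      · rw [← le_div_iff₀ hS]
        exact (min_le_left _ _).trans (min_le_right _ _)
      · have h2 : min (min 1 (ε / (p * (N + c + 1))))
            (min ((1 + (p - 1) * c - p * N) / (2 * p)) (1 / 4)) ≤
            (1 + (p - 1) * c - p * N) / (2 * p) := (min_le_right _ _).trans (min_le_left _ _)
        have h3 := mul_le_mul_of_nonneg_left h2 hp0.le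
        have h4 : p * ((1 + (p - 1) * c - p * N) / (2 * p)) = (1 + (p - 1) * c - p * N) / 2 := by
          field_simp
        linarith
    obtain ⟨x, hx, hxlt⟩ := exists_lt_of_csInf_lt hneX (show sInf (chiSetS μ β ω h) < c + η by
      change c < c + η
      linarith)
    obtain ⟨a, ha, halt⟩ := exists_lt_of_csInf_lt hneE
      (show sInf (nuSetS μ β ω h v) < N + η by
        change N < N + η
        linarith)
    have hcx : c ≤ x := csInf_le ⟨0, fun y hy => hy.1.le⟩ hx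
    obtain ⟨hx0, hF⟩ := (mem_chiSetS hd hω hρ h x).1 hx
    obtain ⟨ha0, hT⟩ := (mem_nuSetS hω h v a).1 ha
    have hx1 : x < 1 := by linarith
    have hpx : (p - 1) * c ≤ (p - 1) * x := mul_le_mul_of_nonneg_left hcx hp1.le
    have hpa : p * a < p * (N + η) := mul_lt_mul_of_pos_left halt hp0
    have hth : p * a < 1 + (p - 1) * x := by linarith [mul_add p N η]
    have ha1 : a < 1 := by
      have h7 : (p - 1) * x < (p - 1) * 1 := mul_lt_mul_of_pos_left hx1 hp1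
      have h8 : p * a < p * 1 := by linarith
      exact lt_of_mul_lt_mul_left h8 hp0.le
    have h2 := expA34_pair (μ := μ) (ω := ω) hd hω hρ (hcore a x ha0 ha1 hx0 hx1 hF hT) ha0 hx0 hx1
      hp hL hth
    have h3 : (1 + (p - 1) * c) * Y ≤ (1 + (p - 1) * x) * Y :=
      mul_le_mul_of_nonneg_right (by linarith) hX0
    have h4 : a * x ≤ (N + η) * (c + η) := mul_le_mul halt.le hxlt.le hx0.le (by linarith)
    have h5 : (N + η) * (c + η) ≤ N * c + η * (N + c + 1) := by nlinarith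
    have h6 : p * (a * x) ≤ p * (N * c + η * (N + c + 1)) :=
      mul_le_mul_of_nonneg_left (h4.trans h5) hp0.le
    calc (1 + (p - 1) * c) * Y ≤ (1 + (p - 1) * x) * Y := h3
      _ ≤ p * a * x := h2
      _ = p * (a * x) := by ring
      _ ≤ p * (N * c + η * (N + c + 1)) := h6
      _ = p * N * c + η * (p * (N + c + 1)) := by ring
      _ ≤ p * N * c + ε := by linarith

/-- TASK E2, the core being needed for `a < 1` only. -/
theorem expA34_lt (hd : 0 < d) (hω : IID μ ρ ω) (hρ : EM ρ) {h v : Vec d} {p : ℝ}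
    (hcore : ∀ a x : ℝ, 0 < a → a < 1 → 0 < x → x < 1 → Fl ρ β h x → TbF ρ β h v a →
      CoreP ρ β h v a x) (hp : 1 ≤ p) (hL : LoA (lam ρ β) h v p) :
    (1 + (p - 1) * chiS μ β ω h) * chiF μ β ω h ≤ p * nuS μ β ω h v * chiS μ β ω h := by
  rcases hp.lt_or_eq with hp | rfl
  · exact expA34_main hd hω hρ hcore hp hL
  · have hc0 : 0 ≤ chiS μ β ω h := Real.sInf_nonneg fun _ hx => hx.1.le
    have hN0 : 0 ≤ nuS μ β ω h v := Real.sInf_nonneg fun _ hx => hx.1.le
    have hX0 : 0 ≤ chiF μ β ω h := Real.sInf_nonneg fun _ hx => hx.1.le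
    have h1 : ∀ η : ℝ, 0 < η → chiF μ β ω h ≤ nuS μ β ω h v * chiS μ β ω h +
        η * (nuS μ β ω h v * chiS μ β ω h) := by
      intro η hη
      have h2 := expA34_main (μ := μ) (ω := ω) hd hω hρ hcore (show 1 < 1 + η by linarith)
        (expA34_LoA hL (show (1 : ℝ) ≤ 1 + η by linarith))
      have h3 : 0 ≤ η * (chiS μ β ω h * chiF μ β ω h) := by positivity
      nlinarith
    have h4 : chiF μ β ω h ≤ nuS μ β ω h v * chiS μ β ω h := by
      refine le_of_forall_pos_le_add fun ε hε => ?_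
      have hM : 0 < nuS μ β ω h v * chiS μ β ω h + 1 := by positivity
      have h5 := h1 (ε / (nuS μ β ω h v * chiS μ β ω h + 1)) (by positivity)
      have h6 : ε / (nuS μ β ω h v * chiS μ β ω h + 1) * (nuS μ β ω h v * chiS μ β ω h) ≤ ε := by
        rw [div_mul_eq_mul_div, div_le_iff₀ hM]
        nlinarith
      linarith
    linarith

/-- TASK E2. -/
theorem expA34 (hd : 0 < d) (hω : IID μ ρ ω) (hρ : EM ρ) {h v : Vec d} {p : ℝ}
    (hcore : ∀ a x : ℝ, 0 < a → 0 < x → x < 1 → Fl ρ β h x → TbF ρ β h v a →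
      CoreP ρ β h v a x) (hp : 1 ≤ p) (hL : LoA (lam ρ β) h v p) :
    (1 + (p - 1) * chiS μ β ω h) * chiF μ β ω h ≤ p * nuS μ β ω h v * chiS μ β ω h :=
  expA34_lt hd hω hρ (fun a x ha _ hx0 hx1 hF hT => hcore a x ha hx0 hx1 hF hT) hp hL

end Pool.Agent.W_7d29a1_D2
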