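import Pool.Agent.W_7d29a1_D2.DefsK4
import Pool.Agent.W_7d29a1_D2.ExpA34

/-!
TEAM D2, leaf D4-5 (helper34): the inequality `(1 + (p - 1) χ#) χ# ≤ p ν* χ#` at a tilt which is a point
of density of the tilts with small fluctuations, when the gap is at least of order `‖r‖ ^ p` at every
small scale.
-/

namespace Pool.Agent.W_7d29a1_D2

open MeasureTheory ProbabilityTheory Filter Topology Pool.Agent.W_MP_7d29a1_pr
  Pool.Agent.W_7d29a1_h46 Pool.Agent.W_7d29a1_h46u

variable {d : ℕ} {Ω : Type*} [MeasurableSpace Ω] {μ : Measure Ω} [IsProbabilityMeasure μ]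
  {ρ : Measure ℝ} [IsProbabilityMeasure ρ] {ω : ℕ × Site d → Ω → ℝ} {β : ℝ}

lemma expK34_LoAK {L : Vec d → ℝ} {K : ℕ → Set (Vec d)} {h v : Vec d} {p p' : ℝ}
    (hL : LoAK L K h v p) (hpp : p ≤ p') : LoAK L K h v p' := by
  obtain ⟨c, hc, H⟩ := hL
  refine ⟨c, hc, fun Q => ?_⟩
  obtain ⟨δ, hδ, H⟩ := H Q
  refine ⟨min δ 1, lt_min hδ one_pos, fun s hs0 hs1 => ?_⟩
  obtain ⟨r, h1, h2, h3, h4⟩ := H s hs0 (hs1.trans (min_le_left _ _))
  refine ⟨r, h1, h2, h3, le_trans ?_ h4⟩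
  exact mul_le_mul_of_nonneg_left
    (Real.rpow_le_rpow_of_exponent_ge hs0 (hs1.trans (min_le_right _ _)) hpp) hc.le

/-- For exponents in the sets of the definitions. -/
lemma expK34_pair (hd : 0 < d) (hω : IID μ ρ ω) (hρ : EM ρ) {h v : Vec d} {p a x : ℝ}
    {K : ℕ → Set (Vec d)} (hcore : CoreK ρ β K h v a x) (ha : 0 < a) (hx0 : 0 < x) (hx1 : x < 1)
    (hp : 1 < p) (hL : LoAK (lam ρ β) K h v p) (hth : p * a < 1 + (p - 1) * x) :
    (1 + (p - 1) * x) * chiF μ β ω h ≤ p * a * x := by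
  obtain ⟨c, hc, H⟩ := hL
  have hD0 : 0 < 1 + (p - 1) * x := by
    have := mul_pos (show 0 < p - 1 by linarith) hx0
    linarith
  have hc3 : 0 < c / 3 ^ p := div_pos hc (Real.rpow_pos_of_pos (by norm_num) _)
  have h1 := exp34 (F := fun q n => ∫ η, |X β h η n - A ρ β h n| ^ q ∂(law d ρ))
    (g := fun s => c / 3 ^ p * s ^ p) (a := a) (x := x) (b := p) (c := c / 3 ^ p) (r0 := 1) (by
      intro q ε hε
      obtain ⟨Q, δ, hδ, C, hC0, hC⟩ := hcore q ε hε
      obtain ⟨δQ, hδQ, HQ⟩ := H Q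
      refine ⟨min δ δQ, lt_min hδ hδQ, C, fun n m hm1 hmn s hs0 hs1 hs2 => ?_⟩
      have hs3 : 0 < s / 3 := by positivity
      have hsδ : s < δ := hs1.trans_le (min_le_left _ _)
      have hsQ : s < δQ := hs1.trans_le (min_le_right _ _)
      obtain ⟨r, hr1, hr2, hr3, hr4⟩ := HQ (s / 3) hs3 (by linarith)
      have hr0 : 0 < ‖r‖ := hs3.trans_le hr1
      have hrs : ‖r‖ ≤ s := by linarith
      have e1 : c / 3 ^ p * s ^ p = c * (s / 3) ^ p := by
        rw [Real.div_rpow hs0.le (by norm_num)]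
        ring
      have hna : 0 ≤ (n : ℝ) ^ a := Real.rpow_nonneg (Nat.cast_nonneg n) _
      have h3 := hC n m hm1 hmn r hr0 (by linarith) hr3 (by
        have h5 : 4 * ‖r‖ * (n : ℝ) ^ a ≤ 4 * s * (n : ℝ) ^ a :=
          mul_le_mul_of_nonneg_right (by linarith) hna
        have h6 : (m : ℝ) * (c / 3 ^ p * s ^ p) ≤ m * gap (lam ρ β) h v r := by
          rw [e1]
          exact mul_le_mul_of_nonneg_left hr4 (Nat.cast_nonneg m)
        linarith)
      refine h3.trans (pow_le_pow_left₀ ?_ ?_ q)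
      · have := Real.rpow_nonneg (Nat.cast_nonneg (α := ℝ) m) x
        have := Real.rpow_nonneg (Nat.cast_nonneg (α := ℝ) n) ε
        positivity
      · refine mul_le_mul_of_nonneg_left ?_ hC0
        have h5 : ‖r‖ * (n : ℝ) ^ a ≤ s * (n : ℝ) ^ a := mul_le_mul_of_nonneg_right hrs hna
        linarith) ha hx0 hx1 hp hc3 one_pos (fun r _ _ => le_rfl) hth
  have hκ : 0 ≤ p * a * x / (1 + (p - 1) * x) := by positivity
  have h2 : chiF μ β ω h ≤ p * a * x / (1 + (p - 1) * x) := by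
    refine le_of_forall_pos_le_add fun ε hε => ?_
    refine csInf_le ⟨0, fun y hy => hy.1.le⟩ ((expA34_mem hd hω hρ h _).2 ⟨by linarith, fun q => ?_⟩)
    obtain ⟨C, hC⟩ := h1 q ε hε
    exact ⟨C, fun n hn => hC n hn⟩
  rw [le_div_iff₀ hD0] at h2
  linarith

lemma expK34_main (hd : 0 < d) (hω : IID μ ρ ω) (hρ : EM ρ) {h v : Vec d} {p : ℝ} (hp : 1 < p)
    (hDn : DnP ρ β h)
    (hcore : ∀ (a x : ℝ) (K : ℕ → Set (Vec d)), 0 < a → 0 < x → x < 1 → FlK ρ β K x →
      (∀ Q, h ∈ K Q) → TbF ρ β h v a → CoreK ρ β K h v a x)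
    (hLo : ∀ K : ℕ → Set (Vec d), DnK K h → LoAK (lam ρ β) K h v p) :
    (1 + (p - 1) * chiF μ β ω h) * chiF μ β ω h ≤ p * nuS μ β ω h v * chiF μ β ω h := by
  have hN0 : 0 ≤ nuS μ β ω h v := Real.sInf_nonneg fun _ hx => hx.1.le
  have hX0 : 0 ≤ chiF μ β ω h := Real.sInf_nonneg fun _ hx => hx.1.le
  have hXc := expA34_F_le_S (β := β) hd hω hρ h
  have hc2 := chiS_le_half (β := β) hd hω hρ h
  have hneX : (chiSetF μ β ω h).Nonempty := by
    refine ⟨1 / 2, (expA34_mem hd hω hρ _ _).2 ⟨by norm_num, fun q => ?_⟩⟩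
    obtain ⟨δ, hδ, C, hC⟩ := Fl_half hd hρ β h q
    exact ⟨C, fun n hn => hC h (by simpa using hδ) n hn⟩
  have hneE : (nuSetS μ β ω h v).Nonempty := ⟨2, StrB_two_mem hd ω β h v⟩
  have hp1 : 0 < p - 1 := by linarith
  have hp0 : 0 < p := by linarith
  have hc2' : chiF μ β ω h ≤ 1 / 2 := hXc.trans hc2
  set c : ℝ := chiF μ β ω h with hc
  set N : ℝ := nuS μ β ω h v with hN
  have hD0 : 0 ≤ 1 + (p - 1) * c := by positivity
  rcases le_or_gt (1 + (p - 1) * c) (p * N) with h1 | h1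
  · exact mul_le_mul_of_nonneg_right h1 hX0
  · refine le_of_forall_pos_le_add fun ε hε => ?_
    have hS : 0 < p * (N + c + 1) := by positivity
    obtain ⟨η, hη0, hη1, hη2, hη3, hη4⟩ : ∃ η : ℝ, 0 < η ∧ η ≤ 1 ∧ η * (p * (N + c + 1)) ≤ ε ∧
        p * η < 1 + (p - 1) * c - p * N ∧ η ≤ 1 / 4 := by
      have hg : 0 < 1 + (p - 1) * c - p * N := by linarith
      refine ⟨min (min 1 (ε / (p * (N + c + 1)))) (min ((1 + (p - 1) * c - p * N) / (2 * p)) (1 / 4)),
        lt_min (lt_min one_pos (by positivity)) (lt_min (by positivity) (by norm_num)),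
        (min_le_left _ _).trans (min_le_left _ _), ?_, ?_,
        (min_le_right _ _).trans (min_le_right _ _)⟩
      · rw [← le_div_iff₀ hS]
        exact (min_le_left _ _).trans (min_le_right _ _)
      · have h2 : min (min 1 (ε / (p * (N + c + 1))))
            (min ((1 + (p - 1) * c - p * N) / (2 * p)) (1 / 4)) ≤
            (1 + (p - 1) * c - p * N) / (2 * p) := (min_le_right _ _).trans (min_le_left _ _)
        have h3 := mul_le_mul_of_nonneg_left h2 hp0.le
        have h4 : p * ((1 + (p - 1) * c - p * N) / (2 * p)) = (1 + (p - 1) * c - p * N) / 2 := by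
          field_simp
        linarith
    obtain ⟨x', hx', hxlt'⟩ := exists_lt_of_csInf_lt hneX (show sInf (chiSetF μ β ω h) < c + η by
      change c < c + η
      linarith)
    obtain ⟨a, ha, halt⟩ := exists_lt_of_csInf_lt hneE
      (show sInf (nuSetS μ β ω h v) < N + η by
        change N < N + η
        linarith)
    have hcx' : c ≤ x' := csInf_le ⟨0, fun y hy => hy.1.le⟩ hx'
    obtain ⟨x, hxx, hxlt⟩ := exists_between hxlt'
    obtain ⟨hx0', hF'⟩ := (expA34_mem hd hω hρ h x').1 hx'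
    obtain ⟨ha0, hT⟩ := (mem_nuSetS hω h v a).1 ha
    obtain ⟨K, hFK, hDK⟩ := hDn x' x hxx hF'
    have hcx : c ≤ x := hcx'.trans hxx.le
    have hx0 : 0 < x := hx0'.trans hxx
    have hx1 : x < 1 := by linarith
    have hpx : (p - 1) * c ≤ (p - 1) * x := mul_le_mul_of_nonneg_left hcx hp1.le
    have hpa : p * a < p * (N + η) := mul_lt_mul_of_pos_left halt hp0
    have hth : p * a < 1 + (p - 1) * x := by linarith [mul_add p N η]
    have h2 := expK34_pair (μ := μ) (ω := ω) hd hω hρ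
      (hcore a x K ha0 hx0 hx1 hFK (fun Q => (hDK Q).1) hT) ha0 hx0 hx1 hp (hLo K hDK) hth
    have h3 : (1 + (p - 1) * c) * c ≤ (1 + (p - 1) * x) * c :=
      mul_le_mul_of_nonneg_right (by linarith) hX0
    have h4 : a * x ≤ (N + η) * (c + η) := mul_le_mul halt.le hxlt.le hx0.le (by linarith)
    have h5 : (N + η) * (c + η) ≤ N * c + η * (N + c + 1) := by nlinarith
    have h6 : p * (a * x) ≤ p * (N * c + η * (N + c + 1)) :=
      mul_le_mul_of_nonneg_left (h4.trans h5) hp0.le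
    calc (1 + (p - 1) * c) * c ≤ (1 + (p - 1) * x) * c := h3
      _ ≤ p * a * x := h2
      _ = p * (a * x) := by ring
      _ ≤ p * (N * c + η * (N + c + 1)) := h6
      _ = p * N * c + η * (p * (N + c + 1)) := by ring
      _ ≤ p * N * c + ε := by linarith

/-- TASK D4-5. -/
theorem expAK34 (hd : 0 < d) (hω : IID μ ρ ω) (hρ : EM ρ) {h v : Vec d} {p : ℝ} (hp : 1 ≤ p)
    (hDn : DnP ρ β h)
    (hcore : ∀ (a x : ℝ) (K : ℕ → Set (Vec d)), 0 < a → 0 < x → x < 1 → FlK ρ β K x →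
      (∀ Q, h ∈ K Q) → TbF ρ β h v a → CoreK ρ β K h v a x)
    (hLo : ∀ K : ℕ → Set (Vec d), DnK K h → LoAK (lam ρ β) K h v p) :
    (1 + (p - 1) * chiF μ β ω h) * chiF μ β ω h ≤ p * nuS μ β ω h v * chiF μ β ω h := by
  rcases hp.lt_or_eq with hp | rfl
  · exact expK34_main hd hω hρ hp hDn hcore hLo
  · have hN0 : 0 ≤ nuS μ β ω h v := Real.sInf_nonneg fun _ hx => hx.1.le
    have hX0 : 0 ≤ chiF μ β ω h := Real.sInf_nonneg fun _ hx => hx.1.le
    have h1 : ∀ η : ℝ, 0 < η → chiF μ β ω h ≤ nuS μ β ω h v * chiF μ β ω h +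
        η * (nuS μ β ω h v * chiF μ β ω h) := by
      intro η hη
      have h2 := expK34_main (μ := μ) (ω := ω) hd hω hρ (show 1 < 1 + η by linarith) hDn hcore
        (fun K hK => expK34_LoAK (hLo K hK) (show (1 : ℝ) ≤ 1 + η by linarith))
      have h3 : 0 ≤ η * (chiF μ β ω h * chiF μ β ω h) := by positivity
      nlinarith
    have h4 : chiF μ β ω h ≤ nuS μ β ω h v * chiF μ β ω h := by
      refine le_of_forall_pos_le_add fun ε hε => ?_
      have hM : 0 < nuS μ β ω h v * chiF μ β ω h + 1 := by positivity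
      have h5 := h1 (ε / (nuS μ β ω h v * chiF μ β ω h + 1)) (by positivity)
      have h6 : ε / (nuS μ β ω h v * chiF μ β ω h + 1) * (nuS μ β ω h v * chiF μ β ω h) ≤ ε := by
        rw [div_mul_eq_mul_div, div_le_iff₀ hM]
        nlinarith
      linarith
    linarith

end Pool.Agent.W_7d29a1_D2
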