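import Pool.Agent.W_7d29a1_D2.Defs46
import Pool.Agent.W_7d29a1_h46u.StrC

/-!
The exponent of all moments at one tilt: transfer to the model law, and its place between the
exponent of the problem and the strong exponent.
-/

namespace Pool.Agent.W_7d29a1_D2

open MeasureTheory ProbabilityTheory Filter Topology Pool.Agent.W_MP_7d29a1_pr
  Pool.Agent.W_7d29a1_h46 Pool.Agent.W_7d29a1_h46u

variable {d : ℕ} {Ω : Type*} [MeasurableSpace Ω] {μ : Measure Ω} [IsProbabilityMeasure μ]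
  {ρ : Measure ℝ} [IsProbabilityMeasure ρ] {ω : ℕ × Site d → Ω → ℝ} {β : ℝ}

/-- Transfer of the moment condition at one tilt. -/
theorem mem_chiSetF (hd : 0 < d) (hω : IID μ ρ ω) (hρ : EM ρ) (h : Vec d) (x : ℝ) :
    x ∈ chiSetF μ β ω h ↔ 0 < x ∧ FlF ρ β h x := by
  unfold chiSetF FlF
  simp only [Set.mem_ofPred_eq, StrA_mom hd hω hρ]

/-- The uniform moment condition contains the one at the tilt itself. -/
theorem FlF_of_Fl {h : Vec d} {x : ℝ} (hF : Fl ρ β h x) : FlF ρ β h x := by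
  intro q
  obtain ⟨δ, hδ, C, hC⟩ := hF q
  exact ⟨C, hC h (by simpa using hδ)⟩

theorem chiSetS_sub_chiSetF (h : Vec d) : chiSetS μ β ω h ⊆ chiSetF μ β ω h := by
  rintro x ⟨hx, H⟩
  refine ⟨hx, fun q => ?_⟩
  obtain ⟨δ, hδ, C, hC⟩ := H q
  exact ⟨C, hC h (by simpa using hδ)⟩

theorem bddBelow_chiSetF (h : Vec d) : BddBelow (chiSetF μ β ω h) := ⟨0, fun _ hx => hx.1.le⟩

theorem half_mem_chiSetF (hd : 0 < d) (hω : IID μ ρ ω) (hρ : EM ρ) (h : Vec d) :
    (1 / 2 : ℝ) ∈ chiSetF μ β ω h :=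
  (mem_chiSetF hd hω hρ h _).2 ⟨by norm_num, FlF_of_Fl (Fl_half hd hρ β h)⟩

theorem chiF_nonneg (h : Vec d) : 0 ≤ chiF μ β ω h := Real.sInf_nonneg fun _ hx => hx.1.le

/-- The exponent of all moments at `h` is at most the strong exponent. -/
theorem chiF_le_chiS (hd : 0 < d) (hω : IID μ ρ ω) (hρ : EM ρ) (h : Vec d) :
    chiF μ β ω h ≤ chiS μ β ω h :=
  csInf_le_csInf (bddBelow_chiSetF h)
    ⟨1 / 2, (mem_chiSetS hd hω hρ h (1 / 2)).2 ⟨by norm_num, Fl_half hd hρ β h⟩⟩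
    (chiSetS_sub_chiSetF h)

/-- The exponent of the problem is at most the exponent of all moments (second moments). -/
theorem chiT_le_chiF (hd : 0 < d) (hω : IID μ ρ ω) (hρ : EM ρ) (h : Vec d) :
    chiT μ β ω h ≤ chiF μ β ω h := by
  refine le_csInf ⟨1 / 2, half_mem_chiSetF hd hω hρ h⟩ fun x hx => ?_
  unfold chiT
  rcases Set.eq_empty_or_nonempty {x : ℝ | 0 < x ∧ ∀ᶠ n : ℕ in Filter.atTop,
    (n : ℝ) ^ (2 * x) ≤ Var[fun y => Real.log (Zn β h (fun p => ω p y) n); μ]} with hT | hT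
  · rw [hT, Real.sSup_empty]
    exact hx.1.le
  · refine csSup_le hT ?_
    rintro y ⟨hy0, hy⟩
    by_contra hcon
    have hxy : x < y := not_le.1 hcon
    obtain ⟨C, hC⟩ := hx.2 2
    have h1 : ∀ n : ℕ, 1 ≤ n →
        Var[fun y => Real.log (Zn β h (fun p => ω p y) n); μ] ≤ C * (n : ℝ) ^ (2 * x) := by
      intro n hn
      have h2 := hC n hn
      rw [variance_eq_integral (VarU_measurable β h n hω).aemeasurable]
      simp only [sq_abs] at h2
      have h3 : x * ((2 : ℕ) : ℝ) = 2 * x := by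
        push_cast
        ring
      rw [h3] at h2
      exact h2
    have h2 : ∀ᶠ n : ℕ in atTop, (n : ℝ) ^ (2 * (y - x)) ≤ C := by
      filter_upwards [hy, eventually_ge_atTop 1] with n hn hn1
      have h3 := hn.trans (h1 n hn1)
      have hn0 : (0 : ℝ) < n := by exact_mod_cast hn1
      have h4 : (n : ℝ) ^ (2 * y) = (n : ℝ) ^ (2 * (y - x)) * (n : ℝ) ^ (2 * x) := by
        rw [← Real.rpow_add hn0]
        congr 1
        ring
      rw [h4] at h3
      exact le_of_mul_le_mul_right h3 (Real.rpow_pos_of_pos hn0 _)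
    have h4 : Tendsto (fun n : ℕ => (n : ℝ) ^ (2 * (y - x))) atTop atTop :=
      (tendsto_rpow_atTop (by linarith)).comp tendsto_natCast_atTop_atTop
    obtain ⟨n, hn, hn'⟩ := (h2.and (h4.eventually_gt_atTop C)).exists
    linarith

theorem chiF_le_half (hd : 0 < d) (hω : IID μ ρ ω) (hρ : EM ρ) (h : Vec d) :
    chiF μ β ω h ≤ 1 / 2 :=
  (chiF_le_chiS hd hω hρ h).trans (chiS_le_half hd hω hρ h)

end Pool.Agent.W_7d29a1_D2
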