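import Pool.Agent.W_7d29a1_D2.Den67
import Pool.Agent.W_7d29a1_D2.TrF53
import Pool.Agent.W_7d29a1_D2.DefsK4

/-!
# The second inequality at a density point of the sets of tilts with bounded fluctuations

`expLK67`: at a tilt `h` with `DnP`, if at infinitely many scales the free energy is at least of
order `‖r‖ ^ p` above its tangent plane at a tilt `h + r` of the set `K Q`, then
`(1 + (p - 1) χ₀) χ ≤ p ν* χ₀`, with `χ₀` the exponent of all moments at the tilt `h` alone.
-/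

namespace Pool.Agent.W_7d29a1_D2

open MeasureTheory ProbabilityTheory Filter Topology Pool.Agent.W_MP_7d29a1_pr
  Pool.Agent.W_7d29a1_h46 Pool.Agent.W_7d29a1_h46u

variable {d : ℕ} {Ω : Type*} [MeasurableSpace Ω] {μ : Measure Ω} [IsProbabilityMeasure μ]
  {ρ : Measure ℝ} [IsProbabilityMeasure ρ] {ω : ℕ × Site d → Ω → ℝ} {β : ℝ}

/-- The case `1 < p` of `expLK67`. -/
theorem denK67 (hd : 0 < d) (hω : IID μ ρ ω) (hρ : EM ρ) {h v : Vec d} {b : ℝ} (hb : 1 < b)
    (hDn : DnP ρ β h)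
    (hcore : ∀ (a x : ℝ) (K : ℕ → Set (Vec d)), 0 < a → 0 < x → x < 1 → FlK ρ β K x →
      (∀ Q, h ∈ K Q) → TbF ρ β h v a → CoreK ρ β K h v a x)
    (hLo : ∀ K : ℕ → Set (Vec d), DnK K h → LoGK (lam ρ β) K h v b) :
    (1 + (b - 1) * chiF μ β ω h) * chiT μ β ω h ≤ b * nuS μ β ω h v * chiF μ β ω h := by
  have hχ1 := chiT_le_chiF (β := β) hd hω hρ h
  have hχh := chiF_le_half (β := β) hd hω hρ h
  have hne : (chiSetF μ β ω h).Nonempty := ⟨1 / 2, half_mem_chiSetF hd hω hρ h⟩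
  have hχ0 : 0 ≤ chiF μ β ω h := chiF_nonneg h
  have hχT0 : 0 ≤ chiT μ β ω h := Real.sSup_nonneg fun _ hx => hx.1.le
  have hν0 := K67.nuS_nonneg67 (μ := μ) (β := β) (ω := ω) h v
  -- the inequality for members of the first set and exponents above the exponent of all moments
  have key : ∀ a ∈ nuSetS μ β ω h v, ∀ x : ℝ, chiF μ β ω h < x → x < 1 →
      (1 + (b - 1) * x) * chiT μ β ω h ≤ b * a * x := by
    intro a ha x hx hx1
    have ha0 : 0 < a := ha.1
    have hx0 : 0 < x := hχ0.trans_lt hx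
    have hD0 : 0 < 1 + (b - 1) * x := by
      have : 0 < (b - 1) * x := mul_pos (by linarith) hx0
      linarith
    have hTx : chiT μ β ω h ≤ x := hχ1.trans hx.le
    rcases lt_or_ge (b * a / (1 + (b - 1) * x)) 1 with hθ | hθ
    · -- the main case
      obtain ⟨x', hx', hxx⟩ := exists_lt_of_csInf_lt hne hx
      obtain ⟨_, hF'⟩ := (mem_chiSetF hd hω hρ h x').1 hx'
      obtain ⟨K, hF, hDK⟩ := hDn x' x hxx hF'
      obtain ⟨c, hc, hs⟩ := hLo K hDK
      obtain ⟨_, hT⟩ := (mem_nuSetS hω h v a).1 ha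
      have hcK := hcore a x K ha0 hx0 hx1 hF (fun Q => (hDK Q).1) hT
      set θ : ℝ := b * a / (1 + (b - 1) * x) with hθd
      have hτ : 0 < a * (1 - x) / (1 + (b - 1) * x) :=
        div_pos (mul_pos ha0 (by linarith)) hD0
      have hlim : ∀ ε : ℝ, 0 < ε → 2 * ε < a * (1 - x) / (1 + (b - 1) * x) →
          chiT μ β ω h ≤ θ * x + 2 * ε := by
        intro ε hε hε1
        obtain ⟨Q, δ, hδ, C, hC, hcr⟩ := hcK 2 ε hε
        refine K67.chiT67 (K := 4 * C) (by positivity) fun N0 => ?_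
        obtain ⟨s0, hs0, hscale⟩ := K67.scale67 ha0 hx0 hx1 hb hc hC hε rfl hε1 hθ N0
        have hmin : 0 < min s0 δ / 2 := half_pos (lt_min hs0 hδ)
        obtain ⟨u, hu0, hu1, huK, hu2⟩ := hs Q (min s0 δ / 2) hmin
        have hu3 : ‖u‖ < min s0 δ := by linarith
        obtain ⟨n, m, hn, hm, hmn, h1, h2⟩ :=
          hscale ‖u‖ hu0 (hu3.trans_le (min_le_left _ _))
        refine ⟨n, hn, ?_⟩
        rw [K67.var67 hd hω hρ]
        have h3 := hcr n m hm hmn u hu0 (hu3.trans_le (min_le_right _ _)) huK (by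
          have := mul_le_mul_of_nonneg_left hu2 (Nat.cast_nonneg (α := ℝ) m)
          linarith)
        refine h3.trans ?_
        have h4 : 0 ≤ ‖u‖ * (n : ℝ) ^ a + (m : ℝ) ^ x * (n : ℝ) ^ ε := by positivity
        refine pow_le_pow_left₀ (mul_nonneg hC h4) ?_ 2
        have := mul_le_mul_of_nonneg_left h2 hC
        linarith
      have hle : chiT μ β ω h ≤ θ * x := by
        refine le_of_forall_pos_le_add fun η hη => ?_
        set ε : ℝ := min (η / 2) (a * (1 - x) / (1 + (b - 1) * x) / 4) with hε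
        have hε0 : 0 < ε := lt_min (by positivity) (by positivity)
        have hε1 : ε ≤ η / 2 := min_le_left _ _
        have hε2 : ε ≤ a * (1 - x) / (1 + (b - 1) * x) / 4 := min_le_right _ _
        have := hlim ε hε0 (by linarith)
        linarith
      have h5 := mul_le_mul_of_nonneg_left hle hD0.le
      refine h5.trans (le_of_eq ?_)
      rw [hθd]
      field_simp
    · have h1 : 1 + (b - 1) * x ≤ b * a := by
        rwa [le_div_iff₀ hD0, one_mul] at hθ
      exact mul_le_mul h1 hTx hχT0 (by positivity)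
  -- the infimum over `a`
  have key2 : ∀ x : ℝ, chiF μ β ω h < x → x < 1 →
      (1 + (b - 1) * x) * chiT μ β ω h ≤ b * nuS μ β ω h v * x := by
    intro x hx hx1
    have hx0 : 0 < x := hχ0.trans_lt hx
    have hbx : 0 < b * x := mul_pos (by linarith) hx0
    have h1 : (1 + (b - 1) * x) * chiT μ β ω h / (b * x) ≤ nuS μ β ω h v := by
      refine le_csInf ⟨2, StrB_two_mem hd ω β h v⟩ fun a ha => ?_
      rw [div_le_iff₀ hbx]
      have := key a ha x hx hx1
      linarith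
    rw [div_le_iff₀ hbx] at h1
    linarith
  -- the limit in `x`
  have l1 : Tendsto (fun x : ℝ => (1 + (b - 1) * x) * chiT μ β ω h) (𝓝[>] (chiF μ β ω h))
      (𝓝 ((1 + (b - 1) * chiF μ β ω h) * chiT μ β ω h)) := by
    refine (Continuous.tendsto ?_ _).mono_left nhdsWithin_le_nhds
    fun_prop
  have l2 : Tendsto (fun x : ℝ => b * nuS μ β ω h v * x) (𝓝[>] (chiF μ β ω h))
      (𝓝 (b * nuS μ β ω h v * chiF μ β ω h)) := by
    refine (Continuous.tendsto ?_ _).mono_left nhdsWithin_le_nhds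
    fun_prop
  refine le_of_tendsto_of_tendsto l1 l2 ?_
  filter_upwards [Ioo_mem_nhdsGT (show chiF μ β ω h < 1 by linarith)] with x hx
  exact key2 x hx.1 hx.2

/-- Leaf D4-5, the half with infinitely many scales. -/
theorem expLK67 (hd : 0 < d) (hω : IID μ ρ ω) (hρ : EM ρ) {h v : Vec d} {p : ℝ} (hp : 1 ≤ p)
    (hDn : DnP ρ β h)
    (hcore : ∀ (a x : ℝ) (K : ℕ → Set (Vec d)), 0 < a → 0 < x → x < 1 → FlK ρ β K x →
      (∀ Q, h ∈ K Q) → TbF ρ β h v a → CoreK ρ β K h v a x)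
    (hLo : ∀ K : ℕ → Set (Vec d), DnK K h → LoGK (lam ρ β) K h v p) :
    (1 + (p - 1) * chiF μ β ω h) * chiT μ β ω h ≤ p * nuS μ β ω h v * chiF μ β ω h := by
  rcases hp.eq_or_lt with rfl | hp1
  · -- `p = 1`
    have h1 : ∀ b : ℝ, 1 < b →
        (1 + (b - 1) * chiF μ β ω h) * chiT μ β ω h ≤ b * nuS μ β ω h v * chiF μ β ω h := by
      intro b hb
      refine denK67 hd hω hρ hb hDn hcore fun K hK => ?_
      obtain ⟨c, hc, hs⟩ := hLo K hK
      refine ⟨c, hc, fun Q δ hδ => ?_⟩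
      obtain ⟨r, hr0, hr1, hrK, hr2⟩ := hs Q (min δ 1) (lt_min hδ one_pos)
      refine ⟨r, hr0, hr1.trans (min_le_left _ _), hrK, le_trans ?_ hr2⟩
      refine mul_le_mul_of_nonneg_left ?_ hc.le
      exact Real.rpow_le_rpow_of_exponent_ge hr0 (hr1.trans (min_le_right _ _)) hb.le
    have l1 : Tendsto (fun b : ℝ => (1 + (b - 1) * chiF μ β ω h) * chiT μ β ω h) (𝓝[>] 1)
        (𝓝 ((1 + (1 - 1) * chiF μ β ω h) * chiT μ β ω h)) := by
      refine (Continuous.tendsto ?_ 1).mono_left nhdsWithin_le_nhds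
      fun_prop
    have l2 : Tendsto (fun b : ℝ => b * nuS μ β ω h v * chiF μ β ω h) (𝓝[>] 1)
        (𝓝 (1 * nuS μ β ω h v * chiF μ β ω h)) := by
      refine (Continuous.tendsto ?_ 1).mono_left nhdsWithin_le_nhds
      fun_prop
    refine le_of_tendsto_of_tendsto l1 l2 ?_
    filter_upwards [self_mem_nhdsWithin] with b hb
    exact h1 b hb
  · exact denK67 hd hω hρ hp1 hDn hcore hLo

end Pool.Agent.W_7d29a1_D2
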