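import Pool.Agent.W_7d29a1_D2.Defs46

/-!
The growth exponent: both inequalities at the exponent itself.
-/

namespace Pool.Agent.W_7d29a1_D2

open Filter Topology Pool.Agent.W_MP_7d29a1_pr Pool.Agent.W_7d29a1_h46

variable {d : ℕ}

/-- Smaller powers are easier above. -/
lemma UpG_mono {L : Vec d → ℝ} {h v : Vec d} {p q : ℝ} (hp : 0 < p) (hpq : p ≤ q)
    (H : UpG L h v q) : UpG L h v p := by
  obtain ⟨C, δ, hδ, HC⟩ := H
  refine ⟨max C 0, min δ 1, lt_min hδ one_pos, fun r hr => ?_⟩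
  have h1 := HC r (hr.trans (min_le_left _ _))
  have h2 : ‖r‖ ^ q ≤ ‖r‖ ^ p := by
    rcases (norm_nonneg r).eq_or_lt with h0 | h0
    · rw [← h0, Real.zero_rpow (by linarith), Real.zero_rpow hp.ne']
    · exact Real.rpow_le_rpow_of_exponent_ge h0 (hr.trans (min_le_right _ _)) hpq
  have h3 : 0 ≤ ‖r‖ ^ q := Real.rpow_nonneg (norm_nonneg r) _
  calc gap L h v r ≤ C * ‖r‖ ^ q := h1
    _ ≤ max C 0 * ‖r‖ ^ q := mul_le_mul_of_nonneg_right (le_max_left _ _) h3
    _ ≤ max C 0 * ‖r‖ ^ p := mul_le_mul_of_nonneg_left h2 (le_max_right _ _)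

/-- One of the two bounds holds. -/
lemma LoG_of_not_UpG {L : Vec d → ℝ} {h v : Vec d} {p : ℝ} (hp : 0 < p) (H : ¬ UpG L h v p) :
    LoG L h v p := by
  refine ⟨1, one_pos, fun δ hδ => ?_⟩
  by_contra hcon
  push Not at hcon
  apply H
  refine ⟨1, δ, hδ, fun r hr => ?_⟩
  rcases (norm_nonneg r).eq_or_lt with h0 | h0
  · have h1 : r = 0 := norm_eq_zero.1 h0.symm
    subst h1
    unfold gap
    simp [Real.zero_rpow hp.ne']
  · exact (hcon r h0 hr).le

/-- The power one is always admissible. -/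
lemma UpG_one {L : Vec d → ℝ} (hLip : ∃ C : ℝ, ∀ h r : Vec d, L (h + r) ≤ L h + C * ‖r‖)
    (h v : Vec d) : UpG L h v 1 := by
  obtain ⟨C, hC⟩ := hLip
  refine ⟨C + ‖v‖, 1, one_pos, fun r _ => ?_⟩
  have h1 := hC h r
  have h2 : -(‖v‖ * ‖r‖) ≤ inner ℝ v r := (abs_le.1 (abs_real_inner_le_norm v r)).1
  unfold gap
  rw [Real.rpow_one]
  linarith

theorem gam2 {L : Vec d → ℝ} (hLip : ∃ C : ℝ, ∀ h r : Vec d, L (h + r) ≤ L h + C * ‖r‖)
    {h v : Vec d} {nS cT cS : ℝ} (h0 : 0 ≤ cT) (hTS : cT ≤ cS) (hS : cS ≤ 1 / 2)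
    (hU : ∀ p : ℝ, 1 ≤ p → UpG L h v p → p * nS ≤ 1 + (p - 1) * cS)
    (hLo : ∀ p : ℝ, 1 ≤ p → LoG L h v p → (1 + (p - 1) * cS) * cT ≤ p * nS * cS) :
    (BddAbove {p : ℝ | 1 ≤ p ∧ UpG L h v p} → 1 ≤ gam L h v ∧
      gam L h v * nS ≤ 1 + (gam L h v - 1) * cS ∧
      (1 + (gam L h v - 1) * cS) * cT ≤ gam L h v * nS * cS ∧
      (cT = cS → 0 < cS → gam L h v * nS = 1 + (gam L h v - 1) * cS ∧
        (cS = 2 * nS - 1 ↔ gam L h v = 2))) ∧
    (¬ BddAbove {p : ℝ | 1 ≤ p ∧ UpG L h v p} → nS ≤ cS) := by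
  have hcS : 0 ≤ cS := h0.trans hTS
  have h1mem : (1 : ℝ) ∈ {p : ℝ | 1 ≤ p ∧ UpG L h v p} := ⟨le_rfl, UpG_one hLip h v⟩
  have hne : {p : ℝ | 1 ≤ p ∧ UpG L h v p}.Nonempty := ⟨1, h1mem⟩
  refine ⟨fun hB => ?_, fun hB => ?_⟩
  · set g : ℝ := gam L h v with hg
    have hg1 : 1 ≤ g := le_csSup hB h1mem
    -- the upper inequality at `g`
    have hup : g * nS ≤ 1 + (g - 1) * cS := by
      refine le_of_forall_pos_le_add fun ε hε => ?_
      obtain ⟨p, ⟨hp1, hp⟩, hpg⟩ : ∃ p ∈ {p : ℝ | 1 ≤ p ∧ UpG L h v p},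
          g - ε / (1 + |nS - cS|) < p := exists_lt_of_lt_csSup hne (by
            have : 0 < ε / (1 + |nS - cS|) := by positivity
            show g - ε / (1 + |nS - cS|) < g
            linarith)
      have h2 := hU p hp1 hp
      have hpg' : p ≤ g := le_csSup hB ⟨hp1, hp⟩
      have h3 : (g - p) * (nS - cS) ≤ ε := by
        have e1 : (g - p) * (nS - cS) ≤ (g - p) * |nS - cS| :=
          mul_le_mul_of_nonneg_left (le_abs_self _) (by linarith)
        have e2 : (g - p) * |nS - cS| ≤ (ε / (1 + |nS - cS|)) * |nS - cS| :=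
          mul_le_mul_of_nonneg_right (by linarith) (abs_nonneg _)
        have e3 : (ε / (1 + |nS - cS|)) * |nS - cS| ≤ ε := by
          rw [div_mul_eq_mul_div, div_le_iff₀ (by positivity)]
          nlinarith [abs_nonneg (nS - cS)]
        linarith
      nlinarith
    -- the lower inequality at `g`
    have hlo : (1 + (g - 1) * cS) * cT ≤ g * nS * cS := by
      have h2 : ∀ p : ℝ, g < p → (1 + (p - 1) * cS) * cT ≤ p * nS * cS := by
        intro p hp
        have hp1 : 1 ≤ p := hg1.trans hp.le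
        refine hLo p hp1 (LoG_of_not_UpG (by linarith) fun hcon => ?_)
        have := le_csSup hB (show p ∈ {p : ℝ | 1 ≤ p ∧ UpG L h v p} from ⟨hp1, hcon⟩)
        exact absurd this (not_le.2 hp)
      have hcont : Tendsto (fun p : ℝ => p * nS * cS - (1 + (p - 1) * cS) * cT) (𝓝[>] g)
          (𝓝 (g * nS * cS - (1 + (g - 1) * cS) * cT)) := by
        have : Continuous fun p : ℝ => p * nS * cS - (1 + (p - 1) * cS) * cT := by fun_prop
        exact (this.tendsto g).mono_left nhdsWithin_le_nhds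
      have h3 := ge_of_tendsto hcont (b := 0) (by
        filter_upwards [self_mem_nhdsWithin] with p hp
        have := h2 p hp
        linarith)
      linarith
    refine ⟨hg1, hup, hlo, fun hE hpos => ?_⟩
    have hrel : g * nS = 1 + (g - 1) * cS := by
      rw [hE] at hlo
      have h2 : 1 + (g - 1) * cS ≤ g * nS := le_of_mul_le_mul_right hlo hpos
      exact le_antisymm hup h2
    refine ⟨hrel, fun h2 => ?_, fun h2 => ?_⟩
    · have h3 : (g - 2) * (1 - cS) = 0 := by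
        have h4 : nS = (1 + cS) / 2 := by linarith
        rw [h4] at hrel
        linarith
      rcases mul_eq_zero.1 h3 with h4 | h4
      · linarith
      · exfalso
        linarith
    · rw [h2] at hrel
      linarith
  · -- unbounded
    by_contra hcon
    have hlt : cS < nS := not_le.1 hcon
    have h2 : ∀ p : ℝ, 1 ≤ p → UpG L h v p → p ≤ 1 / (nS - cS) := by
      intro p hp1 hp
      have h3 := hU p hp1 hp
      rw [le_div_iff₀ (by linarith)]
      nlinarith
    exact hB ⟨1 / (nS - cS), fun p hp => h2 p hp.1 hp.2⟩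

end Pool.Agent.W_7d29a1_D2
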