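import Pool.Agent.W_7d29a1_D2.K2b20

/-!
# A convex function which is affine on no open set: points with a quadratic upper bound at all scales
and a quadratic lower bound along a sequence of scales are dense
-/

namespace Pool.Agent.W_7d29a1_D2.K20

open Filter Topology Set

noncomputable section

variable {E : Type*} [NormedAddCommGroup E] [InnerProductSpace ℝ E] [FiniteDimensional ℝ E]

/-- Affine on no nonempty open set (the form of `PowerLaw`). -/
def NoAff (lam : E → ℝ) : Prop := ∀ U : Set E, IsOpen U → U.Nonempty → ∀ (v : E) (c : ℝ),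
  ∃ h ∈ U, lam h ≠ c + inner ℝ h v

/-- Case (I): all points near `x` are touched from above. -/
lemma caseI {lam : E → ℝ} (hc : ConvexOn ℝ univ lam) (hna : NoAff lam) {C ρ δ : ℝ} {x : E} (hρ : 0 < ρ)
    (hδ : 0 < δ) (hT : ∀ z : E, ‖z‖ < δ → ∃ w, Tch lam C ρ (x + z) w) :
    ∃ y w c, ‖y - x‖ < δ ∧ 0 < c ∧ Tch lam C ρ y w ∧
      ∀ ε > 0, ∃ r : E, r ≠ 0 ∧ ‖r‖ < ε ∧ c * ‖r‖ ^ 2 ≤ exc lam y w r := by
  have hcont := continuous_of_convex hc
  obtain ⟨w, hw⟩ := hT 0 (by simpa using hδ)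
  rw [add_zero] at hw
  obtain ⟨h, hh, hne⟩ := hna (Metric.ball x δ) Metric.isOpen_ball ⟨x, Metric.mem_ball_self hδ⟩ w
    (lam x - inner ℝ x w)
  set r : E := h - x with hr
  have hrδ : ‖r‖ < δ := by rw [hr, ← dist_eq_norm]; exact hh
  have hxr : x + r = h := by rw [hr]; abel
  have hexc0 : exc lam x w r ≠ 0 := by
    intro h0
    apply hne
    unfold exc at h0
    rw [hxr, hr, inner_sub_right, real_inner_comm h w, real_inner_comm x w] at h0
    linarith
  have hexc1 : 0 < exc lam x w r := lt_of_le_of_ne (Tch.nonneg hc hρ hw r) (Ne.symm hexc0)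
  have hexc2 : 0 ≤ exc lam x w (-r) := Tch.nonneg hc hρ hw (-r)
  have hr0 : r ≠ 0 := by
    intro h0
    apply hexc0
    rw [h0]; exact exc_zero lam x w
  have hrn : 0 < ‖r‖ := norm_pos_iff.2 hr0
  -- second difference
  set D : ℝ := lam (x + r) + lam (x - r) - 2 * lam x with hD
  have hD0 : 0 < D := by
    unfold exc at hexc1 hexc2
    rw [inner_neg_right, ← sub_eq_add_neg] at hexc2
    linarith
  set ε : ℝ := D / 4 with hε
  have hε0 : 0 < ε := by positivity
  set F : ℝ → ℝ := fun t => lam (x + t • r) - ((1 - t) / 2 * lam (x - r) + (1 + t) / 2 * lam (x + r)) +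
    ε * (1 - t ^ 2) with hF
  have hFc : Continuous F := by simp only [hF]; fun_prop
  obtain ⟨t, ht, htm⟩ := (isCompact_Icc (a := (-1 : ℝ)) (b := 1)).exists_isMinOn
    ⟨0, by norm_num⟩ hFc.continuousOn
  have hF0 : F 0 < 0 := by
    simp only [hF]
    rw [zero_smul, add_zero]
    have : ε = D / 4 := hε
    nlinarith
  have hFt : F t < 0 := lt_of_le_of_lt (htm (by norm_num)) hF0
  have hF1 : F 1 = 0 := by simp only [hF]; rw [one_smul]; ring
  have hFm1 : F (-1) = 0 := by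
    simp only [hF]
    rw [neg_one_smul, ← sub_eq_add_neg]; ring
  have ht1 : t < 1 := lt_of_le_of_ne ht.2 (fun h0 => by rw [h0, hF1] at hFt; exact lt_irrefl _ hFt)
  have ht2 : -1 < t := lt_of_le_of_ne ht.1 (fun h0 => by rw [← h0, hFm1] at hFt; exact lt_irrefl _ hFt)
  have htabs : |t| < 1 := abs_lt.2 ⟨ht2, ht1⟩
  have htr : ‖t • r‖ < δ := by
    rw [norm_smul, Real.norm_eq_abs]
    nlinarith
  obtain ⟨wy, hwy⟩ := hT (t • r) htr
  refine ⟨x + t • r, wy, ε / ‖r‖ ^ 2, by rw [add_sub_cancel_left]; exact htr, by positivity, hwy, ?_⟩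
  intro η hη
  -- choose τ
  set τ : ℝ := min (η / (2 * ‖r‖)) (min ((1 - t) / 2) ((1 + t) / 2)) with hτ
  have hτ0 : 0 < τ := by
    rw [hτ]
    refine lt_min (by positivity) (lt_min (by linarith) (by linarith))
  have hτ1 : τ ≤ η / (2 * ‖r‖) := min_le_left _ _
  have hτ2 : τ ≤ (1 - t) / 2 := (min_le_right _ _).trans (min_le_left _ _)
  have hτ3 : τ ≤ (1 + t) / 2 := (min_le_right _ _).trans (min_le_right _ _)
  have hm1 : F t ≤ F (t + τ) := htm ⟨by linarith, by linarith⟩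
  have hm2 : F t ≤ F (t - τ) := htm ⟨by linarith, by linarith⟩
  have he1 : x + (t + τ) • r = x + t • r + τ • r := by rw [add_smul]; abel
  have he2 : x + (t - τ) • r = x + t • r + -(τ • r) := by rw [sub_smul]; abel
  simp only [hF] at hm1 hm2
  rw [he1] at hm1
  rw [he2] at hm2
  have hsum : 2 * (ε * τ ^ 2) ≤ exc lam (x + t • r) wy (τ • r) + exc lam (x + t • r) wy (-(τ • r)) := by
    unfold exc
    rw [inner_neg_right]
    nlinarith
  have hτr : ‖τ • r‖ = τ * ‖r‖ := by rw [norm_smul, Real.norm_eq_abs, abs_of_pos hτ0]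
  have hsmall : τ * ‖r‖ < η := by
    have h1 := mul_le_mul_of_nonneg_right hτ1 hrn.le
    have h2 : η / (2 * ‖r‖) * ‖r‖ = η / 2 := by field_simp
    linarith
  have hval : ε / ‖r‖ ^ 2 * (τ * ‖r‖) ^ 2 = ε * τ ^ 2 := by field_simp
  rcases le_total (ε * τ ^ 2) (exc lam (x + t • r) wy (τ • r)) with h1 | h1
  · refine ⟨τ • r, smul_ne_zero hτ0.ne' hr0, by rw [hτr]; exact hsmall, ?_⟩
    rw [hτr, hval]; exact h1
  · refine ⟨-(τ • r), neg_ne_zero.2 (smul_ne_zero hτ0.ne' hr0), by rw [norm_neg, hτr]; exact hsmall, ?_⟩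
    rw [norm_neg, hτr, hval]
    linarith

/-- The good points. -/
def GoodK (lam : E → ℝ) (x v : E) : Prop :=
  (∃ C ρ : ℝ, 0 < C ∧ 0 < ρ ∧ Tch lam C ρ x v) ∧
  ∃ c : ℝ, 0 < c ∧ ∀ ε > 0, ∃ r : E, r ≠ 0 ∧ ‖r‖ < ε ∧ c * ‖r‖ ^ 2 ≤ exc lam x v r

/-- The state of the recursion. -/
structure St (E : Type*) where
  x : E
  v : E
  r : E
  η : ℝ

/-- The invariant of the recursion at stage `j`. -/
def Inv (lam : E → ℝ) (C ρ η0 : ℝ) (x0 : E) (j : ℕ) (s : St E) : Prop :=
  0 < s.η ∧ s.η ≤ η0 * (1 / 2) ^ j ∧ s.r ≠ 0 ∧ ‖s.r‖ < 2 * η0 * (1 / 2) ^ j ∧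
  Tch lam (3 * C - C * (1 / 2) ^ j) (ρ * (1 + (1 / 2) ^ j)) s.x s.v ∧
  ‖s.x - x0‖ ≤ η0 * (3 - 2 * (1 / 2) ^ j) ∧
  ∀ x' v' : E, ‖x' - s.x‖ ≤ 2 * s.η → ‖v' - s.v‖ ≤ 2 * s.η → C / 2 * ‖s.r‖ ^ 2 ≤ exc lam x' v' s.r

/-- The relation between consecutive states. -/
def Rl (s s' : St E) : Prop := ‖s'.x - s.x‖ ≤ s.η ∧ ‖s'.v - s.v‖ ≤ s.η ∧ s'.η ≤ s.η / 2

lemma exc_cont {lam : E → ℝ} (hcont : Continuous lam) (r : E) :
    Continuous (fun q : E × E => exc lam q.1 q.2 r) := by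
  unfold exc
  fun_prop

/-- Stability of a good scale. -/
lemma exists_stable {lam : E → ℝ} (hcont : Continuous lam) {C C' : ℝ} (hC : 0 < C) (hCC : C ≤ C') {x v r : E}
    (hr : r ≠ 0) (hexc : C' * ‖r‖ ^ 2 ≤ exc lam x v r) {η1 : ℝ} (hη1 : 0 < η1) :
    ∃ η : ℝ, 0 < η ∧ η ≤ η1 ∧ ∀ x' v' : E, ‖x' - x‖ ≤ 2 * η → ‖v' - v‖ ≤ 2 * η →
      C / 2 * ‖r‖ ^ 2 ≤ exc lam x' v' r := by
  have hrn : 0 < ‖r‖ ^ 2 := by
    have := norm_pos_iff.2 hr
    positivity
  have h1 : C / 2 * ‖r‖ ^ 2 < exc lam x v r := by nlinarith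
  have h2 : ∀ᶠ q : E × E in 𝓝 (x, v), C / 2 * ‖r‖ ^ 2 < exc lam q.1 q.2 r :=
    (exc_cont hcont r).continuousAt.eventually (lt_mem_nhds h1)
  obtain ⟨e, he, hball⟩ := Metric.eventually_nhds_iff.1 h2
  refine ⟨min η1 (e / 4), lt_min hη1 (by positivity), min_le_left _ _, fun x' v' hx' hv' => ?_⟩
  have h3 : min η1 (e / 4) ≤ e / 4 := min_le_right _ _
  refine (hball (y := (x', v')) ?_).le
  rw [Prod.dist_eq, max_lt_iff, dist_eq_norm, dist_eq_norm]
  constructor <;> simp only <;> linarith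

set_option maxHeartbeats 4000000 in
/-- **Theorem K2.** A convex function on a finite dimensional space which is affine on no nonempty open set
has, in every nonempty open set, a point where it is below a paraboloid at all small scales and above a
paraboloid along a sequence of scales. -/
theorem k2 {lam : E → ℝ} (hc : ConvexOn ℝ univ lam) (hna : NoAff lam) {U : Set E} (hU : IsOpen U)
    (hne : U.Nonempty) : ∃ x ∈ U, ∃ v, GoodK lam x v := by
  classical
  have hcont := continuous_of_convex hc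
  obtain ⟨x0, hx0, v0, C, ρ1, hC, hρ1, hT0⟩ := exists_Tch hc hU hne
  obtain ⟨e0, he0, hball⟩ := Metric.isOpen_iff.1 hU x0 hx0
  by_contra hcon
  push Not at hcon
  set ρ : ℝ := ρ1 / 4 with hρ
  have hρ0 : 0 < ρ := by positivity
  -- the step in the form needed
  have hstep : ∀ (C1 ρ2 κ η : ℝ) (x v : E), 0 < C1 → 0 < κ → 0 < η → η < ρ2 → ‖x - x0‖ + η < e0 →
      Tch lam C1 ρ2 x v → ∃ y w r : E, ‖y - x‖ < η ∧ ‖w - v‖ < η ∧ r ≠ 0 ∧ ‖r‖ < η ∧
        Tch lam (C1 + κ) (ρ2 - η) y w ∧ (C1 + κ) * ‖r‖ ^ 2 ≤ exc lam y w r := by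
    intro C1 ρ2 κ η x v hC1 hκ hη hηρ hxe hT
    rcases stepK hc hC1 hκ hη hηρ hT with ⟨δ, hδ, hI⟩ | hII
    · exfalso
      obtain ⟨y, w, c, hy, hc0, hTy, hr⟩ := caseI hc hna (ρ := ρ2 - η) (by linarith)
        (lt_min hδ hη : 0 < min δ η) (fun z hz => hI z (lt_of_lt_of_le hz (min_le_left _ _)))
      refine hcon y (hball ?_) w ⟨⟨C1 + κ, ρ2 - η, by positivity, by linarith, hTy⟩, c, hc0, hr⟩
      rw [Metric.mem_ball, dist_eq_norm]
      have h1 : ‖y - x0‖ ≤ ‖y - x‖ + ‖x - x0‖ := by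
        have : y - x0 = (y - x) + (x - x0) := by abel
        rw [this]; exact norm_add_le _ _
      have h2 : ‖y - x‖ < η := lt_of_lt_of_le hy (min_le_right _ _)
      linarith
    · exact hII
  set η0 : ℝ := min (e0 / 8) (ρ / 2) with hη0
  have hη00 : 0 < η0 := lt_min (by positivity) (by positivity)
  have hη0e : η0 ≤ e0 / 8 := min_le_left _ _
  have hη0ρ : η0 ≤ ρ / 2 := min_le_right _ _
  -- the initial state
  have hinit : ∃ s : St E, Inv lam C ρ η0 x0 0 s := by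
    obtain ⟨y, w, r, hy, -, hr, hrη, hTy, hex⟩ := hstep C (4 * ρ) C η0 x0 v0 hC
      hC hη00 (by linarith) (by simp; linarith) (hT0.mono le_rfl (by linarith))
    obtain ⟨η, hη, hηle, hst⟩ := exists_stable hcont hC (by linarith : C ≤ C + C) hr hex hη00
    refine ⟨⟨y, w, r, η⟩, hη, by simpa using hηle, hr, by simp; linarith, ?_, ?_, hst⟩
    · exact hTy.mono (by norm_num; linarith) (by norm_num; linarith)
    · norm_num
      exact hy.le
  -- one step
  have hnext : ∀ (j : ℕ) (s : St E), Inv lam C ρ η0 x0 j s →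
      ∃ s' : St E, Inv lam C ρ η0 x0 (j + 1) s' ∧ Rl s s' := by
    intro j s hs
    obtain ⟨h1, h2, h3, h4, h5, h6, h7⟩ := hs
    have hpw : (0 : ℝ) < (1 / 2) ^ j := by positivity
    have hpw1 : ((1 : ℝ) / 2) ^ j ≤ 1 := pow_le_one₀ (by norm_num) (by norm_num)
    have hpws : ((1 : ℝ) / 2) ^ (j + 1) = (1 / 2) ^ j / 2 := by rw [pow_succ]; ring
    set t : ℝ := (1 / 2) ^ j with ht
    have hη0t : η0 * t ≤ η0 := by nlinarith
    have hCj : 0 < 3 * C - C * t := by nlinarith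
    have hρt : η0 * t ≤ ρ / 2 * t := mul_le_mul_of_nonneg_right hη0ρ hpw.le
    obtain ⟨y, w, r, hy, hw, hr, hrη, hTy, hex⟩ := hstep (3 * C - C * t) (ρ * (1 + t)) (C * t / 2) s.η
      s.x s.v hCj (by positivity) h1 (by nlinarith) (by nlinarith) h5
    obtain ⟨η, hη, hηle, hst⟩ := exists_stable hcont hC
      (by nlinarith : C ≤ 3 * C - C * t + C * t / 2) hr hex (by positivity : 0 < s.η / 2)
    refine ⟨⟨y, w, r, η⟩, ⟨hη, ?_, hr, ?_, ?_, ?_, hst⟩, hy.le, hw.le, hηle⟩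
    · simp only
      rw [hpws]
      linarith
    · simp only
      rw [hpws]
      linarith
    · simp only
      rw [hpws]
      exact hTy.mono (by linarith) (by nlinarith)
    · simp only
      rw [hpws]
      have h8 : ‖y - x0‖ ≤ ‖y - s.x‖ + ‖s.x - x0‖ := by
        have : y - x0 = (y - s.x) + (s.x - x0) := by abel
        rw [this]; exact norm_add_le _ _
      nlinarith
  -- the sequence
  obtain ⟨s0, hs0⟩ := hinit
  choose! nx hnx1 hnx2 using hnext
  let f : ℕ → St E := fun j => Nat.rec s0 (fun j s => nx j s) j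
  have hf : ∀ j, Inv lam C ρ η0 x0 j (f j) := by
    intro j
    induction j with
    | zero => exact hs0
    | succ j ih => exact hnx1 j (f j) ih
  have hR : ∀ j, Rl (f j) (f (j + 1)) := fun j => hnx2 j (f j) (hf j)
  have hηgeo : ∀ j n, (f (j + n)).η ≤ (f j).η * (1 / 2) ^ n := by
    intro j n
    induction n with
    | zero => simp
    | succ n ih =>
      have h1 := (hR (j + n)).2.2
      rw [← add_assoc, pow_succ]
      linarith
  have hxd : ∀ j n, dist (f (j + n)).x (f (j + (n + 1))).x ≤ (f j).η * (1 / 2) ^ n := by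
    intro j n
    rw [dist_comm, dist_eq_norm]
    exact (hR (j + n)).1.trans (hηgeo j n)
  have hvd : ∀ j n, dist (f (j + n)).v (f (j + (n + 1))).v ≤ (f j).η * (1 / 2) ^ n := by
    intro j n
    rw [dist_comm, dist_eq_norm]
    exact (hR (j + n)).2.1.trans (hηgeo j n)
  have hxc : CauchySeq (fun n => (f n).x) := by
    apply cauchySeq_of_le_geometric (1 / 2 : ℝ) ((f 0).η) (by norm_num)
    intro n
    have := hxd 0 n
    simpa only [zero_add] using this
  have hvc : CauchySeq (fun n => (f n).v) := by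
    apply cauchySeq_of_le_geometric (1 / 2 : ℝ) ((f 0).η) (by norm_num)
    intro n
    have := hvd 0 n
    simpa only [zero_add] using this
  obtain ⟨xl, hxl⟩ := cauchySeq_tendsto_of_complete hxc
  obtain ⟨vl, hvl⟩ := cauchySeq_tendsto_of_complete hvc
  have hxn : ∀ j, ‖xl - (f j).x‖ ≤ 2 * (f j).η := by
    intro j
    have h1 : Tendsto (fun n => (f (j + n)).x) atTop (𝓝 xl) := by
      have := hxl.comp (tendsto_add_atTop_nat j)
      refine this.congr fun n => ?_
      simp only [Function.comp]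
      rw [add_comm]
    have h2 := dist_le_of_le_geometric_of_tendsto₀ (1 / 2 : ℝ) ((f j).η) (by norm_num) (hxd j) h1
    rw [← dist_eq_norm, dist_comm]
    rw [add_zero] at h2
    refine h2.trans (le_of_eq ?_)
    norm_num
    ring
  have hvn : ∀ j, ‖vl - (f j).v‖ ≤ 2 * (f j).η := by
    intro j
    have h1 : Tendsto (fun n => (f (j + n)).v) atTop (𝓝 vl) := by
      have := hvl.comp (tendsto_add_atTop_nat j)
      refine this.congr fun n => ?_
      simp only [Function.comp]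
      rw [add_comm]
    have h2 := dist_le_of_le_geometric_of_tendsto₀ (1 / 2 : ℝ) ((f j).η) (by norm_num) (hvd j) h1
    rw [← dist_eq_norm, dist_comm]
    rw [add_zero] at h2
    refine h2.trans (le_of_eq ?_)
    norm_num
    ring
  have hTl : Tch lam (3 * C) ρ xl vl := by
    intro r hr
    have h1 : Tendsto (fun n => exc lam (f n).x (f n).v r) atTop (𝓝 (exc lam xl vl r)) :=
      ((exc_cont hcont r).tendsto (xl, vl)).comp (hxl.prodMk_nhds hvl)
    refine le_of_tendsto' h1 fun n => ?_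
    have h2 := (hf n).2.2.2.2.1
    have hpw : (0 : ℝ) < (1 / 2) ^ n := by positivity
    exact (h2.mono (C' := 3 * C) (ρ' := ρ) (by nlinarith) (by nlinarith)) r hr
  have hxlU : xl ∈ U := by
    apply hball
    rw [Metric.mem_ball, dist_eq_norm]
    have h1 : ‖xl - x0‖ ≤ ‖xl - (f 0).x‖ + ‖(f 0).x - x0‖ := by
      have : xl - x0 = (xl - (f 0).x) + ((f 0).x - x0) := by abel
      rw [this]; exact norm_add_le _ _
    have h2 := hxn 0
    have h3 := (hf 0).2.2.2.2.2.1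
    have h4 := (hf 0).2.1
    norm_num at h3 h4
    linarith
  refine hcon xl hxlU vl ⟨⟨3 * C, ρ, by positivity, hρ0, hTl⟩, C / 2, by positivity, fun ε hε => ?_⟩
  obtain ⟨n, hn⟩ := exists_pow_lt_of_lt_one (show 0 < ε / (2 * η0) by positivity) (by norm_num : (1 / 2 : ℝ) < 1)
  have h1 := hf n
  refine ⟨(f n).r, h1.2.2.1, ?_, h1.2.2.2.2.2.2 xl vl (hxn n) (hvn n)⟩
  have h2 := h1.2.2.2.1
  have h3 : 2 * η0 * (1 / 2) ^ n < 2 * η0 * (ε / (2 * η0)) := mul_lt_mul_of_pos_left hn (by positivity)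
  have h4 : 2 * η0 * (ε / (2 * η0)) = ε := by field_simp
  linarith

end

end Pool.Agent.W_7d29a1_D2.K20
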