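import Pool.Agent.W_7d29a1_D2.Defs46
import Pool.Agent.W_7d29a1_D2.K2c20

/-!
# Theorem K2 in the letters of `Defs46`: a dense set of tilts with `UpG 2` and `LoG 2`
-/

namespace Pool.Agent.W_7d29a1_D2

open Filter Topology Set Pool.Agent.W_MP_7d29a1_pr Pool.Agent.W_7d29a1_h46 Pool.Agent.W_7d29a1_h46u

/-- A convex function which is affine on no nonempty open set has, in every nonempty open set, a point where
`UpG L h v 2` and `LoG L h v 2` hold. -/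
theorem k2_20 {d : ℕ} {L : Vec d → ℝ} (hc : ConvexOn ℝ Set.univ L)
    (hna : ∀ U : Set (Vec d), IsOpen U → U.Nonempty → ∀ (v : Vec d) (c : ℝ), ∃ h ∈ U, L h ≠ c + inner ℝ h v) :
    ∀ U : Set (Vec d), IsOpen U → U.Nonempty → ∃ h ∈ U, ∃ v : Vec d, UpG L h v 2 ∧ LoG L h v 2 ∧
      ∀ r : Vec d, 0 ≤ gap L h v r := by
  intro U hU hne
  obtain ⟨x, hx, v, ⟨⟨C, ρ, _, hρ, hT⟩, c, hc0, hr⟩⟩ := K20.k2 hc hna hU hne
  refine ⟨x, hx, v, ⟨C, ρ, hρ, fun r hr => ?_⟩, ⟨c, hc0, fun δ hδ => ?_⟩, fun r => K20.Tch.nonneg hc hρ hT r⟩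
  · rw [Real.rpow_two]; exact hT r hr
  · obtain ⟨r, hr0, hrδ, hrc⟩ := hr δ hδ
    refine ⟨r, norm_pos_iff.2 hr0, hrδ.le, ?_⟩
    rw [Real.rpow_two]; exact hrc

end Pool.Agent.W_7d29a1_D2
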