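import Pool.Agent.W_7d29a1_D2.Defs46
import Pool.Agent.W_7d29a1_h46u.TailU
import Pool.Agent.W_7d29a1_h46u.LamU

/-!
# A direction around which the polymer wanders sublinearly is a subgradient of the free energy
-/

namespace Pool.Agent.W_7d29a1_D2

open MeasureTheory ProbabilityTheory Filter Topology Pool.Agent.W_MP_7d29a1_pr
  Pool.Agent.W_7d29a1_h46 Pool.Agent.W_7d29a1_h46u

section

variable {d : ℕ} {ρ : Measure ℝ} [IsProbabilityMeasure ρ]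

/-- Comparison of two tilts if half of the mass is in a tube. -/
lemma Sub40_det (hd : 0 < d) (β : ℝ) (h k v : Vec d) (η : Env d) (n : ℕ) {R : ℝ}
    (hP : 1 / 2 ≤ PolT β h η (tube d n v R)) :
    X β h η n + n * inner ℝ v k - ‖k‖ * R - Real.log 2 ≤ X β (h + k) η n := by
  have h1 := le_ZT_of_PolT hd hP
  have h2 : Real.exp (n * inner ℝ v k - ‖k‖ * R) * ZT β h η (tube d n v R) ≤
      ZT β (h + k) η (tube d n v R) := by
    refine ZT_tilt_ge β h (h + k) η fun s hs => ?_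
    have h3 : ‖emb (pos s n) - (n : ℝ) • v‖ ≤ R := hs n le_rfl
    have h4 : |inner ℝ k (emb (pos s n) - (n : ℝ) • v)| ≤ ‖k‖ * ‖emb (pos s n) - (n : ℝ) • v‖ :=
      abs_real_inner_le_norm _ _
    have h5 : ‖k‖ * ‖emb (pos s n) - (n : ℝ) • v‖ ≤ ‖k‖ * R :=
      mul_le_mul_of_nonneg_left h3 (norm_nonneg k)
    have h6 := (abs_le.1 (h4.trans h5)).1
    rw [inner_sub_right, real_inner_smul_right, real_inner_comm v k] at h6
    rw [add_sub_cancel_left]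
    linarith
  have h3 : ZT β (h + k) η (tube d n v R) ≤ Z β (h + k) η n := ZT_mono β (h + k) η (Set.subset_univ _)
  have hZ := Z_pos hd β h η n
  have h4 : Real.exp (n * inner ℝ v k - ‖k‖ * R) * (1 / 2 * Z β h η n) ≤ Z β (h + k) η n :=
    (mul_le_mul_of_nonneg_left h1 (Real.exp_pos _).le).trans (h2.trans h3)
  have h5 := Real.log_le_log (by positivity) h4
  rw [Real.log_mul (Real.exp_pos _).ne' (by positivity), Real.log_exp,
    Real.log_mul (by norm_num) hZ.ne', one_div, Real.log_inv] at h5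
  unfold X
  linarith

/-- For all large `n`. -/
lemma Sub40_ev (hd : 0 < d) (hρ : EM ρ) {β : ℝ} {h v : Vec d} {a : ℝ} (hT : TbF ρ β h v a)
    (k : Vec d) : ∀ᶠ n : ℕ in atTop, A ρ β h n + n * inner ℝ v k - ‖k‖ * (n : ℝ) ^ a -
      Real.log 2 - 2 * (n : ℝ) ^ ((1 / 2 : ℝ) + 1 / 4) ≤ A ρ β (h + k) n := by
  obtain ⟨δ₁, hδ₁, C₁, hC₁, H₁⟩ := tailU (ρ := ρ) hd hρ (by norm_num : (0 : ℝ) ≤ 1 / 2)
    (Fl_half hd hρ β h) (by norm_num : (0 : ℝ) < 1 / 4) 1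
  obtain ⟨δ₂, hδ₂, C₂, hC₂, H₂⟩ := tailU (ρ := ρ) hd hρ (by norm_num : (0 : ℝ) ≤ 1 / 2)
    (Fl_half hd hρ β (h + k)) (by norm_num : (0 : ℝ) < 1 / 4) 1
  obtain ⟨C₃, H₃⟩ := hT 1
  have hcast := tendsto_natCast_atTop_atTop (R := ℝ)
  have e1 : ∀ᶠ n : ℕ in atTop, (C₁ + C₂ + 2 * C₃) * (n : ℝ) ^ (-((1 : ℕ) : ℝ)) < 1 := by
    have h1 : Tendsto (fun n : ℕ => (C₁ + C₂ + 2 * C₃) * (n : ℝ) ^ (-((1 : ℕ) : ℝ))) atTop
        (𝓝 ((C₁ + C₂ + 2 * C₃) * 0)) :=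
      ((tendsto_rpow_neg_atTop (by norm_num : (0 : ℝ) < ((1 : ℕ) : ℝ))).comp hcast).const_mul _
    rw [mul_zero] at h1
    exact h1.eventually (gt_mem_nhds one_pos)
  filter_upwards [e1, eventually_ge_atTop 1] with n h1 hn
  by_contra hcon
  push Not at hcon
  have hm := measurable_PolT β h (tube d n v ((n : ℝ) ^ a))
  set B₁ : Set (Env d) := {η | (n : ℝ) ^ ((1 / 2 : ℝ) + 1 / 4) < |X β h (sh 0 0 η) n - A ρ β h n|}
    with hB₁
  set B₂ : Set (Env d) :=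
    {η | (n : ℝ) ^ ((1 / 2 : ℝ) + 1 / 4) < |X β (h + k) (sh 0 0 η) n - A ρ β (h + k) n|} with hB₂
  set B₃ : Set (Env d) := {η | 1 / 2 ≤ 1 - PolT β h η (tube d n v ((n : ℝ) ^ a))} with hB₃
  have hcov : (Set.univ : Set (Env d)) ⊆ B₁ ∪ B₂ ∪ B₃ := by
    intro η _
    by_contra hη
    simp only [Set.mem_union, not_or] at hη
    obtain ⟨⟨g1, g2⟩, g3⟩ := hη
    have g1' : |X β h (sh 0 0 η) n - A ρ β h n| ≤ (n : ℝ) ^ ((1 / 2 : ℝ) + 1 / 4) := not_lt.1 g1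
    have g2' : |X β (h + k) (sh 0 0 η) n - A ρ β (h + k) n| ≤ (n : ℝ) ^ ((1 / 2 : ℝ) + 1 / 4) :=
      not_lt.1 g2
    have g3' : 1 - PolT β h η (tube d n v ((n : ℝ) ^ a)) < 1 / 2 := not_le.1 g3
    rw [TubV_sh] at g1' g2'
    have g4 := Sub40_det hd β h k v η n (R := (n : ℝ) ^ a) (by linarith)
    have g5 := (abs_le.1 g1').1
    have g6 := (abs_le.1 g2').2
    linarith
  have hP₁ : (law d ρ).real B₁ ≤ C₁ * (n : ℝ) ^ (-((1 : ℕ) : ℝ)) := H₁ h (by simpa using hδ₁) n n hn le_rfl 0 0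
  have hP₂ : (law d ρ).real B₂ ≤ C₂ * (n : ℝ) ^ (-((1 : ℕ) : ℝ)) :=
    H₂ (h + k) (by simpa using hδ₂) n n hn le_rfl 0 0
  have hP₃ : (law d ρ).real B₃ ≤ 2 * C₃ * (n : ℝ) ^ (-((1 : ℕ) : ℝ)) := by
    have hint : Integrable (fun η => 1 - PolT β h η (tube d n v ((n : ℝ) ^ a))) (law d ρ) := by
      refine Integrable.mono' (integrable_const (1 : ℝ)) (hm.const_sub 1).aestronglyMeasurable
        (Eventually.of_forall fun η => ?_)
      have a1 := PolT_nonneg β h η (tube d n v ((n : ℝ) ^ a))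
      have a2 := PolT_le_one β h η (tube d n v ((n : ℝ) ^ a))
      rw [Real.norm_eq_abs, abs_le]
      constructor <;> linarith
    have hmk := mul_meas_ge_le_integral_of_nonneg (μ := law d ρ)
      (f := fun η => 1 - PolT β h η (tube d n v ((n : ℝ) ^ a)))
      (Eventually.of_forall fun η => by
        have a2 := PolT_le_one β h η (tube d n v ((n : ℝ) ^ a))
        show 0 ≤ 1 - PolT β h η (tube d n v ((n : ℝ) ^ a))
        linarith) hint (1 / 2)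
    have h3 := H₃ n hn
    have h4 : (1 / 2 : ℝ) * (law d ρ).real B₃ ≤ C₃ * (n : ℝ) ^ (-((1 : ℕ) : ℝ)) := hmk.trans h3
    linarith
  have hun : (1 : ℝ) ≤ (law d ρ).real (B₁ ∪ B₂ ∪ B₃) := by
    have := measureReal_mono (μ := law d ρ) hcov
    rwa [probReal_univ] at this
  have hU1 := measureReal_union_le (μ := law d ρ) (B₁ ∪ B₂) B₃
  have hU2 := measureReal_union_le (μ := law d ρ) B₁ B₂
  have hsum : (C₁ + C₂ + 2 * C₃) * (n : ℝ) ^ (-((1 : ℕ) : ℝ)) =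
      C₁ * (n : ℝ) ^ (-((1 : ℕ) : ℝ)) + C₂ * (n : ℝ) ^ (-((1 : ℕ) : ℝ)) +
        2 * C₃ * (n : ℝ) ^ (-((1 : ℕ) : ℝ)) := by ring
  rw [hsum] at h1
  linarith

/-- If the polymer with tilt `h` stays in tubes of sublinear radius around the direction `v`, then `v` is a subgradient of
the free energy at `h`. -/
theorem sub_of_TbF (hd : 0 < d) (hρ : EM ρ) {β : ℝ} {h v : Vec d} {a : ℝ} (ha : a < 1)
    (hT : TbF ρ β h v a) (k : Vec d) : lam ρ β h + inner ℝ v k ≤ lam ρ β (h + k) := by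
  have hcast := tendsto_natCast_atTop_atTop (R := ℝ)
  have t1 := tendsto_A (ρ := ρ) hd hρ β h
  have t2 := tendsto_A (ρ := ρ) hd hρ β (h + k)
  have t3 : Tendsto (fun n : ℕ => (n : ℝ) ^ (-(1 - a))) atTop (𝓝 0) :=
    (tendsto_rpow_neg_atTop (by linarith : (0 : ℝ) < 1 - a)).comp hcast
  have t4 : Tendsto (fun n : ℕ => (n : ℝ) ^ (-(1 / 4 : ℝ))) atTop (𝓝 0) :=
    (tendsto_rpow_neg_atTop (by norm_num : (0 : ℝ) < 1 / 4)).comp hcast
  have t5 : Tendsto (fun n : ℕ => (n : ℝ) ^ (-(1 : ℝ))) atTop (𝓝 0) :=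
    (tendsto_rpow_neg_atTop (by norm_num : (0 : ℝ) < 1)).comp hcast
  have t6 : Tendsto (fun n : ℕ => A ρ β h n / n + inner ℝ v k - ‖k‖ * (n : ℝ) ^ (-(1 - a)) -
      Real.log 2 * (n : ℝ) ^ (-(1 : ℝ)) - 2 * (n : ℝ) ^ (-(1 / 4 : ℝ))) atTop
      (𝓝 (lam ρ β h + inner ℝ v k - ‖k‖ * 0 - Real.log 2 * 0 - 2 * 0)) :=
    (((t1.add_const _).sub (t3.const_mul _)).sub (t5.const_mul _)).sub (t4.const_mul _)
  simp only [mul_zero, sub_zero] at t6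
  refine le_of_tendsto_of_tendsto t6 t2 ?_
  filter_upwards [Sub40_ev hd hρ hT k, eventually_ge_atTop 1] with n h1 hn
  have hn0 : (0 : ℝ) < n := by exact_mod_cast hn
  have r1 : (n : ℝ) ^ (-(1 - a)) * n = (n : ℝ) ^ a := by
    nth_rewrite 2 [← Real.rpow_one (n : ℝ)]
    rw [← Real.rpow_add hn0]
    congr 1
    ring
  have r2 : (n : ℝ) ^ (-(1 : ℝ)) * n = 1 := by
    rw [Real.rpow_neg_one, inv_mul_cancel₀ hn0.ne']
  have r3 : (n : ℝ) ^ (-(1 / 4 : ℝ)) * n = (n : ℝ) ^ ((1 / 2 : ℝ) + 1 / 4) := by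
    nth_rewrite 2 [← Real.rpow_one (n : ℝ)]
    rw [← Real.rpow_add hn0]
    congr 1
    norm_num
  rw [le_div_iff₀ hn0]
  have r4 : (A ρ β h n / n + inner ℝ v k - ‖k‖ * (n : ℝ) ^ (-(1 - a)) -
      Real.log 2 * (n : ℝ) ^ (-(1 : ℝ)) - 2 * (n : ℝ) ^ (-(1 / 4 : ℝ))) * n =
      A ρ β h n + n * inner ℝ v k - ‖k‖ * ((n : ℝ) ^ (-(1 - a)) * n) -
      Real.log 2 * ((n : ℝ) ^ (-(1 : ℝ)) * n) - 2 * ((n : ℝ) ^ (-(1 / 4 : ℝ)) * n) := by
    field_simp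
  rw [r4, r1, r2, r3, mul_one]
  exact h1

end

section

variable {d : ℕ} {Ω : Type*} [MeasurableSpace Ω] {μ : Measure Ω} [IsProbabilityMeasure μ]
  {ρ : Measure ℝ} [IsProbabilityMeasure ρ] {ω : ℕ × Site d → Ω → ℝ} {β : ℝ}

/-- **Leaf S1.** If `ν* (h, v) < 1`, then `v` is a subgradient of the free energy at `h`. -/
theorem sub40 (hd : 0 < d) (hω : IID μ ρ ω) (hρ : EM ρ) {h v : Vec d} (hν : nuS μ β ω h v < 1)
    (k : Vec d) : lam ρ β h + inner ℝ v k ≤ lam ρ β (h + k) := by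
  obtain ⟨a, ha, ha1⟩ := exists_lt_of_csInf_lt ⟨2, StrB_two_mem hd ω β h v⟩ hν
  exact sub_of_TbF hd hρ ha1 ((mem_nuSetS hω h v a).1 ha).2 k

end

end Pool.Agent.W_7d29a1_D2
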