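import Pool.Agent.W_7d29a1_D2.Defs46

/-!
The first inequality with a general power: if `lam (h + t e_j) ≤ lam h + v_j t + C |t| ^ p` for small `t`
then `p ν* ≤ 1 + (p - 1) χ*`.
-/

namespace Pool.Agent.W_7d29a1_D2

open MeasureTheory ProbabilityTheory Filter Topology Pool.Agent.W_MP_7d29a1_pr
  Pool.Agent.W_7d29a1_h46 Pool.Agent.W_7d29a1_h46u

variable {d : ℕ} {ρ : Measure ℝ} [IsProbabilityMeasure ρ]

/-- Upper expansion of order `p` along the coordinate directions. -/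
def ExpP74 {d : ℕ} (L : Vec d → ℝ) (h v : Vec d) (p : ℝ) : Prop :=
  ∃ C δ : ℝ, 0 < δ ∧ ∀ j : Fin d, ∀ t : ℝ, |t| ≤ δ → L (h + t • ej j) ≤ L h + v j * t + C * |t| ^ p

/-- `tube_good` with a general error at one radius. -/
theorem tube_good_pow (hd : 0 < d) (hρ : EM ρ) {β : ℝ} {h v : Vec d} {B t u R r : ℝ} {n : ℕ}
    {η : Env d} (ht : 0 < t) (hB : 0 ≤ B)
    (hE : ∀ j : Fin d, ∀ s : ℝ, |s| = t → lam ρ β (h + s • ej j) ≤ lam ρ β h + v j * s + B)
    (hR : n * lam ρ β h - A ρ β h n ≤ R) (hg : GdU ρ β h t u n η) :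
    1 - PolT β h η (tube d n v r) ≤
      2 * d * (n + 1) * Real.exp (n * B + 3 * u + R - t * (r / d)) := by
  have ht2 : 0 < t ^ 2 := by positivity
  have hsq : ∀ s : ℝ, |s| = t → B / t ^ 2 * s ^ 2 = B := by
    intro s hs
    have h1 : s ^ 2 = t ^ 2 := by rw [← hs, sq_abs]
    rw [h1]
    field_simp
  have hBt : n * (B / t ^ 2 * t ^ 2) = n * B := by
    congr 1
    field_simp
  refine (one_sub_le hd β h η n v (r := r) ht).trans ?_
  have h1 : ∀ i ∈ Finset.range (n + 1), ∑ j : Fin d,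
      (Far β h η n i j v t (r / d) + Far β h η n i j v (-t) (r / d)) ≤
      2 * d * Real.exp (n * B + 3 * u + R - t * (r / d)) := by
    intro i hi
    have hi' : i ≤ n := Nat.lt_succ_iff.1 (Finset.mem_range.1 hi)
    have h2 : ∀ j ∈ (Finset.univ : Finset (Fin d)),
        Far β h η n i j v t (r / d) + Far β h η n i j v (-t) (r / d) ≤
        2 * Real.exp (n * B + 3 * u + R - t * (r / d)) := by
      intro j _
      have b1 : |t| = t := abs_of_pos ht
      have b2 : |(-t)| = t := by rw [abs_neg, abs_of_pos ht]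
      have a1 := TubV_far (w := r / d) (C := B / t ^ 2) hd hρ b1 (by positivity) j
        (by rw [hsq t b1]; exact hE j t b1) hR (fun i hi => (hg.side i hi j).1) hg.mid hi'
      have a2 := TubV_far (w := r / d) (C := B / t ^ 2) hd hρ (s := -t) b2 (by positivity) j
        (by rw [hsq (-t) b2]; exact hE j (-t) b2) hR
        (fun i hi => (hg.side i hi j).2) hg.mid hi'
      rw [hBt] at a1 a2
      linarith
    refine (Finset.sum_le_sum h2).trans ?_
    rw [Finset.sum_const, Finset.card_univ, Fintype.card_fin, nsmul_eq_mul]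
    linarith
  refine (Finset.sum_le_sum h1).trans ?_
  rw [Finset.sum_const, Finset.card_range, nsmul_eq_mul]
  push_cast
  linarith

/-- The mass outside of the tube, general power. -/
theorem tube_pow (hd : 0 < d) (hρ : EM ρ) {β : ℝ} {h v : Vec d} {x : ℝ} (hx : 0 < x)
    (hx1 : x < 1) (hF : Fl ρ β h x) {p : ℝ} (hp : 0 < p) (hE : ExpP74 (lam ρ β) h v p) {a : ℝ}
    (ha : 1 + (p - 1) * x < p * a) (q : ℕ) :
    ∃ C : ℝ, ∀ n : ℕ, 1 ≤ n →
      ∫ η, (1 - PolT β h η (tube d n v ((n : ℝ) ^ a))) ∂(law d ρ) ≤ C * (n : ℝ) ^ (-(q : ℝ)) := by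
  have hd0 : (0 : ℝ) < d := by exact_mod_cast hd
  have ha' : x + (1 - x) / p < a := by
    have h1 : p * (x + (1 - x) / p) < p * a := by
      rw [mul_add, mul_div_cancel₀ _ hp.ne']
      linarith
    exact lt_of_mul_lt_mul_left h1 hp.le
  obtain ⟨ε, hε, hε1, hε2⟩ : ∃ ε : ℝ, 0 < ε ∧ x + (1 - x) / p + 3 * ε ≤ a ∧ x + ε < 1 := by
    refine ⟨min ((a - (x + (1 - x) / p)) / 3) ((1 - x) / 2), lt_min (by linarith) (by linarith),
      ?_, ?_⟩
    · have := min_le_left ((a - (x + (1 - x) / p)) / 3) ((1 - x) / 2)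
      linarith
    · have := min_le_right ((a - (x + (1 - x) / p)) / 3) ((1 - x) / 2)
      linarith
  obtain ⟨δ₁, hδ₁, C₁, hC₁, H₁⟩ := rateU hd hρ hx.le hF hε hε2
  obtain ⟨δ₂, hδ₂, C₂, hC₂, H₂⟩ := prob_good hd hρ hx.le hF hε q
  obtain ⟨C₃, δ₃, hδ₃, H₃⟩ := hE
  have hC₃ : 0 ≤ max C₃ 0 := le_max_right _ _
  obtain ⟨C', hC'⟩ : ∃ C' : ℝ, C' = max C₃ 0 + 3 + C₁ := ⟨_, rfl⟩
  have hC'0 : 0 ≤ C' := by
    rw [hC']
    linarith
  have hint : ∀ n : ℕ, ∀ η : Env d, 1 - PolT β h η (tube d n v ((n : ℝ) ^ a)) ≤ 1 := fun n η => by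
    have := PolT_nonneg β h η (tube d n v ((n : ℝ) ^ a))
    linarith
  have hint0 : ∀ n : ℕ, ∀ η : Env d, 0 ≤ 1 - PolT β h η (tube d n v ((n : ℝ) ^ a)) := fun n η => by
    have := PolT_le_one β h η (tube d n v ((n : ℝ) ^ a))
    linarith
  -- small tilts
  have hcast := tendsto_natCast_atTop_atTop (R := ℝ)
  have hxp : 0 < (1 - x) / p := div_pos (by linarith) hp
  have ht : ∀ᶠ n : ℕ in atTop, (n : ℝ) ^ (-((1 - x) / p)) < min δ₂ δ₃ := by
    have h1 := (tendsto_rpow_neg_atTop hxp).comp hcast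
    exact h1.eventually (gt_mem_nhds (lt_min hδ₂ hδ₃))
  obtain ⟨N, hN⟩ := eventually_atTop.1 (ht.and (TubW_asym d hd C' hC'0 hx hε q))
  refine ⟨max (C₂ + 4 * d) ((N : ℝ) ^ (q : ℝ)), fun n hn => ?_⟩
  have hn1 : (1 : ℝ) ≤ n := by exact_mod_cast hn
  have hn0 : (0 : ℝ) < n := by linarith
  have hq0 : 0 ≤ (n : ℝ) ^ (-(q : ℝ)) := Real.rpow_nonneg hn0.le _
  rcases lt_or_ge n N with hnN | hnN
  · -- small n
    have h1 : ∫ η, (1 - PolT β h η (tube d n v ((n : ℝ) ^ a))) ∂(law d ρ) ≤ 1 := by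
      have h2 := integral_mono_of_nonneg (μ := law d ρ) (Eventually.of_forall (hint0 n))
        (integrable_const (1 : ℝ)) (Eventually.of_forall (hint n))
      refine h2.trans (le_of_eq ?_)
      simp
    refine h1.trans ?_
    have h3 : 1 ≤ (N : ℝ) ^ (q : ℝ) * (n : ℝ) ^ (-(q : ℝ)) := by
      rw [Real.rpow_neg hn0.le, ← div_eq_mul_inv, one_le_div (Real.rpow_pos_of_pos hn0 _)]
      exact Real.rpow_le_rpow hn0.le (by exact_mod_cast hnN.le) (Nat.cast_nonneg q)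
    exact h3.trans (mul_le_mul_of_nonneg_right (le_max_right _ _) hq0)
  · obtain ⟨ht1, hasym⟩ := hN n hnN
    set t : ℝ := (n : ℝ) ^ (-((1 - x) / p)) with htdef
    have ht0 : 0 < t := Real.rpow_pos_of_pos hn0 _
    have ht2 : t < δ₂ := ht1.trans_le (min_le_left _ _)
    have ht3 : t < δ₃ := ht1.trans_le (min_le_right _ _)
    have hbad := H₂ n hn t (by rw [abs_of_pos ht0]; exact ht2)
    have hR := H₁ h (by simpa using hδ₁) n hn
    have htp : 0 < t ^ p := Real.rpow_pos_of_pos ht0 _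
    have hnt : n * (max C₃ 0 * t ^ p) ≤ max C₃ 0 * (n : ℝ) ^ (x + ε) := by
      have h1 : (n : ℝ) * t ^ p = (n : ℝ) ^ x := by
        have h2 : t ^ p = (n : ℝ) ^ (-(1 - x)) := by
          rw [htdef, ← Real.rpow_mul hn0.le]
          congr 1
          field_simp
        rw [h2]
        nth_rewrite 1 [← Real.rpow_one (n : ℝ)]
        rw [← Real.rpow_add hn0]
        congr 1
        ring
      have h2 : (n : ℝ) ^ x ≤ (n : ℝ) ^ (x + ε) :=
        Real.rpow_le_rpow_of_exponent_le hn1 (by linarith)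
      calc n * (max C₃ 0 * t ^ p) = max C₃ 0 * (n * t ^ p) := by ring
        _ = max C₃ 0 * (n : ℝ) ^ x := by rw [h1]
        _ ≤ _ := mul_le_mul_of_nonneg_left h2 hC₃
    have htr : (n : ℝ) ^ (x + 3 * ε) / d ≤ t * ((n : ℝ) ^ a / d) := by
      rw [← mul_div_assoc]
      refine div_le_div_of_nonneg_right ?_ hd0.le
      rw [htdef, ← Real.rpow_add hn0]
      exact Real.rpow_le_rpow_of_exponent_le hn1 (by linarith)
    have hexp : n * (max C₃ 0 * t ^ p) + 3 * (n : ℝ) ^ (x + ε) + C₁ * (n : ℝ) ^ (x + ε) -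
        t * ((n : ℝ) ^ a / d) ≤ C' * (n : ℝ) ^ (x + ε) - (n : ℝ) ^ (x + 3 * ε) / d := by
      rw [hC']
      linarith
    have hEt : ∀ j : Fin d, ∀ s : ℝ, |s| = t → lam ρ β (h + s • ej j) ≤
        lam ρ β h + v j * s + max C₃ 0 * t ^ p := by
      intro j s hs
      have h1 := H₃ j s (by rw [hs]; exact ht3.le)
      rw [hs] at h1
      have h2 : C₃ * t ^ p ≤ max C₃ 0 * t ^ p :=
        mul_le_mul_of_nonneg_right (le_max_left _ _) htp.le
      linarith
    have hmain := TubW_split (μ := law d ρ)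
      (f := fun η => 1 - PolT β h η (tube d n v ((n : ℝ) ^ a))) (hint n)
      (G := {η | GdU ρ β h t ((n : ℝ) ^ (x + ε)) n η}) (b := 4 * d * (n : ℝ) ^ (-(q : ℝ)))
      (by positivity)
      (fun η hη => (tube_good_pow hd hρ ht0 (mul_nonneg hC₃ htp.le) hEt hR hη).trans
        ((mul_le_mul_of_nonneg_left (Real.exp_le_exp.2 hexp) (by positivity)).trans hasym))
      (hint0 n)
    have hset : ({η | GdU ρ β h t ((n : ℝ) ^ (x + ε)) n η} : Set (Env d))ᶜ =
        {η | ¬ GdU ρ β h t ((n : ℝ) ^ (x + ε)) n η} := rfl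
    rw [hset] at hmain
    refine hmain.trans ?_
    calc (law d ρ).real {η | ¬ GdU ρ β h t ((n : ℝ) ^ (x + ε)) n η} +
          4 * d * (n : ℝ) ^ (-(q : ℝ)) ≤ C₂ * (n : ℝ) ^ (-(q : ℝ)) +
          4 * d * (n : ℝ) ^ (-(q : ℝ)) := add_le_add hbad le_rfl
      _ = (C₂ + 4 * d) * (n : ℝ) ^ (-(q : ℝ)) := by ring
      _ ≤ _ := mul_le_mul_of_nonneg_right (le_max_left _ _) hq0

/-- (U): the first inequality with a general power. -/
theorem nuS_le_expP {Ω : Type*} [MeasurableSpace Ω] {μ : Measure Ω} [IsProbabilityMeasure μ]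
    {ω : ℕ × Site d → Ω → ℝ} {β : ℝ} (hd : 0 < d) (hω : IID μ ρ ω) (hρ : EM ρ) {h v : Vec d}
    {p : ℝ} (hp : 1 ≤ p) (hE : ExpP74 (lam ρ β) h v p) :
    p * nuS μ β ω h v ≤ 1 + (p - 1) * chiS μ β ω h := by
  have hp0 : 0 < p := by linarith
  have hne : (chiSetS μ β ω h).Nonempty :=
    ⟨1 / 2, (mem_chiSetS hd hω hρ h _).2 ⟨by norm_num, Fl_half hd hρ β h⟩⟩
  have key : ∀ x ∈ chiSetS μ β ω h, x < 1 → p * nuS μ β ω h v ≤ 1 + (p - 1) * x := by
    intro x hx hx1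
    obtain ⟨hx0, hF⟩ := (mem_chiSetS hd hω hρ h x).1 hx
    have h1 : nuS μ β ω h v ≤ (1 + (p - 1) * x) / p := by
      refine le_of_forall_gt_imp_ge_of_dense fun a ha => ?_
      have ha1 : 1 + (p - 1) * x < p * a := by
        rw [div_lt_iff₀ hp0] at ha
        linarith
      have ha0 : 0 < a := by
        have h2 : 0 < p * a := lt_of_le_of_lt (by nlinarith) ha1
        exact (mul_pos_iff_of_pos_left hp0).1 h2
      refine csInf_le ⟨0, fun b hb => hb.1.le⟩ ((mem_nuSetS hω h v a).2 ⟨ha0, fun q => ?_⟩)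
      exact tube_pow hd hρ hx0 hx1 hF hp0 hE ha1 q
    rw [le_div_iff₀ hp0] at h1
    linarith
  refine le_of_forall_pos_le_add fun ε hε => ?_
  have h2 : chiS μ β ω h < 1 := (chiS_le_half hd hω hρ h).trans_lt (by norm_num)
  have h3 : 0 < ε / p := div_pos hε hp0
  obtain ⟨x, hx, hxlt⟩ := exists_lt_of_csInf_lt hne
    (show sInf (chiSetS μ β ω h) < min (chiS μ β ω h + ε / p) 1 from
      lt_min (by change chiS μ β ω h < _; linarith) h2)
  have h4 := key x hx (hxlt.trans_le (min_le_right _ _))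
  have h5 : x < chiS μ β ω h + ε / p := hxlt.trans_le (min_le_left _ _)
  have h6 : (p - 1) * x ≤ (p - 1) * (chiS μ β ω h + ε / p) :=
    mul_le_mul_of_nonneg_left h5.le (by linarith)
  have h7 : (p - 1) * (ε / p) ≤ ε := by
    have h8 : (p - 1) * (ε / p) ≤ p * (ε / p) := mul_le_mul_of_nonneg_right (by linarith) h3.le
    rw [mul_div_cancel₀ _ hp0.ne'] at h8
    exact h8
  rw [mul_add] at h6
  linarith

lemma expP_of_upG {L : Vec d → ℝ} {h v : Vec d} {p : ℝ} (hE : UpG L h v p) : ExpP74 L h v p := by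
  obtain ⟨C, δ, hδ, H⟩ := hE
  refine ⟨C, δ, hδ, fun j t ht => ?_⟩
  have hej : ‖(ej j : Vec d)‖ = 1 := by
    unfold ej
    simp
  have hn : ‖t • (ej j : Vec d)‖ = |t| := by
    rw [norm_smul, hej, mul_one, Real.norm_eq_abs]
  have hi : inner ℝ v (t • (ej j : Vec d)) = v j * t := by
    have h1 := TubU_inner (0 : Vec d) t j v
    rw [zero_add, inner_zero_left, zero_add] at h1
    rw [real_inner_comm, h1, mul_comm]
  have h2 := H (t • ej j) (by rw [hn]; exact ht)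
  rw [hn] at h2
  unfold gap at h2
  rw [hi] at h2
  linarith

/-- (U1) of the table: `UpG` with the power `p` gives `p ν* ≤ 1 + (p - 1) χ*`, for every tilt `h` and
every `v`. -/
theorem nuS_le_pow {Ω : Type*} [MeasurableSpace Ω] {μ : Measure Ω} [IsProbabilityMeasure μ]
    {ω : ℕ × Site d → Ω → ℝ} {β : ℝ} (hd : 0 < d) (hω : IID μ ρ ω) (hρ : EM ρ) {h v : Vec d}
    {p : ℝ} (hp : 1 ≤ p) (hE : UpG (lam ρ β) h v p) :
    p * nuS μ β ω h v ≤ 1 + (p - 1) * chiS μ β ω h :=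
  nuS_le_expP hd hω hρ hp (expP_of_upG hE)

end Pool.Agent.W_7d29a1_D2
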