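import Pool.Agent.W_7d29a1_D2.AeG6
import Pool.Agent.W_7d29a1_D2.TubP74
import Pool.Agent.W_7d29a1_D2.BairF21
import Pool.Agent.W_7d29a1_D2.Den67
import Pool.Agent.W_7d29a1_D2.ExpA34
import Pool.Agent.W_7d29a1_D2.Sub40
import Pool.Agent.W_7d29a1_D2.K2F20
import Pool.Agent.W_7d29a1_D2.Dich31
import Pool.Agent.W_7d29a1_D2.Gam46
import Pool.Agent.W_7d29a1_D2.CoreS16
import Pool.Agent.W_7d29a1_D2.ChiF80
import Pool.Agent.W_7d29a1_q.NuS
import Pool.Agent.W_7d29a1_q.Main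
import Pool.Agent.W_7d29a1_h46s.FinS
import Pool.Agent.W_7d29a1_h46.Fin46

/-!
The scaling relation in all dimensions: assembly of the clauses.
-/

namespace Pool.Agent.W_7d29a1_D2

open MeasureTheory ProbabilityTheory Filter Topology Pool.Agent.W_MP_7d29a1_pr
  Pool.Agent.W_7d29a1_h46 Pool.Agent.W_7d29a1_h46u

variable {d : ℕ}

/-- The increments do not see constants. -/
lemma gap_sub {L : Vec d → ℝ} (c : ℝ) (h v r : Vec d) :
    gap (fun k => L k - c) h v r = gap L h v r := by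
  unfold gap
  ring

lemma UpG_sub {L : Vec d → ℝ} (c : ℝ) (h v : Vec d) (p : ℝ) :
    UpG (fun k => L k - c) h v p ↔ UpG L h v p := by
  unfold UpG
  simp only [gap_sub]

lemma LoG_sub {L : Vec d → ℝ} (c : ℝ) (h v : Vec d) (p : ℝ) :
    LoG (fun k => L k - c) h v p ↔ LoG L h v p := by
  unfold LoG
  simp only [gap_sub]

lemma LoA_sub {L : Vec d → ℝ} (c : ℝ) (h v : Vec d) (p : ℝ) :
    LoA (fun k => L k - c) h v p ↔ LoA L h v p := by
  unfold LoA
  simp only [gap_sub]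

lemma gam_sub {L : Vec d → ℝ} (c : ℝ) (h v : Vec d) :
    gam (fun k => L k - c) h v = gam L h v := by
  unfold gam
  simp only [UpG_sub]

/-- The mean of the logarithm of `E_n exp ⟨h, S_n⟩`. -/
theorem mgf46 (hd : 0 < d) (β : ℝ) (h : Vec d) (η : ℕ × Site d → ℝ) (n : ℕ) :
    Real.log (W_7d29a1_q.polMGF β h η n) = X β h η n - X β (0 : Vec d) η n := by
  have h1 : W_7d29a1_q.polMGF β h η n = Z β h η n / Z β (0 : Vec d) η n := by
    unfold W_7d29a1_q.polMGF Z ZT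
    congr 1
    · refine Finset.sum_congr rfl fun s _ => ?_
      simp [wgt, Real.exp_add]
    · refine Finset.sum_congr rfl fun s _ => ?_
      simp [wgt]
  rw [h1, Real.log_div (Z_pos hd β h η n).ne' (Z_pos hd β 0 η n).ne']
  rfl

/-- The Lipschitz bound of the free energy. -/
theorem lam_lip46 {ρ : Measure ℝ} [IsProbabilityMeasure ρ] (hd : 0 < d) (hρ : EM ρ) (β : ℝ)
    (h r : Vec d) : lam ρ β (h + r) ≤ lam ρ β h + 1 * ‖r‖ := by
  have h1 : ∀ n : ℕ, A ρ β (h + r) n ≤ A ρ β h n + ‖r‖ * n := by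
    intro n
    unfold A
    have e1 := (concU hd hρ β (h + r) n).1
    have e2 := (concU hd hρ β h n).1
    have e3 : ∫ η, X β (h + r) η n ∂(law d ρ) ≤ ∫ η, (X β h η n + ‖r‖ * n) ∂(law d ρ) :=
      integral_mono e1 (e2.add (integrable_const _)) fun η => X_tilt hd β h r η n
    rw [integral_add e2 (integrable_const _), integral_const] at e3
    simpa using e3
  refine LamU_le ρ β (h + r) fun n => ?_
  have h2 := A_le_lam hd hρ β h (n + 1)
  have h3 := h1 (n + 1)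
  push_cast at h2 h3
  nlinarith

section
variable {Ω : Type*} [MeasurableSpace Ω] {μ : Measure Ω} {ω : ℕ × Site d → Ω → ℝ} {β : ℝ}

theorem chiT_nonneg46 (h : Vec d) : 0 ≤ chiT μ β ω h :=
  Real.sSup_nonneg fun _ hx => hx.1.le

theorem chiS_nonneg46 (h : Vec d) : 0 ≤ chiS μ β ω h :=
  Real.sInf_nonneg fun _ hx => hx.1.le

theorem nuS_nonneg46 (h v : Vec d) : 0 ≤ nuS μ β ω h v :=
  Real.sInf_nonneg fun _ hx => hx.1.le

end

/-- The arithmetic of the relation for `p = 2`. -/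
theorem two46 {nS cT cS : ℝ} (hU : 2 * nS - 1 ≤ cS) (hL : (1 + cS) * cT ≤ 2 * nS * cS)
    (hE : cT = cS) (h0 : 0 < cS) : cT = 2 * nS - 1 := by
  rw [hE] at hL ⊢
  have h1 : (1 + cS) ≤ 2 * nS := le_of_mul_le_mul_right hL h0
  linarith

/-- The point `h = v = 0`, from the power lower bound. -/
theorem zero46 {K nS cF cS : ℝ} (hK : 1 ≤ K) (hS : cS ≤ 1 / 2) (hS0 : 0 ≤ cS) (hFS : cF ≤ cS)
    (hn : 0 ≤ nS) (hL : (1 + (K - 1) * cS) * cF ≤ K * nS * cS) : (1 + 1 / K) * cF ≤ nS := by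
  have hK0 : 0 < K := by linarith
  rcases hS0.eq_or_lt with h0 | h0
  · have h1 : cF ≤ 0 := by linarith
    have h2 : (1 + 1 / K) * cF ≤ 0 := mul_nonpos_of_nonneg_of_nonpos (by positivity) h1
    linarith
  · have h1 : 0 < 1 + (K - 1) * cS := by nlinarith
    have h2 : (1 + (K - 1) * cS) * ((1 + 1 / K) * cF) ≤ (1 + (K - 1) * cS) * nS := by
      have e1 : (1 + (K - 1) * cS) * ((1 + 1 / K) * cF) =
          (1 + 1 / K) * ((1 + (K - 1) * cS) * cF) := by ring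
      have e2 : (1 + 1 / K) * (K * nS * cS) = (K + 1) * cS * nS := by
        field_simp
      rw [e1]
      have e3 := mul_le_mul_of_nonneg_left hL (show 0 ≤ 1 + 1 / K by positivity)
      rw [e2] at e3
      refine e3.trans ?_
      have e4 : (K + 1) * cS ≤ 1 + (K - 1) * cS := by nlinarith
      exact mul_le_mul_of_nonneg_right e4 hn
    exact le_of_mul_le_mul_left h2 h1

/-- A power lower bound bounds the growth exponent. -/
theorem bdd46 {L : Vec d → ℝ} {h v : Vec d} {K : ℝ} (hL : LoA L h v K) :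
    ∀ p ∈ {p : ℝ | 1 ≤ p ∧ UpG L h v p}, p ≤ K := by
  rintro p ⟨_, C, δ, hδ, hC⟩
  obtain ⟨c, hc, δ', hδ', hc'⟩ := hL
  by_contra hcon
  have hpK : 0 < p - K := by
    have := not_le.1 hcon
    linarith
  have key : ∀ s : ℝ, 0 < s → s ≤ min δ δ' → c ≤ C * s ^ (p - K) := by
    intro s hs hsm
    obtain ⟨r, hr, hr2⟩ := hc' s hs (hsm.trans (min_le_right _ _))
    have h1 := hC r (by rw [hr]; exact hsm.trans (min_le_left _ _))
    rw [hr] at h1
    have h2 : s ^ p = s ^ (p - K) * s ^ K := by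
      rw [← Real.rpow_add hs]
      congr 1
      ring
    rw [h2] at h1
    have h3 : 0 < s ^ K := Real.rpow_pos_of_pos hs _
    have h4 : c * s ^ K ≤ (C * s ^ (p - K)) * s ^ K := by linarith
    exact le_of_mul_le_mul_right h4 h3
  have hC0 : 0 ≤ |C| + 1 := by positivity
  -- choose `s` small
  have hlim : Tendsto (fun s : ℝ => (|C| + 1) * s ^ (p - K)) (𝓝[>] 0) (𝓝 0) := by
    have h1 : Tendsto (fun s : ℝ => s ^ (p - K)) (𝓝 0) (𝓝 (0 ^ (p - K))) :=
      (Real.continuousAt_rpow_const 0 (p - K) (Or.inr hpK.le))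
    rw [Real.zero_rpow hpK.ne'] at h1
    have h2 := (h1.mono_left (nhdsWithin_le_nhds (s := Set.Ioi 0))).const_mul (|C| + 1)
    simpa using h2
  have hev : ∀ᶠ s : ℝ in 𝓝[>] 0, (|C| + 1) * s ^ (p - K) < c := hlim.eventually (gt_mem_nhds hc)
  have hmin : 0 < min δ δ' := lt_min hδ hδ'
  have hlt : ∀ᶠ s : ℝ in 𝓝[>] 0, s < min δ δ' :=
    (eventually_lt_nhds hmin).filter_mono nhdsWithin_le_nhds
  obtain ⟨s, ⟨hs1, hs2⟩, hs0⟩ := ((hev.and hlt).and self_mem_nhdsWithin).exists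
  have hs0' : 0 < s := hs0
  have h5 := key s hs0' hs2.le
  have h6 : C * s ^ (p - K) ≤ (|C| + 1) * s ^ (p - K) :=
    mul_le_mul_of_nonneg_right (by linarith [le_abs_self C]) (Real.rpow_nonneg hs0'.le _)
  linarith

/-- The lower power bound at `h = v = 0`. -/
theorem loA_zero46 (hd : 0 < d) {L : Vec d → ℝ} {K c : ℝ} (hc : 0 < c)
    (hL : ∀ h : Vec d, ‖h‖ ≤ 1 → L 0 + c * ‖h‖ ^ K ≤ L h) : LoA L 0 0 K := by
  refine ⟨c, hc, 1, one_pos, fun s hs hs1 => ⟨s • ej ⟨0, hd⟩, ?_, ?_⟩⟩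
  · rw [norm_smul, norm_ej_one, mul_one, Real.norm_eq_abs, abs_of_pos hs]
  · have hn : ‖s • (ej ⟨0, hd⟩ : Vec d)‖ = s := by
      rw [norm_smul, norm_ej_one, mul_one, Real.norm_eq_abs, abs_of_pos hs]
    have h1 := hL (s • ej ⟨0, hd⟩) (by rw [hn]; exact hs1)
    rw [hn] at h1
    unfold gap
    rw [inner_zero_left, zero_add]
    linarith

/-- **The scaling relation in every dimension.** -/
theorem final46 {d : ℕ} (hd : 1 ≤ d) : ∃ κ : ℝ, 0 < κ ∧
    ∀ {Ω : Type*} [MeasurableSpace Ω] (μ : Measure Ω) [IsProbabilityMeasure μ]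
      (ω : ℕ × Site d → Ω → ℝ), (∀ p, Measurable (ω p)) → iIndepFun ω μ →
      (∀ p q, IdentDistrib (ω p) (ω q) μ μ) → (∀ p, ¬ ∃ c : ℝ, ∀ᵐ x ∂μ, ω p x = c) →
      (∀ (b : ℝ) p, Integrable (fun x => Real.exp (b * ω p x)) μ) → ∀ {β : ℝ}, 0 < β →
      ∃ L : Vec d → ℝ,
        -- the free energy
        (∀ h, ∀ᵐ x ∂μ, Tendsto (fun n : ℕ =>
          Real.log (W_7d29a1_q.polMGF β h (fun p => ω p x) n) / n) atTop (𝓝 (L h))) ∧
        -- the exponents
        (nuT μ β ω 0 0 = nu μ β ω) ∧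
        (∀ h v : Vec d, nuT μ β ω h v ≤ nuS μ β ω h v ∧ chiT μ β ω h ≤ chiF μ β ω h ∧
          chiF μ β ω h ≤ chiS μ β ω h ∧ chiS μ β ω h ≤ 1 / 2) ∧
        -- every tilt `h`, every direction `v`, every power `p`
        (∀ (h v : Vec d) (p : ℝ), 1 ≤ p →
          (UpG L h v p → p * nuS μ β ω h v ≤ 1 + (p - 1) * chiS μ β ω h) ∧
          (LoG L h v p → (1 + (p - 1) * chiS μ β ω h) * chiT μ β ω h ≤
            p * nuS μ β ω h v * chiS μ β ω h) ∧
          (LoA L h v p → (1 + (p - 1) * chiS μ β ω h) * chiF μ β ω h ≤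
            p * nuS μ β ω h v * chiS μ β ω h)) ∧
        -- in terms of the growth exponent
        (∀ h v : Vec d, (BddAbove {p : ℝ | 1 ≤ p ∧ UpG L h v p} → 1 ≤ gam L h v ∧
            gam L h v * nuS μ β ω h v ≤ 1 + (gam L h v - 1) * chiS μ β ω h ∧
            (1 + (gam L h v - 1) * chiS μ β ω h) * chiT μ β ω h ≤
              gam L h v * nuS μ β ω h v * chiS μ β ω h ∧
            (chiT μ β ω h = chiS μ β ω h → 0 < chiS μ β ω h →
              gam L h v * nuS μ β ω h v = 1 + (gam L h v - 1) * chiS μ β ω h ∧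
              (chiS μ β ω h = 2 * nuS μ β ω h v - 1 ↔ gam L h v = 2))) ∧
          (¬ BddAbove {p : ℝ | 1 ≤ p ∧ UpG L h v p} → nuS μ β ω h v ≤ chiS μ β ω h)) ∧
        -- the polymer of the problem
        (BddAbove {p : ℝ | 1 ≤ p ∧ UpG L 0 0 p} ∧ gam L 0 0 ≤ 1 / κ ∧
          (1 + κ) * chiF μ β ω 0 ≤ nuS μ β ω 0 0) ∧
        -- almost every tilt
        (∀ᵐ h : Vec d, ∃ v : Vec d, (∀ k, L h + inner ℝ v k ≤ L (h + k)) ∧ UpG L h v 2 ∧
          2 * nuS μ β ω h v - 1 ≤ chiS μ β ω h ∧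
          ((∀ ε > 0, ∃ δ > 0, ∀ r : Vec d, ‖r‖ ≤ δ → gap L h v r ≤ ε * ‖r‖ ^ 2) ∨
            (1 + chiS μ β ω h) * chiF μ β ω h ≤ 2 * nuS μ β ω h v * chiS μ β ω h)) ∧
        -- almost every direction
        (∀ᵐ v : Vec d, ∀ h : Vec d,
          (1 + chiS μ β ω h) * chiF μ β ω h ≤ 2 * nuS μ β ω h v * chiS μ β ω h) ∧
        -- a dense set of tilts
        (∀ U : Set (Vec d), IsOpen U → U.Nonempty → ∃ h ∈ U, ∃ v : Vec d,
          (∀ k, L h + inner ℝ v k ≤ L (h + k)) ∧ UpG L h v 2 ∧ LoG L h v 2 ∧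
          2 * nuS μ β ω h v - 1 ≤ chiS μ β ω h ∧
          (1 + chiS μ β ω h) * chiT μ β ω h ≤ 2 * nuS μ β ω h v * chiS μ β ω h ∧
          (chiT μ β ω h = chiS μ β ω h → 0 < chiS μ β ω h →
            chiT μ β ω h = 2 * nuS μ β ω h v - 1)) ∧
        -- generic tilts
        (∃ G : Set (Vec d), IsGδ G ∧ Dense G ∧ ∀ h ∈ G, chiF μ β ω h = chiS μ β ω h) ∧
        -- dimension one
        (d = 1 → ∀ᵐ h : Vec d, (1 - chiS μ β ω h) / 4 ≤ chiT μ β ω h) := by
  have hd0 : 0 < d := hd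
  obtain ⟨K, hK1, hK⟩ := W_7d29a1_q.lam_pow (⟨0, hd0⟩ : Fin d)
  have hK0 : 0 < K := by linarith
  refine ⟨1 / K, by positivity, ?_⟩
  intro Ω _ μ _ ω hmeas hindep hident hnc hexp β hβ
  set p0 : ℕ × Site d := (0, 0) with hp0
  set ρ : Measure ℝ := μ.map (ω p0) with hρdef
  have : IsProbabilityMeasure ρ := Measure.isProbabilityMeasure_map (hmeas p0).aemeasurable
  have hω : IID μ ρ ω := ⟨hmeas, hindep, fun p => (hident p p0).map_eq⟩
  have hnc' : ∀ c : ℝ, ρ {c} ≠ 1 := by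
    intro c hc
    apply hnc p0
    refine ⟨c, ?_⟩
    rw [hρdef, Measure.map_apply (hmeas p0) (measurableSet_singleton c)] at hc
    have h1 : MeasurableSet (ω p0 ⁻¹' {c}) := hmeas p0 (measurableSet_singleton c)
    exact (prob_compl_eq_zero_iff h1).2 hc
  have hρ : EM ρ := by
    intro b
    rw [hρdef, integrable_map_measure (by fun_prop) (hmeas p0).aemeasurable]
    exact hexp b p0
  have hmp := mp_env hω
  have tr : ∀ {P : (ℕ × Site d → ℝ) → Prop}, (∀ᵐ η ∂(law d ρ), P η) →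
      ∀ᵐ x ∂μ, P (fun p => ω p x) := fun hP => hmp.quasiMeasurePreserving.ae hP
  set b0 : ℝ := lam ρ β (0 : Vec d) with hb0
  obtain ⟨c, hc, hcK⟩ := hK ρ β hρ hnc' hβ
  have hTF := fun h : Vec d => chiT_le_chiF80 (μ := μ) (ω := ω) (β := β) hd0 hω hρ h
  have hFS := fun h : Vec d => expA34_F_le_S (μ := μ) (ω := ω) (β := β) hd0 hω hρ h
  have hSh := fun h : Vec d => chiS_le_half (μ := μ) (ω := ω) (β := β) hd0 hω hρ h
  have hconv : ConvexOn ℝ Set.univ (lam ρ β : Vec d → ℝ) := lam_convex hd0 hρ β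
  have hUp : ∀ (h v : Vec d) (p : ℝ), 1 ≤ p → UpG (lam ρ β) h v p →
      p * nuS μ β ω h v ≤ 1 + (p - 1) * chiS μ β ω h := fun h v p hp hU =>
    nuS_le_pow hd0 hω hρ hp hU
  have hLo : ∀ (h v : Vec d) (p : ℝ), 1 ≤ p → LoG (lam ρ β) h v p →
      (1 + (p - 1) * chiS μ β ω h) * chiT μ β ω h ≤ p * nuS μ β ω h v * chiS μ β ω h :=
    fun h v p hp hL => K67.expL67 hd0 hω hρ
      (fun a x ha hx hx1 hF hT => S16.core16 hd0 hρ ha hx hx1 hF hT) hp hL
  have hLa : ∀ (h v : Vec d) (p : ℝ), 1 ≤ p → LoA (lam ρ β) h v p →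
      (1 + (p - 1) * chiS μ β ω h) * chiF μ β ω h ≤ p * nuS μ β ω h v * chiS μ β ω h :=
    fun h v p hp hL => expA34 hd0 hω hρ
      (fun a x ha hx hx1 hF hT => S16.core16 hd0 hρ ha hx hx1 hF hT) hp hL
  have hzero : LoA (lam ρ β : Vec d → ℝ) 0 0 K := loA_zero46 hd0 hc hcK
  have hgam := fun h v : Vec d => gam2 (L := (lam ρ β : Vec d → ℝ)) (h := h) (v := v)
    ⟨1, fun h r => lam_lip46 hd0 hρ β h r⟩ (chiT_nonneg46 (μ := μ) (ω := ω) (β := β) h)
    ((hTF h).trans (hFS h)) (hSh h) (hUp h v) (hLo h v)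
  have hbdd := bdd46 hzero
  have htwo : (2 - 1 : ℝ) = 1 := by norm_num
  refine ⟨fun h => lam ρ β h - b0, fun h => ?_, W_7d29a1_h46.nuT_zero μ β ω, fun h v =>
    ⟨nuT_le_nuS hd0 hω h v, hTF h, hFS h, hSh h⟩, fun h v p hp => ?_, fun h v => ?_, ?_, ?_, ?_,
    ?_, ?_, ?_⟩
  · filter_upwards [tr (W_7d29a1_h3.ae_X hd0 hρ β h), tr (W_7d29a1_h3.ae_X hd0 hρ β (0 : Vec d))]
      with x hx1 hx2
    refine (hx1.sub hx2).congr fun n => ?_
    rw [mgf46 hd0, sub_div]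
  · rw [UpG_sub, LoG_sub, LoA_sub]
    exact ⟨hUp h v p hp, hLo h v p hp, hLa h v p hp⟩
  · simp only [UpG_sub, gam_sub]
    exact hgam h v
  · simp only [UpG_sub, gam_sub]
    refine ⟨⟨K, hbdd⟩, ?_, ?_⟩
    · rw [one_div_one_div]
      refine csSup_le ⟨1, le_rfl, 1, 1, one_pos, fun r _ => ?_⟩ hbdd
      unfold gap
      rw [inner_zero_left, Real.rpow_one]
      have := lam_lip46 hd0 hρ β 0 r
      linarith
    · exact zero46 hK1 (hSh 0) (chiS_nonneg46 0) (hFS 0) (nuS_nonneg46 0 0)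
        (hLa 0 0 K hK1 hzero)
  · filter_upwards [Dich31.ae_dich31 hconv] with h hh
    obtain ⟨v, hv1, hv2, hv3⟩ := hh
    refine ⟨v, fun k => ?_, (UpG_sub _ _ _ _).2 hv2, ?_, ?_⟩
    · have := hv1 k
      show lam ρ β h - b0 + inner ℝ v k ≤ lam ρ β (h + k) - b0
      linarith
    · have := hUp h v 2 (by norm_num) hv2
      rw [htwo, one_mul] at this
      linarith
    · rcases hv3 with hv3 | hv3
      · right
        have := hLa h v 2 (by norm_num) hv3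
        rwa [htwo, one_mul] at this
      · left
        simpa only [gap_sub] using hv3
  · exact ae_dir hd0 hρ (fun h v hL => hLa h v 2 (by norm_num) hL)
      (fun h v h1 k => sub40 hd0 hω hρ h1 k) hFS hSh
  · intro U hU hne
    obtain ⟨h, hhU, v, hv1, hv2, hv3⟩ := k2_20 hconv
      (fun U hU hne v c => W_7d29a1_v.not_affine hρ hnc' hβ hd0 hU hne v c) U hU hne
    have e1 := hUp h v 2 (by norm_num) hv1
    have e2 := hLo h v 2 (by norm_num) hv2
    rw [htwo, one_mul] at e1 e2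
    have e1' : 2 * nuS μ β ω h v - 1 ≤ chiS μ β ω h := by linarith
    refine ⟨h, hhU, v, fun k => ?_, (UpG_sub _ _ _ _).2 hv1, (LoG_sub _ _ _ _).2 hv2, e1', e2,
      fun hE h0 => two46 e1' e2 hE h0⟩
    have := hv3 k
    unfold gap at this
    show lam ρ β h - b0 + inner ℝ v k ≤ lam ρ β (h + k) - b0
    linarith
  · exact chiF_dense21 hd0 hω hρ β
  · rintro rfl
    filter_upwards [ae_relation (β := β) one_pos hω hρ] with h hh
    obtain ⟨v, hv⟩ := hh
    have h1 := chiS_le_half (β := β) one_pos hω hρ h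
    have h2 := nuT_le_nuS (β := β) one_pos hω h v
    have h3 := chiT_le_chiS (β := β) one_pos hω hρ h
    refine le_of_forall_pos_le_add fun ε hε => ?_
    set a : ℝ := nuT μ β ω h v + min (2 * ε) (1 / 8) with ha
    have hm : 0 < min (2 * ε) (1 / 8 : ℝ) := lt_min (by positivity) (by norm_num)
    have hm1 : min (2 * ε) (1 / 8 : ℝ) ≤ 1 / 8 := min_le_right _ _
    have hm2 : min (2 * ε) (1 / 8 : ℝ) ≤ 2 * ε := min_le_left _ _
    have h0 : 0 ≤ nuT μ β ω h v := Real.sInf_nonneg fun b hb => hb.1.le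
    have h4 := chi_ge (d := 1) (a := a) one_pos hω hnc' hβ hρ (by linarith)
      (by push_cast; linarith) (show nuT μ β ω h v < a by linarith)
    push_cast at h4
    linarith

end Pool.Agent.W_7d29a1_D2
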