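import Pool.Agent.W_7d29a1_D2.Gam46

/-!
The growth exponent: lemmas for the final theorem.
-/

namespace Pool.Agent.W_7d29a1_D2

open MeasureTheory ProbabilityTheory Filter Topology Pool.Agent.W_MP_7d29a1_pr
  Pool.Agent.W_7d29a1_h46 Pool.Agent.W_7d29a1_h46u

variable {d : ℕ}

/-- A convex function with an upper bound of order more than one lies above its tangent. -/
theorem gap_nonneg46 {L : Vec d → ℝ} (hL : ConvexOn ℝ Set.univ L) {h v : Vec d} {p : ℝ}
    (hp : 1 < p) (hU : UpG L h v p) (r : Vec d) : 0 ≤ gap L h v r := by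
  obtain ⟨C, δ, hδ, hC⟩ := hU
  -- along the segment from `h` to `h + r` and its opposite
  have h0 : 0 ≤ ‖r‖ := norm_nonneg r
  have key : ∀ t : ℝ, 0 < t → t ≤ 1 → t * ‖r‖ ≤ δ →
      -(|C| * ‖r‖ ^ p * t ^ (p - 1)) ≤ gap L h v r := by
    intro t ht ht1 htδ
    -- `h` is between `h + r` and `h - t r`
    have h1 : L h ≤ (t / (1 + t)) * L (h + r) + (1 / (1 + t)) * L (h + (-t) • r) := by
      have e1 : (t / (1 + t)) • (h + r) + (1 / (1 + t)) • (h + (-t) • r) = h := by
        have e2 : (1 + t) ≠ 0 := by positivity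
        rw [smul_add, smul_add, smul_smul, add_add_add_comm, ← add_smul, ← add_smul]
        have e3 : t / (1 + t) + 1 / (1 + t) = 1 := by field_simp; ring
        have e4 : t / (1 + t) + 1 / (1 + t) * -t = 0 := by field_simp; ring
        rw [e3, e4, one_smul, zero_smul, add_zero]
      have e5 := hL.2 (Set.mem_univ (h + r)) (Set.mem_univ (h + (-t) • r))
        (show (0 : ℝ) ≤ t / (1 + t) by positivity) (show (0 : ℝ) ≤ 1 / (1 + t) by positivity)
        (by field_simp; ring)
      rw [e1] at e5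
      simpa [smul_eq_mul] using e5
    have h2 := hC ((-t) • r) (by
      rw [norm_smul, Real.norm_eq_abs, abs_neg, abs_of_pos ht]
      exact htδ)
    have h3 : ‖(-t) • r‖ ^ p = t ^ p * ‖r‖ ^ p := by
      rw [norm_smul, Real.norm_eq_abs, abs_neg, abs_of_pos ht, Real.mul_rpow ht.le h0]
    have h4 : t ^ p = t * t ^ (p - 1) := by
      rw [← Real.rpow_one_add' ht.le (by linarith)]
      congr 1
      ring
    rw [h3, h4] at h2
    unfold gap at h2 ⊢
    rw [inner_smul_right] at h2
    have h5 : (1 + t) * L h ≤ t * L (h + r) + L (h + (-t) • r) := by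
      have e6 : (1 + t) * ((t / (1 + t)) * L (h + r) + (1 / (1 + t)) * L (h + (-t) • r)) =
          t * L (h + r) + L (h + (-t) • r) := by
        have e2 : (1 + t) ≠ 0 := by positivity
        field_simp
      rw [← e6]
      exact mul_le_mul_of_nonneg_left h1 (by positivity)
    have h6 : 0 ≤ ‖r‖ ^ p := Real.rpow_nonneg h0 _
    have h7 : 0 ≤ t ^ (p - 1) := Real.rpow_nonneg ht.le _
    have h8 : C * (t * t ^ (p - 1) * ‖r‖ ^ p) ≤ |C| * (t * t ^ (p - 1) * ‖r‖ ^ p) :=
      mul_le_mul_of_nonneg_right (le_abs_self C) (by positivity)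
    have h9 : t * (-(|C| * ‖r‖ ^ p * t ^ (p - 1))) ≤ t * (L (h + r) - L h - inner ℝ v r) := by
      nlinarith
    exact le_of_mul_le_mul_left h9 ht
  have hlim : Tendsto (fun t : ℝ => -(|C| * ‖r‖ ^ p * t ^ (p - 1))) (𝓝[>] 0) (𝓝 0) := by
    have h1 : Tendsto (fun s : ℝ => s ^ (p - 1)) (𝓝 0) (𝓝 (0 ^ (p - 1))) :=
      (Real.continuousAt_rpow_const 0 (p - 1) (Or.inr (by linarith)))
    rw [Real.zero_rpow (by linarith)] at h1
    have h2 := ((h1.mono_left (nhdsWithin_le_nhds (s := Set.Ioi 0))).const_mul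
      (|C| * ‖r‖ ^ p)).neg
    simpa using h2
  refine le_of_tendsto hlim ?_
  have hpos : 0 < min 1 (δ / (‖r‖ + 1)) := lt_min one_pos (by positivity)
  filter_upwards [self_mem_nhdsWithin,
    (eventually_lt_nhds hpos).filter_mono nhdsWithin_le_nhds] with t ht htm
  refine key t ht (htm.le.trans (min_le_left _ _)) ?_
  have h1 : t ≤ δ / (‖r‖ + 1) := htm.le.trans (min_le_right _ _)
  calc t * ‖r‖ ≤ δ / (‖r‖ + 1) * ‖r‖ := mul_le_mul_of_nonneg_right h1 h0
    _ ≤ δ / (‖r‖ + 1) * (‖r‖ + 1) := mul_le_mul_of_nonneg_left (by linarith) (by positivity)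
    _ = δ := by field_simp

/-- Bounds at the growth exponent from bounds at every admissible power. -/
theorem gam_le46 {L : Vec d → ℝ} {h v : Vec d} {n B : ℝ} (hn : 0 ≤ n)
    (h1 : ∃ p : ℝ, 1 ≤ p ∧ UpG L h v p)
    (hU : ∀ p : ℝ, 1 ≤ p → UpG L h v p → (p + 1) * n ≤ B) : (gam L h v + 1) * n ≤ B := by
  obtain ⟨p₀, hp₀⟩ := h1
  rcases hn.eq_or_lt with h0 | h0
  · have := hU p₀ hp₀.1 hp₀.2
    rw [← h0] at this ⊢
    simpa using this
  · have h2 : gam L h v ≤ B / n - 1 := by
      refine csSup_le ⟨p₀, hp₀⟩ fun p hp => ?_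
      have h3 := hU p hp.1 hp.2
      rw [le_sub_iff_add_le, le_div_iff₀ h0]
      exact h3
    have h4 : gam L h v + 1 ≤ B / n := by linarith
    rwa [le_div_iff₀ h0] at h4

/-- The strong wandering exponent is at most one. -/
theorem nuS_le_one46 {Ω : Type*} [MeasurableSpace Ω] {μ : Measure Ω} [IsProbabilityMeasure μ]
    {ω : ℕ × Site d → Ω → ℝ} {β : ℝ} (hd : 0 < d) (h v : Vec d) : nuS μ β ω h v ≤ 1 := by
  refine le_of_forall_gt_imp_ge_of_dense fun a ha => ?_
  refine csInf_le ⟨0, fun x hx => hx.1.le⟩ ⟨by linarith, fun q => ?_⟩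
  -- the tube is everything for large `n`
  have hlim : Tendsto (fun n : ℕ => (n : ℝ) ^ (a - 1)) atTop atTop :=
    (tendsto_rpow_atTop (by linarith)).comp tendsto_natCast_atTop_atTop
  obtain ⟨N, hN⟩ := (hlim.eventually (eventually_ge_atTop (1 + ‖v‖))).exists_forall_of_atTop
  refine ⟨((N : ℝ) + 1) ^ q, fun n hn => ?_⟩
  have hn0 : (0 : ℝ) < n := by exact_mod_cast hn
  rcases le_or_gt N n with hNn | hNn
  · have h1 : tube d n v ((n : ℝ) ^ a) = Set.univ := by
      refine tube_univ v ?_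
      have h2 := hN n hNn
      have h3 : (n : ℝ) ^ a = n * (n : ℝ) ^ (a - 1) := by
        rw [← Real.rpow_one_add' hn0.le (by linarith)]
        congr 1
        ring
      rw [h3]
      exact mul_le_mul_of_nonneg_left h2 hn0.le
    rw [h1]
    have h4 : ∀ x, (1 - PolT β h (fun p => ω p x) (Set.univ : Set (Fin n → Step d)) : ℝ) = 0 := by
      intro x
      rw [PolT_univ hd, sub_self]
    simp only [h4, integral_zero]
    positivity
  · have h5 : ∫ x, (1 - PolT β h (fun p => ω p x) (tube d n v ((n : ℝ) ^ a))) ∂μ ≤ 1 := by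
      by_cases hi : Integrable
          (fun x => 1 - PolT β h (fun p => ω p x) (tube d n v ((n : ℝ) ^ a))) μ
      · calc ∫ x, (1 - PolT β h (fun p => ω p x) (tube d n v ((n : ℝ) ^ a))) ∂μ
            ≤ ∫ _, (1 : ℝ) ∂μ := integral_mono hi (integrable_const _) fun x => by
              have := PolT_nonneg β h (fun p => ω p x) (tube d n v ((n : ℝ) ^ a))
              show 1 - PolT β h (fun p => ω p x) (tube d n v ((n : ℝ) ^ a)) ≤ 1
              linarith
          _ = 1 := by simp
      · rw [integral_undef hi]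
        exact zero_le_one
    refine h5.trans ?_
    rw [Real.rpow_neg hn0.le, Real.rpow_natCast, ← div_eq_mul_inv, le_div_iff₀ (by positivity),
      one_mul]
    refine pow_le_pow_left₀ hn0.le ?_ q
    have : (n : ℝ) < N := by exact_mod_cast hNn
    linarith

end Pool.Agent.W_7d29a1_D2
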