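import Pool.Agent.W_7d29a1_h46u.Fub

/-!
Second differences of a convex function: at the points of a dense `G_δ` set they are, at some
arbitrarily small scales, at most `r ^ (2 - ε)`, and at some arbitrarily small scales at least
`r ^ (2 + ε)`, if the function is affine on no nonempty open set.
-/

namespace Pool.Agent.W_7d29a1_D2

open MeasureTheory Filter Topology Pool.Agent.W_7d29a1_h46 Pool.Agent.W_7d29a1_h46u Set

variable {d : ℕ}

/-- The sum of the second differences of `L` at `h` along the coordinate directions at the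
scale `r`. -/
noncomputable def D10 {d : ℕ} (L : Vec d → ℝ) (h : Vec d) (r : ℝ) : ℝ :=
  ∑ j : Fin d, (L (h + r • ej j) + L (h - r • ej j) - 2 * L h)

lemma D10_term_nonneg {L : Vec d → ℝ} (hL : ConvexOn ℝ univ L) (h u : Vec d) :
    0 ≤ L (h + u) + L (h - u) - 2 * L h := by
  have h1 := hL.2 (mem_univ (h + u)) (mem_univ (h - u)) (show (0 : ℝ) ≤ 1 / 2 by norm_num)
    (show (0 : ℝ) ≤ 1 / 2 by norm_num) (by norm_num)
  have h2 : (1 / 2 : ℝ) • (h + u) + (1 / 2 : ℝ) • (h - u) = h := by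
    rw [← smul_add, add_add_sub_cancel, ← two_smul ℝ h, smul_smul]
    norm_num
  rw [h2] at h1
  simp only [smul_eq_mul] at h1
  linarith

lemma D10_nonneg {L : Vec d → ℝ} (hL : ConvexOn ℝ univ L) (h : Vec d) (r : ℝ) :
    0 ≤ D10 L h r := Finset.sum_nonneg fun _ _ => D10_term_nonneg hL _ _

lemma D10_term_le {L : Vec d → ℝ} (hL : ConvexOn ℝ univ L) (h : Vec d) (r : ℝ) (j : Fin d) :
    L (h + r • ej j) + L (h - r • ej j) - 2 * L h ≤ D10 L h r :=
  Finset.single_le_sum (f := fun j : Fin d => L (h + r • ej j) + L (h - r • ej j) - 2 * L h)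
    (fun _ _ => D10_term_nonneg hL _ _) (Finset.mem_univ j)

/-- The upper side: every coordinate excess is at most the second difference. -/
lemma D10_upper {L : Vec d → ℝ} (hL : ConvexOn ℝ univ L) {h v : Vec d}
    (hv : ∀ u : Vec d, L h + inner ℝ v u ≤ L (h + u)) (r : ℝ) (j : Fin d) :
    L (h + r • ej j) ≤ L h + v j * r + D10 L h r ∧
      L (h + (-r) • ej j) ≤ L h + v j * (-r) + D10 L h r := by
  have h1 := D10_term_le hL h r j
  have h2 := hv (r • ej j)
  have h3 := hv ((-r) • ej j)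
  have e1 : ∀ t : ℝ, inner ℝ v (t • ej j) = v j * t := by
    intro t
    rw [inner_smul_right]
    unfold ej
    rw [EuclideanSpace.inner_single_right]
    simp [mul_comm]
  rw [e1] at h2 h3
  have e2 : h - r • ej j = h + (-r) • ej j := by rw [neg_smul, sub_eq_add_neg]
  rw [e2] at h1
  constructor <;> linarith

/-- The lower side: some coordinate excess is at least `D10 / (2 d)`. -/
lemma D10_lower {L : Vec d → ℝ} (hd : 0 < d) (h v : Vec d) (r : ℝ) :
    ∃ (j : Fin d) (s : ℝ), (s = r ∨ s = -r) ∧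
      D10 L h r / (2 * d) ≤ L (h + s • ej j) - L h - v j * s := by
  have hd0 : (0 : ℝ) < d := by exact_mod_cast hd
  have : Nonempty (Fin d) := ⟨⟨0, hd⟩⟩
  obtain ⟨j, _, hj⟩ := Finset.exists_max_image (Finset.univ : Finset (Fin d))
    (fun j => L (h + r • ej j) + L (h - r • ej j) - 2 * L h) Finset.univ_nonempty
  have h1 : D10 L h r ≤ d * (L (h + r • ej j) + L (h - r • ej j) - 2 * L h) := by
    unfold D10
    refine (Finset.sum_le_card_nsmul _ _ _ fun i hi => hj i hi).trans (le_of_eq ?_)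
    rw [Finset.card_univ, Fintype.card_fin, nsmul_eq_mul]
  have e2 : h - r • ej j = h + (-r) • ej j := by rw [neg_smul, sub_eq_add_neg]
  rw [e2] at h1
  have h2 : D10 L h r / (2 * d) ≤
      ((L (h + r • ej j) - L h - v j * r) + (L (h + (-r) • ej j) - L h - v j * (-r))) / 2 := by
    rw [div_le_iff₀ (by positivity)]
    have e3 : ((L (h + r • ej j) - L h - v j * r) + (L (h + (-r) • ej j) - L h - v j * (-r))) / 2 *
        (2 * (d : ℝ)) = d * (L (h + r • ej j) + L (h + (-r) • ej j) - 2 * L h) := by ring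
    rw [e3]
    exact h1
  rcases le_total (L (h + r • ej j) - L h - v j * r) (L (h + (-r) • ej j) - L h - v j * (-r))
    with h3 | h3
  · exact ⟨j, -r, Or.inr rfl, by linarith⟩
  · exact ⟨j, r, Or.inl rfl, by linarith⟩

lemma convex_continuous {L : Vec d → ℝ} (hL : ConvexOn ℝ univ L) : Continuous L := by
  rw [← continuousOn_univ]
  exact hL.continuousOn isOpen_univ

lemma D10_continuous {L : Vec d → ℝ} (hL : ConvexOn ℝ univ L) (r : ℝ) :
    Continuous fun h => D10 L h r := by
  have hc := convex_continuous hL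
  unfold D10
  refine continuous_finsetSum _ fun j _ => ?_
  exact ((hc.comp (continuous_id.add continuous_const)).add
    (hc.comp (continuous_id.sub continuous_const))).sub (continuous_const.mul hc)

/-- A parabola touches a function which is not affine from below. -/
lemma touch10 {g : ℝ → ℝ} (hg : Continuous g) {R : ℝ} (hR : 0 < R)
    (h0 : 0 < g R + g (-R) - 2 * g 0) :
    ∃ t ∈ Ioo (-R) R, ∃ c > 0, ∃ δ > 0, ∀ s : ℝ, |s| ≤ δ →
      c * s ^ 2 ≤ g (t + s) + g (t - s) - 2 * g t := by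
  set Δ : ℝ := g R + g (-R) - 2 * g 0 with hΔ
  set κ : ℝ := Δ / (4 * R ^ 2) with hκ
  have hκ0 : 0 < κ := by positivity
  set ℓ : ℝ → ℝ := fun t => (g R + g (-R)) / 2 + t * ((g R - g (-R)) / (2 * R)) with hℓ
  set G : ℝ → ℝ := fun t => g t - ℓ t + κ * (R ^ 2 - t ^ 2) with hG
  have hGc : Continuous G := by
    rw [hG, hℓ]
    fun_prop
  obtain ⟨t, ht, htm⟩ := isCompact_Icc.exists_isMinOn (s := Icc (-R) R)
    ⟨0, by constructor <;> linarith⟩ hGc.continuousOn
  have hmin : ∀ y ∈ Icc (-R) R, G t ≤ G y := fun y hy => htm hy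
  have hG0 : G 0 < 0 := by
    have e1 : G 0 = -(Δ / 4) := by
      rw [hG, hℓ]
      simp only [hκ, hΔ]
      field_simp
      ring
    rw [e1]
    linarith
  have hGR : G R = 0 := by
    rw [hG, hℓ]
    simp only
    field_simp
    ring
  have hGR' : G (-R) = 0 := by
    rw [hG, hℓ]
    simp only
    field_simp
    ring
  have ht0 : G t < 0 := (hmin 0 ⟨by linarith, hR.le⟩).trans_lt hG0
  have htR : t ≠ R := fun h => by rw [h, hGR] at ht0; exact lt_irrefl _ ht0
  have htR' : t ≠ -R := fun h => by rw [h, hGR'] at ht0; exact lt_irrefl _ ht0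
  have ht1 : t < R := lt_of_le_of_ne ht.2 htR
  have ht2 : -R < t := lt_of_le_of_ne ht.1 (Ne.symm htR')
  refine ⟨t, ⟨ht2, ht1⟩, 2 * κ, by positivity, min (R - t) (t + R),
    lt_min (by linarith) (by linarith), fun s hs => ?_⟩
  have hs1 : |s| ≤ R - t := hs.trans (min_le_left _ _)
  have hs2 : |s| ≤ t + R := hs.trans (min_le_right _ _)
  have a1 := abs_le.1 hs1
  have a2 := abs_le.1 hs2
  have h1 := hmin (t + s) ⟨by linarith, by linarith⟩
  have h2 := hmin (t - s) ⟨by linarith, by linarith⟩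
  simp only [hG, hℓ] at h1 h2
  nlinarith

/-- If the second differences at one point and one scale vanish then the function is affine
near the point. -/
lemma flat10 (hd : 0 < d) {L : Vec d → ℝ} (hL : ConvexOn ℝ univ L) {h : Vec d} {R : ℝ}
    (hR : 0 < R) (h0 : D10 L h R = 0) :
    ∃ (v : Vec d) (c : ℝ), ∀ u : Vec d, ‖u‖ < R / d → L (h + u) = c + inner ℝ (h + u) v := by
  have hd0 : (0 : ℝ) < d := by exact_mod_cast hd
  -- every second difference vanishes
  have hz : ∀ j : Fin d, L (h + R • ej j) + L (h - R • ej j) - 2 * L h = 0 := fun j =>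
    le_antisymm ((D10_term_le hL h R j).trans h0.le) (D10_term_nonneg hL _ _)
  set v : Vec d := WithLp.toLp 2 fun j => (L (h + R • ej j) - L h) / R with hv
  have hvj : ∀ j, v j = (L (h + R • ej j) - L h) / R := fun j => rfl
  set f : Vec d → ℝ := fun u => L (h + u) - L h - inner ℝ u v with hf
  have hfc : ConvexOn ℝ univ f := by
    refine ⟨convex_univ, fun x _ y _ a b ha hb hab => ?_⟩
    have h1 := hL.2 (mem_univ (h + x)) (mem_univ (h + y)) ha hb hab
    have e1 : a • (h + x) + b • (h + y) = h + (a • x + b • y) := by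
      have : h = a • h + b • h := by rw [← add_smul, hab, one_smul]
      nth_rewrite 3 [this]
      simp only [smul_add]
      abel
    rw [e1] at h1
    simp only [smul_eq_mul] at h1 ⊢
    simp only [hf]
    rw [inner_add_left, inner_smul_left, inner_smul_left]
    simp only [conj_trivial]
    have e2 : L h = a * L h + b * L h := by rw [← add_mul, hab, one_mul]
    nlinarith
  have hf0 : f 0 = 0 := by simp [hf]
  have hin : ∀ (t : ℝ) (j : Fin d), inner ℝ (t • ej j : Vec d) v = t * v j := by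
    intro t j
    rw [inner_smul_left]
    unfold ej
    rw [EuclideanSpace.inner_single_left]
    simp
  have hfp : ∀ j : Fin d, f (R • ej j) = 0 := by
    intro j
    simp only [hf]
    rw [hin, hvj]
    field_simp
    ring
  have hfm : ∀ j : Fin d, f ((-R) • ej j) = 0 := by
    intro j
    simp only [hf]
    rw [hin, hvj]
    have h1 := hz j
    have e2 : h - R • ej j = h + (-R) • ej j := by rw [neg_smul, sub_eq_add_neg]
    rw [e2] at h1
    have e3 : -R * ((L (h + R • ej j) - L h) / R) = -(L (h + R • ej j) - L h) := by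
      field_simp
    rw [e3]
    linarith
  have hft : ∀ (t : ℝ) (j : Fin d), |t| ≤ R → f (t • ej j) ≤ 0 := by
    intro t j ht
    have ht' := abs_le.1 ht
    have h1 := hfc.2 (mem_univ (R • ej j)) (mem_univ ((-R) • ej j))
      (show 0 ≤ (R + t) / (2 * R) from div_nonneg (by linarith) (by linarith))
      (show 0 ≤ (R - t) / (2 * R) from div_nonneg (by linarith) (by linarith))
      (by field_simp; ring)
    rw [hfp, hfm] at h1
    have e1 : ((R + t) / (2 * R)) • (R • ej j : Vec d) + ((R - t) / (2 * R)) • ((-R) • ej j) =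
        t • ej j := by
      rw [smul_smul, smul_smul, ← add_smul]
      congr 1
      field_simp
      ring
    rw [e1] at h1
    simpa using h1
  have hfu : ∀ u : Vec d, ‖u‖ < R / d → f u ≤ 0 := by
    intro u hu
    have e1 : u = ∑ j : Fin d, (1 / (d : ℝ)) • ((d * u j) • ej j : Vec d) := by
      ext i
      simp only [smul_smul]
      rw [WithLp.ofLp_sum, Finset.sum_apply]
      have e2 : ∀ j : Fin d, ((1 / (d : ℝ) * (d * u j)) • ej j : Vec d) i =
          if j = i then u j else 0 := by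
        intro j
        unfold ej
        rw [PiLp.smul_apply, PiLp.single_apply]
        have : 1 / (d : ℝ) * (d * u j) = u j := by field_simp
        rw [this]
        by_cases hji : i = j
        · simp [hji]
        · have : j ≠ i := fun h => hji h.symm
          simp [hji, this]
      rw [Finset.sum_congr rfl fun j _ => e2 j]
      simp
    have h1 := hfc.map_sum_le (t := (Finset.univ : Finset (Fin d))) (w := fun _ => 1 / (d : ℝ))
      (p := fun j => ((d * u j) • ej j : Vec d)) (fun _ _ => by positivity)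
      (by rw [Finset.sum_const, Finset.card_univ, Fintype.card_fin, nsmul_eq_mul]; field_simp)
      (fun _ _ => mem_univ _)
    rw [← e1] at h1
    refine h1.trans (Finset.sum_nonpos fun j _ => ?_)
    rw [smul_eq_mul]
    refine mul_nonpos_of_nonneg_of_nonpos (by positivity) (hft _ j ?_)
    rw [abs_mul, abs_of_pos hd0]
    have h2 : |u j| ≤ ‖u‖ := by
      have := PiLp.norm_apply_le u j
      rwa [Real.norm_eq_abs] at this
    have h3 : ‖u‖ * d < R := (lt_div_iff₀ hd0).1 hu
    nlinarith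
  refine ⟨v, L h - inner ℝ h v, fun u hu => ?_⟩
  have h1 := hfu u hu
  have h2 := hfu (-u) (by rwa [norm_neg])
  have h3 := hfc.2 (mem_univ u) (mem_univ (-u)) (show (0 : ℝ) ≤ 1 / 2 by norm_num)
    (show (0 : ℝ) ≤ 1 / 2 by norm_num) (by norm_num)
  have e1 : (1 / 2 : ℝ) • u + (1 / 2 : ℝ) • (-u) = 0 := by
    rw [← smul_add, add_neg_cancel, smul_zero]
  rw [e1, hf0] at h3
  simp only [smul_eq_mul] at h3
  have h4 : f u = 0 := by linarith
  simp only [hf] at h4
  rw [inner_add_left]
  linarith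

/-- Points with a lower quadratic bound of the second differences are dense. -/
lemma dense10 (hd : 0 < d) {L : Vec d → ℝ} (hL : ConvexOn ℝ univ L)
    (hna : ∀ U : Set (Vec d), IsOpen U → U.Nonempty → ∀ (v : Vec d) (c : ℝ),
      ∃ h ∈ U, L h ≠ c + inner ℝ h v) {U : Set (Vec d)} (hU : IsOpen U) (hne : U.Nonempty) :
    ∃ h ∈ U, ∃ c > 0, ∃ δ > 0, ∀ r : ℝ, |r| ≤ δ → c * r ^ 2 ≤ D10 L h r := by
  have hd0 : (0 : ℝ) < d := by exact_mod_cast hd
  obtain ⟨h0, hh0⟩ := hne
  obtain ⟨ρ, hρ, hball⟩ := Metric.isOpen_iff.1 hU h0 hh0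
  set R : ℝ := ρ / 2 with hR
  have hR0 : 0 < R := by positivity
  have hpos : 0 < D10 L h0 R := by
    refine lt_of_le_of_ne (D10_nonneg hL _ _) fun hcon => ?_
    obtain ⟨v, c, hvc⟩ := flat10 hd hL hR0 hcon.symm
    obtain ⟨h, hh, hne⟩ := hna (Metric.ball h0 (R / d)) Metric.isOpen_ball
      ⟨h0, Metric.mem_ball_self (by positivity)⟩ v c
    apply hne
    have h1 := hvc (h - h0) (by rwa [Metric.mem_ball, dist_eq_norm] at hh)
    rwa [add_sub_cancel] at h1
  obtain ⟨j, hj⟩ : ∃ j : Fin d, 0 < L (h0 + R • ej j) + L (h0 - R • ej j) - 2 * L h0 := by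
    by_contra hcon
    push Not at hcon
    have : D10 L h0 R ≤ 0 := Finset.sum_nonpos fun j _ => hcon j
    linarith
  have hc := convex_continuous hL
  obtain ⟨t, ht, c, hc0, δ, hδ, H⟩ := touch10 (g := fun t : ℝ => L (h0 + t • ej j))
    (hc.comp (continuous_const.add (continuous_id.smul continuous_const))) hR0
    (by
      have e2 : h0 - R • ej j = h0 + (-R) • ej j := by rw [neg_smul, sub_eq_add_neg]
      rw [e2] at hj
      simpa using hj)
  have hnorm : ‖(ej j : Vec d)‖ = 1 := by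
    unfold ej
    simp
  refine ⟨h0 + t • ej j, hball ?_, c, hc0, δ, hδ, fun r hr => ?_⟩
  · rw [Metric.mem_ball, dist_eq_norm, add_sub_cancel_left, norm_smul, hnorm, mul_one,
      Real.norm_eq_abs]
    have : |t| < R := abs_lt.2 ht
    linarith
  · refine (H r hr).trans ?_
    have e1 : h0 + (t + r) • ej j = h0 + t • ej j + r • ej j := by rw [add_smul, add_assoc]
    have e2 : h0 + (t - r) • ej j = h0 + t • ej j - r • ej j := by rw [sub_smul, add_sub_assoc]
    simp only [e1, e2]
    exact D10_term_le hL _ r j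

/-- Upper quadratic bound from the expansion of `W_7d29a1_h46u`. -/
lemma D10_le_of_ExpC {L : Vec d → ℝ} {h v : Vec d} (hE : ExpC L h v) :
    ∃ C : ℝ, 0 ≤ C ∧ ∀ r : ℝ, |r| ≤ 1 → D10 L h r ≤ C * r ^ 2 := by
  obtain ⟨C, hC⟩ := hE
  refine ⟨2 * d * max C 0, by positivity, fun r hr => ?_⟩
  unfold D10
  have h1 : ∀ j ∈ (Finset.univ : Finset (Fin d)),
      L (h + r • ej j) + L (h - r • ej j) - 2 * L h ≤ 2 * max C 0 * r ^ 2 := by
    intro j _
    have a1 := hC j r hr
    have a2 := hC j (-r) (by rwa [abs_neg])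
    have e2 : h - r • ej j = h + (-r) • ej j := by rw [neg_smul, sub_eq_add_neg]
    rw [e2]
    have a3 := mul_le_mul_of_nonneg_right (le_max_left C 0) (sq_nonneg r)
    have a4 : (-r) ^ 2 = r ^ 2 := by ring
    rw [a4] at a2
    linarith
  refine (Finset.sum_le_card_nsmul _ _ _ h1).trans (le_of_eq ?_)
  rw [Finset.card_univ, Fintype.card_fin, nsmul_eq_mul]
  ring

/-- Small powers. -/
lemma small10 {C ε δ : ℝ} (hε : 0 < ε) (hδ : 0 < δ) :
    ∃ r : ℝ, 0 < r ∧ r < δ ∧ C * r ^ ε < 1 := by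
  have h1 : Tendsto (fun r : ℝ => C * r ^ ε) (𝓝[>] 0) (𝓝 (C * 0)) := by
    refine Tendsto.const_mul C ?_
    have h2 : Tendsto (fun r : ℝ => r ^ ε) (𝓝 0) (𝓝 (0 ^ ε)) :=
      (Real.continuousAt_rpow_const 0 ε (Or.inr hε.le)).tendsto
    rw [Real.zero_rpow hε.ne'] at h2
    exact h2.mono_left nhdsWithin_le_nhds
  rw [mul_zero] at h1
  have h2 := (h1.eventually (gt_mem_nhds one_pos)).and
    (Ioo_mem_nhdsGT hδ)
  obtain ⟨r, hr1, hr2⟩ := h2.exists
  exact ⟨r, hr2.1, hr2.2, hr1⟩

/-- MAIN: the generic points. -/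
theorem gen10 (hd : 0 < d) {L : Vec d → ℝ} (hL : ConvexOn ℝ univ L)
    (hna : ∀ U : Set (Vec d), IsOpen U → U.Nonempty → ∀ (v : Vec d) (c : ℝ),
      ∃ h ∈ U, L h ≠ c + inner ℝ h v) :
    ∃ T : Set (Vec d), IsGδ T ∧ Dense T ∧ ∀ h ∈ T, ∀ ε : ℝ, 0 < ε →
      (∃ᶠ r : ℝ in 𝓝[>] 0, D10 L h r ≤ r ^ (2 - ε)) ∧
      (∃ᶠ r : ℝ in 𝓝[>] 0, r ^ (2 + ε) ≤ D10 L h r) := by
  set e : ℕ → ℝ := fun k => 1 / ((k : ℝ) + 1) with he
  have he0 : ∀ k, 0 < e k := fun k => by rw [he]; positivity
  have he1 : ∀ k, e k ≤ 1 := fun k => by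
    rw [he]
    simp only
    rw [div_le_one (by positivity)]
    have : (0 : ℝ) ≤ k := Nat.cast_nonneg k
    linarith
  set A : ℕ → Set (Vec d) := fun k =>
    ⋃ r ∈ Ioo (0 : ℝ) (e k), {h | D10 L h r < r ^ (2 - e k)} with hA
  set B : ℕ → Set (Vec d) := fun k =>
    ⋃ r ∈ Ioo (0 : ℝ) (e k), {h | r ^ (2 + e k) < D10 L h r} with hB
  have hAo : ∀ k, IsOpen (A k) := fun k =>
    isOpen_biUnion fun r _ => isOpen_lt (D10_continuous hL r) continuous_const
  have hBo : ∀ k, IsOpen (B k) := fun k =>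
    isOpen_biUnion fun r _ => isOpen_lt continuous_const (D10_continuous hL r)
  have hAd : ∀ k, Dense (A k) := by
    intro k
    have h1 : Dense {h : Vec d | ∃ v, ExpC L h v} :=
      MeasureTheory.Measure.dense_of_ae (ae_ExpC hL)
    refine h1.mono ?_
    rintro h ⟨v, hv⟩
    obtain ⟨C, hC0, hC⟩ := D10_le_of_ExpC hv
    obtain ⟨r, hr0, hr1, hr2⟩ := small10 (C := C) (he0 k) (he0 k)
    simp only [hA, mem_iUnion]
    refine ⟨r, ⟨hr0, hr1⟩, ?_⟩
    have h2 := hC r (by rw [abs_of_pos hr0]; exact (hr1.trans_le (he1 k)).le)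
    show D10 L h r < r ^ (2 - e k)
    have h3 : C * r ^ 2 = (C * r ^ e k) * r ^ (2 - e k) := by
      rw [mul_assoc, ← Real.rpow_add hr0]
      have : e k + (2 - e k) = ((2 : ℕ) : ℝ) := by push_cast; ring
      rw [this, Real.rpow_natCast]
    rw [h3] at h2
    refine h2.trans_lt ?_
    have h4 := mul_lt_mul_of_pos_right hr2 (Real.rpow_pos_of_pos hr0 (2 - e k))
    rwa [one_mul] at h4
  have hBd : ∀ k, Dense (B k) := by
    intro k
    rw [dense_iff_inter_open]
    intro U hU hUne
    obtain ⟨h, hh, c, hc0, δ, hδ, H⟩ := dense10 hd hL hna hU hUne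
    refine ⟨h, hh, ?_⟩
    obtain ⟨r, hr0, hr1, hr2⟩ := small10 (C := c⁻¹) (he0 k) (lt_min (he0 k) hδ)
    simp only [hB, mem_iUnion]
    refine ⟨r, ⟨hr0, hr1.trans_le (min_le_left _ _)⟩, ?_⟩
    have h2 := H r (by rw [abs_of_pos hr0]; exact (hr1.trans_le (min_le_right _ _)).le)
    show r ^ (2 + e k) < D10 L h r
    refine lt_of_lt_of_le ?_ h2
    have h3 : r ^ (2 + e k) = r ^ 2 * r ^ e k := by
      rw [Real.rpow_add hr0, Real.rpow_two]
    rw [h3, mul_comm c]
    refine mul_lt_mul_of_pos_left ?_ (by positivity)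
    rw [inv_mul_lt_iff₀ hc0, mul_one] at hr2
    exact hr2
  refine ⟨⋂ k, (A k ∩ B k), ?_, ?_, ?_⟩
  · exact IsGδ.iInter_of_isOpen fun k => (hAo k).inter (hBo k)
  · exact dense_iInter_of_isOpen (fun k => (hAo k).inter (hBo k)) fun k =>
      (hAd k).inter_of_isOpen_left (hBd k) (hAo k)
  · intro h hh ε hε
    have hk : ∀ δ : ℝ, 0 < δ → ∃ k : ℕ, e k < δ ∧ e k < ε := by
      intro δ hδ
      obtain ⟨k, hk⟩ := exists_nat_one_div_lt (lt_min hδ hε)
      exact ⟨k, hk.trans_le (min_le_left _ _), hk.trans_le (min_le_right _ _)⟩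
    constructor
    · rw [frequently_nhdsWithin_iff, frequently_iff]
      intro U hU
      obtain ⟨δ, hδ, hball⟩ := Metric.mem_nhds_iff.1 hU
      obtain ⟨k, hk1, hk2⟩ := hk δ hδ
      have h1 := (mem_iInter.1 hh k).1
      simp only [hA, mem_iUnion] at h1
      obtain ⟨r, ⟨hr0, hr1⟩, hr2⟩ := h1
      refine ⟨r, hball ?_, ?_, hr0⟩
      · rw [Metric.mem_ball, Real.dist_eq, sub_zero, abs_of_pos hr0]
        exact hr1.trans hk1
      · exact (le_of_lt hr2).trans (Real.rpow_le_rpow_of_exponent_ge hr0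
          (hr1.le.trans (he1 k)) (by linarith))
    · rw [frequently_nhdsWithin_iff, frequently_iff]
      intro U hU
      obtain ⟨δ, hδ, hball⟩ := Metric.mem_nhds_iff.1 hU
      obtain ⟨k, hk1, hk2⟩ := hk δ hδ
      have h1 := (mem_iInter.1 hh k).2
      simp only [hB, mem_iUnion] at h1
      obtain ⟨r, ⟨hr0, hr1⟩, hr2⟩ := h1
      refine ⟨r, hball ?_, ?_, hr0⟩
      · rw [Metric.mem_ball, Real.dist_eq, sub_zero, abs_of_pos hr0]
        exact hr1.trans hk1
      · exact (Real.rpow_le_rpow_of_exponent_ge hr0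
          (hr1.le.trans (he1 k)) (by linarith)).trans (le_of_lt hr2)

end Pool.Agent.W_7d29a1_D2
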