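import Mathlib.Analysis.InnerProductSpace.Basic
import Mathlib.Analysis.Convex.Function
import Mathlib.Topology.MetricSpace.ProperSpace
import Mathlib.Analysis.SpecificLimits.Basic

/-!
A convex function which is affine on no ball has, in every ball, points with a quadratic upper
bound at all small scales and a quadratic lower bound along a sequence of scales (helper70).
-/

namespace Pool.Agent.W_7d29a1_D2.G70

open Set Filter Topology Metric

variable {E : Type*} [NormedAddCommGroup E] [InnerProductSpace ℝ E]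

/-- The second difference of `f` at `h` with increment `r`. -/
def sd (f : E → ℝ) (h r : E) : ℝ := f (h + r) + f (h - r) - 2 * f h

/-- Quadratic upper bound at all small scales. -/
def UpG (f : E → ℝ) (h : E) : Prop :=
  ∃ C s₀ : ℝ, 0 < s₀ ∧ ∀ s, 0 < s → s ≤ s₀ → ∀ r : E, ‖r‖ ≤ s → sd f h r ≤ C * s ^ 2

/-- Quadratic lower bound along a sequence of scales. -/
def LowG (f : E → ℝ) (h : E) : Prop :=
  ∃ c : ℝ, 0 < c ∧ ∀ s₁ : ℝ, 0 < s₁ → ∃ s, 0 < s ∧ s < s₁ ∧ ∃ r : E, ‖r‖ ≤ s ∧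
    c * s ^ 2 ≤ sd f h r

/-- The two sided property of this file. -/
def Good (f : E → ℝ) (h : E) : Prop := UpG f h ∧ LowG f h

/-- `f` is affine on no ball. -/
def NowhereAffine (f : E → ℝ) : Prop := ∀ (x : E) (ρ : ℝ), 0 < ρ → ∃ r : E, ‖r‖ < ρ ∧ 0 < sd f x r

/-- The states of the descent. -/
def St (f : E → ℝ) (h : E) (s : ℝ) : Prop :=
  0 < s ∧ (∃ r : E, ‖r‖ ≤ s ∧ s ^ 2 ≤ sd f h r) ∧ ∀ r : E, ‖r‖ ≤ s → sd f h r ≤ 4 * s ^ 2

lemma mid_le {f : E → ℝ} (hf : ConvexOn ℝ univ f) (x y : E) :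
    2 * f x ≤ f (x + y) + f (x - y) := by
  have h := hf.2 (mem_univ (x + y)) (mem_univ (x - y)) (by norm_num : (0 : ℝ) ≤ 1 / 2)
    (by norm_num : (0 : ℝ) ≤ 1 / 2) (by norm_num)
  have h2 : (1 / 2 : ℝ) • (x + y) + (1 / 2 : ℝ) • (x - y) = x := by
    rw [← smul_add, add_add_sub_cancel, ← two_smul ℝ x, smul_smul]
    norm_num
  rw [h2] at h
  simp only [smul_eq_mul] at h
  linarith

lemma sd_nonneg {f : E → ℝ} (hf : ConvexOn ℝ univ f) (h r : E) : 0 ≤ sd f h r := by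
  have := mid_le hf h r
  unfold sd
  linarith

lemma sd_add_le {f : E → ℝ} (hf : ConvexOn ℝ univ f) (h a r : E) :
    sd f (h + a) r ≤ sd f h (a + r) + sd f h (a - r) := by
  have h1 := mid_le hf (h - a) r
  have h2 := mid_le hf h a
  have e1 : h + (a + r) = h + a + r := by abel
  have e2 : h - (a + r) = h - a - r := by abel
  have e3 : h + (a - r) = h + a - r := by abel
  have e4 : h - (a - r) = h - a + r := by abel
  unfold sd
  rw [e1, e2, e3, e4]
  linarith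

/-- Monotonicity, upper form. -/
lemma mono_up {f : E → ℝ} (hf : ConvexOn ℝ univ f) {h y : E} {s t A : ℝ}
    (hU : ∀ r : E, ‖r‖ ≤ s → sd f h r ≤ A) (hyt : ‖y - h‖ + t ≤ s) {r : E} (hr : ‖r‖ ≤ t) :
    sd f y r ≤ 2 * A := by
  have h1 := sd_add_le hf h (y - h) r
  rw [add_sub_cancel] at h1
  have h2 := hU (y - h + r) ((norm_add_le _ _).trans (by linarith))
  have h3 := hU (y - h - r) ((norm_sub_le _ _).trans (by linarith))
  linarith

/-- Monotonicity, lower form. -/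
lemma mono_low {f : E → ℝ} (hf : ConvexOn ℝ univ f) {h y r : E} {s t A : ℝ}
    (hr : ‖r‖ ≤ t) (hA : A ≤ sd f y r) (hyt : ‖y - h‖ + t ≤ s) :
    ∃ r' : E, ‖r'‖ ≤ s ∧ A / 2 ≤ sd f h r' := by
  by_contra hcon
  push Not at hcon
  have h1 := sd_add_le hf h (y - h) r
  rw [add_sub_cancel] at h1
  have h2 := hcon (y - h + r) ((norm_add_le _ _).trans (by linarith))
  have h3 := hcon (y - h - r) ((norm_sub_le _ _).trans (by linarith))
  linarith

/-- Touching from above. -/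
lemma touch_above [ProperSpace E] {f : E → ℝ} (hf : ConvexOn ℝ univ f) (hc : Continuous f)
    {x : E} {ρ A : ℝ} (hρ : 0 < ρ) (hA : 0 < A) (hU : ∀ r : E, ‖r‖ ≤ ρ → sd f x r ≤ A) :
    ∃ h : E, ‖h - x‖ ≤ ρ / 2 ∧ ∀ r : E, ‖r‖ ≤ ρ / 2 → sd f h r ≤ 10 * A / ρ ^ 2 * ‖r‖ ^ 2 := by
  set K : ℝ := 5 * A / ρ ^ 2 with hK
  have hK0 : 0 < K := by positivity
  have hKρ : K * ρ ^ 2 = 5 * A := by
    rw [hK]
    field_simp
  have hcont : Continuous fun w : E => sd f x w - K * ‖w‖ ^ 2 := by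
    unfold sd
    fun_prop
  obtain ⟨w, hwm, hw⟩ := (isCompact_closedBall (0 : E) ρ).exists_isMaxOn
    ⟨0, by simp [hρ.le]⟩ hcont.continuousOn
  have hmax : ∀ z : E, ‖z‖ ≤ ρ → sd f x z - K * ‖z‖ ^ 2 ≤ sd f x w - K * ‖w‖ ^ 2 := by
    intro z hz
    exact hw (by simpa [mem_closedBall_zero_iff] using hz)
  have hwρ : ‖w‖ ≤ ρ := by simpa [mem_closedBall_zero_iff] using hwm
  have h0 : sd f x 0 = 0 := by
    unfold sd
    simp
    ring
  have hw2 : ‖w‖ ≤ ρ / 2 := by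
    by_contra hcon
    push Not at hcon
    have h1 := hmax 0 (by simp [hρ.le])
    have h2 := hU w hwρ
    rw [h0] at h1
    have h3 : (ρ / 2) ^ 2 < ‖w‖ ^ 2 := by
      apply pow_lt_pow_left₀ hcon (by positivity) (by norm_num)
    have h4 : K * (ρ / 2) ^ 2 < K * ‖w‖ ^ 2 := mul_lt_mul_of_pos_left h3 hK0
    have h5 : K * (ρ / 2) ^ 2 = 5 * A / 4 := by
      have : K * (ρ / 2) ^ 2 = K * ρ ^ 2 / 4 := by ring
      rw [this, hKρ]
    simp at h1
    linarith
  refine ⟨x + w, by simpa using hw2, fun r hr => ?_⟩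
  have h1 := hmax (w + r) ((norm_add_le _ _).trans (by linarith))
  have h2 := hmax (w - r) ((norm_sub_le _ _).trans (by linarith))
  have hpar : ‖w + r‖ ^ 2 + ‖w - r‖ ^ 2 = 2 * ‖w‖ ^ 2 + 2 * ‖r‖ ^ 2 := by
    have := parallelogram_law_with_norm ℝ w r
    nlinarith [this]
  have h3 : sd f x (w + r) + sd f x (w - r) - 2 * sd f x w ≤ 2 * K * ‖r‖ ^ 2 := by
    have h4 : K * ‖w + r‖ ^ 2 + K * ‖w - r‖ ^ 2 = 2 * K * ‖w‖ ^ 2 + 2 * K * ‖r‖ ^ 2 := by
      rw [← mul_add, hpar]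
      ring
    linarith
  have h5 : sd f x (w + r) + sd f x (w - r) - 2 * sd f x w
      = sd f (x + w) r + sd f (x - w) r := by
    have e1 : x + (w + r) = x + w + r := by abel
    have e2 : x - (w + r) = x - w - r := by abel
    have e3 : x + (w - r) = x + w - r := by abel
    have e4 : x - (w - r) = x - w + r := by abel
    unfold sd
    rw [e1, e2, e3, e4]
    ring
  have h6 := sd_nonneg hf (x - w) r
  have h7 : 10 * A / ρ ^ 2 = 2 * K := by
    rw [hK]
    ring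
  rw [h7]
  linarith

/-- Touching from below along a segment. -/
lemma touch_below {f : E → ℝ} (hc : Continuous f) {x r : E} (hpos : 0 < sd f x r) :
    ∃ h : E, ‖h - x‖ ≤ ‖r‖ ∧ LowG f h := by
  have hr0 : r ≠ 0 := by
    rintro rfl
    unfold sd at hpos
    simp at hpos
    linarith
  have hrn : 0 < ‖r‖ := norm_pos_iff.2 hr0
  set φ : ℝ → ℝ := fun t => f (x + t • r) with hφ
  have hφc : Continuous φ := by
    rw [hφ]
    fun_prop
  set δ : ℝ := (φ 1 + φ (-1)) / 2 - φ 0 with hδ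
  have hδ0 : 0 < δ := by
    rw [hδ, hφ]
    simp only [one_smul, neg_smul, zero_smul, add_zero]
    unfold sd at hpos
    rw [← sub_eq_add_neg]
    linarith
  set g : ℝ → ℝ := fun t => φ t - t * (φ 1 - φ (-1)) / 2 - δ / 2 * t ^ 2 with hg
  have hgc : Continuous g := by
    rw [hg]
    fun_prop
  obtain ⟨t, htm, ht⟩ := (isCompact_Icc (a := (-1 : ℝ)) (b := 1)).exists_isMinOn
    ⟨0, by norm_num, by norm_num⟩ hgc.continuousOn
  have hmin : ∀ u : ℝ, -1 ≤ u → u ≤ 1 → g t ≤ g u := fun u h1 h2 => ht ⟨h1, h2⟩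
  have hg0 : g 0 = φ 0 := by simp [hg]
  have hg1 : g 1 = φ 0 + δ / 2 := by
    simp only [hg, hδ]
    ring
  have hgm : g (-1) = φ 0 + δ / 2 := by
    simp only [hg, hδ]
    ring
  have hle : g t ≤ φ 0 := by
    rw [← hg0]
    exact hmin 0 (by norm_num) (by norm_num)
  have ht1 : t < 1 := by
    refine lt_of_le_of_ne htm.2 ?_
    rintro rfl
    linarith
  have ht2 : -1 < t := by
    refine lt_of_le_of_ne htm.1 ?_
    intro h
    rw [← h] at hle
    linarith
  set κ : ℝ := min (1 - t) (1 + t) with hκ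
  have hκ0 : 0 < κ := lt_min (by linarith) (by linarith)
  have hκ1 : κ ≤ 1 - t := min_le_left _ _
  have hκ2 : κ ≤ 1 + t := min_le_right _ _
  refine ⟨x + t • r, ?_, δ / ‖r‖ ^ 2, by positivity, fun s₁ hs₁ => ?_⟩
  · rw [add_sub_cancel_left, norm_smul, Real.norm_eq_abs]
    have : |t| ≤ 1 := abs_le.2 htm
    nlinarith
  · set τ : ℝ := min κ (s₁ / ‖r‖ / 2) with hτ
    have hτ0 : 0 < τ := lt_min hκ0 (by positivity)
    have hτ1 : τ ≤ κ := min_le_left _ _
    have hτ2 : τ ≤ s₁ / ‖r‖ / 2 := min_le_right _ _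
    have hτr : τ * ‖r‖ < s₁ := by
      have h1 : τ * ‖r‖ ≤ s₁ / ‖r‖ / 2 * ‖r‖ := mul_le_mul_of_nonneg_right hτ2 hrn.le
      have h2 : s₁ / ‖r‖ / 2 * ‖r‖ = s₁ / 2 := by
        field_simp
      linarith
    refine ⟨τ * ‖r‖, by positivity, hτr, τ • r, ?_, ?_⟩
    · rw [norm_smul, Real.norm_eq_abs, abs_of_pos hτ0]
    · have h1 := hmin (t + τ) (by linarith) (by linarith)
      have h2 := hmin (t - τ) (by linarith) (by linarith)
      have h3 : δ * τ ^ 2 ≤ φ (t + τ) + φ (t - τ) - 2 * φ t := by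
        simp only [hg] at h1 h2
        nlinarith
      have h4 : sd f (x + t • r) (τ • r) = φ (t + τ) + φ (t - τ) - 2 * φ t := by
        simp only [hφ]
        unfold sd
        rw [add_smul, sub_smul]
        have e1 : x + t • r + τ • r = x + (t • r + τ • r) := by abel
        have e2 : x + t • r - τ • r = x + (t • r - τ • r) := by abel
        rw [e1, e2]
      rw [h4]
      have h5 : δ / ‖r‖ ^ 2 * (τ * ‖r‖) ^ 2 = δ * τ ^ 2 := by
        field_simp
      rw [h5]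
      exact h3

/-- The step of the descent. -/
lemma step [ProperSpace E] {f : E → ℝ} (hf : ConvexOn ℝ univ f) (hc : Continuous f)
    (hN : NowhereAffine f) {h : E} {s : ℝ} (hst : St f h s) :
    (∃ y : E, ‖y - h‖ ≤ s ∧ Good f y) ∨
    ∃ (y : E) (t : ℝ), St f y t ∧ t ≤ s / 10 ∧ ‖y - h‖ + t ≤ s ∧
      ∀ z : E, ‖z - y‖ ≤ t → ∀ u : ℝ, t ≤ u → u ≤ s / 4 → ∀ r : E, ‖r‖ ≤ u →
        sd f z r ≤ 400 * u ^ 2 := by
  obtain ⟨hs, -, hup⟩ := hst
  obtain ⟨x, hx, hxU⟩ := touch_above hf hc hs (by positivity : (0 : ℝ) < 4 * s ^ 2) hup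
  have hxU' : ∀ r : E, ‖r‖ ≤ s / 2 → sd f x r ≤ 40 * ‖r‖ ^ 2 := by
    intro r hr
    have h1 := hxU r hr
    have h2 : 10 * (4 * s ^ 2) / s ^ 2 = 40 := by
      field_simp
      norm_num
    rwa [h2] at h1
  have hUx : UpG f x := by
    refine ⟨40, s / 2, by positivity, fun u hu hus r hr => ?_⟩
    have h1 := hxU' r (hr.trans hus)
    have h2 : ‖r‖ ^ 2 ≤ u ^ 2 := pow_le_pow_left₀ (norm_nonneg _) hr 2
    linarith
  by_cases hlow : LowG f x
  · exact Or.inl ⟨x, by linarith, hUx, hlow⟩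
  unfold LowG at hlow
  push Not at hlow
  obtain ⟨s₁, hs₁, hflat⟩ := hlow (1 / 2000) (by norm_num)
  set σ : ℝ := min (s / 4) (s₁ / 4) with hσ
  have hσ0 : 0 < σ := lt_min (by positivity) (by positivity)
  have hσ1 : σ ≤ s / 4 := min_le_left _ _
  have hσ2 : σ ≤ s₁ / 4 := min_le_right _ _
  have hfl : ∀ r : E, ‖r‖ ≤ 2 * σ → sd f x r ≤ σ ^ 2 / 500 := by
    intro r hr
    have := hflat (2 * σ) (by positivity) (by linarith) r hr
    nlinarith
  set S : Set ℝ := {t | 0 < t ∧ t ≤ σ ∧ ∃ y : E, ‖y - x‖ ≤ σ / 2 ∧ ∃ r : E, ‖r‖ ≤ t ∧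
    t ^ 2 ≤ sd f y r} with hS
  by_cases hSe : S.Nonempty
  · have hbdd : BddAbove S := ⟨σ, fun t ht => ht.2.1⟩
    obtain ⟨t₀, ht₀⟩ := hSe
    have hsup0 : 0 < sSup S := lt_of_lt_of_le ht₀.1 (le_csSup hbdd ht₀)
    obtain ⟨t, htS, htsup⟩ := exists_lt_of_lt_csSup ⟨t₀, ht₀⟩
      (show sSup S / 2 < sSup S by linarith)
    obtain ⟨ht0, htσ, y, hyx, r₀, hr₀, hr₀t⟩ := htS
    have hbound : ∀ z : E, ‖z - x‖ ≤ σ / 2 → ∀ u, t ≤ u → u ≤ σ → ∀ r : E, ‖r‖ ≤ u →
        sd f z r ≤ 4 * u ^ 2 := by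
      intro z hz u hu1 hu2 r hr
      by_cases hcase : u ≤ σ / 2
      · by_contra hcon
        push Not at hcon
        have hmem : 2 * u ∈ S := by
          refine ⟨by linarith, by linarith, z, hz, r, by linarith [norm_nonneg r], ?_⟩
          nlinarith
        have := le_csSup hbdd hmem
        linarith
      · push Not at hcase
        have h1 := mono_up hf hfl (show ‖z - x‖ + u ≤ 2 * σ by linarith) hr
        nlinarith
    have htσ' : t ≤ σ / 10 := by
      have h1 := mono_up hf hfl (show ‖y - x‖ + t ≤ 2 * σ by linarith) hr₀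
      by_contra hcon
      push Not at hcon
      nlinarith
    refine Or.inr ⟨y, t, ⟨ht0, ⟨r₀, hr₀, hr₀t⟩, fun r hr => hbound y hyx t le_rfl htσ r hr⟩,
      by linarith, ?_, ?_⟩
    · have : ‖y - h‖ ≤ ‖y - x‖ + ‖x - h‖ := by
        have e : y - h = (y - x) + (x - h) := by abel
        rw [e]
        exact norm_add_le _ _
      linarith
    · intro z hz u hu1 hu2 r hr
      by_cases hcase : u ≤ σ / 2
      · have h1 := mono_up hf (hbound y hyx (2 * u) (by linarith) (by linarith))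
          (show ‖z - y‖ + u ≤ 2 * u by linarith) hr
        nlinarith
      · push Not at hcase
        have hzx : ‖z - x‖ ≤ ‖z - y‖ + ‖y - x‖ := by
          have e : z - x = (z - y) + (y - x) := by abel
          rw [e]
          exact norm_add_le _ _
        have hw : ∀ r : E, ‖r‖ ≤ 11 / 5 * u → ‖r‖ ≤ s / 2 → sd f x r ≤ 40 * (11 / 5 * u) ^ 2 := by
          intro r hr1 hr2
          have h1 := hxU' r hr2
          have h2 : ‖r‖ ^ 2 ≤ (11 / 5 * u) ^ 2 := pow_le_pow_left₀ (norm_nonneg _) hr1 2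
          linarith
        have h1 := mono_up (s := min (11 / 5 * u) (s / 2)) hf
          (fun r hr => hw r (hr.trans (min_le_left _ _)) (hr.trans (min_le_right _ _)))
          (show ‖z - x‖ + u ≤ min (11 / 5 * u) (s / 2) from le_min (by linarith) (by linarith)) hr
        nlinarith
  · -- no new scale: `f` is `C^{1,1}` near `x`
    have hall : ∀ z : E, ‖z - x‖ ≤ σ / 2 → ∀ u, 0 < u → u ≤ σ → ∀ r : E, ‖r‖ ≤ u →
        sd f z r ≤ 1 * u ^ 2 := by
      intro z hz u hu1 hu2 r hr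
      by_contra hcon
      push Not at hcon
      exact hSe ⟨u, hu1, hu2, z, hz, r, hr, by linarith⟩
    obtain ⟨r, hr, hpos⟩ := hN x (σ / 2) (by positivity)
    obtain ⟨y, hy, hlowy⟩ := touch_below hc hpos
    refine Or.inl ⟨y, ?_, ⟨1, σ, hσ0, fun u hu1 hu2 r hr => hall y (by linarith) u hu1 hu2 r hr⟩,
      hlowy⟩
    have : ‖y - h‖ ≤ ‖y - x‖ + ‖x - h‖ := by
      have e : y - h = (y - x) + (x - h) := by abel
      rw [e]
      exact norm_add_le _ _
    linarith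

/-- The limit of the descent. -/
lemma exists_good_of_St [ProperSpace E] {f : E → ℝ} (hf : ConvexOn ℝ univ f) (hc : Continuous f)
    (hN : NowhereAffine f) {h₀ : E} {s₀ : ℝ} (hst : St f h₀ s₀) :
    ∃ y : E, ‖y - h₀‖ ≤ s₀ ∧ Good f y := by
  by_contra hcon
  push Not at hcon
  -- the states inside the first ball
  let Q : Type _ := {p : E × ℝ // St f p.1 p.2 ∧ ‖p.1 - h₀‖ + p.2 ≤ s₀}
  have hnext : ∀ p : Q, ∃ p' : Q, p'.1.2 ≤ p.1.2 / 10 ∧ ‖p'.1.1 - p.1.1‖ + p'.1.2 ≤ p.1.2 ∧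
      ∀ z : E, ‖z - p'.1.1‖ ≤ p'.1.2 → ∀ u : ℝ, p'.1.2 ≤ u → u ≤ p.1.2 / 4 → ∀ r : E, ‖r‖ ≤ u →
        sd f z r ≤ 400 * u ^ 2 := by
    rintro ⟨⟨h, s⟩, hs, hin⟩
    rcases step hf hc hN hs with ⟨y, hy, hg⟩ | ⟨y, t, hSt, ht, hyt, hz⟩
    · exfalso
      refine hcon y ?_ hg
      have : ‖y - h₀‖ ≤ ‖y - h‖ + ‖h - h₀‖ := by
        have e : y - h₀ = (y - h) + (h - h₀) := by abel
        rw [e]
        exact norm_add_le _ _
      simp only at hin hy
      linarith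
    · refine ⟨⟨⟨y, t⟩, hSt, ?_⟩, ht, hyt, hz⟩
      have : ‖y - h₀‖ ≤ ‖y - h‖ + ‖h - h₀‖ := by
        have e : y - h₀ = (y - h) + (h - h₀) := by abel
        rw [e]
        exact norm_add_le _ _
      simp only at hin hyt ⊢
      linarith
  choose nx hnx1 hnx2 hnx3 using hnext
  set q : ℕ → Q := fun k => nx^[k] ⟨⟨h₀, s₀⟩, hst, by simp⟩ with hq
  have hqs : ∀ k, q (k + 1) = nx (q k) := fun k => Function.iterate_succ_apply' nx k _
  have hpos : ∀ k, 0 < (q k).1.2 := fun k => (q k).2.1.1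
  have hdec : ∀ k, (q (k + 1)).1.2 ≤ (q k).1.2 / 10 := fun k => by rw [hqs]; exact hnx1 (q k)
  have hball : ∀ k, ‖(q (k + 1)).1.1 - (q k).1.1‖ + (q (k + 1)).1.2 ≤ (q k).1.2 := fun k => by
    rw [hqs]; exact hnx2 (q k)
  have hpr : ∀ k, ∀ z : E, ‖z - (q (k + 1)).1.1‖ ≤ (q (k + 1)).1.2 → ∀ u : ℝ,
      (q (k + 1)).1.2 ≤ u → u ≤ (q k).1.2 / 4 → ∀ r : E, ‖r‖ ≤ u → sd f z r ≤ 400 * u ^ 2 :=
    fun k => by rw [hqs]; exact hnx3 (q k)
  have hq0 : (q 0).1 = (h₀, s₀) := rfl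
  have hgeo : ∀ k, (q k).1.2 ≤ s₀ * (1 / 10) ^ k := by
    intro k
    induction k with
    | zero => rw [hq0]; simp
    | succ k ih =>
      have := hdec k
      rw [pow_succ]
      linarith
  have htend : ∀ ε : ℝ, 0 < ε → ∃ k, (q k).1.2 < ε := by
    intro ε hε
    have hs₀ : 0 < s₀ := hst.1
    obtain ⟨k, hk⟩ := exists_pow_lt_of_lt_one (show 0 < ε / s₀ by positivity)
      (by norm_num : (1 / 10 : ℝ) < 1)
    refine ⟨k, (hgeo k).trans_lt ?_⟩
    rw [lt_div_iff₀ hs₀] at hk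
    linarith
  -- the limit point
  obtain ⟨z, hz⟩ := IsCompact.nonempty_iInter_of_sequence_nonempty_isCompact_isClosed
    (fun k => closedBall (q k).1.1 (q k).1.2) (fun k => by
      apply closedBall_subset_closedBall'
      rw [dist_eq_norm]
      have := hball k
      linarith) (fun k => ⟨(q k).1.1, by simp [(hpos k).le]⟩)
    (isCompact_closedBall _ _) (fun k => isClosed_closedBall)
  have hzk : ∀ k, ‖z - (q k).1.1‖ ≤ (q k).1.2 := by
    intro k
    have := mem_iInter.1 hz k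
    rwa [mem_closedBall, dist_eq_norm] at this
  refine hcon z (by simpa [hq0] using hzk 0) ⟨⟨6400, (q 1).1.2, hpos 1, ?_⟩, 1 / 8, by norm_num, ?_⟩
  · intro u hu hu1 r hr
    have hex : ∃ k, (q k).1.2 ≤ u := by
      obtain ⟨k, hk⟩ := htend u hu
      exact ⟨k, hk.le⟩
    classical
    set j := Nat.find hex with hj
    have hju : (q j).1.2 ≤ u := Nat.find_spec hex
    have hjm : ∀ i, i < j → u < (q i).1.2 := fun i hi => by
      have := Nat.find_min hex hi
      push Not at this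
      exact this
    have h10 := hdec 0
    simp only [zero_add] at h10
    have hp0 := hpos 0
    obtain ⟨k, hk⟩ : ∃ k, j = k + 1 := by
      refine Nat.exists_eq_succ_of_ne_zero fun h0 => ?_
      rw [h0] at hju
      linarith
    rw [hk] at hju
    by_cases hcase : u ≤ (q k).1.2 / 4
    · have h1 := hpr k z (hzk (k + 1)) u hju hcase r hr
      nlinarith
    · push Not at hcase
      rcases Nat.eq_zero_or_pos k with hk0 | hk0
      · rw [hk0] at hcase
        linarith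
      · obtain ⟨i, hi⟩ := Nat.exists_eq_succ_of_ne_zero hk0.ne'
        have hi' : k = i + 1 := hi
        have h1 := hjm k (by omega)
        have h2 := hdec i
        have h3 := hpos i
        have h4 := hpr i z (hzk (i + 1)) (q (i + 1)).1.2 le_rfl (by linarith) r
          (by rw [← hi']; linarith)
        rw [← hi'] at h4
        have h5 := hpos k
        nlinarith
  · intro s₁ hs₁
    obtain ⟨k, hk⟩ := htend (s₁ / 2) (by positivity)
    obtain ⟨hsk, ⟨r, hr, hrl⟩, -⟩ := (q k).2.1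
    have h1 := hzk k
    have h2 : ‖(q k).1.1 - z‖ + (q k).1.2 ≤ 2 * (q k).1.2 := by
      rw [norm_sub_rev]
      linarith
    obtain ⟨r', hr', hr'l⟩ := mono_low hf hr hrl h2
    exact ⟨2 * (q k).1.2, by linarith, by linarith, r', hr', by nlinarith⟩

/-- **LEMMA G.** A continuous convex function which is affine on no ball has in every ball a point
with a quadratic upper bound at all small scales and a quadratic lower bound along a sequence of
scales. -/
theorem exists_good [ProperSpace E] {f : E → ℝ} (hf : ConvexOn ℝ univ f) (hc : Continuous f)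
    (hN : NowhereAffine f) (x : E) {ρ : ℝ} (hρ : 0 < ρ) :
    ∃ y : E, ‖y - x‖ < ρ ∧ Good f y := by
  obtain ⟨w, hw, hwpos⟩ := hN x (ρ / 2) (by positivity)
  have hcont : Continuous fun r : E => sd f x r := by
    unfold sd
    fun_prop
  obtain ⟨r₁, hr₁m, hr₁⟩ := (isCompact_closedBall (0 : E) (ρ / 2)).exists_isMaxOn
    ⟨0, by simp; positivity⟩ hcont.continuousOn
  have hr₁n : ‖r₁‖ ≤ ρ / 2 := by simpa [mem_closedBall_zero_iff] using hr₁m
  have hmax : ∀ r : E, ‖r‖ ≤ ρ / 2 → sd f x r ≤ sd f x r₁ := by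
    intro r hr
    exact hr₁ (by simpa [mem_closedBall_zero_iff] using hr)
  set m : ℝ := sd f x r₁ with hm
  have hm0 : 0 < m := lt_of_lt_of_le hwpos (hmax w hw.le)
  set κ : ℝ := (ρ / 2) ^ 2 / m with hκ
  have hκ0 : 0 < κ := by positivity
  have hsd : ∀ h r : E, sd (fun z => κ * f z) h r = κ * sd f h r := by
    intro h r
    unfold sd
    ring
  have hf' : ConvexOn ℝ univ fun z => κ * f z := by
    have := hf.smul hκ0.le
    simpa [smul_eq_mul] using this
  have hc' : Continuous fun z => κ * f z := by fun_prop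
  have hN' : NowhereAffine fun z => κ * f z := by
    intro y s hs
    obtain ⟨r, hr, hr0⟩ := hN y s hs
    exact ⟨r, hr, by rw [hsd]; positivity⟩
  have hκm : κ * m = (ρ / 2) ^ 2 := by
    rw [hκ]
    field_simp
  have hst : St (fun z => κ * f z) x (ρ / 2) := by
    refine ⟨by positivity, ⟨r₁, hr₁n, ?_⟩, fun r hr => ?_⟩
    · rw [hsd, ← hm, hκm]
    · rw [hsd]
      have h1 : κ * sd f x r ≤ κ * m := mul_le_mul_of_nonneg_left (hmax r hr) hκ0.le
      rw [hκm] at h1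
      nlinarith
  obtain ⟨y, hy, ⟨C, s₀, hs₀, hC⟩, c, hc0, hlow⟩ := exists_good_of_St hf' hc' hN' hst
  refine ⟨y, by linarith, ⟨C / κ, s₀, hs₀, fun s hs hss r hr => ?_⟩, c / κ, by positivity,
    fun s₁ hs₁ => ?_⟩
  · have h1 := hC s hs hss r hr
    rw [hsd] at h1
    rw [div_mul_eq_mul_div, le_div_iff₀ hκ0]
    linarith
  · obtain ⟨s, hs, hss, r, hr, h1⟩ := hlow s₁ hs₁
    refine ⟨s, hs, hss, r, hr, ?_⟩
    rw [hsd] at h1
    rw [div_mul_eq_mul_div, div_le_iff₀ hκ0]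
    linarith

/-- **LEMMA G, the form with a subgradient.** If moreover `v` is a subgradient of `f` at the good
point `y`, then `0 ≤ f (y + r) - f y - ⟨v, r⟩ ≤ C ‖r‖²` for all small `r`, and
`c ‖r‖² ≤ f (y + r) - f y - ⟨v, r⟩` for some arbitrarily small `r ≠ 0`. -/
theorem good_subgrad {f : E → ℝ} {y v : E} (hg : Good f y)
    (hv : ∀ r : E, f y + inner ℝ v r ≤ f (y + r)) :
    (∃ C s₀ : ℝ, 0 < s₀ ∧ ∀ r : E, ‖r‖ ≤ s₀ → f (y + r) ≤ f y + inner ℝ v r + C * ‖r‖ ^ 2) ∧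
    ∃ c : ℝ, 0 < c ∧ ∀ s₁ : ℝ, 0 < s₁ → ∃ r : E, r ≠ 0 ∧ ‖r‖ < s₁ ∧
      f y + inner ℝ v r + c * ‖r‖ ^ 2 ≤ f (y + r) := by
  obtain ⟨⟨C, s₀, hs₀, hC⟩, c, hc, hlow⟩ := hg
  have hneg : ∀ r : E, f y - inner ℝ v r ≤ f (y - r) := by
    intro r
    have := hv (-r)
    rwa [inner_neg_right, ← sub_eq_add_neg, ← sub_eq_add_neg] at this
  refine ⟨⟨C, s₀, hs₀, fun r hr => ?_⟩, c / 2, by positivity, fun s₁ hs₁ => ?_⟩
  · rcases eq_or_ne r 0 with rfl | hr0
    · simp
    · have h1 := hC ‖r‖ (norm_pos_iff.2 hr0) hr r le_rfl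
      have h2 := hneg r
      unfold sd at h1
      linarith
  · obtain ⟨s, hs, hss, r, hr, h1⟩ := hlow s₁ hs₁
    have hr0 : r ≠ 0 := by
      rintro rfl
      unfold sd at h1
      simp only [add_zero, sub_zero] at h1
      nlinarith [mul_pos hc (pow_pos hs 2)]
    have h2 : ‖r‖ ^ 2 ≤ s ^ 2 := pow_le_pow_left₀ (norm_nonneg _) hr 2
    have h3 : c * ‖r‖ ^ 2 ≤ c * s ^ 2 := mul_le_mul_of_nonneg_left h2 hc.le
    unfold sd at h1
    by_cases hcase : f y + inner ℝ v r + c / 2 * ‖r‖ ^ 2 ≤ f (y + r)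
    · exact ⟨r, hr0, hr.trans_lt hss, hcase⟩
    · push Not at hcase
      refine ⟨-r, neg_ne_zero.2 hr0, by rw [norm_neg]; exact hr.trans_lt hss, ?_⟩
      rw [inner_neg_right, norm_neg, ← sub_eq_add_neg, ← sub_eq_add_neg]
      linarith

end Pool.Agent.W_7d29a1_D2.G70
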