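import Pool.Agent.W_7d29a1_D2.Slb7

/-!
The join: the partition function against an independent copy from the row `m`, by a union bound
over the end points.
-/

namespace Pool.Agent.W_7d29a1_D2

open MeasureTheory ProbabilityTheory Filter Topology Pool.Agent.W_MP_7d29a1_pr
  Pool.Agent.W_7d29a1_h46 Pool.Agent.W_7d29a1_h46u

variable {d : ℕ} {ρ : Measure ℝ} [IsProbabilityMeasure ρ]

/-- Independence of two events which depend on disjoint sets of sites. -/
lemma real_inter (S : Set (ℕ × Site d)) {A B : Set (Env d)} (hA : MeasurableSet A)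
    (hB : MeasurableSet B) (hAS : DependsOn (fun η : Env d => η ∈ A) S)
    (hBS : DependsOn (fun η : Env d => η ∈ B) Sᶜ) :
    (law d ρ).real (A ∩ B) = (law d ρ).real A * (law d ρ).real B := by
  classical
  have h1 := integral_indep (ρ := ρ) S (F := A.indicator fun _ => (1 : ℝ))
    (G := B.indicator fun _ => (1 : ℝ)) (measurable_const.indicator hA)
    (measurable_const.indicator hB)
    (fun η η' h => by
      have h2 : (η ∈ A) = (η' ∈ A) := hAS h
      by_cases h3 : η ∈ A
      · rw [Set.indicator_of_mem h3, Set.indicator_of_mem (h2 ▸ h3)]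
      · rw [Set.indicator_of_notMem h3, Set.indicator_of_notMem (h2 ▸ h3)])
    (fun η η' h => by
      have h2 : (η ∈ B) = (η' ∈ B) := hBS h
      by_cases h3 : η ∈ B
      · rw [Set.indicator_of_mem h3, Set.indicator_of_mem (h2 ▸ h3)]
      · rw [Set.indicator_of_notMem h3, Set.indicator_of_notMem (h2 ▸ h3)])
  have h2 : ∀ η : Env d, A.indicator (fun _ => (1 : ℝ)) η * B.indicator (fun _ => (1 : ℝ)) η =
      (A ∩ B).indicator (fun _ => (1 : ℝ)) η := by
    intro η
    by_cases h3 : η ∈ A
    · by_cases h4 : η ∈ B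
      · rw [Set.indicator_of_mem h3, Set.indicator_of_mem h4, Set.indicator_of_mem (show η ∈ A ∩ B from ⟨h3, h4⟩), mul_one]
      · rw [Set.indicator_of_notMem h4, mul_zero, Set.indicator_of_notMem (show η ∉ A ∩ B from fun hc => h4 hc.2)]
    · rw [Set.indicator_of_notMem h3, zero_mul, Set.indicator_of_notMem (show η ∉ A ∩ B from fun hc => h3 hc.1)]
  simp only [h2] at h1
  rw [integral_indicator_const _ (hA.inter hB), integral_indicator_const _ hA,
    integral_indicator_const _ hB] at h1
  simpa using h1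

/-- One end point. -/
theorem join_z (hd : 0 < d) (β : ℝ) (h v e : Vec d) {m k : ℕ} {R b c : ℝ} (z : Site d)
    (hz : 2 * R < |off v e m z|) (hb : 0 < b) (hc : 0 < c) :
    (law d ρ).real {η | b ≤ W β h m z η ∧ ZT β h η (slab (m + k) v e R) < b * c / 2} *
      (law d ρ).real {η | c ≤ ZT β h η (slab k v e R)} ≤
      (law d ρ).real {η | PolT β h η (slab (m + k) v e R) < 1 / 2} := by
  classical
  obtain ⟨A, hA⟩ : ∃ A : Set (Env d),
    A = {η | b ≤ W β h m z η ∧ ZT β h η (slab (m + k) v e R) < b * c / 2} := ⟨_, rfl⟩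
  obtain ⟨B, hB⟩ : ∃ B : Set (Env d), B = {η | c ≤ ZT β h η (slab k v e R)} := ⟨_, rfl⟩
  obtain ⟨B', hB'⟩ : ∃ B' : Set (Env d), B' = {η | c ≤ ZT β h (sh m z η) (slab k v e R)} :=
    ⟨_, rfl⟩
  have hAm : MeasurableSet A := by
    rw [hA]
    exact (measurableSet_le measurable_const (measurable_W β h m z)).inter
      (measurableSet_lt (measurable_ZT β h _) measurable_const)
  have hBm : MeasurableSet B := by
    rw [hB]
    exact measurableSet_le measurable_const (measurable_ZT β h _)
  have hBB' : B' = sh m z ⁻¹' B := by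
    rw [hB, hB']
    rfl
  have hBm' : MeasurableSet B' := by
    rw [hBB']
    exact measurable_sh m z hBm
  have h1 : (law d ρ).real B' = (law d ρ).real B := by
    rw [hBB', measureReal_def, measureReal_def,
      (mp_sh (ρ := ρ) m z).measure_preimage hBm.nullMeasurableSet]
  obtain ⟨S, hS⟩ : ∃ S : Set (ℕ × Site d),
    S = {p | m < p.1 ∧ |off v e p.1 p.2 - off v e m z| ≤ R} := ⟨_, rfl⟩
  have hdB : DependsOn (fun η : Env d => η ∈ B') S := by
    intro η η' hη
    have h2 : ZT β h (sh m z η) (slab k v e R) = ZT β h (sh m z η') (slab k v e R) :=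
      slab_dep β h v e m k z R fun p hp => hη p (by rw [hS]; exact hp)
    rw [hB']
    show (c ≤ ZT β h (sh m z η) (slab k v e R)) = (c ≤ ZT β h (sh m z η') (slab k v e R))
    rw [h2]
  have hdA : DependsOn (fun η : Env d => η ∈ A) Sᶜ := by
    intro η η' hη
    have h2 : W β h m z η = W β h m z η' := W_dep β h m z fun p hp => hη p (by
      rw [hS]
      intro hcon
      have h3 : p.1 ≤ m := hp
      have h4 : m < p.1 := hcon.1
      omega)
    have h3 : ZT β h η (slab (m + k) v e R) = ZT β h η' (slab (m + k) v e R) := by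
      have h4 := slab_dep β h v e 0 (m + k) 0 R (x := η) (y := η') fun p hp => hη p (by
        rw [hS]
        intro hcon
        have h5 : |off v e p.1 p.2 - off v e 0 0| ≤ R := hp.2
        have h6 : off v e 0 0 = 0 := by
          unfold off
          have : emb (0 : Site d) = 0 := by
            ext j
            simp [emb]
          rw [this]
          simp
        rw [h6, sub_zero] at h5
        have h7 : |off v e p.1 p.2 - off v e m z| ≤ R := hcon.2
        have h8 : |off v e m z| ≤ |off v e p.1 p.2| + |off v e p.1 p.2 - off v e m z| := by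
          have h9 : off v e m z = off v e p.1 p.2 - (off v e p.1 p.2 - off v e m z) := by ring
          rw [h9]
          exact (abs_sub _ _).trans (by rw [← h9])
        linarith)
      have h5 : ∀ ζ : Env d, sh 0 0 ζ = ζ := by
        intro ζ
        funext p
        unfold sh
        rw [add_zero, add_zero]
      simp only [h5] at h4
      exact h4
    rw [hA]
    show (b ≤ W β h m z η ∧ ZT β h η (slab (m + k) v e R) < b * c / 2) =
      (b ≤ W β h m z η' ∧ ZT β h η' (slab (m + k) v e R) < b * c / 2)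
    rw [h2, h3]
  have h2 := real_inter (ρ := ρ) S hBm' hAm hdB hdA
  rw [← hA, ← hB, ← h1, mul_comm, ← h2]
  refine measureReal_mono ?_
  intro η hη
  obtain ⟨hη1, hη2⟩ := hη
  rw [hB'] at hη1
  rw [hA] at hη2
  have e1 : c ≤ ZT β h (sh m z η) (slab k v e R) := hη1
  have e2 : b ≤ W β h m z η := hη2.1
  have e3 : ZT β h η (slab (m + k) v e R) < b * c / 2 := hη2.2
  have e4 : c ≤ Z β h (sh m z η) k := e1.trans (ZT_le_Z β h _ _)
  have e5 : b * c ≤ Z β h η (m + k) :=
    (mul_le_mul e2 e4 hc.le (hb.le.trans e2)).trans (W_mul_le hd β h η m k z)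
  show PolT β h η (slab (m + k) v e R) < 1 / 2
  unfold PolT
  have e6 : (0 : ℝ) < ZT β h η (Set.univ : Set (Fin (m + k) → Step d)) := ZT_univ_pos hd β h η
  rw [div_lt_iff₀ e6]
  have e7 : Z β h η (m + k) = ZT β h η (Set.univ : Set (Fin (m + k) → Step d)) := rfl
  rw [← e7]
  linarith

/-- The lower side. -/
theorem join_low (hd : 0 < d) (β : ℝ) (h v e : Vec d) {m k : ℕ} {R b c p κ : ℝ}
    (T : Finset (Site d)) (hT : ∀ z ∈ T, 2 * R < |off v e m z|) (hb : 0 < b) (hc : 0 < c)
    (hp : 0 < p) (hκ : (law d ρ).real {η | PolT β h η (slab (m + k) v e R) < 1 / 2} ≤ κ)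
    (hpc : p ≤ (law d ρ).real {η | c ≤ ZT β h η (slab k v e R)}) :
    (law d ρ).real {η | Z β h η (m + k) < b * c / 2} ≤
      (law d ρ).real {η | ∀ z ∈ T, W β h m z η < b} + T.card * (κ / p) := by
  classical
  have h1 : {η : Env d | Z β h η (m + k) < b * c / 2} ⊆ {η | ∀ z ∈ T, W β h m z η < b} ∪
      ⋃ z ∈ T, {η | b ≤ W β h m z η ∧ ZT β h η (slab (m + k) v e R) < b * c / 2} := by
    intro η hη
    by_cases h2 : ∀ z ∈ T, W β h m z η < b
    · exact Or.inl h2
    · right
      push Not at h2
      obtain ⟨z, hz, hzb⟩ := h2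
      rw [Set.mem_iUnion₂]
      exact ⟨z, hz, hzb, (ZT_le_Z β h η _).trans_lt hη⟩
  refine (measureReal_mono h1).trans ((measureReal_union_le _ _).trans ?_)
  refine add_le_add le_rfl ?_
  refine (measureReal_biUnion_finset_le _ _).trans ?_
  have h2 : ∀ z ∈ T, (law d ρ).real
      {η | b ≤ W β h m z η ∧ ZT β h η (slab (m + k) v e R) < b * c / 2} ≤ κ / p := by
    intro z hz
    rw [le_div_iff₀ hp]
    have h3 := join_z (ρ := ρ) hd β h v e (k := k) z (hT z hz) hb hc
    have h4 := mul_le_mul_of_nonneg_left hpc (measureReal_nonneg (μ := law d ρ)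
      (s := {η | b ≤ W β h m z η ∧ ZT β h η (slab (m + k) v e R) < b * c / 2}))
    exact h4.trans (h3.trans hκ)
  refine (Finset.sum_le_card_nsmul _ _ _ h2).trans ?_
  rw [nsmul_eq_mul]

/-- The upper side. -/
theorem join_up (β : ℝ) (h : Vec d) {m k : ℕ} {b c : ℝ} (hc : 0 ≤ c) :
    (law d ρ).real {η | b * c < Z β h η (m + k)} ≤
      (law d ρ).real {η | b < Z β h η m} +
        (boxF d m).card * (law d ρ).real {η | c < Z β h η k} := by
  classical
  have h1 : {η : Env d | b * c < Z β h η (m + k)} ⊆ {η | b < Z β h η m} ∪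
      ⋃ z ∈ boxF d m, {η | c < Z β h (sh m z η) k} := by
    intro η hη
    by_cases h2 : b < Z β h η m
    · exact Or.inl h2
    · right
      rw [Set.mem_iUnion₂]
      by_contra hcon
      push Not at hcon
      have h3 : ∀ y ∈ boxF d m, Z β h (sh m y η) k ≤ c := by
        intro y hy
        have h4 := hcon y hy
        exact not_lt.1 h4
      have h4 := Z_le_mul β h η m k hc (not_lt.1 h2) h3
      have h5 : b * c < Z β h η (m + k) := hη
      linarith
  refine (measureReal_mono h1).trans ((measureReal_union_le _ _).trans ?_)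
  refine add_le_add le_rfl ?_
  refine (measureReal_biUnion_finset_le _ _).trans ?_
  have h2 : ∀ z ∈ boxF d m, (law d ρ).real {η | c < Z β h (sh m z η) k} ≤
      (law d ρ).real {η | c < Z β h η k} := by
    intro z _
    have h3 : MeasurableSet {η : Env d | c < Z β h η k} :=
      measurableSet_lt measurable_const (measurable_Z β h k)
    have h4 : {η : Env d | c < Z β h (sh m z η) k} = sh m z ⁻¹' {η | c < Z β h η k} := rfl
    rw [h4, measureReal_def, measureReal_def,
      (mp_sh (ρ := ρ) m z).measure_preimage h3.nullMeasurableSet]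
  refine (Finset.sum_le_card_nsmul _ _ _ h2).trans ?_
  rw [nsmul_eq_mul]

end Pool.Agent.W_7d29a1_D2
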