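import Pool.Agent.W_7d29a1_h46u.Walk
import Pool.Agent.W_7d29a1_h46u.LawU

/-!
TEAM D2. The join of two slabs: plain independence for each fixed end point, union over the end
points. Lower bound (with the upper quantile of the second part) and upper bound.
-/

namespace Pool.Agent.W_7d29a1_D2.C75

open MeasureTheory ProbabilityTheory Filter Topology Pool.Agent.W_MP_7d29a1_pr
  Pool.Agent.W_7d29a1_h46 Pool.Agent.W_7d29a1_h46u

variable {d : ℕ} {ρ : Measure ℝ} [IsProbabilityMeasure ρ]

/-- The offset `⟨e, x - i v⟩` of the site `(i, x)` in the direction `e`. -/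
noncomputable def ofs (e v : Vec d) (i : ℕ) (x : Site d) : ℝ := inner ℝ e (emb x - (i : ℝ) • v)

/-- The slab `|⟨e, S_i - i v⟩| ≤ r`, `i ≤ n`. -/
def slab (d n : ℕ) (v e : Vec d) (r : ℝ) : Set (Fin n → Step d) :=
  {s | ∀ i ≤ n, |ofs e v i (pos s i)| ≤ r}

lemma ofs_add (e v : Vec d) (i j : ℕ) (x y : Site d) :
    ofs e v (i + j) (x + y) = ofs e v i x + ofs e v j y := by
  unfold ofs
  rw [Walk_emb_add, ← inner_add_right]
  congr 1
  push_cast
  rw [add_smul]
  abel

/-- The total weight of a set of walks depends on the sites visited by these walks. -/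
lemma dependsOn_ZT (β : ℝ) (h : Vec d) {n : ℕ} (E : Set (Fin n → Step d)) (S : Set (ℕ × Site d))
    (hS : ∀ s ∈ E, ∀ i : ℕ, 1 ≤ i → i ≤ n → (i, pos s i) ∈ S) :
    DependsOn (fun η : Env d => ZT β h η E) S := by
  intro η η' hη
  simp only
  unfold ZT
  refine Finset.sum_congr rfl fun s _ => ?_
  by_cases hs : s ∈ E
  · rw [if_pos hs, if_pos hs]
    have h1 : energy η s = energy η' s := by
      unfold energy
      exact Finset.sum_congr rfl fun i _ => hη _ (hS s hs _ (Nat.le_add_left 1 i) i.2)
    unfold wgt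
    rw [h1]
  · rw [if_neg hs, if_neg hs]

/-- The weight of the walks from `0` to `(s, z)`. -/
noncomputable def wz (β : ℝ) (h : Vec d) (η : Env d) (s : ℕ) (z : Site d) : ℝ :=
  ZT β h η {p : Fin s → Step d | pos p s = z}

lemma wz_nonneg (β : ℝ) (h : Vec d) (η : Env d) (s : ℕ) (z : Site d) : 0 ≤ wz β h η s z :=
  ZT_nonneg _ _ _ _

/-- Superadditivity at the end point `z`. -/
lemma wz_mul_le (β : ℝ) (h : Vec d) (η : Env d) (s k : ℕ) (z : Site d) :
    wz β h η s z * Z β h (sh s z η) k ≤ Z β h η (s + k) := by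
  classical
  rw [Z_add]
  unfold wz ZT
  rw [Finset.sum_mul]
  refine Finset.sum_le_sum fun p _ => ?_
  by_cases hp : pos p s = z
  · rw [if_pos (show p ∈ {p : Fin s → Step d | pos p s = z} from hp), hp]
  · rw [if_neg (show p ∉ {p : Fin s → Step d | pos p s = z} from hp), zero_mul]
    exact mul_nonneg (wgt_pos _ _ _ _).le (ZT_nonneg _ _ _ _)

/-- Plain independence. -/
lemma real_inter (S : Set (ℕ × Site d)) {A B : Set (Env d)} (hA : MeasurableSet A)
    (hB : MeasurableSet B) (dA : DependsOn (fun η : Env d => η ∈ A) S)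
    (dB : DependsOn (fun η : Env d => η ∈ B) Sᶜ) :
    (law d ρ).real (A ∩ B) = (law d ρ).real A * (law d ρ).real B := by
  have h1 := integral_indep (ρ := ρ) S (F := A.indicator fun _ => (1 : ℝ))
    (G := B.indicator fun _ => (1 : ℝ)) (measurable_const.indicator hA)
    (measurable_const.indicator hB) (fun η η' hη => by
      have := dA hη
      simp only at this
      simp only [Set.indicator]
      by_cases h : η ∈ A
      · rw [if_pos h, if_pos (this ▸ h)]
      · rw [if_neg h, if_neg (this ▸ h)]) (fun η η' hη => by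
      have := dB hη
      simp only at this
      simp only [Set.indicator]
      by_cases h : η ∈ B
      · rw [if_pos h, if_pos (this ▸ h)]
      · rw [if_neg h, if_neg (this ▸ h)])
  have h2 : ∀ η : Env d, A.indicator (fun _ => (1 : ℝ)) η * B.indicator (fun _ => (1 : ℝ)) η =
      (A ∩ B).indicator (fun _ => (1 : ℝ)) η := by
    intro η
    by_cases hηA : η ∈ A <;> by_cases hηB : η ∈ B <;> simp [Set.indicator, hηA, hηB]
  simp only [h2] at h1
  have h3 : ∀ {T : Set (Env d)}, MeasurableSet T →
      ∫ η, T.indicator (fun _ => (1 : ℝ)) η ∂(law d ρ) = (law d ρ).real T := by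
    intro T hT
    rw [integral_indicator hT]
    simp
  rw [h3 (hA.inter hB), h3 hA, h3 hB] at h1
  exact h1

/-- **The join, lower bound.** `E_z = {exp l ≤ w(z)}`; the second part stays in the slab of `z`
(offsets at least `D - R > R`), the walk from `0` stays in the slab of `0`. -/
theorem join_lower (hd : 0 < d) (β : ℝ) (h v e : Vec d) (s k : ℕ) {R D l a p : ℝ} (hRD : 2 * R < D)
    (hp : 0 < p)
    (ha : p ≤ (law d ρ).real {η | Real.exp a ≤ ZT β h η (slab d k v e R)}) :
    (law d ρ).real {η | Z β h η (s + k) < Real.exp (l + a) / 2} ≤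
      (law d ρ).real {η | ∀ z ∈ boxF d s, D ≤ ofs e v s z → wz β h η s z < Real.exp l} +
        (2 * (s : ℝ) + 1) ^ d / p *
          (law d ρ).real {η | PolT β h η (slab d (s + k) v e R) < 1 / 2} := by
  classical
  set c : ℝ := Real.exp (l + a) / 2 with hc
  set S : Set (ℕ × Site d) := {q | q.1 ≤ s ∨ |ofs e v q.1 q.2| ≤ R} with hS
  set Bad : Set (Env d) := {η | PolT β h η (slab d (s + k) v e R) < 1 / 2} with hBad
  set No : Set (Env d) :=
    {η | ∀ z ∈ boxF d s, D ≤ ofs e v s z → wz β h η s z < Real.exp l} with hNo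
  set Az : Site d → Set (Env d) := fun z =>
    {η | ZT β h η (slab d (s + k) v e R) < c} ∩ {η | Real.exp l ≤ wz β h η s z} with hAz
  set Bz : Site d → Set (Env d) := fun z =>
    {η | Real.exp a ≤ ZT β h (sh s z η) (slab d k v e R)} with hBz
  set F : Finset (Site d) := (boxF d s).filter fun z => D ≤ ofs e v s z with hFs
  -- measurability
  have mA : ∀ z, MeasurableSet (Az z) := fun z =>
    (measurableSet_lt (measurable_ZT β h _) measurable_const).inter
      (measurableSet_le measurable_const (measurable_ZT β h _))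
  have mB : ∀ z, MeasurableSet (Bz z) := fun z =>
    measurableSet_le measurable_const ((measurable_ZT β h _).comp (measurable_sh s z))
  -- dependence
  have d1 : DependsOn (fun η : Env d => ZT β h η (slab d (s + k) v e R)) S :=
    dependsOn_ZT β h _ S fun p hp i _ hi => Or.inr (hp i hi)
  have d2 : ∀ z, DependsOn (fun η : Env d => wz β h η s z) S := fun z =>
    dependsOn_ZT β h _ S fun p _ i _ hi => Or.inl hi
  have dA : ∀ z, DependsOn (fun η : Env d => η ∈ Az z) S := by
    intro z η η' hη
    have e1 := d1 hη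
    have e2 := d2 z hη
    simp only at e1 e2
    simp only [hAz, Set.mem_inter_iff, Set.mem_setOf_eq]
    rw [e1, e2]
  have dB : ∀ z ∈ F, DependsOn (fun η : Env d => η ∈ Bz z) Sᶜ := by
    intro z hz η η' hη
    have hzD : D ≤ ofs e v s z := (Finset.mem_filter.1 hz).2
    have e1 : ZT β h (sh s z η) (slab d k v e R) = ZT β h (sh s z η') (slab d k v e R) := by
      refine dependsOn_ZT β h (slab d k v e R) {q | 1 ≤ q.1 ∧ |ofs e v q.1 q.2| ≤ R}
        (fun p hp i hi1 hi => ⟨hi1, hp i hi⟩) fun q hq => ?_
      refine hη (q.1 + s, q.2 + z) ?_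
      rw [Set.mem_compl_iff, hS, Set.mem_setOf_eq, not_or]
      refine ⟨by have := hq.1; simp only; omega, ?_⟩
      simp only
      rw [ofs_add, not_le]
      have h3 := (abs_le.1 hq.2).1
      exact lt_of_lt_of_le (by linarith) (le_abs_self _)
    simp only [hBz, Set.mem_setOf_eq]
    rw [e1]
  -- the intersection forces the bad event
  have hsub : ∀ z, Az z ∩ Bz z ⊆ Bad := by
    rintro z η ⟨⟨h1, h2⟩, h3⟩
    simp only [Set.mem_setOf_eq] at h1 h2
    have h3' : Real.exp a ≤ ZT β h (sh s z η) (slab d k v e R) := h3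
    have h4 : Real.exp (l + a) ≤ Z β h η (s + k) := by
      rw [Real.exp_add]
      refine (mul_le_mul h2 (h3'.trans (ZT_mono β h _ (Set.subset_univ _)))
        (Real.exp_pos _).le (wz_nonneg _ _ _ _ _)).trans ?_
      exact wz_mul_le β h η s k z
    have hZ := Z_pos hd β h η (s + k)
    change ZT β h η (slab d (s + k) v e R) / Z β h η (s + k) < 1 / 2
    rw [div_lt_iff₀ hZ]
    rw [hc] at h1
    linarith
  -- probability for each site
  have key : ∀ z ∈ F, (law d ρ).real (Az z) ≤ (law d ρ).real Bad / p := by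
    intro z hz
    have h1 := real_inter (ρ := ρ) S (mA z) (mB z) (dA z) (dB z hz)
    have h2 : (law d ρ).real (Bz z) =
        (law d ρ).real {η | Real.exp a ≤ ZT β h η (slab d k v e R)} := by
      have h3 : MeasurableSet {η : Env d | Real.exp a ≤ ZT β h η (slab d k v e R)} :=
        measurableSet_le measurable_const (measurable_ZT β h _)
      rw [measureReal_def, measureReal_def,
        ← (mp_sh (ρ := ρ) s z).measure_preimage h3.nullMeasurableSet]
      rfl
    rw [le_div_iff₀ hp]
    calc (law d ρ).real (Az z) * p ≤ (law d ρ).real (Az z) * (law d ρ).real (Bz z) := by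
          rw [h2]
          exact mul_le_mul_of_nonneg_left ha measureReal_nonneg
      _ = (law d ρ).real (Az z ∩ Bz z) := h1.symm
      _ ≤ (law d ρ).real Bad := measureReal_mono (hsub z)
  -- union
  have hcov : {η : Env d | Z β h η (s + k) < c} ⊆ No ∪ ⋃ z ∈ F, Az z := by
    intro η hη
    by_cases hN : η ∈ No
    · exact Or.inl hN
    · right
      rw [hNo, Set.mem_setOf_eq] at hN
      push Not at hN
      obtain ⟨z, hz, hzD, hw⟩ := hN
      refine Set.mem_iUnion₂.2 ⟨z, Finset.mem_filter.2 ⟨hz, hzD⟩, ?_, hw⟩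
      exact (ZT_mono β h η (Set.subset_univ _)).trans_lt hη
  have hcard : (F.card : ℝ) ≤ (2 * (s : ℝ) + 1) ^ d := by
    have h2 : F.card ≤ (2 * s + 1) ^ d := by
      rw [← card_boxF]
      exact Finset.card_filter_le _ _
    exact_mod_cast h2
  calc (law d ρ).real {η | Z β h η (s + k) < c}
      ≤ (law d ρ).real No + (law d ρ).real (⋃ z ∈ F, Az z) :=
        (measureReal_mono hcov).trans (measureReal_union_le _ _)
    _ ≤ (law d ρ).real No + ∑ z ∈ F, (law d ρ).real (Az z) := by
        have := measureReal_biUnion_finset_le (μ := law d ρ) F Az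
        linarith
    _ ≤ (law d ρ).real No + ∑ z ∈ F, (law d ρ).real Bad / p := by
        have := Finset.sum_le_sum key
        linarith
    _ ≤ (law d ρ).real No + (2 * (s : ℝ) + 1) ^ d / p * (law d ρ).real Bad := by
        rw [Finset.sum_const, nsmul_eq_mul]
        have h1 : (F.card : ℝ) * ((law d ρ).real Bad / p) ≤
            (2 * (s : ℝ) + 1) ^ d * ((law d ρ).real Bad / p) :=
          mul_le_mul_of_nonneg_right hcard (div_nonneg measureReal_nonneg hp.le)
        have h2 : (2 * (s : ℝ) + 1) ^ d * ((law d ρ).real Bad / p) =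
            (2 * (s : ℝ) + 1) ^ d / p * (law d ρ).real Bad := by ring
        linarith

/-- **The join, upper bound.** -/
theorem join_upper (hd : 0 < d) (β : ℝ) (h : Vec d) (s k : ℕ) (a b : ℝ) :
    (law d ρ).real {η | b + a < X β h η (s + k)} ≤
      (law d ρ).real {η | b < X β h η s} +
        (2 * (s : ℝ) + 1) ^ d * (law d ρ).real {η | a < X β h η k} := by
  classical
  set Up : Site d → Set (Env d) := fun z => {η | a < X β h (sh s z η) k} with hUp
  have hcov : {η : Env d | b + a < X β h η (s + k)} ⊆
      {η | b < X β h η s} ∪ ⋃ z ∈ boxF d s, Up z := by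
    intro η hη
    by_contra hcon
    rw [Set.mem_union, not_or, Set.mem_iUnion₂] at hcon
    obtain ⟨c1, c2⟩ := hcon
    have c1' : X β h η s ≤ b := not_lt.1 c1
    have h1 : ∀ p : Fin s → Step d, Z β h (sh s (pos p s) η) k ≤ Real.exp a := by
      intro p
      have h2 : ¬ a < X β h (sh s (pos p s) η) k := fun h3 =>
        c2 ⟨pos p s, pos_mem_box p s, h3⟩
      rw [not_lt] at h2
      rw [← Real.exp_log (Z_pos hd β h (sh s (pos p s) η) k)]
      exact Real.exp_le_exp.2 h2
    have h2 : Z β h η (s + k) ≤ Z β h η s * Real.exp a := by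
      rw [Z_add, Z_eq β h η s, Finset.sum_mul]
      exact Finset.sum_le_sum fun p _ => mul_le_mul_of_nonneg_left (h1 p) (wgt_pos _ _ _ _).le
    have h3 := Real.log_le_log (Z_pos hd β h η (s + k)) h2
    rw [Real.log_mul (Z_pos hd β h η s).ne' (Real.exp_pos _).ne', Real.log_exp] at h3
    have h4 : X β h η (s + k) ≤ X β h η s + a := h3
    have hη' : b + a < X β h η (s + k) := hη
    linarith
  have hlaw : ∀ z, (law d ρ).real (Up z) = (law d ρ).real {η | a < X β h η k} := by
    intro z
    have h3 : MeasurableSet {η : Env d | a < X β h η k} :=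
      measurableSet_lt measurable_const (measurable_X β h k)
    rw [measureReal_def, measureReal_def,
      ← (mp_sh (ρ := ρ) s z).measure_preimage h3.nullMeasurableSet]
    rfl
  calc (law d ρ).real {η | b + a < X β h η (s + k)}
      ≤ (law d ρ).real {η | b < X β h η s} + (law d ρ).real (⋃ z ∈ boxF d s, Up z) :=
        (measureReal_mono hcov).trans (measureReal_union_le _ _)
    _ ≤ (law d ρ).real {η | b < X β h η s} + ∑ z ∈ boxF d s, (law d ρ).real (Up z) := by
        have := measureReal_biUnion_finset_le (μ := law d ρ) (boxF d s) Up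
        linarith
    _ = (law d ρ).real {η | b < X β h η s} +
        (2 * (s : ℝ) + 1) ^ d * (law d ρ).real {η | a < X β h η k} := by
        simp only [hlaw]
        rw [Finset.sum_const, nsmul_eq_mul, card_boxF]
        push_cast
        ring

end Pool.Agent.W_7d29a1_D2.C75
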