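import Pool.Agent.W_7d29a1_h46u.Walk

/-!
TEAM D2. The price of a half space by the Cauchy-Schwarz inequality, and the best end point.
-/

namespace Pool.Agent.W_7d29a1_D2.W75

open MeasureTheory ProbabilityTheory Filter Topology Pool.Agent.W_MP_7d29a1_pr
  Pool.Agent.W_7d29a1_h46 Pool.Agent.W_7d29a1_h46u

variable {d : ℕ}

/-- The offset `⟨x, e⟩ - i w₀`. -/
noncomputable def off (e : Vec d) (w0 : ℝ) (i : ℕ) (x : Site d) : ℝ :=
  inner ℝ e (emb x) - i * w0

lemma wgt_tilt (β : ℝ) (h e : Vec d) (η : Env d) (t : ℝ) {n : ℕ} (s : Fin n → Step d) :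
    wgt β (h + t • e) η s = Real.exp (t * inner ℝ e (emb (pos s n))) * wgt β h η s := by
  unfold wgt
  rw [← Real.exp_add, inner_add_left, real_inner_smul_left]
  congr 1
  ring

lemma Z_tilt_off (β : ℝ) (h e : Vec d) (w0 : ℝ) (η : Env d) (t : ℝ) (n : ℕ) :
    ∑ s : Fin n → Step d, wgt β h η s * Real.exp (t * off e w0 n (pos s n)) =
      Real.exp (-(t * (n * w0))) * Z β (h + t • e) η n := by
  rw [Z_eq, Finset.mul_sum]
  refine Finset.sum_congr rfl fun s _ => ?_
  rw [wgt_tilt, mul_comm (wgt β h η s), ← mul_assoc, ← Real.exp_add]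
  unfold off
  congr 2
  ring

/-- **The price of the half space.** -/
theorem price (hd : 0 < d) (β : ℝ) (h e : Vec d) (w0 : ℝ) (η : Env d) (n : ℕ) {r D a0 a1 a2 : ℝ}
    (hr : 0 ≤ r) (h0 : X β h η n ≤ a0) (h1 : a1 ≤ X β (h + r • e) η n - r * (n * w0))
    (h2 : X β (h + (2 * r) • e) η n - 2 * r * (n * w0) ≤ a2) (hD : r * D + a0 + 1 ≤ a1) :
    Real.exp (2 * a1 - 2 - a2) ≤
      ZT β h η {s : Fin n → Step d | D ≤ off e w0 n (pos s n)} := by
  classical
  set H : Finset (Fin n → Step d) := Finset.univ.filter fun s => D ≤ off e w0 n (pos s n) with hH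
  have hZT : ZT β h η {s : Fin n → Step d | D ≤ off e w0 n (pos s n)} = ∑ s ∈ H, wgt β h η s := by
    unfold ZT
    rw [hH, Finset.sum_filter]
    rfl
  have hw : ∀ s : Fin n → Step d, 0 < wgt β h η s := fun s => wgt_pos β h η s
  have e0 : ∑ s : Fin n → Step d, wgt β h η s ≤ Real.exp a0 := by
    rw [← Z_eq, ← Real.exp_log (Z_pos hd β h η n)]
    exact Real.exp_le_exp.2 h0
  have e1 : Real.exp a1 ≤ ∑ s : Fin n → Step d, wgt β h η s * Real.exp (r * off e w0 n (pos s n)) := by
    rw [Z_tilt_off, ← Real.exp_log (Z_pos hd β (h + r • e) η n), ← Real.exp_add]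
    apply Real.exp_le_exp.2
    have : X β (h + r • e) η n = Real.log (Z β (h + r • e) η n) := rfl
    linarith
  have e2 : ∑ s : Fin n → Step d, wgt β h η s * Real.exp (2 * r * off e w0 n (pos s n)) ≤
      Real.exp a2 := by
    rw [Z_tilt_off, ← Real.exp_log (Z_pos hd β (h + (2 * r) • e) η n), ← Real.exp_add]
    apply Real.exp_le_exp.2
    have : X β (h + (2 * r) • e) η n = Real.log (Z β (h + (2 * r) • e) η n) := rfl
    linarith
  have e3 : ∑ s ∈ Hᶜ, wgt β h η s * Real.exp (r * off e w0 n (pos s n)) ≤ Real.exp (a1 - 1) := by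
    calc ∑ s ∈ Hᶜ, wgt β h η s * Real.exp (r * off e w0 n (pos s n))
        ≤ ∑ s ∈ Hᶜ, wgt β h η s * Real.exp (r * D) := by
          refine Finset.sum_le_sum fun s hs => mul_le_mul_of_nonneg_left ?_ (hw s).le
          have h3 : off e w0 n (pos s n) < D := by
            rw [Finset.mem_compl, hH, Finset.mem_filter, not_and, not_le] at hs
            exact hs (Finset.mem_univ s)
          exact Real.exp_le_exp.2 (mul_le_mul_of_nonneg_left h3.le hr)
      _ ≤ ∑ s : Fin n → Step d, wgt β h η s * Real.exp (r * D) :=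
          Finset.sum_le_sum_of_subset_of_nonneg (Finset.subset_univ _)
            fun s _ _ => mul_nonneg (hw s).le (Real.exp_pos _).le
      _ = (∑ s : Fin n → Step d, wgt β h η s) * Real.exp (r * D) := by rw [Finset.sum_mul]
      _ ≤ Real.exp a0 * Real.exp (r * D) := mul_le_mul_of_nonneg_right e0 (Real.exp_pos _).le
      _ ≤ Real.exp (a1 - 1) := by
          rw [← Real.exp_add]
          exact Real.exp_le_exp.2 (by linarith)
  have e4 : Real.exp (a1 - 1) ≤ ∑ s ∈ H, wgt β h η s * Real.exp (r * off e w0 n (pos s n)) := by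
    have h3 := Finset.sum_add_sum_compl H fun s => wgt β h η s * Real.exp (r * off e w0 n (pos s n))
    have h4 : 2 * Real.exp (a1 - 1) ≤ Real.exp a1 := by
      have h5 : Real.exp a1 = Real.exp 1 * Real.exp (a1 - 1) := by
        rw [← Real.exp_add]
        congr 1
        ring
      rw [h5]
      have h6 : (2 : ℝ) ≤ Real.exp 1 := by
        have := Real.add_one_le_exp (1 : ℝ)
        linarith
      exact mul_le_mul_of_nonneg_right h6 (Real.exp_pos _).le
    linarith
  have e5 : (∑ s ∈ H, wgt β h η s * Real.exp (r * off e w0 n (pos s n))) ^ 2 ≤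
      (∑ s ∈ H, wgt β h η s) * ∑ s ∈ H, wgt β h η s * Real.exp (2 * r * off e w0 n (pos s n)) := by
    refine Finset.sum_sq_le_sum_mul_sum_of_sq_le_mul H (fun s _ => (hw s).le)
      (fun s _ => mul_nonneg (hw s).le (Real.exp_pos _).le) fun s _ => le_of_eq ?_
    rw [mul_pow, ← Real.exp_nat_mul]
    have : ((2 : ℕ) : ℝ) * (r * off e w0 n (pos s n)) = 2 * r * off e w0 n (pos s n) := by
      push_cast
      ring
    rw [this]
    ring
  have e6 : ∑ s ∈ H, wgt β h η s * Real.exp (2 * r * off e w0 n (pos s n)) ≤ Real.exp a2 :=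
    (Finset.sum_le_sum_of_subset_of_nonneg (Finset.subset_univ _)
      fun s _ _ => mul_nonneg (hw s).le (Real.exp_pos _).le).trans e2
  have hWn : 0 ≤ ∑ s ∈ H, wgt β h η s := Finset.sum_nonneg fun s _ => (hw s).le
  rw [hZT]
  have e7 : Real.exp (a1 - 1) ^ 2 ≤ (∑ s ∈ H, wgt β h η s) * Real.exp a2 :=
    (pow_le_pow_left₀ (Real.exp_pos _).le e4 2).trans
      (e5.trans (mul_le_mul_of_nonneg_left e6 hWn))
  have e8 : Real.exp (2 * a1 - 2 - a2) * Real.exp a2 = Real.exp (a1 - 1) ^ 2 := by
    rw [← Real.exp_add, ← Real.exp_nat_mul]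
    congr 1
    push_cast
    ring
  refine le_of_mul_le_mul_right ?_ (Real.exp_pos a2)
  rw [e8]
  exact e7

/-- **The best end point.** -/
theorem best (β : ℝ) (h : Vec d) (η : Env d) (n : ℕ) (E : Site d → Prop) {l : ℝ}
    (hl : Real.exp l ≤ ZT β h η {s : Fin n → Step d | E (pos s n)}) :
    ∃ z ∈ boxF d n, E z ∧
      Real.exp (l - d * Real.log (2 * n + 1)) ≤ ZT β h η {s : Fin n → Step d | pos s n = z} := by
  classical
  by_contra hcon
  push Not at hcon
  set c : ℝ := Real.exp (l - d * Real.log (2 * n + 1)) with hc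
  have hc0 : 0 < c := Real.exp_pos _
  have e1 : ZT β h η {s : Fin n → Step d | E (pos s n)} =
      ∑ z ∈ (boxF d n).filter E, ZT β h η {s : Fin n → Step d | pos s n = z} := by
    unfold ZT
    rw [Finset.sum_comm]
    refine Finset.sum_congr rfl fun s _ => ?_
    by_cases hs : E (pos s n)
    · have hmem : pos s n ∈ (boxF d n).filter E :=
        Finset.mem_filter.2 ⟨pos_mem_box s n, hs⟩
      rw [Finset.sum_eq_single_of_mem (pos s n) hmem]
      · simp [hs]
      · intro b _ hb
        simp [hb.symm]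
    · rw [if_neg (show s ∉ {s : Fin n → Step d | E (pos s n)} from hs)]
      refine (Finset.sum_eq_zero fun z hz => ?_).symm
      rw [if_neg]
      rintro rfl
      exact hs (Finset.mem_filter.1 hz).2
  rcases ((boxF d n).filter E).eq_empty_or_nonempty with he | he
  · rw [he, Finset.sum_empty] at e1
    have := Real.exp_pos l
    linarith
  · have e2 : ∑ z ∈ (boxF d n).filter E, ZT β h η {s : Fin n → Step d | pos s n = z} <
        ∑ z ∈ (boxF d n).filter E, c :=
      Finset.sum_lt_sum_of_nonempty he fun z hz =>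
        hcon z (Finset.mem_filter.1 hz).1 (Finset.mem_filter.1 hz).2
    have e3 : ∑ z ∈ (boxF d n).filter E, c ≤ Real.exp l := by
      rw [Finset.sum_const, nsmul_eq_mul]
      have h1 : (((boxF d n).filter E).card : ℝ) ≤ (2 * (n : ℝ) + 1) ^ d := by
        have h2 : ((boxF d n).filter E).card ≤ (2 * n + 1) ^ d := by
          rw [← card_boxF]
          exact Finset.card_filter_le _ _
        exact_mod_cast h2
      have h3 : (2 * (n : ℝ) + 1) ^ d * c = Real.exp l := by
        have hp : (0 : ℝ) < 2 * n + 1 := by positivity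
        rw [hc, Real.exp_sub, ← Real.log_pow, Real.exp_log (pow_pos hp d)]
        field_simp
      calc (((boxF d n).filter E).card : ℝ) * c ≤ (2 * (n : ℝ) + 1) ^ d * c :=
            mul_le_mul_of_nonneg_right h1 hc0.le
        _ = Real.exp l := h3
    linarith

end Pool.Agent.W_7d29a1_D2.W75
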