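import Mathlib

/-!
Convex functions touched from above by paraboloids (theorem K2 of helper20): the touch lemma, the
case of unique maximisers (every nearby point is a contact point) and the good scales on a segment.
-/

namespace Pool.Agent.W_7d29a1_D2.K2I99

open Metric Set Filter Topology

variable {E : Type*} [NormedAddCommGroup E] [InnerProductSpace ℝ E]

/-- `lam` is touched from above at `x` by a paraboloid of opening `C` on the ball of radius `ρ`,
and `v` is a subgradient there. -/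
def T (lam : E → ℝ) (C ρ : ℝ) (x v : E) : Prop :=
  ∀ r : E, ‖r‖ ≤ ρ → 0 ≤ lam (x + r) - lam x - inner ℝ v r ∧
    lam (x + r) - lam x - inner ℝ v r ≤ C * ‖r‖ ^ 2

/-- Touched from above: the slope is a subgradient. -/
theorem touch {lam : E → ℝ} (hconv : ConvexOn ℝ univ lam) {C ρ : ℝ} {x v : E} (hρ : 0 < ρ)
    (h : ∀ r : E, ‖r‖ ≤ ρ → lam (x + r) - lam x - inner ℝ v r ≤ C * ‖r‖ ^ 2) (r : E) :
    0 ≤ lam (x + r) - lam x - inner ℝ v r := by
  have key : ∀ t : ℝ, 0 < t → t * ‖r‖ ≤ ρ →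
      -(C * t * ‖r‖ ^ 2) ≤ lam (x + r) - lam x - inner ℝ v r := by
    intro t ht htr
    have h1 := h (-(t • r)) (by rw [norm_neg, norm_smul, Real.norm_eq_abs, abs_of_pos ht]; exact htr)
    have h2 : ((1 / (1 + t)) • (x + -(t • r)) + (t / (1 + t)) • (x + r) : E) = x := by
      have h3 : (1 + t : ℝ) ≠ 0 := by positivity
      have h4 : (1 / (1 + t) + t / (1 + t) : ℝ) = 1 := by field_simp
      have h5 : ((1 / (1 + t)) • (x + -(t • r)) + (t / (1 + t)) • (x + r) : E)
          = (1 / (1 + t) + t / (1 + t)) • x + (t / (1 + t) - 1 / (1 + t) * t) • r := by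
        module
      rw [h5, h4, show (t / (1 + t) - 1 / (1 + t) * t : ℝ) = 0 by ring, one_smul, zero_smul,
        add_zero]
    have h6 := hconv.2 (mem_univ (x + -(t • r))) (mem_univ (x + r))
      (show (0 : ℝ) ≤ 1 / (1 + t) by positivity) (show (0 : ℝ) ≤ t / (1 + t) by positivity)
      (by field_simp)
    rw [h2] at h6
    simp only [smul_eq_mul] at h6
    have h7 : (1 + t) * lam x ≤ lam (x + -(t • r)) + t * lam (x + r) := by
      have h8 : (1 + t) * (1 / (1 + t) * lam (x + -(t • r)) + t / (1 + t) * lam (x + r))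
          = lam (x + -(t • r)) + t * lam (x + r) := by
        field_simp
      calc (1 + t) * lam x ≤ (1 + t) * (1 / (1 + t) * lam (x + -(t • r)) +
            t / (1 + t) * lam (x + r)) := by gcongr
        _ = _ := h8
    rw [inner_neg_right, inner_smul_right, norm_neg, norm_smul, Real.norm_eq_abs,
      abs_of_pos ht] at h1
    have h9 : 0 ≤ t * (lam (x + r) - lam x - inner ℝ v r + C * t * ‖r‖ ^ 2) := by nlinarith
    have h10 := nonneg_of_mul_nonneg_right h9 ht
    linarith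
  refine le_of_forall_pos_le_add fun ε hε => ?_
  have hB : 0 < |C| * ‖r‖ ^ 2 + ‖r‖ + 1 := by positivity
  set t : ℝ := min ε ρ / (|C| * ‖r‖ ^ 2 + ‖r‖ + 1) with ht
  have hm : 0 < min ε ρ := lt_min hε hρ
  have ht0 : 0 < t := by positivity
  have ht1 : t * (|C| * ‖r‖ ^ 2 + ‖r‖ + 1) = min ε ρ := by rw [ht]; field_simp
  have h1 : t * ‖r‖ ≤ ρ := by
    have h2 : t * ‖r‖ ≤ t * (|C| * ‖r‖ ^ 2 + ‖r‖ + 1) := by
      gcongr
      nlinarith [abs_nonneg C, sq_nonneg ‖r‖, mul_nonneg (abs_nonneg C) (sq_nonneg ‖r‖)]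
    linarith [min_le_right ε ρ]
  have h3 := key t ht0 h1
  have h4 : C * t * ‖r‖ ^ 2 ≤ ε := by
    have h5 : C * t * ‖r‖ ^ 2 ≤ t * (|C| * ‖r‖ ^ 2 + ‖r‖ + 1) := by
      have h6 : C * (t * ‖r‖ ^ 2) ≤ |C| * (t * ‖r‖ ^ 2) := by
        gcongr
        exact le_abs_self C
      have h7 : 0 ≤ t * ‖r‖ := by positivity
      nlinarith
    linarith [min_le_left ε ρ]
  linarith

/-- The paraboloid function. -/
noncomputable def psi (lam : E → ℝ) (x v : E) (B : ℝ) (p y : E) : ℝ :=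
  lam y - lam x - inner ℝ v (y - x) - B * ‖y - x‖ ^ 2 - inner ℝ p (y - x)

/-- A maximiser of the paraboloid function is a contact point. -/
theorem contact {lam : E → ℝ} (hconv : ConvexOn ℝ univ lam) {B ρ σ : ℝ} {x v p y : E}
    (hσ : 0 < σ) (hy : ‖y - x‖ + σ ≤ ρ)
    (hmax : ∀ z, ‖z - x‖ ≤ ρ → psi lam x v B p z ≤ psi lam x v B p y) :
    T lam B σ y (v + p + (2 * B) • (y - x)) := by
  have h1 : ∀ r : E, ‖r‖ ≤ σ →
      lam (y + r) - lam y - inner ℝ (v + p + (2 * B) • (y - x)) r ≤ B * ‖r‖ ^ 2 := by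
    intro r hr
    have h2 : ‖(y + r) - x‖ ≤ ρ := by
      calc ‖(y + r) - x‖ = ‖(y - x) + r‖ := by congr 1; abel
        _ ≤ ‖y - x‖ + ‖r‖ := norm_add_le _ _
        _ ≤ ρ := by linarith
    have h3 := hmax _ h2
    unfold psi at h3
    have h4 : y + r - x = (y - x) + r := by abel
    rw [h4, inner_add_right, inner_add_right, norm_add_sq_real] at h3
    rw [inner_add_left, inner_add_left, real_inner_smul_left]
    linarith
  exact fun r hr => ⟨touch hconv hσ h1 r, h1 r hr⟩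

theorem psi_cont {lam : E → ℝ} (hc : Continuous lam) (x v : E) (B : ℝ) :
    Continuous fun q : E × E => psi lam x v B q.1 q.2 := by
  unfold psi
  fun_prop

/-- The maximum is large for large tilts. -/
theorem max_ge {lam : E → ℝ} {B ρ : ℝ} {x v p y : E} (hB : 0 < B) (hp : ‖p‖ / (2 * B) ≤ ρ)
    (hT : ∀ r : E, ‖r‖ ≤ ρ → 0 ≤ lam (x + r) - lam x - inner ℝ v r)
    (hmax : ∀ z, ‖z - x‖ ≤ ρ → psi lam x v B p z ≤ psi lam x v B p y) :
    ‖p‖ ^ 2 / (4 * B) ≤ psi lam x v B p y := by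
  set r : E := -((1 / (2 * B)) • p) with hr
  have h1 : ‖r‖ = ‖p‖ / (2 * B) := by
    rw [hr, norm_neg, norm_smul, Real.norm_eq_abs, abs_of_pos (by positivity)]
    ring
  have h2 := hmax (x + r) (by rw [add_sub_cancel_left, h1]; exact hp)
  have h3 := hT r (by rw [h1]; exact hp)
  refine le_trans ?_ h2
  unfold psi
  rw [add_sub_cancel_left]
  have h4 : inner ℝ p r = -(‖p‖ ^ 2 / (2 * B)) := by
    rw [hr, inner_neg_right, inner_smul_right, real_inner_self_eq_norm_sq]
    ring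
  rw [h4, h1]
  have h5 : B * (‖p‖ / (2 * B)) ^ 2 = ‖p‖ ^ 2 / (4 * B) := by
    field_simp
    ring
  have h6 : ‖p‖ ^ 2 / (2 * B) = 2 * (‖p‖ ^ 2 / (4 * B)) := by
    field_simp
    ring
  rw [h5, h6]
  linarith

/-- A maximiser stays near `x`. -/
theorem max_near {lam : E → ℝ} {C κ ρ : ℝ} {x v p y : E} (hκ : 0 < κ) (hρ : 0 ≤ ρ)
    (hT : T lam C ρ x v) (hy : ‖y - x‖ ≤ ρ)
    (hmax : ∀ z, ‖z - x‖ ≤ ρ → psi lam x v (C + κ) p z ≤ psi lam x v (C + κ) p y) :
    ‖y - x‖ ≤ ‖p‖ / κ := by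
  have h1 := hmax x (by rw [sub_self, norm_zero]; exact hρ)
  have h2 := (hT (y - x) hy).2
  rw [add_sub_cancel] at h2
  unfold psi at h1
  simp only [sub_self, inner_zero_right, norm_zero] at h1
  have h3 : -(‖p‖ * ‖y - x‖) ≤ inner ℝ p (y - x) := by
    have := abs_real_inner_le_norm p (y - x)
    exact (abs_le.1 this).1
  have h4 : κ * ‖y - x‖ ^ 2 ≤ ‖p‖ * ‖y - x‖ := by nlinarith
  rw [le_div_iff₀ hκ]
  rcases (norm_nonneg (y - x)).eq_or_lt with h5 | h5
  · rw [← h5, zero_mul]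
    exact norm_nonneg p
  · have h6 : (κ * ‖y - x‖) * ‖y - x‖ ≤ ‖p‖ * ‖y - x‖ := by nlinarith
    have h7 := le_of_mul_le_mul_right h6 h5
    linarith

variable [FiniteDimensional ℝ E]

theorem exists_max {lam : E → ℝ} (hc : Continuous lam) {ρ : ℝ} (hρ : 0 ≤ ρ) (x v : E) (B : ℝ)
    (p : E) : ∃ y, ‖y - x‖ ≤ ρ ∧ ∀ z, ‖z - x‖ ≤ ρ → psi lam x v B p z ≤ psi lam x v B p y := by
  have h1 : IsCompact (closedBall x ρ) := isCompact_closedBall x ρ
  have h2 : ContinuousOn (fun y => psi lam x v B p y) (closedBall x ρ) :=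
    ((psi_cont hc x v B).comp (continuous_const.prodMk continuous_id)).continuousOn
  obtain ⟨y, hy, hm⟩ := h1.exists_isMaxOn ⟨x, mem_closedBall_self hρ⟩ h2
  refine ⟨y, by rw [← dist_eq_norm]; exact hy, fun z hz => hm ?_⟩
  rw [mem_closedBall, dist_eq_norm]
  exact hz

/-- Case (I): unique maximisers, so every point near `x` is a contact point. -/
theorem caseI {lam : E → ℝ} (hconv : ConvexOn ℝ univ lam) (hc : Continuous lam)
    {C κ ρ p0 : ℝ} {x v : E} (hC : 0 ≤ C) (hκ : 0 < κ) (hp0 : 0 < p0) (hpρ : p0 / κ < ρ)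
    (hT : T lam C ρ x v)
    (uniq : ∀ p : E, ‖p‖ ≤ p0 → ∀ y y' : E, ‖y - x‖ ≤ ρ → ‖y' - x‖ ≤ ρ →
      (∀ z, ‖z - x‖ ≤ ρ → psi lam x v (C + κ) p z ≤ psi lam x v (C + κ) p y) →
      (∀ z, ‖z - x‖ ≤ ρ → psi lam x v (C + κ) p z ≤ psi lam x v (C + κ) p y') → y = y')
    {y1 : E} (hy1 : ‖y1 - x‖ < p0 / (4 * (C + κ))) :
    ∃ w, T lam (C + κ) (ρ - p0 / κ) y1 w := by
  have hB : 0 < C + κ := by positivity
  have hρ : 0 < ρ := lt_trans (by positivity) hpρ
  choose m hm1 hm2 using fun p : E => exists_max hc hρ.le x v (C + κ) p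
  set G : E → ℝ := fun p => psi lam x v (C + κ) p (m p) + inner ℝ p (y1 - x) with hG
  -- for every y: psi p y + <p, y1 - x> ≤ G p
  have hpsi : ∀ p q y : E, psi lam x v (C + κ) q y
      = psi lam x v (C + κ) p y + inner ℝ (p - q) (y - x) := by
    intro p q y
    unfold psi
    rw [inner_sub_left]
    ring
  have hGle : ∀ p q : E, G q ≤ G p + inner ℝ (q - p) (y1 - m q) := by
    intro p q
    have h1 := hm2 p (m q) (hm1 q)
    have h2 := hpsi p q (m q)
    simp only [hG]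
    rw [h2]
    have h3 : inner ℝ (p - q) (m q - x) + inner ℝ q (y1 - x)
        = inner ℝ p (y1 - x) + inner ℝ (q - p) (y1 - m q) := by
      simp only [inner_sub_left, inner_sub_right]
      ring
    linarith
  -- G is Lipschitz
  have hlip : ∀ p q : E, G q ≤ G p + (‖y1 - x‖ + ρ) * ‖q - p‖ := by
    intro p q
    have h1 := hGle p q
    have h2 : inner ℝ (q - p) (y1 - m q) ≤ ‖q - p‖ * ‖y1 - m q‖ := real_inner_le_norm _ _
    have h3 : ‖y1 - m q‖ ≤ ‖y1 - x‖ + ρ := by
      calc ‖y1 - m q‖ = ‖(y1 - x) - (m q - x)‖ := by congr 1; abel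
        _ ≤ ‖y1 - x‖ + ‖m q - x‖ := norm_sub_le _ _
        _ ≤ _ := by linarith [hm1 q]
    have h4 : ‖q - p‖ * ‖y1 - m q‖ ≤ ‖q - p‖ * (‖y1 - x‖ + ρ) := by gcongr
    linarith
  have hGc : Continuous G := by
    have : LipschitzWith (Real.toNNReal (‖y1 - x‖ + ρ)) G := by
      refine LipschitzWith.of_dist_le_mul fun p q => ?_
      rw [Real.coe_toNNReal _ (by positivity), Real.dist_eq, dist_eq_norm, abs_le]
      have h1 := hlip p q
      have h2 := hlip q p
      rw [norm_sub_rev q p] at h1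
      constructor <;> linarith
    exact this.continuous
  obtain ⟨p1, hp1, hmin⟩ := (isCompact_closedBall (0 : E) p0).exists_isMinOn
    ⟨0, mem_closedBall_self hp0.le⟩ hGc.continuousOn
  have hp1' : ‖p1‖ ≤ p0 := by simpa [mem_closedBall, dist_eq_norm] using hp1
  have hmin' : ∀ q : E, ‖q‖ ≤ p0 → G p1 ≤ G q := fun q hq =>
    hmin (by simpa [mem_closedBall, dist_eq_norm] using hq)
  -- interior
  have hG0 : G 0 ≤ 0 := by
    have h1 := max_near (p := (0 : E)) hκ hρ.le hT (hm1 0) (hm2 0)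
    rw [norm_zero, zero_div] at h1
    have h2 : m 0 - x = 0 := norm_le_zero_iff.1 h1
    have h3 : m 0 = x := sub_eq_zero.1 h2
    simp only [hG]
    rw [h3]
    unfold psi
    simp
  have hdiv : p0 / (2 * (C + κ)) ≤ ρ := by
    refine le_trans ?_ hpρ.le
    apply div_le_div_of_nonneg_left hp0.le hκ
    linarith
  have hp1lt : ‖p1‖ < p0 := by
    rcases hp1'.lt_or_eq with h | h
    · exact h
    · exfalso
      have h1 := max_ge (y := m p1) hB (by rw [h]; exact hdiv)
        (fun r hr => (hT r hr).1) (hm2 p1)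
      have h2 : -(‖p1‖ * ‖y1 - x‖) ≤ inner ℝ p1 (y1 - x) :=
        (abs_le.1 (abs_real_inner_le_norm p1 (y1 - x))).1
      have h3 := hmin' 0 (by rw [norm_zero]; exact hp0.le)
      have h4 : G p1 = psi lam x v (C + κ) p1 (m p1) + inner ℝ p1 (y1 - x) := rfl
      rw [h] at h1 h2
      have h5 : p0 * ‖y1 - x‖ < p0 ^ 2 / (4 * (C + κ)) := by
        have : p0 ^ 2 / (4 * (C + κ)) = p0 * (p0 / (4 * (C + κ))) := by ring
        rw [this]
        gcongr
      linarith
  -- the maximiser of p1 is y1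
  have hcontact : m p1 = y1 := by
    by_contra hne
    set u : E := y1 - m p1 with hu
    have hu0 : u ≠ 0 := fun h => hne (sub_eq_zero.1 h).symm
    have hupos : 0 < ‖u‖ := norm_pos_iff.2 hu0
    set ε : ℕ → ℝ := fun k => (p0 - ‖p1‖) / (‖u‖ * (k + 1)) with hε
    have hεpos : ∀ k, 0 < ε k := fun k => by
      have : 0 < p0 - ‖p1‖ := by linarith
      positivity
    have hq : ∀ k, ‖p1 - ε k • u‖ ≤ p0 := by
      intro k
      have h1 : ε k * ‖u‖ ≤ p0 - ‖p1‖ := by
        have h2 : ε k * ‖u‖ = (p0 - ‖p1‖) / ((k : ℝ) + 1) := by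
          simp only [hε]
          field_simp
        rw [h2]
        apply div_le_self (by linarith)
        have : (0 : ℝ) ≤ k := Nat.cast_nonneg k
        linarith
      calc ‖p1 - ε k • u‖ ≤ ‖p1‖ + ‖ε k • u‖ := norm_sub_le _ _
        _ = ‖p1‖ + ε k * ‖u‖ := by
            rw [norm_smul, Real.norm_eq_abs, abs_of_pos (hεpos k)]
        _ ≤ p0 := by linarith
    have hle : ∀ k, inner ℝ u (y1 - m (p1 - ε k • u)) ≤ 0 := by
      intro k
      have h1 := hmin' _ (hq k)
      have h2 := hGle p1 (p1 - ε k • u)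
      have h3 : (p1 - ε k • u) - p1 = -(ε k • u) := by abel
      rw [h3, inner_neg_left, real_inner_smul_left] at h2
      have h4 : ε k * inner ℝ u (y1 - m (p1 - ε k • u)) ≤ 0 := by linarith
      by_contra h5
      push_neg at h5
      have := mul_pos (hεpos k) h5
      linarith
    have hcpt : IsCompact (closedBall x ρ) := isCompact_closedBall x ρ
    obtain ⟨y, hy, φ, hφ, hlim⟩ := hcpt.tendsto_subseq
      (x := fun k => m (p1 - ε k • u)) fun k => by
        rw [mem_closedBall, dist_eq_norm]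
        exact hm1 _
    have hy' : ‖y - x‖ ≤ ρ := by rw [← dist_eq_norm]; exact hy
    have hε0 : Tendsto ε atTop (𝓝 0) := by
      have h1 : Tendsto (fun k : ℕ => (p0 - ‖p1‖) / ‖u‖ * (1 / ((k : ℝ) + 1))) atTop
          (𝓝 ((p0 - ‖p1‖) / ‖u‖ * 0)) :=
        tendsto_one_div_add_atTop_nhds_zero_nat.const_mul _
      rw [mul_zero] at h1
      refine h1.congr fun k => ?_
      simp only [hε]
      field_simp
    have hp : Tendsto (fun k => p1 - ε (φ k) • u) atTop (𝓝 p1) := by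
      have h1 : Tendsto (fun k => p1 - ε (φ k) • u) atTop (𝓝 (p1 - (0 : ℝ) • u)) :=
        tendsto_const_nhds.sub ((hε0.comp hφ.tendsto_atTop).smul_const u)
      rwa [zero_smul, sub_zero] at h1
    have hmaxy : ∀ z, ‖z - x‖ ≤ ρ → psi lam x v (C + κ) p1 z ≤ psi lam x v (C + κ) p1 y := by
      intro z hz
      have hl : Tendsto (fun k => psi lam x v (C + κ) (p1 - ε (φ k) • u) z) atTop
          (𝓝 (psi lam x v (C + κ) p1 z)) :=
        ((psi_cont hc x v (C + κ)).tendsto (p1, z)).comp (hp.prodMk_nhds tendsto_const_nhds)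
      have hr : Tendsto (fun k => psi lam x v (C + κ) (p1 - ε (φ k) • u)
          (m (p1 - ε (φ k) • u))) atTop (𝓝 (psi lam x v (C + κ) p1 y)) :=
        ((psi_cont hc x v (C + κ)).tendsto (p1, y)).comp (hp.prodMk_nhds hlim)
      exact le_of_tendsto_of_tendsto' hl hr fun k => hm2 _ z hz
    have hyy : m p1 = y := uniq p1 hp1' _ _ (hm1 p1) hy' (hm2 p1) hmaxy
    have h1 : Tendsto (fun k => inner ℝ u (y1 - m (p1 - ε (φ k) • u))) atTop
        (𝓝 (inner ℝ u (y1 - y))) := by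
      have h2 : Tendsto (fun k => y1 - m (p1 - ε (φ k) • u)) atTop (𝓝 (y1 - y)) :=
        tendsto_const_nhds.sub hlim
      exact tendsto_const_nhds.inner h2
    have h3 : inner ℝ u (y1 - y) ≤ 0 := le_of_tendsto' h1 fun k => hle (φ k)
    rw [← hyy, ← hu, real_inner_self_eq_norm_sq] at h3
    have := pow_pos hupos 2
    linarith
  have h1 := hm2 p1
  rw [hcontact] at h1
  have h2 : ‖y1 - x‖ ≤ ‖p1‖ / κ := by
    rw [← hcontact]
    exact max_near hκ hρ.le hT (hm1 p1) (hm2 p1)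
  have h3 : ‖p1‖ / κ ≤ p0 / κ := by gcongr
  exact ⟨_, contact hconv (by linarith) (by linarith) h1⟩

omit [FiniteDimensional ℝ E] in
/-- If every point of a ball is a contact point and `lam` is not affine on the ball, then at some
point of the ball all small scales are good. -/
theorem seg {lam : E → ℝ} (hconv : ConvexOn ℝ univ lam) (hc : Continuous lam)
    {x : E} {δ C' ρ' : ℝ} (hδ : 0 < δ) (hρ' : 0 < ρ')
    (hT : ∀ y, ‖y - x‖ < δ → ∃ w, T lam C' ρ' y w)
    (hna : ¬ ∃ (a : ℝ) (w : E), ∀ y, ‖y - x‖ < δ → lam y = a + inner ℝ w y) :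
    ∃ y w c s0, ‖y - x‖ < δ ∧ 0 < c ∧ 0 < s0 ∧ T lam C' ρ' y w ∧
      ∀ s, 0 < s → s ≤ s0 → ∃ r : E, ‖r‖ = s ∧
        c * ‖r‖ ^ 2 ≤ lam (y + r) - lam y - inner ℝ w r := by
  -- a segment on which `lam` is not affine
  obtain ⟨w0, hw0⟩ := hT x (by rw [sub_self, norm_zero]; exact hδ)
  have hge0 : ∀ r : E, 0 ≤ lam (x + r) - lam x - inner ℝ w0 r :=
    touch hconv hρ' fun r hr => (hw0 r hr).2
  have hex : ∃ r : E, ‖r‖ < δ ∧ 0 < lam (x + r) - lam x - inner ℝ w0 r := by
    by_contra hcon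
    push Not at hcon
    refine hna ⟨lam x - inner ℝ w0 x, w0, fun y hy => ?_⟩
    have h1 := hcon (y - x) hy
    have h2 := hge0 (y - x)
    rw [add_sub_cancel, inner_sub_right] at h1 h2
    linarith
  obtain ⟨r, hr, hrpos⟩ := hex
  have hr0 : r ≠ 0 := by
    rintro rfl
    simp at hrpos
  have hrn : 0 < ‖r‖ := norm_pos_iff.2 hr0
  set g : ℝ → ℝ := fun t => lam (x + t • r) - (lam (x + r) + lam (x + -r)) / 2
    - t * ((lam (x + r) - lam (x + -r)) / 2) with hg
  have hg0 : g 0 < 0 := by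
    have h2 := hge0 (-r)
    rw [inner_neg_right] at h2
    simp only [hg, zero_smul, add_zero, zero_mul, sub_zero]
    linarith
  have hg1 : g 1 = 0 := by simp only [hg, one_smul]; ring
  have hgm1 : g (-1) = 0 := by simp only [hg, neg_smul, one_smul]; ring
  set ε : ℝ := -(g 0) / 2 with hε
  have hεpos : 0 < ε := by rw [hε]; linarith
  set F : ℝ → ℝ := fun t => g t + ε * (1 - t ^ 2) with hF
  have hFc : Continuous F := by
    simp only [hF, hg]
    fun_prop
  obtain ⟨t, ht, hmin⟩ := (isCompact_Icc (a := (-1 : ℝ)) (b := 1)).exists_isMinOn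
    ⟨0, by constructor <;> norm_num⟩ hFc.continuousOn
  have hmin' : ∀ s : ℝ, -1 ≤ s → s ≤ 1 → F t ≤ F s := fun s h1 h2 => hmin ⟨h1, h2⟩
  have hFt : F t < 0 := by
    have h1 := hmin' 0 (by norm_num) (by norm_num)
    have h2 : F 0 = g 0 + ε := by simp only [hF]; ring
    rw [h2] at h1
    rw [hε] at h1
    linarith
  have ht1 : t < 1 := by
    rcases ht.2.lt_or_eq with h | h
    · exact h
    · exfalso
      have : F t = 0 := by simp only [hF, h, hg1]; ring
      linarith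
  have htm1 : -1 < t := by
    rcases ht.1.lt_or_eq with h | h
    · exact h
    · exfalso
      have : F t = 0 := by simp only [hF, ← h, hgm1]; ring
      linarith
  set y : E := x + t • r with hy
  have hyx : ‖y - x‖ < δ := by
    rw [hy, add_sub_cancel_left, norm_smul, Real.norm_eq_abs]
    have h1 : |t| < 1 := abs_lt.2 ⟨htm1, ht1⟩
    calc |t| * ‖r‖ ≤ 1 * ‖r‖ := by gcongr
      _ < δ := by rw [one_mul]; exact hr
  obtain ⟨w, hw⟩ := hT y hyx
  set τ0 : ℝ := min (1 - t) (1 + t) with hτ0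
  have hτpos : 0 < τ0 := lt_min (by linarith) (by linarith)
  have hsec : ∀ τ : ℝ, 0 < τ → τ ≤ τ0 →
      2 * ε * τ ^ 2 ≤ (lam (y + τ • r) - lam y - inner ℝ w (τ • r)) +
        (lam (y + -(τ • r)) - lam y - inner ℝ w (-(τ • r))) := by
    intro τ h0 h1
    have ha : τ ≤ 1 - t := h1.trans (min_le_left _ _)
    have hb : τ ≤ 1 + t := h1.trans (min_le_right _ _)
    have h2 := hmin' (t + τ) (by linarith) (by linarith)
    have h3 := hmin' (t - τ) (by linarith) (by linarith)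
    simp only [hF, hg] at h2 h3
    have h4 : x + (t + τ) • r = y + τ • r := by rw [hy, add_smul]; abel
    have h5 : x + (t - τ) • r = y + -(τ • r) := by rw [hy, sub_smul]; abel
    rw [h4] at h2
    rw [h5] at h3
    rw [inner_neg_right]
    nlinarith
  refine ⟨y, w, ε / ‖r‖ ^ 2, τ0 * ‖r‖, hyx, by positivity, by positivity, hw, ?_⟩
  intro s hs hs0
  have hτ : 0 < s / ‖r‖ := by positivity
  have hτle : s / ‖r‖ ≤ τ0 := by
    rw [div_le_iff₀ hrn]
    exact hs0
  have h1 := hsec (s / ‖r‖) hτ hτle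
  have hn : ‖(s / ‖r‖) • r‖ = s := by
    rw [norm_smul, Real.norm_eq_abs, abs_of_pos hτ]
    field_simp
  have hc1 : ε / ‖r‖ ^ 2 * s ^ 2 = ε * (s / ‖r‖) ^ 2 := by
    field_simp
  by_cases h2 : ε * (s / ‖r‖) ^ 2 ≤ lam (y + (s / ‖r‖) • r) - lam y -
      inner ℝ w ((s / ‖r‖) • r)
  · exact ⟨(s / ‖r‖) • r, hn, by rw [hn, hc1]; exact h2⟩
  · push Not at h2
    exact ⟨-((s / ‖r‖) • r), by rw [norm_neg, hn], by rw [norm_neg, hn, hc1]; linarith⟩

end Pool.Agent.W_7d29a1_D2.K2I99
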