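import Mathlib

/-!
# Touching paraboloids from above and scales of curvature of a convex function

`Tch lam C ρ x v`: the paraboloid `lam x + ⟪v, r⟫ + C ‖r‖ ^ 2` is above `lam (x + r)` for `‖r‖ ≤ ρ`.
-/

namespace Pool.Agent.W_7d29a1_D2.K20

open Filter Topology Set

noncomputable section

variable {E : Type*} [NormedAddCommGroup E] [InnerProductSpace ℝ E]

/-- The excess of `lam` over the affine function of slope `v` at `x`. -/
def exc (lam : E → ℝ) (x v r : E) : ℝ := lam (x + r) - lam x - inner ℝ v r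

/-- Touching from above. -/
def Tch (lam : E → ℝ) (C ρ : ℝ) (x v : E) : Prop := ∀ r : E, ‖r‖ ≤ ρ → exc lam x v r ≤ C * ‖r‖ ^ 2

lemma Tch.mono {lam : E → ℝ} {C C' ρ ρ' : ℝ} {x v : E} (h : Tch lam C ρ x v) (hC : C ≤ C') (hρ : ρ' ≤ ρ) :
    Tch lam C' ρ' x v := fun r hr =>
  (h r (hr.trans hρ)).trans (mul_le_mul_of_nonneg_right hC (sq_nonneg _))

/-- At a point touched from above the slope is a subgradient. -/
lemma Tch.nonneg {lam : E → ℝ} (hc : ConvexOn ℝ univ lam) {C ρ : ℝ} (hρ : 0 < ρ) {x v : E}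
    (h : Tch lam C ρ x v) (r : E) : 0 ≤ exc lam x v r := by
  -- for small s
  have key : ∀ s : ℝ, 0 < s → s * ‖r‖ ≤ ρ → -(C * s * ‖r‖ ^ 2) ≤ exc lam x v r := by
    intro s hs hsr
    have h1 := h (-(s • r)) (by rw [norm_neg, norm_smul, Real.norm_eq_abs, abs_of_pos hs]; exact hsr)
    have h2 := hc.2 (mem_univ (x + r)) (mem_univ (x + -(s • r)))
      (show (0 : ℝ) ≤ s / (1 + s) by positivity) (show (0 : ℝ) ≤ 1 / (1 + s) by positivity)
      (by field_simp; ring)
    have h3 : (s / (1 + s)) • (x + r) + (1 / (1 + s)) • (x + -(s • r)) = x := by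
      have h4 : (1 + s) ≠ 0 := by positivity
      have h5 : (s / (1 + s)) • (x + r) + (1 / (1 + s)) • (x + -(s • r))
          = ((s / (1 + s)) + (1 / (1 + s))) • x + ((s / (1 + s)) - (1 / (1 + s)) * s) • r := by
        simp only [smul_add, add_smul, sub_smul, smul_neg, smul_smul]
        abel
      rw [h5]
      have h6 : (s / (1 + s)) + (1 / (1 + s)) = 1 := by field_simp; ring
      have h7 : (s / (1 + s)) - (1 / (1 + s)) * s = 0 := by field_simp; ring
      rw [h6, h7, one_smul, zero_smul, add_zero]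
    rw [h3] at h2
    simp only [smul_eq_mul] at h2
    unfold exc at h1 ⊢
    rw [norm_neg, norm_smul, Real.norm_eq_abs, abs_of_pos hs, inner_neg_right, real_inner_smul_right] at h1
    have h8 : (1 + s) * lam x ≤ s * lam (x + r) + lam (x + -(s • r)) := by
      have h9 : (0 : ℝ) < 1 + s := by positivity
      have h10 := mul_le_mul_of_nonneg_left h2 h9.le
      have h11 : (1 + s) * (s / (1 + s) * lam (x + r) + 1 / (1 + s) * lam (x + -(s • r)))
          = s * lam (x + r) + lam (x + -(s • r)) := by field_simp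
      rw [h11] at h10
      exact h10
    have h12 : s * (-(C * s * ‖r‖ ^ 2)) ≤ s * (lam (x + r) - lam x - inner ℝ v r) := by nlinarith
    exact le_of_mul_le_mul_left h12 hs
  -- let s → 0
  by_contra hneg
  push_neg at hneg
  set D := exc lam x v r with hD
  have hrn : 0 ≤ ‖r‖ := norm_nonneg r
  set s : ℝ := min (ρ / (‖r‖ + 1)) ((-D) / (2 * (|C| * ‖r‖ ^ 2 + 1))) with hs
  have hs0 : 0 < s := by
    rw [hs]
    apply lt_min
    · positivity
    · apply div_pos (by linarith) (by positivity)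
  have hs1 : s * ‖r‖ ≤ ρ := by
    have h1 : s ≤ ρ / (‖r‖ + 1) := min_le_left _ _
    have h2 : s * ‖r‖ ≤ ρ / (‖r‖ + 1) * ‖r‖ := mul_le_mul_of_nonneg_right h1 hrn
    have h3 : ρ / (‖r‖ + 1) * ‖r‖ ≤ ρ := by
      rw [div_mul_eq_mul_div, div_le_iff₀ (by positivity)]
      nlinarith
    linarith
  have h1 := key s hs0 hs1
  have h2 : s ≤ (-D) / (2 * (|C| * ‖r‖ ^ 2 + 1)) := min_le_right _ _
  have h3 : C * s * ‖r‖ ^ 2 ≤ s * (|C| * ‖r‖ ^ 2 + 1) := by
    have h4 : C * ‖r‖ ^ 2 ≤ |C| * ‖r‖ ^ 2 := mul_le_mul_of_nonneg_right (le_abs_self C) (sq_nonneg _)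
    have h5 := mul_le_mul_of_nonneg_left h4 hs0.le
    nlinarith
  have h4 : s * (|C| * ‖r‖ ^ 2 + 1) ≤ (-D) / 2 := by
    have h5 : (0 : ℝ) < |C| * ‖r‖ ^ 2 + 1 := by positivity
    have h6 := mul_le_mul_of_nonneg_right h2 h5.le
    have h7 : (-D) / (2 * (|C| * ‖r‖ ^ 2 + 1)) * (|C| * ‖r‖ ^ 2 + 1) = (-D) / 2 := by
      field_simp
    linarith
  linarith

lemma continuous_of_convex [FiniteDimensional ℝ E] {lam : E → ℝ} (hc : ConvexOn ℝ univ lam) :
    Continuous lam := hc.locallyLipschitz.continuous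

lemma norm_add_sq' (a r : E) : ‖a + r‖ ^ 2 = ‖a‖ ^ 2 + 2 * inner ℝ a r + ‖r‖ ^ 2 := norm_add_sq_real a r

/-- Start: a touching point in every open set. -/
lemma exists_Tch [FiniteDimensional ℝ E] {lam : E → ℝ} (hc : ConvexOn ℝ univ lam) {U : Set E} (hU : IsOpen U)
    (hne : U.Nonempty) : ∃ x ∈ U, ∃ v C ρ, 0 < C ∧ 0 < ρ ∧ Tch lam C ρ x v := by
  have hcont := continuous_of_convex hc
  obtain ⟨x0, hx0⟩ := hne
  obtain ⟨ρ0, hρ0, hball⟩ := Metric.isOpen_iff.1 hU x0 hx0
  set R : ℝ := ρ0 / 2 with hR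
  have hR0 : 0 < R := by positivity
  have hcomp : IsCompact (Metric.closedBall x0 R) := isCompact_closedBall x0 R
  have hne' : (Metric.closedBall x0 R).Nonempty := ⟨x0, Metric.mem_closedBall_self hR0.le⟩
  obtain ⟨z0, hz0, hz0m⟩ := hcomp.exists_isMaxOn hne' hcont.continuousOn
  set M := lam z0 with hM
  have hMx : lam x0 ≤ M := hz0m (Metric.mem_closedBall_self hR0.le)
  set C : ℝ := (M - lam x0 + 1) / R ^ 2 with hC
  have hC0 : 0 < C := by
    rw [hC]; apply div_pos (by linarith) (by positivity)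
  have hphi : Continuous (fun y => lam y - C * ‖y - x0‖ ^ 2) := by fun_prop
  obtain ⟨y, hy, hym⟩ := hcomp.exists_isMaxOn hne' hphi.continuousOn
  have hy0 : lam x0 ≤ lam y - C * ‖y - x0‖ ^ 2 := by
    have := hym (Metric.mem_closedBall_self hR0.le : x0 ∈ Metric.closedBall x0 R)
    simpa using this
  have hyM : lam y ≤ M := hz0m hy
  have hyR : ‖y - x0‖ < R := by
    by_contra hge
    push_neg at hge
    have h1 : C * R ^ 2 ≤ C * ‖y - x0‖ ^ 2 := by
      apply mul_le_mul_of_nonneg_left _ hC0.le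
      exact pow_le_pow_left₀ hR0.le hge 2
    have h2 : C * R ^ 2 = M - lam x0 + 1 := by
      rw [hC]; field_simp
    linarith
  refine ⟨y, hball ?_, (2 * C) • (y - x0), C, R - ‖y - x0‖, hC0, by linarith, ?_⟩
  · rw [Metric.mem_ball, dist_eq_norm]; linarith
  · intro r hr
    have h1 : y + r ∈ Metric.closedBall x0 R := by
      rw [Metric.mem_closedBall, dist_eq_norm]
      have : y + r - x0 = (y - x0) + r := by abel
      rw [this]
      have := norm_add_le (y - x0) r
      linarith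
    have h2 := hym h1
    simp only [mem_setOf_eq] at h2
    have h3 : y + r - x0 = (y - x0) + r := by abel
    rw [h3, norm_add_sq' (y - x0) r] at h2
    unfold exc
    rw [real_inner_smul_left]
    nlinarith

end

end Pool.Agent.W_7d29a1_D2.K20
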