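import Pool.Agent.W_7d29a1_D2.K2a20

/-!
# One step: either all points near `x` are touched from above, or a point near `x` has a good scale
-/

namespace Pool.Agent.W_7d29a1_D2.K20

open Filter Topology Set

noncomputable section

variable {E : Type*} [NormedAddCommGroup E] [InnerProductSpace ℝ E] [FiniteDimensional ℝ E]

/-- The perturbed function. -/
def psiK (lam : E → ℝ) (x v : E) (C1 : ℝ) (p z : E) : ℝ := exc lam x v z - C1 * ‖z‖ ^ 2 - inner ℝ p z

/-- `z` maximises the perturbed function over the closed ball of radius `ρ`. -/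
def IsMx (lam : E → ℝ) (x v : E) (C1 ρ : ℝ) (p z : E) : Prop :=
  ‖z‖ ≤ ρ ∧ ∀ z' : E, ‖z'‖ ≤ ρ → psiK lam x v C1 p z' ≤ psiK lam x v C1 p z

lemma psiK_cont {lam : E → ℝ} (hcont : Continuous lam) (x v : E) (C1 : ℝ) :
    Continuous (fun q : E × E => psiK lam x v C1 q.1 q.2) := by
  unfold psiK exc
  fun_prop

lemma exists_IsMx {lam : E → ℝ} (hcont : Continuous lam) (x v : E) (C1 : ℝ) {ρ : ℝ} (hρ : 0 ≤ ρ) (p : E) :
    ∃ z, IsMx lam x v C1 ρ p z := by
  have h1 : Continuous (fun z : E => psiK lam x v C1 p z) :=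
    (psiK_cont hcont x v C1).comp (Continuous.prodMk continuous_const continuous_id)
  obtain ⟨z, hz, hzm⟩ := (isCompact_closedBall (0 : E) ρ).exists_isMaxOn
    ⟨0, Metric.mem_closedBall_self hρ⟩ h1.continuousOn
  refine ⟨z, by simpa using hz, fun z' hz' => hzm (by simpa using hz')⟩

lemma exc_zero (lam : E → ℝ) (x v : E) : exc lam x v 0 = 0 := by simp [exc]

lemma psiK_zero (lam : E → ℝ) (x v : E) (C1 : ℝ) (p : E) : psiK lam x v C1 p 0 = 0 := by
  simp [psiK, exc_zero]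

/-- Maximisers for a small slope are near the centre. -/
lemma IsMx.norm_le {lam : E → ℝ} {x v : E} {C κ ρ : ℝ} (hT : Tch lam C ρ x v) (hκ : 0 < κ) (hρ : 0 ≤ ρ)
    {p z : E} (hz : IsMx lam x v (C + κ) ρ p z) : κ * ‖z‖ ≤ ‖p‖ := by
  have h1 := hz.2 0 (by simpa using hρ)
  rw [psiK_zero] at h1
  have h2 := hT z hz.1
  have h3 : -inner ℝ p z ≤ ‖p‖ * ‖z‖ := by
    have := abs_real_inner_le_norm p z
    have h4 := neg_abs_le (inner ℝ p z : ℝ)
    linarith
  unfold psiK at h1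
  have h4 : κ * ‖z‖ ^ 2 ≤ ‖p‖ * ‖z‖ := by nlinarith
  rcases eq_or_lt_of_le (norm_nonneg z) with h5 | h5
  · rw [← h5]; simp
  · have h6 : (κ * ‖z‖) * ‖z‖ ≤ ‖p‖ * ‖z‖ := by nlinarith
    exact le_of_mul_le_mul_right h6 h5

/-- The exact identity at a maximiser. -/
lemma psiK_shift (lam : E → ℝ) (x v : E) (C1 : ℝ) (p z r : E) :
    psiK lam x v C1 p (z + r) - psiK lam x v C1 p z
      = exc lam (x + z) (v + p + (2 * C1) • z) r - C1 * ‖r‖ ^ 2 := by
  unfold psiK exc
  rw [norm_add_sq' z r, inner_add_left, inner_add_left, real_inner_smul_left, inner_add_right,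
    inner_add_right, add_assoc x z r]
  ring

lemma IsMx.tch {lam : E → ℝ} {x v : E} {C1 ρ ρ' : ℝ} {p z : E} (hz : IsMx lam x v C1 ρ p z)
    (hρ : ‖z‖ + ρ' ≤ ρ) : Tch lam C1 ρ' (x + z) (v + p + (2 * C1) • z) := by
  intro r hr
  have h1 := hz.2 (z + r) ((norm_add_le z r).trans (by linarith))
  have h2 := psiK_shift lam x v C1 p z r
  linarith

/-- The step. -/
theorem stepK {lam : E → ℝ} (hc : ConvexOn ℝ univ lam) {C κ ρ η : ℝ} {x v : E} (hC : 0 < C) (hκ : 0 < κ)
    (hη : 0 < η) (hρη : η < ρ) (hT : Tch lam C ρ x v) :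
    (∃ δ > 0, ∀ z : E, ‖z‖ < δ → ∃ w, Tch lam (C + κ) (ρ - η) (x + z) w) ∨
    (∃ y w r : E, ‖y - x‖ < η ∧ ‖w - v‖ < η ∧ r ≠ 0 ∧ ‖r‖ < η ∧ Tch lam (C + κ) (ρ - η) y w ∧
      (C + κ) * ‖r‖ ^ 2 ≤ exc lam y w r) := by
  classical
  have hcont := continuous_of_convex hc
  have hρ0 : 0 < ρ := hη.trans hρη
  set C1 : ℝ := C + κ with hC1
  have hC10 : 0 < C1 := by positivity
  -- the size of the slopes
  set p0 : ℝ := min (κ * η / 3) (min (η / (2 * (1 + 2 * C1 / κ))) (2 * C1 * ρ)) with hp0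
  have hp00 : 0 < p0 := by
    rw [hp0]
    refine lt_min (by positivity) (lt_min (by positivity) (by positivity))
  have hp1 : p0 ≤ κ * η / 3 := min_le_left _ _
  have hp2 : p0 ≤ η / (2 * (1 + 2 * C1 / κ)) := (min_le_right _ _).trans (min_le_left _ _)
  have hp3 : p0 ≤ 2 * C1 * ρ := (min_le_right _ _).trans (min_le_right _ _)
  -- size of maximisers
  have hsz : ∀ p z : E, ‖p‖ ≤ p0 → IsMx lam x v C1 ρ p z → ‖z‖ ≤ η / 3 := by
    intro p z hp hz
    have h1 := IsMx.norm_le hT hκ hρ0.le hz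
    have h2 : κ * ‖z‖ ≤ κ * (η / 3) := by
      calc κ * ‖z‖ ≤ ‖p‖ := h1
        _ ≤ p0 := hp
        _ ≤ κ * (η / 3) := by rw [show κ * (η / 3) = κ * η / 3 by ring]; exact hp1
    exact le_of_mul_le_mul_left h2 hκ
  have hslope : ∀ p z : E, ‖p‖ ≤ p0 → IsMx lam x v C1 ρ p z →
      ‖v + p + (2 * C1) • z - v‖ < η := by
    intro p z hp hz
    have h1 := IsMx.norm_le hT hκ hρ0.le hz
    have h2 : ‖z‖ ≤ p0 / κ := by
      rw [le_div_iff₀ hκ]; linarith
    have h3 : v + p + (2 * C1) • z - v = p + (2 * C1) • z := by abel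
    rw [h3]
    have h4 : ‖p + (2 * C1) • z‖ ≤ ‖p‖ + 2 * C1 * ‖z‖ := by
      refine (norm_add_le _ _).trans ?_
      rw [norm_smul, Real.norm_eq_abs, abs_of_pos (by positivity)]
    have h5 : 2 * C1 * ‖z‖ ≤ 2 * C1 * (p0 / κ) := mul_le_mul_of_nonneg_left h2 (by positivity)
    have h6 : p0 * (1 + 2 * C1 / κ) ≤ η / 2 := by
      have h7 : (0 : ℝ) < 1 + 2 * C1 / κ := by positivity
      have h8 := mul_le_mul_of_nonneg_right hp2 h7.le
      have h9 : η / (2 * (1 + 2 * C1 / κ)) * (1 + 2 * C1 / κ) = η / 2 := by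
        field_simp
      linarith
    have h7 : 2 * C1 * (p0 / κ) = p0 * (2 * C1 / κ) := by ring
    nlinarith
  by_contra hcon
  push Not at hcon
  obtain ⟨hcon1, hcon2⟩ := hcon
  -- uniqueness of maximisers
  have huniq : ∀ p z z' : E, ‖p‖ ≤ p0 → IsMx lam x v C1 ρ p z → IsMx lam x v C1 ρ p z' → z = z' := by
    intro p z z' hp hz hz'
    by_contra hne
    have h1 : z' - z ≠ 0 := sub_ne_zero.2 (Ne.symm hne)
    have hsz1 := hsz p z hp hz
    have hsz2 := hsz p z' hp hz'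
    have h2 := hcon2 (x + z) (v + p + (2 * C1) • z) (z' - z) (by
      rw [add_sub_cancel_left]; linarith) (hslope p z hp hz) h1 (by
      have := norm_sub_le z' z
      linarith) (hz.tch (by linarith))
    have h3 := psiK_shift lam x v C1 p z (z' - z)
    rw [add_sub_cancel] at h3
    have h4 := hz'.2 z hz.1
    linarith
  -- the maximisers
  choose Z hZ using fun p => exists_IsMx (lam := lam) hcont x v C1 hρ0.le p
  set Φ : E → ℝ := fun p => psiK lam x v C1 p (Z p) with hΦ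
  have hpsi_sub : ∀ p p' z : E, psiK lam x v C1 p' z = psiK lam x v C1 p z - inner ℝ (p' - p) z := by
    intro p p' z
    unfold psiK
    rw [inner_sub_left]
    ring
  have hΦlip : ∀ p p' : E, Φ p - ρ * ‖p' - p‖ ≤ Φ p' := by
    intro p p'
    have h1 := (hZ p').2 (Z p) (hZ p).1
    rw [hpsi_sub p p' (Z p)] at h1
    have h2 : (inner ℝ (p' - p) (Z p) : ℝ) ≤ ‖p' - p‖ * ‖Z p‖ := real_inner_le_norm _ _
    have h3 : ‖p' - p‖ * ‖Z p‖ ≤ ‖p' - p‖ * ρ := mul_le_mul_of_nonneg_left (hZ p).1 (norm_nonneg _)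
    simp only [hΦ]
    linarith
  have hΦcont : Continuous Φ := by
    have hL : LipschitzWith ⟨ρ, hρ0.le⟩ Φ := by
      apply LipschitzWith.of_dist_le_mul
      intro p p'
      rw [Real.dist_eq, dist_eq_norm, abs_le]
      have h1 := hΦlip p p'
      have h2 := hΦlip p' p
      rw [norm_sub_rev p' p] at h1
      constructor
      · change -(ρ * ‖p - p'‖) ≤ _
        linarith
      · change _ ≤ (ρ * ‖p - p'‖)
        linarith
    exact hL.continuous
  have hΦlow : ∀ p : E, ‖p‖ ≤ p0 → ‖p‖ ^ 2 / (4 * C1) ≤ Φ p := by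
    intro p hp
    set z : E := -((1 / (2 * C1)) • p) with hz
    have hzn : ‖z‖ = ‖p‖ / (2 * C1) := by
      rw [hz, norm_neg, norm_smul, Real.norm_eq_abs, abs_of_pos (by positivity)]
      ring
    have h1 := (hZ p).2 z (by
      rw [hzn, div_le_iff₀ (by positivity)]
      linarith)
    have h2 := Tch.nonneg hc hρ0 hT z
    have h3 : (inner ℝ p z : ℝ) = -(‖p‖ ^ 2 / (2 * C1)) := by
      rw [hz, inner_neg_right, real_inner_smul_right, real_inner_self_eq_norm_sq]
      ring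
    have h4 : ‖p‖ ^ 2 / (4 * C1) ≤ psiK lam x v C1 p z := by
      unfold psiK
      rw [h3, hzn]
      have h5 : ‖p‖ ^ 2 / (4 * C1) = -(C1 * (‖p‖ / (2 * C1)) ^ 2) - -(‖p‖ ^ 2 / (2 * C1)) := by
        field_simp
        ring
      rw [h5]
      linarith
    exact h4.trans h1
  -- contradiction
  obtain ⟨z1, hz1, hz1'⟩ := hcon1 (min (p0 / (4 * C1)) (η / 3)) (lt_min (by positivity) (by positivity))
  have hz1a : ‖z1‖ < p0 / (4 * C1) := lt_of_lt_of_le hz1 (min_le_left _ _)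
  have hz1b : ‖z1‖ < η / 3 := lt_of_lt_of_le hz1 (min_le_right _ _)
  have hcomp : IsCompact (Metric.closedBall (0 : E) p0) := isCompact_closedBall _ _
  have hgc : Continuous (fun p : E => Φ p + inner ℝ p z1) := by fun_prop
  obtain ⟨p1, hp1m, hp1min⟩ := hcomp.exists_isMinOn ⟨0, Metric.mem_closedBall_self hp00.le⟩ hgc.continuousOn
  have hp1n : ‖p1‖ ≤ p0 := by simpa using hp1m
  have hmin : ∀ p : E, ‖p‖ ≤ p0 → Φ p1 + inner ℝ p1 z1 ≤ Φ p + inner ℝ p z1 :=
    fun p hp => hp1min (by simpa using hp)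
  have hΦ0 : Φ 0 = 0 := by
    have h1 := (hZ 0).2 0 (by simpa using hρ0.le)
    rw [psiK_zero] at h1
    have h2 := hT (Z 0) (hZ 0).1
    have h3 : psiK lam x v C1 0 (Z 0) ≤ 0 := by
      unfold psiK
      rw [inner_zero_left, hC1]
      have : 0 ≤ κ * ‖Z 0‖ ^ 2 := by positivity
      nlinarith
    exact le_antisymm h3 h1
  have hp1lt : ‖p1‖ < p0 := by
    have h1 := hmin 0 (by simpa using hp00.le)
    rw [hΦ0, inner_zero_left, add_zero] at h1
    have h2 := hΦlow p1 hp1n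
    have h3 : -(‖p1‖ * ‖z1‖) ≤ (inner ℝ p1 z1 : ℝ) := by
      have := abs_real_inner_le_norm p1 z1
      have h4 := neg_abs_le (inner ℝ p1 z1 : ℝ)
      linarith
    rcases eq_or_lt_of_le (norm_nonneg p1) with h5 | h5
    · rw [← h5]; exact hp00
    · have h6 : ‖p1‖ ^ 2 / (4 * C1) ≤ ‖p1‖ * ‖z1‖ := by linarith
      have h7 : ‖p1‖ * (‖p1‖ / (4 * C1)) ≤ ‖p1‖ * ‖z1‖ := by
        calc ‖p1‖ * (‖p1‖ / (4 * C1)) = ‖p1‖ ^ 2 / (4 * C1) := by ring
          _ ≤ _ := h6
      have h8 : ‖p1‖ / (4 * C1) ≤ ‖z1‖ := le_of_mul_le_mul_left h7 h5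
      have h9 : ‖p1‖ / (4 * C1) < p0 / (4 * C1) := lt_of_le_of_lt h8 hz1a
      exact (div_lt_div_iff_of_pos_right (by positivity)).1 h9
  have hZ1 : Z p1 = z1 := by
    by_contra hne
    set d : E := z1 - Z p1 with hd
    have hd0 : d ≠ 0 := sub_ne_zero.2 (Ne.symm hne)
    have hdn : 0 < ‖d‖ := norm_pos_iff.2 hd0
    -- small parameters
    set ε0 : ℝ := (p0 - ‖p1‖) / ‖d‖ with hε0
    have hε00 : 0 < ε0 := by rw [hε0]; apply div_pos (by linarith) hdn
    set e : ℕ → ℝ := fun k => ε0 / ((k : ℝ) + 1) with he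
    have he0 : ∀ k, 0 < e k := fun k => by simp only [he]; positivity
    have hele : ∀ k, e k ≤ ε0 := fun k => by
      simp only [he]
      apply div_le_self hε00.le
      have : (0 : ℝ) ≤ k := Nat.cast_nonneg k
      linarith
    have hlim : Tendsto e atTop (𝓝 0) := by
      simp only [he]
      exact tendsto_const_div_atTop_nhds_zero_nat ε0 |>.comp (tendsto_add_atTop_nat 1) |>.congr
        (fun k => by simp)
    set q : ℕ → E := fun k => p1 - e k • d with hq
    have hqn : ∀ k, ‖q k‖ ≤ p0 := by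
      intro k
      have h1 : ‖q k‖ ≤ ‖p1‖ + e k * ‖d‖ := by
        refine (norm_sub_le _ _).trans ?_
        rw [norm_smul, Real.norm_eq_abs, abs_of_pos (he0 k)]
      have h2 : e k * ‖d‖ ≤ ε0 * ‖d‖ := mul_le_mul_of_nonneg_right (hele k) hdn.le
      have h3 : ε0 * ‖d‖ = p0 - ‖p1‖ := by rw [hε0]; field_simp
      linarith
    have hqlim : Tendsto q atTop (𝓝 p1) := by
      have h1 : Tendsto (fun k => p1 - e k • d) atTop (𝓝 (p1 - (0 : ℝ) • d)) :=
        tendsto_const_nhds.sub (hlim.smul_const d)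
      rw [zero_smul, sub_zero] at h1
      exact h1
    have hineq : ∀ k, (inner ℝ d (z1 - Z (q k)) : ℝ) ≤ 0 := by
      intro k
      have h1 := hmin (q k) (hqn k)
      have h2 := (hZ p1).2 (Z (q k)) (hZ (q k)).1
      have h3 := hpsi_sub p1 (q k) (Z (q k))
      have h4 : q k - p1 = -(e k • d) := by simp only [hq]; abel
      rw [h4, inner_neg_left, real_inner_smul_left] at h3
      have h5 : (inner ℝ (q k) z1 : ℝ) = inner ℝ p1 z1 - e k * inner ℝ d z1 := by
        simp only [hq]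
        rw [inner_sub_left, real_inner_smul_left]
      have h6 : Φ (q k) = psiK lam x v C1 (q k) (Z (q k)) := rfl
      have h7 : Φ p1 = psiK lam x v C1 p1 (Z p1) := rfl
      have h8 : e k * inner ℝ d z1 ≤ e k * inner ℝ d (Z (q k)) := by linarith
      have h9 : (inner ℝ d z1 : ℝ) ≤ inner ℝ d (Z (q k)) := le_of_mul_le_mul_left h8 (he0 k)
      rw [inner_sub_right]
      linarith
    -- a convergent subsequence
    have hmem : ∀ k, Z (q k) ∈ Metric.closedBall (0 : E) ρ := fun k => by simpa using (hZ (q k)).1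
    obtain ⟨zs, hzs, φ, hφ, hφl⟩ := (isCompact_closedBall (0 : E) ρ).tendsto_subseq hmem
    have hzsmax : IsMx lam x v C1 ρ p1 zs := by
      refine ⟨by simpa using hzs, fun z' hz' => ?_⟩
      have h1 : Tendsto (fun k => psiK lam x v C1 (q (φ k)) z') atTop (𝓝 (psiK lam x v C1 p1 z')) := by
        have := ((psiK_cont hcont x v C1).tendsto (p1, z')).comp
          ((hqlim.comp hφ.tendsto_atTop).prodMk_nhds (tendsto_const_nhds (x := z')))
        exact this
      have h2 : Tendsto (fun k => psiK lam x v C1 (q (φ k)) (Z (q (φ k)))) atTop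
          (𝓝 (psiK lam x v C1 p1 zs)) := by
        have := ((psiK_cont hcont x v C1).tendsto (p1, zs)).comp
          ((hqlim.comp hφ.tendsto_atTop).prodMk_nhds hφl)
        exact this
      exact le_of_tendsto_of_tendsto' h1 h2 (fun k => (hZ (q (φ k))).2 z' hz')
    have hzs1 : zs = Z p1 := huniq p1 zs (Z p1) hp1n hzsmax (hZ p1)
    have h10 : Tendsto (fun k => (inner ℝ d (z1 - Z (q (φ k))) : ℝ)) atTop
        (𝓝 (inner ℝ d (z1 - Z p1))) := by
      rw [← hzs1]
      exact tendsto_const_nhds.inner (tendsto_const_nhds.sub hφl)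
    have h11 : (inner ℝ d (z1 - Z p1) : ℝ) ≤ 0 := le_of_tendsto' h10 (fun k => hineq (φ k))
    rw [← hd, real_inner_self_eq_norm_sq] at h11
    have : 0 < ‖d‖ ^ 2 := by positivity
    linarith
  -- so `x + z1` is a touching point
  have h12 := (hZ p1).tch (ρ' := ρ - η) (by rw [hZ1]; linarith)
  rw [hZ1] at h12
  exact hz1' _ h12

end

end Pool.Agent.W_7d29a1_D2.K20
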