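import Pool.Agent.W_7d29a1_D2.K3a20

/-!
# A ball of touching points: uncountably many points with two-sided slopes along a line
-/

namespace Pool.Agent.W_7d29a1_D2.K20

open Filter Topology Set MeasureTheory
open scoped NNReal

noncomputable section

/-- A monotone Lipschitz function which is not constant has a nonzero derivative at uncountably many points. -/
lemma unc1 {g : ℝ → ℝ} (hm : Monotone g) {K : ℝ≥0} (hL : LipschitzWith K g) (h01 : g (-1) < g 1) :
    ¬ {t : ℝ | t ∈ Ioo (-1 : ℝ) 1 ∧ ∃ g' : ℝ, g' ≠ 0 ∧ HasDerivAt g g' t}.Countable := by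
  intro hcount
  set D := {t : ℝ | t ∈ Ioo (-1 : ℝ) 1 ∧ ∃ g' : ℝ, g' ≠ 0 ∧ HasDerivAt g g' t} with hD
  set N := {t : ℝ | ¬ DifferentiableAt ℝ g t} with hN
  set Z := {t : ℝ | HasDerivAt g 0 t} with hZ
  have hN0 : volume N = 0 := by
    have := hm.ae_differentiableAt
    rwa [ae_iff] at this
  have hgN : volume (g '' N) = 0 := by
    have h1 := hL.hausdorffMeasure_image_le (d := 1) zero_le_one N
    rw [hausdorffMeasure_real] at h1
    rw [hN0, mul_zero] at h1
    exact le_antisymm h1 bot_le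
  have hgZ : volume (g '' Z) = 0 := by
    apply addHaar_image_eq_zero_of_det_fderivWithin_eq_zero volume (f' := fun _ => (0 : ℝ →L[ℝ] ℝ))
    · intro x hx
      have h1 : HasDerivAt g 0 x := hx
      have h2 := h1.hasFDerivAt.hasFDerivWithinAt (s := Z)
      simpa using h2
    · intro x _
      simp [ContinuousLinearMap.det]
  have hgD : volume (g '' D) = 0 := (hcount.image g).measure_zero volume
  have hsub : Icc (g (-1)) (g 1) ⊆ (g '' N ∪ g '' Z) ∪ (g '' D ∪ {g (-1), g 1}) := by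
    intro u hu
    have hcont : ContinuousOn g (Icc (-1) 1) := hL.continuous.continuousOn
    obtain ⟨t, ht, htu⟩ := intermediate_value_Icc (by norm_num : (-1 : ℝ) ≤ 1) hcont hu
    rcases eq_or_lt_of_le ht.1 with h1 | h1
    · right; right; left; rw [← htu, ← h1]
    rcases eq_or_lt_of_le ht.2 with h2 | h2
    · right; right; right; rw [← htu, h2]; rfl
    by_cases hd : DifferentiableAt ℝ g t
    · by_cases h0 : deriv g t = 0
      · left; right
        refine ⟨t, ?_, htu⟩
        have := hd.hasDerivAt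
        rw [h0] at this
        exact this
      · right; left
        exact ⟨t, ⟨⟨h1, h2⟩, deriv g t, h0, hd.hasDerivAt⟩, htu⟩
    · left; left
      exact ⟨t, hd, htu⟩
  have h2 : volume ((g '' N ∪ g '' Z) ∪ (g '' D ∪ {g (-1), g 1})) = 0 := by
    have h3 : volume ({g (-1), g 1} : Set ℝ) = 0 := (Set.toFinite _).measure_zero volume
    exact measure_union_null (measure_union_null hgN hgZ) (measure_union_null hgD h3)
  have h4 : volume (Icc (g (-1)) (g 1)) = 0 := measure_mono_null hsub h2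
  rw [Real.volume_Icc, ENNReal.ofReal_eq_zero] at h4
  linarith

lemma exists_acc {A : Set ℝ} (h : ¬ A.Countable) : ∃ t ∈ A, AccPt t (𝓟 A) := by
  by_contra hcon
  push Not at hcon
  apply h
  have h1 : DiscreteTopology A := discreteTopology_of_noAccPts hcon
  exact countable_coe_iff.1 countable_of_Lindelof_of_discrete

variable {E : Type*} [NormedAddCommGroup E] [InnerProductSpace ℝ E]

/-- The basic two point inequality. -/
lemma two_pt {lam : E → ℝ} (hc : ConvexOn ℝ univ lam) {C ρ : ℝ} (hρ : 0 < ρ) {y w y' w' : E}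
    (hT : Tch lam C ρ y w) (hT' : Tch lam C ρ y' w') (s : E) (hs : ‖s‖ ≤ ρ) :
    inner ℝ (w - w') s - C * ‖s‖ ^ 2 ≤ exc lam y w (y' - y) := by
  have h1 := Tch.nonneg hc hρ hT (y' - y + s)
  have h2 := hT' s hs
  unfold exc at h1 h2 ⊢
  have e1 : y + (y' - y + s) = y' + s := by abel
  have e2 : y + (y' - y) = y' := by abel
  rw [e1, inner_add_right] at h1
  rw [e2, inner_sub_left]
  linarith

/-- Cocoercivity. -/
lemma coc {lam : E → ℝ} (hc : ConvexOn ℝ univ lam) {C ρ : ℝ} (hC : 0 < C) (hρ : 0 < ρ) {y w y' w' : E}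
    (hT : Tch lam C ρ y w) (hT' : Tch lam C ρ y' w') (hs : ‖w' - w‖ ≤ 2 * C * ρ) :
    ‖w' - w‖ ^ 2 / (4 * C) ≤ exc lam y w (y' - y) := by
  have hn : ‖(1 / (2 * C)) • (w - w')‖ = ‖w' - w‖ / (2 * C) := by
    rw [norm_smul, Real.norm_eq_abs, abs_of_pos (by positivity), norm_sub_rev]
    ring
  have h1 := two_pt hc hρ hT hT' ((1 / (2 * C)) • (w - w')) (by
    rw [hn, div_le_iff₀ (by positivity)]; linarith)
  rw [hn, real_inner_smul_right, real_inner_self_eq_norm_sq, norm_sub_rev w w'] at h1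
  refine le_trans (le_of_eq ?_) h1
  field_simp
  ring

/-- The slopes are Lipschitz. -/
lemma lipT {lam : E → ℝ} (hc : ConvexOn ℝ univ lam) {C ρ : ℝ} (hC : 0 < C) (hρ : 0 < ρ) {y w y' w' : E}
    (hT : Tch lam C ρ y w) (hT' : Tch lam C ρ y' w') (hy : ‖y' - y‖ < ρ) :
    ‖w' - w‖ ≤ 2 * C * ‖y' - y‖ := by
  have hup := hT (y' - y) hy.le
  have hy0 := norm_nonneg (y' - y)
  have hw0 := norm_nonneg (w' - w)
  rcases le_or_gt (‖w' - w‖) (2 * C * ρ) with h1 | h1
  · have h2 := (coc hc hC hρ hT hT' h1).trans hup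
    rw [div_le_iff₀ (by positivity)] at h2
    have h3 : ‖w' - w‖ ^ 2 ≤ (2 * C * ‖y' - y‖) ^ 2 := by nlinarith
    exact (pow_le_pow_iff_left₀ hw0 (by positivity) (by norm_num)).1 h3
  · exfalso
    have hwp : 0 < ‖w' - w‖ := lt_trans (by positivity) h1
    have hn : ‖(ρ / ‖w' - w‖) • (w - w')‖ = ρ := by
      rw [norm_smul, Real.norm_eq_abs, abs_of_pos (by positivity), norm_sub_rev w w']
      field_simp
    have h2 := (two_pt hc hρ hT hT' ((ρ / ‖w' - w‖) • (w - w')) hn.le).trans hup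
    rw [hn, real_inner_smul_right, real_inner_self_eq_norm_sq, norm_sub_rev w w'] at h2
    have h3 : ρ / ‖w' - w‖ * ‖w' - w‖ ^ 2 = ρ * ‖w' - w‖ := by field_simp
    rw [h3] at h2
    have h4 : ‖y' - y‖ ^ 2 < ρ ^ 2 := by nlinarith
    nlinarith

end

end Pool.Agent.W_7d29a1_D2.K20
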