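import Pool.Agent.W_7d29a1_D2.K3b20

/-!
# Case (I) with an additional property of one point of every pair
-/

namespace Pool.Agent.W_7d29a1_D2.K20

open Filter Topology Set MeasureTheory
open scoped NNReal

noncomputable section

variable {E : Type*} [NormedAddCommGroup E] [InnerProductSpace ℝ E] [FiniteDimensional ℝ E]

/-- The strong property is stable under small perturbations (and becomes the weak one). -/
def HOp (Gs Gw : ℕ → E → E → Prop) : Prop :=
  ∀ j x v, Gs j x v → ∃ η > 0, ∀ x' v' : E, ‖x' - x‖ ≤ η → ‖v' - v‖ ≤ η → Gw j x' v'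

/-- One point of every close pair with separated slopes has the strong property. -/
def HPr (Gs : ℕ → E → E → Prop) : Prop :=
  ∀ j (c : ℝ), 0 < c → ∃ s > 0, ∀ y w y' w' : E, y ≠ y' → ‖w' - w‖ ≤ s →
    c * ‖y' - y‖ ≤ ‖w' - w‖ → Gs j y w ∨ Gs j y' w'

lemma caseI2 {lam : E → ℝ} (hc : ConvexOn ℝ univ lam) (hna : NoAff lam) {Gs Gw : ℕ → E → E → Prop}
    (hop : HOp Gs Gw) (hpr : HPr Gs) {C ρ δ : ℝ} {x : E} (hC : 0 < C) (hρ : 0 < ρ)
    (hδ : 0 < δ) (hT : ∀ z : E, ‖z‖ < δ → ∃ w, Tch lam C ρ (x + z) w) :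
    ∃ y w, ‖y - x‖ < δ ∧ GoodK lam y w ∧ ∀ j0, ∃ j ≥ j0, Gw j y w := by
  classical
  -- slopes
  choose! W hW using hT
  set δ' : ℝ := min δ (ρ / 4) with hδ'
  have hδ'0 : 0 < δ' := lt_min hδ (by positivity)
  have hδ'1 : δ' ≤ δ := min_le_left _ _
  have hδ'2 : δ' ≤ ρ / 4 := min_le_right _ _
  have hw := hW 0 (by simpa using hδ)
  rw [add_zero] at hw
  obtain ⟨h, hh, hne⟩ := hna (Metric.ball x δ') Metric.isOpen_ball ⟨x, Metric.mem_ball_self hδ'0⟩ (W 0)
    (lam x - inner ℝ x (W 0))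
  set r : E := h - x with hr
  have hrδ : ‖r‖ < δ' := by rw [hr, ← dist_eq_norm]; exact hh
  have hxr : x + r = h := by rw [hr]; abel
  have hexc0 : exc lam x (W 0) r ≠ 0 := by
    intro h0
    apply hne
    unfold exc at h0
    rw [hxr, hr, inner_sub_right, real_inner_comm h (W 0), real_inner_comm x (W 0)] at h0
    linarith
  have hexc1 : 0 < exc lam x (W 0) r := lt_of_le_of_ne (Tch.nonneg hc hρ hw r) (Ne.symm hexc0)
  have hr0 : r ≠ 0 := by
    intro h0
    apply hexc0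
    rw [h0]; exact exc_zero lam x (W 0)
  have hrn : 0 < ‖r‖ := norm_pos_iff.2 hr0
  -- the slope along the segment
  have hin : ∀ t : ℝ, |t| ≤ 1 → ‖t • r‖ < δ := by
    intro t ht
    rw [norm_smul, Real.norm_eq_abs]
    have : |t| * ‖r‖ ≤ 1 * ‖r‖ := mul_le_mul_of_nonneg_right ht hrn.le
    linarith
  have hTt : ∀ t : ℝ, |t| ≤ 1 → Tch lam C ρ (x + t • r) (W (t • r)) := fun t ht => hW _ (hin t ht)
  have hdiff : ∀ s t : ℝ, x + t • r - (x + s • r) = (t - s) • r := fun s t => by rw [sub_smul]; abel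
  have hnd : ∀ s t : ℝ, ‖x + t • r - (x + s • r)‖ = |t - s| * ‖r‖ := fun s t => by
    rw [hdiff, norm_smul, Real.norm_eq_abs]
  have hlip : ∀ s t : ℝ, |s| ≤ 1 → |t| ≤ 1 → ‖W (t • r) - W (s • r)‖ ≤ 2 * C * (|t - s| * ‖r‖) := by
    intro s t hs ht
    rw [← hnd s t]
    apply lipT hc hC hρ (hTt s hs) (hTt t ht)
    rw [hnd]
    have h1 : |t - s| ≤ 2 := (abs_sub _ _).trans (by linarith)
    have h2 : |t - s| * ‖r‖ ≤ 2 * ‖r‖ := mul_le_mul_of_nonneg_right h1 hrn.le
    linarith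
  have hmon : ∀ s t : ℝ, |s| ≤ 1 → |t| ≤ 1 → s ≤ t → (inner ℝ (W (s • r)) r : ℝ) ≤ inner ℝ (W (t • r)) r := by
    intro s t hs ht hst
    rcases eq_or_lt_of_le hst with h0 | h0
    · rw [h0]
    have h1 := Tch.nonneg hc hρ (hTt s hs) ((t - s) • r)
    have h2 := Tch.nonneg hc hρ (hTt t ht) ((s - t) • r)
    unfold exc at h1 h2
    have e1 : x + s • r + (t - s) • r = x + t • r := by rw [sub_smul]; abel
    have e2 : x + t • r + (s - t) • r = x + s • r := by rw [sub_smul]; abel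
    rw [e1, real_inner_smul_right] at h1
    rw [e2, real_inner_smul_right] at h2
    have h3 : (t - s) * (inner ℝ (W (s • r)) r : ℝ) ≤ (t - s) * inner ℝ (W (t • r)) r := by linarith
    exact le_of_mul_le_mul_left h3 (by linarith)
  -- clamp
  set cl : ℝ → ℝ := fun t => max (-1) (min 1 t) with hcl
  have hcl1 : ∀ t, |cl t| ≤ 1 := fun t => by
    rw [abs_le]; simp only [hcl]
    exact ⟨le_max_left _ _, max_le (by norm_num) (min_le_left _ _)⟩
  have hclm : Monotone cl := fun s t hst => by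
    simp only [hcl]; exact max_le_max le_rfl (min_le_min le_rfl hst)
  have hclid : ∀ t, |t| ≤ 1 → cl t = t := fun t ht => by
    have := abs_le.1 ht
    simp only [hcl]
    rw [min_eq_right this.2, max_eq_right this.1]
  have hclL : ∀ s t, |cl t - cl s| ≤ |t - s| := by
    intro s t
    simp only [hcl]
    have h1 := abs_max_sub_max_le_max (-1 : ℝ) (min 1 t) (-1) (min 1 s)
    have h2 := abs_min_sub_min_le_max (1 : ℝ) t 1 s
    rw [sub_self, abs_zero] at h1 h2
    have h3 : max 0 |t - s| = |t - s| := max_eq_right (abs_nonneg _)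
    rw [h3] at h2
    exact h1.trans (max_le (abs_nonneg _) h2)
  set g : ℝ → ℝ := fun t => inner ℝ (W (cl t • r)) r with hg
  have hgm : Monotone g := fun s t hst => hmon _ _ (hcl1 s) (hcl1 t) (hclm hst)
  have hgL : LipschitzWith ⟨2 * C * ‖r‖ ^ 2, by positivity⟩ g := by
    apply LipschitzWith.of_dist_le_mul
    intro t s
    rw [Real.dist_eq, Real.dist_eq]
    simp only [hg]
    rw [← inner_sub_left]
    have h1 := hlip (cl s) (cl t) (hcl1 s) (hcl1 t)
    have h2 := abs_real_inner_le_norm (W (cl t • r) - W (cl s • r)) r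
    have h3 := mul_le_mul_of_nonneg_right h1 hrn.le
    have h4 := mul_le_mul_of_nonneg_right (hclL s t) (by positivity : 0 ≤ 2 * C * ‖r‖ ^ 2)
    change _ ≤ 2 * C * ‖r‖ ^ 2 * |t - s|
    nlinarith
  have hg01 : g (-1) < g 1 := by
    have h0 : g 0 = inner ℝ (W 0) r := by simp only [hg]; rw [hclid 0 (by norm_num), zero_smul]
    have h1 : g 1 = inner ℝ (W r) r := by simp only [hg]; rw [hclid 1 (by norm_num), one_smul]
    have h2 : g (-1) ≤ g 0 := hgm (by norm_num)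
    have h3 := Tch.nonneg hc hρ (hTt 1 (by norm_num)) (-r)
    rw [one_smul] at h3
    unfold exc at h3 hexc1
    rw [inner_neg_right] at h3
    have e1 : x + r + -r = x := by abel
    rw [e1] at h3
    linarith
  have hunc := unc1 hgm hgL hg01
  set D := {t : ℝ | t ∈ Ioo (-1 : ℝ) 1 ∧ ∃ g' : ℝ, g' ≠ 0 ∧ HasDerivAt g g' t} with hD
  -- pairs
  have hpair : ∀ t ∈ D, ∃ c > 0, ∃ e > 0, ∀ s : ℝ, |s| < 1 → s ≠ t → |s - t| < e →
      c * ‖x + s • r - (x + t • r)‖ ≤ ‖W (s • r) - W (t • r)‖ := by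
    rintro t ⟨ht, g', hg'0, hgt⟩
    have ht1 : |t| < 1 := abs_lt.2 ⟨ht.1, ht.2⟩
    have h1 := hasDerivAt_iff_tendsto_slope.1 hgt
    have h2 : ∀ᶠ s in 𝓝[≠] t, |g'| / 2 < |slope g t s| := by
      apply (h1.abs).eventually
      apply lt_mem_nhds
      have := abs_pos.2 hg'0
      linarith
    rw [eventually_nhdsWithin_iff, Metric.eventually_nhds_iff] at h2
    obtain ⟨e, he, hball⟩ := h2
    refine ⟨|g'| / 2 / ‖r‖ ^ 2, by positivity, e, he, fun s hs hst hse => ?_⟩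
    have h3 := hball (by rw [Real.dist_eq]; exact hse) hst
    rw [slope_def_field, abs_div] at h3
    have hst0 : 0 < |s - t| := abs_pos.2 (sub_ne_zero.2 hst)
    rw [lt_div_iff₀ hst0] at h3
    have h4 : g s - g t = inner ℝ (W (s • r) - W (t • r)) r := by
      simp only [hg]
      rw [hclid s hs.le, hclid t ht1.le, inner_sub_left]
    rw [h4] at h3
    have h5 := abs_real_inner_le_norm (W (s • r) - W (t • r)) r
    rw [hnd]
    have h6 : |g'| / 2 / ‖r‖ ^ 2 * (|s - t| * ‖r‖) = (|g'| / 2 * |s - t|) / ‖r‖ := by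
      field_simp
    rw [h6, div_le_iff₀ hrn]
    linarith
  -- the good scales at the points of `D`
  have hgood : ∀ t ∈ D, GoodK lam (x + t • r) (W (t • r)) := by
    intro t ht
    have ht1 : |t| < 1 := abs_lt.2 ⟨ht.1.1, ht.1.2⟩
    obtain ⟨c, hc0, e, he, hp⟩ := hpair t ht
    refine ⟨⟨C, ρ, hC, hρ, hTt t ht1.le⟩, c ^ 2 / (4 * C), by positivity, fun ε hε => ?_⟩
    set τ : ℝ := min (min (e / 2) ((1 - |t|) / 2)) (ε / (2 * ‖r‖)) with hτ
    have hτ0 : 0 < τ := lt_min (lt_min (by positivity) (by linarith)) (by positivity)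
    have hτ1 : τ ≤ e / 2 := (min_le_left _ _).trans (min_le_left _ _)
    have hτ2 : τ ≤ (1 - |t|) / 2 := (min_le_left _ _).trans (min_le_right _ _)
    have hτ3 : τ ≤ ε / (2 * ‖r‖) := min_le_right _ _
    have hs1 : |t + τ| < 1 := by
      have := abs_add_le t τ
      rw [abs_of_pos hτ0] at this
      linarith
    have hd1 : t + τ - t = τ := by ring
    have h1 := hp (t + τ) hs1 (by linarith) (by rw [hd1, abs_of_pos hτ0]; linarith)
    have h2 := hlip t (t + τ) ht1.le hs1.le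
    have h3 := coc hc hC hρ (hTt t ht1.le) (hTt (t + τ) hs1.le) (by
      refine h2.trans ?_
      rw [hd1, abs_of_pos hτ0]
      have h4 : τ * ‖r‖ ≤ 1 * ‖r‖ := mul_le_mul_of_nonneg_right (by linarith [abs_nonneg t]) hrn.le
      have h5 : τ * ‖r‖ ≤ ρ := by linarith
      exact mul_le_mul_of_nonneg_left h5 (by positivity))
    have h6 : x + (t + τ) • r - (x + t • r) = τ • r := by rw [add_smul]; abel
    rw [h6] at h1 h3
    refine ⟨τ • r, smul_ne_zero hτ0.ne' hr0, ?_, ?_⟩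
    · rw [norm_smul, Real.norm_eq_abs, abs_of_pos hτ0]
      have h7 := mul_le_mul_of_nonneg_right hτ3 hrn.le
      have h8 : ε / (2 * ‖r‖) * ‖r‖ = ε / 2 := by field_simp
      linarith
    · refine le_trans ?_ h3
      rw [div_mul_eq_mul_div]
      apply div_le_div_of_nonneg_right _ (by positivity)
      rw [← mul_pow]
      exact pow_le_pow_left₀ (by positivity) h1 2
  -- pigeonhole
  by_contra hcon
  push Not at hcon
  have hcov : D ⊆ ⋃ j0 : ℕ, {t : ℝ | t ∈ D ∧ ∀ j ≥ j0, ¬ Gw j (x + t • r) (W (t • r))} := by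
    intro t ht
    obtain ⟨j0, hj0⟩ := hcon (x + t • r) (W (t • r)) (by
      rw [add_sub_cancel_left]; exact hin t (abs_lt.2 ⟨ht.1.1, ht.1.2⟩).le) (hgood t ht)
    exact mem_iUnion.2 ⟨j0, ht, hj0⟩
  have hex : ∃ j0 : ℕ, ¬ {t : ℝ | t ∈ D ∧ ∀ j ≥ j0, ¬ Gw j (x + t • r) (W (t • r))}.Countable := by
    by_contra hall
    push Not at hall
    exact hunc ((countable_iUnion hall).mono hcov)
  obtain ⟨j0, hj0⟩ := hex
  obtain ⟨t, ht, hacc⟩ := exists_acc hj0
  have ht1 : |t| < 1 := abs_lt.2 ⟨ht.1.1.1, ht.1.1.2⟩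
  obtain ⟨c, hc0, e, he, hp⟩ := hpair t ht.1
  obtain ⟨s0, hs0, hs0p⟩ := hpr j0 c hc0
  rw [accPt_iff_frequently] at hacc
  have hev : ∀ᶠ s : ℝ in 𝓝 t, |s - t| < min e (s0 / (2 * C * ‖r‖)) := by
    rw [Metric.eventually_nhds_iff]
    exact ⟨min e (s0 / (2 * C * ‖r‖)), lt_min he (by positivity), fun y hy => by rwa [Real.dist_eq] at hy⟩
  obtain ⟨s, ⟨hst, hsA⟩, hse⟩ := (hacc.and_eventually hev).exists
  have hs1 : |s| < 1 := abs_lt.2 ⟨hsA.1.1.1, hsA.1.1.2⟩
  have h1 := hp s hs1 hst (lt_of_lt_of_le hse (min_le_left _ _))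
  have h2 := hlip t s ht1.le hs1.le
  have h3 : ‖W (s • r) - W (t • r)‖ ≤ s0 := by
    have h4 : |s - t| < s0 / (2 * C * ‖r‖) := lt_of_lt_of_le hse (min_le_right _ _)
    rw [lt_div_iff₀ (by positivity)] at h4
    nlinarith
  have hne' : x + t • r ≠ x + s • r := by
    intro h5
    have h6 : (s - t) • r = 0 := by rw [← hdiff t s, ← h5, sub_self]
    rcases smul_eq_zero.1 h6 with h7 | h7
    · exact hst (by linarith)
    · exact hr0 h7
  rcases hs0p (x + t • r) (W (t • r)) (x + s • r) (W (s • r)) hne' h3 h1 with h5 | h5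
  · obtain ⟨η, hη, h6⟩ := hop j0 _ _ h5
    exact ht.2 j0 le_rfl (h6 _ _ (by simpa using hη.le) (by simpa using hη.le))
  · obtain ⟨η, hη, h6⟩ := hop j0 _ _ h5
    exact hsA.2 j0 le_rfl (h6 _ _ (by simpa using hη.le) (by simpa using hη.le))

end

end Pool.Agent.W_7d29a1_D2.K20
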