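import Pool.Agent.W_7d29a1_D2.K3c20

/-!
# Theorem K3: the nested construction with an additional property at infinitely many stages
-/

namespace Pool.Agent.W_7d29a1_D2.K20

open Filter Topology Set

noncomputable section

variable {E : Type*} [NormedAddCommGroup E] [InnerProductSpace ℝ E] [FiniteDimensional ℝ E]

/-- The invariant of the recursion at stage `j`. -/
def Inv3 (lam : E → ℝ) (Gw : ℕ → E → E → Prop) (C ρ η0 : ℝ) (x0 : E) (j : ℕ) (s : St E) : Prop :=
  Inv lam C ρ η0 x0 j s ∧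
  ∀ x' v' : E, ‖x' - s.x‖ ≤ 2 * s.η → ‖v' - s.v‖ ≤ 2 * s.η → Gw j x' v'

set_option maxHeartbeats 4000000 in
/-- **Theorem K3.** Theorem K2 with, in addition, the weak property at infinitely many stages. -/
theorem k3 {lam : E → ℝ} (hc : ConvexOn ℝ univ lam) (hna : NoAff lam) {Gs Gw : ℕ → E → E → Prop}
    (hop : HOp Gs Gw) (hpr : HPr Gs) {U : Set E} (hU : IsOpen U)
    (hne : U.Nonempty) : ∃ x ∈ U, ∃ v, GoodK lam x v ∧ ∀ j0, ∃ j ≥ j0, Gw j x v := by
  classical
  have hcont := continuous_of_convex hc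
  obtain ⟨x0, hx0, v0, C, ρ1, hC, hρ1, hT0⟩ := exists_Tch hc hU hne
  obtain ⟨e0, he0, hball⟩ := Metric.isOpen_iff.1 hU x0 hx0
  by_contra hcon
  push Not at hcon
  set ρ : ℝ := ρ1 / 4 with hρ
  have hρ0 : 0 < ρ := by positivity
  -- the step in the form needed
  have hstep : ∀ (j : ℕ) (C1 ρ2 κ η : ℝ) (x v : E), 0 < C1 → 0 < κ → 0 < η → η < ρ2 →
      ‖x - x0‖ + η < e0 →
      Tch lam C1 ρ2 x v → ∃ y w r : E, ‖y - x‖ < η ∧ ‖w - v‖ < η ∧ r ≠ 0 ∧ ‖r‖ < η ∧
        Tch lam (C1 + κ) (ρ2 - η) y w ∧ (C1 + κ) * ‖r‖ ^ 2 ≤ exc lam y w r ∧ Gs j y w := by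
    intro j C1 ρ2 κ η x v hC1 hκ hη hηρ hxe hT
    have hCκ : 0 < C1 + κ := by positivity
    obtain ⟨s0, hs0, hs0p⟩ := hpr j (2 * (C1 + κ)) (by positivity)
    set η' : ℝ := min η (s0 / (2 * (C1 + κ))) with hη'
    have hη'0 : 0 < η' := lt_min hη (by positivity)
    have hη'1 : η' ≤ η := min_le_left _ _
    have hη'2 : η' ≤ s0 / (2 * (C1 + κ)) := min_le_right _ _
    rcases stepP hc hC1 hκ hη'0 (lt_of_le_of_lt hη'1 hηρ) hT with ⟨δ, hδ, hI⟩ | hII
    · exfalso
      obtain ⟨y, w, hy, hgood, hGw⟩ := caseI2 hc hna hop hpr (C := C1 + κ) (ρ := ρ2 - η') hCκ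
        (by linarith) (lt_min hδ hη : 0 < min δ η) (fun z hz => hI z (lt_of_lt_of_le hz (min_le_left _ _)))
      obtain ⟨j0, hj0⟩ := hcon y (hball (by
        rw [Metric.mem_ball, dist_eq_norm]
        have h1 : ‖y - x0‖ ≤ ‖y - x‖ + ‖x - x0‖ := by
          have : y - x0 = (y - x) + (x - x0) := by abel
          rw [this]; exact norm_add_le _ _
        have h2 : ‖y - x‖ < η := lt_of_lt_of_le hy (min_le_right _ _)
        linarith)) w hgood
      obtain ⟨j, hj, hjG⟩ := hGw j0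
      exact hj0 j hj hjG
    · obtain ⟨y, w, y', w', r, h1, h2, h3, h4, h5, h6, h7, h8, h9, h10, h11, h12⟩ := hII
      have hyy : y' - y = r := by rw [h7]; abel
      have hww : w' - w = (2 * (C1 + κ)) • r := by rw [h8]; abel
      have hwn : ‖w' - w‖ = 2 * (C1 + κ) * ‖r‖ := by
        rw [hww, norm_smul, Real.norm_eq_abs, abs_of_pos (by positivity)]
      have hne1 : y ≠ y' := by
        intro h0; apply h5; rw [← hyy, h0, sub_self]
      have hle : ‖w' - w‖ ≤ s0 := by
        rw [hwn]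
        have h13 : ‖r‖ ≤ s0 / (2 * (C1 + κ)) := h6.le.trans hη'2
        rw [le_div_iff₀ (by positivity)] at h13
        linarith
      rcases hs0p y w y' w' hne1 hle (by rw [hyy, hwn]) with hG | hG
      · exact ⟨y, w, r, lt_of_lt_of_le h1 hη'1, lt_of_lt_of_le h2 hη'1, h5, lt_of_lt_of_le h6 hη'1,
          h9.mono le_rfl (by linarith), h11, hG⟩
      · refine ⟨y', w', -r, lt_of_lt_of_le h3 hη'1, lt_of_lt_of_le h4 hη'1, neg_ne_zero.2 h5, ?_,
          h10.mono le_rfl (by linarith), ?_, hG⟩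
        · rw [norm_neg]; exact lt_of_lt_of_le h6 hη'1
        · rw [norm_neg]; exact h12
  set η0 : ℝ := min (e0 / 8) (ρ / 2) with hη0
  have hη00 : 0 < η0 := lt_min (by positivity) (by positivity)
  have hη0e : η0 ≤ e0 / 8 := min_le_left _ _
  have hη0ρ : η0 ≤ ρ / 2 := min_le_right _ _
  -- the initial state
  have hinit : ∃ s : St E, Inv3 lam Gw C ρ η0 x0 0 s := by
    obtain ⟨y, w, r, hy, -, hr, hrη, hTy, hex, hG⟩ := hstep 0 C (4 * ρ) C η0 x0 v0 hC
      hC hη00 (by linarith) (by simp; linarith) (hT0.mono le_rfl (by linarith))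
    obtain ⟨η1, hη1, hGop⟩ := hop 0 y w hG
    obtain ⟨η, hη, hηle, hst⟩ := exists_stable hcont hC (by linarith : C ≤ C + C) hr hex
      (lt_min hη00 (by positivity) : 0 < min η0 (η1 / 2))
    have hηle1 : η ≤ η0 := hηle.trans (min_le_left _ _)
    have hηle2 : η ≤ η1 / 2 := hηle.trans (min_le_right _ _)
    refine ⟨⟨y, w, r, η⟩, ⟨hη, by simpa using hηle1, hr, by simp; linarith, ?_, ?_, hst⟩,
      fun x' v' hx' hv' => hGop x' v' (by simp only at hx'; linarith) (by simp only at hv'; linarith)⟩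
    · exact hTy.mono (by norm_num; linarith) (by norm_num; linarith)
    · norm_num
      exact hy.le
  -- one step
  have hnext : ∀ (j : ℕ) (s : St E), Inv3 lam Gw C ρ η0 x0 j s →
      ∃ s' : St E, Inv3 lam Gw C ρ η0 x0 (j + 1) s' ∧ Rl s s' := by
    intro j s hs
    obtain ⟨⟨h1, h2, h3, h4, h5, h6, h7⟩, -⟩ := hs
    have hpw : (0 : ℝ) < (1 / 2) ^ j := by positivity
    have hpw1 : ((1 : ℝ) / 2) ^ j ≤ 1 := pow_le_one₀ (by norm_num) (by norm_num)
    have hpws : ((1 : ℝ) / 2) ^ (j + 1) = (1 / 2) ^ j / 2 := by rw [pow_succ]; ring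
    set t : ℝ := (1 / 2) ^ j with ht
    have hη0t : η0 * t ≤ η0 := by nlinarith
    have hCj : 0 < 3 * C - C * t := by nlinarith
    have hρt : η0 * t ≤ ρ / 2 * t := mul_le_mul_of_nonneg_right hη0ρ hpw.le
    obtain ⟨y, w, r, hy, hw, hr, hrη, hTy, hex, hG⟩ := hstep (j + 1) (3 * C - C * t) (ρ * (1 + t))
      (C * t / 2) s.η s.x s.v hCj (by positivity) h1 (by nlinarith) (by nlinarith) h5
    obtain ⟨η1, hη1, hGop⟩ := hop (j + 1) y w hG
    obtain ⟨η, hη, hηle', hst⟩ := exists_stable hcont hC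
      (by nlinarith : C ≤ 3 * C - C * t + C * t / 2) hr hex
      (lt_min (by positivity) (by positivity) : 0 < min (s.η / 2) (η1 / 2))
    have hηle : η ≤ s.η / 2 := hηle'.trans (min_le_left _ _)
    have hηle2 : η ≤ η1 / 2 := hηle'.trans (min_le_right _ _)
    refine ⟨⟨y, w, r, η⟩, ⟨⟨hη, ?_, hr, ?_, ?_, ?_, hst⟩, fun x' v' hx' hv' =>
      hGop x' v' (by simp only at hx'; linarith) (by simp only at hv'; linarith)⟩, hy.le, hw.le, hηle⟩
    · simp only
      rw [hpws]
      linarith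
    · simp only
      rw [hpws]
      linarith
    · simp only
      rw [hpws]
      exact hTy.mono (by linarith) (by nlinarith)
    · simp only
      rw [hpws]
      have h8 : ‖y - x0‖ ≤ ‖y - s.x‖ + ‖s.x - x0‖ := by
        have : y - x0 = (y - s.x) + (s.x - x0) := by abel
        rw [this]; exact norm_add_le _ _
      nlinarith
  -- the sequence
  obtain ⟨s0, hs0⟩ := hinit
  choose! nx hnx1 hnx2 using hnext
  let f : ℕ → St E := fun j => Nat.rec s0 (fun j s => nx j s) j
  have hf3 : ∀ j, Inv3 lam Gw C ρ η0 x0 j (f j) := by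
    intro j
    induction j with
    | zero => exact hs0
    | succ j ih => exact hnx1 j (f j) ih
  have hf : ∀ j, Inv lam C ρ η0 x0 j (f j) := fun j => (hf3 j).1
  have hR : ∀ j, Rl (f j) (f (j + 1)) := fun j => hnx2 j (f j) (hf3 j)
  have hηgeo : ∀ j n, (f (j + n)).η ≤ (f j).η * (1 / 2) ^ n := by
    intro j n
    induction n with
    | zero => simp
    | succ n ih =>
      have h1 := (hR (j + n)).2.2
      rw [← add_assoc, pow_succ]
      linarith
  have hxd : ∀ j n, dist (f (j + n)).x (f (j + (n + 1))).x ≤ (f j).η * (1 / 2) ^ n := by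
    intro j n
    rw [dist_comm, dist_eq_norm]
    exact (hR (j + n)).1.trans (hηgeo j n)
  have hvd : ∀ j n, dist (f (j + n)).v (f (j + (n + 1))).v ≤ (f j).η * (1 / 2) ^ n := by
    intro j n
    rw [dist_comm, dist_eq_norm]
    exact (hR (j + n)).2.1.trans (hηgeo j n)
  have hxc : CauchySeq (fun n => (f n).x) := by
    apply cauchySeq_of_le_geometric (1 / 2 : ℝ) ((f 0).η) (by norm_num)
    intro n
    have := hxd 0 n
    simpa only [zero_add] using this
  have hvc : CauchySeq (fun n => (f n).v) := by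
    apply cauchySeq_of_le_geometric (1 / 2 : ℝ) ((f 0).η) (by norm_num)
    intro n
    have := hvd 0 n
    simpa only [zero_add] using this
  obtain ⟨xl, hxl⟩ := cauchySeq_tendsto_of_complete hxc
  obtain ⟨vl, hvl⟩ := cauchySeq_tendsto_of_complete hvc
  have hxn : ∀ j, ‖xl - (f j).x‖ ≤ 2 * (f j).η := by
    intro j
    have h1 : Tendsto (fun n => (f (j + n)).x) atTop (𝓝 xl) := by
      have := hxl.comp (tendsto_add_atTop_nat j)
      refine this.congr fun n => ?_
      simp only [Function.comp]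
      rw [add_comm]
    have h2 := dist_le_of_le_geometric_of_tendsto₀ (1 / 2 : ℝ) ((f j).η) (by norm_num) (hxd j) h1
    rw [← dist_eq_norm, dist_comm]
    rw [add_zero] at h2
    refine h2.trans (le_of_eq ?_)
    norm_num
    ring
  have hvn : ∀ j, ‖vl - (f j).v‖ ≤ 2 * (f j).η := by
    intro j
    have h1 : Tendsto (fun n => (f (j + n)).v) atTop (𝓝 vl) := by
      have := hvl.comp (tendsto_add_atTop_nat j)
      refine this.congr fun n => ?_
      simp only [Function.comp]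
      rw [add_comm]
    have h2 := dist_le_of_le_geometric_of_tendsto₀ (1 / 2 : ℝ) ((f j).η) (by norm_num) (hvd j) h1
    rw [← dist_eq_norm, dist_comm]
    rw [add_zero] at h2
    refine h2.trans (le_of_eq ?_)
    norm_num
    ring
  have hTl : Tch lam (3 * C) ρ xl vl := by
    intro r hr
    have h1 : Tendsto (fun n => exc lam (f n).x (f n).v r) atTop (𝓝 (exc lam xl vl r)) :=
      ((exc_cont hcont r).tendsto (xl, vl)).comp (hxl.prodMk_nhds hvl)
    refine le_of_tendsto' h1 fun n => ?_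
    have h2 := (hf n).2.2.2.2.1
    have hpw : (0 : ℝ) < (1 / 2) ^ n := by positivity
    exact (h2.mono (C' := 3 * C) (ρ' := ρ) (by nlinarith) (by nlinarith)) r hr
  have hxlU : xl ∈ U := by
    apply hball
    rw [Metric.mem_ball, dist_eq_norm]
    have h1 : ‖xl - x0‖ ≤ ‖xl - (f 0).x‖ + ‖(f 0).x - x0‖ := by
      have : xl - x0 = (xl - (f 0).x) + ((f 0).x - x0) := by abel
      rw [this]; exact norm_add_le _ _
    have h2 := hxn 0
    have h3 := (hf 0).2.2.2.2.2.1
    have h4 := (hf 0).2.1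
    norm_num at h3 h4
    linarith
  have hGK : GoodK lam xl vl := by
    refine ⟨⟨3 * C, ρ, by positivity, hρ0, hTl⟩, C / 2, by positivity, fun ε hε => ?_⟩
    obtain ⟨n, hn⟩ := exists_pow_lt_of_lt_one (show 0 < ε / (2 * η0) by positivity)
      (by norm_num : (1 / 2 : ℝ) < 1)
    have h1 := hf n
    refine ⟨(f n).r, h1.2.2.1, ?_, h1.2.2.2.2.2.2 xl vl (hxn n) (hvn n)⟩
    have h2 := h1.2.2.2.1
    have h3 : 2 * η0 * (1 / 2) ^ n < 2 * η0 * (ε / (2 * η0)) := mul_lt_mul_of_pos_left hn (by positivity)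
    have h4 : 2 * η0 * (ε / (2 * η0)) = ε := by field_simp
    linarith
  obtain ⟨j0, hj0⟩ := hcon xl hxlU vl hGK
  exact hj0 j0 le_rfl ((hf3 j0).2 xl vl (hxn j0) (hvn j0))

end

end Pool.Agent.W_7d29a1_D2.K20
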