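import Pool.Agent.W_7d29a1_D2.Defs46
import Pool.Agent.W_7d29a1_D2.K3d20
import Pool.Agent.W_7d29a1_h46.Comp

/-!
# A dense set of tilts with `UpG 2`, `LoG 2` and `ν ≥ 1 / 2`
-/

namespace Pool.Agent.W_7d29a1_D2

open MeasureTheory ProbabilityTheory Filter Topology Set Pool.Agent.W_MP_7d29a1_pr
  Pool.Agent.W_7d29a1_h46 Pool.Agent.W_7d29a1_h46u

noncomputable section

variable {Ω : Type*} [MeasurableSpace Ω] {μ : Measure Ω} [IsProbabilityMeasure μ] {d : ℕ}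
  {ω : ℕ × Site d → Ω → ℝ} {β : ℝ}

/-- The averaged mass of a tube. -/
def mI20 (μ : Measure Ω) (β : ℝ) (ω : ℕ × Site d → Ω → ℝ) (h v : Vec d) (n : ℕ) (r : ℝ) : ℝ :=
  ∫ x, PolT β h (fun p => ω p x) (tube d n v r) ∂μ

lemma int_PolT20 (hmeas : ∀ p, Measurable (ω p)) (h : Vec d) {n : ℕ} (E : Set (Fin n → Step d)) :
    Integrable (fun x => PolT β h (fun p => ω p x) E) μ := by
  refine Integrable.of_bound (C := 1)
    ((measurable_PolT β h E).comp (measurable_pi_iff.2 hmeas)).aestronglyMeasurable ?_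
  filter_upwards with x
  rw [Real.norm_eq_abs, abs_of_nonneg (PolT_nonneg _ _ _ _)]
  exact PolT_le_one _ _ _ _

lemma mI20_mono (hmeas : ∀ p, Measurable (ω p)) (h v : Vec d) (n : ℕ) {r r' : ℝ} (hr : r ≤ r') :
    mI20 μ β ω h v n r ≤ mI20 μ β ω h v n r' :=
  integral_mono (int_PolT20 hmeas h _) (int_PolT20 hmeas h _)
    fun _ => PolT_mono _ _ _ (tube_mono v hr)

/-- Small changes of the tilt and of the direction. -/
lemma PolT_pert20 (hd : 0 < d) {η : ℕ × Site d → ℝ} {h h' v v' : Vec d} {n : ℕ} {r r' e : ℝ}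
    (hh : ‖h' - h‖ ≤ e) (hv : ‖v' - v‖ ≤ e) (hr : r' + n * e ≤ r) :
    PolT β h' η (tube d n v' r') ≤ Real.exp (2 * (n * e)) * PolT β h η (tube d n v r) := by
  have he : 0 ≤ e := (norm_nonneg _).trans hh
  have hn : (0 : ℝ) ≤ n := Nat.cast_nonneg n
  have hsub : tube d n v' r' ⊆ tube d n v r := by
    intro s hs i hi
    have h1 := hs i hi
    have h2 : emb (pos s i) - (i : ℝ) • v = (emb (pos s i) - (i : ℝ) • v') + (i : ℝ) • (v' - v) := by
      rw [smul_sub]; abel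
    rw [h2]
    refine (norm_add_le _ _).trans ?_
    have h3 : ‖(i : ℝ) • (v' - v)‖ ≤ n * e := by
      rw [norm_smul, Real.norm_eq_abs, abs_of_nonneg (Nat.cast_nonneg i)]
      exact mul_le_mul (by exact_mod_cast hi) hv (norm_nonneg _) hn
    linarith
  have hne : ‖h - h'‖ ≤ e := by rw [norm_sub_rev]; exact hh
  have t1 : Real.exp (-(n * e)) * ZT β h' η (tube d n v r) ≤ ZT β h η (tube d n v r) := by
    refine ZT_tilt_ge β h' h η fun s _ => ?_
    have h1 := abs_real_inner_le_norm (h - h') (emb (pos s n))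
    have h2 : ‖emb (pos s n)‖ ≤ n := by rw [norm_emb]; exact nrm_pos_le s n
    have h3 : ‖h - h'‖ * ‖emb (pos s n)‖ ≤ e * n := mul_le_mul hne h2 (norm_nonneg _) he
    have h4 := (abs_le.1 (h1.trans h3)).1
    linarith
  have t2 : Real.exp (-(n * e)) * ZT β h η (Set.univ : Set (Fin n → Step d)) ≤
      ZT β h' η (Set.univ : Set (Fin n → Step d)) := by
    refine ZT_tilt_ge β h h' η fun s _ => ?_
    have h1 := abs_real_inner_le_norm (h' - h) (emb (pos s n))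
    have h2 : ‖emb (pos s n)‖ ≤ n := by rw [norm_emb]; exact nrm_pos_le s n
    have h3 : ‖h' - h‖ * ‖emb (pos s n)‖ ≤ e * n := mul_le_mul hh h2 (norm_nonneg _) he
    have h4 := (abs_le.1 (h1.trans h3)).1
    linarith
  have p1 := ZT_univ_pos (n := n) hd β h η
  have p2 := ZT_univ_pos (n := n) hd β h' η
  have p3 := ZT_mono β h' η hsub
  have p4 := ZT_nonneg β h' η (tube d n v' r')
  have p5 := ZT_nonneg β h η (tube d n v r)
  unfold PolT
  rw [div_le_iff₀ p2]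
  have e1 : Real.exp (-(n * e)) * Real.exp (n * e) = 1 := by rw [← Real.exp_add]; simp
  have e2 : Real.exp (2 * (n * e)) = Real.exp (n * e) * Real.exp (n * e) := by
    rw [← Real.exp_add]; congr 1; ring
  have hE := Real.exp_pos (n * e)
  have s1 : ZT β h' η (tube d n v r) ≤ Real.exp (n * e) * ZT β h η (tube d n v r) := by
    have := mul_le_mul_of_nonneg_left t1 hE.le
    calc ZT β h' η (tube d n v r)
        = Real.exp (n * e) * (Real.exp (-(n * e)) * ZT β h' η (tube d n v r)) := by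
          rw [← mul_assoc, mul_comm (Real.exp (n * e)), e1, one_mul]
      _ ≤ _ := this
  have s2 : ZT β h η (Set.univ : Set (Fin n → Step d)) ≤
      Real.exp (n * e) * ZT β h' η (Set.univ : Set (Fin n → Step d)) := by
    have := mul_le_mul_of_nonneg_left t2 hE.le
    calc ZT β h η (Set.univ : Set (Fin n → Step d))
        = Real.exp (n * e) * (Real.exp (-(n * e)) * ZT β h η (Set.univ : Set (Fin n → Step d))) := by
          rw [← mul_assoc, mul_comm (Real.exp (n * e)), e1, one_mul]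
      _ ≤ _ := this
  set Zt := ZT β h η (tube d n v r)
  set Zu := ZT β h η (Set.univ : Set (Fin n → Step d))
  set Zu' := ZT β h' η (Set.univ : Set (Fin n → Step d))
  calc ZT β h' η (tube d n v' r') ≤ ZT β h' η (tube d n v r) := p3
    _ ≤ Real.exp (n * e) * Zt := s1
    _ = Real.exp (n * e) * (Zt / Zu * Zu) := by rw [div_mul_cancel₀ _ p1.ne']
    _ ≤ Real.exp (n * e) * (Zt / Zu * (Real.exp (n * e) * Zu')) := by
        apply mul_le_mul_of_nonneg_left _ hE.le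
        exact mul_le_mul_of_nonneg_left s2 (div_nonneg p5 p1.le)
    _ = Real.exp (2 * (n * e)) * (Zt / Zu) * Zu' := by rw [e2]; ring

/-- The exponents of the stages. -/
def aK (j : ℕ) : ℝ := 1 / 2 - 1 / (4 * ((j : ℝ) + 2))
def bK (j : ℕ) : ℝ := 1 / 2 - 1 / (2 * ((j : ℝ) + 2))

lemma bK_lt_aK (j : ℕ) : bK j < aK j := by
  unfold aK bK
  have h : (0 : ℝ) < (j : ℝ) + 2 := by positivity
  have h1 : 1 / (4 * ((j : ℝ) + 2)) < 1 / (2 * ((j : ℝ) + 2)) := by
    apply one_div_lt_one_div_of_lt (by positivity)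
    nlinarith
  linarith

lemma aK_lt (j : ℕ) : aK j < 1 / 2 := by
  unfold aK
  have : (0 : ℝ) < 1 / (4 * ((j : ℝ) + 2)) := by positivity
  linarith

lemma aK_pos (j : ℕ) : 0 < aK j := by
  unfold aK
  have h2 : (0 : ℝ) ≤ (j : ℝ) := Nat.cast_nonneg j
  have h1 : 1 / (4 * ((j : ℝ) + 2)) ≤ 1 / (4 * 2) := by
    apply one_div_le_one_div_of_le (by norm_num)
    linarith
  linarith

/-- The strong and the weak properties. -/
def GsK (μ : Measure Ω) (β : ℝ) (ω : ℕ × Site d → Ω → ℝ) (j : ℕ) (h v : Vec d) : Prop :=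
  ∃ n : ℕ, j ≤ n ∧ 2 ≤ n ∧ mI20 μ β ω h v n ((n : ℝ) ^ aK j) ≤ 15 / 16

def GwK (μ : Measure Ω) (β : ℝ) (ω : ℕ × Site d → Ω → ℝ) (j : ℕ) (h v : Vec d) : Prop :=
  ∃ n : ℕ, j ≤ n ∧ 2 ≤ n ∧ mI20 μ β ω h v n ((n : ℝ) ^ bK j) ≤ 31 / 32

lemma exp_small20 : Real.exp (1 / 50) ≤ 31 / 30 := by
  have h := Real.exp_bound' (x := 1 / 50) (by norm_num) (by norm_num) (n := 2) (by norm_num)
  norm_num [Finset.sum_range_succ] at h ⊢
  linarith

lemma hopK (hd : 0 < d) (hmeas : ∀ p, Measurable (ω p)) :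
    K20.HOp (GsK μ β ω) (GwK μ β ω) := by
  rintro j h v ⟨n, hjn, hn2, hI⟩
  have hn1 : (1 : ℝ) < n := by exact_mod_cast (by omega : 1 < n)
  have hn0 : (0 : ℝ) < n := by linarith
  have hgap : 0 < (n : ℝ) ^ aK j - (n : ℝ) ^ bK j :=
    sub_pos.2 (Real.rpow_lt_rpow_of_exponent_lt hn1 (bK_lt_aK j))
  set e : ℝ := min (((n : ℝ) ^ aK j - (n : ℝ) ^ bK j) / n) (1 / (100 * n)) with he
  have he0 : 0 < e := lt_min (by positivity) (by positivity)
  have he1 : n * e ≤ (n : ℝ) ^ aK j - (n : ℝ) ^ bK j := by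
    have h1 : e ≤ ((n : ℝ) ^ aK j - (n : ℝ) ^ bK j) / n := min_le_left _ _
    rw [le_div_iff₀ hn0] at h1
    linarith
  have he2 : 2 * (n * e) ≤ 1 / 50 := by
    have h1 : e ≤ 1 / (100 * n) := min_le_right _ _
    rw [le_div_iff₀ (by positivity)] at h1
    linarith
  refine ⟨e, he0, fun h' v' hh hv => ⟨n, hjn, hn2, ?_⟩⟩
  have h1 : mI20 μ β ω h' v' n ((n : ℝ) ^ bK j) ≤
      Real.exp (2 * (n * e)) * mI20 μ β ω h v n ((n : ℝ) ^ aK j) := by
    unfold mI20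
    rw [← integral_const_mul]
    exact integral_mono (int_PolT20 hmeas h' _) ((int_PolT20 hmeas h _).const_mul _)
      fun x => PolT_pert20 hd hh hv (by linarith)
  have h2 : Real.exp (2 * (n * e)) ≤ 31 / 30 := (Real.exp_le_exp.2 he2).trans exp_small20
  have h3 : 0 ≤ mI20 μ β ω h v n ((n : ℝ) ^ aK j) := integral_nonneg fun x => PolT_nonneg _ _ _ _
  calc mI20 μ β ω h' v' n ((n : ℝ) ^ bK j) ≤ _ := h1
    _ ≤ 31 / 30 * (15 / 16) := mul_le_mul h2 hI h3 (by norm_num)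
    _ ≤ 31 / 32 := by norm_num

/-- The choice of the length. -/
lemma len20 {a c : ℝ} (ha : a < 1 / 2) (hc : 0 < c) (j : ℕ) : ∃ s > 0, ∀ D : ℝ, 0 < D → D ≤ s →
    ∃ n : ℕ, j ≤ n ∧ 2 ≤ n ∧ 8 * (n : ℝ) ^ a ≤ n * D ∧ n * D ^ 2 < 4 / 5 * c := by
  -- in terms of `u = 1 / D`
  set k : ℝ := 2 * c / 5 with hk
  have hk0 : 0 < k := by positivity
  have hev : ∀ᶠ u : ℝ in atTop, (j : ℝ) + 2 ≤ k * u ^ 2 / 2 ∧ 1 ≤ k * u ^ 2 / 2 ∧
      8 * u ≤ (k * u ^ 2 / 2) ^ (1 - a) ∧ 1 ≤ u := by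
    have h1 : Tendsto (fun u : ℝ => k * u ^ 2 / 2) atTop atTop := by
      have : Tendsto (fun u : ℝ => u ^ 2) atTop atTop := tendsto_pow_atTop (by norm_num)
      exact (this.const_mul_atTop hk0).atTop_div_const (by norm_num)
    have h2 : Tendsto (fun u : ℝ => (k / 2) ^ (1 - a) * u ^ (1 - 2 * a)) atTop atTop :=
      (tendsto_rpow_atTop (by linarith)).const_mul_atTop (by positivity)
    filter_upwards [h1.eventually_ge_atTop ((j : ℝ) + 2), h1.eventually_ge_atTop 1,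
      h2.eventually_ge_atTop 8, eventually_ge_atTop (1 : ℝ)] with u e1 e2 e3 e4
    refine ⟨e1, e2, ?_, e4⟩
    have hu : 0 < u := by linarith
    have e5 : (k * u ^ 2 / 2) ^ (1 - a) = (k / 2) ^ (1 - a) * u ^ (1 - 2 * a) * u := by
      have e6 : k * u ^ 2 / 2 = k / 2 * u ^ 2 := by ring
      rw [e6, Real.mul_rpow (by positivity) (by positivity), ← Real.rpow_natCast u 2,
        ← Real.rpow_mul hu.le, mul_assoc]
      congr 1
      conv_rhs => rw [← Real.rpow_one u, ← Real.rpow_mul hu.le, one_mul]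
      rw [← Real.rpow_add hu]
      congr 1
      push_cast
      ring
    rw [e5]
    exact mul_le_mul_of_nonneg_right e3 hu.le
  rw [eventually_atTop] at hev
  obtain ⟨u0, hu0⟩ := hev
  refine ⟨1 / (max u0 1), by positivity, fun D hD hDs => ?_⟩
  have hu1 : u0 ≤ 1 / D := by
    have h1 : max u0 1 ≤ 1 / D := by
      rw [le_div_iff₀ hD]
      rw [le_div_iff₀ (by positivity)] at hDs
      linarith
    exact (le_max_left _ _).trans h1
  obtain ⟨e1, e2, e3, e4⟩ := hu0 (1 / D) hu1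
  set X : ℝ := k * (1 / D) ^ 2 with hX
  have hX0 : 0 < X := by positivity
  have hf1 : (⌊X⌋₊ : ℝ) ≤ X := Nat.floor_le hX0.le
  have hf2 : X < ⌊X⌋₊ + 1 := Nat.lt_floor_add_one X
  have hf3 : X / 2 ≤ ⌊X⌋₊ := by linarith
  have hnpos : (0 : ℝ) < ⌊X⌋₊ := by linarith
  have hj2 : (j : ℝ) + 2 ≤ ⌊X⌋₊ := e1.trans hf3
  have hj3 : j + 2 ≤ ⌊X⌋₊ := by exact_mod_cast hj2
  refine ⟨⌊X⌋₊, by omega, by omega, ?_, ?_⟩
  · have h1 : (X / 2) ^ (1 - a) ≤ (⌊X⌋₊ : ℝ) ^ (1 - a) :=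
      Real.rpow_le_rpow (by positivity) hf3 (by linarith)
    have h2 : 8 * (1 / D) ≤ (⌊X⌋₊ : ℝ) ^ (1 - a) := e3.trans h1
    have h3 : (⌊X⌋₊ : ℝ) ^ (1 - a) * (⌊X⌋₊ : ℝ) ^ a = ⌊X⌋₊ := by
      rw [← Real.rpow_add hnpos]; simp
    have h4 : 0 < (⌊X⌋₊ : ℝ) ^ a := Real.rpow_pos_of_pos hnpos _
    have h5 := mul_le_mul_of_nonneg_right h2 h4.le
    rw [h3] at h5
    have h6 : 8 * (1 / D) * (⌊X⌋₊ : ℝ) ^ a * D = 8 * (⌊X⌋₊ : ℝ) ^ a := by field_simp
    have h7 := mul_le_mul_of_nonneg_right h5 hD.le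
    rw [h6] at h7
    exact h7
  · have h1 : (⌊X⌋₊ : ℝ) * D ^ 2 ≤ X * D ^ 2 := mul_le_mul_of_nonneg_right hf1 (by positivity)
    have h2 : X * D ^ 2 = k := by rw [hX]; field_simp
    rw [h2] at h1
    linarith

lemma hprK (hd : 0 < d) (hmeas : ∀ p, Measurable (ω p)) : K20.HPr (GsK μ β ω) := by
  intro j c hc
  obtain ⟨s, hs, hlen⟩ := len20 (aK_lt j) hc j
  refine ⟨s, hs, fun y w y' w' hyy hws hcw => ?_⟩
  have hyn : 0 < ‖y' - y‖ := norm_pos_iff.2 (sub_ne_zero.2 (Ne.symm hyy))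
  have hD : 0 < ‖w' - w‖ := lt_of_lt_of_le (by positivity) hcw
  obtain ⟨n, hjn, hn2, h8, hsm⟩ := hlen _ hD hws
  have hn0 : 0 < n := by omega
  have hnr : (0 : ℝ) < n := by exact_mod_cast hn0
  by_contra hcon
  rw [not_or] at hcon
  obtain ⟨hc1, hc2⟩ := hcon
  have g1 : 15 / 16 < mI20 μ β ω y w n ((n : ℝ) ^ aK j) := by
    by_contra h; exact hc1 ⟨n, hjn, hn2, not_lt.1 h⟩
  have g2 : 15 / 16 < mI20 μ β ω y' w' n ((n : ℝ) ^ aK j) := by
    by_contra h; exact hc2 ⟨n, hjn, hn2, not_lt.1 h⟩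
  have hex : ∃ x : Ω, 15 / 8 < PolT β y (fun p => ω p x) (tube d n w ((n : ℝ) ^ aK j)) +
      PolT β y' (fun p => ω p x) (tube d n w' ((n : ℝ) ^ aK j)) := by
    by_contra hall
    push Not at hall
    have h1 : mI20 μ β ω y w n ((n : ℝ) ^ aK j) + mI20 μ β ω y' w' n ((n : ℝ) ^ aK j) ≤ 15 / 8 := by
      unfold mI20
      rw [← integral_add (int_PolT20 hmeas y _) (int_PolT20 hmeas y' _)]
      calc _ ≤ ∫ _ : Ω, (15 / 8 : ℝ) ∂μ := integral_mono
            ((int_PolT20 hmeas y _).add (int_PolT20 hmeas y' _)) (integrable_const _) hall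
        _ = 15 / 8 := by simp
    linarith
  obtain ⟨x, hx⟩ := hex
  have k1 := PolT_le_one (n := n) β y (fun p => ω p x) (tube d n w ((n : ℝ) ^ aK j))
  have k2 := PolT_le_one (n := n) β y' (fun p => ω p x) (tube d n w' ((n : ℝ) ^ aK j))
  have hr : (0 : ℝ) < (n : ℝ) ^ aK j := Real.rpow_pos_of_pos hnr _
  have hfar : 8 * (n : ℝ) ^ aK j ≤ n * ‖w - w'‖ := by rw [norm_sub_rev]; exact h8
  obtain ⟨-, -, h3⟩ := compare_tube hd hn0 (h := y) (h' := y') (v := w) (v' := w')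
    (η := fun p => ω p x) (β := β) hr (by norm_num : (0 : ℝ) < 1 / 8) le_rfl hfar (by linarith) (by linarith)
  obtain ⟨-, h4⟩ := window_le (by norm_num : (0 : ℝ) < 1 / 8) le_rfl hfar h3
  rw [norm_sub_rev w w'] at h4
  have h5 : ‖y' - y‖ ≤ ‖w' - w‖ / c := by
    rw [le_div_iff₀ hc]; linarith
  have h6 : n * ‖y' - y‖ * ‖w' - w‖ ≤ n * (‖w' - w‖ / c) * ‖w' - w‖ :=
    mul_le_mul_of_nonneg_right (mul_le_mul_of_nonneg_left h5 hnr.le) hD.le
  have h7 : n * (‖w' - w‖ / c) * ‖w' - w‖ = n * ‖w' - w‖ ^ 2 / c := by ring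
  have h8 : n * ‖w' - w‖ ^ 2 / c < 4 / 5 := by
    rw [div_lt_iff₀ hc]; exact hsm
  linarith

/-- **Theorem K3.** For a convex function `L` which is affine on no nonempty open set: in every nonempty open
set of tilts there are `h` and `v` with `UpG L h v 2`, `LoG L h v 2` and `ν(h, v) ≥ 1 / 2`. -/
theorem k3_20 (hd : 0 < d) (hmeas : ∀ p, Measurable (ω p)) {L : Vec d → ℝ} (hc : ConvexOn ℝ Set.univ L)
    (hna : ∀ U : Set (Vec d), IsOpen U → U.Nonempty → ∀ (v : Vec d) (c : ℝ), ∃ h ∈ U, L h ≠ c + inner ℝ h v) :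
    ∀ U : Set (Vec d), IsOpen U → U.Nonempty → ∃ h ∈ U, ∃ v : Vec d, UpG L h v 2 ∧ LoG L h v 2 ∧
      (∀ r : Vec d, 0 ≤ gap L h v r) ∧ 1 / 2 ≤ nuT μ β ω h v := by
  intro U hU hne
  obtain ⟨x, hx, v, ⟨⟨C, ρ, _, hρ, hT⟩, c, hc0, hr⟩, hG⟩ :=
    K20.k3 hc hna (hopK (μ := μ) (β := β) (ω := ω) hd hmeas) (hprK hd hmeas) hU hne
  refine ⟨x, hx, v, ⟨C, ρ, hρ, fun r hr => ?_⟩, ⟨c, hc0, fun δ hδ => ?_⟩,
    fun r => K20.Tch.nonneg hc hρ hT r, ?_⟩
  · rw [Real.rpow_two]; exact hT r hr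
  · obtain ⟨r, hr0, hrδ, hrc⟩ := hr δ hδ
    refine ⟨r, norm_pos_iff.2 hr0, hrδ.le, ?_⟩
    rw [Real.rpow_two]; exact hrc
  · by_contra hlt
    push Not at hlt
    obtain ⟨a, ha1, ha2⟩ := exists_between hlt
    obtain ⟨n0, hn0⟩ := exists_n0T (μ := μ) hd hmeas ha1 (show (0 : ℝ) < 1 / 100 by norm_num)
    -- a late stage
    obtain ⟨j1, hj1⟩ := exists_nat_one_div_lt (show (0 : ℝ) < 1 / 2 - a by linarith)
    obtain ⟨j, hj, n, hjn, hn2, hI⟩ := hG (max n0 j1)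
    have hab : a ≤ bK j := by
      unfold bK
      have h1 : (j1 : ℝ) ≤ j := by exact_mod_cast (le_max_right _ _).trans hj
      have h2 : 1 / (2 * ((j : ℝ) + 2)) ≤ 1 / ((j1 : ℝ) + 1) := by
        apply one_div_le_one_div_of_le (by positivity)
        have : (0 : ℝ) ≤ j1 := Nat.cast_nonneg _
        linarith
      linarith
    have hn1 : (1 : ℝ) ≤ n := by exact_mod_cast (by omega : 1 ≤ n)
    have hnn0 : n0 ≤ n := (le_max_left _ _).trans (hj.trans hjn)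
    have h1 := hn0 n hnn0
    have h2 : mI20 μ β ω x v n ((n : ℝ) ^ a) ≤ 31 / 32 :=
      (mI20_mono hmeas x v n (Real.rpow_le_rpow_of_exponent_le hn1 hab)).trans hI
    -- Markov the other way
    set u : Ω → ℝ := fun y => PolT β x (fun p => ω p y) (tube d n v ((n : ℝ) ^ a)) with hu
    have hum : Measurable u := (measurable_PolT β x _).comp (measurable_pi_iff.2 hmeas)
    have hA : MeasurableSet {y | ¬ (1 - 1 / 100 ≤ u y)} := (measurableSet_le measurable_const hum).compl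
    have h3 : ∀ y, 99 / 100 - Set.indicator {y | ¬ (1 - 1 / 100 ≤ u y)} (fun _ => (1 : ℝ)) y ≤ u y := by
      intro y
      by_cases hy : y ∈ {y | ¬ (1 - 1 / 100 ≤ u y)}
      · rw [Set.indicator_of_mem hy]
        have := PolT_nonneg (n := n) β x (fun p => ω p y) (tube d n v ((n : ℝ) ^ a))
        simp only [hu]
        linarith
      · rw [Set.indicator_of_notMem hy]
        have h4 : 1 - 1 / 100 ≤ u y := by
          by_contra h5; exact hy h5
        linarith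
    have h4 : ∫ y, (99 / 100 - Set.indicator {y | ¬ (1 - 1 / 100 ≤ u y)} (fun _ => (1 : ℝ)) y) ∂μ ≤
        ∫ y, u y ∂μ := by
      refine integral_mono ((integrable_const _).sub ((integrable_const _).indicator hA))
        (int_PolT20 hmeas x _) h3
    rw [integral_sub (integrable_const _) ((integrable_const _).indicator hA), integral_indicator_const _ hA,
      integral_const] at h4
    simp only [probReal_univ, smul_eq_mul, one_mul, mul_one] at h4
    have h5 : ∫ y, u y ∂μ = mI20 μ β ω x v n ((n : ℝ) ^ a) := rfl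
    rw [h5] at h4
    linarith

end

end Pool.Agent.W_7d29a1_D2
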