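import Mathlib

/-!
Convex analysis for the dense set of tilts: a compact strongly monotone Lipschitz relation covers a ball, and
strict record times along a segment.
-/

namespace Pool.Agent.W_7d29a1_D2

open Metric Set Filter Topology

variable {E : Type*} [NormedAddCommGroup E] [InnerProductSpace ℝ E]

/-- A relation `S` over a ball which is `2`-Lipschitz and strongly monotone covers a ball. -/
theorem surj94 [CompleteSpace E] {S : Set (E × E)}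
    (h2 : ∀ p ∈ S, ∀ p' ∈ S, ‖p.2 - p'.2‖ ≤ 2 * ‖p.1 - p'.1‖)
    (hm : ∀ p ∈ S, ∀ p' ∈ S, ‖p.1 - p'.1‖ ^ 2 ≤ inner ℝ (p.2 - p'.2) (p.1 - p'.1))
    {x0 y0 : E} (h0 : (x0, y0) ∈ S) {r : ℝ} (hr : 0 < r)
    (hx : ∀ x ∈ closedBall x0 r, ∃ y, (x, y) ∈ S) :
    ∃ δ > 0, ∀ y ∈ ball y0 δ, ∃ x ∈ closedBall x0 r, (x, y) ∈ S := by
  classical
  choose! Y hY using hx
  have hx0 : x0 ∈ closedBall x0 r := mem_closedBall_self hr.le
  have hY0 : Y x0 = y0 := by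
    have h := h2 _ (hY x0 hx0) _ h0
    simp only [sub_self, norm_zero, mul_zero] at h
    exact sub_eq_zero.1 (norm_le_zero_iff.1 h)
  refine ⟨r / 2, by positivity, fun η hη => ?_⟩
  set f : E → E := fun x => x - (1 / 4 : ℝ) • (Y x - η) with hf
  have hlip : ∀ x ∈ closedBall x0 r, ∀ x' ∈ closedBall x0 r, ‖f x - f x'‖ ≤ 7 / 8 * ‖x - x'‖ := by
    intro x hx x' hx'
    have e1 : f x - f x' = (x - x') - (1 / 4 : ℝ) • (Y x - Y x') := by
      simp only [hf, smul_sub]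
      abel
    have a1 := h2 _ (hY x hx) _ (hY x' hx')
    have a2 := hm _ (hY x hx) _ (hY x' hx')
    simp only at a1 a2
    have e2 : ‖f x - f x'‖ ^ 2 = ‖x - x'‖ ^ 2 - 1 / 2 * inner ℝ (Y x - Y x') (x - x') +
        1 / 16 * ‖Y x - Y x'‖ ^ 2 := by
      rw [e1, @norm_sub_sq ℝ, inner_smul_right, norm_smul, real_inner_comm]
      simp only [RCLike.re_to_real, Real.norm_eq_abs]
      rw [abs_of_pos (by norm_num : (0 : ℝ) < 1 / 4)]
      ring
    have a3 : ‖Y x - Y x'‖ ^ 2 ≤ 4 * ‖x - x'‖ ^ 2 := by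
      have := pow_le_pow_left₀ (norm_nonneg _) a1 2
      nlinarith
    refine abs_le_of_sq_le_sq' ?_ (by positivity) |>.2
    nlinarith [sq_nonneg ‖x - x'‖]
  have hmaps : MapsTo f (closedBall x0 r) (closedBall x0 r) := by
    intro x hx
    rw [mem_closedBall, dist_eq_norm]
    have h1 := hlip x hx x0 hx0
    have h3 : ‖x - x0‖ ≤ r := by rwa [mem_closedBall, dist_eq_norm] at hx
    have h4 : f x0 - x0 = -((1 / 4 : ℝ) • (y0 - η)) := by
      simp only [hf, hY0]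
      abel
    have h5 : ‖f x0 - x0‖ ≤ 1 / 4 * (r / 2) := by
      rw [h4, norm_neg, norm_smul, Real.norm_eq_abs, abs_of_pos (by norm_num : (0 : ℝ) < 1 / 4)]
      have : ‖y0 - η‖ < r / 2 := by rwa [mem_ball, dist_eq_norm, norm_sub_rev] at hη
      linarith
    have h6 : ‖f x - x0‖ ≤ ‖f x - f x0‖ + ‖f x0 - x0‖ := by
      have : f x - x0 = (f x - f x0) + (f x0 - x0) := by abel
      rw [this]
      exact norm_add_le _ _
    nlinarith
  have hcontr : ContractingWith (7 / 8 : NNReal) (hmaps.restrict f (closedBall x0 r)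
      (closedBall x0 r)) := by
    refine ⟨by rw [div_lt_one (by norm_num)]; norm_num, LipschitzWith.of_dist_le_mul ?_⟩
    rintro ⟨x, hx⟩ ⟨x', hx'⟩
    rw [Subtype.dist_eq, Subtype.dist_eq, dist_eq_norm, dist_eq_norm]
    simpa using hlip x hx x' hx'
  obtain ⟨x, hxB, hfix, -⟩ := ContractingWith.exists_fixedPoint' (isClosed_closedBall.isComplete)
    hmaps hcontr hx0 (edist_ne_top _ _)
  refine ⟨x, hxB, ?_⟩
  have h7 : f x = x := hfix
  have h8 : (1 / 4 : ℝ) • (Y x - η) = 0 := by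
    have : x - (1 / 4 : ℝ) • (Y x - η) = x := h7
    simpa using this
  have h9 : Y x = η := by
    rcases smul_eq_zero.1 h8 with h | h
    · norm_num at h
    · exact sub_eq_zero.1 h
  rw [← h9]
  exact hY x hxB

/-- The strict record times of `φ` on `(0, 1]`. -/
def Rec94 (φ : ℝ → ℝ) : Set ℝ := {t | 0 < t ∧ t ≤ 1 ∧ ∀ s, 0 ≤ s → s < t → φ s < φ t}

theorem hit94 {φ : ℝ → ℝ} (hφ : ContinuousOn φ (Icc 0 1)) {b ℓ : ℝ} (hb0 : 0 < b) (hb1 : b ≤ 1)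
    (h0 : φ 0 < ℓ) (hb : ℓ ≤ φ b) :
    ∃ t ∈ Rec94 φ, t ≤ b ∧ ℓ ≤ φ t ∧ ∀ s, 0 ≤ s → s < t → φ s < ℓ := by
  set K : Set ℝ := {s | s ∈ Icc (0 : ℝ) b ∧ ℓ ≤ φ s} with hK
  have hφb : ContinuousOn φ (Icc 0 b) := hφ.mono (Icc_subset_Icc le_rfl hb1)
  have hKc : IsCompact K := by
    have h1 : IsClosed K := by
      have := hφb.preimage_isClosed_of_isClosed isClosed_Icc (isClosed_Ici (a := ℓ))
      have e : K = Icc 0 b ∩ φ ⁻¹' Ici ℓ := by
        ext s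
        simp [hK]
      rw [e]
      exact this
    exact isCompact_Icc.of_isClosed_subset h1 (fun s hs => hs.1)
  have hKn : K.Nonempty := ⟨b, ⟨⟨hb0.le, le_rfl⟩, hb⟩⟩
  obtain ⟨t, htK, htmin⟩ := hKc.exists_isLeast hKn
  have ht0 : t ≠ 0 := by
    rintro rfl
    exact absurd htK.2 (not_le.2 h0)
  have ht0' : 0 < t := lt_of_le_of_ne htK.1.1 (Ne.symm ht0)
  have hlt : ∀ s, 0 ≤ s → s < t → φ s < ℓ := by
    intro s hs hst
    by_contra hcon
    have : t ≤ s := htmin ⟨⟨hs, hst.le.trans htK.1.2⟩, not_lt.1 hcon⟩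
    linarith
  exact ⟨t, ⟨ht0', htK.1.2.trans hb1, fun s hs hst => (hlt s hs hst).trans_le htK.2⟩,
    htK.1.2, htK.2, hlt⟩

theorem rec_nonempty94 {φ : ℝ → ℝ} (hφ : ContinuousOn φ (Icc 0 1)) (h01 : φ 0 < φ 1) :
    (Rec94 φ).Nonempty := by
  obtain ⟨t, ht, -⟩ := hit94 hφ one_pos le_rfl h01 le_rfl
  exact ⟨t, ht⟩

theorem rec_acc94 {φ : ℝ → ℝ} (hφ : ContinuousOn φ (Icc 0 1)) {t : ℝ} (ht : t ∈ Rec94 φ) {ε : ℝ}
    (hε : 0 < ε) : ∃ t' ∈ Rec94 φ, t - ε < t' ∧ t' < t := by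
  obtain ⟨ht0, ht1, hrec⟩ := ht
  set a : ℝ := max 0 (t - ε) with ha
  have ha0 : 0 ≤ a := le_max_left _ _
  have hat : a < t := max_lt ht0 (by linarith)
  have hφa : ContinuousOn φ (Icc 0 a) := hφ.mono (Icc_subset_Icc le_rfl (hat.le.trans ht1))
  obtain ⟨m, hmI, hmax⟩ := isCompact_Icc.exists_isMaxOn (nonempty_Icc.2 ha0) hφa
  have hm : φ m < φ t := hrec m hmI.1 (hmI.2.trans_lt hat)
  set ℓ : ℝ := (φ m + φ t) / 2 with hℓ
  have h0 : φ 0 < ℓ := by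
    have : φ 0 ≤ φ m := hmax ⟨le_rfl, ha0⟩
    linarith
  obtain ⟨t', ht', htle, hge, hlt⟩ := hit94 hφ ht0 ht1 h0 (by linarith : ℓ ≤ φ t)
  refine ⟨t', ht', ?_, ?_⟩
  · by_contra hcon
    have h1 : t' ≤ a := (not_lt.1 hcon).trans (le_max_right _ _)
    have h2 : φ t' ≤ φ m := hmax ⟨ht'.1.le, h1⟩
    linarith
  · refine lt_of_le_of_ne htle ?_
    rintro rfl
    -- the values just before `t` are below `ℓ < φ t`
    have hc : ContinuousWithinAt φ (Icc 0 1) t' := hφ t' ⟨ht0.le, ht1⟩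
    have hlim : Tendsto φ (𝓝[Ico 0 t'] t') (𝓝 (φ t')) :=
      hc.mono_left (nhdsWithin_mono _ fun s hs => ⟨hs.1, (hs.2.le.trans ht1)⟩)
    have hne : (𝓝[Ico 0 t'] t').NeBot := by
      rw [← mem_closure_iff_nhdsWithin_neBot, closure_Ico (ne_of_lt ht0)]
      exact ⟨ht0.le, le_rfl⟩
    have hle : φ t' ≤ ℓ := by
      refine le_of_tendsto hlim ?_
      filter_upwards [self_mem_nhdsWithin] with s hs
      exact (hlt s hs.1 hs.2).le
    linarith

/-- **K3.** Record times along a segment on which `w` is continuous and not constant. -/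
theorem rec94 {W : Set E} (hW : Convex ℝ W) {w : E → E} (hw : ContinuousOn w W) {k1 k2 : E}
    (h1 : k1 ∈ W) (h2 : k2 ∈ W) (hne : w k1 ≠ w k2) :
    ∃ c > 0, ∃ T : Set ℝ, T.Nonempty ∧ T ⊆ Icc 0 1 ∧
      (∀ t ∈ T, ∀ ε > 0, ∃ t' ∈ T, t - ε < t' ∧ t' < t) ∧
      (∀ t ∈ T, k1 + t • (k2 - k1) ∈ W) ∧ k1 ≠ k2 ∧
      ∀ t ∈ T, ∀ t' ∈ T, t' < t →
        c * ‖(k1 + t • (k2 - k1)) - (k1 + t' • (k2 - k1))‖ ≤
          ‖w (k1 + t • (k2 - k1)) - w (k1 + t' • (k2 - k1))‖ := by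
  have hk : k1 ≠ k2 := fun h => hne (by rw [h])
  set D : E := w k2 - w k1 with hD
  have hD0 : 0 < ‖D‖ := norm_pos_iff.2 (sub_ne_zero.2 (Ne.symm hne))
  have hL : 0 < ‖k2 - k1‖ := norm_pos_iff.2 (sub_ne_zero.2 (Ne.symm hk))
  set k : ℝ → E := fun t => k1 + t • (k2 - k1) with hkdef
  have hkW : ∀ t ∈ Icc (0 : ℝ) 1, k t ∈ W := by
    intro t ht
    have := hW.add_smul_sub_mem h1 h2 ht
    exact this
  have hkc : Continuous k := by fun_prop
  set φ : ℝ → ℝ := fun t => inner ℝ D (w (k t)) - ‖D‖ ^ 2 / 2 * t with hφ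
  have hφc : ContinuousOn φ (Icc 0 1) := by
    have h3 : ContinuousOn (fun t => w (k t)) (Icc 0 1) := hw.comp hkc.continuousOn hkW
    exact (continuousOn_const.inner h3).sub (by fun_prop)
  have h01 : φ 0 < φ 1 := by
    have e0 : k 0 = k1 := by simp [hkdef]
    have e1 : k 1 = k2 := by simp [hkdef]
    have e2 : φ 1 - φ 0 = ‖D‖ ^ 2 / 2 := by
      simp only [hφ, e0, e1]
      have : inner ℝ D (w k2) - inner ℝ D (w k1) = ‖D‖ ^ 2 := by
        rw [← inner_sub_right, ← hD, real_inner_self_eq_norm_sq]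
      linarith
    have : 0 < ‖D‖ ^ 2 / 2 := by positivity
    linarith
  refine ⟨‖D‖ / 2 / ‖k2 - k1‖, by positivity, Rec94 φ, rec_nonempty94 hφc h01,
    fun t ht => ⟨ht.1.le, ht.2.1⟩, fun t ht ε hε => rec_acc94 hφc ht hε,
    fun t ht => hkW t ⟨ht.1.le, ht.2.1⟩, hk, fun t ht t' ht' htt => ?_⟩
  have e3 : k t - k t' = (t - t') • (k2 - k1) := by
    simp only [hkdef, sub_smul]
    abel
  have h4 : ‖k t - k t'‖ = (t - t') * ‖k2 - k1‖ := by
    rw [e3, norm_smul, Real.norm_eq_abs, abs_of_pos (sub_pos.2 htt)]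
  have h5 : φ t' < φ t := ht.2.2 t' ht'.1.le htt
  have h6 : ‖D‖ ^ 2 / 2 * (t - t') ≤ inner ℝ D (w (k t) - w (k t')) := by
    simp only [hφ] at h5
    rw [inner_sub_right]
    nlinarith
  have h7 : inner ℝ D (w (k t) - w (k t')) ≤ ‖D‖ * ‖w (k t) - w (k t')‖ := real_inner_le_norm _ _
  have h8 : ‖D‖ / 2 * (t - t') ≤ ‖w (k t) - w (k t')‖ := by
    have h9 : ‖D‖ * (‖D‖ / 2 * (t - t')) ≤ ‖D‖ * ‖w (k t) - w (k t')‖ := by nlinarith
    exact le_of_mul_le_mul_left h9 hD0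
  change ‖D‖ / 2 / ‖k2 - k1‖ * ‖k t - k t'‖ ≤ ‖w (k t) - w (k t')‖
  rw [h4]
  have e5 : ‖D‖ / 2 / ‖k2 - k1‖ * ((t - t') * ‖k2 - k1‖) = ‖D‖ / 2 * (t - t') := by
    field_simp
  rw [e5]
  exact h8

/-- **K3, pairs.** -/
theorem pairs94 {P0 : Set (E × E)} (hP0 : IsClosed P0) {W : Set E} (hW : Convex ℝ W) {w : E → E}
    (hw : ContinuousOn w W) (hmem : ∀ k ∈ W, (k, w k) ∈ P0) {k1 k2 : E}
    (h1 : k1 ∈ W) (h2 : k2 ∈ W) (hne : w k1 ≠ w k2) :
    ∃ c > 0, ∃ P : Set (E × E), P.Nonempty ∧ IsClosed P ∧ P ⊆ P0 ∧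
      ∀ p ∈ P, ∀ ε > 0, ∃ q1 ∈ P, ∃ q2 ∈ P, dist q1 p < ε ∧ dist q2 p < ε ∧ q1.1 ≠ q2.1 ∧
        c * ‖q1.1 - q2.1‖ ≤ ‖q1.2 - q2.2‖ := by
  obtain ⟨c, hc, T, hTn, hT1, hacc, hTW, hk, hpair⟩ := rec94 hW hw h1 h2 hne
  set k : ℝ → E := fun t => k1 + t • (k2 - k1) with hkdef
  have hkW : ∀ t ∈ Icc (0 : ℝ) 1, k t ∈ W := fun t ht => hW.add_smul_sub_mem h1 h2 ht
  have hkc : Continuous k := by fun_prop
  set g : ℝ → E × E := fun t => (k t, w (k t)) with hg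
  have hgc : ContinuousOn g (Icc 0 1) :=
    hkc.continuousOn.prodMk (hw.comp hkc.continuousOn hkW)
  refine ⟨c, hc, closure (g '' T), (hTn.image g).closure, isClosed_closure,
    closure_minimal ?_ hP0, ?_⟩
  · rintro _ ⟨t, ht, rfl⟩
    exact hmem _ (hTW t ht)
  · intro p hp ε hε
    obtain ⟨_, ⟨t, ht, rfl⟩, hd⟩ := Metric.mem_closure_iff.1 hp (ε / 2) (by positivity)
    have hcw := hgc t (hT1 ht)
    obtain ⟨δ, hδ, hδ'⟩ := Metric.continuousWithinAt_iff.1 hcw (ε / 2) (by positivity)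
    obtain ⟨t', ht', ht1, ht2⟩ := hacc t ht δ hδ
    have h3 : dist (g t') (g t) < ε / 2 := by
      refine hδ' (hT1 ht') ?_
      rw [Real.dist_eq, abs_sub_comm, abs_of_pos (by linarith)]
      linarith
    have h4 : dist (g t) p < ε / 2 := by rwa [dist_comm] at hd
    refine ⟨g t, subset_closure ⟨t, ht, rfl⟩, g t', subset_closure ⟨t', ht', rfl⟩, by linarith,
      ?_, ?_, hpair t ht t' ht' ht2⟩
    · have := dist_triangle (g t') (g t) p
      linarith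
    · intro hcon
      have e3 : k t - k t' = (t - t') • (k2 - k1) := by
        simp only [hkdef, sub_smul]
        abel
      have h5 : (t - t') • (k2 - k1) = 0 := by
        rw [← e3]
        exact sub_eq_zero.2 hcon
      rcases smul_eq_zero.1 h5 with h | h
      · linarith
      · exact hk (sub_eq_zero.1 h).symm

end Pool.Agent.W_7d29a1_D2
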