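import Pool.Agent.W_7d29a1_D2.Defs46
import Pool.Agent.W_7d29a1_D2.K2I99
import Pool.Agent.W_7d29a1_h46.Dim
import Pool.Agent.W_7d29a1_h46u.LamU

/-!
At almost every tilt of nonzero curvature the wandering exponent is at least one half (density
points and the comparison of two tubes).
-/

namespace Pool.Agent.W_7d29a1_D2.NuH99

open MeasureTheory ProbabilityTheory Filter Topology Metric Pool.Agent.W_MP_7d29a1_pr
  Pool.Agent.W_7d29a1_h46 Pool.Agent.W_7d29a1_h46u Pool.Agent.W_7d29a1_D2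

variable {d : ℕ}

/-- The slope at a nearby point: bounds from above and below. -/
theorem near_slope {L : Vec d → ℝ} (hL : ConvexOn ℝ Set.univ L) {h v : Vec d} {C c δ s ε : ℝ}
    {r k w : Vec d} (hC : 0 < C) (hc : 0 < c) (hs : 0 < s) (hε1 : ε ≤ 1)
    (hε2 : ε * (18 * C) ≤ c) (h4s : 4 * s ≤ δ)
    (hup : ∀ r, ‖r‖ ≤ δ → gap L h v r ≤ C * ‖r‖ ^ 2) (hge : ∀ r, 0 ≤ gap L h v r)
    (hr : ‖r‖ = s) (hlow : c * s ^ 2 ≤ gap L h v r) (hk : ‖k - (h + r)‖ ≤ ε * s)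
    (hw : ∀ r, 0 ≤ gap L k w r) :
    c / 4 * s ≤ ‖w - v‖ ∧ ‖w - v‖ ≤ 8 * C * s ∧ ‖k - h‖ ≤ 2 * s := by
  set z : Vec d := k - h with hz
  have hzr : ‖r - z‖ ≤ ε * s := by
    have : r - z = -(k - (h + r)) := by rw [hz]; abel
    rw [this, norm_neg]
    exact hk
  have hεs : ε * s ≤ s := by nlinarith
  have hz2 : ‖z‖ ≤ 2 * s := by
    calc ‖z‖ = ‖r - (r - z)‖ := by congr 1; abel
      _ ≤ ‖r‖ + ‖r - z‖ := norm_sub_le _ _
      _ ≤ 2 * s := by rw [hr]; linarith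
  -- the gap at z
  have hgz : c / 2 * s ^ 2 ≤ gap L h v z := by
    rcases eq_or_ne r z with h0 | h0
    · rw [← h0]
      nlinarith [sq_nonneg s]
    · set τ : ℝ := ‖r - z‖ with hτ
      have hτ0 : 0 < τ := norm_pos_iff.2 (sub_ne_zero.2 h0)
      set l : ℝ := τ / s with hl
      have hl0 : 0 < l := by positivity
      have hl1 : l ≤ 1 := by
        rw [hl, div_le_one hs]
        linarith
      have hlε : l ≤ ε := by
        rw [hl, div_le_iff₀ hs]
        exact hzr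
      set q : Vec d := z + (1 / l) • (r - z) with hq
      have hq3 : ‖q‖ ≤ 3 * s := by
        have h1 : ‖(1 / l) • (r - z)‖ = s := by
          rw [norm_smul, Real.norm_eq_abs, abs_of_pos (by positivity), hl, ← hτ]
          field_simp
        calc ‖q‖ ≤ ‖z‖ + ‖(1 / l) • (r - z)‖ := norm_add_le _ _
          _ ≤ 3 * s := by rw [h1]; linarith
      have hr2 : (1 - l) • (h + z) + l • (h + q) = h + r := by
        rw [hq, smul_add, smul_add, smul_add, smul_smul, mul_one_div_cancel hl0.ne', one_smul,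
          sub_smul, sub_smul, one_smul, one_smul]
        abel
      have hcv := hL.2 (Set.mem_univ (h + z)) (Set.mem_univ (h + q))
        (show (0 : ℝ) ≤ 1 - l by linarith) hl0.le (by ring)
      rw [hr2] at hcv
      simp only [smul_eq_mul] at hcv
      have hlin : inner ℝ v r = (1 - l) * inner ℝ v z + l * inner ℝ v q := by
        have h2 : r = (1 - l) • z + l • q := by
          rw [hq, smul_add, smul_smul, mul_one_div_cancel hl0.ne', one_smul, sub_smul, one_smul]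
          abel
        calc inner ℝ v r = inner ℝ v ((1 - l) • z + l • q) := by rw [← h2]
          _ = _ := by rw [inner_add_right, inner_smul_right, inner_smul_right]
      have hg1 : gap L h v r ≤ (1 - l) * gap L h v z + l * gap L h v q := by
        unfold gap
        rw [hlin]
        nlinarith
      have hg2 : gap L h v q ≤ C * (3 * s) ^ 2 := by
        refine (hup q (by linarith)).trans ?_
        gcongr
      have hg3 : (1 - l) * gap L h v z ≤ gap L h v z := by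
        have := hge z
        nlinarith
      have hg4 : l * gap L h v q ≤ c / 2 * s ^ 2 := by
        calc l * gap L h v q ≤ l * (C * (3 * s) ^ 2) := by gcongr
          _ ≤ ε * (C * (3 * s) ^ 2) := by gcongr
          _ = ε * (18 * C) / 2 * s ^ 2 := by ring
          _ ≤ c / 2 * s ^ 2 := by gcongr
      linarith
  -- the slope from below
  have hkz : h + z = k := by rw [hz]; abel
  have h1 := hw (h - k)
  have h2 : gap L h v z ≤ inner ℝ (w - v) z := by
    unfold gap at h1 ⊢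
    rw [show k + (h - k) = h by abel, show h - k = -z by rw [hz]; abel, inner_neg_right] at h1
    rw [hkz, inner_sub_left]
    linarith
  have h3 : inner ℝ (w - v) z ≤ ‖w - v‖ * ‖z‖ := real_inner_le_norm _ _
  have hlow2 : c / 4 * s ≤ ‖w - v‖ := by
    have h4 : ‖w - v‖ * ‖z‖ ≤ ‖w - v‖ * (2 * s) := by gcongr
    have h5 : (c / 4 * s) * (2 * s) ≤ ‖w - v‖ * (2 * s) := by nlinarith
    exact le_of_mul_le_mul_right h5 (by positivity)
  refine ⟨hlow2, ?_, hz2⟩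
  -- the slope from above
  have hwv : 0 < ‖w - v‖ := lt_of_lt_of_le (by positivity) hlow2
  have hz0 : 0 < ‖z‖ := by
    rcases (norm_nonneg z).eq_or_lt with h0 | h0
    · exfalso
      have h4 : inner ℝ (w - v) z ≤ 0 := by rw [← h0, mul_zero] at h3; exact h3
      have h5 : 0 < c / 2 * s ^ 2 := by positivity
      linarith
    · exact h0
  set u : Vec d := (‖z‖ / ‖w - v‖) • (w - v) with hu
  have hun : ‖u‖ = ‖z‖ := by
    rw [hu, norm_smul, Real.norm_eq_abs, abs_of_pos (by positivity)]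
    field_simp
  have h6 := hw u
  have h7 : ‖z + u‖ ≤ 2 * ‖z‖ := by
    calc ‖z + u‖ ≤ ‖z‖ + ‖u‖ := norm_add_le _ _
      _ = 2 * ‖z‖ := by rw [hun]; ring
  have h8 := hup (z + u) (by linarith)
  have h9 : C * ‖z + u‖ ^ 2 ≤ C * (2 * ‖z‖) ^ 2 := by gcongr
  have h10 := hge z
  have h11 : inner ℝ (w - v) u ≤ 4 * C * ‖z‖ ^ 2 := by
    unfold gap at h6 h8 h10
    rw [← add_assoc, hkz, inner_add_right] at h8
    rw [hkz] at h10
    rw [inner_sub_left]
    nlinarith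
  have h12 : inner ℝ (w - v) u = ‖w - v‖ * ‖z‖ := by
    rw [hu, inner_smul_right, real_inner_self_eq_norm_sq]
    field_simp
  rw [h12] at h11
  have h13 : ‖w - v‖ * ‖z‖ ≤ (4 * C * ‖z‖) * ‖z‖ := by nlinarith
  have h14 := le_of_mul_le_mul_right h13 hz0
  calc ‖w - v‖ ≤ 4 * C * ‖z‖ := h14
    _ ≤ 4 * C * (2 * s) := by gcongr
    _ = 8 * C * s := by ring

variable {Ω : Type*} [MeasurableSpace Ω] {μ : Measure Ω} [IsProbabilityMeasure μ]
  {ρ : Measure ℝ} [IsProbabilityMeasure ρ] {ω : ℕ × Site d → Ω → ℝ} {β : ℝ}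

omit [IsProbabilityMeasure ρ] in
/-- Two likely tubes with distant directions: the product of the distances is large. -/
theorem two_tubes (hd : 0 < d) {n : ℕ} (hn : 0 < n) {h h' v v' : Vec d} {r : ℝ} (hr : 0 < r)
    (hfar : 8 * r ≤ n * ‖v - v'‖)
    (hP : μ.real {x | ¬ (1 - 1 / 8 ≤ PolT β h (fun p => ω p x) (tube d n v r))} ≤ 1 / 8)
    (hP' : μ.real {x | ¬ (1 - 1 / 8 ≤ PolT β h' (fun p => ω p x) (tube d n v' r))} ≤ 1 / 8) :
    4 / 5 ≤ n * ‖h' - h‖ * ‖v - v'‖ := by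
  obtain ⟨x, hx1, hx2⟩ : ∃ x, 1 - 1 / 8 ≤ PolT β h (fun p => ω p x) (tube d n v r) ∧
      1 - 1 / 8 ≤ PolT β h' (fun p => ω p x) (tube d n v' r) := by
    by_contra hcon
    push Not at hcon
    have h1 : {x | ¬ (1 - 1 / 8 ≤ PolT β h (fun p => ω p x) (tube d n v r))} ∪
        {x | ¬ (1 - 1 / 8 ≤ PolT β h' (fun p => ω p x) (tube d n v' r))} = Set.univ := by
      ext x
      simp only [Set.mem_union, Set.mem_univ, iff_true]
      by_cases hx : 1 - 1 / 8 ≤ PolT β h (fun p => ω p x) (tube d n v r)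
      · exact Or.inr (not_le.2 (hcon x hx))
      · exact Or.inl hx
    have h2 := measureReal_union_le (μ := μ)
      {x | ¬ (1 - 1 / 8 ≤ PolT β h (fun p => ω p x) (tube d n v r))}
      {x | ¬ (1 - 1 / 8 ≤ PolT β h' (fun p => ω p x) (tube d n v' r))}
    rw [h1, probReal_univ] at h2
    linarith
  obtain ⟨_, _, hone⟩ := compare_tube hd hn hr (by norm_num) le_rfl hfar hx1 hx2
  exact (window_le (by norm_num) le_rfl hfar hone).2

/-- The scale belonging to a radius: `8 n ^ a ≤ n (c / 4) s` and `n s ^ 2` small. -/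
theorem scale_of {a c : ℝ} (ha0 : 0 < a) (ha : a < 1 / 2) (hc : 0 < c) {B : ℝ} (hB : 0 < B)
    (N : ℕ) : ∃ s0 : ℝ, 0 < s0 ∧ ∀ s : ℝ, 0 < s → s ≤ s0 → ∃ n : ℕ, N ≤ n ∧ 0 < n ∧
      8 * (n : ℝ) ^ a ≤ n * (c / 4 * s) ∧ B * (n * s ^ 2) < 4 / 5 := by
  have h1a : 0 < 1 - a := by linarith
  set y : ℝ → ℝ := fun s => (32 / (c * s)) ^ (1 / (1 - a)) with hy
  -- y s → ∞ and y s * s ^ 2 → 0
  have hlim1 : Tendsto (fun s : ℝ => 32 / (c * s)) (𝓝[>] 0) atTop := by
    have h1 : Tendsto (fun s : ℝ => (32 / c) * s⁻¹) (𝓝[>] 0) atTop :=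
      tendsto_inv_nhdsGT_zero.const_mul_atTop (by positivity)
    refine h1.congr fun s => ?_
    rw [mul_comm c s, ← div_div, div_eq_mul_inv, div_eq_mul_inv, div_eq_mul_inv]
    ring
  have hlim2 : Tendsto y (𝓝[>] 0) atTop := (tendsto_rpow_atTop (by positivity)).comp hlim1
  have hexp : 0 < 2 - 1 / (1 - a) := by
    rw [sub_pos, div_lt_iff₀ h1a]
    linarith
  have hlim3 : Tendsto (fun s : ℝ => B * (2 * (32 / c) ^ (1 / (1 - a))) *
      s ^ (2 - 1 / (1 - a))) (𝓝[>] 0) (𝓝 0) := by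
    have h1 : Tendsto (fun s : ℝ => s ^ (2 - 1 / (1 - a))) (𝓝[>] 0) (𝓝 (0 ^ (2 - 1 / (1 - a)))) :=
      ((Real.continuousAt_rpow_const 0 _ (Or.inr hexp.le)).tendsto).mono_left nhdsWithin_le_nhds
    rw [Real.zero_rpow hexp.ne'] at h1
    have h2 := h1.const_mul (B * (2 * (32 / c) ^ (1 / (1 - a))))
    rwa [mul_zero] at h2
  have hev := (hlim2.eventually_ge_atTop (max (N : ℝ) 1)).and
    (hlim3.eventually (gt_mem_nhds (show (0 : ℝ) < 4 / 5 by norm_num)))
  obtain ⟨s1, hs1, hs2⟩ := mem_nhdsGT_iff_exists_Ioo_subset.1 hev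
  refine ⟨s1 / 2, by simpa using hs1, fun s h0 hs => ?_⟩
  have hss : s ∈ Set.Ioo (0 : ℝ) s1 := ⟨h0, by
    have : (0 : ℝ) < s1 := hs1
    linarith⟩
  obtain ⟨h1, h2⟩ := hs2 hss
  set n : ℕ := ⌈y s⌉₊ with hn
  have hyn : y s ≤ n := Nat.le_ceil _
  have hy1 : (1 : ℝ) ≤ y s := (le_max_right _ _).trans h1
  have hn2 : (n : ℝ) ≤ 2 * y s := by
    have := (Nat.ceil_lt_add_one (show (0 : ℝ) ≤ y s by linarith)).le
    linarith
  have hn0 : (0 : ℝ) < n := by linarith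
  refine ⟨n, by exact_mod_cast ((le_max_left _ _).trans h1).trans hyn, by exact_mod_cast hn0,
    ?_, ?_⟩
  · -- 32 / (c s) ≤ n ^ (1 - a)
    have hx : (0 : ℝ) < 32 / (c * s) := by positivity
    have h3 : 32 / (c * s) ≤ (n : ℝ) ^ (1 - a) := by
      calc 32 / (c * s) = (y s) ^ (1 - a) := by
            simp only [hy]
            rw [← Real.rpow_mul hx.le, one_div_mul_cancel h1a.ne', Real.rpow_one]
        _ ≤ (n : ℝ) ^ (1 - a) := Real.rpow_le_rpow (by linarith) hyn h1a.le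
    have h4 : (n : ℝ) ^ (1 - a) * (n : ℝ) ^ a = n := by
      rw [← Real.rpow_add hn0]
      simp
    have hna : 0 < (n : ℝ) ^ a := Real.rpow_pos_of_pos hn0 _
    rw [div_le_iff₀ (by positivity)] at h3
    calc 8 * (n : ℝ) ^ a = 32 * (n : ℝ) ^ a / 4 := by ring
      _ ≤ ((n : ℝ) ^ (1 - a) * (c * s)) * (n : ℝ) ^ a / 4 := by gcongr
      _ = ((n : ℝ) ^ (1 - a) * (n : ℝ) ^ a) * (c / 4 * s) := by ring
      _ = n * (c / 4 * s) := by rw [h4]
  · refine lt_of_le_of_lt ?_ h2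
    have h3 : y s * s ^ 2 = (32 / c) ^ (1 / (1 - a)) * s ^ (2 - 1 / (1 - a)) := by
      simp only [hy]
      rw [show 32 / (c * s) = (32 / c) * s⁻¹ by rw [← div_div, div_eq_mul_inv (32 / c) s],
        Real.mul_rpow (by positivity) (by positivity), Real.inv_rpow h0.le, Real.rpow_sub h0,
        Real.rpow_two]
      field_simp
    calc B * (n * s ^ 2) ≤ B * ((2 * y s) * s ^ 2) := by gcongr
      _ = B * 2 * (y s * s ^ 2) := by ring
      _ = B * (2 * (32 / c) ^ (1 / (1 - a))) * s ^ (2 - 1 / (1 - a)) := by rw [h3]; ring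

/-- The tilts with a subgradient around which the tube is likely at all large times. -/
def Gd (L : Vec d → ℝ) (μ : Measure Ω) (β : ℝ) (ω : ℕ × Site d → Ω → ℝ) (a : ℝ) (m : ℕ) :
    Set (Vec d) :=
  {k | ∃ w, (∀ r, 0 ≤ gap L k w r) ∧ Pc μ β ω (1 / 8) a (m + 1) k w}

omit [IsProbabilityMeasure ρ] in
/-- At a density point of `Gd` the lower quadratic bound contradicts a tube exponent below one
half. -/
theorem no_density (hd : 0 < d) {L : Vec d → ℝ} (hL : ConvexOn ℝ Set.univ L) {a : ℝ}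
    (ha0 : 0 < a) (ha : a < 1 / 2) (m : ℕ) {h v : Vec d}
    (hden : ∀ ε : ℝ, 0 < ε → ∃ s0 : ℝ, 0 < s0 ∧ ∀ r : Vec d, 0 < ‖r‖ → ‖r‖ ≤ s0 →
      ∃ k ∈ Gd L μ β ω a m, ‖k - (h + r)‖ ≤ ε * ‖r‖)
    (hge : ∀ r, 0 ≤ gap L h v r) (hup : UpG L h v 2) (hlo : LoG L h v 2)
    (hP : Pc μ β ω (1 / 8) a (m + 1) h v) : False := by
  obtain ⟨C, δ, hδ, hup⟩ := hup
  obtain ⟨c, hc, hlo⟩ := hlo
  set C1 : ℝ := max C 1 with hC1
  have hC1pos : 0 < C1 := lt_of_lt_of_le one_pos (le_max_right _ _)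
  have hup' : ∀ r, ‖r‖ ≤ δ → gap L h v r ≤ C1 * ‖r‖ ^ 2 := by
    intro r hr
    refine (hup r hr).trans ?_
    rw [Real.rpow_two]
    gcongr
    exact le_max_left _ _
  set ε : ℝ := min 1 (c / (18 * C1)) with hε
  have hεpos : 0 < ε := lt_min one_pos (by positivity)
  have hε1 : ε ≤ 1 := min_le_left _ _
  have hε2 : ε * (18 * C1) ≤ c := by
    have := min_le_right 1 (c / (18 * C1))
    rwa [← hε, le_div_iff₀ (by positivity)] at this
  obtain ⟨s0, hs0, hden⟩ := hden ε hεpos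
  obtain ⟨s1, hs1, hsc⟩ := scale_of (c := c) (B := 16 * C1) ha0 ha hc (by positivity) (m + 1)
  obtain ⟨r, hr0, hr1, hr2⟩ := hlo (min (min s0 s1) (δ / 4)) (by positivity)
  have hrs0 : ‖r‖ ≤ s0 := hr1.trans ((min_le_left _ _).trans (min_le_left _ _))
  have hrs1 : ‖r‖ ≤ s1 := hr1.trans ((min_le_left _ _).trans (min_le_right _ _))
  have hrδ : ‖r‖ ≤ δ / 4 := hr1.trans (min_le_right _ _)
  rw [Real.rpow_two] at hr2
  obtain ⟨k, ⟨w, hw, hPk⟩, hk⟩ := hden r hr0 hrs0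
  obtain ⟨n, hmn, hn, hfar, hsmall⟩ := hsc ‖r‖ hr0 hrs1
  obtain ⟨h1, h2, h3⟩ := near_slope hL hC1pos hc hr0 hε1 hε2 (by linarith) hup' hge rfl hr2 hk hw
  have hn0 : (0 : ℝ) < n := by exact_mod_cast hn
  have h4 : 8 * (n : ℝ) ^ a ≤ n * ‖v - w‖ := by
    rw [norm_sub_rev]
    exact hfar.trans (by gcongr)
  have h5 := two_tubes hd hn (Real.rpow_pos_of_pos hn0 a) h4 (hP.2 n hmn) (hPk.2 n hmn)
  rw [norm_sub_rev v w] at h5
  have h6 : n * ‖k - h‖ * ‖w - v‖ ≤ 16 * C1 * (n * ‖r‖ ^ 2) := by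
    calc n * ‖k - h‖ * ‖w - v‖ ≤ n * (2 * ‖r‖) * (8 * C1 * ‖r‖) := by gcongr
      _ = 16 * C1 * (n * ‖r‖ ^ 2) := by ring
  linarith

/-- Lebesgue density: almost every point of a set is a density point in the sense used here. -/
theorem ae_dens (S : Set (Vec d)) : ∀ᵐ h : Vec d, h ∈ S → ∀ ε : ℝ, 0 < ε →
    ∃ s0 : ℝ, 0 < s0 ∧ ∀ r : Vec d, 0 < ‖r‖ → ‖r‖ ≤ s0 → ∃ k ∈ S, ‖k - (h + r)‖ ≤ ε * ‖r‖ := by
  have h1 : ∀ᵐ h : Vec d, ∀ K : ℕ, h ∈ S → ∀ (w : ℕ → Vec d) (δ : ℕ → ℝ),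
      Tendsto δ atTop (𝓝[>] 0) → (∀ᶠ j in atTop, h ∈ closedBall (w j) (K * δ j)) →
      Tendsto (fun j => (volume : Measure (Vec d)) (S ∩ closedBall (w j) (δ j)) /
        (volume : Measure (Vec d)) (closedBall (w j) (δ j))) atTop (𝓝 1) := by
    refine ae_all_iff.2 fun K => ?_
    have h2 := ae_imp_of_ae_restrict
      (IsUnifLocDoublingMeasure.ae_tendsto_measure_inter_div (volume : Measure (Vec d)) S (K : ℝ))
    filter_upwards [h2] with h hh hS w δ hδ hm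
    exact hh hS w δ hδ hm
  filter_upwards [h1] with h hh hS ε hε
  by_contra hcon
  push Not at hcon
  obtain ⟨K, hK⟩ := exists_nat_ge (1 / ε)
  have hK1 : 1 ≤ K * ε := by rwa [div_le_iff₀ hε] at hK
  choose r hr0 hr1 hr2 using fun j : ℕ => hcon (1 / ((j : ℝ) + 1)) (by positivity)
  have hlim0 : Tendsto (fun j => ‖r j‖) atTop (𝓝 0) :=
    squeeze_zero (fun j => (hr0 j).le) hr1 tendsto_one_div_add_atTop_nhds_zero_nat
  have hlim : Tendsto (fun j => ε * ‖r j‖) atTop (𝓝[>] 0) := by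
    refine tendsto_nhdsWithin_iff.2 ⟨?_, Eventually.of_forall fun j => ?_⟩
    · simpa using hlim0.const_mul ε
    · exact mul_pos hε (hr0 j)
  have h3 := hh K hS (fun j => h + r j) (fun j => ε * ‖r j‖) hlim
    (Eventually.of_forall fun j => by
      rw [mem_closedBall, dist_eq_norm, show h - (h + r j) = -r j by abel, norm_neg]
      calc ‖r j‖ = 1 * ‖r j‖ := by ring
        _ ≤ K * ε * ‖r j‖ := by gcongr
        _ = K * (ε * ‖r j‖) := by ring)
  have h4 : ∀ j, S ∩ closedBall (h + r j) (ε * ‖r j‖) = ∅ := by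
    intro j
    rw [Set.eq_empty_iff_forall_notMem]
    rintro k ⟨hk, hk2⟩
    rw [mem_closedBall, dist_eq_norm] at hk2
    exact absurd hk2 (not_le.2 (hr2 j k hk))
  simp only [h4, measure_empty, ENNReal.zero_div] at h3
  exact zero_ne_one (tendsto_nhds_unique tendsto_const_nhds h3)

omit [IsProbabilityMeasure μ] [IsProbabilityMeasure ρ] [MeasurableSpace Ω] in
/-- Touched from above by a paraboloid: the slope is a subgradient. -/
theorem gap_nonneg {L : Vec d → ℝ} (hL : ConvexOn ℝ Set.univ L) {h v : Vec d}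
    (hU : UpG L h v 2) (r : Vec d) : 0 ≤ gap L h v r := by
  obtain ⟨C, δ, hδ, hU⟩ := hU
  refine K2I99.touch hL hδ (C := C) (fun r hr => ?_) r
  have := hU r hr
  rw [Real.rpow_two] at this
  exact this

/-- **At almost every tilt `h`: if `lam` has a quadratic upper bound at `h` and a quadratic lower
bound at infinitely many scales, then the wandering exponent is at least `1 / 2`.** -/
theorem ae_half99 (hd : 0 < d) (hω : IID μ ρ ω) (hρ : EM ρ) : ∀ᵐ h : Vec d, ∀ v : Vec d,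
    UpG (lam ρ β) h v 2 → LoG (lam ρ β) h v 2 → 1 / 2 ≤ nuT μ β ω h v := by
  have hL : ConvexOn ℝ Set.univ (lam (d := d) ρ β) := lam_convex hd hρ β
  have key : ∀ᵐ h : Vec d, ∀ (q : ℚ) (m : ℕ), h ∈ Gd (lam ρ β) μ β ω (q : ℝ) m →
      ∀ ε : ℝ, 0 < ε → ∃ s0 : ℝ, 0 < s0 ∧ ∀ r : Vec d, 0 < ‖r‖ → ‖r‖ ≤ s0 →
        ∃ k ∈ Gd (lam ρ β) μ β ω (q : ℝ) m, ‖k - (h + r)‖ ≤ ε * ‖r‖ :=
    ae_all_iff.2 fun q => ae_all_iff.2 fun m => ae_dens _
  filter_upwards [key] with h hh v hU hLo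
  by_contra hcon
  push Not at hcon
  have h0 : 0 ≤ nuT μ β ω h v := Real.sInf_nonneg fun b hb => hb.1.le
  obtain ⟨q, hq1, hq2⟩ := exists_rat_btwn hcon
  obtain ⟨m, hm⟩ := exists_piece hd hω.1 hq1 (κ := 1 / 8) (by norm_num)
  exact no_density hd hL (h0.trans_lt hq1) hq2 m (hh q m ⟨v, gap_nonneg hL hU, hm⟩)
    (gap_nonneg hL hU) hU hLo hm

end Pool.Agent.W_7d29a1_D2.NuH99
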