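import Pool.Agent.W_7d29a1_D2.TubK74
import Pool.Agent.W_7d29a1_D2.FlK4
import Pool.Agent.W_7d29a1_D2.TrF53

/-!
The first inequality with the exponent `chiF` of the tilt `h` alone, at the tilts with `DnP`.
-/

namespace Pool.Agent.W_7d29a1_D2

open MeasureTheory ProbabilityTheory Filter Topology Pool.Agent.W_MP_7d29a1_pr
  Pool.Agent.W_7d29a1_h46 Pool.Agent.W_7d29a1_h46u

variable {d : ℕ} {ρ : Measure ℝ} [IsProbabilityMeasure ρ] {Ω : Type*} [MeasurableSpace Ω]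
  {μ : Measure Ω} [IsProbabilityMeasure μ] {ω : ℕ × Site d → Ω → ℝ} {β : ℝ}

lemma tailK74 (hd : 0 < d) (hρ : EM ρ) {K : ℕ → Set (Vec d)} {x : ℝ} (hx : 0 ≤ x)
    (hF : FlK ρ β K x) : TubK74.TailK ρ β x K := by
  intro ε hε q
  obtain ⟨Q, C, hC, H⟩ := tailK4 hd hρ hx hF hε q
  refine ⟨Q, C, hC, fun k hk n m hn hm t y => ?_⟩
  have hn0 : (0 : ℝ) < n := by exact_mod_cast hn
  have h1 := H k hk n n m hn hn hm t y
  rw [← Real.rpow_add hn0] at h1
  exact h1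

lemma rateK74 (hd : 0 < d) (hρ : EM ρ) {K : ℕ → Set (Vec d)} {x : ℝ} (hx : 0 ≤ x)
    (hF : FlK ρ β K x) {h : Vec d} (hh : ∀ Q, h ∈ K Q) : TubK74.RateK ρ β x h := by
  intro ε hε hxε
  obtain ⟨Q, C, hC, H⟩ := rateK4 hd hρ hx hF hε hxε
  exact ⟨C, hC, fun n hn => H h (hh Q) n hn⟩

/-- The first inequality with `chiF` and a general power, at a tilt with `DnP`. -/
theorem nuS_le_Fp74 (hd : 0 < d) (hω : IID μ ρ ω) (hρ : EM ρ) {h v : Vec d} {p : ℝ}
    (hDn : DnP ρ β h) (hp : 1 ≤ p) (hU : UpG (lam ρ β) h v p) :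
    p * nuS μ β ω h v ≤ 1 + (p - 1) * chiF μ β ω h := by
  have hp0 : 0 < p := by linarith
  have hc0 : 0 ≤ chiF μ β ω h := chiF_nonneg h
  have key : ∀ y : ℝ, chiF μ β ω h < y → y < 1 → p * nuS μ β ω h v ≤ 1 + (p - 1) * y := by
    intro y hy hy1
    obtain ⟨x, hx, hxy⟩ := exists_lt_of_csInf_lt ⟨1 / 2, half_mem_chiSetF hd hω hρ h⟩
      (show sInf (chiSetF μ β ω h) < y from hy)
    obtain ⟨hx0, hF⟩ := (mem_chiSetF hd hω hρ h x).1 hx
    obtain ⟨K, hK, hDK⟩ := hDn x y hxy hF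
    have hy0 : 0 < y := hx0.trans hxy
    have hh : ∀ Q, h ∈ K Q := fun Q => (hDK Q).1
    have h1 : nuS μ β ω h v ≤ (1 + (p - 1) * y) / p := by
      refine le_of_forall_gt_imp_ge_of_dense fun a ha => ?_
      have ha1 : 1 + (p - 1) * y < p * a := by
        rw [div_lt_iff₀ hp0] at ha
        linarith
      have ha0 : 0 < a := by
        have h2 : 0 < p * a := lt_of_le_of_lt (by nlinarith) ha1
        exact (mul_pos_iff_of_pos_left hp0).1 h2
      refine csInf_le ⟨0, fun b hb => hb.1.le⟩ ((mem_nuSetS hω h v a).2 ⟨ha0, fun q => ?_⟩)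
      exact TubK74.tube_K hd hρ hy0 hy1 hh (fun Q => (hDK Q).2) (tailK74 hd hρ hy0.le hK)
        (rateK74 hd hρ hy0.le hK hh) hp0 hU ha1 q
    rw [le_div_iff₀ hp0] at h1
    linarith
  refine le_of_forall_pos_le_add fun ε hε => ?_
  have hhalf := chiF_le_half (β := β) hd hω hρ h
  have h3 : 0 < ε / p := div_pos hε hp0
  have h4 := key (min (chiF μ β ω h + ε / p) (3 / 4)) (lt_min (by linarith) (by linarith))
    ((min_le_right _ _).trans_lt (by norm_num))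
  have h6 : (p - 1) * min (chiF μ β ω h + ε / p) (3 / 4) ≤ (p - 1) * (chiF μ β ω h + ε / p) :=
    mul_le_mul_of_nonneg_left (min_le_left _ _) (by linarith)
  have h7 : (p - 1) * (ε / p) ≤ ε := by
    have h8 : (p - 1) * (ε / p) ≤ p * (ε / p) := mul_le_mul_of_nonneg_right (by linarith) h3.le
    rw [mul_div_cancel₀ _ hp0.ne'] at h8
    exact h8
  rw [mul_add] at h6
  linarith

/-- D4-3: `p ν* ≤ 1 + (p - 1) χ#` at a tilt with `DnP` and an upper bound of order `p`. -/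
theorem nuS_le_F74 (hd : 0 < d) (hω : IID μ ρ ω) (hρ : EM ρ) {h v : Vec d} {p : ℝ} (hp : 1 ≤ p)
    (hDn : DnP ρ β h) (hU : UpG (lam ρ β) h v p) :
    p * nuS μ β ω h v ≤ 1 + (p - 1) * chiF μ β ω h := nuS_le_Fp74 hd hω hρ hDn hp hU

end Pool.Agent.W_7d29a1_D2
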