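import Pool.Agent.W_7d29a1_D2.KpzK4
import Pool.Agent.W_7d29a1_D2.DensK21
import Pool.Agent.W_7d29a1_D2.TubF74
import Pool.Agent.W_7d29a1_D2.CoreK16
import Pool.Agent.W_7d29a1_D2.ExpK34
import Pool.Agent.W_7d29a1_D2.ExpK67
import Pool.Agent.W_7d29a1_D2.NuH99
import Pool.Agent.W_7d29a1_D2.Rad60

/-!
The relation `χ = 2 ν - 1` at almost every tilt of nonzero curvature.
-/

namespace Pool.Agent.W_7d29a1_D2

open MeasureTheory ProbabilityTheory Filter Topology Pool.Agent.W_MP_7d29a1_pr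
  Pool.Agent.W_7d29a1_h46 Pool.Agent.W_7d29a1_h46u

variable {d : ℕ} {ρ : Measure ℝ} [IsProbabilityMeasure ρ]

/-- A point of `K Q` near `h + 2 r`. -/
lemma near4 {K : ℕ → Set (Vec d)} {h : Vec d} (hD : DnK K h) (Q : ℕ) :
    ∃ δ : ℝ, 0 < δ ∧ ∀ r : Vec d, 0 < ‖r‖ → ‖r‖ ≤ δ →
      ∃ r' : Vec d, h + r' ∈ K Q ∧ ‖r' - (2 : ℝ) • r‖ ≤ ‖r‖ / 2 := by
  obtain ⟨δ, hδ, H⟩ := (hD Q).2 (1 / 4) (by norm_num)
  refine ⟨δ / 4, by linarith, fun r hr hr' => ?_⟩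
  have h2 : ‖(2 : ℝ) • r‖ = 2 * ‖r‖ := by
    rw [norm_smul]
    norm_num
  obtain ⟨k, hk, hk'⟩ := H ((2 : ℝ) • r) (by rw [h2]; linarith) (by rw [h2]; linarith)
  refine ⟨k - h, by simpa using hk, ?_⟩
  have e : k - h - (2 : ℝ) • r = k - (h + (2 : ℝ) • r) := by abel
  rw [e]
  rw [h2] at hk'
  linarith

lemma norm4 {r r' : Vec d} (h : ‖r' - (2 : ℝ) • r‖ ≤ ‖r‖ / 2) :
    3 / 2 * ‖r‖ ≤ ‖r'‖ ∧ ‖r'‖ ≤ 5 / 2 * ‖r‖ := by
  have h2 : ‖(2 : ℝ) • r‖ = 2 * ‖r‖ := by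
    rw [norm_smul]
    norm_num
  have h3 : ‖r'‖ ≤ ‖r' - (2 : ℝ) • r‖ + ‖(2 : ℝ) • r‖ := by
    have := norm_add_le (r' - (2 : ℝ) • r) ((2 : ℝ) • r)
    rwa [sub_add_cancel] at this
  have h4 : ‖(2 : ℝ) • r‖ ≤ ‖r' - (2 : ℝ) • r‖ + ‖r'‖ := by
    have := norm_sub_le (r' : Vec d) (r' - (2 : ℝ) • r)
    rw [sub_sub_cancel] at this
    linarith
  rw [h2] at h3 h4
  constructor
  · linarith
  · linarith

/-- `LoA` at points of the sets `K`. -/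
lemma loAK4 {L : Vec d → ℝ} (hL : ConvexOn ℝ Set.univ L) {K : ℕ → Set (Vec d)} {h v : Vec d}
    (hD : DnK K h) {p : ℝ} (H : LoA L h v p) : LoAK L K h v p := by
  obtain ⟨c, hc, δ, hδ, H⟩ := loA_ball60 hL H
  refine ⟨c, hc, fun Q => ?_⟩
  obtain ⟨δ', hδ', H'⟩ := near4 hD Q
  refine ⟨min δ δ', lt_min hδ hδ', fun s hs hs' => ?_⟩
  obtain ⟨r, hr, hg⟩ := H s hs (hs'.trans (min_le_left _ _))
  obtain ⟨r', hr', hn⟩ := H' r (by rw [hr]; exact hs) (by rw [hr]; exact hs'.trans (min_le_right _ _))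
  obtain ⟨n1, n2⟩ := norm4 hn
  rw [hr] at n1 n2 hn
  exact ⟨r', by linarith, by linarith, hr', hg r' hn⟩

/-- `LoG` at points of the sets `K`. -/
lemma loGK4 {L : Vec d → ℝ} (hL : ConvexOn ℝ Set.univ L) {K : ℕ → Set (Vec d)} {h v : Vec d}
    (hD : DnK K h) {p : ℝ} (hp : 0 ≤ p) (H : LoG L h v p) : LoGK L K h v p := by
  obtain ⟨c, hc, H⟩ := loG_ball60 hL H
  refine ⟨c / 3 ^ p, by positivity, fun Q δ hδ => ?_⟩
  obtain ⟨δ', hδ', H'⟩ := near4 hD Q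
  obtain ⟨r, hr, hrδ, hg⟩ := H (min (δ / 3) δ') (lt_min (by linarith) hδ')
  obtain ⟨r', hr', hn⟩ := H' r hr (hrδ.trans (min_le_right _ _))
  obtain ⟨n1, n2⟩ := norm4 hn
  have h3 : ‖r‖ ≤ δ / 3 := hrδ.trans (min_le_left _ _)
  refine ⟨r', by linarith, by linarith, hr', le_trans ?_ (hg r' hn)⟩
  have h4 : ‖r'‖ ^ p ≤ 3 ^ p * ‖r‖ ^ p := by
    rw [← Real.mul_rpow (by norm_num) hr.le]
    exact Real.rpow_le_rpow (norm_nonneg _) (by linarith) hp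
  calc c / 3 ^ p * ‖r'‖ ^ p ≤ c / 3 ^ p * (3 ^ p * ‖r‖ ^ p) :=
        mul_le_mul_of_nonneg_left h4 (by positivity)
    _ = c * ‖r‖ ^ p := by
        have : (3 : ℝ) ^ p ≠ 0 := by positivity
        field_simp

/-- **The exponents at almost every tilt.** -/
theorem kpz4 {Ω : Type*} [MeasurableSpace Ω] {μ : Measure Ω} [IsProbabilityMeasure μ]
    {ω : ℕ × Site d → Ω → ℝ} {β : ℝ} (hd : 0 < d) (hω : IID μ ρ ω) (hρ : EM ρ) :
    ∀ᵐ h : Vec d, ∃ v : Vec d,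
      (∀ k : Vec d, lam ρ β h + inner ℝ v k ≤ lam ρ β (h + k)) ∧ UpG (lam ρ β) h v 2 ∧
      (∀ p : ℝ, 1 ≤ p →
        (UpG (lam ρ β) h v p → p * nuS μ β ω h v ≤ 1 + (p - 1) * chiF μ β ω h) ∧
        (LoA (lam ρ β) h v p →
          (1 + (p - 1) * chiF μ β ω h) * chiF μ β ω h ≤ p * nuS μ β ω h v * chiF μ β ω h) ∧
        (LoG (lam ρ β) h v p →
          (1 + (p - 1) * chiF μ β ω h) * chiT μ β ω h ≤ p * nuS μ β ω h v * chiF μ β ω h)) ∧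
      2 * nuS μ β ω h v - 1 ≤ chiF μ β ω h ∧
      ((∀ e : ℝ, 0 < e → ∃ δ : ℝ, 0 < δ ∧ ∀ r : Vec d, ‖r‖ ≤ δ →
          gap (lam ρ β) h v r ≤ e * ‖r‖ ^ 2) ∨
        (1 / 2 ≤ nuT μ β ω h v ∧ chiF μ β ω h = 2 * nuS μ β ω h v - 1)) := by
  have hL : ConvexOn ℝ Set.univ (lam ρ β : Vec d → ℝ) := lam_convex (ρ := ρ) hd hρ β
  have hcore : ∀ h v : Vec d, ∀ (a x : ℝ) (K : ℕ → Set (Vec d)), 0 < a → 0 < x → x < 1 →
      FlK ρ β K x → (∀ Q, h ∈ K Q) → TbF ρ β h v a → CoreK ρ β K h v a x :=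
    fun h v a x K ha hx hx1 hF hh hT => coreK16 hd hρ ha hx hx1 hF hh hT
  have hA : ∀ (h v : Vec d) (p : ℝ), 1 ≤ p → DnP ρ β h → LoA (lam ρ β) h v p →
      (1 + (p - 1) * chiF μ β ω h) * chiF μ β ω h ≤ p * nuS μ β ω h v * chiF μ β ω h :=
    fun h v p hp hDn H => expAK34 hd hω hρ hp hDn (hcore h v) fun K hK => loAK4 hL hK H
  have hG : ∀ (h v : Vec d) (p : ℝ), 1 ≤ p → DnP ρ β h → LoG (lam ρ β) h v p →
      (1 + (p - 1) * chiF μ β ω h) * chiT μ β ω h ≤ p * nuS μ β ω h v * chiF μ β ω h :=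
    fun h v p hp hDn H => expLK67 hd hω hρ hp hDn (hcore h v) fun K hK =>
      loGK4 hL hK (by linarith) H
  have hU : ∀ (h v : Vec d) (p : ℝ), 1 ≤ p → DnP ρ β h → UpG (lam ρ β) h v p →
      p * nuS μ β ω h v ≤ 1 + (p - 1) * chiF μ β ω h :=
    fun h v p hp hDn H => nuS_le_F74 hd hω hρ hp hDn H
  filter_upwards [ae_DnP (ρ := ρ) hd hρ β, NuH99.ae_half99 (β := β) hd hω hρ, Dich31.ae_dich31 hL]
    with h h1 h2 h3
  obtain ⟨v, hsub, hup, hor⟩ := h3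
  have e1 : 2 * nuS μ β ω h v ≤ 1 + chiF μ β ω h := by
    have := hU h v 2 one_le_two h1 hup
    linarith
  refine ⟨v, hsub, hup, fun p hp => ⟨fun H => hU h v p hp h1 H, fun H => hA h v p hp h1 H,
    fun H => hG h v p hp h1 H⟩, by linarith, ?_⟩
  rcases hor with hlo | hsm
  · right
    have e2 : 1 / 2 ≤ nuT μ β ω h v := h2 v hup (loG_of_loA4 hlo)
    have e3 := hA h v 2 one_le_two h1 hlo
    have e4 : (1 + chiF μ β ω h) * chiF μ β ω h ≤ 2 * nuS μ β ω h v * chiF μ β ω h := by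
      have : (1 : ℝ) + (2 - 1) * chiF μ β ω h = 1 + chiF μ β ω h := by ring
      rw [this] at e3
      exact e3
    exact ⟨e2, kpz_alg4 (Real.sInf_nonneg fun _ hx => hx.1.le) e1 e4 e2
      (nuT_le_nuS hd hω h v)⟩
  · left
    exact hsm

end Pool.Agent.W_7d29a1_D2
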