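import Pool.Agent.W_7d29a1_D2.KpzK4
import Pool.Agent.W_7d29a1_D2.DensK21
import Pool.Agent.W_7d29a1_D2.TubF74
import Pool.Agent.W_7d29a1_D2.CoreK16
import Pool.Agent.W_7d29a1_D2.Dens36
import Pool.Agent.W_7d29a1_D2.ExpK34
import Pool.Agent.W_7d29a1_D2.ExpK67
import Pool.Agent.W_7d29a1_D2.NuH99

/-!
The relation `χ = 2 ν - 1` at almost every tilt of nonzero curvature.
-/

namespace Pool.Agent.W_7d29a1_D2

open MeasureTheory ProbabilityTheory Filter Topology Pool.Agent.W_MP_7d29a1_pr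
  Pool.Agent.W_7d29a1_h46 Pool.Agent.W_7d29a1_h46u

variable {d : ℕ} {ρ : Measure ℝ} [IsProbabilityMeasure ρ]

/-- **Almost every tilt.** -/
theorem kpz46 {Ω : Type*} [MeasurableSpace Ω] {μ : Measure Ω} [IsProbabilityMeasure μ]
    {ω : ℕ × Site d → Ω → ℝ} (hd : 0 < d) (hω : IID μ ρ ω) (hρ : EM ρ) (β : ℝ) :
    ∀ᵐ h : Vec d, ∃ v : Vec d,
      (∀ k : Vec d, lam ρ β h + inner ℝ v k ≤ lam ρ β (h + k)) ∧ UpG (lam ρ β) h v 2 ∧
      (∀ p : ℝ, 1 ≤ p →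
        (UpG (lam ρ β) h v p → p * nuS μ β ω h v ≤ 1 + (p - 1) * chiF μ β ω h) ∧
        (LoG (lam ρ β) h v p →
          (1 + (p - 1) * chiF μ β ω h) * chiT μ β ω h ≤ p * nuS μ β ω h v * chiF μ β ω h) ∧
        (LoA (lam ρ β) h v p →
          (1 + (p - 1) * chiF μ β ω h) * chiF μ β ω h ≤ p * nuS μ β ω h v * chiF μ β ω h)) ∧
      2 * nuS μ β ω h v - 1 ≤ chiF μ β ω h ∧
      ((∀ e : ℝ, 0 < e → ∃ δ : ℝ, 0 < δ ∧ ∀ r : Vec d, ‖r‖ ≤ δ →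
          gap (lam ρ β) h v r ≤ e * ‖r‖ ^ 2) ∨
        (1 / 2 ≤ nuT μ β ω h v ∧ chiF μ β ω h = 2 * nuS μ β ω h v - 1)) := by
  have hconv := lam_convex (ρ := ρ) hd hρ β
  filter_upwards [ae_DnP hd hρ β, NuH99.ae_half99 (β := β) hd hω hρ, Dich31.ae_dich31 hconv]
    with h h1 h2 h3
  obtain ⟨v, hsub, hup, hor⟩ := h3
  have hcore : ∀ (a x : ℝ) (K : ℕ → Set (Vec d)), 0 < a → 0 < x → x < 1 → FlK ρ β K x →
      (∀ Q, h ∈ K Q) → TbF ρ β h v a → CoreK ρ β K h v a x :=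
    fun a x K ha hx hx1 hF hh hT => coreK16 hd hρ ha hx hx1 hF hh hT
  have hU : ∀ p : ℝ, 1 ≤ p → UpG (lam ρ β) h v p →
      p * nuS μ β ω h v ≤ 1 + (p - 1) * chiF μ β ω h := fun p hp hU => nuS_le_F74 hd hω hρ hp h1 hU
  have hA : ∀ p : ℝ, 1 ≤ p → LoA (lam ρ β) h v p →
      (1 + (p - 1) * chiF μ β ω h) * chiF μ β ω h ≤ p * nuS μ β ω h v * chiF μ β ω h :=
    fun p hp hL => expAK34 hd hω hρ hp h1 hcore fun K hK => loAK36 hconv hK hL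
  have hG : ∀ p : ℝ, 1 ≤ p → LoG (lam ρ β) h v p →
      (1 + (p - 1) * chiF μ β ω h) * chiT μ β ω h ≤ p * nuS μ β ω h v * chiF μ β ω h :=
    fun p hp hL => expLK67 hd hω hρ hp h1 hcore fun K hK => loGK36 hconv (by linarith) hK hL
  have e1 : 2 * nuS μ β ω h v ≤ 1 + chiF μ β ω h := by
    have := hU 2 one_le_two hup
    linarith
  refine ⟨v, hsub, hup, fun p hp => ⟨hU p hp, hG p hp, hA p hp⟩, by linarith, ?_⟩
  rcases hor with hlo | hsm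
  · right
    have e2 : 1 / 2 ≤ nuT μ β ω h v := h2 v hup (loG_of_loA4 hlo)
    have e3 := hA 2 one_le_two hlo
    have e4 : (1 + chiF μ β ω h) * chiF μ β ω h ≤ 2 * nuS μ β ω h v * chiF μ β ω h := by
      have : (1 : ℝ) + (2 - 1) * chiF μ β ω h = 1 + chiF μ β ω h := by ring
      rw [this] at e3
      exact e3
    exact ⟨e2, kpz_alg4 (Real.sInf_nonneg fun _ hx => hx.1.le) e1 e4 e2
      (nuT_le_nuS hd hω h v)⟩
  · left
    exact hsm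

end Pool.Agent.W_7d29a1_D2
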