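import Pool.Agent.W_7d29a1_D2.DefsK4
import Pool.Agent.W_7d29a1_D2.Dich31

/-!
The relation `χ = 2 ν - 1` at almost every tilt of nonzero curvature: assembly.
-/

namespace Pool.Agent.W_7d29a1_D2

open MeasureTheory ProbabilityTheory Filter Topology Pool.Agent.W_MP_7d29a1_pr
  Pool.Agent.W_7d29a1_h46 Pool.Agent.W_7d29a1_h46u

variable {d : ℕ} {ρ : Measure ℝ} [IsProbabilityMeasure ρ]

lemma loG_of_loA4 {L : Vec d → ℝ} {h v : Vec d} {p : ℝ} (H : LoA L h v p) : LoG L h v p := by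
  obtain ⟨c, hc, δ, hδ, H⟩ := H
  refine ⟨c, hc, fun δ' hδ' => ?_⟩
  obtain ⟨r, hr, hg⟩ := H (min δ δ') (lt_min hδ hδ') (min_le_left _ _)
  refine ⟨r, ?_, ?_, ?_⟩
  · rw [hr]
    exact lt_min hδ hδ'
  · rw [hr]
    exact min_le_right _ _
  · rw [hr]
    exact hg

/-- The arithmetic at a tilt of nonzero curvature. -/
lemma kpz_alg4 {χ ν ν' : ℝ} (h0 : 0 ≤ χ) (h1 : 2 * ν ≤ 1 + χ) (h2 : (1 + χ) * χ ≤ 2 * ν * χ)
    (h3 : 1 / 2 ≤ ν') (h4 : ν' ≤ ν) : χ = 2 * ν - 1 := by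
  rcases eq_or_lt_of_le h0 with h5 | h5
  · rw [← h5] at h1 ⊢
    linarith
  · have h6 : 1 + χ ≤ 2 * ν := le_of_mul_le_mul_right h2 h5
    linarith

/-- The clause at almost every tilt, from its parts. -/
theorem kpz_frame4 {Ω : Type*} [MeasurableSpace Ω] {μ : Measure Ω} [IsProbabilityMeasure μ]
    {ω : ℕ × Site d → Ω → ℝ} {β : ℝ} (hd : 0 < d) (hω : IID μ ρ ω) (hρ : EM ρ)
    (hDn : ∀ᵐ h : Vec d, DnP ρ β h)
    (hU : ∀ (h v : Vec d) (p : ℝ), 1 ≤ p → DnP ρ β h → UpG (lam ρ β) h v p →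
      p * nuS μ β ω h v ≤ 1 + (p - 1) * chiF μ β ω h)
    (hA : ∀ (h v : Vec d) (p : ℝ), 1 ≤ p → DnP ρ β h → LoA (lam ρ β) h v p →
      (1 + (p - 1) * chiF μ β ω h) * chiF μ β ω h ≤ p * nuS μ β ω h v * chiF μ β ω h)
    (hL : ∀ (h v : Vec d) (p : ℝ), 1 ≤ p → DnP ρ β h → LoG (lam ρ β) h v p →
      (1 + (p - 1) * chiF μ β ω h) * chiT μ β ω h ≤ p * nuS μ β ω h v * chiF μ β ω h)
    (hN : ∀ᵐ h : Vec d, ∀ v : Vec d,
      (∀ k : Vec d, lam ρ β h + inner ℝ v k ≤ lam ρ β (h + k)) → LoG (lam ρ β) h v 2 →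
      1 / 2 ≤ nuT μ β ω h v) :
    ∀ᵐ h : Vec d, ∃ v : Vec d,
      (∀ k : Vec d, lam ρ β h + inner ℝ v k ≤ lam ρ β (h + k)) ∧ UpG (lam ρ β) h v 2 ∧
      (∀ p : ℝ, 1 ≤ p →
        (UpG (lam ρ β) h v p → p * nuS μ β ω h v ≤ 1 + (p - 1) * chiF μ β ω h) ∧
        (LoA (lam ρ β) h v p →
          (1 + (p - 1) * chiF μ β ω h) * chiF μ β ω h ≤ p * nuS μ β ω h v * chiF μ β ω h) ∧
        (LoG (lam ρ β) h v p →
          (1 + (p - 1) * chiF μ β ω h) * chiT μ β ω h ≤ p * nuS μ β ω h v * chiF μ β ω h)) ∧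
      2 * nuS μ β ω h v - 1 ≤ chiF μ β ω h ∧
      ((∀ e : ℝ, 0 < e → ∃ δ : ℝ, 0 < δ ∧ ∀ r : Vec d, ‖r‖ ≤ δ →
          gap (lam ρ β) h v r ≤ e * ‖r‖ ^ 2) ∨
        (1 / 2 ≤ nuT μ β ω h v ∧ chiF μ β ω h = 2 * nuS μ β ω h v - 1)) := by
  filter_upwards [hDn, hN, Dich31.ae_dich31 (lam_convex (ρ := ρ) hd hρ β)] with h h1 h2 h3
  obtain ⟨v, hsub, hup, hor⟩ := h3
  have e1 : 2 * nuS μ β ω h v ≤ 1 + chiF μ β ω h := by
    have := hU h v 2 one_le_two h1 hup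
    linarith
  refine ⟨v, hsub, hup, fun p hp => ⟨fun H => hU h v p hp h1 H, fun H => hA h v p hp h1 H,
    fun H => hL h v p hp h1 H⟩, by linarith, ?_⟩
  rcases hor with hlo | hsm
  · right
    have e2 : 1 / 2 ≤ nuT μ β ω h v := h2 v hsub (loG_of_loA4 hlo)
    have e3 := hA h v 2 one_le_two h1 hlo
    have e4 : (1 + chiF μ β ω h) * chiF μ β ω h ≤ 2 * nuS μ β ω h v * chiF μ β ω h := by
      have : (1 : ℝ) + (2 - 1) * chiF μ β ω h = 1 + chiF μ β ω h := by ring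
      rw [this] at e3
      exact e3
    exact ⟨e2, kpz_alg4 (Real.sInf_nonneg fun _ hx => hx.1.le) e1 e4 e2
      (nuT_le_nuS hd hω h v)⟩
  · left
    exact hsm

end Pool.Agent.W_7d29a1_D2
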