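import Mathlib

/-!
Theorem K2: a convex function on a finite-dimensional space which is affine on no nonempty open set has, in every
ball, a point where it is touched from above by a paraboloid and bends quadratically along arbitrarily small
vectors.
-/

open Set Filter Topology

namespace Pool.Agent.W_7d29a1_D2.KtwoA5

variable {E : Type*} [NormedAddCommGroup E] [InnerProductSpace ℝ E]

/-- The excess over the tangent plane. -/
def gap (f : E → ℝ) (x v r : E) : ℝ := f (x + r) - f x - inner ℝ v r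

/-- `f` is touched from above at `x`. -/
def Tch (f : E → ℝ) (C ρ : ℝ) (x v : E) : Prop := ∀ r : E, ‖r‖ ≤ ρ → gap f x v r ≤ C * ‖r‖ ^ 2

/-- `f` minus a paraboloid. -/
def Fp (f : E → ℝ) (x q : E) (A : ℝ) (z : E) : ℝ := f z - inner ℝ q (z - x) - A * ‖z - x‖ ^ 2

lemma Tch.mono {f : E → ℝ} {C C' ρ ρ' : ℝ} {x v : E} (h : Tch f C ρ x v) (hC : C ≤ C') (hρ : ρ' ≤ ρ) :
    Tch f C' ρ' x v := fun r hr =>
  (h r (hr.trans hρ)).trans (mul_le_mul_of_nonneg_right hC (by positivity))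

lemma cont_gap {f : E → ℝ} (hf : Continuous f) (r : E) : Continuous fun p : E × E => gap f p.1 p.2 r := by
  unfold gap
  fun_prop

lemma Tch.nonneg {f : E → ℝ} (hf : ConvexOn ℝ univ f) {C ρ : ℝ} (hC : 0 ≤ C) (hρ : 0 < ρ) {x v : E}
    (h : Tch f C ρ x v) (r : E) : 0 ≤ gap f x v r := by
  have key : ∀ t : ℝ, 0 < t → t * ‖r‖ ≤ ρ → -(C * t * ‖r‖ ^ 2) ≤ gap f x v r := by
    intro t ht htr
    have h1 := hf.2 (mem_univ (x + r)) (mem_univ (x - t • r)) (show 0 ≤ t / (1 + t) by positivity)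
      (show 0 ≤ 1 / (1 + t) by positivity) (by field_simp; ring)
    have hpt : (t / (1 + t)) • (x + r) + (1 / (1 + t)) • (x - t • r) = x := by
      have e1 : (t / (1 + t)) • (x + r) + (1 / (1 + t)) • (x - t • r)
          = (t / (1 + t) + 1 / (1 + t)) • x + (t / (1 + t) - 1 / (1 + t) * t) • r := by module
      have e2 : t / (1 + t) + 1 / (1 + t) = 1 := by field_simp; ring
      have e3 : t / (1 + t) - 1 / (1 + t) * t = 0 := by field_simp; ring
      rw [e1, e2, e3, one_smul, zero_smul, add_zero]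
    rw [hpt] at h1
    simp only [smul_eq_mul] at h1
    have h2 := h (-(t • r)) (by rw [norm_neg, norm_smul, Real.norm_eq_abs, abs_of_pos ht]; exact htr)
    unfold gap at h2 ⊢
    rw [norm_neg, norm_smul, Real.norm_eq_abs, abs_of_pos ht, inner_neg_right, real_inner_smul_right,
      ← sub_eq_add_neg] at h2
    have h3 : (1 + t) * f x ≤ t * f (x + r) + f (x - t • r) := by
      have h4 := mul_le_mul_of_nonneg_left h1 (show 0 ≤ 1 + t by positivity)
      have h5 : (1 + t) * (t / (1 + t) * f (x + r) + 1 / (1 + t) * f (x - t • r))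
          = t * f (x + r) + f (x - t • r) := by field_simp
      linarith
    have h6 : t * (-(C * t * ‖r‖ ^ 2)) ≤ t * (f (x + r) - f x - inner ℝ v r) := by nlinarith
    exact le_of_mul_le_mul_left h6 ht
  by_contra hcon
  push Not at hcon
  set g := gap f x v r with hg
  set t : ℝ := min (ρ / (‖r‖ + 1)) (-g / ((C + 1) * (‖r‖ ^ 2 + 1))) with ht
  have hn : 0 ≤ ‖r‖ := norm_nonneg r
  have ht0 : 0 < t := by
    rw [ht]
    refine lt_min (by positivity) (div_pos (by linarith) (by positivity))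
  have h1 : t * ‖r‖ ≤ ρ := by
    have h2 : t ≤ ρ / (‖r‖ + 1) := min_le_left _ _
    have h3 : t * (‖r‖ + 1) ≤ ρ := by rwa [le_div_iff₀ (by positivity)] at h2
    nlinarith
  have h2 := key t ht0 h1
  have h3 : t * ((C + 1) * (‖r‖ ^ 2 + 1)) ≤ -g := by
    have h4 : t ≤ -g / ((C + 1) * (‖r‖ ^ 2 + 1)) := min_le_right _ _
    rwa [le_div_iff₀ (by positivity)] at h4
  have h5 : 0 < t * (C + ‖r‖ ^ 2 + 1) := by positivity
  nlinarith

lemma touch {f : E → ℝ} {x q y : E} {A ρ : ℝ} (_hy : y ∈ Metric.closedBall x ρ)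
    (hmax : ∀ z ∈ Metric.closedBall x ρ, Fp f x q A z ≤ Fp f x q A y) :
    Tch f A (ρ - ‖y - x‖) y (q + (2 * A) • (y - x)) := by
  intro r hr
  have h1 := hmax (y + r) (by
    rw [mem_closedBall_iff_norm]
    calc ‖y + r - x‖ = ‖(y - x) + r‖ := by congr 1; abel
      _ ≤ ‖y - x‖ + ‖r‖ := norm_add_le _ _
      _ ≤ ρ := by linarith)
  unfold Fp at h1
  have h2 : y + r - x = (y - x) + r := by abel
  rw [h2, inner_add_right, norm_add_sq_real] at h1
  unfold gap
  rw [inner_add_left, real_inner_smul_left]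
  linarith

lemma near {f : E → ℝ} {x v p y : E} {C κ ρ : ℝ} (h : Tch f C ρ x v)
    (hy : y ∈ Metric.closedBall x ρ) (hxy : Fp f x (v + p) (C + κ) x ≤ Fp f x (v + p) (C + κ) y) :
    κ * ‖y - x‖ ≤ ‖p‖ := by
  have h1 := h (y - x) (by rwa [mem_closedBall_iff_norm] at hy)
  unfold gap at h1
  rw [add_sub_cancel] at h1
  unfold Fp at hxy
  rw [sub_self, inner_zero_right, norm_zero, inner_add_left] at hxy
  have h2 : -(inner ℝ p (y - x)) ≤ ‖p‖ * ‖y - x‖ := by
    have := abs_real_inner_le_norm p (y - x)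
    have := neg_abs_le (inner ℝ p (y - x))
    linarith
  have h3 : κ * ‖y - x‖ ^ 2 ≤ ‖p‖ * ‖y - x‖ := by nlinarith
  rcases eq_or_lt_of_le (norm_nonneg (y - x)) with h4 | h4
  · rw [← h4, mul_zero]; exact norm_nonneg p
  · have h5 : (κ * ‖y - x‖) * ‖y - x‖ ≤ ‖p‖ * ‖y - x‖ := by nlinarith
    exact le_of_mul_le_mul_right h5 h4

lemma two_max {f : E → ℝ} {x q y z : E} {A : ℝ} (h : Fp f x q A y = Fp f x q A z) :
    gap f y (q + (2 * A) • (y - x)) (z - y) = A * ‖z - y‖ ^ 2 := by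
  unfold gap
  unfold Fp at h
  rw [add_sub_cancel]
  have h2 : z - x = (y - x) + (z - y) := by abel
  rw [h2, inner_add_right, norm_add_sq_real] at h
  rw [inner_add_left, real_inner_smul_left]
  linarith

lemma cont_Fp {f : E → ℝ} (hf : Continuous f) (x : E) (A : ℝ) :
    Continuous fun p : E × E => Fp f x p.1 A p.2 := by
  unfold Fp
  fun_prop

/-- The case of unique maximisers: all points near `x` are touched. -/
lemma caseI [FiniteDimensional ℝ E] {f : E → ℝ} (hf : ConvexOn ℝ univ f) (hfc : Continuous f) {C κ ρ p0 : ℝ}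
    (hC : 0 ≤ C) (hκ : 0 < κ) (hp0 : 0 < p0) (hpρ : p0 < κ * ρ) {x v : E} (h : Tch f C ρ x v)
    (huniq : ∀ p : E, ‖p‖ ≤ p0 → ∀ y ∈ Metric.closedBall x ρ, ∀ z ∈ Metric.closedBall x ρ,
      (∀ z' ∈ Metric.closedBall x ρ, Fp f x (v + p) (C + κ) z' ≤ Fp f x (v + p) (C + κ) y) →
      (∀ z' ∈ Metric.closedBall x ρ, Fp f x (v + p) (C + κ) z' ≤ Fp f x (v + p) (C + κ) z) → y = z) :
    ∀ y : E, ‖y - x‖ < p0 / (4 * (C + κ)) → ∃ w : E, Tch f (C + κ) (ρ - p0 / κ) y w := by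
  have hprop : ProperSpace E := FiniteDimensional.proper ℝ E
  set A := C + κ with hA
  have hA0 : 0 < A := by positivity
  have hρ : 0 < ρ := by
    by_contra hcon
    push Not at hcon
    nlinarith
  have hxmem : x ∈ Metric.closedBall x ρ := Metric.mem_closedBall_self hρ.le
  have hex : ∀ p : E, ∃ y ∈ Metric.closedBall x ρ, ∀ z ∈ Metric.closedBall x ρ,
      Fp f x (v + p) A z ≤ Fp f x (v + p) A y := by
    intro p
    have hc : Continuous fun z => Fp f x (v + p) A z :=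
      (cont_Fp hfc x A).comp (by fun_prop : Continuous fun z : E => (v + p, z))
    obtain ⟨y, hy, hmax⟩ := (isCompact_closedBall x ρ).exists_isMaxOn ⟨x, hxmem⟩ hc.continuousOn
    exact ⟨y, hy, fun z hz => hmax hz⟩
  choose m hm1 hm2 using hex
  have hlin : ∀ p p' z : E, Fp f x (v + p) A z = Fp f x (v + p') A z - inner ℝ (p - p') (z - x) := by
    intro p p' z
    unfold Fp
    rw [inner_add_left, inner_add_left, inner_sub_left]
    ring
  set Φ : E → ℝ := fun p => Fp f x (v + p) A (m p) with hΦ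
  have hΦlow : ∀ p p' : E, Φ p' - inner ℝ (p - p') (m p' - x) ≤ Φ p := by
    intro p p'
    have h1 := hm2 p (m p') (hm1 p')
    rw [hlin p p' (m p')] at h1
    exact h1
  have hlip : ∀ p p' : E, Φ p' - Φ p ≤ ρ * ‖p' - p‖ := by
    intro p p'
    have h1 := hΦlow p p'
    have h2 := abs_real_inner_le_norm (p - p') (m p' - x)
    have h3 := le_abs_self (inner ℝ (p - p') (m p' - x))
    have h4 : ‖m p' - x‖ ≤ ρ := by rw [← mem_closedBall_iff_norm]; exact hm1 p'
    have h5 : ‖p - p'‖ * ‖m p' - x‖ ≤ ‖p - p'‖ * ρ := mul_le_mul_of_nonneg_left h4 (norm_nonneg _)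
    rw [norm_sub_rev p' p]
    linarith
  have hΦc : Continuous Φ := by
    have : LipschitzWith ⟨ρ, hρ.le⟩ Φ := by
      refine LipschitzWith.of_dist_le_mul fun p p' => ?_
      rw [Real.dist_eq, dist_eq_norm, abs_le]
      constructor
      · have := hlip p p'
        rw [norm_sub_rev p' p] at this
        change -(ρ * ‖p - p'‖) ≤ _
        linarith
      · exact hlip p' p
    exact this.continuous
  intro y hy
  have hy4 : 4 * A * ‖y - x‖ < p0 := by
    rw [lt_div_iff₀ (by positivity)] at hy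
    linarith
  obtain ⟨p1, hp1m, hp1min⟩ := (isCompact_closedBall (0 : E) p0).exists_isMinOn
    ⟨0, Metric.mem_closedBall_self hp0.le⟩
    (show ContinuousOn (fun p => Φ p + inner ℝ p (y - x)) _ from
      (hΦc.add (by fun_prop)).continuousOn)
  have hp1le : ‖p1‖ ≤ p0 := by rwa [mem_closedBall_zero_iff] at hp1m
  have hmin : ∀ p : E, ‖p‖ ≤ p0 → Φ p1 + inner ℝ p1 (y - x) ≤ Φ p + inner ℝ p (y - x) := by
    intro p hp
    exact hp1min (by rwa [mem_closedBall_zero_iff] : p ∈ Metric.closedBall (0 : E) p0)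
  -- growth
  have hgap0 := h.nonneg hf hC hρ
  have hΦ0 : Φ 0 ≤ f x := by
    have h1 := h (m 0 - x) (by rw [← mem_closedBall_iff_norm]; exact hm1 0)
    unfold gap at h1
    rw [add_sub_cancel] at h1
    have h2 : Φ 0 = f (m 0) - inner ℝ v (m 0 - x) - A * ‖m 0 - x‖ ^ 2 := by
      rw [hΦ]; simp only [Fp, add_zero]
    rw [h2, hA]
    nlinarith [mul_nonneg hκ.le (sq_nonneg ‖m 0 - x‖)]
  have hΦp : f x + ‖p1‖ ^ 2 / (4 * A) ≤ Φ p1 := by
    have hn : ‖(-(1 / (2 * A))) • p1‖ = ‖p1‖ / (2 * A) := by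
      rw [norm_smul, norm_neg, Real.norm_eq_abs, abs_of_pos (by positivity)]
      ring
    have hle : ‖p1‖ / (2 * A) ≤ ρ := by
      rw [div_le_iff₀ (by positivity)]
      have : κ ≤ A := by rw [hA]; linarith
      nlinarith
    have h1 := hm2 p1 (x + (-(1 / (2 * A))) • p1) (by
      rw [mem_closedBall_iff_norm, add_sub_cancel_left, hn]; exact hle)
    have h2 := hgap0 ((-(1 / (2 * A))) • p1)
    unfold gap at h2
    have h3 : Φ p1 = Fp f x (v + p1) A (m p1) := rfl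
    rw [← h3] at h1
    unfold Fp at h1
    rw [add_sub_cancel_left, hn, inner_add_left, real_inner_smul_right p1 p1, real_inner_self_eq_norm_sq] at h1
    have h4 : -(-(1 / (2 * A)) * ‖p1‖ ^ 2) - A * (‖p1‖ / (2 * A)) ^ 2 = ‖p1‖ ^ 2 / (4 * A) := by
      field_simp
      ring
    linarith
  have hp1lt : ‖p1‖ < p0 := by
    have h1 := hmin 0 (by rw [norm_zero]; exact hp0.le)
    rw [inner_zero_left, add_zero] at h1
    have h2 := abs_real_inner_le_norm p1 (y - x)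
    have h3 := neg_abs_le (inner ℝ p1 (y - x))
    have h4 : ‖p1‖ ^ 2 / (4 * A) ≤ ‖p1‖ * ‖y - x‖ := by linarith
    rw [div_le_iff₀ (by positivity)] at h4
    rcases eq_or_lt_of_le (norm_nonneg p1) with h5 | h5
    · rw [← h5]; exact hp0
    · have h6 : ‖p1‖ * ‖p1‖ ≤ ‖p1‖ * (‖y - x‖ * (4 * A)) := by nlinarith
      have h7 := le_of_mul_le_mul_left h6 h5
      linarith
  -- the maximiser is y
  have hy1 : y = m p1 := by
    by_contra hne
    set u := y - m p1 with hu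
    have hu0 : 0 < ‖u‖ := norm_pos_iff.2 (sub_ne_zero.2 hne)
    set e0 : ℝ := (p0 - ‖p1‖) / ‖u‖ with he0
    have he0p : 0 < e0 := div_pos (by linarith) hu0
    set e : ℕ → ℝ := fun n => e0 * (1 / ((n : ℝ) + 1)) with he
    have hepos : ∀ n, 0 < e n := fun n => by rw [he]; positivity
    have hele : ∀ n, e n ≤ e0 := fun n => by
      have h1 : 1 / ((n : ℝ) + 1) ≤ 1 := by
        rw [div_le_one (by positivity)]
        have : (0 : ℝ) ≤ n := Nat.cast_nonneg n
        linarith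
      rw [he]
      exact mul_le_of_le_one_right he0p.le h1
    have hetend : Tendsto e atTop (𝓝 0) := by
      have := (tendsto_one_div_add_atTop_nhds_zero_nat (𝕜 := ℝ)).const_mul e0
      rwa [mul_zero] at this
    set q : ℕ → E := fun n => p1 - e n • u with hq
    have hqle : ∀ n, ‖q n‖ ≤ p0 := by
      intro n
      calc ‖q n‖ ≤ ‖p1‖ + ‖e n • u‖ := norm_sub_le _ _
        _ = ‖p1‖ + e n * ‖u‖ := by rw [norm_smul, Real.norm_eq_abs, abs_of_pos (hepos n)]
        _ ≤ ‖p1‖ + e0 * ‖u‖ := by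
          have := mul_le_mul_of_nonneg_right (hele n) hu0.le
          linarith
        _ = p0 := by rw [he0]; field_simp; ring
    have hqtend : Tendsto q atTop (𝓝 p1) := by
      have h1 : Tendsto (fun n => p1 - e n • u) atTop (𝓝 (p1 - (0 : ℝ) • u)) :=
        tendsto_const_nhds.sub (hetend.smul_const u)
      rwa [zero_smul, sub_zero] at h1
    have hle0 : ∀ n, inner ℝ u (y - m (q n)) ≤ 0 := by
      intro n
      have h1 := hmin (q n) (hqle n)
      have h2 := hΦlow p1 (q n)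
      have h3 : p1 - q n = e n • u := by rw [hq]; simp
      have h4 : inner ℝ (q n) (y - x) = inner ℝ p1 (y - x) - e n * inner ℝ u (y - x) := by
        rw [hq, inner_sub_left, real_inner_smul_left]
      rw [h3, real_inner_smul_left] at h2
      have h5 : inner ℝ u (y - m (q n)) = inner ℝ u (y - x) - inner ℝ u (m (q n) - x) := by
        rw [← inner_sub_right]; congr 1; abel
      have h6 : e n * inner ℝ u (y - m (q n)) ≤ e n * 0 := by
        rw [h5, mul_zero]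
        nlinarith
      exact le_of_mul_le_mul_left h6 (hepos n)
    obtain ⟨z, hz, φ, hφ, hφt⟩ := (isCompact_closedBall x ρ).tendsto_subseq (fun n => hm1 (q n))
    have hzmax : ∀ z' ∈ Metric.closedBall x ρ, Fp f x (v + p1) A z' ≤ Fp f x (v + p1) A z := by
      intro z' hz'
      have h1 : Tendsto (fun n => Fp f x (v + q (φ n)) A z') atTop (𝓝 (Fp f x (v + p1) A z')) := by
        have h2 : Tendsto (fun n => ((v + q (φ n), z') : E × E)) atTop (𝓝 (v + p1, z')) :=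
          ((hqtend.comp hφ.tendsto_atTop).const_add v).prodMk_nhds tendsto_const_nhds
        exact ((cont_Fp hfc x A).tendsto (v + p1, z')).comp h2
      have h3 : Tendsto (fun n => Fp f x (v + q (φ n)) A (m (q (φ n)))) atTop (𝓝 (Fp f x (v + p1) A z)) := by
        have h2 : Tendsto (fun n => ((v + q (φ n), m (q (φ n))) : E × E)) atTop (𝓝 (v + p1, z)) :=
          ((hqtend.comp hφ.tendsto_atTop).const_add v).prodMk_nhds hφt
        exact ((cont_Fp hfc x A).tendsto (v + p1, z)).comp h2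
      exact le_of_tendsto_of_tendsto' h1 h3 fun n => hm2 (q (φ n)) z' hz'
    have hzeq : z = m p1 := huniq p1 hp1le z hz (m p1) (hm1 p1) hzmax (hm2 p1)
    have hlim : Tendsto (fun n => inner ℝ u (y - m (q (φ n)))) atTop (𝓝 (inner ℝ u (y - z))) :=
      Tendsto.inner tendsto_const_nhds (hφt.const_sub y)
    have hfin : inner ℝ u (y - z) ≤ 0 := le_of_tendsto' hlim fun n => hle0 (φ n)
    rw [hzeq, ← hu, real_inner_self_eq_norm_sq] at hfin
    have := pow_pos hu0 2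
    linarith
  have hnear : κ * ‖m p1 - x‖ ≤ ‖p1‖ := near h (hm1 p1) (hm2 p1 x hxmem)
  have hle : ‖m p1 - x‖ ≤ p0 / κ := by
    rw [le_div_iff₀ hκ]
    linarith
  rw [hy1]
  exact ⟨_, (touch (hm1 p1) (hm2 p1)).mono le_rfl (by linarith)⟩

/-- If all points of a ball are touched and the function is not affine there, it bends at some point. -/
lemma endI {f : E → ℝ} (hf : ConvexOn ℝ univ f) (hfc : Continuous f) {A ρ δ : ℝ} (hA : 0 ≤ A) (hρ : 0 < ρ)
    (hδ : 0 < δ) {x : E} (hall : ∀ y : E, ‖y - x‖ < δ → ∃ w : E, Tch f A ρ y w)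
    (hna : ∀ (v : E) (c : ℝ), ∃ h ∈ Metric.ball x δ, f h ≠ c + inner ℝ h v) :
    ∃ y ∈ Metric.ball x δ, ∃ w : E, Tch f A ρ y w ∧ ∃ c : ℝ, 0 < c ∧ ∀ s : ℝ, 0 < s →
      ∃ u : E, 0 < ‖u‖ ∧ ‖u‖ < s ∧ c * ‖u‖ ^ 2 ≤ gap f y w u := by
  obtain ⟨v, hv⟩ := hall x (by rw [sub_self, norm_zero]; exact hδ)
  have h0 := hv.nonneg hf hA hρ
  obtain ⟨h, hh, hne⟩ := hna v (f x - inner ℝ x v)
  obtain ⟨r, hr⟩ : ∃ r : E, r = h - x := ⟨_, rfl⟩
  have hxr : x + r = h := by rw [hr]; abel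
  have hrδ : ‖r‖ < δ := by rw [hr, ← dist_eq_norm]; exact hh
  have hgr : 0 < gap f x v r := by
    refine lt_of_le_of_ne (h0 r) fun h1 => hne ?_
    unfold gap at h1
    rw [hxr, hr, inner_sub_right, real_inner_comm h v, real_inner_comm x v] at h1
    linarith
  have hgr' := h0 (-r)
  have hr0 : 0 < ‖r‖ := by
    rw [norm_pos_iff]
    intro h1
    rw [h1] at hgr
    unfold gap at hgr
    simp at hgr
  unfold gap at hgr hgr'
  rw [inner_neg_right] at hgr'
  set α : ℝ := (f (x + r) - f (x + -r)) / 2 with hα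
  set ε : ℝ := ((f (x + r) + f (x + -r)) / 2 - f x) / 2 with hε
  have hε0 : 0 < ε := by rw [hε]; linarith
  set G : ℝ → ℝ := fun t => f (x + t • r) - α * t - ε * t ^ 2 with hG
  have hGc : Continuous G := by rw [hG]; fun_prop
  obtain ⟨t, ht, htmin⟩ := (isCompact_Icc (a := (-1 : ℝ)) (b := 1)).exists_isMinOn ⟨0, by norm_num⟩ hGc.continuousOn
  have hmin : ∀ s ∈ Icc (-1 : ℝ) 1, G t ≤ G s := fun s hs => htmin hs
  have hG0 : G 0 = f x := by rw [hG]; simp
  have hG1 : G 1 = f x + ε := by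
    have : G 1 = f (x + r) - α - ε := by rw [hG]; simp
    rw [this, hα, hε]; ring
  have hG1' : G (-1) = f x + ε := by
    have : G (-1) = f (x + -r) + α - ε := by rw [hG]; simp
    rw [this, hα, hε]; ring
  have hm0 := hmin 0 (by norm_num)
  have htabs : |t| < 1 := by
    rw [abs_lt]
    constructor
    · refine lt_of_le_of_ne ht.1 fun h1 => ?_
      rw [← h1] at hm0
      linarith
    · refine lt_of_le_of_ne ht.2 fun h1 => ?_
      rw [h1] at hm0
      linarith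
  have hyx : ‖x + t • r - x‖ < δ := by
    rw [add_sub_cancel_left, norm_smul, Real.norm_eq_abs]
    have : |t| * ‖r‖ ≤ 1 * ‖r‖ := mul_le_mul_of_nonneg_right htabs.le hr0.le
    linarith
  obtain ⟨w, hw⟩ := hall (x + t • r) hyx
  refine ⟨x + t • r, by rw [mem_ball_iff_norm]; exact hyx, w, hw, ε / ‖r‖ ^ 2, by positivity, fun s hs => ?_⟩
  set τ : ℝ := min (1 - |t|) (s / (2 * ‖r‖)) with hτ
  have hτ0 : 0 < τ := by rw [hτ]; exact lt_min (by linarith) (by positivity)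
  have hτ1 : τ ≤ 1 - |t| := min_le_left _ _
  have hτs : τ * ‖r‖ < s := by
    have h1 : τ ≤ s / (2 * ‖r‖) := min_le_right _ _
    rw [le_div_iff₀ (by positivity)] at h1
    nlinarith
  have ht1 := neg_abs_le t
  have ht2 := le_abs_self t
  have h1 := hmin (t + τ) ⟨by linarith, by linarith⟩
  have h2 := hmin (t - τ) ⟨by linarith, by linarith⟩
  have e1 : x + (t + τ) • r = x + t • r + τ • r := by module
  have e2 : x + (t - τ) • r = x + t • r + -(τ • r) := by module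
  rw [hG] at h1 h2
  simp only [e1, e2] at h1 h2
  have hnorm : ‖τ • r‖ = τ * ‖r‖ := by rw [norm_smul, Real.norm_eq_abs, abs_of_pos hτ0]
  have hc : ε / ‖r‖ ^ 2 * (τ * ‖r‖) ^ 2 = ε * τ ^ 2 := by field_simp
  rcases le_total (ε * τ ^ 2) (gap f (x + t • r) w (τ • r)) with h3 | h3
  · exact ⟨τ • r, by rw [hnorm]; positivity, by rw [hnorm]; exact hτs, by rw [hnorm, hc]; exact h3⟩
  · refine ⟨-(τ • r), by rw [norm_neg, hnorm]; positivity, by rw [norm_neg, hnorm]; exact hτs, ?_⟩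
    rw [norm_neg, hnorm, hc]
    unfold gap at h3 ⊢
    rw [inner_neg_right]
    nlinarith

/-- One step: nearby there is a touched point with a good small scale, unless the conclusion already holds. -/
lemma step [FiniteDimensional ℝ E] {f : E → ℝ} (hf : ConvexOn ℝ univ f) (hfc : Continuous f)
    (hna : ∀ U : Set E, IsOpen U → U.Nonempty → ∀ (v : E) (c : ℝ), ∃ h ∈ U, f h ≠ c + inner ℝ h v)
    {x0 : E} {R : ℝ}
    (H : ¬ ∃ h ∈ Metric.ball x0 R, ∃ (v : E) (C ρ c : ℝ), 0 < C ∧ 0 < ρ ∧ 0 < c ∧ Tch f C ρ h v ∧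
      ∀ s : ℝ, 0 < s → ∃ u : E, 0 < ‖u‖ ∧ ‖u‖ < s ∧ c * ‖u‖ ^ 2 ≤ gap f h v u)
    {x v : E} {C κ ρ ρ' η : ℝ} (hx : x ∈ Metric.ball x0 R) (hC : 0 ≤ C) (hκ : 0 < κ) (hρ : 0 < ρ)
    (hρ' : ρ' < ρ) (hη : 0 < η) (h : Tch f C ρ x v) :
    ∃ y ∈ Metric.ball x0 R, ∃ w r : E, ‖y - x‖ < η ∧ ‖w - v‖ < η ∧ Tch f (C + κ) ρ' y w ∧
      0 < ‖r‖ ∧ ‖r‖ < η ∧ gap f y w r = (C + κ) * ‖r‖ ^ 2 := by
  have hxR : ‖x - x0‖ < R := by rwa [mem_ball_iff_norm] at hx
  set A := C + κ with hA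
  have hA0 : 0 < A := by positivity
  obtain ⟨τ, hτ⟩ : ∃ τ : ℝ, τ = min (ρ - ρ') (min (ρ / 2) (min ((R - ‖x - x0‖) / 2)
    (η / (2 * (κ + 2 * A + 2))))) := ⟨_, rfl⟩
  have hτ0 : 0 < τ := by
    rw [hτ]
    refine lt_min (by linarith) (lt_min (by linarith) (lt_min (by linarith) (by positivity)))
  have hτ1 : τ ≤ ρ - ρ' := by rw [hτ]; exact min_le_left _ _
  have hτ2 : τ ≤ ρ / 2 := by rw [hτ]; exact (min_le_right _ _).trans (min_le_left _ _)
  have hτ3 : τ ≤ (R - ‖x - x0‖) / 2 := by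
    rw [hτ]; exact (min_le_right _ _).trans ((min_le_right _ _).trans (min_le_left _ _))
  have hτ4 : (κ + 2 * A + 2) * τ ≤ η / 2 := by
    have : τ ≤ η / (2 * (κ + 2 * A + 2)) := by
      rw [hτ]; exact (min_le_right _ _).trans ((min_le_right _ _).trans (min_le_right _ _))
    rw [le_div_iff₀ (by positivity)] at this
    linarith
  have hκτ : 0 < κ * τ := by positivity
  have hAτ : 0 < A * τ := by positivity
  have hdiv : κ * τ / κ = τ := by field_simp
  by_cases huniq : ∀ p : E, ‖p‖ ≤ κ * τ → ∀ y ∈ Metric.closedBall x ρ, ∀ z ∈ Metric.closedBall x ρ,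
      (∀ z' ∈ Metric.closedBall x ρ, Fp f x (v + p) A z' ≤ Fp f x (v + p) A y) →
      (∀ z' ∈ Metric.closedBall x ρ, Fp f x (v + p) A z' ≤ Fp f x (v + p) A z) → y = z
  · exfalso
    have h1 := caseI hf hfc hC hκ hκτ (by nlinarith) h huniq
    rw [hdiv] at h1
    obtain ⟨δ, hδ⟩ : ∃ δ : ℝ, δ = min (κ * τ / (4 * A)) (R - ‖x - x0‖) := ⟨_, rfl⟩
    have hδ0 : 0 < δ := by rw [hδ]; exact lt_min (by positivity) (by linarith)
    have hδ1 : δ ≤ κ * τ / (4 * A) := by rw [hδ]; exact min_le_left _ _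
    have hδ2 : δ ≤ R - ‖x - x0‖ := by rw [hδ]; exact min_le_right _ _
    obtain ⟨y, hy, w, hw, c, hc, hs⟩ := endI (ρ := ρ - τ) hf hfc hA0.le (by linarith) hδ0
      (fun y hy => h1 y (lt_of_lt_of_le hy hδ1))
      (fun v c => hna (Metric.ball x δ) Metric.isOpen_ball ⟨x, Metric.mem_ball_self hδ0⟩ v c)
    refine H ⟨y, ?_, w, A, ρ - τ, c, hA0, by linarith, hc, hw, hs⟩
    rw [mem_ball_iff_norm] at hy ⊢
    calc ‖y - x0‖ = ‖(y - x) + (x - x0)‖ := by congr 1; abel
      _ ≤ ‖y - x‖ + ‖x - x0‖ := norm_add_le _ _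
      _ < R := by linarith
  · push Not at huniq
    obtain ⟨p, hp, y, hy, z, hz, hymax, hzmax, hne⟩ := huniq
    have hxm : x ∈ Metric.closedBall x ρ := Metric.mem_closedBall_self hρ.le
    have hy1 := near h hy (hymax x hxm)
    have hz1 := near h hz (hzmax x hxm)
    have hyτ : ‖y - x‖ ≤ τ := le_of_mul_le_mul_left (hy1.trans hp) hκ
    have hzτ : ‖z - x‖ ≤ τ := le_of_mul_le_mul_left (hz1.trans hp) hκ
    have htouch := touch hy hymax
    refine ⟨y, ?_, v + p + (2 * A) • (y - x), z - y, ?_, ?_, htouch.mono le_rfl (by linarith), ?_, ?_,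
      two_max (le_antisymm (hzmax y hy) (hymax z hz))⟩
    · rw [mem_ball_iff_norm]
      calc ‖y - x0‖ = ‖(y - x) + (x - x0)‖ := by congr 1; abel
        _ ≤ ‖y - x‖ + ‖x - x0‖ := norm_add_le _ _
        _ < R := by linarith
    · linarith
    · calc ‖v + p + (2 * A) • (y - x) - v‖ = ‖p + (2 * A) • (y - x)‖ := by congr 1; abel
        _ ≤ ‖p‖ + ‖(2 * A) • (y - x)‖ := norm_add_le _ _
        _ = ‖p‖ + 2 * A * ‖y - x‖ := by
          rw [norm_smul, Real.norm_eq_abs, abs_of_pos (by positivity)]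
        _ ≤ κ * τ + 2 * A * τ := add_le_add hp (mul_le_mul_of_nonneg_left hyτ (by positivity))
        _ < η := by linarith
    · exact norm_pos_iff.2 (sub_ne_zero.2 (Ne.symm hne))
    · calc ‖z - y‖ = ‖(z - x) - (y - x)‖ := by congr 1; abel
        _ ≤ ‖z - x‖ + ‖y - x‖ := norm_sub_le _ _
        _ < η := by linarith

/-- Every ball contains a touched point. -/
lemma start [FiniteDimensional ℝ E] {f : E → ℝ} (hfc : Continuous f) (x0 : E) {R : ℝ} (hR : 0 < R) :
    ∃ y ∈ Metric.ball x0 R, ∃ (w : E) (C ρ : ℝ), 0 < C ∧ 0 < ρ ∧ Tch f C ρ y w := by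
  have hprop : ProperSpace E := FiniteDimensional.proper ℝ E
  set a : ℝ := R / 2 with ha
  have ha0 : 0 < a := by positivity
  have hxm : x0 ∈ Metric.closedBall x0 a := Metric.mem_closedBall_self ha0.le
  obtain ⟨y1, hy1, hM⟩ := (isCompact_closedBall x0 a).exists_isMaxOn ⟨x0, hxm⟩ hfc.continuousOn
  have hM' : ∀ z ∈ Metric.closedBall x0 a, f z ≤ f y1 := fun z hz => hM hz
  set C : ℝ := (f y1 - f x0 + 1) / a ^ 2 with hC
  have hC0 : 0 < C := by
    have := hM' x0 hxm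
    rw [hC]
    exact div_pos (by linarith) (by positivity)
  have hc : Continuous fun z => Fp f x0 0 C z :=
    (cont_Fp hfc x0 C).comp (by fun_prop : Continuous fun z : E => ((0 : E), z))
  obtain ⟨y, hy, hymax⟩ := (isCompact_closedBall x0 a).exists_isMaxOn ⟨x0, hxm⟩ hc.continuousOn
  have hymax' : ∀ z ∈ Metric.closedBall x0 a, Fp f x0 0 C z ≤ Fp f x0 0 C y := fun z hz => hymax hz
  have hlt : ‖y - x0‖ < a := by
    have h1 := hymax' x0 hxm
    have h2 := hM' y hy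
    unfold Fp at h1
    rw [inner_zero_left, inner_zero_left, sub_self, norm_zero] at h1
    have h3 : C * ‖y - x0‖ ^ 2 < C * a ^ 2 := by
      have h4 : C * a ^ 2 = f y1 - f x0 + 1 := by rw [hC]; field_simp
      rw [h4]
      linarith
    have h5 := lt_of_mul_lt_mul_left h3 hC0.le
    exact lt_of_pow_lt_pow_left₀ 2 ha0.le h5
  refine ⟨y, ?_, _, C, a - ‖y - x0‖, hC0, by linarith, touch hy hymax'⟩
  rw [mem_ball_iff_norm]
  linarith

/-- The theorem in terms of `Tch` and `gap`. -/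
theorem k2aux [FiniteDimensional ℝ E] {f : E → ℝ} (hf : ConvexOn ℝ univ f)
    (hna : ∀ U : Set E, IsOpen U → U.Nonempty → ∀ (v : E) (c : ℝ), ∃ h ∈ U, f h ≠ c + inner ℝ h v)
    (x0 : E) {R : ℝ} (hR : 0 < R) :
    ∃ h ∈ Metric.ball x0 R, ∃ (v : E) (C ρ c : ℝ), 0 < C ∧ 0 < ρ ∧ 0 < c ∧ Tch f C ρ h v ∧
      ∀ s : ℝ, 0 < s → ∃ u : E, 0 < ‖u‖ ∧ ‖u‖ < s ∧ c * ‖u‖ ^ 2 ≤ gap f h v u := by
  have hprop : ProperSpace E := FiniteDimensional.proper ℝ E
  have hfc : Continuous f := continuousOn_univ.1 (hf.continuousOn isOpen_univ)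
  by_contra H
  obtain ⟨y0, hy0, w0, C, ρ, hC, hρ, ht0⟩ := start hfc x0 hR
  set O : Set (E × E × ℝ) := {z | z.1 ∈ Metric.ball x0 R ∧ z.2.2 < 1} with hO
  set K : Set (E × E × ℝ) := {z | 0 ≤ z.2.2 ∧ ∀ r : E, ρ * (1 - z.2.2 / 2) ≤ ‖r‖ ∨
    gap f z.1 z.2.1 r ≤ (C + z.2.2) * ‖r‖ ^ 2} with hK
  have hOo : IsOpen O := by
    rw [hO]
    exact (Metric.isOpen_ball.preimage continuous_fst).inter
      (isOpen_lt (continuous_snd.comp continuous_snd) continuous_const)
  have hKc : IsClosed K := by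
    have e1 : K = {z | 0 ≤ z.2.2} ∩ ⋂ r : E, ({z | ρ * (1 - z.2.2 / 2) ≤ ‖r‖} ∪
        {z : E × E × ℝ | gap f z.1 z.2.1 r ≤ (C + z.2.2) * ‖r‖ ^ 2}) := by
      ext z
      simp [hK]
    rw [e1]
    refine (isClosed_le continuous_const (by fun_prop)).inter (isClosed_iInter fun r => ?_)
    refine (isClosed_le (by fun_prop) continuous_const).union (isClosed_le ?_ (by fun_prop))
    exact (cont_gap hfc r).comp (by fun_prop : Continuous fun z : E × E × ℝ => (z.1, z.2.1))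
  have hlc : IsLocallyClosed (O ∩ K) := ⟨O, K, hOo, hKc, rfl⟩
  have hlcs : LocallyCompactSpace (O ∩ K : Set (E × E × ℝ)) := hlc.locallyCompactSpace
  have hne : Nonempty (O ∩ K : Set (E × E × ℝ)) := by
    refine ⟨⟨(y0, w0, 0), ⟨hy0, by norm_num⟩, le_rfl, fun r => ?_⟩⟩
    simp only [zero_div, sub_zero, mul_one, add_zero]
    rcases le_total ρ ‖r‖ with h1 | h1
    · exact Or.inl h1
    · exact Or.inr (ht0 r h1)
  set V : ℕ → Set (O ∩ K : Set (E × E × ℝ)) := fun j =>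
    ⋃ r : {r : E // 0 < ‖r‖ ∧ ‖r‖ < 1 / ((j : ℝ) + 1)},
      {z : (O ∩ K : Set (E × E × ℝ)) | C / 2 * ‖(r : E)‖ ^ 2 < gap f z.1.1 z.1.2.1 r} with hV
  have hVo : ∀ j, IsOpen (V j) := by
    intro j
    rw [hV]
    refine isOpen_iUnion fun r => isOpen_lt continuous_const ?_
    exact (cont_gap hfc r).comp
      (by fun_prop : Continuous fun z : (O ∩ K : Set (E × E × ℝ)) => (z.1.1, z.1.2.1))
  have hVd : ∀ j, Dense (V j) := by
    intro j
    rw [Metric.dense_iff]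
    rintro ⟨⟨x, v, t⟩, ⟨hx, ht1⟩, ht2, hT⟩ η hη
    simp only at hx ht1 ht2 hT
    set κ : ℝ := min (η / 2) ((1 - t) / 2) with hκ
    have hκ0 : 0 < κ := by rw [hκ]; exact lt_min (by linarith) (by linarith)
    have hκ1 : κ ≤ η / 2 := min_le_left _ _
    have hκ2 : κ ≤ (1 - t) / 2 := min_le_right _ _
    have hTx : Tch f (C + t) (ρ * (1 - t / 2 - κ / 4)) x v := by
      intro r hr
      rcases hT r with h1 | h1
      · exfalso
        nlinarith [mul_pos hρ hκ0]
      · exact h1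
    obtain ⟨y, hy, w, r, h1, h2, h3, h4, h5, h6⟩ := step (η := min η (1 / ((j : ℝ) + 1)))
      (ρ' := ρ * (1 - (t + κ) / 2)) hf hfc hna H hx
      (show 0 ≤ C + t by linarith) hκ0 (mul_pos hρ (by linarith)) (by nlinarith [mul_pos hρ hκ0])
      (lt_min hη (by positivity)) hTx
    have hmem : ((y, w, t + κ) : E × E × ℝ) ∈ O ∩ K := by
      refine ⟨⟨hy, by change t + κ < 1; linarith⟩, by change 0 ≤ t + κ; linarith, fun r' => ?_⟩
      change ρ * (1 - (t + κ) / 2) ≤ ‖r'‖ ∨ gap f y w r' ≤ (C + (t + κ)) * ‖r'‖ ^ 2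
      rcases le_total (ρ * (1 - (t + κ) / 2)) ‖r'‖ with h7 | h7
      · exact Or.inl h7
      · right
        have := h3 r' h7
        rwa [add_assoc] at this
    refine ⟨⟨(y, w, t + κ), hmem⟩, ?_, ?_⟩
    · rw [Metric.mem_ball, Subtype.dist_eq, Prod.dist_eq, Prod.dist_eq]
      refine max_lt ?_ (max_lt ?_ ?_)
      · rw [dist_eq_norm]; exact lt_of_lt_of_le h1 (min_le_left _ _)
      · rw [dist_eq_norm]; exact lt_of_lt_of_le h2 (min_le_left _ _)
      · change dist (t + κ) t < η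
        rw [Real.dist_eq, add_sub_cancel_left, abs_of_pos hκ0]
        linarith
    · rw [hV]
      refine mem_iUnion.2 ⟨⟨r, h4, lt_of_lt_of_le h5 (min_le_right _ _)⟩, ?_⟩
      change C / 2 * ‖r‖ ^ 2 < gap f y w r
      rw [h6]
      have := pow_pos h4 2
      nlinarith
  obtain ⟨z, hz⟩ := (dense_iInter_of_isOpen hVo hVd).nonempty
  obtain ⟨⟨x, v, t⟩, ⟨hx, ht1⟩, ht2, hT⟩ := z
  simp only at hx ht1 ht2 hT
  refine H ⟨x, hx, v, C + t, ρ / 2, C / 2, by linarith, by positivity, by positivity, ?_, ?_⟩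
  · intro r hr
    rcases hT r with h1 | h1
    · exfalso
      nlinarith
    · exact h1
  · intro s hs
    obtain ⟨j, hj⟩ := exists_nat_one_div_lt hs
    have h1 := mem_iInter.1 hz j
    rw [hV] at h1
    obtain ⟨r, hr⟩ := mem_iUnion.1 h1
    exact ⟨r.1, r.2.1, r.2.2.trans hj, le_of_lt hr⟩

/-- THEOREM K2. -/
theorem k2 [FiniteDimensional ℝ E] {f : E → ℝ} (hf : ConvexOn ℝ univ f)
    (hna : ∀ U : Set E, IsOpen U → U.Nonempty → ∀ (v : E) (c : ℝ), ∃ h ∈ U, f h ≠ c + inner ℝ h v)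
    (x0 : E) {R : ℝ} (hR : 0 < R) :
    ∃ h ∈ Metric.ball x0 R, ∃ (v : E) (C ρ c : ℝ), 0 < C ∧ 0 < ρ ∧ 0 < c ∧
      (∀ r : E, 0 ≤ f (h + r) - f h - inner ℝ v r) ∧
      (∀ r : E, ‖r‖ ≤ ρ → f (h + r) - f h - inner ℝ v r ≤ C * ‖r‖ ^ 2) ∧
      ∀ s : ℝ, 0 < s → ∃ u : E, 0 < ‖u‖ ∧ ‖u‖ < s ∧ c * ‖u‖ ^ 2 ≤ f (h + u) - f h - inner ℝ v u := by
  obtain ⟨h, hh, v, C, ρ, c, hC, hρ, hc, hT, hs⟩ := k2aux hf hna x0 hR
  exact ⟨h, hh, v, C, ρ, c, hC, hρ, hc, hT.nonneg hf hC.le hρ, hT, hs⟩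

end Pool.Agent.W_7d29a1_D2.KtwoA5
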