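import Pool.Agent.W_7d29a1_D2.Gen10
import Pool.Agent.W_7d29a1_h46u.StrU

/-!
The first inequality in power form, for the strong and for the lower wandering exponent.
-/

namespace Pool.Agent.W_7d29a1_D2

open MeasureTheory ProbabilityTheory Filter Topology Pool.Agent.W_MP_7d29a1_pr
  Pool.Agent.W_7d29a1_h46 Pool.Agent.W_7d29a1_h46u

variable {d : ℕ} {ρ : Measure ℝ} [IsProbabilityMeasure ρ]

/-- The set in the definition of the lower wandering exponent. -/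
def nuSetI {Ω : Type*} [MeasurableSpace Ω] (μ : Measure Ω) {d : ℕ} (β : ℝ)
    (ω : ℕ × Site d → Ω → ℝ) (h v : Vec d) : Set ℝ :=
  {a | 0 < a ∧ ∀ q : ℕ, ∃ᶠ n : ℕ in atTop,
    ∫ x, (1 - PolT β h (fun p => ω p x) (tube d n v ((n : ℝ) ^ a))) ∂μ ≤ (n : ℝ) ^ (-(q : ℝ))}

/-- The lower wandering exponent: the infimum of the `a > 0` such that for every `q` the expected
polymer probability of leaving the tube of radius `n ^ a` is at most `n ^ (-q)` for infinitely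
many `n`. -/
noncomputable def nuI {Ω : Type*} [MeasurableSpace Ω] (μ : Measure Ω) {d : ℕ} (β : ℝ)
    (ω : ℕ × Site d → Ω → ℝ) (h v : Vec d) : ℝ := sInf (nuSetI μ β ω h v)

/-- One scale: the mass outside of the tube. -/
theorem one10 (hd : 0 < d) (hρ : EM ρ) {β : ℝ} {h v : Vec d} {x : ℝ} (hx : 0 < x)
    (hF : Fl ρ β h x) {ε : ℝ} (hε : 0 < ε) (hε2 : x + ε < 1) (K : ℝ) (hK : 0 ≤ K) (q : ℕ) :
    ∃ δ > 0, ∃ C : ℝ, 0 ≤ C ∧ ∃ N : ℕ, ∀ n : ℕ, N ≤ n → ∀ t : ℝ, 0 < t → t < δ → ∀ g : ℝ, 0 ≤ g →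
      (∀ j : Fin d, lam ρ β (h + t • ej j) ≤ lam ρ β h + v j * t + g) →
      (∀ j : Fin d, lam ρ β (h + (-t) • ej j) ≤ lam ρ β h + v j * (-t) + g) →
      n * g ≤ K * (n : ℝ) ^ (x + ε) → ∀ r : ℝ, (n : ℝ) ^ (x + 3 * ε) ≤ t * r →
      ∫ η, (1 - PolT β h η (tube d n v r)) ∂(law d ρ) ≤ C * (n : ℝ) ^ (-(q : ℝ)) := by
  have hd0 : (0 : ℝ) < d := by exact_mod_cast hd
  obtain ⟨δ₁, hδ₁, C₁, hC₁, H₁⟩ := rateU hd hρ hx.le hF hε hε2
  obtain ⟨δ₂, hδ₂, C₂, hC₂, H₂⟩ := prob_good hd hρ hx.le hF hε q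
  set C' : ℝ := K + 3 + C₁ with hC'
  have hC'0 : 0 ≤ C' := by positivity
  obtain ⟨N, hN⟩ := eventually_atTop.1 (TubW_asym d hd C' hC'0 hx hε q)
  refine ⟨δ₂, hδ₂, C₂ + 4 * d, by positivity, max N 1, fun n hn t ht0 ht1 g hg hE1 hE2 hng r hr => ?_⟩
  have hn1' : 1 ≤ n := (le_max_right _ _).trans hn
  have hn1 : (1 : ℝ) ≤ n := by exact_mod_cast hn1'
  have hn0 : (0 : ℝ) < n := by linarith
  have hasym := hN n ((le_max_left _ _).trans hn)
  have hq0 : 0 ≤ (n : ℝ) ^ (-(q : ℝ)) := Real.rpow_nonneg hn0.le _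
  have hbad := H₂ n hn1' t (by rw [abs_of_pos ht0]; exact ht1)
  have hR := H₁ h (by simpa using hδ₁) n hn1'
  have hgt : g / t ^ 2 * t ^ 2 = g := by field_simp
  have hgt' : g / t ^ 2 * (-t) ^ 2 = g := by
    rw [neg_sq]
    exact hgt
  have hg0 : 0 ≤ g / t ^ 2 := by positivity
  -- the deterministic bound on the good event
  have hgood : ∀ η ∈ {η : Env d | GdU ρ β h t ((n : ℝ) ^ (x + ε)) n η},
      1 - PolT β h η (tube d n v r) ≤ 4 * d * (n : ℝ) ^ (-(q : ℝ)) := by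
    intro η hη
    have hη' : GdU ρ β h t ((n : ℝ) ^ (x + ε)) n η := hη
    refine (one_sub_le hd β h η n v (r := r) ht0).trans ?_
    set b : ℝ := Real.exp (n * g + 3 * (n : ℝ) ^ (x + ε) + C₁ * (n : ℝ) ^ (x + ε) - t * (r / d))
      with hb
    have h1 : ∀ i ∈ Finset.range (n + 1), ∑ j : Fin d,
        (Far β h η n i j v t (r / d) + Far β h η n i j v (-t) (r / d)) ≤ 2 * d * b := by
      intro i hi
      have hi' : i ≤ n := Nat.lt_succ_iff.1 (Finset.mem_range.1 hi)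
      have h2 : ∀ j ∈ (Finset.univ : Finset (Fin d)),
          Far β h η n i j v t (r / d) + Far β h η n i j v (-t) (r / d) ≤ 2 * b := by
        intro j _
        have a1 := TubV_far (w := r / d) (C := g / t ^ 2) hd hρ (abs_of_pos ht0) hg0 j
          (by rw [hgt]; exact hE1 j) hR (fun i hi => (hη'.side i hi j).1) hη'.mid hi'
        have a2 := TubV_far (w := r / d) (C := g / t ^ 2) hd hρ (s := -t)
          (by rw [abs_neg, abs_of_pos ht0]) hg0 j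
          (by rw [hgt']; exact hE2 j) hR
          (fun i hi => (hη'.side i hi j).2) hη'.mid hi'
        rw [hgt] at a1 a2
        rw [hb]
        linarith
      refine (Finset.sum_le_sum h2).trans ?_
      rw [Finset.sum_const, Finset.card_univ, Fintype.card_fin, nsmul_eq_mul]
      linarith
    refine (Finset.sum_le_sum h1).trans ?_
    rw [Finset.sum_const, Finset.card_range, nsmul_eq_mul]
    have h3 : b ≤ Real.exp (C' * (n : ℝ) ^ (x + ε) - (n : ℝ) ^ (x + 3 * ε) / d) := by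
      rw [hb]
      refine Real.exp_le_exp.2 ?_
      have h4 : (n : ℝ) ^ (x + 3 * ε) / d ≤ t * (r / d) := by
        rw [← mul_div_assoc]
        exact div_le_div_of_nonneg_right hr hd0.le
      rw [hC']
      linarith
    push_cast
    calc ((n : ℝ) + 1) * (2 * d * b) = 2 * d * ((n : ℝ) + 1) * b := by ring
      _ ≤ 2 * d * ((n : ℝ) + 1) *
          Real.exp (C' * (n : ℝ) ^ (x + ε) - (n : ℝ) ^ (x + 3 * ε) / d) :=
        mul_le_mul_of_nonneg_left h3 (by positivity)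
      _ ≤ _ := hasym
  have hmain := TubW_split (μ := law d ρ)
    (f := fun η => 1 - PolT β h η (tube d n v r))
    (fun η => by
      have := PolT_nonneg β h η (tube d n v r)
      linarith)
    (G := {η | GdU ρ β h t ((n : ℝ) ^ (x + ε)) n η}) (b := 4 * d * (n : ℝ) ^ (-(q : ℝ)))
    (by positivity) hgood
    (fun η => by
      have := PolT_le_one β h η (tube d n v r)
      linarith)
  have hset : ({η | GdU ρ β h t ((n : ℝ) ^ (x + ε)) n η} : Set (Env d))ᶜ =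
      {η | ¬ GdU ρ β h t ((n : ℝ) ^ (x + ε)) n η} := rfl
  rw [hset] at hmain
  refine hmain.trans ?_
  calc (law d ρ).real {η | ¬ GdU ρ β h t ((n : ℝ) ^ (x + ε)) n η} +
        4 * d * (n : ℝ) ^ (-(q : ℝ)) ≤ C₂ * (n : ℝ) ^ (-(q : ℝ)) +
        4 * d * (n : ℝ) ^ (-(q : ℝ)) := add_le_add hbad le_rfl
    _ = (C₂ + 4 * d) * (n : ℝ) ^ (-(q : ℝ)) := by ring

/-- Infinitely many scales give infinitely many lengths. -/
theorem freq10 (hd : 0 < d) (hρ : EM ρ) {β : ℝ} {h v : Vec d} {x : ℝ} (hx : 0 < x)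
    (hx1 : x < 1) (hF : Fl ρ β h x) {p : ℝ} (hp : 1 ≤ p)
    (hv : ∀ u : Vec d, lam ρ β h + inner ℝ v u ≤ lam ρ β (h + u))
    (hD : ∃ᶠ r : ℝ in 𝓝[>] 0, D10 (lam ρ β) h r ≤ r ^ p) {a : ℝ}
    (ha : x + (1 - x) / p < a) (q : ℕ) :
    ∃ᶠ n : ℕ in atTop,
      ∫ η, (1 - PolT β h η (tube d n v ((n : ℝ) ^ a))) ∂(law d ρ) ≤ (n : ℝ) ^ (-(q : ℝ)) := by
  have hp0 : 0 < p := by linarith
  have hLc := lam_convex (ρ := ρ) hd hρ β
  obtain ⟨ε, hε, hε1, hε2⟩ : ∃ ε : ℝ, 0 < ε ∧ x + (1 - x) / p + 4 * ε ≤ a ∧ x + ε < 1 := by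
    refine ⟨min ((a - (x + (1 - x) / p)) / 4) ((1 - x) / 2), lt_min (by linarith) (by linarith),
      ?_, ?_⟩
    · have := min_le_left ((a - (x + (1 - x) / p)) / 4) ((1 - x) / 2)
      linarith
    · have := min_le_right ((a - (x + (1 - x) / p)) / 4) ((1 - x) / 2)
      linarith
  obtain ⟨δ, hδ, C, hC0, N, H⟩ := one10 hd hρ (β := β) (h := h) (v := v) hx hF hε hε2 2
    (by norm_num) (q + 1)
  rw [frequently_atTop]
  intro M
  -- large lengths
  have hcast := tendsto_natCast_atTop_atTop (R := ℝ)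
  have e1 : ∀ᶠ n : ℕ in atTop, (1 : ℝ) ≤ (n : ℝ) ^ ε :=
    ((tendsto_rpow_atTop hε).comp hcast).eventually (eventually_ge_atTop _)
  obtain ⟨M', hM'⟩ := eventually_atTop.1 (e1.and ((eventually_ge_atTop (max N M)).and
    (hcast.eventually (eventually_ge_atTop (max C 1)))))
  set s : ℝ := p / (1 - x) with hs
  have hs0 : 0 < s := div_pos hp0 (by linarith)
  -- scales for which the length is at least `M'`
  have e2 : ∀ᶠ t : ℝ in 𝓝[>] 0, (M' : ℝ) ≤ t ^ (-s) := by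
    have h1 : Tendsto (fun t : ℝ => t ^ (-s)) (𝓝[>] 0) atTop :=
      tendsto_rpow_neg_nhdsGT_zero (by linarith)
    exact h1.eventually (eventually_ge_atTop _)
  have e3 : ∀ᶠ t : ℝ in 𝓝[>] 0, t ∈ Set.Ioo (0 : ℝ) (min δ 1) :=
    Ioo_mem_nhdsGT (lt_min hδ one_pos)
  obtain ⟨t, ht, hMt, ht0, htm⟩ := (hD.and_eventually (e2.and e3)).exists
  have htδ : t < δ := htm.trans_le (min_le_left _ _)
  have ht1 : t < 1 := htm.trans_le (min_le_right _ _)
  set n : ℕ := ⌈t ^ (-s)⌉₊ with hn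
  have hnge : t ^ (-s) ≤ n := Nat.le_ceil _
  have hts1 : 1 ≤ t ^ (-s) := Real.one_le_rpow_of_pos_of_le_one_of_nonpos ht0 ht1.le (by linarith)
  have hnle : (n : ℝ) ≤ 2 * t ^ (-s) := by
    have := Nat.ceil_lt_add_one (show 0 ≤ t ^ (-s) by positivity)
    linarith
  have hnM' : M' ≤ n := by
    have h1 : (M' : ℝ) ≤ n := hMt.trans hnge
    exact_mod_cast h1
  obtain ⟨hnε, hnNM, hnC⟩ := hM' n hnM'
  have hn1 : (1 : ℝ) ≤ n := hts1.trans hnge
  have hn0 : (0 : ℝ) < n := by linarith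
  refine ⟨n, (le_max_right _ _).trans hnNM, ?_⟩
  -- the gap at the scale `t`
  have hg0 : 0 ≤ t ^ p := (Real.rpow_pos_of_pos ht0 p).le
  have hE1 : ∀ j : Fin d, lam ρ β (h + t • ej j) ≤ lam ρ β h + v j * t + t ^ p := fun j =>
    (D10_upper hLc hv t j).1.trans (by linarith)
  have hE2 : ∀ j : Fin d, lam ρ β (h + (-t) • ej j) ≤ lam ρ β h + v j * (-t) + t ^ p := fun j =>
    (D10_upper hLc hv t j).2.trans (by linarith)
  have h1x : 0 < 1 - x := by linarith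
  -- `t ^ p = (t ^ (-s)) ^ (-(1 - x))`
  have htp : t ^ p = (t ^ (-s)) ^ (-(1 - x)) := by
    rw [← Real.rpow_mul ht0.le]
    congr 1
    rw [hs]
    field_simp
  have hng : n * t ^ p ≤ 2 * (n : ℝ) ^ (x + ε) := by
    set y : ℝ := t ^ (-s) with hy
    have hy0 : 0 < y := by linarith
    have h2 : (n : ℝ) * t ^ p ≤ 2 * y * y ^ (-(1 - x)) := by
      rw [htp]
      exact mul_le_mul_of_nonneg_right hnle (Real.rpow_nonneg hy0.le _)
    have h3 : y * y ^ (-(1 - x)) = y ^ x := by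
      nth_rewrite 1 [← Real.rpow_one y]
      rw [← Real.rpow_add hy0]
      congr 1
      ring
    have h4 : y ^ x ≤ (n : ℝ) ^ x := Real.rpow_le_rpow hy0.le hnge hx.le
    have h5 : (n : ℝ) ^ x ≤ (n : ℝ) ^ (x + ε) :=
      Real.rpow_le_rpow_of_exponent_le hn1 (by linarith)
    calc (n : ℝ) * t ^ p ≤ 2 * y * y ^ (-(1 - x)) := h2
      _ = 2 * y ^ x := by rw [mul_assoc, h3]
      _ ≤ 2 * (n : ℝ) ^ (x + ε) := by linarith
  have htr : (n : ℝ) ^ (x + 3 * ε) ≤ t * (n : ℝ) ^ a := by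
    -- `t ≥ n ^ (-(1 - x) / p)`
    have h2 : (n : ℝ) ^ (-((1 - x) / p)) ≤ t := by
      have h3 : (n : ℝ) ^ (-((1 - x) / p)) ≤ (t ^ (-s)) ^ (-((1 - x) / p)) :=
        Real.rpow_le_rpow_of_nonpos (by positivity) hnge (by
          have : 0 ≤ (1 - x) / p := by positivity
          linarith)
      refine h3.trans (le_of_eq ?_)
      rw [← Real.rpow_mul ht0.le]
      have : -s * -((1 - x) / p) = 1 := by
        rw [hs]
        field_simp
      rw [this, Real.rpow_one]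
    have h4 : (n : ℝ) ^ (x + 3 * ε) ≤ (n : ℝ) ^ (-((1 - x) / p)) * (n : ℝ) ^ a := by
      rw [← Real.rpow_add hn0]
      exact Real.rpow_le_rpow_of_exponent_le hn1 (by linarith)
    exact h4.trans (mul_le_mul_of_nonneg_right h2 (Real.rpow_nonneg hn0.le _))
  have hfin := H n ((le_max_left _ _).trans hnNM) t ht0 htδ (t ^ p) hg0 hE1 hE2 hng _ htr
  refine hfin.trans ?_
  have h5 : (n : ℝ) ^ (-((q + 1 : ℕ) : ℝ)) = (n : ℝ) ^ (-(q : ℝ)) * (n : ℝ)⁻¹ := by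
    rw [← Real.rpow_neg_one, ← Real.rpow_add hn0]
    congr 1
    push_cast
    ring
  rw [h5]
  have h6 : C ≤ n := (le_max_left _ _).trans hnC
  have h7 : 0 ≤ (n : ℝ) ^ (-(q : ℝ)) := Real.rpow_nonneg hn0.le _
  calc C * ((n : ℝ) ^ (-(q : ℝ)) * (n : ℝ)⁻¹) = (C * (n : ℝ)⁻¹) * (n : ℝ) ^ (-(q : ℝ)) := by ring
    _ ≤ 1 * (n : ℝ) ^ (-(q : ℝ)) := by
      refine mul_le_mul_of_nonneg_right ?_ h7
      rw [← div_eq_mul_inv, div_le_one hn0]
      exact h6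
    _ = _ := one_mul _

variable {Ω : Type*} [MeasurableSpace Ω] {μ : Measure Ω} [IsProbabilityMeasure μ]
  {ω : ℕ × Site d → Ω → ℝ} {β : ℝ}

/-- Transfer. -/
theorem mem_nuSetI (hω : IID μ ρ ω) (h v : Vec d) (a : ℝ) :
    a ∈ nuSetI μ β ω h v ↔ 0 < a ∧ ∀ q : ℕ, ∃ᶠ n : ℕ in atTop,
      ∫ η, (1 - PolT β h η (tube d n v ((n : ℝ) ^ a))) ∂(law d ρ) ≤ (n : ℝ) ^ (-(q : ℝ)) := by
  unfold nuSetI
  have e1 : ∀ n : ℕ, ∫ y, (1 - PolT β h (fun p => ω p y) (tube d n v ((n : ℝ) ^ a))) ∂μ =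
      ∫ η, (1 - PolT β h η (tube d n v ((n : ℝ) ^ a))) ∂(law d ρ) := fun n =>
    StrA_int hω (F := fun η : Env d => 1 - PolT β h η (tube d n v ((n : ℝ) ^ a)))
      ((measurable_PolT β h _).const_sub 1)
  simp only [Set.mem_ofPred_eq, e1]

/-- The lower exponent is at most the strong one. -/
theorem nuI_le_nuS (hd : 0 < d) (ω : ℕ × Site d → Ω → ℝ) (β : ℝ) (h v : Vec d) :
    nuI μ β ω h v ≤ nuS μ β ω h v := by
  unfold nuI nuS
  refine csInf_le_csInf ⟨0, fun a ha => ha.1.le⟩ ⟨2, StrB_two_mem hd ω β h v⟩ ?_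
  rintro a ⟨ha, H⟩
  refine ⟨ha, fun q => ?_⟩
  obtain ⟨C, hC⟩ := H (q + 1)
  have hcast := tendsto_natCast_atTop_atTop (R := ℝ)
  refine Eventually.frequently ?_
  filter_upwards [hcast.eventually (eventually_ge_atTop C), eventually_ge_atTop 1] with n h1 h2
  have hn1 : (1 : ℝ) ≤ n := by exact_mod_cast h2
  have hn0 : (0 : ℝ) < n := by linarith
  refine (hC n h2).trans ?_
  have h5 : (n : ℝ) ^ (-((q + 1 : ℕ) : ℝ)) = (n : ℝ) ^ (-(q : ℝ)) * (n : ℝ)⁻¹ := by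
    rw [← Real.rpow_neg_one, ← Real.rpow_add hn0]
    congr 1
    push_cast
    ring
  rw [h5]
  have h7 : 0 ≤ (n : ℝ) ^ (-(q : ℝ)) := Real.rpow_nonneg hn0.le _
  calc C * ((n : ℝ) ^ (-(q : ℝ)) * (n : ℝ)⁻¹) = (C * (n : ℝ)⁻¹) * (n : ℝ) ^ (-(q : ℝ)) := by ring
    _ ≤ 1 * (n : ℝ) ^ (-(q : ℝ)) := by
      refine mul_le_mul_of_nonneg_right ?_ h7
      rw [← div_eq_mul_inv, div_le_one hn0]
      exact h1
    _ = _ := one_mul _

/-- The first inequality for the lower exponent, from infinitely many scales. -/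
theorem low10 (hd : 0 < d) (hω : IID μ ρ ω) (hρ : EM ρ) {h v : Vec d} {p : ℝ} (hp : 1 ≤ p)
    (hv : ∀ u : Vec d, lam ρ β h + inner ℝ v u ≤ lam ρ β (h + u))
    (hD : ∃ᶠ r : ℝ in 𝓝[>] 0, D10 (lam ρ β) h r ≤ r ^ p) :
    p * nuI μ β ω h v ≤ 1 + (p - 1) * chiS μ β ω h := by
  have hp0 : 0 < p := by linarith
  have hne : (chiSetS μ β ω h).Nonempty :=
    ⟨1 / 2, (mem_chiSetS hd hω hρ h _).2 ⟨by norm_num, Fl_half hd hρ β h⟩⟩
  have key : ∀ x ∈ chiSetS μ β ω h, x < 1 → nuI μ β ω h v ≤ x + (1 - x) / p := by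
    intro x hx hx1
    obtain ⟨hx0, hF⟩ := (mem_chiSetS hd hω hρ h x).1 hx
    refine le_of_forall_gt_imp_ge_of_dense fun a ha => ?_
    have ha0 : 0 < a := by
      have : 0 < (1 - x) / p := div_pos (by linarith) hp0
      linarith
    refine csInf_le ⟨0, fun b hb => hb.1.le⟩ ((mem_nuSetI hω h v a).2 ⟨ha0, fun q => ?_⟩)
    exact freq10 hd hρ hx0 hx1 hF hp hv hD ha q
  have key2 : ∀ x ∈ chiSetS μ β ω h, x < 1 → p * nuI μ β ω h v ≤ 1 + (p - 1) * x := by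
    intro x hx hx1
    have h1 := mul_le_mul_of_nonneg_left (key x hx hx1) hp0.le
    have h2 : p * (x + (1 - x) / p) = 1 + (p - 1) * x := by
      field_simp
      ring
    rwa [h2] at h1
  have h2 : chiS μ β ω h < 1 := (chiS_le_half hd hω hρ h).trans_lt (by norm_num)
  refine le_of_forall_pos_le_add fun ε hε => ?_
  have h3 : chiS μ β ω h < min 1 (chiS μ β ω h + ε / p) :=
    lt_min h2 (by
      have : 0 < ε / p := div_pos hε hp0
      linarith)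
  obtain ⟨x, hx, hxlt⟩ := exists_lt_of_csInf_lt hne h3
  have h4 := key2 x hx (hxlt.trans_le (min_le_left _ _))
  have h5 : x ≤ chiS μ β ω h + ε / p := (hxlt.trans_le (min_le_right _ _)).le
  have h6 : (p - 1) * x ≤ (p - 1) * (chiS μ β ω h + ε / p) :=
    mul_le_mul_of_nonneg_left h5 (by linarith)
  have h7 : (p - 1) * (ε / p) ≤ ε := by
    have : (p - 1) * (ε / p) = ε - ε / p := by
      field_simp
    rw [this]
    have : 0 < ε / p := div_pos hε hp0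
    linarith
  nlinarith

/-- At the generic tilts of `gen10`: `2 ν_* - 1 ≤ χ*`, in every dimension. -/
theorem low_gen10 (hd : 0 < d) (hω : IID μ ρ ω) (hρ : EM ρ) {h v : Vec d}
    (hv : ∀ u : Vec d, lam ρ β h + inner ℝ v u ≤ lam ρ β (h + u))
    (hD : ∀ ε : ℝ, 0 < ε → ∃ᶠ r : ℝ in 𝓝[>] 0, D10 (lam ρ β) h r ≤ r ^ (2 - ε)) :
    2 * nuI μ β ω h v - 1 ≤ chiS μ β ω h := by
  have hc0 : 0 ≤ chiS μ β ω h := Real.sInf_nonneg fun b hb => hb.1.le
  have hn0 : 0 ≤ nuI μ β ω h v := Real.sInf_nonneg fun b hb => hb.1.le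
  have hc1 := chiS_le_half (β := β) hd hω hρ h
  refine le_of_forall_pos_le_add fun ε hε => ?_
  set ε' : ℝ := min (1 / 2) (ε / (nuI μ β ω h v + 1)) with hε'
  have hε'0 : 0 < ε' := lt_min (by norm_num) (by positivity)
  have h1 := low10 (p := 2 - ε') hd hω hρ (by
    have := min_le_left (1 / 2) (ε / (nuI μ β ω h v + 1))
    linarith) hv (hD ε' hε'0)
  have h2 : ε' * (nuI μ β ω h v + 1) ≤ ε := by
    have := min_le_right (1 / 2) (ε / (nuI μ β ω h v + 1))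
    rw [← hε'] at this
    calc ε' * (nuI μ β ω h v + 1) ≤ ε / (nuI μ β ω h v + 1) * (nuI μ β ω h v + 1) :=
          mul_le_mul_of_nonneg_right this (by linarith)
      _ = ε := by field_simp
  nlinarith

end Pool.Agent.W_7d29a1_D2
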