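import Pool.Agent.W_7d29a1_D2.TubP40
import Pool.Agent.W_7d29a1_D2.Defs46

/-!
# Clause (U) in the frozen letters
-/

namespace Pool.Agent.W_7d29a1_D2

open MeasureTheory ProbabilityTheory Filter Topology Pool.Agent.W_MP_7d29a1_pr
  Pool.Agent.W_7d29a1_h46 Pool.Agent.W_7d29a1_h46u

theorem ExpP_of_UpG {d : ℕ} {L : Vec d → ℝ} {h v : Vec d} {p : ℝ} (H : UpG L h v p) :
    ExpP L h v p := by
  obtain ⟨C, δ, hδ, H⟩ := H
  refine ExpP_of_ball (C := C) hδ fun r hr => ?_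
  have := H r hr
  unfold gap at this
  linarith

variable {d : ℕ} {Ω : Type*} [MeasurableSpace Ω] {μ : Measure Ω} [IsProbabilityMeasure μ]
  {ρ : Measure ℝ} [IsProbabilityMeasure ρ] {ω : ℕ × Site d → Ω → ℝ} {β : ℝ}

/-- **Clause (U).** -/
theorem nuS_le40 (hd : 0 < d) (hω : IID μ ρ ω) (hρ : EM ρ) {h v : Vec d} {p : ℝ} (hp : 1 ≤ p)
    (hU : UpG (lam ρ β) h v p) : p * nuS μ β ω h v ≤ 1 + (p - 1) * chiS μ β ω h :=
  nuS_leP hd hω hρ hp (ExpP_of_UpG hU)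

end Pool.Agent.W_7d29a1_D2
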