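import Pool.Agent.W_7d29a1_D2.Low10
import Pool.Agent.W_7d29a1_D2.Defs46

/-!
The two inequalities at generic tilts.
-/

namespace Pool.Agent.W_7d29a1_D2

open MeasureTheory ProbabilityTheory Filter Topology Pool.Agent.W_MP_7d29a1_pr
  Pool.Agent.W_7d29a1_h46 Pool.Agent.W_7d29a1_h46u

variable {d : ℕ} {ρ : Measure ℝ} [IsProbabilityMeasure ρ]
  {Ω : Type*} [MeasurableSpace Ω] {μ : Measure Ω} [IsProbabilityMeasure μ]
  {ω : ℕ × Site d → Ω → ℝ} {β : ℝ}

/-- Large second differences at arbitrarily small scales give `LoG`, for every slope. -/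
theorem LoG_of_D10 (hd : 0 < d) {L : Vec d → ℝ} {h : Vec d} {p : ℝ}
    (hD : ∃ᶠ r : ℝ in 𝓝[>] 0, r ^ p ≤ D10 L h r) (v : Vec d) : LoG L h v p := by
  have hd0 : (0 : ℝ) < d := by exact_mod_cast hd
  refine ⟨1 / (2 * d), by positivity, fun δ hδ => ?_⟩
  obtain ⟨r, hr, hr0, hrδ⟩ := (hD.and_eventually (Ioo_mem_nhdsGT hδ)).exists
  obtain ⟨j, s, hs, hj⟩ := D10_lower (L := L) hd h v r
  have hnorm : ‖(ej j : Vec d)‖ = 1 := by
    unfold ej
    simp
  have hsn : ‖(s • ej j : Vec d)‖ = r := by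
    rw [norm_smul, hnorm, mul_one, Real.norm_eq_abs]
    rcases hs with rfl | rfl
    · exact abs_of_pos hr0
    · rw [abs_neg, abs_of_pos hr0]
  have hin : inner ℝ v (s • ej j : Vec d) = v j * s := by
    rw [inner_smul_right]
    unfold ej
    rw [EuclideanSpace.inner_single_right]
    simp [mul_comm]
  refine ⟨s • ej j, by rw [hsn]; exact hr0, by rw [hsn]; exact hrδ.le, ?_⟩
  rw [hsn]
  unfold gap
  rw [hin]
  refine le_trans ?_ hj
  rw [div_mul_eq_mul_div, one_mul]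
  exact div_le_div_of_nonneg_right hr (by positivity)

/-- Both inequalities at the same tilt: at every tilt of the dense `G_δ` set of `gen10` and every
slope there, `2 ν_* - 1 ≤ χ*` and `(1 + χ*) χ ≤ 2 ν* χ*` (from the second inequality in power
form, the hypothesis `hE`). -/
theorem pair10 (hd : 0 < d) (hω : IID μ ρ ω) (hρ : EM ρ)
    (hna : ∀ U : Set (Vec d), IsOpen U → U.Nonempty → ∀ (v : Vec d) (c : ℝ),
      ∃ h ∈ U, lam ρ β h ≠ c + inner ℝ h v)
    (hE : ∀ (h v : Vec d) (p : ℝ), 1 ≤ p → LoG (lam ρ β) h v p →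
      (1 + (p - 1) * chiS μ β ω h) * chiT μ β ω h ≤ p * nuS μ β ω h v * chiS μ β ω h) :
    ∃ T : Set (Vec d), IsGδ T ∧ Dense T ∧ ∀ h ∈ T, ∀ v : Vec d,
      (∀ u : Vec d, lam ρ β h + inner ℝ v u ≤ lam ρ β (h + u)) →
      2 * nuI μ β ω h v - 1 ≤ chiS μ β ω h ∧
      (1 + chiS μ β ω h) * chiT μ β ω h ≤ 2 * nuS μ β ω h v * chiS μ β ω h := by
  obtain ⟨T, hT1, hT2, hT⟩ := gen10 hd (lam_convex (ρ := ρ) hd hρ β) hna
  refine ⟨T, hT1, hT2, fun h hh v hv => ⟨low_gen10 hd hω hρ hv fun ε hε => (hT h hh ε hε).1, ?_⟩⟩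
  have hc0 : 0 ≤ chiS μ β ω h := Real.sInf_nonneg fun b hb => hb.1.le
  have hn0 : 0 ≤ nuS μ β ω h v := Real.sInf_nonneg fun b hb => hb.1.le
  have hTc := chiT_le_chiS (β := β) hd hω hρ h
  have hT0 : 0 ≤ chiT μ β ω h := Real.sSup_nonneg fun b hb => hb.1.le
  refine le_of_forall_pos_le_add fun ε hε => ?_
  set K : ℝ := nuS μ β ω h v * chiS μ β ω h with hK
  have hK0 : 0 ≤ K := mul_nonneg hn0 hc0
  set e : ℝ := ε / (K + 1) with he
  have he0 : 0 < e := by positivity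
  have h1 := hE h v (2 + e) (by linarith) (LoG_of_D10 hd (hT h hh e he0).2 v)
  have h2 : e * K ≤ ε := by
    calc e * K ≤ e * (K + 1) := mul_le_mul_of_nonneg_left (by linarith) he0.le
      _ = ε := by rw [he]; field_simp
  have h3 : 0 ≤ e * (chiS μ β ω h * chiT μ β ω h) := by positivity
  nlinarith

end Pool.Agent.W_7d29a1_D2
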