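import Mathlib

/-!
The radius lemma for a slice of the free energy: from an upper bound of the conjugate at one
speed, a tilt `r` with the doubling property and a join time `s` (helper21).
-/

namespace Pool.Agent.W_7d29a1_D2

theorem pow_root21 {ε : ℝ} (hε : 0 < ε) (k : ℕ) : (2 : ℝ) ^ k = (((2 : ℝ) ^ (1 / ε)) ^ k) ^ ε := by
  have h1 : ((2 : ℝ) ^ (1 / ε)) ^ k = (2 : ℝ) ^ ((k : ℝ) / ε) := by
    rw [← Real.rpow_natCast ((2 : ℝ) ^ (1 / ε)) k, ← Real.rpow_mul (by norm_num)]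
    congr 1
    ring
  rw [h1, ← Real.rpow_mul (by norm_num), div_mul_cancel₀ _ hε.ne', Real.rpow_natCast]

/-- The doubling search: some `k` with `G (2^(k+1) r0) ≤ 2·2^(1/ε) G (2^k r0)`, and
`2^k ≤ N^ε`, the growth being kept. -/
theorem dbl21 (G : ℝ → ℝ) (hG1 : ∀ r, 0 ≤ r → G r ≤ 2 * r) {r₀ g ε N : ℝ}
    (hr : 0 < r₀) (hg : 0 < g) (hg0 : g * r₀ ≤ G r₀) (hε : 0 < ε) (hN : 2 ≤ g * N) (hN0 : 0 < N) :
    ∃ k : ℕ, G (2 * (2 ^ k * r₀)) ≤ 2 * 2 ^ (1 / ε) * G (2 ^ k * r₀) ∧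
      g * (2 ^ k * r₀) ≤ G (2 ^ k * r₀) ∧ (2 : ℝ) ^ k ≤ N ^ ε := by
  set B : ℝ := 2 ^ (1 / ε) with hB
  have hB1 : 1 < B := Real.one_lt_rpow (by norm_num) (by positivity)
  have hB0 : 0 < B := by linarith
  -- growth before the first good index
  have grow : ∀ k : ℕ, (∀ j < k, ¬ G (2 * (2 ^ j * r₀)) ≤ 2 * B * G (2 ^ j * r₀)) →
      (2 * B) ^ k * (g * r₀) ≤ G (2 ^ k * r₀) := by
    intro k
    induction k with
    | zero => intro _; simpa using hg0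
    | succ k ih =>
      intro hk
      have h1 := ih fun j hj => hk j (by omega)
      have h2 := not_le.1 (hk k (by omega))
      have h3 : (2 : ℝ) ^ (k + 1) * r₀ = 2 * (2 ^ k * r₀) := by ring
      rw [h3]
      calc (2 * B) ^ (k + 1) * (g * r₀) = 2 * B * ((2 * B) ^ k * (g * r₀)) := by ring
        _ ≤ 2 * B * G (2 ^ k * r₀) := mul_le_mul_of_nonneg_left h1 (by positivity)
        _ ≤ G (2 * (2 ^ k * r₀)) := h2.le
  -- the consequence for the powers of `B`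
  have pow_le : ∀ k : ℕ, (∀ j < k, ¬ G (2 * (2 ^ j * r₀)) ≤ 2 * B * G (2 ^ j * r₀)) →
      B ^ k ≤ N := by
    intro k hk
    have h1 := grow k hk
    have h2 := hG1 (2 ^ k * r₀) (by positivity)
    have h3 : (2 : ℝ) ^ k * r₀ * (B ^ k * g) ≤ 2 ^ k * r₀ * 2 := by
      calc (2 : ℝ) ^ k * r₀ * (B ^ k * g) = (2 * B) ^ k * (g * r₀) := by rw [mul_pow]; ring
        _ ≤ 2 * (2 ^ k * r₀) := h1.trans h2
        _ = 2 ^ k * r₀ * 2 := by ring
    have h4 : B ^ k * g ≤ 2 := le_of_mul_le_mul_left h3 (by positivity)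
    have h5 : B ^ k * g ≤ N * g := by linarith [mul_comm g N]
    exact le_of_mul_le_mul_right h5 hg
  have ex : ∃ k : ℕ, G (2 * (2 ^ k * r₀)) ≤ 2 * B * G (2 ^ k * r₀) := by
    by_contra hne
    push Not at hne
    obtain ⟨k, hk⟩ := pow_unbounded_of_one_lt N hB1
    exact absurd (pow_le k fun j _ => not_le.2 (hne j)) (not_le.2 hk)
  classical
  refine ⟨Nat.find ex, Nat.find_spec ex, ?_, ?_⟩
  · have h1 := grow (Nat.find ex) fun j hj => Nat.find_min ex hj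
    refine le_trans ?_ h1
    have h2 : (2 : ℝ) ^ (Nat.find ex) ≤ (2 * B) ^ (Nat.find ex) :=
      pow_le_pow_left₀ (by norm_num) (by linarith) _
    calc g * (2 ^ (Nat.find ex) * r₀) = 2 ^ (Nat.find ex) * (g * r₀) := by ring
      _ ≤ (2 * B) ^ (Nat.find ex) * (g * r₀) := mul_le_mul_of_nonneg_right h2 (by positivity)
  · have h1 := pow_le (Nat.find ex) fun j hj => Nat.find_min ex hj
    rw [pow_root21 hε, ← hB]
    exact Real.rpow_le_rpow (by positivity) h1 hε.le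

/-- THE RADIUS LEMMA. `G` is the slice of the free energy (no convexity is used), `c` bounds its
conjugate at the speed `16 D / m`, `E` the errors up to time `m`. -/
theorem rad21 (G : ℝ → ℝ) (hG0 : ∀ r, 0 ≤ r → 0 ≤ G r) (hG1 : ∀ r, 0 ≤ r → G r ≤ 2 * r)
    {D E c ε : ℝ} {m : ℕ} (hm : 3 ≤ m) (hD : 1 ≤ D) (hE : 1 ≤ E) (hc : 0 ≤ c)
    (hI : ∀ r, 0 ≤ r → 16 * (D / m) * r - G r ≤ c) (hε : 0 < ε) :
    ∃ r > 0, ∃ s : ℕ, s ≤ m ∧ 1 ≤ s ∧ r * D + 2 * E + 2 ≤ s * G r ∧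
      s * G r ≤ 7 * ((m : ℝ) ^ ε * max (c * m) E) ∧
      s * G (2 * r) ≤ 14 * 2 ^ (1 / ε) * ((m : ℝ) ^ ε * max (c * m) E) ∧
      r ≤ (m : ℝ) ^ ε * max (c * m) E / D := by
  have hm0 : (0 : ℝ) < m := by exact_mod_cast (by omega : 0 < m)
  have hm3 : (3 : ℝ) ≤ m := by exact_mod_cast hm
  have hD0 : (0 : ℝ) < D := by linarith
  set Q : ℝ := max (c * m) E with hQ
  have hQE : E ≤ Q := le_max_right _ _
  have hQc : c * m ≤ Q := le_max_left _ _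
  have hQ1 : 1 ≤ Q := hE.trans hQE
  have hQ0 : 0 < Q := by linarith
  set r₀ : ℝ := Q / D with hr0
  have hr0' : 0 < r₀ := by positivity
  set g : ℝ := 8 * (D / m) with hg
  have hg' : 0 < g := by positivity
  have hDr : D * r₀ = Q := by rw [hr0]; field_simp
  have hgr : g * r₀ = 8 * Q / m := by
    rw [hg]
    calc 8 * (D / m) * r₀ = 8 * (D * r₀) / m := by ring
      _ = 8 * Q / m := by rw [hDr]
  have hcg : c ≤ g * r₀ := by
    rw [hgr, le_div_iff₀ hm0]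
    linarith
  have hg0 : g * r₀ ≤ G r₀ := by
    have h1 := hI r₀ hr0'.le
    have h2 : 16 * (D / m) * r₀ = 2 * (g * r₀) := by rw [hg]; ring
    linarith
  have hN : 2 ≤ g * (m : ℝ) := by
    have h1 : g * (m : ℝ) = 8 * D := by rw [hg]; field_simp
    rw [h1]
    linarith
  obtain ⟨k, hk1, hk2, hk3⟩ := dbl21 G hG1 hr0' hg' hg0 hε hN hm0
  set r : ℝ := 2 ^ k * r₀ with hr
  have h2k : (1 : ℝ) ≤ 2 ^ k := one_le_pow₀ (by norm_num)
  have hrp : 0 < r := by positivity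
  have hrD : r * D = 2 ^ k * Q := by rw [hr, ← hDr]; ring
  have hrQ : Q ≤ r * D := by rw [hrD]; nlinarith
  have hrN : r * D ≤ (m : ℝ) ^ ε * Q := by
    rw [hrD]; exact mul_le_mul_of_nonneg_right hk3 hQ0.le
  have hGr : 0 < G r := lt_of_lt_of_le (by positivity) hk2
  set T : ℝ := (r * D + 2 * E + 2) / G r with hT
  have hT0 : 0 ≤ T := by positivity
  have hnum : r * D + 2 * E + 2 ≤ 5 * (r * D) := by linarith
  have hT1 : T ≤ 5 / 8 * m := by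
    rw [hT, div_le_iff₀ hGr]
    have h1 : 5 / 8 * (m : ℝ) * (g * r) ≤ 5 / 8 * (m : ℝ) * G r :=
      mul_le_mul_of_nonneg_left hk2 (by positivity)
    have h2 : 5 / 8 * (m : ℝ) * (g * r) = 5 * (r * D) := by rw [hg]; field_simp
    linarith
  have hc1 : ((⌈T⌉₊ : ℕ) : ℝ) < T + 1 := Nat.ceil_lt_add_one hT0
  have hsG : ((⌈T⌉₊ : ℕ) : ℝ) * G r ≤ 7 * ((m : ℝ) ^ ε * Q) := by
    have h1 : ((⌈T⌉₊ : ℕ) : ℝ) * G r ≤ (T + 1) * G r :=
      mul_le_mul_of_nonneg_right hc1.le hGr.le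
    have h2 : (T + 1) * G r = (r * D + 2 * E + 2) + G r := by rw [hT]; field_simp
    have h3 : G r ≤ 2 * (r * D) := (hG1 r hrp.le).trans (by nlinarith)
    linarith
  refine ⟨r, hrp, ⌈T⌉₊, ?_, ?_, ?_, hsG, ?_, ?_⟩
  · have h1 : ((⌈T⌉₊ : ℕ) : ℝ) < (m : ℝ) + 1 := by linarith
    have h2 : ⌈T⌉₊ < m + 1 := by exact_mod_cast h1
    omega
  · have h1 : 0 < T := by positivity
    exact Nat.one_le_iff_ne_zero.2 (Nat.ceil_pos.2 h1).ne'
  · have h1 := Nat.le_ceil T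
    have h2 : T * G r = r * D + 2 * E + 2 := by rw [hT]; field_simp
    calc r * D + 2 * E + 2 = T * G r := h2.symm
      _ ≤ ((⌈T⌉₊ : ℕ) : ℝ) * G r := mul_le_mul_of_nonneg_right h1 hGr.le
  · calc ((⌈T⌉₊ : ℕ) : ℝ) * G (2 * r)
        ≤ ((⌈T⌉₊ : ℕ) : ℝ) * (2 * 2 ^ (1 / ε) * G r) :=
          mul_le_mul_of_nonneg_left hk1 (by positivity)
      _ = 2 * 2 ^ (1 / ε) * (((⌈T⌉₊ : ℕ) : ℝ) * G r) := by ring
      _ ≤ 2 * 2 ^ (1 / ε) * (7 * ((m : ℝ) ^ ε * Q)) :=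
          mul_le_mul_of_nonneg_left hsG (by positivity)
      _ = 14 * 2 ^ (1 / ε) * ((m : ℝ) ^ ε * Q) := by ring
  · rw [le_div_iff₀ hD0]
    exact hrN

end Pool.Agent.W_7d29a1_D2
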