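import Pool.Agent.W_7d29a1_h46u.TailU
import Pool.Agent.W_7d29a1_h46u.RateU
import Pool.Agent.W_7d29a1_h46u.StrA

/-!
Slabs around a line, in a direction `e`: the partition function restricted to a slab, and the
sites on which it depends.
-/

namespace Pool.Agent.W_7d29a1_D2

open MeasureTheory ProbabilityTheory Filter Topology Pool.Agent.W_MP_7d29a1_pr
  Pool.Agent.W_7d29a1_h46 Pool.Agent.W_7d29a1_h46u

variable {d : ℕ}

/-- The displacement, in the direction `e`, of the site `(t, z)` from the line `t v`. -/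
noncomputable def off (v e : Vec d) (t : ℕ) (z : Site d) : ℝ :=
  inner ℝ e (emb z) - t * inner ℝ e v

/-- The event `max_{i ≤ n} |⟨S_i - i v, e⟩| ≤ r`. -/
def slab (n : ℕ) (v e : Vec d) (r : ℝ) : Set (Fin n → Step d) :=
  {s | ∀ i ≤ n, |off v e i (pos s i)| ≤ r}

lemma off_add (v e : Vec d) (i j : ℕ) (y z : Site d) :
    off v e (i + j) (y + z) = off v e i y + off v e j z := by
  unfold off
  rw [Walk_emb_add, inner_add_right]
  push_cast
  ring

lemma off_eq (v e : Vec d) (i : ℕ) (z : Site d) :
    off v e i z = inner ℝ e (emb z - (i : ℝ) • v) := by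
  unfold off
  rw [inner_sub_right, real_inner_smul_right]

lemma slab_mono (n : ℕ) (v e : Vec d) {r r' : ℝ} (h : r ≤ r') : slab n v e r ⊆ slab n v e r' :=
  fun _ hs i hi => (hs i hi).trans h

/-- The tube is inside the slab. -/
lemma tube_sub_slab (n : ℕ) (v e : Vec d) (he : ‖e‖ ≤ 1) (r : ℝ) :
    tube d n v r ⊆ slab n v e r := by
  intro s hs i hi
  rw [off_eq]
  refine (abs_real_inner_le_norm _ _).trans ?_
  have h1 := hs i hi
  have h2 := norm_nonneg (emb (pos s i) - (i : ℝ) • v)
  calc ‖e‖ * ‖emb (pos s i) - (i : ℝ) • v‖ ≤ 1 * ‖emb (pos s i) - (i : ℝ) • v‖ :=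
        mul_le_mul_of_nonneg_right he h2
    _ ≤ r := by rw [one_mul]; exact h1

/-- The partition function of a slab, from the site `(t, z)`, depends on the sites of the rows
after `t` in the slab. -/
lemma slab_dep (β : ℝ) (h v e : Vec d) (t k : ℕ) (z : Site d) (r : ℝ) :
    DependsOn (fun η : Env d => ZT β h (sh t z η) (slab k v e r))
      {p | t < p.1 ∧ |off v e p.1 p.2 - off v e t z| ≤ r} := by
  classical
  intro η η' hη
  simp only
  unfold ZT
  refine Finset.sum_congr rfl fun s _ => ?_
  by_cases hs : s ∈ slab k v e r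
  · rw [if_pos hs, if_pos hs]
    have h1 : energy (sh t z η) s = energy (sh t z η') s := by
      unfold energy
      refine Finset.sum_congr rfl fun i _ => ?_
      unfold sh
      simp only
      refine hη _ ⟨by omega, ?_⟩
      show |off v e ((i : ℕ) + 1 + t) (pos s ((i : ℕ) + 1) + z) - off v e t z| ≤ r
      rw [off_add, add_sub_cancel_right]
      exact hs _ i.2
    unfold wgt
    rw [h1]
  · rw [if_neg hs, if_neg hs]

/-- The weight of the walks of length `m` from the origin to `z`. -/
noncomputable def W (β : ℝ) (h : Vec d) (m : ℕ) (z : Site d) (η : Env d) : ℝ :=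
  ZT β h η {s : Fin m → Step d | pos s m = z}

lemma W_nonneg (β : ℝ) (h : Vec d) (m : ℕ) (z : Site d) (η : Env d) : 0 ≤ W β h m z η :=
  ZT_nonneg β h η _

lemma measurable_W (β : ℝ) (h : Vec d) (m : ℕ) (z : Site d) : Measurable (W β h m z) :=
  measurable_ZT β h _

lemma W_dep (β : ℝ) (h : Vec d) (m : ℕ) (z : Site d) :
    DependsOn (W β h m z) {p : ℕ × Site d | p.1 ≤ m} := by
  classical
  intro η η' hη
  unfold W ZT
  refine Finset.sum_congr rfl fun s _ => ?_
  have h1 : energy η s = energy η' s := by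
    unfold energy
    refine Finset.sum_congr rfl fun i _ => hη _ ?_
    exact i.2
  unfold wgt
  rw [h1]

/-- Splitting at the row `m`, one end point. -/
lemma W_mul_le (hd : 0 < d) (β : ℝ) (h : Vec d) (η : Env d) (m k : ℕ) (z : Site d) :
    W β h m z η * Z β h (sh m z η) k ≤ Z β h η (m + k) := by
  classical
  rw [Z_add]
  unfold W ZT
  rw [Finset.sum_mul]
  refine Finset.sum_le_sum fun s _ => ?_
  by_cases hs : s ∈ {s : Fin m → Step d | pos s m = z}
  · rw [if_pos hs]
    have h1 : pos s m = z := hs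
    rw [h1]
  · rw [if_neg hs, zero_mul]
    exact mul_nonneg (wgt_pos β h η s).le (Z_pos hd β h _ k).le

/-- Splitting at the row `m`, all end points. -/
lemma Z_le_mul (β : ℝ) (h : Vec d) (η : Env d) (m k : ℕ) {b c : ℝ} (hc : 0 ≤ c)
    (hb : Z β h η m ≤ b) (hz : ∀ y ∈ boxF d m, Z β h (sh m y η) k ≤ c) :
    Z β h η (m + k) ≤ b * c := by
  rw [Z_add]
  calc ∑ s : Fin m → Step d, wgt β h η s * Z β h (sh m (pos s m) η) k
      ≤ ∑ s : Fin m → Step d, wgt β h η s * c :=
        Finset.sum_le_sum fun s _ => mul_le_mul_of_nonneg_left (hz _ (pos_mem_box s m))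
          (wgt_pos β h η s).le
    _ = Z β h η m * c := by rw [← Finset.sum_mul, ← Z_eq]
    _ ≤ b * c := mul_le_mul_of_nonneg_right hb hc

lemma ZT_le_Z (β : ℝ) (h : Vec d) (η : Env d) {n : ℕ} (E : Set (Fin n → Step d)) :
    ZT β h η E ≤ Z β h η n := ZT_mono β h η (Set.subset_univ E)

/-- The sum of the weights over the end points. -/
lemma sum_W (β : ℝ) (h : Vec d) (η : Env d) (m : ℕ) :
    ∑ z ∈ boxF d m, W β h m z η = Z β h η m := by
  classical
  rw [Z_eq]
  unfold W ZT
  rw [Finset.sum_comm]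
  refine Finset.sum_congr rfl fun s _ => ?_
  rw [Finset.sum_eq_single (pos s m)]
  · exact if_pos rfl
  · intro z _ hz
    exact if_neg fun hcon => hz (show z = pos s m from (show pos s m = z from hcon).symm)
  · intro hcon
    exact absurd (pos_mem_box s m) hcon

end Pool.Agent.W_7d29a1_D2
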