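import Pool.Agent.W_7d29a1_D2.Cen42

/-!
One step of the game (proofs row 698, step 3).
-/

namespace Pool.Agent.W_7d29a1_D2

open Finset Set

variable {d : ℕ}

/-- The macroscopic cost of the displacement `R` (relative to the direction) in the time `s`, with the
tilts of norm at most `δ` only. -/
noncomputable def EE (l : EuclideanSpace ℝ (Fin d) → ℝ) (δ : ℝ) (R : EuclideanSpace ℝ (Fin d))
    (s : ℝ) : ℝ :=
  sSup ((fun r : EuclideanSpace ℝ (Fin d) => inner ℝ r R - s * l r) '' Metric.closedBall 0 δ)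

lemma EE_cont {l : EuclideanSpace ℝ (Fin d) → ℝ} (hlc : Continuous l)
    (R : EuclideanSpace ℝ (Fin d)) (s : ℝ) :
    Continuous fun r : EuclideanSpace ℝ (Fin d) => inner ℝ r R - s * l r := by
  fun_prop

lemma le_EE {l : EuclideanSpace ℝ (Fin d) → ℝ} (hlc : Continuous l) {δ : ℝ}
    {R r : EuclideanSpace ℝ (Fin d)} {s : ℝ} (hr : ‖r‖ ≤ δ) :
    inner ℝ r R - s * l r ≤ EE l δ R s := by
  refine le_csSup ?_ ⟨r, by simpa using hr, rfl⟩
  exact ((isCompact_closedBall (0 : EuclideanSpace ℝ (Fin d)) δ).image (EE_cont hlc R s)).bddAbove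

lemma EE_le {l : EuclideanSpace ℝ (Fin d) → ℝ} {δ : ℝ} (hδ : 0 ≤ δ)
    {R : EuclideanSpace ℝ (Fin d)} {s E : ℝ}
    (h : ∀ r : EuclideanSpace ℝ (Fin d), ‖r‖ ≤ δ → inner ℝ r R - s * l r ≤ E) : EE l δ R s ≤ E := by
  refine csSup_le ⟨_, ⟨0, by simpa using hδ, rfl⟩⟩ ?_
  rintro _ ⟨r, hr, rfl⟩
  exact h r (by simpa using hr)

lemma EE_nonneg {l : EuclideanSpace ℝ (Fin d) → ℝ} (hlc : Continuous l) (hl0 : l 0 = 0) {δ : ℝ}
    (hδ : 0 ≤ δ) (R : EuclideanSpace ℝ (Fin d)) (s : ℝ) : 0 ≤ EE l δ R s := by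
  have h := le_EE (R := R) (s := s) (r := 0) hlc (δ := δ) (by simpa using hδ)
  simpa [hl0] using h

lemma exists_EE {l : EuclideanSpace ℝ (Fin d) → ℝ} (hlc : Continuous l) {δ : ℝ}
    (hδ : 0 ≤ δ) (R : EuclideanSpace ℝ (Fin d)) (s : ℝ) :
    ∃ r : EuclideanSpace ℝ (Fin d), ‖r‖ ≤ δ ∧ inner ℝ r R - s * l r = EE l δ R s := by
  obtain ⟨r, hr, hmax⟩ := (isCompact_closedBall (0 : EuclideanSpace ℝ (Fin d)) δ).exists_isMaxOn
    ⟨0, by simpa using hδ⟩ (EE_cont hlc R s).continuousOn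
  have hr' : ‖r‖ ≤ δ := by simpa using hr
  refine ⟨r, hr', le_antisymm (le_EE hlc hr') (EE_le hδ fun r' hr'' => ?_)⟩
  exact hmax (show r' ∈ Metric.closedBall 0 δ by simpa using hr'')

/-- The cost decreases in time. -/
lemma EE_anti {l : EuclideanSpace ℝ (Fin d) → ℝ} (hlc : Continuous l) (hln : ∀ r, 0 ≤ l r)
    {δ : ℝ} (hδ : 0 ≤ δ) (R : EuclideanSpace ℝ (Fin d)) {s s' : ℝ} (hs : s ≤ s') :
    EE l δ R s' ≤ EE l δ R s := by
  refine EE_le hδ fun r hr => ?_
  have h1 := le_EE (R := R) (s := s) hlc hr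
  have h2 := mul_le_mul_of_nonneg_right hs (hln r)
  linarith

/-- **One step of the game.** -/
theorem one_step {l : EuclideanSpace ℝ (Fin d) → ℝ} (hl : ConvexOn ℝ univ l) (hlc : Continuous l)
    (hl0 : l 0 = 0) {δ : ℝ} (hδ : 0 < δ)
    (R : EuclideanSpace ℝ (Fin d)) {s : ℝ} (hs : 0 < s) {η κ : ℝ} (hη : 0 < η) (hκ0 : 0 ≤ κ)
    (hκ : 4 * ((d : ℝ) + 1) * κ ≤ η) :
    ∃ rc : EuclideanSpace ℝ (Fin d), ‖rc‖ ≤ δ ∧ ∀ (W : EuclideanSpace ℝ (Fin d)) (i : ℝ), 0 ≤ i →
      4 * ((d : ℝ) + 1) * i ≤ s →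
      (∀ r : EuclideanSpace ℝ (Fin d), ‖r‖ ≤ δ →
        inner ℝ r W - i * l r ≤ inner ℝ rc W - i * l rc + κ) →
      EE l δ (R - W) (s - i) ≤ EE l δ R s - (inner ℝ rc W - i * l rc) + η / 2 := by
  classical
  set φ : EuclideanSpace ℝ (Fin d) → ℝ := fun r => inner ℝ r R - s * l r with hφ
  set E : ℝ := EE l δ R s with hE
  have hE0 : 0 ≤ E := EE_nonneg hlc hl0 hδ.le R s
  have hφE : ∀ r : EuclideanSpace ℝ (Fin d), ‖r‖ ≤ δ → φ r ≤ E := fun r hr => le_EE hlc hr
  have hφc : Continuous φ := EE_cont hlc R s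
  -- concavity
  have hconc : ∀ (x y : EuclideanSpace ℝ (Fin d)) (a b : ℝ), 0 ≤ a → 0 ≤ b → a + b = 1 →
      a * φ x + b * φ y ≤ φ (a • x + b • y) := by
    intro x y a b ha hb hab
    have h1 := hl.2 (Set.mem_univ x) (Set.mem_univ y) ha hb hab
    simp only [smul_eq_mul] at h1
    have h2 := mul_le_mul_of_nonneg_left h1 hs.le
    simp only [hφ, inner_add_left, real_inner_smul_left]
    linarith
  obtain ⟨r0, hr0, hr0E⟩ := exists_EE hlc hδ.le R s
  change φ r0 = E at hr0E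
  set K : Set (EuclideanSpace ℝ (Fin d)) := Metric.closedBall 0 δ ∩ {r | E - η ≤ φ r} with hK
  have hKc : IsCompact K :=
    (isCompact_closedBall (0 : EuclideanSpace ℝ (Fin d)) δ).inter_right
      (isClosed_le continuous_const hφc)
  have hKconv : Convex ℝ K := by
    refine (convex_closedBall 0 δ).inter ?_
    intro x hx y hy a b ha hb hab
    have h1 := hconc x y a b ha hb hab
    have hx' : E - η ≤ φ x := hx
    have hy' : E - η ≤ φ y := hy
    have h2 : a * (E - η) + b * (E - η) ≤ a * φ x + b * φ y :=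
      add_le_add (mul_le_mul_of_nonneg_left hx' ha) (mul_le_mul_of_nonneg_left hy' hb)
    have h3 : a * (E - η) + b * (E - η) = E - η := by rw [← add_mul, hab, one_mul]
    show E - η ≤ φ (a • x + b • y)
    linarith
  have hKint : (interior K).Nonempty := by
    set t : ℝ := min (1 / 2) (η / (2 * (E + 1))) with ht
    have ht0 : 0 < t := lt_min (by norm_num) (by positivity)
    have ht1 : t ≤ 1 / 2 := min_le_left _ _
    have ht2 : t * (E + 1) ≤ η / 2 := by
      have h1 : t ≤ η / (2 * (E + 1)) := min_le_right _ _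
      have h2 := mul_le_mul_of_nonneg_right h1 (show 0 ≤ E + 1 by linarith)
      have h3 : η / (2 * (E + 1)) * (E + 1) = η / 2 := by
        field_simp
      linarith
    have hopen : IsOpen {r : EuclideanSpace ℝ (Fin d) | ‖r‖ < δ ∧ E - η < φ r} :=
      (isOpen_lt continuous_norm continuous_const).inter (isOpen_lt continuous_const hφc)
    refine ⟨(1 - t) • r0, interior_maximal ?_ hopen ⟨?_, ?_⟩⟩
    · rintro r ⟨h1, h2⟩
      exact ⟨by simpa using h1.le, h2.le⟩
    · rw [norm_smul, Real.norm_eq_abs, abs_of_nonneg (by linarith)]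
      have h1 : (1 - t) * ‖r0‖ ≤ (1 - t) * δ := mul_le_mul_of_nonneg_left hr0 (by linarith)
      nlinarith
    · have h1 := hconc r0 0 (1 - t) t (by linarith) ht0.le (by ring)
      have h2 : φ 0 = 0 := by simp [hφ, hl0]
      rw [h2, smul_zero, add_zero, hr0E, mul_zero, add_zero] at h1
      show E - η < φ ((1 - t) • r0)
      nlinarith
  obtain ⟨rc, hrcK, hrc⟩ := centre hKc hKconv hKint
  have hrcδ : ‖rc‖ ≤ δ := by simpa using hrcK.1
  refine ⟨rc, hrcδ, fun W i hi his hψ => ?_⟩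
  set ψ : EuclideanSpace ℝ (Fin d) → ℝ := fun r => inner ℝ r W - i * l r with hψd
  set c : ℝ := ψ rc with hc
  have hψ' : ∀ r : EuclideanSpace ℝ (Fin d), ‖r‖ ≤ δ → ψ r ≤ c + κ := hψ
  set lm : ℝ := i / s with hlm
  have hlm0 : 0 ≤ lm := div_nonneg hi hs.le
  have hlms : lm * s = i := div_mul_cancel₀ _ hs.ne'
  have hd1 : (0 : ℝ) < (d : ℝ) + 1 := by positivity
  have hlm1 : 4 * ((d : ℝ) + 1) * lm ≤ 1 := by
    have h1 : 4 * ((d : ℝ) + 1) * lm * s ≤ 1 * s := by
      rw [mul_assoc, hlms]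
      linarith
    exact le_of_mul_le_mul_right h1 hs
  have hlm2 : lm ≤ 1 / 4 := by nlinarith [(Nat.cast_nonneg d : (0 : ℝ) ≤ d)]
  set u : EuclideanSpace ℝ (Fin d) := W - lm • R with hu
  have hf : ∀ r : EuclideanSpace ℝ (Fin d), inner ℝ u r = ψ r - lm * φ r := by
    intro r
    have h1 : inner ℝ u r = inner ℝ r W - lm * inner ℝ r R := by
      rw [hu, inner_sub_left, real_inner_smul_left, real_inner_comm, real_inner_comm R r]
    rw [h1, hψd, hφ]
    simp only
    have h2 : lm * (inner ℝ r R - s * l r) = lm * inner ℝ r R - i * l r := by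
      rw [mul_sub, ← mul_assoc, hlms]
    rw [h2]
    ring
  set ζ : ℝ := κ + lm * η with hζ
  have hζ0 : 0 ≤ ζ := by positivity
  have hfc : c - lm * E ≤ inner ℝ u rc := by
    rw [hf rc]
    have h1 := mul_le_mul_of_nonneg_left (hφE rc hrcδ) hlm0
    linarith
  have hup : ∀ y ∈ K, inner ℝ u y ≤ inner ℝ u rc + ζ := by
    intro y hy
    have hyδ : ‖y‖ ≤ δ := by simpa using hy.1
    have hyE : E - η ≤ φ y := hy.2
    have h1 := mul_le_mul_of_nonneg_left hyE hlm0
    have h2 := hψ' y hyδ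
    rw [hf y]
    rw [hζ]
    have h3 : lm * (E - η) = lm * E - lm * η := by ring
    linarith
  have hlow := hrc u ζ hup
  -- numbers
  have hζη : ((d : ℝ) + 1) * ζ ≤ η / 2 := by
    rw [hζ]
    have h1 : ((d : ℝ) + 1) * (lm * η) ≤ η / 4 := by
      have := mul_le_mul_of_nonneg_right hlm1 hη.le
      nlinarith
    nlinarith
  have hdζ : (d : ℝ) * ζ ≤ η / 2 := by nlinarith
  refine EE_le hδ.le fun r hr => ?_
  have e1 : inner ℝ r (R - W) - (s - i) * l r = φ r - ψ r := by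
    rw [inner_sub_right, hφ, hψd]
    ring
  rw [e1]
  have e2 : φ r - ψ r = (1 - lm) * φ r - inner ℝ u r := by
    rw [hf r]
    ring
  rw [e2]
  rcases le_or_gt (E - η) (φ r) with hrK | hrK
  · have h1 := hlow r ⟨by simpa using hr, hrK⟩
    have h2 : (1 - lm) * φ r ≤ (1 - lm) * E :=
      mul_le_mul_of_nonneg_left (hφE r hr) (by linarith)
    nlinarith
  · set x : ℝ := E - φ r with hx
    have hxη : η < x := by linarith
    have hx0 : 0 < x := hη.trans hxη
    set m : ℝ := η / x with hm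
    have hm0 : 0 < m := div_pos hη hx0
    have hm1 : m < 1 := (div_lt_one hx0).2 hxη
    have hmx : m * x = η := div_mul_cancel₀ _ hx0.ne'
    set r2 : EuclideanSpace ℝ (Fin d) := (1 - m) • r0 + m • r with hr2
    have hr2δ : ‖r2‖ ≤ δ := by
      have h1 : ‖r2‖ ≤ (1 - m) * ‖r0‖ + m * ‖r‖ := by
        refine (norm_add_le _ _).trans (le_of_eq ?_)
        rw [norm_smul, norm_smul, Real.norm_eq_abs, Real.norm_eq_abs, abs_of_pos hm0,
          abs_of_pos (by linarith)]
      have h2 : (1 - m) * ‖r0‖ ≤ (1 - m) * δ := mul_le_mul_of_nonneg_left hr0 (by linarith)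
      have h3 : m * ‖r‖ ≤ m * δ := mul_le_mul_of_nonneg_left hr hm0.le
      linarith
    have hr2K : r2 ∈ K := by
      refine ⟨by simpa using hr2δ, ?_⟩
      have h1 := hconc r0 r (1 - m) m (by linarith) hm0.le (by ring)
      rw [hr0E] at h1
      have h2 : φ r = E - x := by rw [hx]; ring
      rw [h2] at h1
      show E - η ≤ φ r2
      have h3 : (1 - m) * E + m * (E - x) = E - η := by
        have : m * (E - x) = m * E - η := by rw [mul_sub, hmx]
        rw [this]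
        ring
      linarith
    have hr0K : r0 ∈ K := ⟨by simpa using hr0, by show E - η ≤ φ r0; linarith⟩
    have h1 := hlow r2 hr2K
    have h2 := hup r0 hr0K
    have h3 : inner ℝ u r2 = (1 - m) * inner ℝ u r0 + m * inner ℝ u r := by
      rw [hr2, inner_add_right, real_inner_smul_right, real_inner_smul_right]
    rw [h3] at h1
    -- `m f(r) ≥ f(rc) - d ζ - (1 - m) (f(rc) + ζ)`
    have h4 : (1 - m) * inner ℝ u r0 ≤ (1 - m) * (inner ℝ u rc + ζ) :=
      mul_le_mul_of_nonneg_left h2 (by linarith)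
    have h5 : m * inner ℝ u rc - ((d : ℝ) + 1) * ζ ≤ m * inner ℝ u r := by nlinarith
    have h6 : inner ℝ u rc - (x / η) * (((d : ℝ) + 1) * ζ) ≤ inner ℝ u r := by
      have h7 : (x / η) * (m * inner ℝ u rc - ((d : ℝ) + 1) * ζ) ≤ (x / η) * (m * inner ℝ u r) :=
        mul_le_mul_of_nonneg_left h5 (by positivity)
      have h8 : (x / η) * m = 1 := by
        rw [hm]
        field_simp
      have h9 : (x / η) * (m * inner ℝ u rc - ((d : ℝ) + 1) * ζ) =
          ((x / η) * m) * inner ℝ u rc - (x / η) * (((d : ℝ) + 1) * ζ) := by ring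
      have h10 : (x / η) * (m * inner ℝ u r) = ((x / η) * m) * inner ℝ u r := by ring
      rw [h9, h10, h8, one_mul, one_mul] at h7
      exact h7
    have h7 : (x / η) * (((d : ℝ) + 1) * ζ) ≤ x / 2 := by
      have h8 := mul_le_mul_of_nonneg_left hζη (show 0 ≤ x / η by positivity)
      have h9 : (x / η) * (η / 2) = x / 2 := by field_simp
      linarith
    have h8 : φ r = E - x := by rw [hx]; ring
    rw [h8]
    nlinarith

end Pool.Agent.W_7d29a1_D2
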