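import Pool.Agent.W_7d29a1_h46u.LawU

/-!
Conditional independence given the sites of a set `S`: functions of `S ∪ T` and of `S ∪ Tᶜ`.
-/

namespace Pool.Agent.W_7d29a1_D2.ThreeH2

open MeasureTheory ProbabilityTheory Filter Topology Pool.Agent.W_MP_7d29a1_pr
  Pool.Agent.W_7d29a1_h46 Pool.Agent.W_7d29a1_h46u

variable {d : ℕ} {ρ : Measure ℝ} [IsProbabilityMeasure ρ]

open Classical in
/-- The environment `η` on `S`, the environment `ξ` off `S`. -/
noncomputable def spl {d : ℕ} (S : Set (ℕ × Site d)) (η ξ : Env d) : Env d :=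
  fun p => if p ∈ S then η p else ξ p

lemma spl_of_mem {S : Set (ℕ × Site d)} {η ξ : Env d} {p : ℕ × Site d} (h : p ∈ S) :
    spl S η ξ p = η p := if_pos h

lemma spl_of_notMem {S : Set (ℕ × Site d)} {η ξ : Env d} {p : ℕ × Site d} (h : p ∉ S) :
    spl S η ξ p = ξ p := if_neg h

/-- The spliced environment has the law of the environment. -/
lemma mp_spl (S : Set (ℕ × Site d)) :
    MeasurePreserving (fun w : Env d × Env d => spl S w.1 w.2)
      ((law d ρ).prod (law d ρ)) (law d ρ) := by
  classical
  have hσ : Function.Injective (fun p : ℕ × Site d =>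
      if p ∈ S then (Sum.inl p : (ℕ × Site d) ⊕ (ℕ × Site d)) else Sum.inr p) := by
    intro p q h
    simp only at h
    split_ifs at h <;> simp_all
  have hmp : MeasurePreserving (fun w : Env d × Env d => fun p => Sum.elim w.1 w.2
      (if p ∈ S then (Sum.inl p : (ℕ × Site d) ⊕ (ℕ × Site d)) else Sum.inr p))
      ((law d ρ).prod (law d ρ)) (law d ρ) := LawU_elim hσ
  have he : (fun w : Env d × Env d => spl S w.1 w.2) = fun w : Env d × Env d => fun p =>
      Sum.elim w.1 w.2
      (if p ∈ S then (Sum.inl p : (ℕ × Site d) ⊕ (ℕ × Site d)) else Sum.inr p) := by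
    funext w p
    by_cases h : p ∈ S
    · rw [spl_of_mem h, if_pos h]; rfl
    · rw [spl_of_notMem h, if_neg h]; rfl
  rw [he]
  exact hmp

lemma measurable_spl (S : Set (ℕ × Site d)) :
    Measurable (fun w : Env d × Env d => spl S w.1 w.2) := by
  refine measurable_pi_iff.2 fun p => ?_
  by_cases h : p ∈ S
  · simp only [spl_of_mem h]
    exact (measurable_pi_apply p).comp measurable_fst
  · simp only [spl_of_notMem h]
    exact (measurable_pi_apply p).comp measurable_snd

lemma measurable_spl_right (S : Set (ℕ × Site d)) (η : Env d) : Measurable (spl S η) :=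
  (measurable_spl S).comp measurable_prodMk_left

/-- The tower rule. -/
lemma integral_spl (S : Set (ℕ × Site d)) {F : Env d → ℝ} (hF : Integrable F (law d ρ)) :
    ∫ η, F η ∂(law d ρ) = ∫ η, ∫ ξ, F (spl S η ξ) ∂(law d ρ) ∂(law d ρ) := by
  have h := mp_spl (d := d) (ρ := ρ) S
  rw [← LawU_integral h hF.aestronglyMeasurable]
  have hi : Integrable (fun w : Env d × Env d => F (spl S w.1 w.2))
      ((law d ρ).prod (law d ρ)) := h.integrable_comp_of_integrable hF
  exact integral_prod _ hi

/-- A function of the sites of `S ∪ T`, given the sites of `S`, depends on `T`. -/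
lemma dependsOn_spl {S T : Set (ℕ × Site d)} {F : Env d → ℝ} (hF : DependsOn F (S ∪ T))
    (η : Env d) : DependsOn (fun ξ => F (spl S η ξ)) T := by
  intro ξ ξ' h
  refine hF fun p hp => ?_
  by_cases hS : p ∈ S
  · rw [spl_of_mem hS, spl_of_mem hS]
  · rw [spl_of_notMem hS, spl_of_notMem hS]
    exact h p (hp.resolve_left hS)

/-- Conditional independence given the sites of `S`. -/
theorem integral_mul_spl (S T : Set (ℕ × Site d)) {F G : Env d → ℝ} (hF : Measurable F)
    (hG : Measurable G) (hFS : DependsOn F (S ∪ T)) (hGS : DependsOn G (S ∪ Tᶜ))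
    (hint : Integrable (fun η => F η * G η) (law d ρ)) :
    ∫ η, F η * G η ∂(law d ρ)
      = ∫ η, (∫ ξ, F (spl S η ξ) ∂(law d ρ)) * (∫ ξ, G (spl S η ξ) ∂(law d ρ)) ∂(law d ρ) := by
  rw [integral_spl S hint]
  refine integral_congr_ae (Filter.Eventually.of_forall fun η => ?_)
  exact integral_indep T (hF.comp (measurable_spl_right S η)) (hG.comp (measurable_spl_right S η))
    (dependsOn_spl hFS η) (dependsOn_spl hGS η)

/-- The probability of an event, averaged over the sites of `S`. -/
lemma real_spl (S : Set (ℕ × Site d)) {E : Set (Env d)} (hE : MeasurableSet E) :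
    (law d ρ).real E = ∫ η, (law d ρ).real {ξ | spl S η ξ ∈ E} ∂(law d ρ) := by
  have h1 : Integrable (E.indicator fun _ => (1 : ℝ)) (law d ρ) :=
    (integrable_const (1 : ℝ)).indicator hE
  have h2 := integral_spl S h1
  rw [integral_indicator_const (1 : ℝ) hE, smul_eq_mul, mul_one] at h2
  rw [h2]
  refine integral_congr_ae (Filter.Eventually.of_forall fun η => ?_)
  have h3 : MeasurableSet {ξ | spl S η ξ ∈ E} := measurable_spl_right S η hE
  have h4 : (fun ξ => E.indicator (fun _ => (1 : ℝ)) (spl S η ξ))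
      = ({ξ | spl S η ξ ∈ E}).indicator fun _ => (1 : ℝ) := by
    funext ξ
    by_cases h : spl S η ξ ∈ E
    · rw [Set.indicator_of_mem h, Set.indicator_of_mem (s := {ξ | spl S η ξ ∈ E}) h]
    · rw [Set.indicator_of_notMem h, Set.indicator_of_notMem (s := {ξ | spl S η ξ ∈ E}) h]
  simp only
  rw [h4, integral_indicator_const (1 : ℝ) h3, smul_eq_mul, mul_one]

/-- **The join of three events.** The event `F0` depends on `S`, the event `F1` on `S ∪ T`, the
event `F2` on `S ∪ Tᶜ`, and given the sites of `S` the event `F2` has probability at least `c`. -/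
theorem three_events {S T : Set (ℕ × Site d)} {F0 F1 F2 : Set (Env d)} (h0 : MeasurableSet F0)
    (h1 : MeasurableSet F1) (h2 : MeasurableSet F2) (d0 : DependsOn (fun η => η ∈ F0) S)
    (d1 : DependsOn (fun η => η ∈ F1) (S ∪ T)) (d2 : DependsOn (fun η => η ∈ F2) (S ∪ Tᶜ))
    {c : ℝ} (hc : ∀ η ∈ F0, c ≤ (law d ρ).real {ξ | spl S η ξ ∈ F2}) :
    c * (law d ρ).real (F0 ∩ F1) ≤ (law d ρ).real (F0 ∩ F1 ∩ F2) := by
  classical
  have hint : ∀ {E : Set (Env d)}, MeasurableSet E →
      Integrable (E.indicator fun _ => (1 : ℝ)) (law d ρ) := fun hE =>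
    (integrable_const (1 : ℝ)).indicator hE
  have hdep : ∀ {E : Set (Env d)} {V : Set (ℕ × Site d)}, DependsOn (fun η => η ∈ E) V →
      DependsOn (E.indicator fun _ => (1 : ℝ)) V := by
    intro E V hE η η' h
    have h3 : (η ∈ E) = (η' ∈ E) := hE h
    by_cases h4 : η ∈ E
    · rw [Set.indicator_of_mem h4, Set.indicator_of_mem (h3 ▸ h4)]
    · rw [Set.indicator_of_notMem h4, Set.indicator_of_notMem (by rwa [← h3])]
  have hmul : ∀ E E' : Set (Env d), (fun η => E.indicator (fun _ => (1 : ℝ)) η
      * E'.indicator (fun _ => (1 : ℝ)) η) = (E ∩ E').indicator fun _ => (1 : ℝ) := by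
    intro E E'
    funext η
    by_cases h : η ∈ E <;> by_cases h' : η ∈ E' <;> simp [h, h']
  have hval : ∀ {E : Set (Env d)}, MeasurableSet E → ∀ η : Env d,
      ∫ ξ, E.indicator (fun _ => (1 : ℝ)) (spl S η ξ) ∂(law d ρ)
        = (law d ρ).real {ξ | spl S η ξ ∈ E} := by
    intro E hE η
    have h3 : MeasurableSet {ξ | spl S η ξ ∈ E} := measurable_spl_right S η hE
    have h4 : (fun ξ => E.indicator (fun _ => (1 : ℝ)) (spl S η ξ))
        = ({ξ | spl S η ξ ∈ E}).indicator fun _ => (1 : ℝ) := by
      funext ξ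
      by_cases h : spl S η ξ ∈ E
      · rw [Set.indicator_of_mem h, Set.indicator_of_mem (s := {ξ | spl S η ξ ∈ E}) h]
      · rw [Set.indicator_of_notMem h, Set.indicator_of_notMem (s := {ξ | spl S η ξ ∈ E}) h]
    rw [h4, integral_indicator_const (1 : ℝ) h3, smul_eq_mul, mul_one]
  have h01 : MeasurableSet (F0 ∩ F1) := h0.inter h1
  have d01 : DependsOn (fun η => η ∈ F0 ∩ F1) (S ∪ T) := by
    intro η η' h
    have e0 : (η ∈ F0) = (η' ∈ F0) := d0 fun p hp => h p (Or.inl hp)
    have e1 : (η ∈ F1) = (η' ∈ F1) := d1 h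
    simp only [Set.mem_inter_iff]
    rw [e0, e1]
  have key := integral_mul_spl (ρ := ρ) S T
    (F := (F0 ∩ F1).indicator fun _ => (1 : ℝ)) (G := F2.indicator fun _ => (1 : ℝ))
    (measurable_const.indicator h01) (measurable_const.indicator h2) (hdep d01) (hdep d2)
    (by rw [hmul]; exact hint (h01.inter h2))
  rw [hmul, integral_indicator_const (1 : ℝ) (h01.inter h2), smul_eq_mul, mul_one] at key
  rw [key, real_spl (ρ := ρ) S h01, ← integral_const_mul]
  have hle1 : ∀ η : Env d, ∀ E : Set (Env d), (law d ρ).real {ξ | spl S η ξ ∈ E} ≤ 1 :=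
    fun η E => measureReal_le_one
  have hmeas : ∀ {E : Set (Env d)}, MeasurableSet E →
      Integrable (fun η => (law d ρ).real {ξ | spl S η ξ ∈ E}) (law d ρ) := by
    intro E hE
    have h := mp_spl (d := d) (ρ := ρ) S
    have hi : Integrable (fun w : Env d × Env d => E.indicator (fun _ => (1 : ℝ)) (spl S w.1 w.2))
        ((law d ρ).prod (law d ρ)) := h.integrable_comp_of_integrable (hint hE)
    have hi2 := hi.integral_prod_left
    refine hi2.congr (Filter.Eventually.of_forall fun η => ?_)
    exact hval hE η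
  refine integral_mono ((hmeas h01).const_mul c) ?_ fun η => ?_
  · have hm := (hmeas h01).aestronglyMeasurable.mul (hmeas h2).aestronglyMeasurable
    refine Integrable.mono' (integrable_const (1 : ℝ)) ?_ ?_
    · refine hm.congr (Filter.Eventually.of_forall fun η => ?_)
      simp only [Pi.mul_apply]
      rw [hval h01, hval h2]
    · refine Filter.Eventually.of_forall fun η => ?_
      rw [hval h01, hval h2, Real.norm_eq_abs,
        abs_of_nonneg (mul_nonneg measureReal_nonneg measureReal_nonneg)]
      exact mul_le_one₀ (hle1 η _) measureReal_nonneg (hle1 η _)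
  · simp only
    rw [hval h01, hval h2]
    by_cases hη : η ∈ F0
    · rw [mul_comm c]
      exact mul_le_mul_of_nonneg_left (hc η hη) measureReal_nonneg
    · have he : {ξ : Env d | spl S η ξ ∈ F0 ∩ F1} = ∅ := by
        ext ξ
        simp only [Set.mem_ofPred_eq, Set.mem_inter_iff, Set.mem_empty_iff_false, iff_false,
          not_and]
        intro h3
        have e0 : (spl S η ξ ∈ F0) = (η ∈ F0) := d0 fun p hp => spl_of_mem hp
        exact absurd (e0 ▸ h3) hη
      rw [he]
      simp

end Pool.Agent.W_7d29a1_D2.ThreeH2
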