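import Pool.Agent.W_7d29a1_D2.TubP74

/-!
The first inequality with the fluctuations known only on a set of tilts which has `h` as a point of
density.
-/

namespace Pool.Agent.W_7d29a1_D2.TubK74

open MeasureTheory ProbabilityTheory Filter Topology Pool.Agent.W_MP_7d29a1_pr
  Pool.Agent.W_7d29a1_h46 Pool.Agent.W_7d29a1_h46u Pool.Agent.W_7d29a1_D2

variable {d : ℕ}

lemma vec_sum (x : Vec d) : x = ∑ j : Fin d, x j • ej j := by
  ext k
  simp only [ej, WithLp.ofLp_sum, WithLp.ofLp_smul, PiLp.ofLp_single, Finset.sum_apply,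
    Pi.smul_apply, smul_eq_mul]
  rw [Finset.sum_eq_single k]
  · rw [Pi.single_eq_same, mul_one]
  · intro b _ hb
    rw [Pi.single_eq_of_ne hb.symm, mul_zero]
  · intro h
    exact absurd (Finset.mem_univ _) h

/-- The sign of an orthant. -/
def sg (b : Bool) : ℝ := if b then 1 else -1

lemma sg_sq (b : Bool) : sg b * sg b = 1 := by
  cases b <;> norm_num [sg]

lemma abs_sg (b : Bool) : |sg b| = 1 := by
  cases b <;> norm_num [sg]

/-- A convex function at `p` is at most `B` if every closed orthant at `p` contains a point where it is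
at most `B`. -/
lemma orth74 {f : Vec d → ℝ} (hf : ConvexOn ℝ Set.univ f) (p : Vec d) {B : ℝ}
    (H : ∀ σ : Fin d → Bool, ∃ k : Vec d, (∀ i, 0 ≤ sg (σ i) * (k i - p i)) ∧ f k ≤ B) :
    f p ≤ B := by
  choose k hk hfk using H
  have hmem : p ∈ convexHull ℝ (Set.range k) := by
    by_contra hcon
    have hcl : IsClosed (convexHull ℝ (Set.range k)) :=
      ((Set.finite_range k).isCompact_convexHull ℝ).isClosed
    obtain ⟨g, u, h1, h2⟩ := geometric_hahn_banach_closed_point (convex_convexHull ℝ _) hcl hcon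
    set σ : Fin d → Bool := fun i => decide (0 ≤ g (ej i)) with hσ
    have h3 := h1 (k σ) (subset_convexHull ℝ _ ⟨σ, rfl⟩)
    have h4 : 0 ≤ g (k σ - p) := by
      rw [vec_sum (k σ - p), map_sum]
      refine Finset.sum_nonneg fun i _ => ?_
      rw [map_smul, smul_eq_mul]
      have h5 := hk σ i
      have h6 : (k σ - p) i = k σ i - p i := by simp
      rw [h6]
      by_cases h7 : 0 ≤ g (ej i)
      · have h8 : sg (σ i) = 1 := by
          rw [hσ]
          simp [sg, h7]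
        rw [h8, one_mul] at h5
        exact mul_nonneg h5 h7
      · have h8 : sg (σ i) = -1 := by
          rw [hσ]
          simp [sg, h7]
        rw [h8] at h5
        have h9 : k σ i - p i ≤ 0 := by linarith
        exact mul_nonneg_of_nonpos_of_nonpos h9 (not_le.1 h7).le
    rw [map_sub] at h4
    linarith
  obtain ⟨y, ⟨σ, rfl⟩, hy⟩ := hf.exists_ge_of_mem_convexHull (Set.subset_univ _) hmem
  exact hy.trans (hfk σ)

/-- `h` is a point of density of every set `K Q`. -/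
def Dns {d : ℕ} (K : ℕ → Set (Vec d)) (h : Vec d) : Prop :=
  ∀ Q : ℕ, ∀ ε : ℝ, 0 < ε → ∃ r₀ : ℝ, 0 < r₀ ∧ ∀ p : Vec d, 0 < ‖p‖ → ‖p‖ < r₀ →
    ∃ k ∈ K Q, ‖k - (h + p)‖ ≤ ε * ‖p‖

variable {ρ : Measure ℝ} [IsProbabilityMeasure ρ]

lemma X_convex (hd : 0 < d) (β : ℝ) (η : Env d) (n : ℕ) (v : Vec d) (c : ℝ) :
    ConvexOn ℝ Set.univ (fun k : Vec d => X β k η n - c * inner ℝ v k) := by
  refine ⟨convex_univ, fun x _ y _ a b ha hb hab => ?_⟩
  have h1 := FreeV_convex hd β η n x y ha hb hab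
  simp only [smul_eq_mul]
  rw [inner_add_right, real_inner_smul_right, real_inner_smul_right]
  have h2 : a * (X β x η n - c * inner ℝ v x) + b * (X β y η n - c * inner ℝ v y) =
      a * X β x η n + b * X β y η n - c * (a * inner ℝ v x + b * inner ℝ v y) := by ring
  rw [h2]
  linarith

/-- `TubV_far` from an upper bound of the free energy at the tilt `h + s e_j`. -/
lemma far_K (hd : 0 < d) (hρ : EM ρ) {β : ℝ} {h v : Vec d} {B s t u R w : ℝ} {n : ℕ} {η : Env d}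
    (hs : |s| = t) (hB : 0 ≤ B) (j : Fin d)
    (hup : ∀ i ≤ n, X β (h + s • ej j) η i ≤ i * (lam ρ β h + v j * s + B) + u)
    (hR : n * lam ρ β h - A ρ β h n ≤ R)
    (hmid : ∀ i ≤ n, ∀ y ∈ boxF d n, |X β h (sh i y η) (n - i) - A ρ β h (n - i)| ≤ u)
    {i : ℕ} (hi : i ≤ n) :
    Far β h η n i j v s w ≤ Real.exp (n * B + 3 * u + R - t * w) := by
  have hM : ∀ y ∈ boxF d i, Z β h (sh i y η) (n - i) ≤ Real.exp (A ρ β h (n - i) + u) := by
    intro y hy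
    rw [TubV_exp hd]
    refine Real.exp_le_exp.2 ?_
    have := (abs_le.1 (hmid i hi y (TubV_box hi hy))).2
    linarith
  refine (far_le hd β h η hi j v s w hM).trans ?_
  rw [TubV_exp hd β (h + s • ej j) η i, TubV_exp hd β h η n, ← Real.exp_add, ← Real.exp_add,
    ← Real.exp_sub]
  refine Real.exp_le_exp.2 ?_
  have h1 := hup i hi
  have h3 := A_le_lam hd hρ β h (n - i)
  have h4 := hmid 0 (Nat.zero_le n) 0 (TubV_zero n)
  rw [TubV_sh, Nat.sub_zero] at h4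
  have h5 := (abs_le.1 h4).1
  have hi0 : (0 : ℝ) ≤ i := Nat.cast_nonneg _
  have hin : (i : ℝ) ≤ n := by exact_mod_cast hi
  have h7 : ((n - i : ℕ) : ℝ) = n - i := by
    rw [Nat.cast_sub hi]
  rw [h7] at h3
  have h9 : (i : ℝ) * B ≤ n * B := mul_le_mul_of_nonneg_right hin hB
  rw [hs]
  nlinarith

/-- The mass outside of the tube from upper bounds at the tilts `h ± t e_j`. -/
theorem good_K (hd : 0 < d) (hρ : EM ρ) {β : ℝ} {h v : Vec d} {B t u R r : ℝ} {n : ℕ}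
    {η : Env d} (ht : 0 < t) (hB : 0 ≤ B)
    (hup : ∀ j : Fin d, ∀ s : ℝ, |s| = t → ∀ i ≤ n,
      X β (h + s • ej j) η i ≤ i * (lam ρ β h + v j * s + B) + u)
    (hR : n * lam ρ β h - A ρ β h n ≤ R)
    (hmid : ∀ i ≤ n, ∀ y ∈ boxF d n, |X β h (sh i y η) (n - i) - A ρ β h (n - i)| ≤ u) :
    1 - PolT β h η (tube d n v r) ≤
      2 * d * (n + 1) * Real.exp (n * B + 3 * u + R - t * (r / d)) := by
  refine (one_sub_le hd β h η n v (r := r) ht).trans ?_
  have h1 : ∀ i ∈ Finset.range (n + 1), ∑ j : Fin d,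
      (Far β h η n i j v t (r / d) + Far β h η n i j v (-t) (r / d)) ≤
      2 * d * Real.exp (n * B + 3 * u + R - t * (r / d)) := by
    intro i hi
    have hi' : i ≤ n := Nat.lt_succ_iff.1 (Finset.mem_range.1 hi)
    have h2 : ∀ j ∈ (Finset.univ : Finset (Fin d)),
        Far β h η n i j v t (r / d) + Far β h η n i j v (-t) (r / d) ≤
        2 * Real.exp (n * B + 3 * u + R - t * (r / d)) := by
      intro j _
      have b1 : |t| = t := abs_of_pos ht
      have b2 : |(-t)| = t := by rw [abs_neg, abs_of_pos ht]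
      have a1 := far_K (w := r / d) hd hρ b1 hB j (hup j t b1) hR hmid hi'
      have a2 := far_K (w := r / d) hd hρ (s := -t) b2 hB j (hup j (-t) b2) hR hmid hi'
      linarith
    refine (Finset.sum_le_sum h2).trans ?_
    rw [Finset.sum_const, Finset.card_univ, Fintype.card_fin, nsmul_eq_mul]
    linarith
  refine (Finset.sum_le_sum h1).trans ?_
  rw [Finset.sum_const, Finset.card_range, nsmul_eq_mul]
  push_cast
  linarith

/-- The vector with all coordinates `t / 2` up to signs. -/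
noncomputable def sv (t : ℝ) (σ : Fin d → Bool) : Vec d := ∑ i : Fin d, (sg (σ i) * (t / 2)) • ej i

lemma sv_apply (t : ℝ) (σ : Fin d → Bool) (i : Fin d) : (sv t σ) i = sg (σ i) * (t / 2) := by
  unfold sv
  simp only [ej, WithLp.ofLp_sum, WithLp.ofLp_smul, PiLp.ofLp_single, Finset.sum_apply,
    Pi.smul_apply, smul_eq_mul]
  rw [Finset.sum_eq_single i]
  · rw [Pi.single_eq_same, mul_one]
  · intro b _ hb
    rw [Pi.single_eq_of_ne hb.symm, mul_zero]
  · intro h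
    exact absurd (Finset.mem_univ _) h

lemma norm_ej (j : Fin d) : ‖(ej j : Vec d)‖ = 1 := by
  unfold ej
  simp

lemma sv_norm {t : ℝ} (ht : 0 ≤ t) (σ : Fin d → Bool) : ‖sv t σ‖ ≤ d * (t / 2) := by
  unfold sv
  refine (norm_sum_le _ _).trans ?_
  have h1 : ∀ i ∈ (Finset.univ : Finset (Fin d)), ‖(sg (σ i) * (t / 2)) • (ej i : Vec d)‖ ≤ t / 2 := by
    intro i _
    rw [norm_smul, norm_ej, mul_one, Real.norm_eq_abs, abs_mul, abs_sg, one_mul,
      abs_of_nonneg (by linarith)]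
  refine (Finset.sum_le_sum h1).trans (le_of_eq ?_)
  rw [Finset.sum_const, Finset.card_univ, Fintype.card_fin, nsmul_eq_mul]

lemma abs_apply_le (x : Vec d) (i : Fin d) : |x i| ≤ ‖x‖ := by
  rw [← Real.norm_eq_abs]
  exact PiLp.norm_apply_le x i

/-- Tilts of `K Q` in all orthants at the points `h ± t e_j`, at distance of the order `t` from `h`. -/
lemma exists_K {K : ℕ → Set (Vec d)} {h : Vec d} (hD : Dns K h) (Q : ℕ) :
    ∃ r₀ : ℝ, 0 < r₀ ∧ ∀ t : ℝ, 0 < t → t < r₀ → ∀ (j : Fin d) (b : Bool) (σ : Fin d → Bool),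
      ∃ k ∈ K Q, (∀ i, 0 ≤ sg (σ i) * (k i - (h + (sg b * t) • ej j) i)) ∧
        ‖k - h‖ ≤ 2 * (1 + d) * t := by
  have hd0 : (0 : ℝ) ≤ d := Nat.cast_nonneg d
  obtain ⟨r₀, hr₀, H⟩ := hD Q (1 / (2 * (1 + d))) (by positivity)
  refine ⟨r₀ / (1 + d), by positivity, fun t ht htr j b σ => ?_⟩
  have htr' : (1 + d) * t < r₀ := by
    rw [lt_div_iff₀ (by positivity)] at htr
    linarith
  set p : Vec d := (sg b * t) • ej j + sv t σ with hp
  have hp1 : ‖p‖ ≤ (1 + d) * t := by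
    have h1 : ‖(sg b * t) • (ej j : Vec d)‖ = t := by
      rw [norm_smul, norm_ej, mul_one, Real.norm_eq_abs, abs_mul, abs_sg, one_mul, abs_of_pos ht]
    have h2 := sv_norm ht.le σ
    have h3 := norm_add_le ((sg b * t) • (ej j : Vec d)) (sv t σ)
    rw [h1] at h3
    nlinarith
  have hp0 : 0 < ‖p‖ := by
    have h1 := abs_apply_le p j
    have h2 : p j = sg b * t + sg (σ j) * (t / 2) := by
      rw [hp, PiLp.add_apply, sv_apply, PiLp.smul_apply, smul_eq_mul]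
      unfold ej
      simp
    have h3 : t / 2 ≤ |p j| := by
      rw [h2]
      rcases b with _ | _ <;> rcases σ j with _ | _ <;> simp only [sg] <;>
        simp only [if_true, if_false, Bool.false_eq_true] <;> rw [le_abs] <;>
        first | (left; linarith) | (right; linarith)
    linarith
  obtain ⟨k, hk, hkn⟩ := H p hp0 (hp1.trans_lt htr')
  have herr : ‖k - (h + p)‖ ≤ t / 2 := by
    refine hkn.trans ?_
    rw [div_mul_eq_mul_div, one_mul, div_le_iff₀ (by positivity)]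
    linarith
  refine ⟨k, hk, fun i => ?_, ?_⟩
  · have h1 := (abs_apply_le (k - (h + p)) i).trans herr
    have h2 : (k - (h + p)) i = k i - (h + (sg b * t) • ej j) i - sg (σ i) * (t / 2) := by
      rw [hp, PiLp.sub_apply, PiLp.add_apply, PiLp.add_apply, PiLp.add_apply, sv_apply]
      ring
    rw [h2] at h1
    have h3 := abs_le.1 h1
    set z : ℝ := k i - (h + (sg b * t) • ej j) i with hz
    rcases hσ : σ i with _ | _
    · rw [hσ] at h3
      simp only [sg, Bool.false_eq_true, if_false] at h3 ⊢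
      linarith [h3.1, h3.2]
    · rw [hσ] at h3
      simp only [sg, if_true] at h3 ⊢
      linarith [h3.1, h3.2]
  · have h1 : k - h = (k - (h + p)) + p := by abel
    rw [h1]
    refine (norm_add_le _ _).trans ?_
    nlinarith

/-- The upper bound at the tilt `h + s e_j` on the event. -/
lemma up_K (hd : 0 < d) (hρ : EM ρ) {β : ℝ} {h v : Vec d} {C p t u δ : ℝ} {n : ℕ} {η : Env d}
    (hp : 0 < p) (hC : 0 ≤ C)
    (hE : ∀ r : Vec d, ‖r‖ ≤ δ → gap (lam ρ β) h v r ≤ C * ‖r‖ ^ p) (htδ : 2 * (1 + d) * t ≤ δ)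
    (j : Fin d) (b : Bool)
    (H : ∀ σ : Fin d → Bool, ∃ k : Vec d, (∀ i, 0 ≤ sg (σ i) * (k i - (h + (sg b * t) • ej j) i)) ∧
      ‖k - h‖ ≤ 2 * (1 + d) * t ∧ ∀ i ≤ n, X β k η i ≤ A ρ β k i + u) :
    ∀ i ≤ n, X β (h + (sg b * t) • ej j) η i ≤
      i * (lam ρ β h + v j * (sg b * t) + C * (2 * (1 + d) * t) ^ p) + u := by
  intro i hi
  have hi0 : (0 : ℝ) ≤ i := Nat.cast_nonneg i
  have hd0 : (0 : ℝ) ≤ d := Nat.cast_nonneg d
  have h1 := orth74 (X_convex hd β η i v i) (h + (sg b * t) • ej j)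
    (B := i * (lam ρ β h - inner ℝ v h + C * (2 * (1 + d) * t) ^ p) + u) (by
      intro σ
      obtain ⟨k, hk1, hk2, hk3⟩ := H σ
      refine ⟨k, hk1, ?_⟩
      have h2 := hk3 i hi
      have h3 := A_le_lam hd hρ β k i
      have h4 := hE (k - h) (hk2.trans htδ)
      unfold gap at h4
      rw [add_sub_cancel, inner_sub_right] at h4
      have h5 : C * ‖k - h‖ ^ p ≤ C * (2 * (1 + d) * t) ^ p :=
        mul_le_mul_of_nonneg_left (Real.rpow_le_rpow (norm_nonneg _) hk2 hp.le) hC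
      have h6 := mul_le_mul_of_nonneg_left (h4.trans h5) hi0
      have h7 : (i : ℝ) * (lam ρ β k - lam ρ β h - (inner ℝ v k - inner ℝ v h)) =
          i * lam ρ β k - i * (lam ρ β h - inner ℝ v h) - i * inner ℝ v k := by ring
      rw [h7] at h6
      have h8 : (i : ℝ) * (lam ρ β h - inner ℝ v h + C * (2 * (1 + d) * t) ^ p) =
          i * (lam ρ β h - inner ℝ v h) + i * (C * (2 * (1 + d) * t) ^ p) := by ring
      rw [h8]
      linarith)
  have hin : inner ℝ v ((sg b * t) • (ej j : Vec d)) = v j * (sg b * t) := by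
    have h2 := TubU_inner (0 : Vec d) (sg b * t) j v
    rw [zero_add, inner_zero_left, zero_add] at h2
    rw [real_inner_comm, h2, mul_comm]
  simp only [inner_add_right, hin] at h1
  have h2 : (i : ℝ) * (lam ρ β h + v j * (sg b * t) + C * (2 * (1 + d) * t) ^ p) =
      i * (lam ρ β h - inner ℝ v h + C * (2 * (1 + d) * t) ^ p) +
        i * (inner ℝ v h + v j * (sg b * t)) := by ring
  rw [h2]
  linarith

/-- Tails at the tilts of `K Q` for large `Q`. -/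
def TailK {d : ℕ} (ρ : Measure ℝ) (β x : ℝ) (K : ℕ → Set (Vec d)) : Prop :=
  ∀ ε : ℝ, 0 < ε → ∀ q : ℕ, ∃ Q : ℕ, ∃ C : ℝ, 0 ≤ C ∧ ∀ k ∈ K Q, ∀ n m : ℕ, 1 ≤ n → m ≤ n →
    ∀ (t : ℕ) (y : Site d), (law d ρ).real
      {η | (n : ℝ) ^ (x + ε) < |X β k (sh t y η) m - A ρ β k m|} ≤ C * (n : ℝ) ^ (-(q : ℝ))

/-- Rate of convergence at the tilt `h`. -/
def RateK {d : ℕ} (ρ : Measure ℝ) (β x : ℝ) (h : Vec d) : Prop :=
  ∀ ε : ℝ, 0 < ε → x + ε < 1 → ∃ C : ℝ, 0 ≤ C ∧ ∀ n : ℕ, 1 ≤ n →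
    n * lam ρ β h - A ρ β h n ≤ C * (n : ℝ) ^ (x + ε)

/-- The good event. -/
structure GdK {d : ℕ} (ρ : Measure ℝ) (β : ℝ) (h : Vec d) (k : Fin d → Bool → (Fin d → Bool) → Vec d)
    (u : ℝ) (n : ℕ) (η : Env d) : Prop where
  side : ∀ i ≤ n, ∀ (j : Fin d) (b : Bool) (σ : Fin d → Bool),
    |X β (k j b σ) η i - A ρ β (k j b σ) i| ≤ u
  mid : ∀ i ≤ n, ∀ y ∈ boxF d n, |X β h (sh i y η) (n - i) - A ρ β h (n - i)| ≤ u

/-- The probability of the good event, uniformly in the tilts `k j b σ ∈ K Q`. -/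
theorem prob_K {β : ℝ} {h : Vec d} {x : ℝ} {K : ℕ → Set (Vec d)} (hh : ∀ Q, h ∈ K Q)
    (hT : TailK ρ β x K) {ε : ℝ} (hε : 0 < ε) (q : ℕ) :
    ∃ Q : ℕ, ∃ C : ℝ, 0 ≤ C ∧ ∀ n : ℕ, 1 ≤ n → ∀ k : Fin d → Bool → (Fin d → Bool) → Vec d,
      (∀ j b σ, k j b σ ∈ K Q) →
      (law d ρ).real {η | ¬ GdK ρ β h k ((n : ℝ) ^ (x + ε)) n η} ≤ C * (n : ℝ) ^ (-(q : ℝ)) := by
  classical
  obtain ⟨Q, C₀, hC₀, hT'⟩ := hT ε hε (q + d + 2)
  obtain ⟨N, hN⟩ : ∃ N : ℝ, N = ((Finset.univ : Finset (Fin d × Bool × (Fin d → Bool))).card : ℝ) :=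
    ⟨_, rfl⟩
  have hN0 : 0 ≤ N := by
    rw [hN]
    positivity
  refine ⟨Q, C₀ * (2 * N + 2 * 3 ^ d), by positivity, fun n hn k hk => ?_⟩
  have hn1 : (1 : ℝ) ≤ n := by exact_mod_cast hn
  have hn0 : (0 : ℝ) < n := by linarith
  obtain ⟨u, hu⟩ : ∃ u : ℝ, u = (n : ℝ) ^ (x + ε) := ⟨_, rfl⟩
  obtain ⟨B, hB⟩ : ∃ B : ℝ, B = C₀ * (n : ℝ) ^ (-((q + d + 2 : ℕ) : ℝ)) := ⟨_, rfl⟩
  have hB0 : 0 ≤ B := by
    rw [hB]
    exact mul_nonneg hC₀ (Real.rpow_nonneg hn0.le _)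
  obtain ⟨S1, hS1⟩ : ∃ S1 : ℕ × (Fin d × Bool × (Fin d → Bool)) → Set (Env d), S1 = fun a =>
      {η | u < |X β (k a.2.1 a.2.2.1 a.2.2.2) η a.1 - A ρ β (k a.2.1 a.2.2.1 a.2.2.2) a.1|} :=
    ⟨_, rfl⟩
  obtain ⟨S2, hS2⟩ : ∃ S2 : ℕ × Site d → Set (Env d), S2 = fun a =>
      {η | u < |X β h (sh a.1 a.2 η) (n - a.1) - A ρ β h (n - a.1)|} := ⟨_, rfl⟩
  have h1 : ∀ a ∈ (Finset.range (n + 1)) ×ˢ
      (Finset.univ : Finset (Fin d × Bool × (Fin d → Bool))), (law d ρ).real (S1 a) ≤ B := by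
    intro a ha
    have ha1 : a.1 ≤ n := Nat.lt_succ_iff.1 (Finset.mem_range.1 (Finset.mem_product.1 ha).1)
    have h2 := hT' (k a.2.1 a.2.2.1 a.2.2.2) (hk _ _ _) n a.1 hn ha1 0 0
    simp only [TubV_sh] at h2
    rw [hB, hS1, hu]
    exact h2
  have h2 : ∀ a ∈ (Finset.range (n + 1)) ×ˢ boxF d n, (law d ρ).real (S2 a) ≤ B := by
    intro a ha
    have h3 := hT' h (hh Q) n (n - a.1) hn (Nat.sub_le _ _) a.1 a.2
    rw [hB, hS2, hu]
    exact h3
  have hsub : {η | ¬ GdK ρ β h k ((n : ℝ) ^ (x + ε)) n η} ⊆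
      (⋃ a ∈ (Finset.range (n + 1)) ×ˢ
        (Finset.univ : Finset (Fin d × Bool × (Fin d → Bool))), S1 a) ∪
        ⋃ a ∈ (Finset.range (n + 1)) ×ˢ boxF d n, S2 a := by
    intro η hη
    by_contra hcon
    rw [Set.mem_union, not_or, Set.mem_iUnion₂, Set.mem_iUnion₂] at hcon
    obtain ⟨c1, c2⟩ := hcon
    apply hη
    rw [← hu]
    refine ⟨fun i hi j b σ => ?_, fun i hi y hy => ?_⟩
    · by_contra hc
      refine c1 ⟨(i, j, b, σ), ?_, ?_⟩
      · exact Finset.mem_product.2 ⟨Finset.mem_range.2 (Nat.lt_succ_iff.2 hi),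
          Finset.mem_univ _⟩
      · rw [hS1]
        exact not_le.1 hc
    · by_contra hc
      refine c2 ⟨(i, y), ?_, ?_⟩
      · exact Finset.mem_product.2 ⟨Finset.mem_range.2 (Nat.lt_succ_iff.2 hi), hy⟩
      · rw [hS2]
        exact not_le.1 hc
  have h3 : (law d ρ).real {η | ¬ GdK ρ β h k ((n : ℝ) ^ (x + ε)) n η} ≤
      ((n : ℝ) + 1) * N * B + ((n : ℝ) + 1) * (2 * n + 1) ^ d * B := by
    refine (measureReal_mono hsub).trans ((measureReal_union_le _ _).trans (add_le_add ?_ ?_))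
    · refine (measureReal_biUnion_finset_le _ _).trans ((Finset.sum_le_sum h1).trans
        (le_of_eq ?_))
      rw [Finset.sum_const, Finset.card_product, Finset.card_range, nsmul_eq_mul, hN]
      push_cast
      ring
    · refine (measureReal_biUnion_finset_le _ _).trans ((Finset.sum_le_sum h2).trans
        (le_of_eq ?_))
      rw [Finset.sum_const, Finset.card_product, Finset.card_range, card_boxF, nsmul_eq_mul]
      push_cast
      ring
  have h4 : (n : ℝ) + 1 ≤ 2 * n := by linarith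
  have h5 : (2 * (n : ℝ) + 1) ^ d ≤ 3 ^ d * (n : ℝ) ^ d := by
    rw [← mul_pow]
    exact pow_le_pow_left₀ (by positivity) (by linarith) d
  have h6 : (1 : ℝ) ≤ (n : ℝ) ^ d := one_le_pow₀ hn1
  have h7 : ((n : ℝ) + 1) * N * B ≤ (2 * N) * ((n : ℝ) ^ (d + 1) * B) := by
    have e1 : ((n : ℝ) + 1) * N ≤ (2 * n) * N := mul_le_mul_of_nonneg_right h4 hN0
    have e2 : (2 * (n : ℝ)) * N ≤ (2 * N) * ((n : ℝ) ^ d * n) := by
      have e3 : (n : ℝ) ≤ (n : ℝ) ^ d * n := le_mul_of_one_le_left hn0.le h6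
      have e4 := mul_le_mul_of_nonneg_left e3 (show (0 : ℝ) ≤ 2 * N by positivity)
      linarith
    have e5 := mul_le_mul_of_nonneg_right (e1.trans e2) hB0
    rw [pow_succ]
    linarith
  have h8 : ((n : ℝ) + 1) * (2 * n + 1) ^ d * B ≤ (2 * 3 ^ d) * ((n : ℝ) ^ (d + 1) * B) := by
    have e1 : ((n : ℝ) + 1) * (2 * n + 1) ^ d ≤ (2 * n) * (3 ^ d * (n : ℝ) ^ d) :=
      mul_le_mul h4 h5 (by positivity) (by positivity)
    have e5 := mul_le_mul_of_nonneg_right e1 hB0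
    rw [pow_succ]
    linarith
  have h9 : (n : ℝ) ^ (d + 1) * B ≤ C₀ * (n : ℝ) ^ (-(q : ℝ)) := by
    rw [hB]
    have e1 : (n : ℝ) ^ (d + 1) * (n : ℝ) ^ (-((q + d + 2 : ℕ) : ℝ)) ≤
        (n : ℝ) ^ (-(q : ℝ)) := by
      rw [← Real.rpow_natCast, ← Real.rpow_add hn0]
      refine Real.rpow_le_rpow_of_exponent_le hn1 ?_
      push_cast
      linarith
    calc (n : ℝ) ^ (d + 1) * (C₀ * (n : ℝ) ^ (-((q + d + 2 : ℕ) : ℝ)))
        = C₀ * ((n : ℝ) ^ (d + 1) * (n : ℝ) ^ (-((q + d + 2 : ℕ) : ℝ))) := by ring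
      _ ≤ C₀ * (n : ℝ) ^ (-(q : ℝ)) := mul_le_mul_of_nonneg_left e1 hC₀
  have h10 : (2 * N + 2 * 3 ^ d) * ((n : ℝ) ^ (d + 1) * B) ≤
      (2 * N + 2 * 3 ^ d) * (C₀ * (n : ℝ) ^ (-(q : ℝ))) :=
    mul_le_mul_of_nonneg_left h9 (by positivity)
  calc (law d ρ).real {η | ¬ GdK ρ β h k ((n : ℝ) ^ (x + ε)) n η}
      ≤ ((n : ℝ) + 1) * N * B + ((n : ℝ) + 1) * (2 * n + 1) ^ d * B := h3
    _ ≤ (2 * N) * ((n : ℝ) ^ (d + 1) * B) + (2 * 3 ^ d) * ((n : ℝ) ^ (d + 1) * B) :=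
        add_le_add h7 h8
    _ = (2 * N + 2 * 3 ^ d) * ((n : ℝ) ^ (d + 1) * B) := by ring
    _ ≤ (2 * N + 2 * 3 ^ d) * (C₀ * (n : ℝ) ^ (-(q : ℝ))) := h10
    _ = C₀ * (2 * N + 2 * 3 ^ d) * (n : ℝ) ^ (-(q : ℝ)) := by ring

/-- The mass outside of the tube, with the fluctuations at the tilts of `K Q` only. -/
theorem tube_K (hd : 0 < d) (hρ : EM ρ) {β : ℝ} {h v : Vec d} {x : ℝ} (hx : 0 < x)
    (hx1 : x < 1) {K : ℕ → Set (Vec d)} (hh : ∀ Q, h ∈ K Q) (hD : Dns K h) (hT : TailK ρ β x K)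
    (hRt : RateK ρ β x h) {p : ℝ} (hp : 0 < p) (hE : UpG (lam ρ β) h v p) {a : ℝ}
    (ha : 1 + (p - 1) * x < p * a) (q : ℕ) :
    ∃ C : ℝ, ∀ n : ℕ, 1 ≤ n →
      ∫ η, (1 - PolT β h η (tube d n v ((n : ℝ) ^ a))) ∂(law d ρ) ≤ C * (n : ℝ) ^ (-(q : ℝ)) := by
  have hd0 : (0 : ℝ) < d := by exact_mod_cast hd
  have ha' : x + (1 - x) / p < a := by
    have h1 : p * (x + (1 - x) / p) < p * a := by
      rw [mul_add, mul_div_cancel₀ _ hp.ne']
      linarith
    exact lt_of_mul_lt_mul_left h1 hp.le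
  obtain ⟨ε, hε, hε1, hε2⟩ : ∃ ε : ℝ, 0 < ε ∧ x + (1 - x) / p + 3 * ε ≤ a ∧ x + ε < 1 := by
    refine ⟨min ((a - (x + (1 - x) / p)) / 3) ((1 - x) / 2), lt_min (by linarith) (by linarith),
      ?_, ?_⟩
    · have := min_le_left ((a - (x + (1 - x) / p)) / 3) ((1 - x) / 2)
      linarith
    · have := min_le_right ((a - (x + (1 - x) / p)) / 3) ((1 - x) / 2)
      linarith
  obtain ⟨C₁, hC₁, H₁⟩ := hRt ε hε hε2
  obtain ⟨Q, C₂, hC₂, H₂⟩ := prob_K hh hT hε q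
  obtain ⟨δ₂, hδ₂, HK⟩ := exists_K hD Q
  obtain ⟨C₃, δ₃, hδ₃, H₃⟩ := hE
  have hC₃ : 0 ≤ max C₃ 0 := le_max_right _ _
  obtain ⟨D, hD'⟩ : ∃ D : ℝ, D = max C₃ 0 * (2 * (1 + d)) ^ p := ⟨_, rfl⟩
  have hD0 : 0 ≤ D := by
    rw [hD']
    exact mul_nonneg hC₃ (Real.rpow_nonneg (by positivity) _)
  obtain ⟨C', hC'⟩ : ∃ C' : ℝ, C' = D + 3 + C₁ := ⟨_, rfl⟩
  have hC'0 : 0 ≤ C' := by
    rw [hC']
    linarith
  have hint : ∀ n : ℕ, ∀ η : Env d, 1 - PolT β h η (tube d n v ((n : ℝ) ^ a)) ≤ 1 := fun n η => by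
    have := PolT_nonneg β h η (tube d n v ((n : ℝ) ^ a))
    linarith
  have hint0 : ∀ n : ℕ, ∀ η : Env d, 0 ≤ 1 - PolT β h η (tube d n v ((n : ℝ) ^ a)) := fun n η => by
    have := PolT_le_one β h η (tube d n v ((n : ℝ) ^ a))
    linarith
  -- small tilts
  have hcast := tendsto_natCast_atTop_atTop (R := ℝ)
  have hxp : 0 < (1 - x) / p := div_pos (by linarith) hp
  have hδ' : 0 < min δ₂ (δ₃ / (2 * (1 + d))) := lt_min hδ₂ (by positivity)
  have ht : ∀ᶠ n : ℕ in atTop, (n : ℝ) ^ (-((1 - x) / p)) < min δ₂ (δ₃ / (2 * (1 + d))) := by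
    have h1 := (tendsto_rpow_neg_atTop hxp).comp hcast
    exact h1.eventually (gt_mem_nhds hδ')
  obtain ⟨N, hN⟩ := eventually_atTop.1 (ht.and (TubW_asym d hd C' hC'0 hx hε q))
  refine ⟨max (C₂ + 4 * d) ((N : ℝ) ^ (q : ℝ)), fun n hn => ?_⟩
  have hn1 : (1 : ℝ) ≤ n := by exact_mod_cast hn
  have hn0 : (0 : ℝ) < n := by linarith
  have hq0 : 0 ≤ (n : ℝ) ^ (-(q : ℝ)) := Real.rpow_nonneg hn0.le _
  rcases lt_or_ge n N with hnN | hnN
  · -- small n
    have h1 : ∫ η, (1 - PolT β h η (tube d n v ((n : ℝ) ^ a))) ∂(law d ρ) ≤ 1 := by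
      have h2 := integral_mono_of_nonneg (μ := law d ρ) (Eventually.of_forall (hint0 n))
        (integrable_const (1 : ℝ)) (Eventually.of_forall (hint n))
      refine h2.trans (le_of_eq ?_)
      simp
    refine h1.trans ?_
    have h3 : 1 ≤ (N : ℝ) ^ (q : ℝ) * (n : ℝ) ^ (-(q : ℝ)) := by
      rw [Real.rpow_neg hn0.le, ← div_eq_mul_inv, one_le_div (Real.rpow_pos_of_pos hn0 _)]
      exact Real.rpow_le_rpow hn0.le (by exact_mod_cast hnN.le) (Nat.cast_nonneg q)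
    exact h3.trans (mul_le_mul_of_nonneg_right (le_max_right _ _) hq0)
  · obtain ⟨ht1, hasym⟩ := hN n hnN
    set t : ℝ := (n : ℝ) ^ (-((1 - x) / p)) with htdef
    have ht0 : 0 < t := Real.rpow_pos_of_pos hn0 _
    have ht2 : t < δ₂ := ht1.trans_le (min_le_left _ _)
    have ht3 : 2 * (1 + d) * t ≤ δ₃ := by
      have h1 : t < δ₃ / (2 * (1 + d)) := ht1.trans_le (min_le_right _ _)
      rw [lt_div_iff₀ (by positivity)] at h1
      linarith
    choose k hkQ hks hkn using HK t ht0 ht2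
    have hbad := H₂ n hn k hkQ
    have hR := H₁ n hn
    have htp : 0 < t ^ p := Real.rpow_pos_of_pos ht0 _
    have hE' : ∀ r : Vec d, ‖r‖ ≤ δ₃ → gap (lam ρ β) h v r ≤ max C₃ 0 * ‖r‖ ^ p := fun r hr =>
      (H₃ r hr).trans (mul_le_mul_of_nonneg_right (le_max_left _ _)
        (Real.rpow_nonneg (norm_nonneg _) _))
    have hB : max C₃ 0 * (2 * (1 + d) * t) ^ p = D * t ^ p := by
      rw [hD', Real.mul_rpow (by positivity) ht0.le]
      ring
    have hnt : n * (D * t ^ p) ≤ D * (n : ℝ) ^ (x + ε) := by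
      have h1 : (n : ℝ) * t ^ p = (n : ℝ) ^ x := by
        have h2 : t ^ p = (n : ℝ) ^ (-(1 - x)) := by
          rw [htdef, ← Real.rpow_mul hn0.le]
          congr 1
          field_simp
        rw [h2]
        nth_rewrite 1 [← Real.rpow_one (n : ℝ)]
        rw [← Real.rpow_add hn0]
        congr 1
        ring
      have h2 : (n : ℝ) ^ x ≤ (n : ℝ) ^ (x + ε) :=
        Real.rpow_le_rpow_of_exponent_le hn1 (by linarith)
      calc n * (D * t ^ p) = D * (n * t ^ p) := by ring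
        _ = D * (n : ℝ) ^ x := by rw [h1]
        _ ≤ _ := mul_le_mul_of_nonneg_left h2 hD0
    have htr : (n : ℝ) ^ (x + 3 * ε) / d ≤ t * ((n : ℝ) ^ a / d) := by
      rw [← mul_div_assoc]
      refine div_le_div_of_nonneg_right ?_ hd0.le
      rw [htdef, ← Real.rpow_add hn0]
      exact Real.rpow_le_rpow_of_exponent_le hn1 (by linarith)
    have hexp : n * (D * t ^ p) + 3 * (n : ℝ) ^ (x + ε) + C₁ * (n : ℝ) ^ (x + ε) -
        t * ((n : ℝ) ^ a / d) ≤ C' * (n : ℝ) ^ (x + ε) - (n : ℝ) ^ (x + 3 * ε) / d := by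
      rw [hC']
      linarith
    have hgood : ∀ η ∈ {η | GdK ρ β h k ((n : ℝ) ^ (x + ε)) n η},
        1 - PolT β h η (tube d n v ((n : ℝ) ^ a)) ≤
          2 * d * (n + 1) * Real.exp (n * (D * t ^ p) + 3 * (n : ℝ) ^ (x + ε) +
            C₁ * (n : ℝ) ^ (x + ε) - t * ((n : ℝ) ^ a / d)) := by
      intro η hη
      have hη' : GdK ρ β h k ((n : ℝ) ^ (x + ε)) n η := hη
      refine good_K hd hρ ht0 (mul_nonneg hD0 htp.le) ?_ hR hη'.mid
      intro j s hs i hi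
      obtain ⟨b, hb⟩ : ∃ b : Bool, s = sg b * t := by
        rcases (abs_eq ht0.le).1 hs with h1 | h1
        · exact ⟨true, by simp [sg, h1]⟩
        · exact ⟨false, by simp [sg, h1]⟩
      rw [hb, ← hB]
      refine up_K hd hρ hp hC₃ hE' ht3 j b (fun σ => ⟨k j b σ, hks j b σ, hkn j b σ, ?_⟩) i hi
      intro l hl
      have h1 := (abs_le.1 (hη'.side l hl j b σ)).2
      linarith
    have hmain := TubW_split (μ := law d ρ)
      (f := fun η => 1 - PolT β h η (tube d n v ((n : ℝ) ^ a))) (hint n)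
      (G := {η | GdK ρ β h k ((n : ℝ) ^ (x + ε)) n η}) (b := 4 * d * (n : ℝ) ^ (-(q : ℝ)))
      (by positivity)
      (fun η hη => (hgood η hη).trans
        ((mul_le_mul_of_nonneg_left (Real.exp_le_exp.2 hexp) (by positivity)).trans hasym))
      (hint0 n)
    have hset : ({η | GdK ρ β h k ((n : ℝ) ^ (x + ε)) n η} : Set (Env d))ᶜ =
        {η | ¬ GdK ρ β h k ((n : ℝ) ^ (x + ε)) n η} := rfl
    rw [hset] at hmain
    refine hmain.trans ?_
    calc (law d ρ).real {η | ¬ GdK ρ β h k ((n : ℝ) ^ (x + ε)) n η} +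
          4 * d * (n : ℝ) ^ (-(q : ℝ)) ≤ C₂ * (n : ℝ) ^ (-(q : ℝ)) +
          4 * d * (n : ℝ) ^ (-(q : ℝ)) := add_le_add hbad le_rfl
      _ = (C₂ + 4 * d) * (n : ℝ) ^ (-(q : ℝ)) := by ring
      _ ≤ _ := mul_le_mul_of_nonneg_right (le_max_left _ _) hq0

end Pool.Agent.W_7d29a1_D2.TubK74
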