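import Pool.Agent.W_7d29a1_h46u.StrU

/-!
# The upper half of the scaling relation with a general exponent of the free energy

If `lam (h + r) ≤ lam h + ⟨v, r⟩ + C |r| ^ p` for all small `r` (only the coordinate directions are used), then
`p ν* (h, v) ≤ 1 + (p - 1) χ* (h)`. For `p = 2` this is `nuS_le`.
-/

namespace Pool.Agent.W_7d29a1_D2

open MeasureTheory ProbabilityTheory Filter Topology Pool.Agent.W_MP_7d29a1_pr
  Pool.Agent.W_7d29a1_h46 Pool.Agent.W_7d29a1_h46u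

/-- Upper expansion of order `p` of `L` at `h` along the coordinate directions, for small increments. -/
def ExpP {d : ℕ} (L : Vec d → ℝ) (h v : Vec d) (p : ℝ) : Prop :=
  ∃ C : ℝ, ∃ δ > 0, ∀ j : Fin d, ∀ t : ℝ, |t| ≤ δ → L (h + t • ej j) ≤ L h + v j * t + C * |t| ^ p

section

variable {d : ℕ} {ρ : Measure ℝ} [IsProbabilityMeasure ρ]

theorem tube_goodP (hd : 0 < d) (hρ : EM ρ) {β : ℝ} {h v : Vec d} {B t u R r : ℝ} {n : ℕ} {η : Env d}
    (ht : 0 < t) (hB : 0 ≤ B)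
    (hE : ∀ j : Fin d, ∀ s : ℝ, |s| = t → lam ρ β (h + s • ej j) ≤ lam ρ β h + v j * s + B)
    (hR : n * lam ρ β h - A ρ β h n ≤ R) (hg : GdU ρ β h t u n η) :
    1 - PolT β h η (tube d n v r) ≤
      2 * d * (n + 1) * Real.exp (n * B + 3 * u + R - t * (r / d)) := by
  have hC : 0 ≤ B / t ^ 2 := by positivity
  have hBt : B / t ^ 2 * t ^ 2 = B := by field_simp
  have hE' : ∀ j : Fin d, ∀ s : ℝ, |s| = t →
      lam ρ β (h + s • ej j) ≤ lam ρ β h + v j * s + B / t ^ 2 * s ^ 2 := by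
    intro j s hs
    have h1 : s ^ 2 = t ^ 2 := by rw [← hs, sq_abs]
    rw [h1, hBt]
    exact hE j s hs
  refine (one_sub_le hd β h η n v (r := r) ht).trans ?_
  have h1 : ∀ i ∈ Finset.range (n + 1), ∑ j : Fin d,
      (Far β h η n i j v t (r / d) + Far β h η n i j v (-t) (r / d)) ≤
      2 * d * Real.exp (n * B + 3 * u + R - t * (r / d)) := by
    intro i hi
    have hi' : i ≤ n := Nat.lt_succ_iff.1 (Finset.mem_range.1 hi)
    have h2 : ∀ j ∈ (Finset.univ : Finset (Fin d)),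
        Far β h η n i j v t (r / d) + Far β h η n i j v (-t) (r / d) ≤
        2 * Real.exp (n * B + 3 * u + R - t * (r / d)) := by
      intro j _
      have a1 := TubV_far (w := r / d) hd hρ (abs_of_pos ht) hC j
        (hE' j t (abs_of_pos ht)) hR (fun i hi => (hg.side i hi j).1) hg.mid hi'
      have a2 := TubV_far (w := r / d) hd hρ (s := -t) (by rw [abs_neg, abs_of_pos ht]) hC j
        (hE' j (-t) (by rw [abs_neg, abs_of_pos ht])) hR
        (fun i hi => (hg.side i hi j).2) hg.mid hi'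
      rw [hBt] at a1 a2
      linarith
    refine (Finset.sum_le_sum h2).trans ?_
    rw [Finset.sum_const, Finset.card_univ, Fintype.card_fin, nsmul_eq_mul]
    linarith
  refine (Finset.sum_le_sum h1).trans ?_
  rw [Finset.sum_const, Finset.card_range, nsmul_eq_mul]
  push_cast
  linarith

/-- The polymer with tilt `h` leaves the tube of radius `n ^ a` with superpolynomially small probability, for every
`a > (1 + (p - 1) x) / p`, if the fluctuations are at most `n ^ x` and the free energy has the upper exponent `p`. -/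
theorem tube_intP (hd : 0 < d) (hρ : EM ρ) {β : ℝ} {h v : Vec d} {x : ℝ} (hx : 0 < x)
    (hx1 : x < 1) (hF : Fl ρ β h x) {p : ℝ} (hp : 0 < p) (hE : ExpP (lam ρ β) h v p) {a : ℝ}
    (ha : (1 + (p - 1) * x) / p < a) (q : ℕ) :
    ∃ C : ℝ, ∀ n : ℕ, 1 ≤ n →
      ∫ η, (1 - PolT β h η (tube d n v ((n : ℝ) ^ a))) ∂(law d ρ) ≤ C * (n : ℝ) ^ (-(q : ℝ)) := by
  have hd0 : (0 : ℝ) < d := by exact_mod_cast hd
  obtain ⟨ε, hε, hε1, hε2⟩ : ∃ ε : ℝ, 0 < ε ∧ (1 + (p - 1) * x) / p + 3 * ε ≤ a ∧ x + ε < 1 := by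
    refine ⟨min ((a - (1 + (p - 1) * x) / p) / 3) ((1 - x) / 2), lt_min (by linarith) (by linarith),
      ?_, ?_⟩
    · have := min_le_left ((a - (1 + (p - 1) * x) / p) / 3) ((1 - x) / 2)
      linarith
    · have := min_le_right ((a - (1 + (p - 1) * x) / p) / 3) ((1 - x) / 2)
      linarith
  obtain ⟨δ₁, hδ₁, C₁, hC₁, H₁⟩ := rateU hd hρ hx.le hF hε hε2
  obtain ⟨δ₂, hδ₂, C₂, hC₂, H₂⟩ := prob_good hd hρ hx.le hF hε q
  obtain ⟨C₃, δ₃, hδ₃, H₃⟩ := hE
  have H₃' : ∀ j : Fin d, ∀ t : ℝ, |t| ≤ δ₃ →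
      lam ρ β (h + t • ej j) ≤ lam ρ β h + v j * t + max C₃ 0 * |t| ^ p := fun j t ht =>
    (H₃ j t ht).trans (by
      have := mul_le_mul_of_nonneg_right (le_max_left C₃ 0) (Real.rpow_nonneg (abs_nonneg t) p)
      linarith)
  have hC₃ : 0 ≤ max C₃ 0 := le_max_right _ _
  set C' : ℝ := max C₃ 0 + 3 + C₁ with hC'
  have hC'0 : 0 ≤ C' := by positivity
  have hint : ∀ n : ℕ, ∀ η : Env d, 1 - PolT β h η (tube d n v ((n : ℝ) ^ a)) ≤ 1 := fun n η => by
    have := PolT_nonneg β h η (tube d n v ((n : ℝ) ^ a))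
    linarith
  have hint0 : ∀ n : ℕ, ∀ η : Env d, 0 ≤ 1 - PolT β h η (tube d n v ((n : ℝ) ^ a)) := fun n η => by
    have := PolT_le_one β h η (tube d n v ((n : ℝ) ^ a))
    linarith
  -- small tilts
  have hxp : 0 < (1 - x) / p := div_pos (by linarith) hp
  have hcast := tendsto_natCast_atTop_atTop (R := ℝ)
  have ht : ∀ᶠ n : ℕ in atTop, (n : ℝ) ^ (-((1 - x) / p)) < min δ₂ δ₃ := by
    have h1 := (tendsto_rpow_neg_atTop hxp).comp hcast
    exact h1.eventually (gt_mem_nhds (lt_min hδ₂ hδ₃))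
  obtain ⟨N, hN⟩ := eventually_atTop.1 (ht.and (TubW_asym d hd C' hC'0 hx hε q))
  refine ⟨max (C₂ + 4 * d) ((N : ℝ) ^ (q : ℝ)), fun n hn => ?_⟩
  have hn1 : (1 : ℝ) ≤ n := by exact_mod_cast hn
  have hn0 : (0 : ℝ) < n := by linarith
  have hq0 : 0 ≤ (n : ℝ) ^ (-(q : ℝ)) := Real.rpow_nonneg hn0.le _
  rcases lt_or_ge n N with hnN | hnN
  · -- small n
    have h1 : ∫ η, (1 - PolT β h η (tube d n v ((n : ℝ) ^ a))) ∂(law d ρ) ≤ 1 := by
      have h2 := integral_mono_of_nonneg (μ := law d ρ) (Eventually.of_forall (hint0 n))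
        (integrable_const (1 : ℝ)) (Eventually.of_forall (hint n))
      refine h2.trans (le_of_eq ?_)
      simp
    refine h1.trans ?_
    have h3 : 1 ≤ (N : ℝ) ^ (q : ℝ) * (n : ℝ) ^ (-(q : ℝ)) := by
      rw [Real.rpow_neg hn0.le, ← div_eq_mul_inv, one_le_div (Real.rpow_pos_of_pos hn0 _)]
      exact Real.rpow_le_rpow hn0.le (by exact_mod_cast hnN.le) (Nat.cast_nonneg q)
    exact h3.trans (mul_le_mul_of_nonneg_right (le_max_right _ _) hq0)
  · obtain ⟨ht1, hasym⟩ := hN n hnN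
    set t : ℝ := (n : ℝ) ^ (-((1 - x) / p)) with htdef
    have ht0 : 0 < t := Real.rpow_pos_of_pos hn0 _
    have htδ2 : t < δ₂ := ht1.trans_le (min_le_left _ _)
    have htδ3 : t ≤ δ₃ := (ht1.trans_le (min_le_right _ _)).le
    have hbad := H₂ n hn t (by rw [abs_of_pos ht0]; exact htδ2)
    have hR := H₁ h (by simpa using hδ₁) n hn
    have hB0 : 0 ≤ max C₃ 0 * t ^ p := mul_nonneg hC₃ (Real.rpow_nonneg ht0.le _)
    have hEt : ∀ j : Fin d, ∀ s : ℝ, |s| = t →
        lam ρ β (h + s • ej j) ≤ lam ρ β h + v j * s + max C₃ 0 * t ^ p := by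
      intro j s hs
      have := H₃' j s (by rw [hs]; exact htδ3)
      rwa [hs] at this
    have hnt : n * (max C₃ 0 * t ^ p) ≤ max C₃ 0 * (n : ℝ) ^ (x + ε) := by
      have h1 : (n : ℝ) * t ^ p = (n : ℝ) ^ x := by
        have h2 : t ^ p = (n : ℝ) ^ (-(1 - x)) := by
          rw [htdef, ← Real.rpow_mul hn0.le]
          congr 1
          field_simp
        rw [h2]
        nth_rewrite 1 [← Real.rpow_one (n : ℝ)]
        rw [← Real.rpow_add hn0]
        congr 1
        ring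
      have h2 : (n : ℝ) ^ x ≤ (n : ℝ) ^ (x + ε) :=
        Real.rpow_le_rpow_of_exponent_le hn1 (by linarith)
      calc n * (max C₃ 0 * t ^ p) = max C₃ 0 * (n * t ^ p) := by ring
        _ = max C₃ 0 * (n : ℝ) ^ x := by rw [h1]
        _ ≤ _ := mul_le_mul_of_nonneg_left h2 hC₃
    have hexpo : x + 3 * ε ≤ -((1 - x) / p) + a := by
      have h1 : (1 + (p - 1) * x) / p = (1 - x) / p + x := by
        field_simp
        ring
      rw [h1] at hε1
      linarith
    have htr : (n : ℝ) ^ (x + 3 * ε) / d ≤ t * ((n : ℝ) ^ a / d) := by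
      rw [← mul_div_assoc]
      refine div_le_div_of_nonneg_right ?_ hd0.le
      rw [htdef, ← Real.rpow_add hn0]
      exact Real.rpow_le_rpow_of_exponent_le hn1 hexpo
    have hexp : n * (max C₃ 0 * t ^ p) + 3 * (n : ℝ) ^ (x + ε) + C₁ * (n : ℝ) ^ (x + ε) -
        t * ((n : ℝ) ^ a / d) ≤ C' * (n : ℝ) ^ (x + ε) - (n : ℝ) ^ (x + 3 * ε) / d := by
      rw [hC']
      linarith
    have hmain := TubW_split (μ := law d ρ)
      (f := fun η => 1 - PolT β h η (tube d n v ((n : ℝ) ^ a))) (hint n)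
      (G := {η | GdU ρ β h t ((n : ℝ) ^ (x + ε)) n η}) (b := 4 * d * (n : ℝ) ^ (-(q : ℝ)))
      (by positivity)
      (fun η hη => (tube_goodP hd hρ ht0 hB0 hEt hR hη).trans
        ((mul_le_mul_of_nonneg_left (Real.exp_le_exp.2 hexp) (by positivity)).trans hasym))
      (hint0 n)
    have hset : ({η | GdU ρ β h t ((n : ℝ) ^ (x + ε)) n η} : Set (Env d))ᶜ =
        {η | ¬ GdU ρ β h t ((n : ℝ) ^ (x + ε)) n η} := rfl
    rw [hset] at hmain
    refine hmain.trans ?_
    calc (law d ρ).real {η | ¬ GdU ρ β h t ((n : ℝ) ^ (x + ε)) n η} +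
          4 * d * (n : ℝ) ^ (-(q : ℝ)) ≤ C₂ * (n : ℝ) ^ (-(q : ℝ)) +
          4 * d * (n : ℝ) ^ (-(q : ℝ)) := add_le_add hbad le_rfl
      _ = (C₂ + 4 * d) * (n : ℝ) ^ (-(q : ℝ)) := by ring
      _ ≤ _ := mul_le_mul_of_nonneg_right (le_max_left _ _) hq0

/-- An upper expansion of order `p` on a ball gives one along the coordinate directions. -/
theorem ExpP_of_ball {L : Vec d → ℝ} {h v : Vec d} {p C δ : ℝ} (hδ : 0 < δ)
    (H : ∀ r : Vec d, ‖r‖ ≤ δ → L (h + r) ≤ L h + inner ℝ v r + C * ‖r‖ ^ p) : ExpP L h v p := by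
  refine ⟨C, δ, hδ, fun j t ht => ?_⟩
  have h1 : ‖t • (ej j : Vec d)‖ = |t| := by
    rw [norm_smul, Real.norm_eq_abs]
    have : ‖(ej j : Vec d)‖ = 1 := by
      unfold ej
      simp
    rw [this, mul_one]
  have h2 : inner ℝ v (t • (ej j : Vec d)) = v j * t := by
    rw [real_inner_smul_right]
    have : inner ℝ v (ej j : Vec d) = v j := by
      unfold ej
      rw [EuclideanSpace.inner_single_right]
      simp
    rw [this, mul_comm]
  have := H (t • ej j) (by rw [h1]; exact ht)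
  rwa [h1, h2] at this

/-- A second order expansion is one of order `2`. -/
theorem ExpP_two {L : Vec d → ℝ} {h v : Vec d} (H : ExpC L h v) : ExpP L h v 2 := by
  obtain ⟨C, hC⟩ := H
  refine ⟨C, 1, one_pos, fun j t ht => ?_⟩
  have := hC j t ht
  rwa [← sq_abs, ← Real.rpow_natCast, Nat.cast_ofNat] at this

end

section

variable {d : ℕ} {Ω : Type*} [MeasurableSpace Ω] {μ : Measure Ω} [IsProbabilityMeasure μ]
  {ρ : Measure ℝ} [IsProbabilityMeasure ρ] {ω : ℕ × Site d → Ω → ℝ} {β : ℝ}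

/-- **Clause (U).** If the free energy has the upper exponent `p` at `h` with slope `v`, then
`p ν* ≤ 1 + (p - 1) χ*`. -/
theorem nuS_leP (hd : 0 < d) (hω : IID μ ρ ω) (hρ : EM ρ) {h v : Vec d} {p : ℝ} (hp : 1 ≤ p)
    (hE : ExpP (lam ρ β) h v p) : p * nuS μ β ω h v ≤ 1 + (p - 1) * chiS μ β ω h := by
  have hp0 : 0 < p := by linarith
  have hne : (chiSetS μ β ω h).Nonempty :=
    ⟨1 / 2, (mem_chiSetS hd hω hρ h _).2 ⟨by norm_num, Fl_half hd hρ β h⟩⟩
  have key : ∀ x ∈ chiSetS μ β ω h, x < 1 → nuS μ β ω h v ≤ (1 + (p - 1) * x) / p := by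
    intro x hx hx1
    obtain ⟨hx0, hF⟩ := (mem_chiSetS hd hω hρ h x).1 hx
    have hpos : 0 < (1 + (p - 1) * x) / p := by
      have : 0 ≤ (p - 1) * x := mul_nonneg (by linarith) hx0.le
      exact div_pos (by linarith) hp0
    refine le_of_forall_gt_imp_ge_of_dense fun a ha => ?_
    refine csInf_le ⟨0, fun b hb => hb.1.le⟩
      ((mem_nuSetS hω h v a).2 ⟨hpos.trans ha, fun q => ?_⟩)
    exact tube_intP hd hρ hx0 hx1 hF hp0 hE ha q
  by_contra hcon
  push Not at hcon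
  set D : ℝ := p * nuS μ β ω h v - (1 + (p - 1) * chiS μ β ω h) with hD
  have hD0 : 0 < D := by rw [hD]; linarith
  have h2 : chiS μ β ω h < 1 := (chiS_le_half hd hω hρ h).trans_lt (by norm_num)
  have h1 : chiS μ β ω h < chiS μ β ω h + D / p := by
    have : 0 < D / p := div_pos hD0 hp0
    linarith
  obtain ⟨x, hx, hxlt⟩ := exists_lt_of_csInf_lt hne (lt_min h1 h2)
  have h3 := key x hx (hxlt.trans_le (min_le_right _ _))
  have h4 := hxlt.trans_le (min_le_left _ _)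
  rw [le_div_iff₀ hp0] at h3
  have h5 : (p - 1) * (x - chiS μ β ω h) ≤ (p - 1) * (D / p) :=
    mul_le_mul_of_nonneg_left (by linarith) (by linarith)
  have h6 : (p - 1) * (D / p) < D := by
    have : (p - 1) * (D / p) = D - D / p := by
      field_simp
    rw [this]
    have : 0 < D / p := div_pos hD0 hp0
    linarith
  nlinarith

end

end Pool.Agent.W_7d29a1_D2
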